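import Pool.Agent.H50.CP.Disc

/-!
# D1: the slot indicators of independent Poisson clocks are independent Bernoulli variables

Plan.
1. Unit law (`unit_law`): for `r`, `N > 0`, the image of `(poissonMeasure r).prod (infinitePi unif)`
   under `p ↦ (i : Fin N ↦ [∃ j < p.1, 0 < p.2 j ≤ 1 and i/N < p.2 j ≤ (i+1)/N])` is
   `Measure.pi fun _ : Fin N => ber (1 - exp(-r/N))`.
   Two probability measures on `Fin N → Bool` which agree on all sets `{f | ∀ i ∈ S, f i = false}`
   (`S : Finset (Fin N)`) are equal (π-system generating the σ-algebra).  For the first measure the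
   mass is `Σ_k exp(-r) r^k/k! (1 - |S|/N)^k = exp(-r |S|/N)` (given `p.1 = k` the first `k`
   positions are iid uniform, each avoids the union of the slots of `S` w.p. `1-|S|/N`).
2. One clock: `marks c ∩ (n, n+1]` only depends on `c n`, and slot `k` (`k = N m + i`, `i < N`)
   is the `i`-th sub-slot of the unit interval `(n, n+1]`, `n = m - T`.  Use
   `infinitePi_map_pi`, the general `infinitePi_reindex` below (injective `m ↦ m - T`), and
   `infinitePi_map_curry_symm` / `infinitePi_map_piCongrLeft` with `ℕ ≃ ℕ × Fin N`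
   (`Nat.divModEquiv`).
3. Family: `infinitePi_map_pi`.
-/

namespace H50CP

open MeasureTheory ProbabilityTheory Set
open scoped NNReal ENNReal

/-- restriction of a product measure along an injective reindexing -/
theorem infinitePi_reindex {ι κ : Type} {X : Type} [MeasurableSpace X] (μ : ι → Measure X)
    [∀ i, IsProbabilityMeasure (μ i)] (j : κ → ι) (hj : Function.Injective j) :
    (Measure.infinitePi μ).map (fun ω k => ω (j k)) = Measure.infinitePi fun k => μ (j k) := by
  classical
  refine Measure.eq_infinitePi _ fun s t ht => ?_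
  rw [Measure.map_apply (by fun_prop) (.pi s.countable_toSet fun _ _ => ht _)]
  have h1 : (fun (ω : ι → X) (k : κ) => ω (j k)) ⁻¹' ((s : Set κ).pi t)
      = ((s.image j : Finset ι) : Set ι).pi (Function.extend j t fun _ => Set.univ) := by
    ext ω
    simp only [Set.mem_preimage, Set.mem_pi, Finset.mem_coe, Finset.mem_image]
    constructor
    · rintro h i ⟨k, hk, rfl⟩
      rw [hj.extend_apply]
      exact h k hk
    · intro h k hk
      have := h (j k) ⟨k, hk, rfl⟩
      rwa [hj.extend_apply] at this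
  rw [h1, Measure.infinitePi_pi]
  · rw [Finset.prod_image (fun a _ b _ h => hj h)]
    refine Finset.prod_congr rfl fun k _ => ?_
    rw [hj.extend_apply]
  · intro i hi
    rw [Finset.mem_image] at hi
    obtain ⟨k, _, rfl⟩ := hi
    rw [hj.extend_apply]
    exact ht k

private theorem d1_meas (a b : ℝ) : MeasurableSet {c : Clk | ∃ u ∈ marks c, a < u ∧ u ≤ b} := by
  have h : {c : Clk | ∃ u ∈ marks c, a < u ∧ u ≤ b} = ⋃ n : ℤ, ⋃ j : ℕ,
      {c : Clk | (j < (c n).1 ∧ 0 < (c n).2 j ∧ (c n).2 j ≤ 1) ∧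
        a < (n : ℝ) + (c n).2 j ∧ (n : ℝ) + (c n).2 j ≤ b} := by
    ext c
    simp only [marks, Set.mem_ofPred_eq, Set.mem_iUnion]
    constructor
    · rintro ⟨u, ⟨n, j, h1, h2, h3, rfl⟩, h4, h5⟩
      exact ⟨n, j, ⟨h1, h2, h3⟩, h4, h5⟩
    · rintro ⟨n, j, ⟨h1, h2, h3⟩, h4, h5⟩
      exact ⟨_, ⟨n, j, h1, h2, h3, rfl⟩, h4, h5⟩
  rw [h]
  refine MeasurableSet.iUnion fun n => MeasurableSet.iUnion fun j => ?_
  have m1 : Measurable fun c : Clk => (c n).1 := by fun_prop
  have m2 : Measurable fun c : Clk => (c n).2 j := by fun_prop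
  refine MeasurableSet.inter (MeasurableSet.inter ?_ (MeasurableSet.inter ?_ ?_))
    (MeasurableSet.inter ?_ ?_)
  · exact measurableSet_lt measurable_const m1
  · exact measurableSet_lt measurable_const m2
  · exact measurableSet_le m2 measurable_const
  · exact measurableSet_lt measurable_const (measurable_const.add m2)
  · exact measurableSet_le (measurable_const.add m2) measurable_const

theorem measurable_hit (N T k : ℕ) : Measurable (fun c : Clk => hit N T c k) := by
  refine measurable_to_bool ?_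
  have h : (fun c : Clk => hit N T c k) ⁻¹' {true}
      = {c : Clk | ∃ u ∈ marks c, tm N T k < u ∧ u ≤ tm N T (k + 1)} := by
    ext c
    simp [hit]
  rw [h]
  exact d1_meas _ _

theorem measurable_hits {ι : Type} (N T : ℕ) :
    Measurable (fun ω : ι → Clk => hits N T ω) := by
  refine measurable_pi_lambda _ fun i => measurable_pi_lambda _ fun k => ?_
  exact (measurable_hit N T k).comp (measurable_pi_apply i)

/-- a point of the unit interval in the sub-slot `i` -/
private def uh (N i : ℕ) (p : ℕ × (ℕ → ℝ)) : Prop :=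
  ∃ j < p.1, (i : ℝ) / N < p.2 j ∧ p.2 j ≤ ((i : ℝ) + 1) / N

private theorem d1_hit_iff {N : ℕ} (hN : 0 < N) (T : ℕ) (c : Clk) (k : ℕ) :
    hit N T c k = true ↔ uh N (k % N) (c (((k / N : ℕ) : ℤ) - T)) := by
  have hN' : (0 : ℝ) < N := by exact_mod_cast hN
  have hk : (k : ℝ) = N * ((k / N : ℕ) : ℝ) + ((k % N : ℕ) : ℝ) := by
    exact_mod_cast (Nat.div_add_mod k N).symm
  have hi : ((k % N : ℕ) : ℝ) + 1 ≤ N := by exact_mod_cast Nat.mod_lt k hN
  have hi0 : (0 : ℝ) ≤ ((k % N : ℕ) : ℝ) := Nat.cast_nonneg _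
  set m : ℕ := k / N with hm
  set i : ℕ := k % N with hi'
  have t1 : tm N T k = -(T : ℝ) + m + (i : ℝ) / N := by
    unfold tm
    rw [hk]
    field_simp
    ring
  have t2 : tm N T (k + 1) = -(T : ℝ) + m + ((i : ℝ) + 1) / N := by
    unfold tm
    push_cast
    rw [hk]
    field_simp
    ring
  have f1 : 0 ≤ (i : ℝ) / N := by positivity
  have f2 : ((i : ℝ) + 1) / N ≤ 1 := by rw [div_le_one hN']; exact hi
  have hd : hit N T c k = true ↔ ∃ u ∈ marks c, tm N T k < u ∧ u ≤ tm N T (k + 1) := by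
    simp [hit]
  unfold uh
  rw [hd, t1, t2]
  constructor
  · rintro ⟨u, ⟨n, j, h1, h2, h3, rfl⟩, h4, h5⟩
    have hn : n = (m : ℤ) - T := by
      have a1 : ((m : ℤ) - T : ℤ) < n + 1 := by
        have : ((m : ℝ) - T) < n + 1 := by linarith
        exact_mod_cast this
      have a2 : n < ((m : ℤ) - T : ℤ) + 1 := by
        have : (n : ℝ) < (m : ℝ) - T + 1 := by linarith
        exact_mod_cast this
      omega
    subst hn
    push_cast at h4 h5
    exact ⟨j, h1, by linarith, by linarith⟩
  · rintro ⟨j, h1, h2, h3⟩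
    refine ⟨_, ⟨(m : ℤ) - T, j, h1, by linarith, by linarith, rfl⟩, ?_, ?_⟩
    · push_cast; linarith
    · push_cast; linarith

/-- the complement of the sub-slots of `I` -/
private def slc (N : ℕ) (I : Finset ℕ) : Set ℝ :=
  {x | ∀ i ∈ I, ¬ ((i : ℝ) / N < x ∧ x ≤ ((i : ℝ) + 1) / N)}

private theorem slc_compl (N : ℕ) (I : Finset ℕ) :
    (slc N I)ᶜ = ⋃ i ∈ I, Ioc ((i : ℝ) / N) (((i : ℝ) + 1) / N) := by
  ext x
  simp only [slc, Set.mem_compl_iff, Set.mem_ofPred_eq, not_forall, not_not, Set.mem_iUnion,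
    Set.mem_Ioc, exists_prop]

private theorem slc_meas (N : ℕ) (I : Finset ℕ) : MeasurableSet (slc N I) := by
  rw [← MeasurableSet.compl_iff, slc_compl]
  exact Finset.measurableSet_biUnion _ fun i _ => measurableSet_Ioc

private theorem slc_unif {N : ℕ} (hN : 0 < N) (I : Finset ℕ) (hI : ∀ i ∈ I, i < N) :
    unif (slc N I) = ENNReal.ofReal (1 - (I.card : ℝ) / N) := by
  have hN' : (0 : ℝ) < N := by exact_mod_cast hN
  have h1 : unif (slc N I)ᶜ = ENNReal.ofReal ((I.card : ℝ) / N) := by
    rw [slc_compl, measure_biUnion_finset]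
    · have h2 : ∀ i ∈ I, unif (Ioc ((i : ℝ) / N) (((i : ℝ) + 1) / N)) = ENNReal.ofReal (1 / N) := by
        intro i hi
        have a1 : (i : ℝ) + 1 ≤ N := by exact_mod_cast hI i hi
        have a2 : Ioc ((i : ℝ) / N) (((i : ℝ) + 1) / N) ⊆ Ioc (0 : ℝ) 1 := by
          intro x hx
          rw [Set.mem_Ioc] at hx ⊢
          have b1 : (0 : ℝ) ≤ (i : ℝ) / N := by positivity
          have b2 : ((i : ℝ) + 1) / N ≤ 1 := by rw [div_le_one hN']; exact a1
          exact ⟨by linarith, by linarith⟩
        unfold unif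
        rw [Measure.restrict_apply measurableSet_Ioc, Set.inter_eq_left.mpr a2, Real.volume_Ioc]
        congr 1
        field_simp
        ring
      rw [Finset.sum_congr rfl h2, Finset.sum_const, nsmul_eq_mul,
        ← ENNReal.ofReal_natCast, ← ENNReal.ofReal_mul (by positivity)]
      congr 1
      ring
    · intro i _ i' _ hne
      rw [Function.onFun, Set.disjoint_left]
      intro x hx hx'
      rw [Set.mem_Ioc] at hx hx'
      apply hne
      have a1 : (i : ℝ) < (i' : ℝ) + 1 := by
        have := lt_of_lt_of_le hx.1 hx'.2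
        rwa [div_lt_div_iff_of_pos_right hN'] at this
      have a2 : (i' : ℝ) < (i : ℝ) + 1 := by
        have := lt_of_lt_of_le hx'.1 hx.2
        rwa [div_lt_div_iff_of_pos_right hN'] at this
      have a3 : i < i' + 1 := by exact_mod_cast a1
      have a4 : i' < i + 1 := by exact_mod_cast a2
      omega
    · exact fun i _ => measurableSet_Ioc
  have h2 : unif (slc N I) = 1 - unif (slc N I)ᶜ := by
    rw [prob_compl_eq_one_sub (slc_meas N I)]
    rw [ENNReal.sub_sub_cancel ENNReal.one_ne_top prob_le_one]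
  rw [h2, h1, ← ENNReal.ofReal_one, ENNReal.ofReal_sub _ (by positivity)]

private theorem d1_rho (r : ℝ≥0) {N : ℕ} (hN : 0 < N) (I : Finset ℕ) (hI : ∀ i ∈ I, i < N) :
    ((poissonMeasure r).prod (Measure.infinitePi fun _ : ℕ => unif)) {p | ∀ i ∈ I, ¬ uh N i p}
      = ENNReal.ofReal (Real.exp (-((r : ℝ) / N))) ^ I.card := by
  have hN' : (0 : ℝ) < N := by exact_mod_cast hN
  have hE : {p : ℕ × (ℕ → ℝ) | ∀ i ∈ I, ¬ uh N i p} = {p | ∀ j < p.1, p.2 j ∈ slc N I} := by
    ext p
    simp only [Set.mem_ofPred_eq, uh, slc, not_exists, not_and]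
    exact ⟨fun h j hj i hi h1 => h i hi j hj h1, fun h i hi j hj h1 => h j hj i hi h1⟩
  have hEm : MeasurableSet {p : ℕ × (ℕ → ℝ) | ∀ j < p.1, p.2 j ∈ slc N I} := by
    have : {p : ℕ × (ℕ → ℝ) | ∀ j < p.1, p.2 j ∈ slc N I}
        = ⋂ j : ℕ, ({p : ℕ × (ℕ → ℝ) | j < p.1}ᶜ ∪ {p | p.2 j ∈ slc N I}) := by
      ext p
      simp only [Set.mem_ofPred_eq, Set.mem_iInter, Set.mem_union, Set.mem_compl_iff]
      exact ⟨fun h j => by by_cases hj : j < p.1 <;> simp [hj, h j], fun h j hj => by
        rcases h j with h1 | h1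
        · exact absurd hj h1
        · exact h1⟩
    rw [this]
    refine MeasurableSet.iInter fun j => MeasurableSet.union ?_ ?_
    · exact (measurableSet_lt measurable_const measurable_fst).compl
    · have : Measurable fun p : ℕ × (ℕ → ℝ) => p.2 j := by fun_prop
      exact this (slc_meas N I)
  have hcard : (I.card : ℝ) ≤ N := by
    have : I ⊆ Finset.range N := fun i hi => Finset.mem_range.mpr (hI i hi)
    have h := Finset.card_le_card this
    rw [Finset.card_range] at h
    exact_mod_cast h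
  have hb : 0 ≤ 1 - (I.card : ℝ) / N := by
    have : (I.card : ℝ) / N ≤ 1 := by rw [div_le_one hN']; exact hcard
    linarith
  rw [hE, Measure.prod_apply hEm]
  have h1 : ∀ k : ℕ, (Measure.infinitePi fun _ : ℕ => unif)
      (Prod.mk k ⁻¹' {p : ℕ × (ℕ → ℝ) | ∀ j < p.1, p.2 j ∈ slc N I})
        = ENNReal.ofReal (1 - (I.card : ℝ) / N) ^ k := by
    intro k
    have : Prod.mk k ⁻¹' {p : ℕ × (ℕ → ℝ) | ∀ j < p.1, p.2 j ∈ slc N I}
        = ((Finset.range k : Finset ℕ) : Set ℕ).pi fun _ => slc N I := by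
      ext x
      simp
    rw [this, Measure.infinitePi_pi _ (fun _ _ => slc_meas N I), Finset.prod_const,
      Finset.card_range, slc_unif hN I hI]
  simp only [h1]
  rw [lintegral_countable']
  have h2 : ∀ k : ℕ, ENNReal.ofReal (1 - (I.card : ℝ) / N) ^ k * poissonMeasure r {k}
      = ENNReal.ofReal (Real.exp (-r) * ((r * (1 - (I.card : ℝ) / N)) ^ k / (k.factorial : ℝ))) := by
    intro k
    rw [poissonMeasure_singleton, ← ENNReal.ofReal_pow hb, ← ENNReal.ofReal_mul (by positivity)]
    congr 1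
    rw [mul_pow]
    ring
  rw [tsum_congr h2]
  have hsum : HasSum (fun k : ℕ => Real.exp (-r) * ((r * (1 - (I.card : ℝ) / N)) ^ k / (k.factorial : ℝ)))
      (Real.exp (-r) * Real.exp (r * (1 - (I.card : ℝ) / N))) := by
    have h3 := (NormedSpace.expSeries_div_hasSum_exp ((r : ℝ) * (1 - (I.card : ℝ) / N)))
    rw [← Real.exp_eq_exp_ℝ] at h3
    exact h3.mul_left _
  rw [← ENNReal.ofReal_tsum_of_nonneg (fun k => by positivity) hsum.summable, hsum.tsum_eq,
    ← ENNReal.ofReal_pow (Real.exp_pos _).le]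
  congr 1
  rw [← Real.exp_add, ← Real.exp_nat_mul]
  congr 1
  field_simp
  ring

private theorem d1_clk (r : ℝ≥0) {N : ℕ} (T : ℕ) (hN : 0 < N) (S : Finset ℕ) :
    clk r {c | ∀ k ∈ S, hit N T c k = false} = ENNReal.ofReal (Real.exp (-((r : ℝ) / N))) ^ S.card := by
  classical
  set I : ℤ → Finset ℕ := fun n => (S.filter fun k => ((k / N : ℕ) : ℤ) - T = n).image (· % N) with hI
  set A : Finset ℤ := S.image fun k => ((k / N : ℕ) : ℤ) - T with hA
  have h1 : {c : Clk | ∀ k ∈ S, hit N T c k = false}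
      = (A : Set ℤ).pi fun n => {p | ∀ i ∈ I n, ¬ uh N i p} := by
    ext c
    simp only [Set.mem_ofPred_eq, Set.mem_pi, Finset.mem_coe]
    constructor
    · intro h n _ i hi
      rw [hI] at hi
      simp only [Finset.mem_image, Finset.mem_filter] at hi
      obtain ⟨k, ⟨hk, rfl⟩, rfl⟩ := hi
      rw [← d1_hit_iff hN T c k, h k hk]
      simp
    · intro h k hk
      have h2 := h (((k / N : ℕ) : ℤ) - T) (Finset.mem_image_of_mem _ hk) (k % N)
        (by
          rw [hI]
          simp only [Finset.mem_image, Finset.mem_filter]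
          exact ⟨k, ⟨hk, rfl⟩, rfl⟩)
      rw [← d1_hit_iff hN T c k] at h2
      simpa using h2
  have hIlt : ∀ n, ∀ i ∈ I n, i < N := by
    intro n i hi
    rw [hI] at hi
    simp only [Finset.mem_image, Finset.mem_filter] at hi
    obtain ⟨k, _, rfl⟩ := hi
    exact Nat.mod_lt _ hN
  have hm : ∀ n, MeasurableSet {p : ℕ × (ℕ → ℝ) | ∀ i ∈ I n, ¬ uh N i p} := by
    intro n
    have : {p : ℕ × (ℕ → ℝ) | ∀ i ∈ I n, ¬ uh N i p} = ⋂ i ∈ I n, {p | uh N i p}ᶜ := by
      ext p; simp
    rw [this]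
    refine Finset.measurableSet_biInter _ fun i _ => MeasurableSet.compl ?_
    have h3 : {p : ℕ × (ℕ → ℝ) | uh N i p} = ⋃ j : ℕ, {p : ℕ × (ℕ → ℝ) | j < p.1 ∧
        (i : ℝ) / N < p.2 j ∧ p.2 j ≤ ((i : ℝ) + 1) / N} := by
      ext p; simp [uh]
    rw [h3]
    refine MeasurableSet.iUnion fun j => ?_
    have m2 : Measurable fun p : ℕ × (ℕ → ℝ) => p.2 j := by fun_prop
    refine MeasurableSet.inter ?_ (MeasurableSet.inter ?_ ?_)
    · exact measurableSet_lt measurable_const measurable_fst
    · exact measurableSet_lt measurable_const m2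
    · exact measurableSet_le m2 measurable_const
  rw [h1, clk, Measure.infinitePi_pi _ (fun n _ => hm n)]
  rw [Finset.prod_congr rfl fun n _ => d1_rho r hN (I n) (hIlt n), Finset.prod_pow_eq_pow_sum]
  congr 1
  rw [Finset.card_eq_sum_card_image (fun k => ((k / N : ℕ) : ℤ) - T) S]
  refine Finset.sum_congr rfl fun n _ => ?_
  rw [hI]
  refine Finset.card_image_of_injOn ?_
  intro k hk k' hk' h
  simp only [Finset.coe_filter, Set.mem_ofPred_eq] at hk hk'
  have e1 : k / N = k' / N := by
    have := hk.2.trans hk'.2.symm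
    omega
  have e2 : k % N = k' % N := h
  rw [← Nat.div_add_mod k N, ← Nat.div_add_mod k' N, e1, e2]

private theorem d1_ber (r : ℝ≥0) (N : ℕ) :
    ber (1 - Real.exp (-((r : ℝ) / N))) {false} = ENNReal.ofReal (Real.exp (-((r : ℝ) / N))) := by
  have h0 : 0 < Real.exp (-((r : ℝ) / N)) := Real.exp_pos _
  have h1 : Real.exp (-((r : ℝ) / N)) ≤ 1 := by
    rw [Real.exp_le_one_iff]
    have : 0 ≤ (r : ℝ) / N := by positivity
    linarith
  have h2 : max 0 (min 1 (1 - Real.exp (-((r : ℝ) / N)))) = 1 - Real.exp (-((r : ℝ) / N)) := by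
    rw [min_eq_right (by linarith), max_eq_right (by linarith)]
  simp only [ber, h2, Measure.add_apply, Measure.smul_apply, smul_eq_mul]
  rw [Measure.dirac_apply' _ (MeasurableSet.singleton _), Measure.dirac_apply' _ (MeasurableSet.singleton _)]
  simp

theorem hit_law (r : ℝ≥0) (N T : ℕ) (hN : 0 < N) :
    (clk r).map (fun c k => hit N T c k) = bseq (1 - Real.exp (-((r : ℝ) / N))) := by
  classical
  have hmeas : Measurable (fun (c : Clk) (k : ℕ) => hit N T c k) :=
    measurable_pi_lambda _ fun k => measurable_hit N T k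
  have : IsProbabilityMeasure ((clk r).map (fun (c : Clk) (k : ℕ) => hit N T c k)) :=
    Measure.isProbabilityMeasure_map hmeas.aemeasurable
  set C : Set (Set (ℕ → Bool)) := Set.range fun S : Finset ℕ => {f : ℕ → Bool | ∀ k ∈ S, f k = false}
    with hC
  have hCm : ∀ S : Finset ℕ, MeasurableSet {f : ℕ → Bool | ∀ k ∈ S, f k = false} := by
    intro S
    have : {f : ℕ → Bool | ∀ k ∈ S, f k = false} = ⋂ k ∈ S, (fun f : ℕ → Bool => f k) ⁻¹' {false} := by
      ext f; simp
    rw [this]
    exact Finset.measurableSet_biInter _ fun k _ => measurable_pi_apply k (MeasurableSet.singleton _)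
  have hgen : (MeasurableSpace.pi : MeasurableSpace (ℕ → Bool)) = MeasurableSpace.generateFrom C := by
    apply le_antisymm
    · refine iSup_le fun k => ?_
      rw [← measurable_iff_comap_le]
      have h1 : @Measurable _ _ (MeasurableSpace.generateFrom C) _ (fun f : ℕ → Bool => !(f k)) := by
        refine @measurable_to_bool _ (MeasurableSpace.generateFrom C) _ ?_
        have : (fun f : ℕ → Bool => !(f k)) ⁻¹' {true} = {f : ℕ → Bool | ∀ k' ∈ ({k} : Finset ℕ), f k' = false} := by
          ext f; simp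
        rw [this]
        exact MeasurableSpace.measurableSet_generateFrom ⟨{k}, rfl⟩
      have h2 : (fun f : ℕ → Bool => f k) = (fun b : Bool => !b) ∘ (fun f : ℕ → Bool => !(f k)) := by
        funext f; simp
      rw [h2]
      exact (measurable_of_finite _).comp h1
    · refine MeasurableSpace.generateFrom_le ?_
      rintro _ ⟨S, rfl⟩
      exact hCm S
  have hpi : IsPiSystem C := by
    rintro _ ⟨S, rfl⟩ _ ⟨S', rfl⟩ _
    refine ⟨S ∪ S', ?_⟩
    ext f
    simp only [Finset.mem_union, Set.mem_ofPred_eq, Set.mem_inter_iff]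
    exact ⟨fun h => ⟨fun k hk => h k (Or.inl hk), fun k hk => h k (Or.inr hk)⟩,
      fun h k hk => hk.elim (h.1 k) (h.2 k)⟩
  refine ext_of_generate_finite C hgen hpi ?_ ?_
  · rintro _ ⟨S, rfl⟩
    simp only
    rw [Measure.map_apply hmeas (hCm S)]
    have h1 : (fun (c : Clk) (k : ℕ) => hit N T c k) ⁻¹' {f : ℕ → Bool | ∀ k ∈ S, f k = false}
        = {c | ∀ k ∈ S, hit N T c k = false} := rfl
    rw [h1, d1_clk r T hN S]
    have h2 : {f : ℕ → Bool | ∀ k ∈ S, f k = false} = (S : Set ℕ).pi fun _ => ({false} : Set Bool) := by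
      ext f; simp
    rw [h2, bseq, Measure.infinitePi_pi _ (fun _ _ => MeasurableSet.singleton _), Finset.prod_const,
      d1_ber]
  · rw [measure_univ, measure_univ]

theorem hits_law {ι : Type} (r : ι → ℝ≥0) (N T : ℕ) (hN : 0 < N) :
    (pois r).map (fun ω => hits N T ω) = berLaw (fun i => 1 - Real.exp (-((r i : ℝ) / N))) := by
  unfold pois berLaw
  have h := Measure.infinitePi_map_pi (μ := fun i => clk (r i))
    (f := fun _ (c : Clk) (k : ℕ) => hit N T c k)
    (fun _ => measurable_pi_lambda _ fun k => measurable_hit N T k)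
  have h2 : (fun ω : ι → Clk => hits N T ω) = fun (ω : ι → Clk) (i : ι) => (fun k => hit N T (ω i) k) := rfl
  rw [h2, h]
  congr 1
  funext i
  exact hit_law (r i) N T hN

end H50CP
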