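import Pool.Agent.H50.CP.Stmt

/-!
# D2: measurability of the graphical construction

`Reach` is an inductive predicate with uncountably many times, but arrows sit at the countably many
points `P n j (ω) = n + (ω c n).2 j`, which are measurable functions of `ω`.  Define by recursion on
the number `m` of arrows the sets `R m x ⊆ CΩ V × ℝ`:
`R 0 x = {(ω,t) | s ≤ t, no recovery mark of x in (s,t]}`,
`R (m+1) x = R 0 x ∪ ⋃_{y ~ x} ⋃_{n,j} {(ω,t) | T := n + u_j is a mark of (y,x), s < T ≤ t,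
 (ω,T) ∈ R m y, no recovery mark of x in (T,t]}`;
these are measurable in the product space (countable unions/intersections; preimages under
`(ω,t) ↦ (ω, T(ω))`), and `Reach G ω s x t ↔ ∃ m, (ω,t) ∈ R m x` by induction.
`Upper` reduces to `s = -n` by `Reach.mono`.
-/

namespace H50CP

open MeasureTheory ProbabilityTheory Set
open scoped NNReal ENNReal

theorem D2_meas_fst {Ω : Type*} [MeasurableSpace Ω] {c : Ω → Clk} (hc : Measurable c) (n : ℤ) :
    Measurable (fun w => (c w n).1) :=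
  measurable_fst.comp ((measurable_pi_apply n).comp hc)

theorem D2_meas_snd {Ω : Type*} [MeasurableSpace Ω] {c : Ω → Clk} (hc : Measurable c) (n : ℤ)
    (j : ℕ) : Measurable (fun w => (c w n).2 j) :=
  (measurable_pi_apply j).comp (measurable_snd.comp ((measurable_pi_apply n).comp hc))

theorem D2_meas_pt {Ω : Type*} [MeasurableSpace Ω] {c : Ω → Clk} (hc : Measurable c) (n : ℤ)
    (j : ℕ) : Measurable (fun w => (n : ℝ) + (c w n).2 j) :=
  (D2_meas_snd hc n j).const_add _

theorem D2_meas_isMark {Ω : Type*} [MeasurableSpace Ω] {c : Ω → Clk} (hc : Measurable c) (n : ℤ)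
    (j : ℕ) : MeasurableSet {w | j < (c w n).1 ∧ 0 < (c w n).2 j ∧ (c w n).2 j ≤ 1} := by
  have h1 := D2_meas_fst hc n
  have h2 := D2_meas_snd hc n j
  exact (measurableSet_lt measurable_const h1).inter
    ((measurableSet_lt measurable_const h2).inter (measurableSet_le h2 measurable_const))

/-- no mark in `(a, b]` -/
theorem D2_meas_noMark {Ω : Type*} [MeasurableSpace Ω] {c : Ω → Clk} (hc : Measurable c)
    {a b : Ω → ℝ} (ha : Measurable a) (hb : Measurable b) :
    MeasurableSet {w | ∀ v ∈ marks (c w), ¬ (a w < v ∧ v ≤ b w)} := by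
  have h : {w | ∀ v ∈ marks (c w), ¬ (a w < v ∧ v ≤ b w)} =
      ⋂ (n : ℤ), ⋂ (j : ℕ), ({w | j < (c w n).1 ∧ 0 < (c w n).2 j ∧ (c w n).2 j ≤ 1} ∩
        ({w | a w < (n : ℝ) + (c w n).2 j} ∩ {w | (n : ℝ) + (c w n).2 j ≤ b w}))ᶜ := by
    ext w
    simp only [Set.mem_iInter, Set.mem_compl_iff, Set.mem_inter_iff, Set.mem_ofPred_eq]
    constructor
    · rintro h n j ⟨⟨h1, h2, h3⟩, h4, h5⟩
      exact h _ ⟨n, j, h1, h2, h3, rfl⟩ ⟨h4, h5⟩
    · rintro h v ⟨n, j, h1, h2, h3, rfl⟩ ⟨h4, h5⟩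
      exact h n j ⟨⟨h1, h2, h3⟩, h4, h5⟩
  rw [h]
  refine MeasurableSet.iInter fun n => MeasurableSet.iInter fun j => MeasurableSet.compl ?_
  have hp := D2_meas_pt hc n j
  exact (D2_meas_isMark hc n j).inter ((measurableSet_lt ha hp).inter (measurableSet_le hp hb))

/-- starting later only increases the infected set -/
theorem Reach.mono {V : Type} {G : SimpleGraph V} {ω : CΩ V} {s s' t : ℝ} {x : V} (hs : s ≤ s')
    (hst : s' ≤ t) (h : Reach G ω s x t) : Reach G ω s' x t := by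
  induction h with
  | start x t _ h =>
    exact Reach.start x t hst fun v hv hv' => h v hv ⟨hs.trans_lt hv'.1, hv'.2⟩
  | arrow x y u t hyx hsu hut hu hy h ih =>
    rcases lt_or_ge s' u with hlt | hge
    · exact Reach.arrow x y u t hyx hlt hut hu (ih hlt.le) h
    · exact Reach.start x t hst fun v hv hv' => h v hv ⟨hge.trans_lt hv'.1, hv'.2⟩

theorem upper_iff_nat {V : Type} {G : SimpleGraph V} {ω : CΩ V} {t : ℝ} {x : V} :
    Upper G ω x t ↔ ∀ n : ℕ, -(n : ℝ) ≤ t → Reach G ω (-(n : ℝ)) x t := by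
  constructor
  · intro h n hn
    exact h _ hn
  · intro h s hs
    obtain ⟨n, hn⟩ := exists_nat_ge (-s)
    have h1 : -(n : ℝ) ≤ s := by linarith
    exact Reach.mono h1 hs (h n (h1.trans hs))

/-- infected with at most `m` arrows -/
def D2R {V : Type} (G : SimpleGraph V) (s : ℝ) : ℕ → V → Set (CΩ V × ℝ)
  | 0, x => {p | s ≤ p.2 ∧ ∀ v ∈ marks (p.1 (Sum.inl x)), ¬ (s < v ∧ v ≤ p.2)}
  | m + 1, x => {p | s ≤ p.2 ∧ ∀ v ∈ marks (p.1 (Sum.inl x)), ¬ (s < v ∧ v ≤ p.2)} ∪
      ⋃ (y : V) (_ : G.Adj y x) (n : ℤ) (j : ℕ),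
        ({p | j < (p.1 (Sum.inr (y, x)) n).1 ∧ 0 < (p.1 (Sum.inr (y, x)) n).2 j ∧
            (p.1 (Sum.inr (y, x)) n).2 j ≤ 1} ∩
          ({p | s < (n : ℝ) + (p.1 (Sum.inr (y, x)) n).2 j} ∩
            ({p | (n : ℝ) + (p.1 (Sum.inr (y, x)) n).2 j ≤ p.2} ∩
              ((fun p : CΩ V × ℝ => (p.1, (n : ℝ) + (p.1 (Sum.inr (y, x)) n).2 j)) ⁻¹'
                  (D2R G s m y) ∩
                {p | ∀ v ∈ marks (p.1 (Sum.inl x)),
                  ¬ ((n : ℝ) + (p.1 (Sum.inr (y, x)) n).2 j < v ∧ v ≤ p.2)}))))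

theorem D2_meas_coord {V : Type} (i : V ⊕ (V × V)) :
    Measurable (fun p : CΩ V × ℝ => p.1 i) :=
  (measurable_pi_apply i).comp measurable_fst

theorem D2_meas_R {V : Type} [Countable V] (G : SimpleGraph V) (s : ℝ) (m : ℕ) (x : V) :
    MeasurableSet (D2R G s m x) := by
  have h0 : ∀ x : V, MeasurableSet {p : CΩ V × ℝ | s ≤ p.2 ∧
      ∀ v ∈ marks (p.1 (Sum.inl x)), ¬ (s < v ∧ v ≤ p.2)} := by
    intro x
    exact (measurableSet_le measurable_const measurable_snd).inter
      (D2_meas_noMark (D2_meas_coord (Sum.inl x)) measurable_const measurable_snd)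
  induction m generalizing x with
  | zero => exact h0 x
  | succ m ih =>
    refine (h0 x).union ?_
    refine MeasurableSet.iUnion fun y => MeasurableSet.iUnion fun _ => MeasurableSet.iUnion
      fun n => MeasurableSet.iUnion fun j => ?_
    have hc : Measurable (fun p : CΩ V × ℝ => p.1 (Sum.inr (y, x))) := D2_meas_coord _
    have hp := D2_meas_pt hc n j
    refine (D2_meas_isMark hc n j).inter ((measurableSet_lt measurable_const hp).inter
      ((measurableSet_le hp measurable_snd).inter (MeasurableSet.inter ?_ ?_)))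
    · exact (measurable_fst.prodMk hp) (ih y)
    · exact D2_meas_noMark (D2_meas_coord (Sum.inl x)) hp measurable_snd

theorem D2_reach_iff {V : Type} (G : SimpleGraph V) (s t : ℝ) (x : V) (ω : CΩ V) :
    Reach G ω s x t ↔ ∃ m, (ω, t) ∈ D2R G s m x := by
  constructor
  · intro h
    induction h with
    | start x t hst h => exact ⟨0, hst, h⟩
    | arrow x y u t hyx hsu hut hu hy h ih =>
      obtain ⟨m, hm⟩ := ih
      obtain ⟨n, j, h1, h2, h3, rfl⟩ := hu
      refine ⟨m + 1, Or.inr ?_⟩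
      simp only [Set.mem_iUnion]
      exact ⟨y, hyx, n, j, ⟨h1, h2, h3⟩, hsu, hut, hm, h⟩
  · rintro ⟨m, hm⟩
    induction m generalizing x t with
    | zero => exact Reach.start x t hm.1 hm.2
    | succ m ih =>
      rcases hm with hm | hm
      · exact Reach.start x t hm.1 hm.2
      · simp only [Set.mem_iUnion] at hm
        obtain ⟨y, hyx, n, j, ⟨h1, h2, h3⟩, hsu, hut, hm', h⟩ := hm
        exact Reach.arrow x y _ t hyx hsu hut ⟨n, j, h1, h2, h3, rfl⟩ (ih _ y hm') h

theorem measurableSet_reach {V : Type} [Countable V] (G : SimpleGraph V) (s t : ℝ) (x : V) :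
    MeasurableSet {ω : CΩ V | Reach G ω s x t} := by
  have h : {ω : CΩ V | Reach G ω s x t} = ⋃ m, (fun ω : CΩ V => (ω, t)) ⁻¹' (D2R G s m x) := by
    ext ω
    simp only [Set.mem_iUnion, Set.mem_preimage, Set.mem_ofPred_eq]
    exact D2_reach_iff G s t x ω
  rw [h]
  exact MeasurableSet.iUnion fun m => (measurable_id.prodMk measurable_const) (D2_meas_R G s m x)

theorem measurableSet_upper {V : Type} [Countable V] (G : SimpleGraph V) (t : ℝ) (x : V) :
    MeasurableSet {ω : CΩ V | Upper G ω x t} := by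
  have h : {ω : CΩ V | Upper G ω x t} =
      ⋂ (n : ℕ) (_ : -(n : ℝ) ≤ t), {ω : CΩ V | Reach G ω (-(n : ℝ)) x t} := by
    ext ω
    simp only [Set.mem_iInter, Set.mem_ofPred_eq]
    exact upper_iff_nat
  rw [h]
  exact MeasurableSet.iInter fun n => MeasurableSet.iInter fun _ => measurableSet_reach G _ t x

theorem measurableSet_flip {V : Type} [Countable V] (t : ℝ) (x : V) :
    MeasurableSet {ω : FΩ V | FlipOn ω x t} := by
  have hu : Measurable (fun ω : FΩ V => ω (Sum.inr x)) := measurable_pi_apply _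
  have hd : Measurable (fun ω : FΩ V => ω (Sum.inl x)) := measurable_pi_apply _
  have h : {ω : FΩ V | FlipOn ω x t} = ⋃ (n : ℤ) (j : ℕ),
      ({ω : FΩ V | j < (ω (Sum.inr x) n).1 ∧ 0 < (ω (Sum.inr x) n).2 j ∧
          (ω (Sum.inr x) n).2 j ≤ 1} ∩
        ({ω : FΩ V | (n : ℝ) + (ω (Sum.inr x) n).2 j ≤ t} ∩
          {ω : FΩ V | ∀ v ∈ marks (ω (Sum.inl x)),
            ¬ ((n : ℝ) + (ω (Sum.inr x) n).2 j < v ∧ v ≤ t)})) := by
    ext ω
    simp only [Set.mem_iUnion, Set.mem_inter_iff, Set.mem_ofPred_eq]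
    constructor
    · rintro ⟨u, ⟨n, j, h1, h2, h3, rfl⟩, hut, h⟩
      exact ⟨n, j, ⟨h1, h2, h3⟩, hut, h⟩
    · rintro ⟨n, j, ⟨h1, h2, h3⟩, hut, h⟩
      exact ⟨_, ⟨n, j, h1, h2, h3, rfl⟩, hut, h⟩
  rw [h]
  refine MeasurableSet.iUnion fun n => MeasurableSet.iUnion fun j => ?_
  have hp := D2_meas_pt hu n j
  exact (D2_meas_isMark hu n j).inter ((measurableSet_le hp measurable_const).inter
    (D2_meas_noMark hd hp measurable_const))

end H50CP
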