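import Pool.Agent.H50.CP.Stmt

/-!
# D3: right continuity in time

`marks c` is locally finite (`marks c ∩ (n, n+1]` has at most `(c n).1` points), so after every `t`
there is `δ > 0` with no mark of a given finite set of clocks in `(t, t+δ)`.
If there is no recovery mark of `x` and no arrow from a neighbour to `x` in `(t,t']` then
`Reach G ω s x t' ↔ Reach G ω s x t` for `s ≤ t` (the last arrow of a path to `(x,t')` is at a
time `≤ t`), and `Reach G ω s x t'` holds for `t < s ≤ t'`.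
-/

namespace H50CP

open MeasureTheory ProbabilityTheory Set
open scoped NNReal ENNReal

theorem marks_locally_finite (c : Clk) (a b : ℝ) : (marks c ∩ Icc a b).Finite := by
  have h1 : (⋃ n ∈ Icc (⌊a⌋ - 1) ⌈b⌉, (fun j : ℕ => (n : ℝ) + (c n).2 j) ''
      (Finset.range (c n).1 : Set ℕ)).Finite := by
    refine Set.Finite.biUnion (Set.finite_Icc _ _) fun n _ => ?_
    exact (Finset.finite_toSet _).image _
  refine h1.subset ?_
  rintro t ⟨⟨n, j, hj, h0, h1, rfl⟩, ha, hb⟩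
  rw [Set.mem_iUnion₂]
  refine ⟨n, ⟨?_, ?_⟩, j, ?_, rfl⟩
  · have h2 : (⌊a⌋ : ℝ) ≤ a := Int.floor_le a
    have h3 : ((⌊a⌋ - 1 : ℤ) : ℝ) ≤ (n : ℝ) := by
      push_cast
      linarith
    exact_mod_cast h3
  · have h2 : b ≤ (⌈b⌉ : ℝ) := Int.le_ceil b
    have h3 : (n : ℝ) ≤ (⌈b⌉ : ℝ) := by linarith
    exact_mod_cast h3
  · simpa using hj

theorem D3_gap (M : Set ℝ) (t : ℝ) (hM : (M ∩ Icc t (t + 1)).Finite) :
    ∃ δ > 0, ∀ v ∈ M, t < v → t + δ ≤ v := by
  have h1 : {v | v ∈ M ∩ Icc t (t + 1) ∧ t < v}.Finite := hM.subset fun v hv => hv.1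
  have h2 : {v | v ∈ M ∩ Icc t (t + 1) ∧ t < v}ᶜ ∈ nhds t :=
    h1.isClosed.isOpen_compl.mem_nhds fun h => lt_irrefl t h.2
  obtain ⟨δ, hδ, hball⟩ := Metric.mem_nhds_iff.1 h2
  refine ⟨min δ 1, lt_min hδ one_pos, fun v hv htv => ?_⟩
  by_contra hcon
  rw [not_le] at hcon
  have h3 := min_le_left δ 1
  have h4 := min_le_right δ 1
  have h5 : v ∈ Metric.ball t δ := by
    rw [Metric.mem_ball, Real.dist_eq, abs_of_pos (by linarith)]
    linarith
  exact hball h5 ⟨⟨hv, htv.le, by linarith⟩, htv⟩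

theorem D3_reach {V : Type} (G : SimpleGraph V) (x : V) (ω : CΩ V) (t t' : ℝ) (htt : t < t')
    (h1 : ∀ v ∈ marks (ω (Sum.inl x)), ¬ (t < v ∧ v ≤ t'))
    (h2 : ∀ y, G.Adj y x → ∀ v ∈ marks (ω (Sum.inr (y, x))), ¬ (t < v ∧ v ≤ t')) (s : ℝ)
    (hs : s ≤ t) : Reach G ω s x t' ↔ Reach G ω s x t := by
  constructor
  · intro h
    cases h with
    | start _ _ hst h => exact Reach.start x t hs fun v hv hh => h v hv ⟨hh.1, hh.2.trans htt.le⟩
    | arrow _ y u _ hyx hsu hut hu hy h =>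
      have hu' : u ≤ t := by
        by_contra hcon
        exact h2 y hyx u hu ⟨not_le.1 hcon, hut⟩
      exact Reach.arrow x y u t hyx hsu hu' hu hy fun v hv hh => h v hv ⟨hh.1, hh.2.trans htt.le⟩
  · intro h
    cases h with
    | start _ _ hst h =>
      refine Reach.start x t' (hst.trans htt.le) fun v hv hh => ?_
      rcases le_or_gt v t with hvt | hvt
      · exact h v hv ⟨hh.1, hvt⟩
      · exact h1 v hv ⟨hvt, hh.2⟩
    | arrow _ y u _ hyx hsu hut hu hy h =>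
      refine Reach.arrow x y u t' hyx hsu (hut.trans htt.le) hu hy fun v hv hh => ?_
      rcases le_or_gt v t with hvt | hvt
      · exact h v hv ⟨hh.1, hvt⟩
      · exact h1 v hv ⟨hvt, hh.2⟩

theorem upper_right {V : Type} (G : SimpleGraph V) (x : V) (hG : (G.neighborSet x).Finite)
    (ω : CΩ V) (t : ℝ) :
    ∃ δ > 0, ∀ t', t < t' → t' < t + δ → (Upper G ω x t' ↔ Upper G ω x t) := by
  have hfin : ((marks (ω (Sum.inl x)) ∪ ⋃ y ∈ G.neighborSet x, marks (ω (Sum.inr (y, x)))) ∩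
      Icc t (t + 1)).Finite := by
    rw [Set.union_inter_distrib_right, Set.iUnion₂_inter]
    refine (marks_locally_finite _ _ _).union ?_
    exact Set.Finite.biUnion hG fun y _ => marks_locally_finite _ _ _
  obtain ⟨δ, hδ, hgap⟩ := D3_gap _ t hfin
  refine ⟨δ, hδ, fun t' htt htd => ?_⟩
  have h1 : ∀ v ∈ marks (ω (Sum.inl x)), ¬ (t < v ∧ v ≤ t') := by
    rintro v hv ⟨ha, hb⟩
    have := hgap v (Or.inl hv) ha
    linarith
  have h2 : ∀ y, G.Adj y x → ∀ v ∈ marks (ω (Sum.inr (y, x))), ¬ (t < v ∧ v ≤ t') := by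
    rintro y hy v hv ⟨ha, hb⟩
    have := hgap v (Or.inr (Set.mem_iUnion₂.2 ⟨y, hy.symm, hv⟩)) ha
    linarith
  constructor
  · intro h s hs
    exact (D3_reach G x ω t t' htt h1 h2 s hs).1 (h s (hs.trans htt.le))
  · intro h s hs
    rcases le_or_gt s t with hst | hst
    · exact (D3_reach G x ω t t' htt h1 h2 s hst).2 (h s hst)
    · exact Reach.start x t' hs fun v hv hh => h1 v hv ⟨hst.trans hh.1, hh.2⟩

theorem flip_right {V : Type} (ω : FΩ V) (x : V) (t : ℝ) :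
    ∃ δ > 0, ∀ t', t < t' → t' < t + δ → (FlipOn ω x t' ↔ FlipOn ω x t) := by
  have hfin : ((marks (ω (Sum.inl x)) ∪ marks (ω (Sum.inr x))) ∩ Icc t (t + 1)).Finite := by
    rw [Set.union_inter_distrib_right]
    exact (marks_locally_finite _ _ _).union (marks_locally_finite _ _ _)
  obtain ⟨δ, hδ, hgap⟩ := D3_gap _ t hfin
  refine ⟨δ, hδ, fun t' htt htd => ?_⟩
  constructor
  · rintro ⟨u, hu, hut, h⟩
    have hu' : u ≤ t := by
      by_contra hcon
      have := hgap u (Or.inr hu) (not_le.1 hcon)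
      linarith
    exact ⟨u, hu, hu', fun v hv hh => h v hv ⟨hh.1, hh.2.trans htt.le⟩⟩
  · rintro ⟨u, hu, hut, h⟩
    refine ⟨u, hu, hut.trans htt.le, fun v hv hh => ?_⟩
    rcases le_or_gt v t with hvt | hvt
    · exact h v hv ⟨hh.1, hvt⟩
    · have := hgap v (Or.inl hv) hvt
      linarith [hh.2]

theorem tree_nbhd_finite (d : ℕ) (x : TV d) : ((tree d).neighborSet x).Finite := by
  have h1 : (Set.range (fun i : Fin d => ((x.1, x.2 ++ [i]) : TV d)) ∪
      ({(x.1, x.2.dropLast), (!x.1, [])} : Set (TV d))).Finite :=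
    (Set.finite_range _).union (Set.toFinite _)
  refine h1.subset ?_
  rintro y (⟨i, rfl⟩ | ⟨i, h⟩ | ⟨h1, h2, h3⟩)
  · exact Or.inl ⟨i, rfl⟩
  · right
    left
    obtain ⟨y1, y2⟩ := y
    rw [h]
    simp
  · right
    right
    obtain ⟨y1, y2⟩ := y
    simp only at h1 h3
    subst h3
    have : y1 = !x.1 := by
      cases hx : x.1 <;> cases y1 <;> simp_all
    rw [this]
    rfl

end H50CP
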