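import Pool.Agent.H50.CP.Disc

/-!
# D4: the discrete system with few arrows is dominated by the true process (no collisions)

Induction on `k`, for all `n`, `x` with no collision below `x` to depth `n` before `K` (`Coll`).
`ZL (n) (k+1) x = true`: either `ZL n k x = true` and no recovery of `x` in slot `k`: then
`Reach … x (tm k)` extends to `tm (k+1)` (`Reach.extend`).  Or there is a child `y = ch x i` with an
arrow `y → x` in slot `k`, say at time `u`, and `ZL (n-1) k y = true`: `Reach … y (tm k)`, there is no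
recovery of `y` in slot `k` (collision), so `Reach … y u`; there is no recovery of `x` in slot `k`
(collision) so `Reach … x (tm (k+1))` by `Reach.arrow`.   `Coll` for the child `y` and depth `n-1`
implies `Coll` for `x` and depth `n` (word `i :: w`: `(x.2 ++ [i]) ++ w = x.2 ++ (i :: w)`).

Similarly for the spin flips (`flip_det`): `FlipOn` at `tm k` gives an up mark `u ≤ tm k` without
down marks in `(u, tm k]`; as there is a down mark in `(-T, tm k]`, `u > -T` lies in a slot
`j < k`; by absence of collisions `Xd (j+1) x = true`, and no down marks in the slots `j+1..k-1`.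
-/

namespace H50CP

open MeasureTheory ProbabilityTheory Set
open scoped NNReal ENNReal

/-- extend an infection while there is no recovery mark -/
theorem Reach.extend {V : Type} {G : SimpleGraph V} {ω : CΩ V} {s t t' : ℝ} {x : V}
    (h : Reach G ω s x t) (htt : t ≤ t')
    (hn : ∀ v ∈ marks (ω (Sum.inl x)), ¬ (t < v ∧ v ≤ t')) : Reach G ω s x t' := by
  cases h with
  | start _ _ hst h =>
    refine Reach.start x t' (hst.trans htt) (fun v hv hv' => ?_)
    rcases le_or_gt v t with h1 | h1
    · exact h v hv ⟨hv'.1, h1⟩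
    · exact hn v hv ⟨h1, hv'.2⟩
  | arrow _ y u _ hyx hsu hut hu hy h =>
    refine Reach.arrow x y u t' hyx hsu (hut.trans htt) hu hy (fun v hv hv' => ?_)
    rcases le_or_gt v t with h1 | h1
    · exact h v hv ⟨hv'.1, h1⟩
    · exact hn v hv ⟨h1, hv'.2⟩

private lemma D4_tm_mono {N T j k : ℕ} (h : j ≤ k) : tm N T j ≤ tm N T k := by
  unfold tm
  have : (j : ℝ) ≤ k := by exact_mod_cast h
  gcongr

private lemma D4_nohit {N T : ℕ} {c : Clk} {k : ℕ} (h : hit N T c k = false) :
    ∀ v ∈ marks c, ¬ (tm N T k < v ∧ v ≤ tm N T (k + 1)) := by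
  unfold hit at h
  rw [decide_eq_false_iff_not] at h
  push Not at h
  intro v hv hv'
  exact absurd hv'.2 (not_le.2 (h v hv hv'.1))

private lemma D4_hit {N T : ℕ} {c : Clk} {k : ℕ} (h : hit N T c k = true) :
    ∃ u ∈ marks c, tm N T k < u ∧ u ≤ tm N T (k + 1) := by
  unfold hit at h
  simpa only [decide_eq_true_eq] using h

private lemma D4_coll_child {d : ℕ} {H : (TV d ⊕ (TV d × TV d)) → ℕ → Bool} {n K : ℕ} {x : TV d}
    (i : Fin d) (h : Coll H n K (ch x i)) : Coll H (n + 1) K x := by
  obtain ⟨w, j, k, hw, hk, h1, h2⟩ := h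
  refine ⟨i :: w, j, k, by simpa using hw, hk, ?_, ?_⟩
  · simpa [ch] using h1
  · simpa [ch] using h2

private lemma D4_lower {d : ℕ} (ω : CΩ (TV d)) (N T K : ℕ) :
    ∀ (k n : ℕ) (x : TV d), ¬ Coll (hits N T ω) n K x → k ≤ K → ZL (hits N T ω) n k x = true →
      Reach (tree d) ω (tm N T 0) x (tm N T k) := by
  intro k
  induction k with
  | zero =>
    intro n x _ _ _
    exact Reach.start x _ le_rfl (fun v _ hv => absurd hv.1 (not_lt.2 hv.2))
  | succ k ih =>
    intro n x hc hk hZ
    have hstep : ∀ m, ¬ Coll (hits N T ω) m K x → (ZL (hits N T ω) m k x && !hits N T ω (Sum.inl x) k) = true →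
        Reach (tree d) ω (tm N T 0) x (tm N T (k + 1)) := by
      intro m hm h
      rw [Bool.and_eq_true, Bool.not_eq_true'] at h
      exact (ih m x hm (by omega) h.1).extend (D4_tm_mono (Nat.le_succ k)) (D4_nohit h.2)
    cases n with
    | zero =>
      rw [ZL] at hZ
      exact hstep 0 hc hZ
    | succ n =>
      rw [ZL, Bool.or_eq_true] at hZ
      rcases hZ with hZ | hZ
      · exact hstep (n + 1) hc hZ
      · obtain ⟨i, hi, hy⟩ := of_decide_eq_true hZ
        have hcoll : ¬ (hits N T ω (Sum.inl x) k = true ∨ hits N T ω (Sum.inl (ch x i)) k = true) := by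
          intro h
          refine hc ⟨[], i, k, by simp, by omega, ?_, ?_⟩
          · simpa using hi
          · simpa using h
        rw [not_or, Bool.not_eq_true, Bool.not_eq_true] at hcoll
        obtain ⟨u, hu, hu1, hu2⟩ := D4_hit hi
        have hr := ih n (ch x i) (fun h => hc (D4_coll_child i h)) (by omega) hy
        have hr2 : Reach (tree d) ω (tm N T 0) (ch x i) u :=
          hr.extend hu1.le (fun v hv hv' => D4_nohit hcoll.2 v hv ⟨hv'.1, hv'.2.trans hu2⟩)
        refine Reach.arrow x (ch x i) u _ ?_ (lt_of_le_of_lt (D4_tm_mono (Nat.zero_le k)) hu1) hu2 hu hr2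
          (fun v hv hv' => D4_nohit hcoll.1 v hv ⟨hu1.trans hv'.1, hv'.2⟩)
        right
        left
        exact ⟨i, rfl⟩

theorem lower_det {d : ℕ} (ω : CΩ (TV d)) (N T n K : ℕ) (hN : 0 < N) (x : TV d)
    (hc : ¬ Coll (hits N T ω) n K x) :
    ∀ k, k ≤ K → ZL (hits N T ω) n k x = true → Reach (tree d) ω (tm N T 0) x (tm N T k) := by
  intro k hk h
  exact D4_lower ω N T K k n x hc hk h

private lemma D4_slot {N T : ℕ} {u : ℝ} (h0 : tm N T 0 < u) :
    ∀ k, u ≤ tm N T k → ∃ j, j < k ∧ tm N T j < u ∧ u ≤ tm N T (j + 1) := by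
  intro k
  induction k with
  | zero => intro h; exact absurd h0 (not_lt.2 h)
  | succ k ih =>
    intro h
    rcases le_or_gt u (tm N T k) with h1 | h1
    · obtain ⟨j, hj, h2⟩ := ih h1
      exact ⟨j, by omega, h2⟩
    · exact ⟨k, by omega, h1, h⟩

theorem flip_det {V : Type} (ω : FΩ V) (N T k : ℕ) (hN : 0 < N) (x : V)
    (hc : ∀ j, j < k → ¬ (hits N T ω (Sum.inl x) j = true ∧ hits N T ω (Sum.inr x) j = true))
    (hd : ∃ j, j < k ∧ hits N T ω (Sum.inl x) j = true)
    (h : FlipOn ω x (tm N T k)) : Xd (hits N T ω) k x = true := by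
  obtain ⟨u, hu, huk, hn⟩ := h
  obtain ⟨i, hik, hi⟩ := hd
  obtain ⟨v, hv, hv1, hv2⟩ := D4_hit hi
  have huv : v ≤ u := by
    by_contra hcon
    exact hn v hv ⟨not_le.1 hcon, hv2.trans (D4_tm_mono (by omega))⟩
  have hu0 : tm N T 0 < u := lt_of_le_of_lt (D4_tm_mono (Nat.zero_le i)) (lt_of_lt_of_le hv1 huv)
  obtain ⟨j, hj, hj1, hj2⟩ := D4_slot hu0 k huk
  have hup : hits N T ω (Sum.inr x) j = true := by
    unfold hits hit
    simp only [decide_eq_true_eq]
    exact ⟨u, hu, hj1, hj2⟩
  have hdown : hits N T ω (Sum.inl x) j = false := by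
    rw [← Bool.not_eq_true]
    exact fun h => hc j hj ⟨h, hup⟩
  have hrest : ∀ m, j + 1 ≤ m → m < k → hits N T ω (Sum.inl x) m = false := by
    intro m hm hmk
    rw [← Bool.not_eq_true]
    intro h
    obtain ⟨w, hw, hw1, hw2⟩ := D4_hit h
    refine hn w hw ⟨lt_of_le_of_lt (hj2.trans (D4_tm_mono hm)) hw1, hw2.trans (D4_tm_mono (by omega))⟩
  have key : ∀ m, j + 1 ≤ m → m ≤ k → Xd (hits N T ω) m x = true := by
    intro m hm
    induction m, hm using Nat.le_induction with
    | base =>
      intro _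
      rw [Xd, hdown, hup]
      simp
    | succ m hm ih =>
      intro hmk
      rw [Xd, ih (by omega), hrest m hm (by omega)]
      simp
  exact key k hj le_rfl

end H50CP
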