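import Pool.Agent.H50.CP.Disc

/-!
# D5: measurability of the discrete systems, probabilities of bad events

Measurability: all functionals depend on finitely many coordinates through Boolean operations; for
`Zd`, `ZL` use induction on `k` (the existential over `Fin d` is a finite union); `Coll` is a
countable union.

`prob_budget`: let `D n k x = {Zd H k x = true, ZL H n k x = false}`.  `D n (k+1) x ⊆ D n k x ∪
⋃_i {H(arrow from ch x i) k = true} ∩ D' (n-1) k (ch x i)` with `D' (-1) = everything`; the slot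
variable `(arrow, k)` is independent of `D' (n-1) k` (which only depends on slots `< k`; prove
an abstract lemma: under `berLaw p`, `{H c k = true}` is independent of a measurable set that does
not change when the values at times `≥ k` are changed, or use `iIndepFun` of the coordinates of an
`infinitePi`).  So `P(D n (k+1) x) ≤ P(D n k x) + d a sup_y P(D' (n-1) k y)` and
`(d a k)^(n+1)/(n+1)! + d a (d a k)^n/n! ≤ (d a (k+1))^(n+1)/(n+1)!`.

`prob_coll`: union bound over `w` (at most `(n+1) d^n` words of length `≤ n`, `d ≥ 1`), `i`, `k`; two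
different clocks ring in the same slot: `a q`, two possibilities.
-/

namespace H50CP

open MeasureTheory ProbabilityTheory Set
open scoped NNReal ENNReal

/-! ### coordinates of the Bernoulli family -/

theorem D5_ber_true {p : ℝ} (h0 : 0 ≤ p) (h1 : p ≤ 1) : ber p {true} = ENNReal.ofReal p := by
  simp [ber, min_eq_right h1, max_eq_right h0]

theorem D5_ber_false {p : ℝ} (h0 : 0 ≤ p) (h1 : p ≤ 1) :
    ber p {false} = ENNReal.ofReal (1 - p) := by
  simp [ber, min_eq_right h1, max_eq_right h0]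

theorem D5_meas_coord {ι : Type} (c : ι) (k : ℕ) :
    MeasurableSet {H : ι → ℕ → Bool | H c k = true} := by
  have h : Measurable (fun H : ι → ℕ → Bool => H c k) := by fun_prop
  exact h (measurableSet_singleton true)

theorem D5_coord {ι : Type} (p : ι → ℝ) (c : ι) (k : ℕ) (h0 : 0 ≤ p c) (h1 : p c ≤ 1) :
    berLaw p {H : ι → ℕ → Bool | H c k = true} = ENNReal.ofReal (p c) := by
  have e : {H : ι → ℕ → Bool | H c k = true} =
      (fun H : ι → ℕ → Bool => H c) ⁻¹' ((fun f : ℕ → Bool => f k) ⁻¹' {true}) := rfl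
  have m1 : Measurable (fun H : ι → ℕ → Bool => H c) := by fun_prop
  have m2 : Measurable (fun f : ℕ → Bool => f k) := by fun_prop
  rw [e, ← Measure.map_apply m1 (m2 (measurableSet_singleton _))]
  unfold berLaw
  rw [Measure.infinitePi_map_eval, ← Measure.map_apply m2 (measurableSet_singleton _)]
  unfold bseq
  rw [Measure.infinitePi_map_eval, D5_ber_true h0 h1]

theorem D5_iIndep {ι : Type} (p : ι → ℝ) :
    iIndepFun (fun (c : ι × ℕ) (H : ι → ℕ → Bool) => H c.1 c.2) (berLaw p) := by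
  unfold berLaw bseq
  exact iIndepFun_uncurry_infinitePi' (X := fun _ _ b => b) (fun i _ => ber (p i))
    (fun _ _ => measurable_id)

/-- two different clocks in the same slot -/
theorem D5_pair {ι : Type} (p : ι → ℝ) (c c' : ι) (k : ℕ) (hc : c ≠ c') (h0 : 0 ≤ p c)
    (h1 : p c ≤ 1) (h0' : 0 ≤ p c') (h1' : p c' ≤ 1) :
    berLaw p ({H : ι → ℕ → Bool | H c k = true} ∩ {H | H c' k = true}) =
      ENNReal.ofReal (p c) * ENNReal.ofReal (p c') := by
  have h := (D5_iIndep p).indepFun (i := (c, k)) (j := (c', k)) (by simp [hc])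
  rw [h.meas_inter, D5_coord p c k h0 h1, D5_coord p c' k h0' h1']
  · exact ⟨{true}, measurableSet_singleton _, rfl⟩
  · exact ⟨{true}, measurableSet_singleton _, rfl⟩

/-- the σ-algebra of the slots `< k` -/
@[instance_reducible] def D5_F (ι : Type) (k : ℕ) : MeasurableSpace (ι → ℕ → Bool) :=
  ⨆ c ∈ {c : ι × ℕ | c.2 < k},
    (inferInstance : MeasurableSpace Bool).comap (fun H : ι → ℕ → Bool => H c.1 c.2)

theorem D5_comap_le {ι : Type} (c : ι × ℕ) :
    (inferInstance : MeasurableSpace Bool).comap (fun H : ι → ℕ → Bool => H c.1 c.2) ≤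
      (inferInstance : MeasurableSpace (ι → ℕ → Bool)) := by
  have h : Measurable (fun H : ι → ℕ → Bool => H c.1 c.2) := by fun_prop
  exact h.comap_le

theorem D5_F_le {ι : Type} (k : ℕ) :
    D5_F ι k ≤ (inferInstance : MeasurableSpace (ι → ℕ → Bool)) :=
  iSup₂_le fun c _ => D5_comap_le c

theorem D5_F_mono {ι : Type} {k k' : ℕ} (h : k ≤ k') : D5_F ι k ≤ D5_F ι k' := by
  refine iSup₂_le fun c hc => ?_
  exact le_iSup₂_of_le c (show c.2 < k' from lt_of_lt_of_le hc h) le_rfl

theorem D5_F_coord {ι : Type} (c : ι) {j k : ℕ} (h : j < k) :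
    MeasurableSet[D5_F ι k] {H : ι → ℕ → Bool | H c j = true} := by
  have h1 : (inferInstance : MeasurableSpace Bool).comap (fun H : ι → ℕ → Bool => H c j) ≤
      D5_F ι k := le_iSup₂_of_le (c, j) h le_rfl
  exact h1 _ ⟨{true}, measurableSet_singleton _, rfl⟩

theorem D5_indep {ι : Type} (p : ι → ℝ) (c : ι) (k : ℕ) (S : Set (ι → ℕ → Bool))
    (h0 : 0 ≤ p c) (h1 : p c ≤ 1) (hS : MeasurableSet[D5_F ι k] S) :
    berLaw p ({H : ι → ℕ → Bool | H c k = true} ∩ S) = ENNReal.ofReal (p c) * berLaw p S := by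
  have h := indep_iSup_of_disjoint (S := {((c, k) : ι × ℕ)}) (T := {c : ι × ℕ | c.2 < k})
    (fun c => D5_comap_le c) (D5_iIndep p).iIndep (by
      rw [Set.disjoint_singleton_left]
      simp)
  rw [Indep_iff] at h
  rw [h _ _ ?_ hS, D5_coord p c k h0 h1]
  rw [iSup_singleton]
  exact ⟨{true}, measurableSet_singleton _, rfl⟩

/-! ### measurability of the discrete systems -/

theorem D5_meas_Zd {d : ℕ} (k : ℕ) (x : TV d) : MeasurableSet[D5_F (TV d ⊕ (TV d × TV d)) k]
    {H : (TV d ⊕ (TV d × TV d)) → ℕ → Bool | Zd H k x = true} := by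
  induction k generalizing x with
  | zero =>
    have : {H : (TV d ⊕ (TV d × TV d)) → ℕ → Bool | Zd H 0 x = true} = univ := by
      ext H; simp [Zd]
    rw [this]; exact @MeasurableSet.univ _ _
  | succ k ih =>
    have : {H : (TV d ⊕ (TV d × TV d)) → ℕ → Bool | Zd H (k + 1) x = true} =
        ({H | Zd H k x = true} ∩ {H | H (Sum.inl x) k = true}ᶜ) ∪
          ⋃ i : Fin d, ({H | H (Sum.inr (ch x i, x)) k = true} ∩ {H | Zd H k (ch x i) = true}) := by
      ext H
      simp [Zd]
    rw [this]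
    have hm := fun y => D5_F_mono (ι := TV d ⊕ (TV d × TV d)) (Nat.le_succ k) _ (ih y)
    refine @MeasurableSet.union _ (_) _ _ (@MeasurableSet.inter _ (_) _ _ (hm x)
      (@MeasurableSet.compl _ _ (_) (D5_F_coord _ (Nat.lt_succ_self k)))) ?_
    exact @MeasurableSet.iUnion _ _ (_) _ _ fun i => @MeasurableSet.inter _ (_) _ _
      (D5_F_coord _ (Nat.lt_succ_self k)) (hm _)

theorem D5_meas_ZL {d : ℕ} (k n : ℕ) (x : TV d) : MeasurableSet[D5_F (TV d ⊕ (TV d × TV d)) k]
    {H : (TV d ⊕ (TV d × TV d)) → ℕ → Bool | ZL H n k x = true} := by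
  induction k generalizing n x with
  | zero =>
    have : {H : (TV d ⊕ (TV d × TV d)) → ℕ → Bool | ZL H n 0 x = true} = univ := by
      ext H; cases n <;> simp [ZL]
    rw [this]; exact @MeasurableSet.univ _ _
  | succ k ih =>
    have hm := fun n y => D5_F_mono (ι := TV d ⊕ (TV d × TV d)) (Nat.le_succ k) _ (ih n y)
    cases n with
    | zero =>
      have : {H : (TV d ⊕ (TV d × TV d)) → ℕ → Bool | ZL H 0 (k + 1) x = true} =
          {H | ZL H 0 k x = true} ∩ {H | H (Sum.inl x) k = true}ᶜ := by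
        ext H
        simp [ZL]
      rw [this]
      exact @MeasurableSet.inter _ (_) _ _ (hm 0 x)
        (@MeasurableSet.compl _ _ (_) (D5_F_coord _ (Nat.lt_succ_self k)))
    | succ n =>
      have : {H : (TV d ⊕ (TV d × TV d)) → ℕ → Bool | ZL H (n + 1) (k + 1) x = true} =
          ({H | ZL H (n + 1) k x = true} ∩ {H | H (Sum.inl x) k = true}ᶜ) ∪
            ⋃ i : Fin d, ({H | H (Sum.inr (ch x i, x)) k = true} ∩
              {H | ZL H n k (ch x i) = true}) := by
        ext H
        simp [ZL]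
      rw [this]
      refine @MeasurableSet.union _ (_) _ _ (@MeasurableSet.inter _ (_) _ _ (hm _ x)
        (@MeasurableSet.compl _ _ (_) (D5_F_coord _ (Nat.lt_succ_self k)))) ?_
      exact @MeasurableSet.iUnion _ _ (_) _ _ fun i => @MeasurableSet.inter _ (_) _ _
        (D5_F_coord _ (Nat.lt_succ_self k)) (hm _ _)

/-- the budget is exhausted (one arrow less) -/
def D5_D' {d : ℕ} (n k : ℕ) (y : TV d) : Set ((TV d ⊕ (TV d × TV d)) → ℕ → Bool) :=
  match n with
  | 0 => univ
  | n + 1 => {H | Zd H k y = true ∧ ZL H n k y = false}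

theorem D5_meas_D' {d : ℕ} (n k : ℕ) (y : TV d) :
    MeasurableSet[D5_F (TV d ⊕ (TV d × TV d)) k] (D5_D' n k y) := by
  cases n with
  | zero => exact @MeasurableSet.univ _ _
  | succ n =>
    have : (D5_D' (n + 1) k y : Set ((TV d ⊕ (TV d × TV d)) → ℕ → Bool)) =
        {H | Zd H k y = true} ∩ {H | ZL H n k y = true}ᶜ := by
      ext H
      simp [D5_D']
    rw [this]
    exact @MeasurableSet.inter _ (_) _ _ (D5_meas_Zd k y)
      (@MeasurableSet.compl _ _ (_) (D5_meas_ZL k n y))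

theorem D5_pow (y s : ℝ) (hy : 0 ≤ y) (hs : 0 ≤ s) (n : ℕ) :
    y ^ (n + 1) + ((n : ℝ) + 1) * s * y ^ n ≤ (y + s) ^ (n + 1) := by
  induction n with
  | zero => simp
  | succ n ih =>
    rw [pow_succ (y + s)]
    have h1 := mul_le_mul_of_nonneg_right ih (add_nonneg hy hs)
    refine le_trans ?_ h1
    have h2 : (0:ℝ) ≤ ((n : ℝ) + 1) * s * y ^ n * s := by positivity
    have h3 : (y ^ (n + 1) + ((n : ℝ) + 1) * s * y ^ n) * (y + s) =
        y ^ (n + 1 + 1) + (((n : ℝ) + 1) + 1) * s * y ^ (n + 1) +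
          ((n : ℝ) + 1) * s * y ^ n * s := by ring
    rw [h3]
    push_cast
    linarith

theorem measurable_Zd {d : ℕ} (k : ℕ) (x : TV d) :
    Measurable (fun H : (TV d ⊕ (TV d × TV d)) → ℕ → Bool => Zd H k x) := by
  exact measurable_to_bool (D5_F_le k _ (D5_meas_Zd k x))

theorem measurable_ZL {d : ℕ} (n k : ℕ) (x : TV d) :
    Measurable (fun H : (TV d ⊕ (TV d × TV d)) → ℕ → Bool => ZL H n k x) := by
  exact measurable_to_bool (D5_F_le k _ (D5_meas_ZL k n x))

theorem measurable_Xd {V : Type} (k : ℕ) (x : V) :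
    Measurable (fun H : (V ⊕ V) → ℕ → Bool => Xd H k x) := by
  refine measurable_to_bool ?_
  change MeasurableSet {H : (V ⊕ V) → ℕ → Bool | Xd H k x = true}
  induction k with
  | zero =>
    have : {H : (V ⊕ V) → ℕ → Bool | Xd H 0 x = true} = ∅ := by
      ext H; simp [Xd]
    rw [this]; exact MeasurableSet.empty
  | succ k ih =>
    have : {H : (V ⊕ V) → ℕ → Bool | Xd H (k + 1) x = true} =
        ({H | Xd H k x = true} ∩ {H | H (Sum.inl x) k = true}ᶜ) ∪
          ({H | Xd H k x = true}ᶜ ∩ {H | H (Sum.inr x) k = true}) := by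
      ext H
      by_cases h : Xd H k x = true
      · simp [Xd, h]
      · simp [Xd, h]
    rw [this]
    exact (ih.inter (D5_meas_coord _ _).compl).union (ih.compl.inter (D5_meas_coord _ _))

theorem measurableSet_Coll {d : ℕ} (n K : ℕ) (x : TV d) :
    MeasurableSet {H : (TV d ⊕ (TV d × TV d)) → ℕ → Bool | Coll H n K x} := by
  have : {H : (TV d ⊕ (TV d × TV d)) → ℕ → Bool | Coll H n K x} =
      ⋃ w : List (Fin d), ⋃ i : Fin d, ⋃ k : ℕ, ({_H | w.length ≤ n ∧ k < K} ∩
        ({H | H (Sum.inr (ch (x.1, x.2 ++ w) i, (x.1, x.2 ++ w))) k = true} ∩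
          ({H | H (Sum.inl (x.1, x.2 ++ w)) k = true} ∪
            {H | H (Sum.inl (ch (x.1, x.2 ++ w) i)) k = true}))) := by
    ext H
    simp only [Coll, mem_ofPred_eq, mem_iUnion, mem_inter_iff, mem_union]
    constructor
    · rintro ⟨w, i, k, h1, h2, h3, h4⟩
      exact ⟨w, i, k, ⟨h1, h2⟩, h3, h4⟩
    · rintro ⟨w, i, k, ⟨h1, h2⟩, h3, h4⟩
      exact ⟨w, i, k, h1, h2, h3, h4⟩
  rw [this]
  refine MeasurableSet.iUnion fun w => MeasurableSet.iUnion fun i => MeasurableSet.iUnion fun k => ?_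
  exact (MeasurableSet.const _).inter ((D5_meas_coord _ _).inter
    ((D5_meas_coord _ _).union (D5_meas_coord _ _)))

theorem ZL_le_Zd {d : ℕ} (H : (TV d ⊕ (TV d × TV d)) → ℕ → Bool) (n k : ℕ) (x : TV d)
    (h : ZL H n k x = true) : Zd H k x = true := by
  induction k generalizing n x with
  | zero => rfl
  | succ k ih =>
    cases n with
    | zero =>
      simp only [ZL, Bool.and_eq_true] at h
      simp only [Zd, Bool.or_eq_true, Bool.and_eq_true]
      exact Or.inl ⟨ih 0 x h.1, h.2⟩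
    | succ n =>
      simp only [ZL, Bool.or_eq_true, Bool.and_eq_true, decide_eq_true_eq] at h
      simp only [Zd, Bool.or_eq_true, Bool.and_eq_true, decide_eq_true_eq]
      rcases h with h | ⟨i, h1, h2⟩
      · exact Or.inl ⟨ih (n + 1) x h.1, h.2⟩
      · exact Or.inr ⟨i, h1, ih n _ h2⟩

theorem prob_budget {d : ℕ} {q a : ℝ} (hq0 : 0 ≤ q) (hq1 : q ≤ 1) (ha0 : 0 ≤ a) (ha1 : a ≤ 1)
    (n k : ℕ) (x : TV d) :
    (berLaw (pc q a)) {H : (TV d ⊕ (TV d × TV d)) → ℕ → Bool |
        Zd H k x = true ∧ ZL H n k x = false} ≤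
      ENNReal.ofReal ((d * a * k) ^ (n + 1) / (n + 1).factorial) := by
  have hpos : ∀ k : ℕ, (0:ℝ) ≤ (d : ℝ) * a * k := fun k => by positivity
  induction k generalizing n x with
  | zero =>
    have : {H : (TV d ⊕ (TV d × TV d)) → ℕ → Bool |
        Zd H 0 x = true ∧ ZL H n 0 x = false} = ∅ := by
      ext H
      cases n <;> simp [Zd, ZL]
    rw [this, measure_empty]
    exact zero_le
  | succ k ih =>
    -- the events below the children
    have hb : ∀ y : TV d, (berLaw (pc q a)) (D5_D' n k y) ≤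
        ENNReal.ofReal ((d * a * k) ^ n / n.factorial) := by
      intro y
      cases n with
      | zero => simp [D5_D']
      | succ n => exact ih n y
    have hsub : {H : (TV d ⊕ (TV d × TV d)) → ℕ → Bool |
        Zd H (k + 1) x = true ∧ ZL H n (k + 1) x = false} ⊆
        {H | Zd H k x = true ∧ ZL H n k x = false} ∪
          ⋃ i : Fin d, ({H | H (Sum.inr (ch x i, x)) k = true} ∩ D5_D' n k (ch x i)) := by
      rintro H ⟨h1, h2⟩
      simp only [Zd, Bool.or_eq_true, Bool.and_eq_true, decide_eq_true_eq] at h1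
      cases n with
      | zero =>
        simp only [ZL] at h2
        rcases h1 with h1 | ⟨i, h3, h4⟩
        · left
          refine ⟨h1.1, ?_⟩
          rw [h1.2, Bool.and_true] at h2
          exact h2
        · right
          exact mem_iUnion.2 ⟨i, h3, mem_univ _⟩
      | succ n =>
        simp only [ZL, Bool.or_eq_false_iff] at h2
        rcases h1 with h1 | ⟨i, h3, h4⟩
        · left
          refine ⟨h1.1, ?_⟩
          have h5 := h2.1
          rw [h1.2, Bool.and_true] at h5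
          exact h5
        · right
          refine mem_iUnion.2 ⟨i, h3, h4, ?_⟩
          have h5 := h2.2
          rw [decide_eq_false_iff_not] at h5
          by_contra h6
          exact h5 ⟨i, h3, by simpa using h6⟩
    refine (measure_mono hsub).trans ((measure_union_le _ _).trans ?_)
    have h1 := ih n x
    have h2 : (berLaw (pc q a)) (⋃ i : Fin d,
        ({H | H (Sum.inr (ch x i, x)) k = true} ∩ D5_D' n k (ch x i))) ≤
        ENNReal.ofReal (d * a * ((d * a * k) ^ n / n.factorial)) := by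
      refine (measure_iUnion_fintype_le _ _).trans ?_
      have h3 : ∀ i : Fin d, (berLaw (pc q a))
          ({H | H (Sum.inr (ch x i, x)) k = true} ∩ D5_D' n k (ch x i)) ≤
          ENNReal.ofReal (a * ((d * a * k) ^ n / n.factorial)) := by
        intro i
        have h4 := D5_indep (pc q a) (Sum.inr (ch x i, x)) k (D5_D' n k (ch x i)) ha0 ha1
          (D5_meas_D' n k _)
        rw [h4, ENNReal.ofReal_mul ha0]
        exact mul_le_mul' le_rfl (hb _)
      refine (Finset.sum_le_sum fun i _ => h3 i).trans ?_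
      rw [Finset.sum_const, Finset.card_univ, Fintype.card_fin, nsmul_eq_mul,
        mul_assoc (d:ℝ) a (_ / _), ENNReal.ofReal_mul (by positivity : (0:ℝ) ≤ (d:ℝ)),
        ENNReal.ofReal_natCast]
    refine (add_le_add h1 h2).trans ?_
    have e1 : (0:ℝ) ≤ (d * a * k) ^ (n + 1) / (n + 1).factorial := by
      have := hpos k; positivity
    have e2 : (0:ℝ) ≤ d * a * ((d * a * k) ^ n / n.factorial) := by
      have := hpos k; positivity
    rw [← ENNReal.ofReal_add e1 e2]
    apply ENNReal.ofReal_le_ofReal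
    have hfac : (0:ℝ) < ((n + 1).factorial : ℝ) := by positivity
    have hfac' : ((n + 1).factorial : ℝ) = ((n : ℝ) + 1) * (n.factorial : ℝ) := by
      rw [Nat.factorial_succ]; push_cast; ring
    have hfn : (0:ℝ) < (n.factorial : ℝ) := by positivity
    have key := D5_pow (d * a * k) (d * a) (hpos k) (by positivity) n
    have h4 : (d * a * k) ^ (n + 1) / ((n + 1).factorial : ℝ) +
        d * a * ((d * a * k) ^ n / (n.factorial : ℝ)) =
        ((d * a * k) ^ (n + 1) + ((n : ℝ) + 1) * (d * a) * (d * a * k) ^ n) /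
          ((n + 1).factorial : ℝ) := by
      rw [hfac']
      field_simp
    rw [h4, div_le_div_iff_of_pos_right hfac]
    refine key.trans (le_of_eq ?_)
    push_cast
    ring

theorem prob_coll {d : ℕ} (hd : 1 ≤ d) {q a : ℝ} (hq0 : 0 ≤ q) (hq1 : q ≤ 1) (ha0 : 0 ≤ a)
    (ha1 : a ≤ 1) (n K : ℕ) (x : TV d) :
    (berLaw (pc q a)) {H : (TV d ⊕ (TV d × TV d)) → ℕ → Bool | Coll H n K x} ≤
      ENNReal.ofReal ((n + 1) * d ^ (n + 1) * K * (2 * q * a)) := by
  have hsub : {H : (TV d ⊕ (TV d × TV d)) → ℕ → Bool | Coll H n K x} ⊆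
      ⋃ j : Fin (n + 1), ⋃ v : Fin j → Fin d, ⋃ i : Fin d, ⋃ k : Fin K,
        (({H | H (Sum.inr (ch (x.1, x.2 ++ List.ofFn v) i, (x.1, x.2 ++ List.ofFn v))) k = true} ∩
          {H | H (Sum.inl (x.1, x.2 ++ List.ofFn v)) k = true}) ∪
        ({H | H (Sum.inr (ch (x.1, x.2 ++ List.ofFn v) i, (x.1, x.2 ++ List.ofFn v))) k = true} ∩
          {H | H (Sum.inl (ch (x.1, x.2 ++ List.ofFn v) i)) k = true})) := by
    rintro H ⟨w, i, k, hw, hk, h1, h2⟩
    refine mem_iUnion.2 ⟨⟨w.length, by omega⟩, mem_iUnion.2 ⟨w.get, mem_iUnion.2 ⟨i,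
      mem_iUnion.2 ⟨⟨k, hk⟩, ?_⟩⟩⟩⟩
    have hw' : List.ofFn w.get = w := List.ofFn_get w
    simp only
    rw [hw']
    rcases h2 with h2 | h2
    · exact Or.inl ⟨h1, h2⟩
    · exact Or.inr ⟨h1, h2⟩
  refine (measure_mono hsub).trans ?_
  have hE : ∀ (v : List (Fin d)) (i : Fin d) (k : ℕ), (berLaw (pc q a))
      (({H | H (Sum.inr (ch (x.1, x.2 ++ v) i, (x.1, x.2 ++ v))) k = true} ∩
          {H | H (Sum.inl (x.1, x.2 ++ v)) k = true}) ∪
        ({H | H (Sum.inr (ch (x.1, x.2 ++ v) i, (x.1, x.2 ++ v))) k = true} ∩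
          {H | H (Sum.inl (ch (x.1, x.2 ++ v) i)) k = true})) ≤
      ENNReal.ofReal (2 * q * a) := by
    intro v i k
    refine (measure_union_le _ _).trans ?_
    have e1 := D5_pair (pc q a) (Sum.inr (ch (x.1, x.2 ++ v) i, (x.1, x.2 ++ v)))
      (Sum.inl (x.1, x.2 ++ v)) k (by simp) ha0 ha1 hq0 hq1
    have e2 := D5_pair (pc q a) (Sum.inr (ch (x.1, x.2 ++ v) i, (x.1, x.2 ++ v)))
      (Sum.inl (ch (x.1, x.2 ++ v) i)) k (by simp) ha0 ha1 hq0 hq1
    have e3 : ENNReal.ofReal (pc q a (Sum.inr (ch (x.1, x.2 ++ v) i, (x.1, x.2 ++ v)))) =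
      ENNReal.ofReal a := rfl
    have e4 : ∀ y : TV d, ENNReal.ofReal (pc q a (Sum.inl y)) = ENNReal.ofReal q := fun _ => rfl
    rw [e1, e2, e3, e4, e4, ← ENNReal.ofReal_mul ha0,
      ← ENNReal.ofReal_add (mul_nonneg ha0 hq0) (mul_nonneg ha0 hq0)]
    exact ENNReal.ofReal_le_ofReal (le_of_eq (by ring))
  have hd' : (1:ℝ) ≤ d := by exact_mod_cast hd
  calc (berLaw (pc q a)) (⋃ j : Fin (n + 1), ⋃ v : Fin j → Fin d, ⋃ i : Fin d, ⋃ k : Fin K,
        (({H | H (Sum.inr (ch (x.1, x.2 ++ List.ofFn v) i, (x.1, x.2 ++ List.ofFn v))) k = true} ∩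
          {H | H (Sum.inl (x.1, x.2 ++ List.ofFn v)) k = true}) ∪
        ({H | H (Sum.inr (ch (x.1, x.2 ++ List.ofFn v) i, (x.1, x.2 ++ List.ofFn v))) k = true} ∩
          {H | H (Sum.inl (ch (x.1, x.2 ++ List.ofFn v) i)) k = true})))
      ≤ ∑ j : Fin (n + 1), ∑ v : Fin j → Fin d, ∑ i : Fin d, ∑ k : Fin K,
          ENNReal.ofReal (2 * q * a) := by
        refine (measure_iUnion_fintype_le _ _).trans (Finset.sum_le_sum fun j _ => ?_)
        refine (measure_iUnion_fintype_le _ _).trans (Finset.sum_le_sum fun v _ => ?_)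
        refine (measure_iUnion_fintype_le _ _).trans (Finset.sum_le_sum fun i _ => ?_)
        refine (measure_iUnion_fintype_le _ _).trans (Finset.sum_le_sum fun k _ => ?_)
        exact hE _ _ _
    _ ≤ ∑ j : Fin (n + 1), ENNReal.ofReal (d ^ (n + 1) * K * (2 * q * a)) := by
        refine Finset.sum_le_sum fun j _ => ?_
        rw [Finset.sum_const, Finset.sum_const, Finset.sum_const, Finset.card_univ,
          Finset.card_univ, Finset.card_univ, Fintype.card_fin, Fintype.card_fin,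
          Fintype.card_fun, Fintype.card_fin, Fintype.card_fin, nsmul_eq_mul, nsmul_eq_mul,
          nsmul_eq_mul, ← ENNReal.ofReal_natCast K, ← ENNReal.ofReal_natCast d,
          ← ENNReal.ofReal_natCast (d ^ (j : ℕ)), ← ENNReal.ofReal_mul (by positivity),
          ← ENNReal.ofReal_mul (by positivity), ← ENNReal.ofReal_mul (by positivity)]
        apply ENNReal.ofReal_le_ofReal
        push_cast
        have h1 : (d:ℝ) ^ (j : ℕ) ≤ (d:ℝ) ^ n := pow_le_pow_right₀ hd' (by omega)
        have h2 : (0:ℝ) ≤ (d:ℝ) * (K * (2 * q * a)) := by positivity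
        calc (d:ℝ) ^ (j : ℕ) * ((d:ℝ) * (K * (2 * q * a)))
            ≤ (d:ℝ) ^ n * ((d:ℝ) * (K * (2 * q * a))) := mul_le_mul_of_nonneg_right h1 h2
          _ = _ := by ring
    _ = ENNReal.ofReal ((n + 1) * d ^ (n + 1) * K * (2 * q * a)) := by
        rw [Finset.sum_const, Finset.card_univ, Fintype.card_fin, nsmul_eq_mul,
          ← ENNReal.ofReal_natCast (n + 1), ← ENNReal.ofReal_mul (by positivity)]
        congr 1
        push_cast
        ring

theorem prob_fcoll {V : Type} {q a : ℝ} (hq0 : 0 ≤ q) (hq1 : q ≤ 1) (ha0 : 0 ≤ a) (ha1 : a ≤ 1)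
    (k : ℕ) (x : V) :
    (berLaw (pf q a)) {H : (V ⊕ V) → ℕ → Bool |
        ∃ j, j < k ∧ H (Sum.inl x) j = true ∧ H (Sum.inr x) j = true} ≤
      ENNReal.ofReal (k * (q * a)) := by
  have hsub : {H : (V ⊕ V) → ℕ → Bool |
        ∃ j, j < k ∧ H (Sum.inl x) j = true ∧ H (Sum.inr x) j = true} ⊆
      ⋃ j : Fin k, ({H | H (Sum.inl x) j = true} ∩ {H | H (Sum.inr x) j = true}) := by
    rintro H ⟨j, hj, h1, h2⟩
    exact mem_iUnion.2 ⟨⟨j, hj⟩, h1, h2⟩
  refine (measure_mono hsub).trans ((measure_iUnion_fintype_le _ _).trans ?_)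
  have h : ∀ j : Fin k, (berLaw (pf q a))
      ({H : (V ⊕ V) → ℕ → Bool | H (Sum.inl x) j = true} ∩ {H | H (Sum.inr x) j = true}) =
      ENNReal.ofReal (q * a) := by
    intro j
    have e1 := D5_pair (pf q a) (Sum.inl x) (Sum.inr x) j (by simp) hq0 hq1 ha0 ha1
    have e3 : ENNReal.ofReal (pf q a (Sum.inl x)) = ENNReal.ofReal q := rfl
    have e4 : ENNReal.ofReal (pf q a (Sum.inr x)) = ENNReal.ofReal a := rfl
    rw [e1, e3, e4, ← ENNReal.ofReal_mul hq0]
  rw [Finset.sum_congr rfl fun j _ => h j, Finset.sum_const, Finset.card_univ, Fintype.card_fin,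
    nsmul_eq_mul, ENNReal.ofReal_mul (by positivity : (0:ℝ) ≤ (k:ℝ)), ENNReal.ofReal_natCast]

theorem prob_nodown {V : Type} {q a : ℝ} (hq0 : 0 ≤ q) (hq1 : q ≤ 1) (k : ℕ) (x : V) :
    (berLaw (pf q a)) {H : (V ⊕ V) → ℕ → Bool | ∀ j, j < k → H (Sum.inl x) j = false} =
      ENNReal.ofReal ((1 - q) ^ k) := by
  have h1 : {H : (V ⊕ V) → ℕ → Bool | ∀ j, j < k → H (Sum.inl x) j = false} =
      (fun H : (V ⊕ V) → ℕ → Bool => H (Sum.inl x)) ⁻¹'
        (Set.pi (Finset.range k) fun _ => {false}) := by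
    ext H
    simp [Set.mem_pi]
  have m1 : Measurable (fun H : (V ⊕ V) → ℕ → Bool => H (Sum.inl x)) := by fun_prop
  rw [h1, ← Measure.map_apply m1
    (MeasurableSet.pi (Finset.countable_toSet _) fun _ _ => measurableSet_singleton _)]
  unfold berLaw
  rw [Measure.infinitePi_map_eval]
  unfold bseq
  rw [Measure.infinitePi_pi _ fun _ _ => measurableSet_singleton _, Finset.prod_const,
    Finset.card_range]
  have h2 : ber (pf q a (Sum.inl x : V ⊕ V)) {false} = ENNReal.ofReal (1 - q) := by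
    rw [D5_ber_false]
    · rfl
    · exact hq0
    · exact hq1
  rw [h2, ENNReal.ofReal_pow (by linarith)]

end H50CP
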