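import Pool.Agent.H50.CP.Stmt

/-! # discretisation: slots, Bernoulli families, discrete systems -/

namespace H50CP

open MeasureTheory ProbabilityTheory Set
open scoped NNReal ENNReal Classical

/-- Bernoulli measure on `Bool` (the parameter is truncated to `[0,1]`) -/
noncomputable def ber (p : ℝ) : Measure Bool :=
  ENNReal.ofReal (max 0 (min 1 p)) • Measure.dirac true
    + ENNReal.ofReal (1 - max 0 (min 1 p)) • Measure.dirac false

instance (p : ℝ) : IsProbabilityMeasure (ber p) := by
  constructor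
  simp only [ber, Measure.add_apply, Measure.smul_apply, measure_univ, smul_eq_mul, mul_one]
  rw [← ENNReal.ofReal_add (le_max_left _ _) (by
    have : max 0 (min 1 p) ≤ 1 := max_le zero_le_one (min_le_left _ _)
    linarith)]
  simp

/-- sequence of independent Bernoulli(`p`) variables -/
noncomputable def bseq (p : ℝ) : Measure (ℕ → Bool) := Measure.infinitePi fun _ : ℕ => ber p

instance (p : ℝ) : IsProbabilityMeasure (bseq p) := by unfold bseq; infer_instance

/-- family of independent Bernoulli sequences -/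
noncomputable def berLaw {ι : Type} (p : ι → ℝ) : Measure (ι → ℕ → Bool) :=
  Measure.infinitePi fun i => bseq (p i)

instance {ι : Type} (p : ι → ℝ) : IsProbabilityMeasure (berLaw p) := by
  unfold berLaw; infer_instance

/-- left end of the `k`-th slot: `-T + k/N` -/
noncomputable def tm (N T k : ℕ) : ℝ := -(T : ℝ) + k / N

/-- does the clock `c` ring in the `k`-th slot `(-T + k/N, -T + (k+1)/N]`? -/
noncomputable def hit (N T : ℕ) (c : Clk) (k : ℕ) : Bool :=
  decide (∃ u ∈ marks c, tm N T k < u ∧ u ≤ tm N T (k + 1))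

/-- slot indicators of a family of clocks -/
noncomputable def hits {ι : Type} (N T : ℕ) (ω : ι → Clk) : ι → ℕ → Bool :=
  fun i k => hit N T (ω i) k

/-- child `i` of a vertex of the tree -/
def ch {d : ℕ} (x : TV d) (i : Fin d) : TV d := (x.1, x.2 ++ [i])

/-- discrete one-directional system on the tree (arrows from children to parents), started from
all ones; `k` is the time -/
noncomputable def Zd {d : ℕ} (H : (TV d ⊕ (TV d × TV d)) → ℕ → Bool) : ℕ → TV d → Bool
  | 0, _ => true
  | k + 1, x => (Zd H k x && !H (Sum.inl x) k) ||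
      decide (∃ i : Fin d, H (Sum.inr (ch x i, x)) k = true ∧ Zd H k (ch x i) = true)

/-- the same with at most `n` arrows -/
noncomputable def ZL {d : ℕ} (H : (TV d ⊕ (TV d × TV d)) → ℕ → Bool) : ℕ → ℕ → TV d → Bool
  | 0, 0, _ => true
  | 0, k + 1, x => ZL H 0 k x && !H (Sum.inl x) k
  | _ + 1, 0, _ => true
  | n + 1, k + 1, x => (ZL H (n + 1) k x && !H (Sum.inl x) k) ||
      decide (∃ i : Fin d, H (Sum.inr (ch x i, x)) k = true ∧ ZL H n k (ch x i) = true)

/-- collision near `x` (below `x`, depth at most `n`), in the first `K` slots: an arrow from a child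
to its parent and a recovery of the child or of the parent in the same slot -/
def Coll {d : ℕ} (H : (TV d ⊕ (TV d × TV d)) → ℕ → Bool) (n K : ℕ) (x : TV d) : Prop :=
  ∃ (w : List (Fin d)) (i : Fin d) (k : ℕ), w.length ≤ n ∧ k < K ∧
    H (Sum.inr (ch (x.1, x.2 ++ w) i, (x.1, x.2 ++ w))) k = true ∧
    (H (Sum.inl (x.1, x.2 ++ w)) k = true ∨ H (Sum.inl (ch (x.1, x.2 ++ w) i)) k = true)

/-- discrete spin flips started from 0 -/
def Xd {V : Type} (H : (V ⊕ V) → ℕ → Bool) : ℕ → V → Bool
  | 0, _ => false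
  | k + 1, x => if Xd H k x then !H (Sum.inl x) k else H (Sum.inr x) k

/-- probabilities of the slot variables for the contact process -/
noncomputable def pc {V : Type} (q a : ℝ) : (V ⊕ (V × V)) → ℝ := Sum.elim (fun _ => q) (fun _ => a)

/-- probabilities of the slot variables for the spin flips -/
noncomputable def pf {V : Type} (q a : ℝ) : (V ⊕ V) → ℝ := Sum.elim (fun _ => q) (fun _ => a)

/-- discrete contact process on `ℤ`, started from all ones -/
def Zu (H : (ℤ ⊕ (ℤ × ℤ)) → ℕ → Bool) : ℕ → ℤ → Bool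
  | 0, _ => true
  | k + 1, x => (Zu H k x && !H (Sum.inl x) k) ||
      ((H (Sum.inr (x - 1, x)) k && Zu H k (x - 1)) || (H (Sum.inr (x + 1, x)) k && Zu H k (x + 1)))

/-- the same, always infected after the use of `n` arrows -/
def ZU (H : (ℤ ⊕ (ℤ × ℤ)) → ℕ → Bool) : ℕ → ℕ → ℤ → Bool
  | 0, _, _ => true
  | _ + 1, 0, _ => true
  | n + 1, k + 1, x => (ZU H (n + 1) k x && !H (Sum.inl x) k) ||
      ((H (Sum.inr (x - 1, x)) k && ZU H n k (x - 1)) ||
        (H (Sum.inr (x + 1, x)) k && ZU H n k (x + 1)))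

/-- two consecutive arrows `z → y' → y` in the same slot `k < K`, `|y - x| ≤ n` -/
def Coll2 (H : (ℤ ⊕ (ℤ × ℤ)) → ℕ → Bool) (n K : ℕ) (x : ℤ) : Prop :=
  ∃ (y y' z : ℤ) (k : ℕ), |y - x| ≤ n ∧ k < K ∧ zgraph.Adj y' y ∧ zgraph.Adj z y' ∧
    H (Sum.inr (y', y)) k = true ∧ H (Sum.inr (z, y')) k = true

end H50CP
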