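import Pool.Agent.H50.CP.Disc

/-!
# E1: deterministic upper comparison on `ℤ` (no two consecutive arrows in one slot)

Claim (induction on the derivation `Reach zgraph ω (tm 0) x t`, for all `n`): if
`tm k < t ≤ tm (k+1)`, `k < K` and there is no `Coll2 H n K x` (`H = hits N T ω`) then `n = 0` or
* (alt1) `ZU H n k x = true` and no recovery mark of `x` in `(tm k, t]`, or
* (alt2) there is a neighbour `y` of `x` with `H (inr (y, x)) k = true` and `ZU H (n-1) k y = true`.
`start`: no recovery marks in `(tm 0, t]`: `ZU H n k x = true` (persistence), alt1.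
`arrow` (`y → x` at time `u ∈ (tm j, tm (j+1)]`, `j ≤ k`, no recovery of `x` in `(u, t]`), level
`n+1`: then `ZU H n j y = true`: clear for `n = 0`; for `n ≥ 1` use the claim for `(n, y, u)`: alt1 is
what we want, alt2 gives two consecutive arrows `z → y → x` in slot `j`, excluded.  So if `j = k`: alt2;
if `j < k`: `ZU H (n+1) (j+1) x = true`, no recovery in the slots `j+1..k-1` (they are contained in
`(u, t]`): `ZU H (n+1) k x = true`: alt1.
(`Coll2 H n K y` implies `Coll2 H (n+1) K x` for neighbours.)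
At `t = tm (k+1)`, both alternatives give `ZU H n (k+1) x = true`.
-/

namespace H50CP

open MeasureTheory ProbabilityTheory Set
open scoped NNReal ENNReal

private lemma E1_ZU_zero (H : (ℤ ⊕ (ℤ × ℤ)) → ℕ → Bool) (k : ℕ) (x : ℤ) : ZU H 0 k x = true := by
  simp [ZU]

private lemma E1_ZU_start (H : (ℤ ⊕ (ℤ × ℤ)) → ℕ → Bool) (n : ℕ) (x : ℤ) : ZU H n 0 x = true := by
  cases n <;> simp [ZU]

private lemma E1_ZU_stay (H : (ℤ ⊕ (ℤ × ℤ)) → ℕ → Bool) (n k : ℕ) (x : ℤ)
    (h : ZU H n k x = true) (hr : H (Sum.inl x) k = false) : ZU H n (k + 1) x = true := by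
  cases n with
  | zero => simp [ZU]
  | succ n => simp [ZU, h, hr]

private lemma E1_ZU_arrow (H : (ℤ ⊕ (ℤ × ℤ)) → ℕ → Bool) (n k : ℕ) (x y : ℤ)
    (hyx : zgraph.Adj y x) (ha : H (Sum.inr (y, x)) k = true) (h : ZU H n k y = true) :
    ZU H (n + 1) (k + 1) x = true := by
  have hy : y = x - 1 ∨ y = x + 1 := by
    rcases hyx with h1 | h1
    · left; omega
    · right; exact h1
  rcases hy with rfl | rfl
  · simp [ZU, ha, h]
  · simp [ZU, ha, h]

private lemma E1_ZU_persist (H : (ℤ ⊕ (ℤ × ℤ)) → ℕ → Bool) (n j : ℕ) (x : ℤ)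
    (h : ZU H n j x = true) : ∀ k : ℕ, j ≤ k → (∀ i, j ≤ i → i < k → H (Sum.inl x) i = false) →
    ZU H n k x = true := by
  intro k hjk
  induction k, hjk using Nat.le_induction with
  | base => intro _; exact h
  | succ k hk ih =>
    intro hr
    exact E1_ZU_stay H n k x (ih fun i h1 h2 => hr i h1 (by omega)) (hr k hk (by omega))

private lemma E1_tm_mono (N T : ℕ) {i j : ℕ} (h : i ≤ j) : tm N T i ≤ tm N T j := by
  unfold tm
  have : (i : ℝ) / N ≤ (j : ℝ) / N := by
    gcongr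
  linarith

private lemma E1_tm_lt (N T : ℕ) (hN : 0 < N) (k : ℕ) : tm N T k < tm N T (k + 1) := by
  unfold tm
  have hN' : (0 : ℝ) < N := by exact_mod_cast hN
  have : (k : ℝ) / N < ((k + 1 : ℕ) : ℝ) / N := by
    gcongr
    exact_mod_cast Nat.lt_succ_self k
  linarith

private lemma E1_slot (N T : ℕ) (u : ℝ) (k : ℕ) (h0 : tm N T 0 < u)
    (hk : u ≤ tm N T (k + 1)) : ∃ j, j ≤ k ∧ tm N T j < u ∧ u ≤ tm N T (j + 1) := by
  induction k with
  | zero => exact ⟨0, le_refl _, h0, hk⟩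
  | succ k ih =>
    by_cases h : u ≤ tm N T (k + 1)
    · obtain ⟨j, hj, h1, h2⟩ := ih h
      exact ⟨j, by omega, h1, h2⟩
    · exact ⟨k + 1, le_refl _, not_le.mp h, hk⟩

private lemma E1_hit_false {N T : ℕ} {ω : CΩ ℤ} {x : ℤ} {a b : ℝ} {i : ℕ}
    (h : ∀ v ∈ marks (ω (Sum.inl x)), ¬ (a < v ∧ v ≤ b)) (h1 : a ≤ tm N T i)
    (h2 : tm N T (i + 1) ≤ b) : hits N T ω (Sum.inl x) i = false := by
  unfold hits hit
  rw [decide_eq_false_iff_not]
  rintro ⟨v, hv, hv1, hv2⟩
  exact h v hv ⟨lt_of_le_of_lt h1 hv1, le_trans hv2 h2⟩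

private lemma E1_claim (ω : CΩ ℤ) (N T K : ℕ) (hN : 0 < N) (x : ℤ) (t : ℝ)
    (h : Reach zgraph ω (tm N T 0) x t) : ∀ n k : ℕ, tm N T k < t → t ≤ tm N T (k + 1) → k < K →
    ¬ Coll2 (hits N T ω) n K x → n = 0 ∨
      (ZU (hits N T ω) n k x = true ∧
        ∀ v ∈ marks (ω (Sum.inl x)), ¬ (tm N T k < v ∧ v ≤ t)) ∨
      (∃ y, zgraph.Adj y x ∧ hits N T ω (Sum.inr (y, x)) k = true ∧
        ZU (hits N T ω) (n - 1) k y = true) := by
  induction h with
  | start x t hst h =>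
    intro n k h1 h2 hk hc
    right; left
    refine ⟨E1_ZU_persist _ n 0 x (E1_ZU_start _ n x) k (Nat.zero_le k) fun i _ hi => ?_, ?_⟩
    · exact E1_hit_false h (E1_tm_mono N T (Nat.zero_le i))
        (le_trans (E1_tm_mono N T (by omega : i + 1 ≤ k)) h1.le)
    · intro v hv hv'
      exact h v hv ⟨lt_of_le_of_lt (E1_tm_mono N T (Nat.zero_le k)) hv'.1, hv'.2⟩
  | arrow x y u t hyx hsu hut hu hy h ih =>
    intro n k h1 h2 hk hc
    rcases Nat.eq_zero_or_pos n with hn | hn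
    · left; exact hn
    right
    obtain ⟨m, rfl⟩ : ∃ m, n = m + 1 := ⟨n - 1, by omega⟩
    obtain ⟨j, hjk, hj1, hj2⟩ := E1_slot N T u k hsu (le_trans hut h2)
    have hHj : hits N T ω (Sum.inr (y, x)) j = true := by
      unfold hits hit
      simp only [decide_eq_true_eq]
      exact ⟨u, hu, hj1, hj2⟩
    have hcy : ¬ Coll2 (hits N T ω) m K y := by
      rintro ⟨a, a', z, i, h3, h4, h5, h6, h7, h8⟩
      refine hc ⟨a, a', z, i, ?_, h4, h5, h6, h7, h8⟩
      have hxy : |y - x| ≤ 1 := by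
        rcases hyx with h9 | h9
        · rw [h9, show y - (y + 1) = (-1 : ℤ) by ring]; simp
        · rw [h9, show x + 1 - x = (1 : ℤ) by ring]; simp
      calc |a - x| = |(a - y) + (y - x)| := by ring_nf
        _ ≤ |a - y| + |y - x| := abs_add_le _ _
        _ ≤ (m : ℤ) + 1 := add_le_add h3 hxy
        _ = ((m + 1 : ℕ) : ℤ) := by push_cast; ring
    have hZ : ZU (hits N T ω) m j y = true := by
      rcases ih m j hj1 hj2 (by omega) hcy with h3 | h3 | ⟨z, h4, h5, h6⟩
      · rw [h3]; exact E1_ZU_zero _ _ _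
      · exact h3.1
      · exfalso
        refine hc ⟨x, y, z, j, ?_, by omega, hyx, h4, hHj, h5⟩
        rw [sub_self, abs_zero]
        positivity
    rcases Nat.eq_or_lt_of_le hjk with hjk' | hjk'
    · right
      subst hjk'
      exact ⟨y, hyx, hHj, by simpa using hZ⟩
    · left
      refine ⟨E1_ZU_persist _ (m + 1) (j + 1) x (E1_ZU_arrow _ m j x y hyx hHj hZ) k hjk'
        fun i hi1 hi2 => ?_, ?_⟩
      · exact E1_hit_false h (le_trans hj2 (E1_tm_mono N T hi1))
          (le_trans (E1_tm_mono N T (by omega : i + 1 ≤ k)) h1.le)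
      · intro v hv hv'
        exact h v hv ⟨lt_of_le_of_lt (le_trans hj2 (E1_tm_mono N T hjk')) hv'.1, hv'.2⟩

theorem upper_det (ω : CΩ ℤ) (N T n K : ℕ) (hN : 0 < N) (x : ℤ)
    (hc : ¬ Coll2 (hits N T ω) n K x) (k : ℕ) (hk : k ≤ K)
    (h : Reach zgraph ω (tm N T 0) x (tm N T k)) : ZU (hits N T ω) n k x = true := by
  cases k with
  | zero => exact E1_ZU_start _ n x
  | succ k =>
    rcases E1_claim ω N T K hN x _ h n k (E1_tm_lt N T hN k) (le_refl _) (by omega) hc with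
      h1 | ⟨h1, h2⟩ | ⟨y, h1, h2, h3⟩
    · rw [h1]; exact E1_ZU_zero _ _ _
    · exact E1_ZU_stay _ n k x h1 (E1_hit_false h2 (le_refl _) (le_refl _))
    · cases n with
      | zero => exact E1_ZU_zero _ _ _
      | succ n => exact E1_ZU_arrow _ n k x y h1 h2 (by simpa using h3)

end H50CP
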