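import Pool.Agent.H50.CP.D5

/-!
# E2: discrete contact process on `ℤ`: measurability and bad events

`prob_ZU`: `E n k x = {ZU H n k x = true, Zu H k x = false}`; `E n 0 x = ∅` for `n ≥ 1`,
`E (n+1) (k+1) x ⊆ E (n+1) k x ∪ ⋃_{y = x ± 1} {H (inr (y,x)) k = true} ∩ E n k y`; the variable
`H (inr (y,x)) k` is independent of `E n k y` (see the private lemmas of D5).
`(2ak)^(n+1)/(n+1)! + 2a (2ak)^n/n! ≤ (2a(k+1))^(n+1)/(n+1)!`.

`prob_coll2`: union bound over `y` (`2n+1` values), `y' = y ± 1`, `z = y' ± 1`, `k < K`; the two slot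
variables are different coordinates (`(z,y') ≠ (y',y)`), probability `a²`.
-/

namespace H50CP

open MeasureTheory ProbabilityTheory Set
open scoped NNReal ENNReal

/-! ### auxiliary statements -/

theorem E2_meas_Zu (k : ℕ) (x : ℤ) : MeasurableSet[D5_F (ℤ ⊕ (ℤ × ℤ)) k]
    {H : (ℤ ⊕ (ℤ × ℤ)) → ℕ → Bool | Zu H k x = true} := by
  induction k generalizing x with
  | zero =>
    have : {H : (ℤ ⊕ (ℤ × ℤ)) → ℕ → Bool | Zu H 0 x = true} = univ := by
      ext H; simp [Zu]
    rw [this]; exact @MeasurableSet.univ _ _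
  | succ k ih =>
    have : {H : (ℤ ⊕ (ℤ × ℤ)) → ℕ → Bool | Zu H (k + 1) x = true} =
        ({H | Zu H k x = true} ∩ {H | H (Sum.inl x) k = true}ᶜ) ∪
          (({H | H (Sum.inr (x - 1, x)) k = true} ∩ {H | Zu H k (x - 1) = true}) ∪
            ({H | H (Sum.inr (x + 1, x)) k = true} ∩ {H | Zu H k (x + 1) = true})) := by
      ext H
      simp [Zu]
    rw [this]
    have hm := fun y => D5_F_mono (ι := ℤ ⊕ (ℤ × ℤ)) (Nat.le_succ k) _ (ih y)
    have hc := fun c => D5_F_coord (ι := ℤ ⊕ (ℤ × ℤ)) c (Nat.lt_succ_self k)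
    exact @MeasurableSet.union _ (_) _ _ (@MeasurableSet.inter _ (_) _ _ (hm x)
      (@MeasurableSet.compl _ _ (_) (hc _))) (@MeasurableSet.union _ (_) _ _
      (@MeasurableSet.inter _ (_) _ _ (hc _) (hm _)) (@MeasurableSet.inter _ (_) _ _ (hc _) (hm _)))

theorem E2_meas_ZU (k n : ℕ) (x : ℤ) : MeasurableSet[D5_F (ℤ ⊕ (ℤ × ℤ)) k]
    {H : (ℤ ⊕ (ℤ × ℤ)) → ℕ → Bool | ZU H n k x = true} := by
  induction k generalizing n x with
  | zero =>
    have : {H : (ℤ ⊕ (ℤ × ℤ)) → ℕ → Bool | ZU H n 0 x = true} = univ := by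
      ext H; cases n <;> simp [ZU]
    rw [this]; exact @MeasurableSet.univ _ _
  | succ k ih =>
    cases n with
    | zero =>
      have : {H : (ℤ ⊕ (ℤ × ℤ)) → ℕ → Bool | ZU H 0 (k + 1) x = true} = univ := by
        ext H; simp [ZU]
      rw [this]; exact @MeasurableSet.univ _ _
    | succ n =>
      have : {H : (ℤ ⊕ (ℤ × ℤ)) → ℕ → Bool | ZU H (n + 1) (k + 1) x = true} =
          ({H | ZU H (n + 1) k x = true} ∩ {H | H (Sum.inl x) k = true}ᶜ) ∪
            (({H | H (Sum.inr (x - 1, x)) k = true} ∩ {H | ZU H n k (x - 1) = true}) ∪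
              ({H | H (Sum.inr (x + 1, x)) k = true} ∩ {H | ZU H n k (x + 1) = true})) := by
        ext H
        simp [ZU]
      rw [this]
      have hm := fun n y => D5_F_mono (ι := ℤ ⊕ (ℤ × ℤ)) (Nat.le_succ k) _ (ih n y)
      have hc := fun c => D5_F_coord (ι := ℤ ⊕ (ℤ × ℤ)) c (Nat.lt_succ_self k)
      exact @MeasurableSet.union _ (_) _ _ (@MeasurableSet.inter _ (_) _ _ (hm _ x)
        (@MeasurableSet.compl _ _ (_) (hc _))) (@MeasurableSet.union _ (_) _ _
        (@MeasurableSet.inter _ (_) _ _ (hc _) (hm _ _))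
        (@MeasurableSet.inter _ (_) _ _ (hc _) (hm _ _)))

theorem E2_meas_E (k n : ℕ) (x : ℤ) : MeasurableSet[D5_F (ℤ ⊕ (ℤ × ℤ)) k]
    {H : (ℤ ⊕ (ℤ × ℤ)) → ℕ → Bool | ZU H n k x = true ∧ Zu H k x = false} := by
  have : {H : (ℤ ⊕ (ℤ × ℤ)) → ℕ → Bool | ZU H n k x = true ∧ Zu H k x = false} =
      {H | ZU H n k x = true} ∩ {H | Zu H k x = true}ᶜ := by
    ext H
    simp
  rw [this]
  exact @MeasurableSet.inter _ (_) _ _ (E2_meas_ZU k n x)
    (@MeasurableSet.compl _ _ (_) (E2_meas_Zu k x))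

theorem measurable_Zu (k : ℕ) (x : ℤ) :
    Measurable (fun H : (ℤ ⊕ (ℤ × ℤ)) → ℕ → Bool => Zu H k x) :=
  measurable_to_bool (D5_F_le k _ (E2_meas_Zu k x))

theorem measurable_ZU (n k : ℕ) (x : ℤ) :
    Measurable (fun H : (ℤ ⊕ (ℤ × ℤ)) → ℕ → Bool => ZU H n k x) :=
  measurable_to_bool (D5_F_le k _ (E2_meas_ZU k n x))

theorem measurableSet_Coll2 (n K : ℕ) (x : ℤ) :
    MeasurableSet {H : (ℤ ⊕ (ℤ × ℤ)) → ℕ → Bool | Coll2 H n K x} := by
  have : {H : (ℤ ⊕ (ℤ × ℤ)) → ℕ → Bool | Coll2 H n K x} =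
      ⋃ y : ℤ, ⋃ y' : ℤ, ⋃ z : ℤ, ⋃ k : ℕ,
        ({_H | |y - x| ≤ n ∧ k < K ∧ zgraph.Adj y' y ∧ zgraph.Adj z y'} ∩
          ({H | H (Sum.inr (y', y)) k = true} ∩ {H | H (Sum.inr (z, y')) k = true})) := by
    ext H
    simp only [Coll2, mem_ofPred_eq, mem_iUnion, mem_inter_iff]
    constructor
    · rintro ⟨y, y', z, k, h1, h2, h3, h4, h5, h6⟩
      exact ⟨y, y', z, k, ⟨h1, h2, h3, h4⟩, h5, h6⟩
    · rintro ⟨y, y', z, k, ⟨h1, h2, h3, h4⟩, h5, h6⟩
      exact ⟨y, y', z, k, h1, h2, h3, h4, h5, h6⟩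
  rw [this]
  refine MeasurableSet.iUnion fun y => MeasurableSet.iUnion fun y' => MeasurableSet.iUnion fun z =>
    MeasurableSet.iUnion fun k => ?_
  exact (MeasurableSet.const _).inter ((D5_meas_coord _ _).inter (D5_meas_coord _ _))

theorem prob_ZU {q a : ℝ} (hq0 : 0 ≤ q) (hq1 : q ≤ 1) (ha0 : 0 ≤ a) (ha1 : a ≤ 1)
    (n k : ℕ) (x : ℤ) :
    (berLaw (pc q a)) {H : (ℤ ⊕ (ℤ × ℤ)) → ℕ → Bool | ZU H n k x = true ∧ Zu H k x = false} ≤
      ENNReal.ofReal ((2 * a * k) ^ n / n.factorial) := by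
  have hpos : ∀ k : ℕ, (0:ℝ) ≤ 2 * a * k := fun k => by positivity
  induction k generalizing n x with
  | zero =>
    have : {H : (ℤ ⊕ (ℤ × ℤ)) → ℕ → Bool | ZU H n 0 x = true ∧ Zu H 0 x = false} = ∅ := by
      ext H
      simp [Zu]
    rw [this, measure_empty]
    exact zero_le
  | succ k ih =>
    cases n with
    | zero =>
      refine prob_le_one.trans ?_
      simp
    | succ n =>
      have hsub : {H : (ℤ ⊕ (ℤ × ℤ)) → ℕ → Bool |
          ZU H (n + 1) (k + 1) x = true ∧ Zu H (k + 1) x = false} ⊆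
          {H | ZU H (n + 1) k x = true ∧ Zu H k x = false} ∪
            (({H | H (Sum.inr (x - 1, x)) k = true} ∩
              {H | ZU H n k (x - 1) = true ∧ Zu H k (x - 1) = false}) ∪
            ({H | H (Sum.inr (x + 1, x)) k = true} ∩
              {H | ZU H n k (x + 1) = true ∧ Zu H k (x + 1) = false})) := by
        rintro H ⟨h1, h2⟩
        simp only [ZU, Bool.or_eq_true, Bool.and_eq_true] at h1
        simp only [Zu, Bool.or_eq_false_iff] at h2
        obtain ⟨h2, h3, h4⟩ := h2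
        rcases h1 with h1 | h1 | h1
        · left
          refine ⟨h1.1, ?_⟩
          rw [h1.2, Bool.and_true] at h2
          exact h2
        · right; left
          refine ⟨h1.1, h1.2, ?_⟩
          rw [h1.1, Bool.true_and] at h3
          exact h3
        · right; right
          refine ⟨h1.1, h1.2, ?_⟩
          rw [h1.1, Bool.true_and] at h4
          exact h4
      refine (measure_mono hsub).trans ((measure_union_le _ _).trans ?_)
      have h1 := ih (n + 1) x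
      have h3 : ∀ y : ℤ, (berLaw (pc q a))
          ({H : (ℤ ⊕ (ℤ × ℤ)) → ℕ → Bool | H (Sum.inr (y, x)) k = true} ∩
            {H | ZU H n k y = true ∧ Zu H k y = false}) ≤
          ENNReal.ofReal (a * ((2 * a * k) ^ n / n.factorial)) := by
        intro y
        have h4 := D5_indep (pc q a) (Sum.inr (y, x)) k
          {H : (ℤ ⊕ (ℤ × ℤ)) → ℕ → Bool | ZU H n k y = true ∧ Zu H k y = false} ha0 ha1
          (E2_meas_E k n y)
        rw [h4, ENNReal.ofReal_mul ha0]
        exact mul_le_mul' le_rfl (ih n y)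
      have e3 : (0:ℝ) ≤ a * ((2 * a * k) ^ n / n.factorial) := by
        have := hpos k; positivity
      refine (add_le_add h1 ((measure_union_le _ _).trans (add_le_add (h3 _) (h3 _)))).trans ?_
      have e1 : (0:ℝ) ≤ (2 * a * k) ^ (n + 1) / (n + 1).factorial := by
        have := hpos k; positivity
      rw [← ENNReal.ofReal_add e3 e3, ← ENNReal.ofReal_add e1 (add_nonneg e3 e3)]
      apply ENNReal.ofReal_le_ofReal
      have hfac : (0:ℝ) < ((n + 1).factorial : ℝ) := by positivity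
      have hfac' : ((n + 1).factorial : ℝ) = ((n : ℝ) + 1) * (n.factorial : ℝ) := by
        rw [Nat.factorial_succ]; push_cast; ring
      have hfn : (0:ℝ) < (n.factorial : ℝ) := by positivity
      have key := D5_pow (2 * a * k) (2 * a) (hpos k) (by positivity) n
      have h4 : (2 * a * k) ^ (n + 1) / ((n + 1).factorial : ℝ) +
          (a * ((2 * a * k) ^ n / (n.factorial : ℝ)) + a * ((2 * a * k) ^ n / (n.factorial : ℝ))) =
          ((2 * a * k) ^ (n + 1) + ((n : ℝ) + 1) * (2 * a) * (2 * a * k) ^ n) /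
            ((n + 1).factorial : ℝ) := by
        rw [hfac']
        field_simp
        ring
      rw [h4, div_le_div_iff_of_pos_right hfac]
      refine key.trans (le_of_eq ?_)
      push_cast
      ring

/-- the arrows of a collision -/
private def E2_sg (b : Bool) : ℤ := if b then 1 else -1

private theorem E2_sg_ne (b : Bool) : E2_sg b ≠ 0 := by
  cases b <;> simp [E2_sg]

private theorem E2_adj {y y' : ℤ} (h : zgraph.Adj y' y) : ∃ b, y' = y + E2_sg b := by
  rcases h with h | h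
  · exact ⟨false, by simp [E2_sg]; omega⟩
  · exact ⟨true, by simp [E2_sg]; omega⟩

theorem prob_coll2 {q a : ℝ} (hq0 : 0 ≤ q) (hq1 : q ≤ 1) (ha0 : 0 ≤ a)
    (ha1 : a ≤ 1) (n K : ℕ) (x : ℤ) :
    (berLaw (pc q a)) {H : (ℤ ⊕ (ℤ × ℤ)) → ℕ → Bool | Coll2 H n K x} ≤
      ENNReal.ofReal ((2 * n + 1) * (4 * K * a ^ 2)) := by
  have hsub : {H : (ℤ ⊕ (ℤ × ℤ)) → ℕ → Bool | Coll2 H n K x} ⊆
      ⋃ j : Fin (2 * n + 1), ⋃ b : Bool, ⋃ c : Bool, ⋃ k : Fin K,
        ({H | H (Sum.inr ((x - n + (j : ℕ)) + E2_sg b, x - n + (j : ℕ))) k = true} ∩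
          {H | H (Sum.inr (((x - n + (j : ℕ)) + E2_sg b) + E2_sg c,
            (x - n + (j : ℕ)) + E2_sg b)) k = true}) := by
    rintro H ⟨y, y', z, k, hy, hk, hy', hz, h1, h2⟩
    obtain ⟨b, rfl⟩ := E2_adj hy'
    obtain ⟨c, rfl⟩ := E2_adj hz
    rw [abs_le] at hy
    have hj : x - n + (((y - (x - n)).toNat : ℕ) : ℤ) = y := by
      rw [Int.toNat_of_nonneg (by omega)]
      ring
    refine mem_iUnion.2 ⟨⟨(y - (x - n)).toNat, by omega⟩, mem_iUnion.2 ⟨b, mem_iUnion.2 ⟨c,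
      mem_iUnion.2 ⟨⟨k, hk⟩, ?_⟩⟩⟩⟩
    simp only
    rw [hj]
    exact ⟨h1, h2⟩
  refine (measure_mono hsub).trans ?_
  have hE : ∀ (y : ℤ) (b c : Bool) (k : ℕ), (berLaw (pc q a))
      ({H | H (Sum.inr (y + E2_sg b, y)) k = true} ∩
          {H | H (Sum.inr ((y + E2_sg b) + E2_sg c, y + E2_sg b)) k = true}) ≤
      ENNReal.ofReal (a ^ 2) := by
    intro y b c k
    have e1 := D5_pair (pc q a) (Sum.inr (y + E2_sg b, y))
      (Sum.inr ((y + E2_sg b) + E2_sg c, y + E2_sg b)) k (by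
        intro h
        simp only [Sum.inr.injEq, Prod.mk.injEq] at h
        have := E2_sg_ne b
        omega) ha0 ha1 ha0 ha1
    have e3 : ∀ c, ENNReal.ofReal (pc q a (Sum.inr c : ℤ ⊕ (ℤ × ℤ))) = ENNReal.ofReal a :=
      fun _ => rfl
    rw [e1, e3, e3, ← ENNReal.ofReal_mul ha0]
    exact ENNReal.ofReal_le_ofReal (le_of_eq (by ring))
  refine (measure_iUnion_fintype_le _ _).trans ?_
  calc (∑ j : Fin (2 * n + 1), (berLaw (pc q a)) (⋃ b : Bool, ⋃ c : Bool, ⋃ k : Fin K,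
        ({H | H (Sum.inr ((x - n + (j : ℕ)) + E2_sg b, x - n + (j : ℕ))) k = true} ∩
          {H | H (Sum.inr (((x - n + (j : ℕ)) + E2_sg b) + E2_sg c,
            (x - n + (j : ℕ)) + E2_sg b)) k = true})))
      ≤ ∑ j : Fin (2 * n + 1), ∑ b : Bool, ∑ c : Bool, ∑ k : Fin K,
          ENNReal.ofReal (a ^ 2) := by
        refine Finset.sum_le_sum fun j _ => ?_
        refine (measure_iUnion_fintype_le _ _).trans (Finset.sum_le_sum fun b _ => ?_)
        refine (measure_iUnion_fintype_le _ _).trans (Finset.sum_le_sum fun c _ => ?_)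
        refine (measure_iUnion_fintype_le _ _).trans (Finset.sum_le_sum fun k _ => ?_)
        exact hE _ _ _ _
    _ = ENNReal.ofReal ((2 * n + 1) * (4 * K * a ^ 2)) := by
        rw [Finset.sum_const, Finset.sum_const, Finset.sum_const, Finset.sum_const,
          Finset.card_univ, Finset.card_univ, Finset.card_univ, Fintype.card_fin,
          Fintype.card_fin, Fintype.card_bool, nsmul_eq_mul, nsmul_eq_mul,
          nsmul_eq_mul, nsmul_eq_mul, ← ENNReal.ofReal_natCast K,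
          ← ENNReal.ofReal_natCast (2 * n + 1), ← ENNReal.ofReal_natCast 2,
          ← ENNReal.ofReal_mul (by positivity), ← ENNReal.ofReal_mul (by positivity),
          ← ENNReal.ofReal_mul (by positivity), ← ENNReal.ofReal_mul (by positivity)]
        congr 1
        push_cast
        ring

end H50CP
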