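import Pool.Agent.H50.CP.E2

/-!
# E3: discrete contact process on `ℤ`: recursive inequalities

`zx k = P(Zu k 0)`, `zu k = P(Zu k 0, not Zu k 1)`.

1. Translation invariance: the law `berLaw (pc q a)` is invariant under the shift of the indices by
   `s : ℤ` (`Measure.map_infinitePi_infinitePi_of_inj` / `infinitePi_reindex`), and
   `Zu (shifted H) k x = Zu H k (x + s)`.  So `P(Zu k x) = zx k`, `P(Zu k x, not Zu k (x+1)) = zu k`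
   and `P(not Zu k x, Zu k (x+1)) = P(Zu k (x+1)) - P(Zu k x, Zu k (x+1)) = zu k`.
2. Independence: events depending on slots `< k` are independent of the variables of slot `k`.
3. `zx (k+1) ≤ (1-q) zx k + 2a (zu k + q zx k)`:
   `Zu (k+1) 0` implies (`Zu k 0` and no recovery) or, for some neighbour `y`, (`Zu k y`, arrow
   `y → 0`, and (not `Zu k 0`, or (recovery of 0))).
4. `zu (k+1) ≤ q zx k + (1-q)² zu k + 4 a q zu k + 2 a q zx k`.  Cases of `(Zu k 0, Zu k 1)`: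
   (1,1) [prob. `zx - zu`]: recovery of 1, and no recovery of 0 or (recovery of 0 and an arrow to 0):
         `≤ q ((1-q) + 2aq) (zx - zu)`;
   (1,0) [prob. `zu`]: no arrow `0 → 1`, and no recovery of 0 or (recovery of 0 and arrow `-1 → 0`):
         `≤ (1-a) ((1-q) + a q) zu`;
   (0,1) [prob. `zu`]: recovery of 1 and an arrow `±1 → 0`: `≤ 2 a q zu`;
   (0,0): `Zu k (-1)`, arrow `-1 → 0`: `≤ a P(Zu k (-1), not Zu k 0) = a zu`.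
   Sum `≤ q (1-q) (zx - zu) + 2 a q² zx + (1-a)(1-q) zu + a q zu + 2 a q zu + a zu`
   `≤ q zx + 2 a q zx + ((1-q)² + 4 a q) zu`.
-/

namespace H50CP

open MeasureTheory ProbabilityTheory Set
open scoped NNReal ENNReal

/-! ### independence of one slot variable from everything else -/

/-- the σ-algebra of all slot variables except `(c, k)` -/
@[instance_reducible] def E3_G (ι : Type) (c : ι) (k : ℕ) : MeasurableSpace (ι → ℕ → Bool) :=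
  ⨆ c' ∈ {c' : ι × ℕ | c' ≠ (c, k)},
    (inferInstance : MeasurableSpace Bool).comap (fun H : ι → ℕ → Bool => H c'.1 c'.2)

theorem E3_G_F {ι : Type} (c : ι) (k : ℕ) : D5_F ι k ≤ E3_G ι c k := by
  refine iSup₂_le fun c' hc' => ?_
  refine le_iSup₂_of_le c' ?_ le_rfl
  rintro rfl
  exact lt_irrefl k hc'

theorem E3_G_coord {ι : Type} {c c' : ι} {k : ℕ} (h : c' ≠ c) (b : Bool) :
    MeasurableSet[E3_G ι c k] {H : ι → ℕ → Bool | H c' k = b} := by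
  have h1 : (inferInstance : MeasurableSpace Bool).comap (fun H : ι → ℕ → Bool => H c' k) ≤
      E3_G ι c k := le_iSup₂_of_le (c', k) (by
        intro he
        exact h (Prod.ext_iff.1 he).1) le_rfl
  exact h1 _ ⟨{b}, measurableSet_singleton _, rfl⟩

theorem E3_ind1 {ι : Type} (p : ι → ℝ) (c : ι) (k : ℕ) (S : Set (ι → ℕ → Bool))
    (h0 : 0 ≤ p c) (h1 : p c ≤ 1) (hS : MeasurableSet[E3_G ι c k] S) :
    (berLaw p).real ({H : ι → ℕ → Bool | H c k = true} ∩ S) = p c * (berLaw p).real S := by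
  have h := indep_iSup_of_disjoint (S := {((c, k) : ι × ℕ)}) (T := {c' : ι × ℕ | c' ≠ (c, k)})
    (fun c => D5_comap_le c) (D5_iIndep p).iIndep (by
      rw [Set.disjoint_singleton_left]
      simp)
  rw [Indep_iff] at h
  unfold Measure.real
  rw [h _ _ ?_ hS, D5_coord p c k h0 h1, ENNReal.toReal_mul, ENNReal.toReal_ofReal h0]
  rw [iSup_singleton]
  exact ⟨{true}, measurableSet_singleton _, rfl⟩

theorem E3_ind0 {ι : Type} (p : ι → ℝ) (c : ι) (k : ℕ) (S : Set (ι → ℕ → Bool))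
    (h0 : 0 ≤ p c) (h1 : p c ≤ 1) (hS : MeasurableSet[E3_G ι c k] S) :
    (berLaw p).real ({H : ι → ℕ → Bool | H c k = false} ∩ S) = (1 - p c) * (berLaw p).real S := by
  have h2 := E3_ind1 p c k S h0 h1 hS
  have h3 := measureReal_inter_add_sdiff (μ := berLaw p) (s := S)
    (t := {H : ι → ℕ → Bool | H c k = true}) (D5_meas_coord c k)
  have h4 : {H : ι → ℕ → Bool | H c k = false} ∩ S = S \ {H : ι → ℕ → Bool | H c k = true} := by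
    ext H
    simp [and_comm]
  rw [inter_comm] at h2
  rw [h4]
  linarith

/-! ### measurability and translation invariance -/

theorem E3_meas_Z (k : ℕ) (x : ℤ) : MeasurableSet[D5_F (ℤ ⊕ (ℤ × ℤ)) k]
    {H : (ℤ ⊕ (ℤ × ℤ)) → ℕ → Bool | Zu H k x = true} := by
  induction k generalizing x with
  | zero =>
    have : {H : (ℤ ⊕ (ℤ × ℤ)) → ℕ → Bool | Zu H 0 x = true} = univ := by
      ext H; simp [Zu]
    rw [this]; exact @MeasurableSet.univ _ _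
  | succ k ih =>
    have : {H : (ℤ ⊕ (ℤ × ℤ)) → ℕ → Bool | Zu H (k + 1) x = true} =
        ({H | Zu H k x = true} ∩ {H | H (Sum.inl x) k = true}ᶜ) ∪
          (({H | H (Sum.inr (x - 1, x)) k = true} ∩ {H | Zu H k (x - 1) = true}) ∪
            ({H | H (Sum.inr (x + 1, x)) k = true} ∩ {H | Zu H k (x + 1) = true})) := by
      ext H
      simp [Zu]
    rw [this]
    have hm := fun y => D5_F_mono (ι := ℤ ⊕ (ℤ × ℤ)) (Nat.le_succ k) _ (ih y)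
    refine @MeasurableSet.union _ (_) _ _ (@MeasurableSet.inter _ (_) _ _ (hm x)
      (@MeasurableSet.compl _ _ (_) (D5_F_coord _ (Nat.lt_succ_self k)))) ?_
    exact @MeasurableSet.union _ (_) _ _
      (@MeasurableSet.inter _ (_) _ _ (D5_F_coord _ (Nat.lt_succ_self k)) (hm _))
      (@MeasurableSet.inter _ (_) _ _ (D5_F_coord _ (Nat.lt_succ_self k)) (hm _))

/-- infected at `x` -/
def E3_Z (k : ℕ) (x : ℤ) : Set ((ℤ ⊕ (ℤ × ℤ)) → ℕ → Bool) := {H | Zu H k x = true}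

theorem E3_mZ (k : ℕ) (x : ℤ) : MeasurableSet (E3_Z k x) := D5_F_le k _ (E3_meas_Z k x)

theorem E3_FZ (k : ℕ) (x : ℤ) : MeasurableSet[D5_F (ℤ ⊕ (ℤ × ℤ)) k] (E3_Z k x) := E3_meas_Z k x

/-- shift of the indices -/
def E3_f (s : ℤ) : (ℤ ⊕ (ℤ × ℤ)) → (ℤ ⊕ (ℤ × ℤ)) :=
  Sum.map (· + s) (Prod.map (· + s) (· + s))

theorem E3_f_inj (s : ℤ) : Function.Injective (E3_f s) := by
  have h : Function.Injective (fun x : ℤ => x + s) := fun a b h => by simpa using h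
  exact Function.Injective.sumMap h (h.prodMap h)

theorem E3_sh (q a : ℝ) (s : ℤ) :
    (berLaw (pc q a)).map (fun (H : (ℤ ⊕ (ℤ × ℤ)) → ℕ → Bool) i => H (E3_f s i)) =
      berLaw (pc q a) := by
  unfold berLaw
  rw [Measure.map_infinitePi_infinitePi_of_inj (E3_f_inj s)]
  congr 1
  funext i
  rcases i with x | ⟨x, y⟩ <;> rfl

theorem E3_Zu_sh (H : (ℤ ⊕ (ℤ × ℤ)) → ℕ → Bool) (s : ℤ) (k : ℕ) (x : ℤ) :
    Zu (fun i => H (E3_f s i)) k x = Zu H k (x + s) := by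
  induction k generalizing x with
  | zero => rfl
  | succ k ih =>
    simp only [Zu, ih]
    simp only [E3_f, Sum.map_inl, Sum.map_inr, Prod.map_apply]
    have h1 : x - 1 + s = x + s - 1 := by ring
    have h2 : x + 1 + s = x + s + 1 := by ring
    rw [h1, h2]

theorem E3_shift (q a : ℝ) (s : ℤ) (k : ℕ) (x y : ℤ) :
    (berLaw (pc q a)).real (E3_Z k (x + s) ∩ (E3_Z k (y + s))ᶜ) =
      (berLaw (pc q a)).real (E3_Z k x ∩ (E3_Z k y)ᶜ) := by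
  have hm : Measurable (fun (H : (ℤ ⊕ (ℤ × ℤ)) → ℕ → Bool) i => H (E3_f s i)) := by fun_prop
  have h : (berLaw (pc q a)).real (E3_Z k x ∩ (E3_Z k y)ᶜ) =
      ((berLaw (pc q a)).map (fun (H : (ℤ ⊕ (ℤ × ℤ)) → ℕ → Bool) i => H (E3_f s i))).real
        (E3_Z k x ∩ (E3_Z k y)ᶜ) := by rw [E3_sh]
  rw [h, map_measureReal_apply hm ((E3_mZ k x).inter (E3_mZ k y).compl)]
  congr 1
  ext H
  simp only [E3_Z, mem_inter_iff, mem_compl_iff, mem_ofPred_eq, mem_preimage, E3_Zu_sh]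

theorem E3_shift1 (q a : ℝ) (s : ℤ) (k : ℕ) (x : ℤ) :
    (berLaw (pc q a)).real (E3_Z k (x + s)) = (berLaw (pc q a)).real (E3_Z k x) := by
  have hm : Measurable (fun (H : (ℤ ⊕ (ℤ × ℤ)) → ℕ → Bool) i => H (E3_f s i)) := by fun_prop
  have h : (berLaw (pc q a)).real (E3_Z k x) =
      ((berLaw (pc q a)).map (fun (H : (ℤ ⊕ (ℤ × ℤ)) → ℕ → Bool) i => H (E3_f s i))).real
        (E3_Z k x) := by rw [E3_sh]
  rw [h, map_measureReal_apply hm (E3_mZ k x)]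
  congr 1
  ext H
  simp only [E3_Z, mem_ofPred_eq, mem_preimage, E3_Zu_sh]

/-- `P(Zu k 0)` -/
noncomputable def zx (q a : ℝ) (k : ℕ) : ℝ :=
  (berLaw (pc q a)).real {H : (ℤ ⊕ (ℤ × ℤ)) → ℕ → Bool | Zu H k 0 = true}

/-- `P(Zu k 0, not Zu k 1)` -/
noncomputable def zu (q a : ℝ) (k : ℕ) : ℝ :=
  (berLaw (pc q a)).real {H : (ℤ ⊕ (ℤ × ℤ)) → ℕ → Bool | Zu H k 0 = true ∧ Zu H k 1 = false}

theorem E3_zx (q a : ℝ) (k : ℕ) : zx q a k = (berLaw (pc q a)).real (E3_Z k 0) := rfl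

theorem E3_zu (q a : ℝ) (k : ℕ) :
    zu q a k = (berLaw (pc q a)).real (E3_Z k 0 ∩ (E3_Z k 1)ᶜ) := by
  unfold zu
  congr 1
  ext H
  simp [E3_Z]

theorem E3_zu' (q a : ℝ) (k : ℕ) :
    (berLaw (pc q a)).real (E3_Z k (-1) ∩ (E3_Z k 0)ᶜ) = zu q a k := by
  rw [E3_zu]
  have := E3_shift q a (-1) k 0 1
  simpa using this

theorem E3_z11 (q a : ℝ) (k : ℕ) :
    (berLaw (pc q a)).real (E3_Z k 0 ∩ E3_Z k 1) = zx q a k - zu q a k := by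
  have h := measureReal_inter_add_sdiff (μ := berLaw (pc q a)) (s := E3_Z k 0)
    (t := E3_Z k 1) (E3_mZ k 1)
  rw [E3_zx, E3_zu, ← h, sdiff_eq]
  ring

theorem E3_z01 (q a : ℝ) (k : ℕ) :
    (berLaw (pc q a)).real ((E3_Z k 0)ᶜ ∩ E3_Z k 1) = zu q a k := by
  have h := measureReal_inter_add_sdiff (μ := berLaw (pc q a)) (s := E3_Z k 1)
    (t := E3_Z k 0) (E3_mZ k 0)
  have h1 := E3_shift1 q a 1 k 0
  rw [zero_add] at h1
  rw [h1, inter_comm, E3_z11, ← E3_zx, sdiff_eq] at h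
  rw [inter_comm]
  linarith

theorem E3_zx_nonneg (q a : ℝ) (k : ℕ) : 0 ≤ zx q a k := measureReal_nonneg

theorem E3_zu_nonneg (q a : ℝ) (k : ℕ) : 0 ≤ zu q a k := measureReal_nonneg

theorem E3_gZ (c : ℤ ⊕ (ℤ × ℤ)) (k : ℕ) (x : ℤ) :
    MeasurableSet[E3_G (ℤ ⊕ (ℤ × ℤ)) c k] (E3_Z k x) := E3_G_F c k _ (E3_FZ k x)

theorem E3_gC (c : ℤ ⊕ (ℤ × ℤ)) (k : ℕ) {S : Set ((ℤ ⊕ (ℤ × ℤ)) → ℕ → Bool)}
    (hS : MeasurableSet[E3_G (ℤ ⊕ (ℤ × ℤ)) c k] S) :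
    MeasurableSet[E3_G (ℤ ⊕ (ℤ × ℤ)) c k] Sᶜ := @MeasurableSet.compl _ _ (_) hS

theorem E3_gI (c : ℤ ⊕ (ℤ × ℤ)) (k : ℕ) {S T : Set ((ℤ ⊕ (ℤ × ℤ)) → ℕ → Bool)}
    (hS : MeasurableSet[E3_G (ℤ ⊕ (ℤ × ℤ)) c k] S) (hT : MeasurableSet[E3_G (ℤ ⊕ (ℤ × ℤ)) c k] T) :
    MeasurableSet[E3_G (ℤ ⊕ (ℤ × ℤ)) c k] (S ∩ T) := @MeasurableSet.inter _ (_) _ _ hS hT

/-- recovery at `x` in the slot `k` is independent -/
theorem E3_rec1 {q a : ℝ} (hq0 : 0 ≤ q) (hq1 : q ≤ 1) (k : ℕ) (x : ℤ)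
    (S : Set ((ℤ ⊕ (ℤ × ℤ)) → ℕ → Bool))
    (hS : MeasurableSet[E3_G (ℤ ⊕ (ℤ × ℤ)) (Sum.inl x) k] S) :
    (berLaw (pc q a)).real ({H : (ℤ ⊕ (ℤ × ℤ)) → ℕ → Bool | H (Sum.inl x) k = true} ∩ S) =
      q * (berLaw (pc q a)).real S :=
  E3_ind1 (pc q a) (Sum.inl x) k S hq0 hq1 hS

theorem E3_rec0 {q a : ℝ} (hq0 : 0 ≤ q) (hq1 : q ≤ 1) (k : ℕ) (x : ℤ)
    (S : Set ((ℤ ⊕ (ℤ × ℤ)) → ℕ → Bool))
    (hS : MeasurableSet[E3_G (ℤ ⊕ (ℤ × ℤ)) (Sum.inl x) k] S) :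
    (berLaw (pc q a)).real ({H : (ℤ ⊕ (ℤ × ℤ)) → ℕ → Bool | H (Sum.inl x) k = false} ∩ S) =
      (1 - q) * (berLaw (pc q a)).real S :=
  E3_ind0 (pc q a) (Sum.inl x) k S hq0 hq1 hS

theorem E3_arr1 {q a : ℝ} (ha0 : 0 ≤ a) (ha1 : a ≤ 1) (k : ℕ) (e : ℤ × ℤ)
    (S : Set ((ℤ ⊕ (ℤ × ℤ)) → ℕ → Bool))
    (hS : MeasurableSet[E3_G (ℤ ⊕ (ℤ × ℤ)) (Sum.inr e) k] S) :
    (berLaw (pc q a)).real ({H : (ℤ ⊕ (ℤ × ℤ)) → ℕ → Bool | H (Sum.inr e) k = true} ∩ S) =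
      a * (berLaw (pc q a)).real S :=
  E3_ind1 (pc q a) (Sum.inr e) k S ha0 ha1 hS

theorem E3_arr0 {q a : ℝ} (ha0 : 0 ≤ a) (ha1 : a ≤ 1) (k : ℕ) (e : ℤ × ℤ)
    (S : Set ((ℤ ⊕ (ℤ × ℤ)) → ℕ → Bool))
    (hS : MeasurableSet[E3_G (ℤ ⊕ (ℤ × ℤ)) (Sum.inr e) k] S) :
    (berLaw (pc q a)).real ({H : (ℤ ⊕ (ℤ × ℤ)) → ℕ → Bool | H (Sum.inr e) k = false} ∩ S) =
      (1 - a) * (berLaw (pc q a)).real S :=
  E3_ind0 (pc q a) (Sum.inr e) k S ha0 ha1 hS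

theorem zx_succ {q a : ℝ} (hq0 : 0 ≤ q) (hq1 : q ≤ 1) (ha0 : 0 ≤ a) (ha1 : a ≤ 1) (k : ℕ) :
    zx q a (k + 1) ≤ (1 - q) * zx q a k + 2 * a * (zu q a k + q * zx q a k) := by
  set T1 : Set ((ℤ ⊕ (ℤ × ℤ)) → ℕ → Bool) := {H | H (Sum.inl 0) k = false} ∩ E3_Z k 0 with hT1
  set T2 : Set ((ℤ ⊕ (ℤ × ℤ)) → ℕ → Bool) :=
    {H | H (Sum.inr (-1, 0)) k = true} ∩ (E3_Z k (-1) ∩ (E3_Z k 0)ᶜ) with hT2
  set T3 : Set ((ℤ ⊕ (ℤ × ℤ)) → ℕ → Bool) :=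
    {H | H (Sum.inr (1, 0)) k = true} ∩ ((E3_Z k 0)ᶜ ∩ E3_Z k 1) with hT3
  set T4 : Set ((ℤ ⊕ (ℤ × ℤ)) → ℕ → Bool) :=
    {H | H (Sum.inr (-1, 0)) k = true} ∩ ({H | H (Sum.inl 0) k = true} ∩ E3_Z k 0) with hT4
  set T5 : Set ((ℤ ⊕ (ℤ × ℤ)) → ℕ → Bool) :=
    {H | H (Sum.inr (1, 0)) k = true} ∩ ({H | H (Sum.inl 0) k = true} ∩ E3_Z k 0) with hT5
  have hsub : E3_Z (k + 1) 0 ⊆ T1 ∪ (T2 ∪ (T3 ∪ (T4 ∪ T5))) := by
    intro H hH
    simp only [E3_Z, mem_ofPred_eq, Zu, zero_sub, zero_add] at hH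
    simp only [hT1, hT2, hT3, hT4, hT5, E3_Z, mem_union, mem_inter_iff, mem_compl_iff,
      mem_ofPred_eq]
    generalize Zu H k 0 = z0 at *
    generalize Zu H k (-1) = zm at *
    generalize Zu H k 1 = z1 at *
    generalize H (Sum.inl 0) k = r0 at *
    generalize H (Sum.inr (-1, 0)) k = am at *
    generalize H (Sum.inr (1, 0)) k = ap at *
    clear_value T1 T2 T3 T4 T5
    revert hH
    cases z0 <;> cases zm <;> cases z1 <;> cases r0 <;> cases am <;> cases ap <;> simp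
  have h1 : (berLaw (pc q a)).real T1 = (1 - q) * zx q a k :=
    E3_rec0 hq0 hq1 k 0 _ (E3_gZ _ _ _)
  have h2 : (berLaw (pc q a)).real T2 = a * zu q a k := by
    rw [hT2, E3_arr1 ha0 ha1 k _ _ (E3_gI _ _ (E3_gZ _ _ _) (E3_gC _ _ (E3_gZ _ _ _))), E3_zu']
  have h3 : (berLaw (pc q a)).real T3 = a * zu q a k := by
    rw [hT3, E3_arr1 ha0 ha1 k _ _ (E3_gI _ _ (E3_gC _ _ (E3_gZ _ _ _)) (E3_gZ _ _ _)), E3_z01]
  have h4 : (berLaw (pc q a)).real T4 = a * (q * zx q a k) := by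
    rw [hT4, E3_arr1 ha0 ha1 k _ _ (E3_gI _ _ (E3_G_coord (by simp) _) (E3_gZ _ _ _)),
      E3_rec1 hq0 hq1 k _ _ (E3_gZ _ _ _), E3_zx]
  have h5 : (berLaw (pc q a)).real T5 = a * (q * zx q a k) := by
    rw [hT5, E3_arr1 ha0 ha1 k _ _ (E3_gI _ _ (E3_G_coord (by simp) _) (E3_gZ _ _ _)),
      E3_rec1 hq0 hq1 k _ _ (E3_gZ _ _ _), E3_zx]
  have hu : (berLaw (pc q a)).real (T1 ∪ (T2 ∪ (T3 ∪ (T4 ∪ T5)))) ≤
      (berLaw (pc q a)).real T1 + ((berLaw (pc q a)).real T2 + ((berLaw (pc q a)).real T3 +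
        ((berLaw (pc q a)).real T4 + (berLaw (pc q a)).real T5))) := by
    refine (measureReal_union_le _ _).trans (add_le_add_right ?_ _)
    refine (measureReal_union_le _ _).trans (add_le_add_right ?_ _)
    refine (measureReal_union_le _ _).trans (add_le_add_right ?_ _)
    exact measureReal_union_le _ _
  have hle := (measureReal_mono (μ := berLaw (pc q a)) hsub).trans hu
  rw [← E3_zx] at hle
  rw [h1, h2, h3, h4, h5] at hle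
  linarith

theorem zu_succ {q a : ℝ} (hq0 : 0 ≤ q) (hq1 : q ≤ 1) (ha0 : 0 ≤ a) (ha1 : a ≤ 1) (k : ℕ) :
    zu q a (k + 1) ≤ q * zx q a k + (1 - q) ^ 2 * zu q a k + 4 * a * q * zu q a k +
      2 * a * q * zx q a k := by
  set T1 : Set ((ℤ ⊕ (ℤ × ℤ)) → ℕ → Bool) := {H | H (Sum.inl 1) k = true} ∩
    ({H | H (Sum.inl 0) k = false} ∩ (E3_Z k 0 ∩ E3_Z k 1)) with hT1
  set T2 : Set ((ℤ ⊕ (ℤ × ℤ)) → ℕ → Bool) :=
    {H | H (Sum.inr (-1, 0)) k = true} ∩ ({H | H (Sum.inl 1) k = true} ∩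
    ({H | H (Sum.inl 0) k = true} ∩ (E3_Z k 0 ∩ E3_Z k 1))) with hT2
  set T3 : Set ((ℤ ⊕ (ℤ × ℤ)) → ℕ → Bool) :=
    {H | H (Sum.inr (1, 0)) k = true} ∩ ({H | H (Sum.inl 1) k = true} ∩
    ({H | H (Sum.inl 0) k = true} ∩ (E3_Z k 0 ∩ E3_Z k 1))) with hT3
  set T4 : Set ((ℤ ⊕ (ℤ × ℤ)) → ℕ → Bool) :=
    {H | H (Sum.inr (0, 1)) k = false} ∩ ({H | H (Sum.inl 0) k = false} ∩
    (E3_Z k 0 ∩ (E3_Z k 1)ᶜ)) with hT4
  set T5 : Set ((ℤ ⊕ (ℤ × ℤ)) → ℕ → Bool) :=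
    {H | H (Sum.inr (0, 1)) k = false} ∩ ({H | H (Sum.inr (-1, 0)) k = true} ∩
    ({H | H (Sum.inl 0) k = true} ∩ (E3_Z k 0 ∩ (E3_Z k 1)ᶜ))) with hT5
  set T6 : Set ((ℤ ⊕ (ℤ × ℤ)) → ℕ → Bool) :=
    {H | H (Sum.inr (-1, 0)) k = true} ∩ ({H | H (Sum.inl 1) k = true} ∩
    ((E3_Z k 0)ᶜ ∩ E3_Z k 1)) with hT6
  set T7 : Set ((ℤ ⊕ (ℤ × ℤ)) → ℕ → Bool) :=
    {H | H (Sum.inr (1, 0)) k = true} ∩ ({H | H (Sum.inl 1) k = true} ∩
    ((E3_Z k 0)ᶜ ∩ E3_Z k 1)) with hT7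
  set T8 : Set ((ℤ ⊕ (ℤ × ℤ)) → ℕ → Bool) :=
    {H | H (Sum.inr (-1, 0)) k = true} ∩ (E3_Z k (-1) ∩ (E3_Z k 0)ᶜ) with hT8
  have hsub : E3_Z (k + 1) 0 ∩ (E3_Z (k + 1) 1)ᶜ ⊆
      T1 ∪ (T2 ∪ (T3 ∪ (T4 ∪ (T5 ∪ (T6 ∪ (T7 ∪ T8)))))) := by
    intro H hH
    simp only [E3_Z, mem_inter_iff, mem_compl_iff, mem_ofPred_eq, Zu, zero_sub, zero_add,
      sub_self, one_add_one_eq_two] at hH
    simp only [hT1, hT2, hT3, hT4, hT5, hT6, hT7, hT8, E3_Z, mem_union, mem_inter_iff,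
      mem_compl_iff, mem_ofPred_eq]
    generalize Zu H k 0 = z0 at *
    generalize Zu H k (-1) = zm at *
    generalize Zu H k 1 = z1 at *
    generalize Zu H k 2 = z2 at *
    generalize H (Sum.inl 0) k = r0 at *
    generalize H (Sum.inl 1) k = r1 at *
    generalize H (Sum.inr (-1, 0)) k = am at *
    generalize H (Sum.inr (1, 0)) k = ap at *
    generalize H (Sum.inr (0, 1)) k = b0 at *
    generalize H (Sum.inr (2, 1)) k = b2 at *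
    clear_value T1 T2 T3 T4 T5 T6 T7 T8
    revert hH
    cases z0 <;> cases z1 <;> cases r0 <;> cases r1 <;> cases am <;> cases ap <;> simp <;> tauto
  have h1 : (berLaw (pc q a)).real T1 = q * ((1 - q) * (zx q a k - zu q a k)) := by
    rw [hT1, E3_rec1 hq0 hq1 k _ _ (E3_gI _ _ (E3_G_coord (by simp) _)
      (E3_gI _ _ (E3_gZ _ _ _) (E3_gZ _ _ _))), E3_rec0 hq0 hq1 k _ _
      (E3_gI _ _ (E3_gZ _ _ _) (E3_gZ _ _ _)), E3_z11]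
  have h2 : (berLaw (pc q a)).real T2 = a * (q * (q * (zx q a k - zu q a k))) := by
    rw [hT2, E3_arr1 ha0 ha1 k _ _ (E3_gI _ _ (E3_G_coord (by simp) _)
      (E3_gI _ _ (E3_G_coord (by simp) _) (E3_gI _ _ (E3_gZ _ _ _) (E3_gZ _ _ _)))),
      E3_rec1 hq0 hq1 k _ _ (E3_gI _ _ (E3_G_coord (by simp) _)
      (E3_gI _ _ (E3_gZ _ _ _) (E3_gZ _ _ _))), E3_rec1 hq0 hq1 k _ _
      (E3_gI _ _ (E3_gZ _ _ _) (E3_gZ _ _ _)), E3_z11]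
  have h3 : (berLaw (pc q a)).real T3 = a * (q * (q * (zx q a k - zu q a k))) := by
    rw [hT3, E3_arr1 ha0 ha1 k _ _ (E3_gI _ _ (E3_G_coord (by simp) _)
      (E3_gI _ _ (E3_G_coord (by simp) _) (E3_gI _ _ (E3_gZ _ _ _) (E3_gZ _ _ _)))),
      E3_rec1 hq0 hq1 k _ _ (E3_gI _ _ (E3_G_coord (by simp) _)
      (E3_gI _ _ (E3_gZ _ _ _) (E3_gZ _ _ _))), E3_rec1 hq0 hq1 k _ _
      (E3_gI _ _ (E3_gZ _ _ _) (E3_gZ _ _ _)), E3_z11]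
  have h4 : (berLaw (pc q a)).real T4 = (1 - a) * ((1 - q) * zu q a k) := by
    rw [hT4, E3_arr0 ha0 ha1 k _ _ (E3_gI _ _ (E3_G_coord (by simp) _)
      (E3_gI _ _ (E3_gZ _ _ _) (E3_gC _ _ (E3_gZ _ _ _)))), E3_rec0 hq0 hq1 k _ _
      (E3_gI _ _ (E3_gZ _ _ _) (E3_gC _ _ (E3_gZ _ _ _))), ← E3_zu]
  have h5 : (berLaw (pc q a)).real T5 = (1 - a) * (a * (q * zu q a k)) := by
    rw [hT5, E3_arr0 ha0 ha1 k _ _ (E3_gI _ _ (E3_G_coord (by simp) _)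
      (E3_gI _ _ (E3_G_coord (by simp) _) (E3_gI _ _ (E3_gZ _ _ _) (E3_gC _ _ (E3_gZ _ _ _))))),
      E3_arr1 ha0 ha1 k _ _ (E3_gI _ _ (E3_G_coord (by simp) _)
      (E3_gI _ _ (E3_gZ _ _ _) (E3_gC _ _ (E3_gZ _ _ _)))), E3_rec1 hq0 hq1 k _ _
      (E3_gI _ _ (E3_gZ _ _ _) (E3_gC _ _ (E3_gZ _ _ _))), ← E3_zu]
  have h6 : (berLaw (pc q a)).real T6 = a * (q * zu q a k) := by
    rw [hT6, E3_arr1 ha0 ha1 k _ _ (E3_gI _ _ (E3_G_coord (by simp) _)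
      (E3_gI _ _ (E3_gC _ _ (E3_gZ _ _ _)) (E3_gZ _ _ _))), E3_rec1 hq0 hq1 k _ _
      (E3_gI _ _ (E3_gC _ _ (E3_gZ _ _ _)) (E3_gZ _ _ _)), E3_z01]
  have h7 : (berLaw (pc q a)).real T7 = a * (q * zu q a k) := by
    rw [hT7, E3_arr1 ha0 ha1 k _ _ (E3_gI _ _ (E3_G_coord (by simp) _)
      (E3_gI _ _ (E3_gC _ _ (E3_gZ _ _ _)) (E3_gZ _ _ _))), E3_rec1 hq0 hq1 k _ _
      (E3_gI _ _ (E3_gC _ _ (E3_gZ _ _ _)) (E3_gZ _ _ _)), E3_z01]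
  have h8 : (berLaw (pc q a)).real T8 = a * zu q a k := by
    rw [hT8, E3_arr1 ha0 ha1 k _ _ (E3_gI _ _ (E3_gZ _ _ _) (E3_gC _ _ (E3_gZ _ _ _))), E3_zu']
  have hu : (berLaw (pc q a)).real (T1 ∪ (T2 ∪ (T3 ∪ (T4 ∪ (T5 ∪ (T6 ∪ (T7 ∪ T8))))))) ≤
      (berLaw (pc q a)).real T1 + ((berLaw (pc q a)).real T2 + ((berLaw (pc q a)).real T3 +
        ((berLaw (pc q a)).real T4 + ((berLaw (pc q a)).real T5 + ((berLaw (pc q a)).real T6 +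
          ((berLaw (pc q a)).real T7 + (berLaw (pc q a)).real T8)))))) := by
    refine (measureReal_union_le _ _).trans (add_le_add_right ?_ _)
    refine (measureReal_union_le _ _).trans (add_le_add_right ?_ _)
    refine (measureReal_union_le _ _).trans (add_le_add_right ?_ _)
    refine (measureReal_union_le _ _).trans (add_le_add_right ?_ _)
    refine (measureReal_union_le _ _).trans (add_le_add_right ?_ _)
    refine (measureReal_union_le _ _).trans (add_le_add_right ?_ _)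
    exact measureReal_union_le _ _
  have hle := (measureReal_mono (μ := berLaw (pc q a)) hsub).trans hu
  rw [← E3_zu] at hle
  rw [h1, h2, h3, h4, h5, h6, h7, h8] at hle
  have hx := E3_zx_nonneg q a k
  have hz := E3_zu_nonneg q a k
  have e1 : 0 ≤ q ^ 2 * zx q a k := by positivity
  have e2 : 0 ≤ a * (q * (1 - q)) * zx q a k :=
    mul_nonneg (mul_nonneg ha0 (mul_nonneg hq0 (by linarith))) hx
  have e3 : 0 ≤ a * q ^ 2 * zu q a k := by positivity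
  have e4 : 0 ≤ a ^ 2 * q * zu q a k := by positivity
  nlinarith [e1, e2, e3, e4]

end H50CP
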