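import Pool.Agent.H50.CP.D1
import Pool.Agent.H50.CP.D2
import Pool.Agent.H50.CP.E1
import Pool.Agent.H50.CP.E3

/-!
# E4: the contact process on `ℤ` dies out for `lam < 1`; `1 ≤ λ_c(ℤ)`

`lam < 1`, `θ = (1 + lam)/2`, `L k = zx k + θ zu k`.  With `q = 1 - exp(-1/N)`,
`a = 1 - exp(-lam/N)` (so `N q → 1`, `N a → lam`) there are `c > 0` and `N0` with
`L (k+1) ≤ (1 - c/N) L k` for `N ≥ N0`:
`L' ≤ zx [(1-q) + 2aq + θ q + 2 θ a q] + zu [2a + θ (1-q)² + 4 θ a q]`; first order in `1/N`: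
`zx [1 - (1-θ)/N]`, `zu θ [1 - 2 (1 - lam/θ)/N]`.  Any `c < min (1-θ) (2 (1-lam/θ))` works.
Hence `zx K ≤ L K ≤ (1+θ) (1 - c/N)^K ≤ (1+θ) exp(-c K/N)`.
For `K = N T`, `tm N T K = 0`: by `upper_det`, `hits_law`:
`P(Reach zgraph ω (-T) 0 0) ≤ zx K + P(ZU n K 0, not Zu K 0) + P(Coll2 n K 0)
  ≤ (1+θ) exp(-c T) + (2 lam T)^n/n! + (2n+1) 4 K (lam/N)²`.
`N → ∞`, `n → ∞`, then `T → ∞` (`Upper ⊆ Reach (-T)`): `P(Upper) = 0`.
-/

namespace H50CP

open MeasureTheory ProbabilityTheory Set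
open scoped NNReal ENNReal

private theorem e4_exp {x : ℝ} (hx : 0 ≤ x) : Real.exp (-x) ≤ 1 - x + x ^ 2 := by
  rw [Real.exp_neg]
  have h1 : 1 + x ≤ Real.exp x := by linarith [Real.add_one_le_exp x]
  have h2 : (Real.exp x)⁻¹ ≤ (1 + x)⁻¹ := inv_anti₀ (by linarith) h1
  refine h2.trans ?_
  rw [inv_le_iff_one_le_mul₀ (by linarith)]
  nlinarith [pow_nonneg hx 3]

/-- one step of the linear inequality -/
private theorem e4_step {l x q a X U X' U' : ℝ} (hl0 : 0 ≤ l) (hl1 : l < 1) (hx0 : 0 ≤ x)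
    (hx1 : x ≤ (1 - l) / 20) (hq : q ≤ x) (hq' : x - x ^ 2 ≤ q) (hq0 : 0 ≤ q) (ha0 : 0 ≤ a)
    (ha : a ≤ l * x) (hqq : (1 - q) ^ 2 ≤ 1 - 2 * x + 3 * x ^ 2) (hX : 0 ≤ X) (hU : 0 ≤ U)
    (h1 : X' ≤ (1 - q) * X + 2 * a * (U + q * X))
    (h2 : U' ≤ q * X + (1 - q) ^ 2 * U + 4 * a * q * U + 2 * a * q * X) :
    X' + (1 + l) / 2 * U' ≤ (1 - (1 - l) / 4 * x) * (X + (1 + l) / 2 * U) := by
  set θ : ℝ := (1 + l) / 2 with hθ
  have hθ0 : 0 ≤ θ := by rw [hθ]; linarith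
  have hθ1 : θ ≤ 1 := by rw [hθ]; linarith
  have haq : a * q ≤ x ^ 2 := by
    have h3 : a ≤ x := ha.trans (by nlinarith)
    calc a * q ≤ x * x := mul_le_mul h3 hq hq0 hx0
      _ = x ^ 2 := by ring
  have haq0 : 0 ≤ a * q := mul_nonneg ha0 hq0
  -- coefficient of X
  have c1 : (1 - q) + 2 * (a * q) + θ * q + 2 * θ * (a * q) ≤ 1 - (1 - l) / 4 * x := by
    have h3 : 2 * (a * q) + 2 * θ * (a * q) ≤ 4 * x ^ 2 := by nlinarith
    have h4 : (1 - θ) * (x - x ^ 2) ≤ (1 - θ) * q := mul_le_mul_of_nonneg_left hq' (by linarith)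
    have h5 : 1 - θ = (1 - l) / 2 := by rw [hθ]; ring
    have h6 : x ^ 2 ≤ x * ((1 - l) / 20) := by nlinarith
    rw [h5] at h4
    nlinarith [mul_nonneg hx0 (sub_nonneg.2 hl1.le)]
  have c2 : 2 * a + θ * (1 - q) ^ 2 + 4 * θ * (a * q) ≤ θ * (1 - (1 - l) / 4 * x) := by
    have h3 : θ * (1 - q) ^ 2 ≤ θ * (1 - 2 * x + 3 * x ^ 2) := mul_le_mul_of_nonneg_left hqq hθ0
    have h4 : 4 * θ * (a * q) ≤ 4 * θ * x ^ 2 := mul_le_mul_of_nonneg_left haq (by positivity)
    have h6 : x ^ 2 ≤ x * ((1 - l) / 20) := by nlinarith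
    have h7 : θ * x ^ 2 ≤ x * ((1 - l) / 20) := by nlinarith [sq_nonneg x]
    have h8 : θ * ((1 - l) / 4 * x) ≤ (1 - l) / 4 * x := by
      have : 0 ≤ (1 - l) / 4 * x := by
        have := sub_nonneg.2 hl1.le
        positivity
      nlinarith
    have h9 : θ * 2 = 1 + l := by rw [hθ]; ring
    have h10 : 0 ≤ x * (1 - l) := mul_nonneg hx0 (sub_nonneg.2 hl1.le)
    nlinarith
  have e1 : X' + θ * U' ≤ ((1 - q) + 2 * (a * q) + θ * q + 2 * θ * (a * q)) * X
      + (2 * a + θ * (1 - q) ^ 2 + 4 * θ * (a * q)) * U := by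
    have := mul_le_mul_of_nonneg_left h2 hθ0
    nlinarith
  calc X' + θ * U' ≤ ((1 - q) + 2 * (a * q) + θ * q + 2 * θ * (a * q)) * X
      + (2 * a + θ * (1 - q) ^ 2 + 4 * θ * (a * q)) * U := e1
    _ ≤ (1 - (1 - l) / 4 * x) * X + (θ * (1 - (1 - l) / 4 * x)) * U := by
        gcongr
    _ = (1 - (1 - l) / 4 * x) * (X + θ * U) := by ring

private theorem e4_zx {l : ℝ} (hl0 : 0 ≤ l) (hl1 : l < 1) {N : ℕ} (hN : 0 < N)
    (hN' : 20 / (1 - l) ≤ N) (k : ℕ) :
    zx (1 - Real.exp (-(1 / N))) (1 - Real.exp (-(l / N))) k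
      ≤ 2 * Real.exp (-((1 - l) / 4 * (k / N))) := by
  have hN0 : (0 : ℝ) < N := by exact_mod_cast hN
  have hl : 0 < 1 - l := by linarith
  set x : ℝ := 1 / N with hx
  have hx0 : 0 < x := by positivity
  have hx1 : x ≤ (1 - l) / 20 := by
    rw [hx, div_le_div_iff₀ hN0 (by norm_num)]
    rw [div_le_iff₀ hl] at hN'
    linarith
  have hx2 : x ≤ 1 := by linarith
  have hlx : l / N = l * x := by rw [hx]; ring
  rw [hlx]
  set q : ℝ := 1 - Real.exp (-x) with hq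
  set a : ℝ := 1 - Real.exp (-(l * x)) with ha
  have hlx0 : 0 ≤ l * x := by positivity
  have hq0 : 0 ≤ q := by
    have := Real.exp_le_one_iff.2 (by linarith : -x ≤ 0)
    linarith
  have hq1 : q ≤ 1 := by
    have := Real.exp_pos (-x)
    linarith
  have ha0 : 0 ≤ a := by
    have := Real.exp_le_one_iff.2 (by linarith : -(l * x) ≤ 0)
    linarith
  have ha1 : a ≤ 1 := by
    have := Real.exp_pos (-(l * x))
    linarith
  have hqx : q ≤ x := by
    have := Real.add_one_le_exp (-x)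
    linarith
  have hax : a ≤ l * x := by
    have := Real.add_one_le_exp (-(l * x))
    linarith
  have hqx' : x - x ^ 2 ≤ q := by
    have := e4_exp hx0.le
    linarith
  have hqq : (1 - q) ^ 2 ≤ 1 - 2 * x + 3 * x ^ 2 := by
    have h1 : 1 - q ≤ 1 - x + x ^ 2 := by linarith
    have h2 : 0 ≤ 1 - q := by linarith
    calc (1 - q) ^ 2 ≤ (1 - x + x ^ 2) ^ 2 := pow_le_pow_left₀ h2 h1 2
      _ ≤ 1 - 2 * x + 3 * x ^ 2 := by nlinarith [pow_pos hx0 3]
  have hzx : ∀ k, 0 ≤ zx q a k := fun k => measureReal_nonneg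
  have hzu : ∀ k, 0 ≤ zu q a k := fun k => measureReal_nonneg
  have key : ∀ k, zx q a k + (1 + l) / 2 * zu q a k ≤ 2 * (1 - (1 - l) / 4 * x) ^ k := by
    intro k
    induction k with
    | zero =>
      have h1 : zx q a 0 ≤ 1 := measureReal_le_one
      have h2 : zu q a 0 ≤ 1 := measureReal_le_one
      have h3 := hzu 0
      rw [pow_zero]
      nlinarith
    | succ k ih =>
      refine (e4_step hl0 hl1 hx0.le hx1 hqx hqx' hq0 ha0 hax hqq (hzx k) (hzu k)
        (zx_succ hq0 hq1 ha0 ha1 k) (zu_succ hq0 hq1 ha0 ha1 k)).trans ?_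
      have hc : 0 ≤ 1 - (1 - l) / 4 * x := by nlinarith
      calc (1 - (1 - l) / 4 * x) * (zx q a k + (1 + l) / 2 * zu q a k)
          ≤ (1 - (1 - l) / 4 * x) * (2 * (1 - (1 - l) / 4 * x) ^ k) :=
            mul_le_mul_of_nonneg_left ih hc
        _ = _ := by ring
  have h1 := key k
  have h2 : 0 ≤ (1 + l) / 2 * zu q a k := by
    have := hzu k
    positivity
  have hc : 0 ≤ 1 - (1 - l) / 4 * x := by nlinarith
  have h3 : 1 - (1 - l) / 4 * x ≤ Real.exp (-((1 - l) / 4 * x)) := by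
    have := Real.add_one_le_exp (-((1 - l) / 4 * x))
    linarith
  have h4 : (1 - (1 - l) / 4 * x) ^ k ≤ Real.exp (-((1 - l) / 4 * (k / N))) := by
    calc (1 - (1 - l) / 4 * x) ^ k ≤ (Real.exp (-((1 - l) / 4 * x))) ^ k :=
          pow_le_pow_left₀ hc h3 k
      _ = Real.exp (-((1 - l) / 4 * (k / N))) := by
          rw [← Real.exp_nat_mul]
          congr 1
          rw [hx]
          ring
  linarith

private theorem e4_bound (lam : ℝ≥0) (h : lam < 1) (N T n : ℕ) (hN : 0 < N)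
    (hN' : 20 / (1 - (lam : ℝ)) ≤ N) :
    contactLaw ℤ lam {ω | Upper zgraph ω 0 0} ≤
      ENNReal.ofReal ((2 * n + 1) * (4 * T * (lam : ℝ) ^ 2 / N)) +
      ENNReal.ofReal ((2 * lam * T) ^ n / n.factorial) +
      ENNReal.ofReal (2 * Real.exp (-((1 - (lam : ℝ)) / 4 * T))) := by
  have hN0 : (0 : ℝ) < N := by exact_mod_cast hN
  have hl0 : (0 : ℝ) ≤ lam := lam.2
  have hl1 : (lam : ℝ) < 1 := by exact_mod_cast h
  set K : ℕ := N * T with hK
  set q : ℝ := 1 - Real.exp (-(1 / N)) with hq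
  set a : ℝ := 1 - Real.exp (-((lam : ℝ) / N)) with ha
  have hx0 : (0 : ℝ) ≤ 1 / N := by positivity
  have hlx0 : (0 : ℝ) ≤ (lam : ℝ) / N := by positivity
  have hq0 : 0 ≤ q := by
    have := Real.exp_le_one_iff.2 (by linarith : -((1 : ℝ) / N) ≤ 0)
    linarith
  have hq1 : q ≤ 1 := by
    have := Real.exp_pos (-((1 : ℝ) / N))
    linarith
  have ha0 : 0 ≤ a := by
    have := Real.exp_le_one_iff.2 (by linarith : -((lam : ℝ) / N) ≤ 0)
    linarith
  have ha1 : a ≤ 1 := by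
    have := Real.exp_pos (-((lam : ℝ) / N))
    linarith
  have hax : a ≤ (lam : ℝ) / N := by
    have := Real.add_one_le_exp (-((lam : ℝ) / N))
    linarith
  set A1 : Set ((ℤ ⊕ (ℤ × ℤ)) → ℕ → Bool) := {H | Coll2 H n K 0} with hA1
  set A2 : Set ((ℤ ⊕ (ℤ × ℤ)) → ℕ → Bool) := {H | ZU H n K 0 = true ∧ Zu H K 0 = false} with hA2
  set A3 : Set ((ℤ ⊕ (ℤ × ℤ)) → ℕ → Bool) := {H | Zu H K 0 = true} with hA3
  have m1 : MeasurableSet A1 := measurableSet_Coll2 n K 0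
  have m3 : MeasurableSet A3 := measurable_Zu K 0 (MeasurableSet.singleton true)
  have m2 : MeasurableSet A2 :=
    (measurable_ZU n K 0 (MeasurableSet.singleton true)).inter
      (measurable_Zu K 0 (MeasurableSet.singleton false))
  have hsub : {ω : CΩ ℤ | Upper zgraph ω 0 0} ⊆
      (fun ω => hits N T ω) ⁻¹' (A1 ∪ A2 ∪ A3) := by
    intro ω hω
    have h1 : Reach zgraph ω (-(T : ℝ)) 0 0 := hω (-(T : ℝ)) (by simp)
    have t0 : tm N T 0 = -(T : ℝ) := by unfold tm; simp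
    have tK : tm N T K = 0 := by
      unfold tm
      rw [hK]
      push_cast
      field_simp
      ring
    show hits N T ω ∈ A1 ∪ A2 ∪ A3
    by_cases hc : Coll2 (hits N T ω) n K 0
    · exact Or.inl (Or.inl hc)
    · have h2 := upper_det ω N T n K hN 0 hc K le_rfl (by rw [t0, tK]; exact h1)
      by_cases h3 : Zu (hits N T ω) K 0 = true
      · exact Or.inr h3
      · exact Or.inl (Or.inr ⟨h2, by simpa using h3⟩)
  have hlaw : (contactLaw ℤ lam).map (fun ω => hits N T ω) = berLaw (pc q a) := by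
    unfold contactLaw
    rw [hits_law _ N T hN]
    congr 1
    funext i
    cases i with
    | inl i => simp [pc, hq]
    | inr i => simp [pc, ha]
  have hmu : contactLaw ℤ lam {ω | Upper zgraph ω 0 0} ≤ berLaw (pc q a) (A1 ∪ A2 ∪ A3) := by
    refine (measure_mono hsub).trans (le_of_eq ?_)
    rw [← hlaw, Measure.map_apply (measurable_hits N T) ((m1.union m2).union m3)]
  refine hmu.trans ((measure_union_le _ _).trans (add_le_add ((measure_union_le _ _).trans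
    (add_le_add ?_ ?_)) ?_))
  · refine (prob_coll2 hq0 hq1 ha0 ha1 n K 0).trans (ENNReal.ofReal_le_ofReal ?_)
    refine mul_le_mul_of_nonneg_left ?_ (by positivity)
    have h1 : a ^ 2 ≤ ((lam : ℝ) / N) ^ 2 := pow_le_pow_left₀ ha0 hax 2
    calc 4 * (K : ℝ) * a ^ 2 ≤ 4 * (K : ℝ) * ((lam : ℝ) / N) ^ 2 :=
          mul_le_mul_of_nonneg_left h1 (by positivity)
      _ = 4 * T * (lam : ℝ) ^ 2 / N := by
          rw [hK]
          push_cast
          field_simp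
  · refine (prob_ZU hq0 hq1 ha0 ha1 n K 0).trans (ENNReal.ofReal_le_ofReal ?_)
    have h1 : 2 * a * (K : ℝ) ≤ 2 * lam * T := by
      calc 2 * a * (K : ℝ) ≤ 2 * ((lam : ℝ) / N) * K := by gcongr
        _ = 2 * lam * T := by
          rw [hK]
          push_cast
          field_simp
    gcongr
  · have h1 : berLaw (pc q a) A3 = ENNReal.ofReal (zx q a K) := by
      unfold zx
      rw [ofReal_measureReal]
    rw [h1]
    refine ENNReal.ofReal_le_ofReal ?_
    have h2 := e4_zx hl0 hl1 hN hN' K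
    have h3 : (K : ℝ) / N = T := by
      rw [hK]
      push_cast
      field_simp
    rwa [h3] at h2

theorem z_extinct (lam : ℝ≥0) (h : lam < 1) :
    contactLaw ℤ lam {ω | Upper zgraph ω 0 0} = 0 := by
  have hl1 : (lam : ℝ) < 1 := by exact_mod_cast h
  have hl0 : (0 : ℝ) ≤ lam := lam.2
  refine le_antisymm (ENNReal.le_of_forall_pos_le_add fun ε hε _ => ?_) zero_le
  rw [zero_add]
  have hε' : (0 : ℝ) < ε := by exact_mod_cast hε
  -- T
  have hT : Filter.Tendsto (fun T : ℕ => 2 * Real.exp (-((1 - (lam : ℝ)) / 4 * T))) Filter.atTop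
      (nhds 0) := by
    have h1 : Filter.Tendsto (fun T : ℕ => (1 - (lam : ℝ)) / 4 * T) Filter.atTop Filter.atTop :=
      tendsto_natCast_atTop_atTop.const_mul_atTop (by linarith)
    have h2 := (Real.tendsto_exp_neg_atTop_nhds_zero.comp h1).const_mul 2
    simpa using h2
  obtain ⟨T, hT⟩ := (hT.eventually (gt_mem_nhds (show (0 : ℝ) < ε / 3 by positivity))).exists
  -- n
  obtain ⟨n, hn⟩ := ((FloorSemiring.tendsto_pow_div_factorial_atTop (2 * (lam : ℝ) * T)).eventually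
    (gt_mem_nhds (show (0 : ℝ) < ε / 3 by positivity))).exists
  -- N
  have hNl : Filter.Tendsto (fun N : ℕ => (2 * (n : ℝ) + 1) * (4 * T * (lam : ℝ) ^ 2 / N)) Filter.atTop
      (nhds 0) := by
    have h1 := (tendsto_const_div_atTop_nhds_zero_nat (4 * T * (lam : ℝ) ^ 2)).const_mul (2 * (n : ℝ) + 1)
    simpa using h1
  obtain ⟨N, hN, hN1, hN2⟩ := ((hNl.eventually (gt_mem_nhds (show (0 : ℝ) < ε / 3 by positivity))).and
    ((Filter.eventually_ge_atTop 1).and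
      (tendsto_natCast_atTop_atTop.eventually_ge_atTop (20 / (1 - (lam : ℝ)))))).exists
  refine (e4_bound lam h N T n hN1 hN2).trans ?_
  have hε3 : (ε : ℝ≥0∞) = ENNReal.ofReal (ε / 3) + ENNReal.ofReal (ε / 3) + ENNReal.ofReal (ε / 3) := by
    rw [← ENNReal.ofReal_add (by positivity) (by positivity),
      ← ENNReal.ofReal_add (by positivity) (by positivity)]
    have : (ε : ℝ) / 3 + ε / 3 + ε / 3 = ε := by ring
    rw [this, ENNReal.ofReal_coe_nnreal]
  rw [hε3]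
  exact add_le_add (add_le_add (ENNReal.ofReal_le_ofReal hN.le) (ENNReal.ofReal_le_ofReal hn.le))
    (ENNReal.ofReal_le_ofReal hT.le)

theorem one_le_lambdaC : 1 ≤ lambdaC := by
  unfold lambdaC
  refine le_sInf ?_
  rintro l ⟨lam, rfl, h⟩
  by_contra hlt
  rw [not_le] at hlt
  exact h (z_extinct lam (by exact_mod_cast hlt))

end H50CP
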