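import Pool.Agent.H50.CP.TDefs

/-!
# T5: link between the discrete systems on `TV d` and the fields on the rooted trees

`zt_eq_Zd`: first `zt (n + w.length) e w k = zt n (fun v => e (w ++ v)) [] k` (induction on `w`),
then for `k ≤ n`: `zt n (fun v => envC H b (w ++ v)) [] k = Zd H k (b, w)` by induction on `k`
(for all `n`, `w`), using `(envC H b (w ++ [i])).2 = H (Sum.inr (ch (b,w) i, (b,w)))`
(`par (b, w ++ [i]) = (b, w)`) and `Zp r u (k+1) = (Zp r u k && !r k) || u k`.

`envC_law`: the index map `(b, w, c) ↦ Sum.inl (b,w)` / `Sum.inr ((b,w), par (b,w))` (`c : Bool`) is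
injective; `Measure.map_infinitePi_infinitePi_of_inj`, `infinitePi_map_curry(_symm)`,
`infinitePi_eq_pi`, `infinitePi_map_pi`; or directly `Measure.pi_eq`/`eq_infinitePi` on boxes.
-/

namespace H50CP

open MeasureTheory ProbabilityTheory Set
open scoped Classical

theorem T5_par_append {d : ℕ} (b : Bool) (w : List (Fin d)) (i : Fin d) :
    par (b, w ++ [i]) = (b, w) := by
  unfold par
  simp

theorem T5_envC_fst {d : ℕ} (H : (TV d ⊕ (TV d × TV d)) → ℕ → Bool) (b : Bool)
    (w : List (Fin d)) : (envC H b w).1 = H (Sum.inl (b, w)) := rfl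

theorem T5_envC_snd {d : ℕ} (H : (TV d ⊕ (TV d × TV d)) → ℕ → Bool) (b : Bool)
    (w : List (Fin d)) (i : Fin d) :
    (envC H b (w ++ [i])).2 = H (Sum.inr (ch (b, w) i, (b, w))) := by
  show H (Sum.inr ((b, w ++ [i]), par (b, w ++ [i]))) = _
  rw [T5_par_append]
  rfl

theorem T5_zt_root {d : ℕ} (H : (TV d ⊕ (TV d × TV d)) → ℕ → Bool) (b : Bool) (n : ℕ) :
    ∀ (w : List (Fin d)) (k : ℕ), k ≤ n →
      zt n (fun v => envC H b (w ++ v)) [] k = Zd H k (b, w) := by
  induction n with
  | zero =>
    intro w k hk
    obtain rfl : k = 0 := by omega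
    rfl
  | succ n ih =>
    intro w k hk
    rw [zt]
    induction k with
    | zero => rfl
    | succ k ihk =>
      rw [Zp, ihk (by omega), Zd]
      have h1 : (envC H b (w ++ [])).1 = H (Sum.inl (b, w)) := by
        rw [List.append_nil, T5_envC_fst]
      have h2 : ∀ i : Fin d, (envC H b (w ++ [i])).2 k = H (Sum.inr (ch (b, w) i, (b, w))) k := by
        intro i
        rw [T5_envC_snd]
      have h3 : ∀ i : Fin d, zt n (fun v => envC H b (w ++ (i :: v))) [] k =
          Zd H k (ch (b, w) i) := by
        intro i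
        have := ih (w ++ [i]) k (by omega)
        simpa [List.append_assoc, ch] using this
      rw [h1]
      simp only [h2, h3]

theorem T5_zt_aux {d : ℕ} (H : (TV d ⊕ (TV d × TV d)) → ℕ → Bool) (b : Bool)
    (w : List (Fin d)) : ∀ (w0 : List (Fin d)) (n k : ℕ), k + w.length ≤ n →
      zt n (fun v => envC H b (w0 ++ v)) w k = Zd H k (b, w0 ++ w) := by
  induction w with
  | nil =>
    intro w0 n k h
    rw [List.append_nil]
    exact T5_zt_root H b n w0 k (by simpa using h)
  | cons i w ih =>
    intro w0 n k h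
    obtain ⟨m, rfl⟩ : ∃ m, n = m + 1 := ⟨n - 1, by simp at h; omega⟩
    rw [zt]
    have := ih (w0 ++ [i]) m k (by simp at h; omega)
    simpa [List.append_assoc] using this

theorem zt_eq_Zd {d : ℕ} (H : (TV d ⊕ (TV d × TV d)) → ℕ → Bool) (b : Bool) (w : List (Fin d))
    (n k : ℕ) (h : k + w.length ≤ n) : zt n (envC H b) w k = Zd H k (b, w) := by
  have := T5_zt_aux H b w [] n k h
  simpa using this

theorem Xp_eq_Xd {d : ℕ} (H : (TV d ⊕ TV d) → ℕ → Bool) (b : Bool) (w : List (Fin d)) (k : ℕ) :
    Xp (envF H b w).1 (envF H b w).2 k = Xd H k (b, w) := by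
  induction k with
  | zero => rfl
  | succ k ih =>
    rw [Xp, Xd, ih]
    rfl

theorem measurable_envC {d : ℕ} : Measurable (envC (d := d)) := by
  refine measurable_pi_lambda _ fun b => measurable_pi_lambda _ fun w => ?_
  exact (measurable_pi_apply _).prodMk (measurable_pi_apply _)

theorem measurable_envF {d : ℕ} : Measurable (envF (d := d)) := by
  refine measurable_pi_lambda _ fun b => measurable_pi_lambda _ fun w => ?_
  exact (measurable_pi_apply _).prodMk (measurable_pi_apply _)

/-- pairs of coordinates of a family of independent sequences -/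
theorem T5_law {ι κ : Type} (p : ι → ℝ) (f g : κ → ι) (hf : Function.Injective f)
    (hg : Function.Injective g) (hfg : ∀ x y, f x ≠ g y) :
    (berLaw p).map (fun H x => (H (f x), H (g x))) =
      Measure.infinitePi (fun x => (bseq (p (f x))).prod (bseq (p (g x)))) := by
  let F : κ × Bool → ι := fun z => bif z.2 then g z.1 else f z.1
  have hF : Function.Injective F := by
    rintro ⟨x, c⟩ ⟨y, c'⟩ h
    cases c <;> cases c' <;> simp only [F, cond_true, cond_false] at h
    · rw [hf h]
    · exact absurd h (hfg _ _)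
    · exact absurd h.symm (hfg _ _)
    · rw [hg h]
  have h1 := Measure.map_infinitePi_infinitePi_of_inj (P := fun i => bseq (p i)) hF
  have h2 := Measure.infinitePi_map_curry (fun (x : κ) (c : Bool) => bseq (p (F (x, c))))
  have hm1 : Measurable (fun (H : ι → ℕ → Bool) (i : κ × Bool) => H (F i)) :=
    measurable_pi_lambda _ fun i => measurable_pi_apply _
  have hm3 : Measurable (fun (G : κ → Bool → ℕ → Bool) (x : κ) => (G x false, G x true)) := by
    refine measurable_pi_lambda _ fun x => ?_
    exact ((measurable_pi_apply false).comp (measurable_pi_apply x)).prodMk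
      ((measurable_pi_apply true).comp (measurable_pi_apply x))
  have h3 := Measure.infinitePi_map_pi
    (μ := fun x : κ => Measure.infinitePi (fun c : Bool => bseq (p (F (x, c)))))
    (f := fun (_ : κ) (G : Bool → ℕ → Bool) => (G false, G true))
    (fun x => (measurable_pi_apply false).prodMk (measurable_pi_apply true))
  have h4 : ∀ x : κ, (Measure.infinitePi (fun c : Bool => bseq (p (F (x, c))))).map
      (fun G : Bool → ℕ → Bool => (G false, G true)) =
        (bseq (p (f x))).prod (bseq (p (g x))) := by
    intro x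
    rw [Measure.infinitePi_map_eval_prod (by decide)]
    rfl
  rw [← funext h4, ← h3, ← h2]
  have h1' : (berLaw p).map (fun (H : ι → ℕ → Bool) (i : κ × Bool) => H (F i)) =
      Measure.infinitePi (fun z : κ × Bool => bseq (p (F (z.1, z.2)))) := h1
  rw [← h1', Measure.map_map (MeasurableEquiv.measurable _) hm1, Measure.map_map hm3
    ((MeasurableEquiv.measurable _).comp hm1)]
  rfl

theorem T5_law2 {ι : Type} {d : ℕ} (p : ι → ℝ) (f g : TV d → ι) (hf : Function.Injective f)
    (hg : Function.Injective g) (hfg : ∀ x y, f x ≠ g y) (q a : ℝ) (hq : ∀ x, p (f x) = q)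
    (ha : ∀ x, p (g x) = a) :
    (berLaw p).map (fun H (b : Bool) (w : List (Fin d)) => (H (f (b, w)), H (g (b, w)))) =
      Measure.pi fun _ : Bool => tenv d q a := by
  have h1 := T5_law p f g hf hg hfg
  simp only [hq, ha] at h1
  have h2 := Measure.infinitePi_map_curry
    (fun (_ : Bool) (_ : List (Fin d)) => (bseq q).prod (bseq a))
  rw [← Measure.infinitePi_eq_pi]
  unfold tenv
  rw [← h2]
  have hm1 : Measurable (fun (H : ι → ℕ → Bool) (x : TV d) => (H (f x), H (g x))) :=
    measurable_pi_lambda _ fun x => (measurable_pi_apply _).prodMk (measurable_pi_apply _)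
  rw [← h1, Measure.map_map (MeasurableEquiv.measurable _) hm1]
  rfl

theorem envC_law (d : ℕ) (q a : ℝ) :
    (berLaw (pc (V := TV d) q a)).map envC = Measure.pi fun _ : Bool => tenv d q a := by
  refine T5_law2 (pc (V := TV d) q a) (fun x => Sum.inl x) (fun x => Sum.inr (x, par x))
    Sum.inl_injective ?_ ?_ q a (fun _ => rfl) (fun _ => rfl)
  · intro x y h
    exact (Prod.mk.inj (Sum.inr_injective h)).1
  · intro x y h
    cases h

theorem envF_law (d : ℕ) (q a : ℝ) :
    (berLaw (pf (V := TV d) q a)).map envF = Measure.pi fun _ : Bool => tenv d q a := by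
  refine T5_law2 (pf (V := TV d) q a) (fun x => Sum.inl x) (fun x => Sum.inr x)
    Sum.inl_injective Sum.inr_injective ?_ q a (fun _ => rfl) (fun _ => rfl)
  intro x y h
  cases h

end H50CP
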