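import Pool.Agent.H50.CP.T4
import Pool.Agent.H50.CP.T5

/-!
# T6: domination for the discrete systems on the whole tree

By `envC_law`, `envF_law` (and `union`/`Measure.pi` facts): both sides are integrals over pairs of
environments indexed by `b : Bool`.  Take `n = K + sup of the lengths of the words`; by `zt_eq_Zd`,
`Zd H (k i) (x i) = ((FZ n K (envC H (x i).1)).1 (x i).2 (k i))` as `k i ≤ K`; similarly for `Xd` and
`FX K (envF H (x i).1, p)` (any `p`).  `Sto.pi` over `Bool` applied to `tree_sto`, with the monotone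
measurable bounded function
`φ ↦ f (fun i => (φ (x i).1).1 (x i).2 (k i))`; the law of `b ↦ FX K (e_b, p_b)` under
`Measure.pi fun _ => (tenv ..).prod (bseq ka)` : the first components are
`Measure.pi fun _ : Bool => tenv ..` (image of a product measure under coordinatewise maps,
`Measure.pi_map_pi`).
-/

namespace H50CP

open MeasureTheory ProbabilityTheory Set
open scoped Classical

/-- the test function on pairs of fields -/
noncomputable def T6psi {d : ℕ} {ι : Type} (x : ι → TV d) (k : ι → ℕ) (f : (ι → Bool) → ℝ) :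
    (Bool → (List (Fin d) → ℕ → Bool) × (ℕ → Bool)) → ℝ :=
  fun φ => f fun i => (φ (x i).1).1 (x i).2 (k i)

theorem T6psi_mono {d : ℕ} {ι : Type} (x : ι → TV d) (k : ι → ℕ) {f : (ι → Bool) → ℝ}
    (hf : Monotone f) : Monotone (T6psi x k f) := by
  intro φ ψ h
  exact hf fun i => (h (x i).1).1 (x i).2 (k i)

theorem T6psi_meas {d : ℕ} {ι : Type} [Fintype ι] (x : ι → TV d) (k : ι → ℕ)
    (f : (ι → Bool) → ℝ) : Measurable (T6psi x k f) := by
  unfold T6psi
  refine (measurable_of_finite f).comp (measurable_pi_lambda _ fun i => ?_)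
  exact (measurable_pi_apply (k i)).comp ((measurable_pi_apply (x i).2).comp
    (measurable_fst.comp (measurable_pi_apply (x i).1)))

theorem T6psi_bdd {d : ℕ} {ι : Type} [Fintype ι] (x : ι → TV d) (k : ι → ℕ)
    (f : (ι → Bool) → ℝ) : ∃ C : ℝ, ∀ φ, |T6psi x k f φ| ≤ C := by
  obtain ⟨C, hC⟩ := (Set.finite_range fun z => |f z|).bddAbove
  exact ⟨C, fun φ => hC ⟨_, rfl⟩⟩

theorem tree_dom {d : ℕ} {q a ae ka : ℝ} (hka : 0 ≤ ka ∧ ka ≤ 1) (K : ℕ)
    (hS : Sto (flL q ae ka K) (chL q (1 - (1 - ka) ^ d) a K))
    {ι : Type} [Fintype ι] (x : ι → TV d) (k : ι → ℕ) (hk : ∀ i, k i ≤ K)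
    (f : (ι → Bool) → ℝ) (hf : Monotone f) :
    ∫ H, f (fun i => Xd H (k i) (x i)) ∂(berLaw (pf (V := TV d) q ae)) ≤
      ∫ H, f (fun i => Zd H (k i) (x i)) ∂(berLaw (pc (V := TV d) q a)) := by
  set n : ℕ := K + ∑ i, (x i).2.length with hn
  have hlen : ∀ i, k i + (x i).2.length ≤ n := by
    intro i
    have h1 : (x i).2.length ≤ ∑ i, (x i).2.length :=
      Finset.single_le_sum (f := fun i => (x i).2.length) (fun _ _ => Nat.zero_le _)
        (Finset.mem_univ i)
    have h2 := hk i
    omega
  have hcut : ∀ (i : ι) (g : ℕ → Bool), cutL K g (k i) = g (k i) := by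
    intro i g
    unfold cutL
    rw [decide_eq_true (hk i), Bool.and_true]
  let p₀ : ℕ → Bool := fun _ => false
  have hZ : ∀ H, f (fun i => Zd H (k i) (x i)) =
      T6psi x k f (fun b => FZ n K (envC H b)) := by
    intro H
    unfold T6psi FZ
    congr 1
    funext i
    show Zd H (k i) (x i) = cutL K (zt n (envC H (x i).1) (x i).2) (k i)
    rw [hcut, zt_eq_Zd H (x i).1 (x i).2 n (k i) (hlen i)]
  have hX : ∀ H, f (fun i => Xd H (k i) (x i)) =
      T6psi x k f (fun b => FX K (envF H b, p₀)) := by
    intro H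
    unfold T6psi FX
    congr 1
    funext i
    show Xd H (k i) (x i) = cutL K (Xp (envF H (x i).1 (x i).2).1 (envF H (x i).1 (x i).2).2) (k i)
    rw [hcut, Xp_eq_Xd]
  have hmZ : Measurable fun e : Bool → TE d => fun b => FZ n K (e b) :=
    measurable_pi_lambda _ fun b => (measurable_FZ n K).comp (measurable_pi_apply b)
  have hmX : Measurable fun e : Bool → TE d × (ℕ → Bool) => fun b => FX K (e b) :=
    measurable_pi_lambda _ fun b => (measurable_FX K).comp (measurable_pi_apply b)
  have hmX' : Measurable fun e : Bool → TE d => fun b => FX K (e b, p₀) :=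
    measurable_pi_lambda _ fun b => (measurable_FX K).comp
      ((measurable_pi_apply b).prodMk measurable_const)
  have hψ := T6psi_meas x k f
  have hψZ : Measurable fun e : Bool → TE d => T6psi x k f fun b => FZ n K (e b) := hψ.comp hmZ
  have hψX : Measurable fun e : Bool → TE d => T6psi x k f fun b => FX K (e b, p₀) :=
    hψ.comp hmX'
  -- right hand side
  have hR : ∫ H, f (fun i => Zd H (k i) (x i)) ∂(berLaw (pc (V := TV d) q a)) =
      ∫ φ, T6psi x k f φ ∂(Measure.pi fun _ : Bool => (tenv d q a).map (FZ n K)) := by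
    have e1 : (Measure.pi fun _ : Bool => (tenv d q a).map (FZ (d := d) n K)) =
        (Measure.pi fun _ : Bool => tenv d q a).map fun e b => FZ n K (e b) :=
      (Measure.pi_map_pi (μ := fun _ : Bool => tenv d q a) (f := fun _ => FZ n K)
        (fun _ => (measurable_FZ n K).aemeasurable)).symm
    rw [e1, integral_map hmZ.aemeasurable hψ.aestronglyMeasurable, ← envC_law,
      integral_map measurable_envC.aemeasurable hψZ.aestronglyMeasurable]
    exact integral_congr_ae (Filter.Eventually.of_forall fun H => hZ H)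
  have hL : ∫ H, f (fun i => Xd H (k i) (x i)) ∂(berLaw (pf (V := TV d) q ae)) =
      ∫ φ, T6psi x k f φ ∂(Measure.pi fun _ : Bool =>
        ((tenv d q ae).prod (bseq ka)).map (FX K)) := by
    have e1 : (Measure.pi fun _ : Bool => ((tenv d q ae).prod (bseq ka)).map (FX (d := d) K)) =
        (Measure.pi fun _ : Bool => (tenv d q ae).prod (bseq ka)).map fun e b => FX K (e b) :=
      (Measure.pi_map_pi (μ := fun _ : Bool => (tenv d q ae).prod (bseq ka))
        (f := fun _ => FX K) (fun _ => (measurable_FX K).aemeasurable)).symm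
    have e2 : ∀ _ : Bool, ((tenv d q ae).prod (bseq ka)).map Prod.fst = tenv d q ae := by
      intro _
      rw [Measure.map_fst_prod, measure_univ, one_smul]
    have e3 : (Measure.pi fun _ : Bool => tenv d q ae) =
        (Measure.pi fun _ : Bool => (tenv d q ae).prod (bseq ka)).map
          fun e b => (e b).1 := by
      have h3 := Measure.pi_map_pi (μ := fun _ : Bool => (tenv d q ae).prod (bseq ka))
        (f := fun _ => Prod.fst) (fun _ => measurable_fst.aemeasurable)
      rw [h3]
      congr 1
      funext b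
      exact (e2 b).symm
    have hm1 : Measurable fun (e : Bool → TE d × (ℕ → Bool)) (b : Bool) => (e b).1 :=
      measurable_pi_lambda _ fun b => measurable_fst.comp (measurable_pi_apply b)
    rw [e1, integral_map hmX.aemeasurable hψ.aestronglyMeasurable]
    have e4 : ∫ e : Bool → TE d × (ℕ → Bool), T6psi x k f (fun b => FX K (e b))
        ∂(Measure.pi fun _ : Bool => (tenv d q ae).prod (bseq ka)) =
        ∫ e : Bool → TE d, T6psi x k f (fun b => FX K (e b, p₀))
          ∂(Measure.pi fun _ : Bool => tenv d q ae) := by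
      rw [e3, integral_map hm1.aemeasurable hψX.aestronglyMeasurable]
      rfl
    rw [e4, ← envF_law,
      integral_map measurable_envF.aemeasurable hψX.aestronglyMeasurable]
    exact integral_congr_ae (Filter.Eventually.of_forall fun H => hX H)
  rw [hL, hR]
  have hpX : IsProbabilityMeasure (((tenv d q ae).prod (bseq ka)).map (FX (d := d) K)) :=
    Measure.isProbabilityMeasure_map (measurable_FX K).aemeasurable
  have hpZ : IsProbabilityMeasure ((tenv d q a).map (FZ (d := d) n K)) :=
    Measure.isProbabilityMeasure_map (measurable_FZ n K).aemeasurable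
  exact Sto.pi (fun _ : Bool => tree_sto hka K hS n) _ (T6psi_mono x k hf) hψ (T6psi_bdd x k f)

end H50CP
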