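import Pool.Agent.H50.CP.D1
import Pool.Agent.H50.CP.D2
import Pool.Agent.H50.CP.D4
import Pool.Agent.H50.CP.D5
import Pool.Agent.H50.CP.T6

/-!
# F1: comparison with explicit errors, for a fixed discretisation

`q = 1 - exp(-1/N)`, `a = 1 - exp(-lam/N)`, `ae = 1 - exp(-A/N)`, errors
`er = Σ_i (k_i q ae + (1-q)^{k_i} + (d a k_i)^{n+1}/(n+1)! + (n+1) d^{n+1} K 2 q a)`.
Chain (`C` = bound of `|f|`):
* pointwise `f (FlipOn …) ≤ f (Xd (hits N T ω) …) + 2 C Σ_i 1_{bad_i}`, where `bad_i` = the event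
  of `prob_fcoll` or of `prob_nodown` for `(k i, x i)` (`flip_det`, `f` monotone);
* the law of `hits N T` (`hits_law`) is `berLaw (pf q ae)`;
* `tree_dom`;
* `f (Zd H …) ≤ f (ZL H n …) + 2 C Σ_i 1{Zd = true, ZL = false}` (`prob_budget`);
* `f (ZL (hits N T ω) n …) ≤ f (Reach …) + 2 C Σ_i 1{Coll}` (`lower_det`, `prob_coll`).
-/

namespace H50CP

open MeasureTheory ProbabilityTheory Set
open scoped NNReal ENNReal Classical

private theorem F1_meas {Ω : Type} [MeasurableSpace Ω] {ι : Type} [Fintype ι]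
    (f : (ι → Bool) → ℝ) {u : Ω → ι → Bool} (hu : ∀ i, Measurable fun ω => u ω i) :
    Measurable fun ω => f (u ω) :=
  (measurable_of_countable f).comp (measurable_pi_iff.2 hu)

private theorem F1_int {Ω : Type} [MeasurableSpace Ω] {μ : Measure Ω} [IsProbabilityMeasure μ]
    {ι : Type} [Fintype ι] (f : (ι → Bool) → ℝ) {C : ℝ} (hC : ∀ v, |f v| ≤ C)
    {u : Ω → ι → Bool} (hu : ∀ i, Measurable fun ω => u ω i) :
    Integrable (fun ω => f (u ω)) μ :=
  Integrable.of_bound (F1_meas f hu).aestronglyMeasurable C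
    (Filter.Eventually.of_forall fun _ => hC _)

/-- one step of the comparison: `u ≤ v` except on the bad events -/
private theorem F1_step {Ω : Type} [MeasurableSpace Ω] {μ : Measure Ω} [IsProbabilityMeasure μ]
    {ι : Type} [Fintype ι] (f : (ι → Bool) → ℝ) (hf : Monotone f) {C : ℝ} (hC : ∀ v, |f v| ≤ C)
    {u v : Ω → ι → Bool} (hu : ∀ i, Measurable fun ω => u ω i)
    (hv : ∀ i, Measurable fun ω => v ω i) (B : ι → Set Ω) (e : ι → ℝ) (he0 : ∀ i, 0 ≤ e i)
    (he : ∀ i, μ (B i) ≤ ENNReal.ofReal (e i))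
    (h : ∀ ω i, u ω i = true → ω ∉ B i → v ω i = true) :
    ∫ ω, f (u ω) ∂μ ≤ ∫ ω, f (v ω) ∂μ + 2 * C * ∑ i, e i := by
  have hC0 : 0 ≤ C := (abs_nonneg _).trans (hC fun _ => true)
  set B' : ι → Set Ω := fun i => toMeasurable μ (B i) with hB'
  have hpt : ∀ ω, f (u ω) ≤ f (v ω) + 2 * C * ∑ i, (B' i).indicator (fun _ => (1 : ℝ)) ω := by
    intro ω
    by_cases hb : ∃ i, ω ∈ B' i
    · obtain ⟨i, hi⟩ := hb
      have h1 : (1 : ℝ) ≤ ∑ i, (B' i).indicator (fun _ => (1 : ℝ)) ω := by
        have h2 : (B' i).indicator (fun _ => (1 : ℝ)) ω = 1 := by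
          rw [indicator_of_mem hi]
        refine h2.symm.le.trans ?_
        exact Finset.single_le_sum (f := fun i => (B' i).indicator (fun _ => (1 : ℝ)) ω)
          (fun j _ => indicator_nonneg (fun _ _ => zero_le_one) ω) (Finset.mem_univ i)
      have h3 := (abs_le.1 (hC (u ω))).2
      have h4 := (abs_le.1 (hC (v ω))).1
      nlinarith
    · push Not at hb
      have h1 : ∑ i, (B' i).indicator (fun _ => (1 : ℝ)) ω = 0 :=
        Finset.sum_eq_zero fun i _ => indicator_of_notMem (hb i) _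
      rw [h1, mul_zero, add_zero]
      refine hf fun i => ?_
      rw [Bool.le_iff_imp]
      exact fun hi => h ω i hi fun hBi => hb i (subset_toMeasurable μ _ hBi)
  have hint : Integrable (fun ω => ∑ i, (B' i).indicator (fun _ => (1 : ℝ)) ω) μ :=
    integrable_finsetSum _ fun i _ =>
      (integrable_const (1 : ℝ)).indicator (measurableSet_toMeasurable μ (B i))
  calc ∫ ω, f (u ω) ∂μ ≤ ∫ ω, (f (v ω) + 2 * C * ∑ i, (B' i).indicator (fun _ => (1 : ℝ)) ω) ∂μ :=
        integral_mono (F1_int f hC hu) ((F1_int f hC hv).add (hint.const_mul _)) hpt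
    _ = ∫ ω, f (v ω) ∂μ + 2 * C * ∑ i, μ.real (B' i) := by
        rw [integral_add (F1_int f hC hv) (hint.const_mul _), integral_const_mul,
          integral_finsetSum _ fun i _ =>
            (integrable_const (1 : ℝ)).indicator (measurableSet_toMeasurable μ (B i))]
        congr 2
        refine Finset.sum_congr rfl fun i _ => ?_
        exact integral_indicator_one (measurableSet_toMeasurable μ (B i))
    _ ≤ _ := by
        gcongr with i
        rw [hB', measureReal_def]
        simp only [measure_toMeasurable]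
        exact ENNReal.toReal_le_of_le_ofReal (he0 i) (he i)

theorem fdd_pre {d : ℕ} (hd : 1 ≤ d) (lam A : ℝ≥0) {ka : ℝ} (hka : 0 ≤ ka ∧ ka ≤ 1)
    (N T n K : ℕ) (hN : 0 < N)
    (hS : Sto (flL (1 - Real.exp (-(1 / N))) (1 - Real.exp (-(A / N))) ka K)
      (chL (1 - Real.exp (-(1 / N))) (1 - (1 - ka) ^ d) (1 - Real.exp (-(lam / N))) K))
    {ι : Type} [Fintype ι] (x : ι → TV d) (k : ι → ℕ) (hk : ∀ i, k i ≤ K)
    (f : (ι → Bool) → ℝ) (hf : Monotone f) (C : ℝ) (hC : ∀ v, |f v| ≤ C) :
    ∫ ω, f (fun i => decide (FlipOn ω (x i) (tm N T (k i)))) ∂(flipLaw (TV d) A) ≤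
      ∫ ω, f (fun i => decide (Reach (tree d) ω (tm N T 0) (x i) (tm N T (k i))))
        ∂(contactLaw (TV d) lam) +
      2 * C * ∑ i, (k i * ((1 - Real.exp (-(1 / N))) * (1 - Real.exp (-(A / N)))) +
        (1 - (1 - Real.exp (-(1 / (N : ℝ))))) ^ (k i) +
        (d * (1 - Real.exp (-(lam / N))) * k i) ^ (n + 1) / (n + 1).factorial +
        (n + 1) * d ^ (n + 1) * K * (2 * (1 - Real.exp (-(1 / N))) *
          (1 - Real.exp (-(lam / N))))) := by
  have hexp : ∀ r : ℝ≥0, 0 ≤ 1 - Real.exp (-((r : ℝ) / N)) ∧ 1 - Real.exp (-((r : ℝ) / N)) ≤ 1 := by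
    intro r
    have h1 : Real.exp (-((r : ℝ) / N)) ≤ 1 := by
      rw [Real.exp_le_one_iff]
      have : 0 ≤ (r : ℝ) / N := by positivity
      linarith
    have h2 := Real.exp_pos (-((r : ℝ) / N))
    constructor <;> linarith
  set q : ℝ := 1 - Real.exp (-(1 / N)) with hq
  set a : ℝ := 1 - Real.exp (-(lam / N)) with ha
  set ae : ℝ := 1 - Real.exp (-(A / N)) with hae
  have hq01 : 0 ≤ q ∧ q ≤ 1 := by
    have := hexp 1
    simpa [hq] using this
  have ha01 : 0 ≤ a ∧ a ≤ 1 := hexp lam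
  have hae01 : 0 ≤ ae ∧ ae ≤ 1 := hexp A
  -- laws of the slot variables
  have hlawF : (flipLaw (TV d) A).map (fun ω => hits N T ω) = berLaw (pf (V := TV d) q ae) := by
    unfold flipLaw
    rw [hits_law _ N T hN]
    congr 1
    funext i
    rcases i with i | i <;> simp [pf, hq, hae]
  have hlawC : (contactLaw (TV d) lam).map (fun ω => hits N T ω) =
      berLaw (pc (V := TV d) q a) := by
    unfold contactLaw
    rw [hits_law _ N T hN]
    congr 1
    funext i
    rcases i with i | i <;> simp [pc, hq, ha]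
  have hmF : Measurable (fun ω : FΩ (TV d) => hits N T ω) := measurable_hits N T
  have hmC : Measurable (fun ω : CΩ (TV d) => hits N T ω) := measurable_hits N T
  have : IsProbabilityMeasure (flipLaw (TV d) A) := by unfold flipLaw; infer_instance
  have : IsProbabilityMeasure (contactLaw (TV d) lam) := by unfold contactLaw; infer_instance
  have hmd : ∀ {Ω : Type} [MeasurableSpace Ω] {P : Ω → Prop} (_ : MeasurableSet {ω | P ω}),
      Measurable fun ω => decide (P ω) := by
    intro Ω _ P hP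
    refine measurable_to_bool ?_
    have : (fun ω => decide (P ω)) ⁻¹' {true} = {ω | P ω} := by ext ω; simp
    rw [this]
    exact hP
  -- step 1
  have s1 : ∫ ω, f (fun i => decide (FlipOn ω (x i) (tm N T (k i)))) ∂(flipLaw (TV d) A) ≤
      ∫ ω, f (fun i => Xd (hits N T ω) (k i) (x i)) ∂(flipLaw (TV d) A) +
        2 * C * ∑ i, (k i * (q * ae) + (1 - q) ^ (k i)) := by
    refine F1_step f hf hC (fun i => hmd (measurableSet_flip _ _))
      (fun i => (measurable_Xd (k i) (x i)).comp hmF)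
      (fun i => (fun ω => hits N T ω) ⁻¹' ({H : (TV d ⊕ TV d) → ℕ → Bool |
        ∃ j, j < k i ∧ H (Sum.inl (x i)) j = true ∧ H (Sum.inr (x i)) j = true} ∪
        {H : (TV d ⊕ TV d) → ℕ → Bool | ∀ j, j < k i → H (Sum.inl (x i)) j = false}))
      _ (fun i => ?_) (fun i => ?_) (fun ω i h1 h2 => ?_)
    · have := hq01.1
      have := hae01.1
      have : 0 ≤ 1 - q := by linarith [hq01.2]
      positivity
    · refine (Measure.le_map_apply hmF.aemeasurable _).trans ?_
      rw [hlawF]
      refine (measure_union_le _ _).trans ?_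
      rw [ENNReal.ofReal_add (by
        have := hq01.1
        have := hae01.1
        positivity) (pow_nonneg (by linarith [hq01.2]) _)]
      exact add_le_add (prob_fcoll hq01.1 hq01.2 hae01.1 hae01.2 _ _)
        (prob_nodown hq01.1 hq01.2 _ _).le
    · simp only [mem_preimage, mem_union, mem_ofPred_eq, not_or] at h2
      obtain ⟨h3, h4⟩ := h2
      push Not at h3 h4
      refine flip_det ω N T (k i) hN (x i) (fun j hj hh => h3 j hj hh.1 hh.2) ?_ (by simpa using h1)
      obtain ⟨j, hj, hj'⟩ := h4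
      exact ⟨j, hj, by simpa using hj'⟩
  -- step 2
  have s2 : ∫ ω, f (fun i => Xd (hits N T ω) (k i) (x i)) ∂(flipLaw (TV d) A) =
      ∫ H, f (fun i => Xd H (k i) (x i)) ∂(berLaw (pf (V := TV d) q ae)) := by
    rw [← hlawF, integral_map hmF.aemeasurable
      (F1_meas f fun i => measurable_Xd (k i) (x i)).aestronglyMeasurable]
  -- step 4
  have s4 : ∫ H, f (fun i => Zd H (k i) (x i)) ∂(berLaw (pc (V := TV d) q a)) ≤
      ∫ H, f (fun i => ZL H n (k i) (x i)) ∂(berLaw (pc (V := TV d) q a)) +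
        2 * C * ∑ i, ((d * a * k i) ^ (n + 1) / (n + 1).factorial) := by
    refine F1_step f hf hC (fun i => measurable_Zd (k i) (x i))
      (fun i => measurable_ZL n (k i) (x i))
      (fun i => {H | Zd H (k i) (x i) = true ∧ ZL H n (k i) (x i) = false})
      _ (fun i => ?_) (fun i => prob_budget hq01.1 hq01.2 ha01.1 ha01.2 n (k i) (x i))
      (fun H i h1 h2 => ?_)
    · have := ha01.1
      positivity
    · simp only [mem_ofPred_eq, not_and] at h2
      simpa using h2 h1
  -- step 5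
  have s5 : ∫ H, f (fun i => ZL H n (k i) (x i)) ∂(berLaw (pc (V := TV d) q a)) =
      ∫ ω, f (fun i => ZL (hits N T ω) n (k i) (x i)) ∂(contactLaw (TV d) lam) := by
    rw [← hlawC, integral_map hmC.aemeasurable
      (F1_meas f fun i => measurable_ZL n (k i) (x i)).aestronglyMeasurable]
  have s6 : ∫ ω, f (fun i => ZL (hits N T ω) n (k i) (x i)) ∂(contactLaw (TV d) lam) ≤
      ∫ ω, f (fun i => decide (Reach (tree d) ω (tm N T 0) (x i) (tm N T (k i))))
        ∂(contactLaw (TV d) lam) +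
        2 * C * ∑ _i : ι, ((n + 1) * d ^ (n + 1) * K * (2 * q * a)) := by
    refine F1_step f hf hC (fun i => (measurable_ZL n (k i) (x i)).comp hmC)
      (fun i => hmd (measurableSet_reach _ _ _ _))
      (fun i => (fun ω => hits N T ω) ⁻¹' {H | Coll H n K (x i)})
      _ (fun i => ?_) (fun i => ?_) (fun ω i h1 h2 => ?_)
    · have := hq01.1
      have := ha01.1
      positivity
    · refine (Measure.le_map_apply hmC.aemeasurable _).trans ?_
      rw [hlawC]
      exact prob_coll hd hq01.1 hq01.2 ha01.1 ha01.2 n K (x i)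
    · simp only [mem_preimage, mem_ofPred_eq] at h2
      simpa using lower_det ω N T n K hN (x i) h2 (k i) (hk i) h1
  have s3 := tree_dom (q := q) (a := a) (ae := ae) hka K hS x k hk f hf
  rw [s2] at s1
  rw [s5] at s4
  have hsum : 2 * C * ∑ i, (k i * (q * ae) + (1 - q) ^ (k i) +
        (d * a * k i) ^ (n + 1) / (n + 1).factorial +
        (n + 1) * d ^ (n + 1) * K * (2 * q * a)) =
      2 * C * ∑ i, (k i * (q * ae) + (1 - q) ^ (k i)) +
        2 * C * ∑ i, ((d * a * k i) ^ (n + 1) / (n + 1).factorial) +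
        2 * C * ∑ _i : ι, ((n + 1) * d ^ (n + 1) * K * (2 * q * a)) := by
    rw [← mul_add, ← mul_add, ← Finset.sum_add_distrib, ← Finset.sum_add_distrib]
  rw [hsum]
  linarith

end H50CP
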