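import Pool.Agent.H50.CP.SDefs

/-!
# SE: existence of the parameters

`N = n+1` slots per unit of time.  Choose (all constants, before `N`):
* `h1 = 1+δ`, `h2 = 1+2δ` with `h2 < lam (d-1)`;
* `x > 1/lam` and `δ' > 0` with `(1-δ') d / x > lam + h2` (possible: `d lam > lam + h2`);
* `kh > 0` small: `1/(lam-kh) < x`, `(1-δ') d / x > lam + h2 + h2 kh x / ph`, `6 kh/(lam-kh) < exp(-lam)`,
  where `ph = exp(-lam)/16`; `et = kh x`; `bh = (1-δ') d kh`;
* `Ca = 2 h2`;
* `A > 0` very small (depending on everything else).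
Then `c1 = h1/N`, `c2 = h2/N`, `b = bh/N`, `al = tau = A/N`, `q = 1-exp(-1/N)`, `a = 1-exp(-lam/N)`,
`ka = kh/N`, `be = 1-(1-ka)^d`, `K1 = 3 q tau Ca / om^(n+2)`, `K2 = 6 al/(om^(n+2) (n+2))`,
`Kh = (K1+K2) om/((1-al)(1-b) c1)`; the final `al` of the statement is `A`
(`1 - exp(-A/N) ≤ A/N`).
All conditions hold for `N` large: multiply by the right power of `N` and compare limits, with
`E = exp(-(A+h2))` (= lim `om^(n+1)` = lim `om^(n+2)`), lim `N q = 1`, lim `N a = lam`,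
lim `N be = d kh`, lim `N th0 = A exp A`, lim `N^2 K1 = 3 A Ca/E`, lim `N^2 K2 = 6 A/E`,
lim `N Kh = (3Ca+6) A/(E h1)`, lim `N kap0 = (3Ca+6) A exp(bh+A)/(E h1) =: A k`:
* g1 (×N): `h2+A-1 < Ca (1-A)`;            g2 (×N): `A exp A < Ca (h2-h1)`;
* g3, g4, g12: equalities;
* g5 (×N²): `A exp A/E < (h1-1)(h2-h1-A/E)`;
* g6 (×N²): `h1 A exp A + (3Ca+6) A/E² < Ca bh h1`;
* g7 (×N³): `(h1 A exp A + (3Ca+6) A/E²)/E < (h1-1) bh h1`;
* g8 (×N): `A exp A + A k/E < Ca bh`;       g9 (×N²): `(A exp A + A k/E)/E < (h1-1) bh`;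
* g10 (×N²): `h1 A exp A + (3Ca+6)A/E < (d kh - bh) h1`;   g11 (×N): `bh + A exp A + A k < d kh`;
* GoodB.h1 (subtract 1, ×N): `- bh/et + h2 et/ph < - lam - h2`; h2: `c2 → 0`;
  h3: `kh/(lam-kh) < et`; h4, ph8: `(1-a)^n = exp(-lam n/N) ≥ exp(-lam)`.
-/

namespace H50CP

open Finset Filter Topology

private lemma SE_cdiv (c : ℝ) : Tendsto (fun N : ℕ => c / (N : ℝ)) atTop (𝓝 0) :=
  tendsto_const_div_atTop_nhds_zero_nat c

private lemma SE_ncdiv (c : ℝ) : Tendsto (fun N : ℕ => (N : ℝ) * (c / (N : ℝ))) atTop (𝓝 c) := by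
  refine tendsto_const_nhds.congr' ?_
  filter_upwards [eventually_gt_atTop 0] with N hN
  have : (N : ℝ) ≠ 0 := by positivity
  field_simp

private lemma SE_oneSub (c : ℝ) : Tendsto (fun N : ℕ => 1 - c / (N : ℝ)) atTop (𝓝 1) := by
  have := (tendsto_const_nhds (x := (1 : ℝ)) (f := atTop (α := ℕ))).sub (SE_cdiv c)
  simpa using this

private lemma SE_pow (c : ℝ) :
    Tendsto (fun N : ℕ => (1 - c / (N : ℝ)) ^ N) atTop (𝓝 (Real.exp (-c))) := by
  refine (Real.tendsto_one_add_div_pow_exp (-c)).congr (fun N => ?_)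
  congr 1
  ring

private lemma SE_expo (c : ℝ) :
    Tendsto (fun N : ℕ => (N : ℝ) * (1 - Real.exp (-(c / (N : ℝ))))) atTop (𝓝 c) := by
  have h1 : Tendsto (fun N : ℕ => c - c ^ 2 / (N : ℝ)) atTop (𝓝 c) := by
    have := (tendsto_const_nhds (x := c) (f := atTop (α := ℕ))).sub (SE_cdiv (c ^ 2))
    simpa using this
  have h2 : Tendsto (fun N : ℕ => c + c ^ 2 / (N : ℝ)) atTop (𝓝 c) := by
    have := (tendsto_const_nhds (x := c) (f := atTop (α := ℕ))).add (SE_cdiv (c ^ 2))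
    simpa using this
  have h3 : ∀ᶠ N : ℕ in atTop, |c / (N : ℝ)| < 1 := by
    have := (SE_cdiv c).abs
    rw [abs_zero] at this
    exact this.eventually (gt_mem_nhds one_pos)
  have key : ∀ᶠ N : ℕ in atTop, c - c ^ 2 / (N : ℝ) ≤
      (N : ℝ) * (1 - Real.exp (-(c / (N : ℝ)))) ∧
      (N : ℝ) * (1 - Real.exp (-(c / (N : ℝ)))) ≤ c + c ^ 2 / (N : ℝ) := by
    filter_upwards [h3, eventually_gt_atTop 0] with N hN hN0
    have hNp : (0 : ℝ) < N := by exact_mod_cast hN0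
    have hb := Real.abs_exp_sub_one_sub_id_le (x := -(c / (N : ℝ))) (by rw [abs_neg]; exact hN.le)
    rw [abs_le] at hb
    have e1 : (N : ℝ) * (c / N) = c := by field_simp
    have e2 : (N : ℝ) * (-(c / (N : ℝ))) ^ 2 = c ^ 2 / N := by field_simp
    constructor
    · have := mul_le_mul_of_nonneg_left hb.2 hNp.le
      rw [e2] at this
      nlinarith [e1]
    · have := mul_le_mul_of_nonneg_left hb.1 hNp.le
      rw [mul_neg, e2] at this
      nlinarith [e1]
  exact tendsto_of_tendsto_of_tendsto_of_le_of_le' h1 h2 (key.mono fun _ h => h.1)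
    (key.mono fun _ h => h.2)

private lemma SE_be (kh : ℝ) (d : ℕ) :
    Tendsto (fun N : ℕ => (N : ℝ) * (1 - (1 - kh / (N : ℝ)) ^ d)) atTop (𝓝 (d * kh)) := by
  have h1 : ∀ N : ℕ, (N : ℝ) * (1 - (1 - kh / (N : ℝ)) ^ d) =
      ((N : ℝ) * (kh / N)) * ∑ i ∈ range d, (1 - kh / (N : ℝ)) ^ i := by
    intro N
    rw [← mul_neg_geom_sum]
    ring
  have h2 : Tendsto (fun N : ℕ => ∑ i ∈ range d, (1 - kh / (N : ℝ)) ^ i) atTop (𝓝 (d : ℝ)) := by
    have : Tendsto (fun N : ℕ => ∑ i ∈ range d, (1 - kh / (N : ℝ)) ^ i) atTop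
        (𝓝 (∑ i ∈ range d, (1 : ℝ) ^ i)) :=
      tendsto_finsetSum _ (fun i _ => (SE_oneSub kh).pow i)
    simpa using this
  have h3 := (SE_ncdiv kh).mul h2
  rw [mul_comm] at h3
  exact h3.congr (fun N => (h1 N).symm)

private lemma SE_le {u v : ℕ → ℝ} {U V : ℝ} (k : ℕ)
    (hu : Tendsto (fun N : ℕ => (N : ℝ) ^ k * u N) atTop (𝓝 U))
    (hv : Tendsto (fun N : ℕ => (N : ℝ) ^ k * v N) atTop (𝓝 V)) (h : U < V) :
    ∀ᶠ N : ℕ in atTop, u N ≤ v N := by
  filter_upwards [hu.eventually_lt hv h, eventually_gt_atTop 0] with N hN hN0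
  have hNp : (0 : ℝ) < (N : ℝ) ^ k := by positivity
  exact le_of_lt (lt_of_mul_lt_mul_left hN hNp.le)

/-- the inequalities between the limits -/
private structure SELim (lam h1 h2 bh kh A Ca : ℝ) (d : ℕ) : Prop where
  g1 : h2 + A - 1 < Ca * (1 - A)
  g2 : A * Real.exp A < Ca * (h2 - h1)
  g5 : A * Real.exp A / Real.exp (-(A + h2)) <
    (h1 - 1) * (h2 - h1 - A / Real.exp (-(A + h2)))
  g6 : h1 * (A * Real.exp A) + (3 * A * Ca + 6 * A) / Real.exp (-(A + h2)) /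
    Real.exp (-(A + h2)) < Ca * bh * h1
  g7 : (h1 * (A * Real.exp A) + (3 * A * Ca + 6 * A) / Real.exp (-(A + h2)) /
    Real.exp (-(A + h2))) / Real.exp (-(A + h2)) < (h1 - 1) * bh * h1
  g8 : A * Real.exp A + (3 * A * Ca + 6 * A) / Real.exp (-(A + h2)) / h1 /
    Real.exp (-(bh + A)) / Real.exp (-(A + h2)) < Ca * bh
  g9 : (A * Real.exp A + (3 * A * Ca + 6 * A) / Real.exp (-(A + h2)) / h1 /
    Real.exp (-(bh + A)) / Real.exp (-(A + h2))) / Real.exp (-(A + h2)) < (h1 - 1) * bh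
  g10 : h1 * (A * Real.exp A) + (3 * A * Ca + 6 * A) / Real.exp (-(A + h2)) <
    (d * kh - bh) * h1
  g11 : bh + A * Real.exp A + (3 * A * Ca + 6 * A) / Real.exp (-(A + h2)) / h1 /
    Real.exp (-(bh + A)) < d * kh

private lemma SE_lim_exists (lam h1 h2 bh kh Ca : ℝ) (d : ℕ) (hh1 : 1 < h1) (h12 : h1 < h2)
    (hbh : 0 < bh) (hbk : bh < d * kh) (hCa : Ca = 2 * h2) :
    ∃ A : ℝ, 0 < A ∧ A < 1 ∧ SELim lam h1 h2 bh kh A Ca d := by
  have hC0 : 0 < Ca := by rw [hCa]; linarith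
  have key : ∀ (u v : ℝ → ℝ), Continuous u → Continuous v → u 0 < v 0 →
      ∀ᶠ A : ℝ in 𝓝[>] 0, u A < v A := by
    intro u v hu hv h
    exact (((hu.tendsto 0).eventually_lt (hv.tendsto 0) h)).filter_mono nhdsWithin_le_nhds
  have hne : ∀ x : ℝ, Real.exp x ≠ 0 := fun x => (Real.exp_pos x).ne'
  have hh1' : h1 ≠ 0 := by linarith
  have c1 : Continuous fun A : ℝ => Real.exp (-(A + h2)) := by fun_prop
  have c2 : Continuous fun A : ℝ => Real.exp (-(bh + A)) := by fun_prop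
  have c3 : Continuous fun A : ℝ => A * Real.exp A := by fun_prop
  have c4 : Continuous fun A : ℝ => (3 * A * Ca + 6 * A) / Real.exp (-(A + h2)) :=
    (by fun_prop : Continuous fun A : ℝ => 3 * A * Ca + 6 * A).div c1 (fun _ => hne _)
  have e1 := key (fun A => h2 + A - 1) (fun A => Ca * (1 - A)) (by fun_prop) (by fun_prop)
    (by simp only [hCa]; linarith)
  have e2 := key (fun A => A * Real.exp A) (fun _ => Ca * (h2 - h1)) c3 (by fun_prop)
    (by simp only [zero_mul]; exact mul_pos hC0 (by linarith))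
  have e5 := key (fun A => A * Real.exp A / Real.exp (-(A + h2)))
    (fun A => (h1 - 1) * (h2 - h1 - A / Real.exp (-(A + h2)))) (c3.div c1 (fun _ => hne _))
    (continuous_const.mul (continuous_const.sub (continuous_id.div c1 (fun _ => hne _))))
    (by simp only [zero_mul, zero_div, sub_zero]; exact mul_pos (by linarith) (by linarith))
  have e6 := key (fun A => h1 * (A * Real.exp A) + (3 * A * Ca + 6 * A) / Real.exp (-(A + h2)) /
    Real.exp (-(A + h2))) (fun _ => Ca * bh * h1)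
    ((continuous_const.mul c3).add (c4.div c1 (fun _ => hne _))) (by fun_prop)
    (by simp only [zero_mul, mul_zero, zero_div, add_zero]; positivity)
  have e7 := key (fun A => (h1 * (A * Real.exp A) + (3 * A * Ca + 6 * A) / Real.exp (-(A + h2)) /
    Real.exp (-(A + h2))) / Real.exp (-(A + h2))) (fun _ => (h1 - 1) * bh * h1)
    (((continuous_const.mul c3).add (c4.div c1 (fun _ => hne _))).div c1 (fun _ => hne _))
    (by fun_prop)
    (by
      simp only [zero_mul, mul_zero, zero_div, add_zero]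
      exact mul_pos (mul_pos (by linarith) hbh) (by linarith))
  have c5 : Continuous fun A : ℝ => (3 * A * Ca + 6 * A) / Real.exp (-(A + h2)) / h1 /
      Real.exp (-(bh + A)) := (c4.div_const h1).div c2 (fun _ => hne _)
  have e8 := key (fun A => A * Real.exp A + (3 * A * Ca + 6 * A) / Real.exp (-(A + h2)) / h1 /
    Real.exp (-(bh + A)) / Real.exp (-(A + h2))) (fun _ => Ca * bh)
    (c3.add (c5.div c1 (fun _ => hne _))) (by fun_prop)
    (by simp only [zero_mul, mul_zero, zero_div, add_zero]; positivity)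
  have e9 := key (fun A => (A * Real.exp A + (3 * A * Ca + 6 * A) / Real.exp (-(A + h2)) / h1 /
    Real.exp (-(bh + A)) / Real.exp (-(A + h2))) / Real.exp (-(A + h2)))
    (fun _ => (h1 - 1) * bh)
    ((c3.add (c5.div c1 (fun _ => hne _))).div c1 (fun _ => hne _)) (by fun_prop)
    (by
      simp only [zero_mul, mul_zero, zero_div, add_zero]
      exact mul_pos (by linarith) hbh)
  have e10 := key (fun A => h1 * (A * Real.exp A) + (3 * A * Ca + 6 * A) / Real.exp (-(A + h2)))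
    (fun _ => (d * kh - bh) * h1) ((continuous_const.mul c3).add c4) (by fun_prop)
    (by
      simp only [zero_mul, mul_zero, zero_div, add_zero]
      exact mul_pos (by linarith) (by linarith))
  have e11 := key (fun A => bh + A * Real.exp A + (3 * A * Ca + 6 * A) / Real.exp (-(A + h2)) /
    h1 / Real.exp (-(bh + A))) (fun _ => d * kh) ((continuous_const.add c3).add c5) (by fun_prop)
    (by simp only [zero_mul, mul_zero, zero_div, add_zero]; linarith)
  have e0 : ∀ᶠ A : ℝ in 𝓝[>] 0, 0 < A := self_mem_nhdsWithin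
  have e00 := key (fun A => A) (fun _ => 1) (by fun_prop) (by fun_prop) one_pos
  obtain ⟨A, ⟨h0, h00, f1, f2, f5, f6, f7, f8, f9, f10, f11⟩⟩ :=
    (e0.and (e00.and (e1.and (e2.and (e5.and (e6.and (e7.and (e8.and
      (e9.and (e10.and e11)))))))))).exists
  exact ⟨A, h0, h00, ⟨f1, f2, f5, f6, f7, f8, f9, f10, f11⟩⟩

private noncomputable def SEq (N : ℕ) : ℝ := 1 - Real.exp (-(1 / (N : ℝ)))
private noncomputable def SEom (h2 A : ℝ) (N : ℕ) : ℝ := (1 - A / N) * (1 - h2 / N)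
private noncomputable def SEth (A : ℝ) (N : ℕ) : ℝ := (A / N) / (1 - A / N) ^ N
private noncomputable def SEK1 (h2 A Ca : ℝ) (N : ℕ) : ℝ :=
  3 * SEq N * (A / N) * Ca / SEom h2 A N ^ (N + 1)
private noncomputable def SEK2 (h2 A : ℝ) (N : ℕ) : ℝ :=
  6 * (A / N) / (SEom h2 A N ^ (N + 1) * ((N : ℝ) + 1))
private noncomputable def SEKh (h1 h2 bh A Ca : ℝ) (N : ℕ) : ℝ :=
  (SEK1 h2 A Ca N + SEK2 h2 A N) * SEom h2 A N / ((1 - A / N) * (1 - bh / N) * (h1 / N))
private noncomputable def SEkap (h1 h2 bh A Ca : ℝ) (N : ℕ) : ℝ :=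
  SEKh h1 h2 bh A Ca N / ((1 - bh / N) * (1 - A / N)) ^ N

private lemma SE_q : Tendsto (fun N : ℕ => (N : ℝ) * SEq N) atTop (𝓝 1) := SE_expo 1

private lemma SE_q0 : Tendsto (fun N : ℕ => SEq N) atTop (𝓝 0) := by
  have h : Tendsto (fun N : ℕ => 1 - Real.exp (-(1 / (N : ℝ)))) atTop
      (𝓝 (1 - Real.exp (-0))) :=
    tendsto_const_nhds.sub ((Real.continuous_exp.tendsto _).comp (SE_cdiv 1).neg)
  simpa [SEq] using h

private lemma SE_om (h2 A : ℝ) : Tendsto (fun N : ℕ => SEom h2 A N) atTop (𝓝 1) := by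
  have := (SE_oneSub A).mul (SE_oneSub h2)
  simpa [SEom] using this

private lemma SE_omN (h2 A : ℝ) :
    Tendsto (fun N : ℕ => SEom h2 A N ^ N) atTop (𝓝 (Real.exp (-(A + h2)))) := by
  have h := (SE_pow A).mul (SE_pow h2)
  rw [← Real.exp_add, ← neg_add] at h
  exact h.congr (fun N => by rw [SEom, mul_pow])

private lemma SE_omN1 (h2 A : ℝ) :
    Tendsto (fun N : ℕ => SEom h2 A N ^ (N + 1)) atTop (𝓝 (Real.exp (-(A + h2)))) := by
  have h := (SE_omN h2 A).mul (SE_om h2 A)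
  rw [mul_one] at h
  exact h.congr (fun N => by rw [pow_succ])

private lemma SE_th (A : ℝ) :
    Tendsto (fun N : ℕ => (N : ℝ) * SEth A N) atTop (𝓝 (A * Real.exp A)) := by
  have h := (SE_ncdiv A).div (SE_pow A) (Real.exp_pos _).ne'
  rw [Real.exp_neg, div_inv_eq_mul] at h
  exact h.congr (fun N => by simp only [SEth, Pi.div_apply]; ring)

private lemma SE_K1 (h2 A Ca : ℝ) :
    Tendsto (fun N : ℕ => (N : ℝ) ^ 2 * SEK1 h2 A Ca N) atTop
      (𝓝 (3 * A * Ca / Real.exp (-(A + h2)))) := by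
  have h := ((((tendsto_const_nhds (x := (3 : ℝ)) (f := atTop (α := ℕ))).mul SE_q).mul
    (SE_ncdiv A)).mul_const Ca).div (SE_omN1 h2 A) (Real.exp_pos _).ne'
  rw [mul_one] at h
  exact h.congr (fun N => by simp only [SEK1, Pi.div_apply]; ring)

private lemma SE_K2 (h2 A : ℝ) :
    Tendsto (fun N : ℕ => (N : ℝ) ^ 2 * SEK2 h2 A N) atTop
      (𝓝 (6 * A / Real.exp (-(A + h2)))) := by
  have h0 : Tendsto (fun N : ℕ => (N : ℝ) / ((N : ℝ) + 1)) atTop (𝓝 1) :=
    tendsto_natCast_div_add_atTop 1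
  have h := (((tendsto_const_nhds (x := (6 : ℝ)) (f := atTop (α := ℕ))).mul
    (SE_ncdiv A)).div (SE_omN1 h2 A) (Real.exp_pos _).ne').mul h0
  rw [mul_one] at h
  refine h.congr (fun N => ?_)
  simp only [SEK2, Pi.div_apply, div_eq_mul_inv, mul_inv]
  ring

private lemma SE_K (h2 A Ca : ℝ) :
    Tendsto (fun N : ℕ => (N : ℝ) ^ 2 * (SEK1 h2 A Ca N + SEK2 h2 A N)) atTop
      (𝓝 ((3 * A * Ca + 6 * A) / Real.exp (-(A + h2)))) := by
  have h := (SE_K1 h2 A Ca).add (SE_K2 h2 A)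
  rw [← add_div] at h
  exact h.congr (fun N => by ring)

private lemma SE_Kh (h1 h2 bh A Ca : ℝ) :
    Tendsto (fun N : ℕ => (N : ℝ) * SEKh h1 h2 bh A Ca N) atTop
      (𝓝 ((3 * A * Ca + 6 * A) / Real.exp (-(A + h2)) / h1)) := by
  have h := (((SE_K h2 A Ca).mul (SE_om h2 A)).div
    ((SE_oneSub A).mul (SE_oneSub bh)) (by norm_num)).div_const h1
  have e : (3 * A * Ca + 6 * A) / Real.exp (-(A + h2)) * 1 / (1 * 1) / h1 =
      (3 * A * Ca + 6 * A) / Real.exp (-(A + h2)) / h1 := by ring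
  rw [e] at h
  exact h.congr (fun N => by
    simp only [SEKh, Pi.div_apply, div_eq_mul_inv, mul_inv, inv_inv]
    ring)

private lemma SE_kap (h1 h2 bh A Ca : ℝ) :
    Tendsto (fun N : ℕ => (N : ℝ) * SEkap h1 h2 bh A Ca N) atTop
      (𝓝 ((3 * A * Ca + 6 * A) / Real.exp (-(A + h2)) / h1 / Real.exp (-(bh + A)))) := by
  have h0 : Tendsto (fun N : ℕ => ((1 - bh / N) * (1 - A / N)) ^ N) atTop
      (𝓝 (Real.exp (-(bh + A)))) := by
    have h := (SE_pow bh).mul (SE_pow A)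
    rw [← Real.exp_add, ← neg_add] at h
    exact h.congr (fun N => by rw [mul_pow])
  have h := (SE_Kh h1 h2 bh A Ca).div h0 (Real.exp_pos _).ne'
  exact h.congr (fun N => by
    simp only [SEkap, Pi.div_apply, div_eq_mul_inv]
    ring)

private lemma SE_g1 {h2 A Ca : ℝ} (h : h2 + A - 1 < Ca * (1 - A)) :
    ∀ᶠ N : ℕ in atTop, 1 - SEq N - SEom h2 A N ≤ Ca * SEq N * (1 - A) := by
  refine SE_le 1 (U := h2 + A - 1) (V := Ca * (1 - A)) ?_ ?_ h
  · have h1 := (((SE_ncdiv h2).add (SE_ncdiv A)).sub ((SE_ncdiv A).mul (SE_cdiv h2))).sub SE_q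
    have e : h2 + A - A * 0 - 1 = h2 + A - 1 := by ring
    rw [e] at h1
    exact h1.congr (fun N => by simp only [SEom]; ring)
  · have h1 := ((SE_q.const_mul Ca)).mul_const (1 - A)
    rw [mul_one] at h1
    exact h1.congr (fun N => by ring)

private lemma SE_g2 {h1 h2 A Ca : ℝ} (h : A * Real.exp A < Ca * (h2 - h1)) :
    ∀ᶠ N : ℕ in atTop, SEth A N * (1 - h1 / N) ≤ Ca * (1 - A / N) * (h2 / N - h1 / N) := by
  refine SE_le 1 (U := A * Real.exp A) (V := Ca * (h2 - h1)) ?_ ?_ h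
  · have h3 := (SE_th A).mul (SE_oneSub h1)
    rw [mul_one] at h3
    exact h3.congr (fun N => by ring)
  · have h3 := ((SE_oneSub A).const_mul Ca).mul ((SE_ncdiv h2).sub (SE_ncdiv h1))
    rw [mul_one] at h3
    exact h3.congr (fun N => by ring)

private lemma SE_g5 {h1 h2 A : ℝ} (h : A * Real.exp A / Real.exp (-(A + h2)) <
    (h1 - 1) * (h2 - h1 - A / Real.exp (-(A + h2)))) :
    ∀ᶠ N : ℕ in atTop, SEq N / SEom h2 A N ^ N * SEth A N * (1 - h1 / N) ≤
      (h1 / N - SEq N) * ((1 - A / N) * (1 - h1 / N) - SEom h2 A N -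
        (A / N) / SEom h2 A N ^ N) := by
  refine SE_le 2 ?_ ?_ h
  · have h3 := ((SE_q.div (SE_omN h2 A) (Real.exp_pos _).ne').mul (SE_th A)).mul (SE_oneSub h1)
    have e : 1 / Real.exp (-(A + h2)) * (A * Real.exp A) * 1 =
        A * Real.exp A / Real.exp (-(A + h2)) := by ring
    rw [e] at h3
    exact h3.congr (fun N => by simp only [Pi.div_apply]; ring)
  · have h3 := ((SE_ncdiv h1).sub SE_q).mul
      ((((SE_oneSub A).mul ((SE_ncdiv h2).sub (SE_ncdiv h1)))).sub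
        ((SE_ncdiv A).div (SE_omN h2 A) (Real.exp_pos _).ne'))
    rw [one_mul] at h3
    refine h3.congr (fun N => ?_)
    simp only [Pi.div_apply]
    generalize SEom h2 A N ^ N = W
    simp only [SEom]
    ring

private lemma SE_g6 {h1 h2 bh A Ca : ℝ} (h : h1 * (A * Real.exp A) +
    (3 * A * Ca + 6 * A) / Real.exp (-(A + h2)) / Real.exp (-(A + h2)) < Ca * bh * h1) :
    ∀ᶠ N : ℕ in atTop, (h1 / N) * SEth A N + (SEK1 h2 A Ca N + SEK2 h2 A N) * SEom h2 A N /
      SEom h2 A N ^ N ≤ Ca * (1 - A / N) * (bh / N) * (h1 / N) := by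
  refine SE_le 2 ?_ ?_ h
  · have h3 := ((SE_ncdiv h1).mul (SE_th A)).add
      (((SE_K h2 A Ca).mul (SE_om h2 A)).div (SE_omN h2 A) (Real.exp_pos _).ne')
    rw [mul_one] at h3
    refine h3.congr (fun N => ?_)
    simp only [Pi.div_apply]
    ring
  · have h3 := (((SE_oneSub A).const_mul Ca).mul (SE_ncdiv bh)).mul (SE_ncdiv h1)
    rw [mul_one] at h3
    exact h3.congr (fun N => by ring)

private lemma SE_g7 {h1 h2 bh A Ca : ℝ} (h : (h1 * (A * Real.exp A) +
    (3 * A * Ca + 6 * A) / Real.exp (-(A + h2)) / Real.exp (-(A + h2))) /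
    Real.exp (-(A + h2)) < (h1 - 1) * bh * h1) :
    ∀ᶠ N : ℕ in atTop, SEq N / SEom h2 A N ^ N * ((h1 / N) * SEth A N +
      (SEK1 h2 A Ca N + SEK2 h2 A N) * SEom h2 A N / SEom h2 A N ^ N) ≤
      (h1 / N - SEq N) * (1 - A / N) * (bh / N) * (h1 / N) := by
  refine SE_le 3 ?_ ?_ h
  · have h3 := (SE_q.div (SE_omN h2 A) (Real.exp_pos _).ne').mul
      (((SE_ncdiv h1).mul (SE_th A)).add
      (((SE_K h2 A Ca).mul (SE_om h2 A)).div (SE_omN h2 A) (Real.exp_pos _).ne'))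
    rw [mul_one, one_div_mul_eq_div] at h3
    refine h3.congr (fun N => ?_)
    simp only [Pi.div_apply]
    ring
  · have h3 := ((((SE_ncdiv h1).sub SE_q).mul (SE_oneSub A)).mul (SE_ncdiv bh)).mul (SE_ncdiv h1)
    rw [mul_one] at h3
    exact h3.congr (fun N => by ring)

private lemma SE_g8 {h1 h2 bh A Ca : ℝ} (h : A * Real.exp A +
    (3 * A * Ca + 6 * A) / Real.exp (-(A + h2)) / h1 / Real.exp (-(bh + A)) /
    Real.exp (-(A + h2)) < Ca * bh) :
    ∀ᶠ N : ℕ in atTop, SEth A N + SEkap h1 h2 bh A Ca N / SEom h2 A N ^ N ≤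
      Ca * (1 - A / N) * (bh / N) := by
  refine SE_le 1 ?_ ?_ h
  · have h3 := (SE_th A).add ((SE_kap h1 h2 bh A Ca).div (SE_omN h2 A) (Real.exp_pos _).ne')
    refine h3.congr (fun N => ?_)
    simp only [Pi.div_apply]
    ring
  · have h3 := (((SE_oneSub A).const_mul Ca).mul (SE_ncdiv bh))
    rw [mul_one] at h3
    exact h3.congr (fun N => by ring)

private lemma SE_g9 {h1 h2 bh A Ca : ℝ} (h : (A * Real.exp A +
    (3 * A * Ca + 6 * A) / Real.exp (-(A + h2)) / h1 / Real.exp (-(bh + A)) /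
    Real.exp (-(A + h2))) / Real.exp (-(A + h2)) < (h1 - 1) * bh) :
    ∀ᶠ N : ℕ in atTop, SEq N / SEom h2 A N ^ N * (SEth A N +
      SEkap h1 h2 bh A Ca N / SEom h2 A N ^ N) ≤ (h1 / N - SEq N) * (1 - A / N) * (bh / N) := by
  refine SE_le 2 ?_ ?_ h
  · have h3 := (SE_q.div (SE_omN h2 A) (Real.exp_pos _).ne').mul
      ((SE_th A).add ((SE_kap h1 h2 bh A Ca).div (SE_omN h2 A) (Real.exp_pos _).ne'))
    rw [one_div_mul_eq_div] at h3
    refine h3.congr (fun N => ?_)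
    simp only [Pi.div_apply]
    ring
  · have h3 := (((SE_ncdiv h1).sub SE_q).mul (SE_oneSub A)).mul (SE_ncdiv bh)
    rw [mul_one] at h3
    exact h3.congr (fun N => by ring)

private lemma SE_g10 {h1 h2 bh kh A Ca : ℝ} {d : ℕ} (h : h1 * (A * Real.exp A) +
    (3 * A * Ca + 6 * A) / Real.exp (-(A + h2)) < (d * kh - bh) * h1) :
    ∀ᶠ N : ℕ in atTop, (h1 / N) * SEth A N + (SEK1 h2 A Ca N + SEK2 h2 A N) * SEom h2 A N ≤
      ((1 - (1 - kh / N) ^ d) - bh / N) * (1 - A / N) * (h1 / N) := by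
  refine SE_le 2 ?_ ?_ h
  · have h3 := ((SE_ncdiv h1).mul (SE_th A)).add ((SE_K h2 A Ca).mul (SE_om h2 A))
    rw [mul_one] at h3
    exact h3.congr (fun N => by ring)
  · have h3 := (((SE_be kh d).sub (SE_ncdiv bh)).mul (SE_oneSub A)).mul (SE_ncdiv h1)
    rw [mul_one] at h3
    exact h3.congr (fun N => by ring)

private lemma SE_g11 {h1 h2 bh kh A Ca : ℝ} {d : ℕ} (h : bh + A * Real.exp A +
    (3 * A * Ca + 6 * A) / Real.exp (-(A + h2)) / h1 / Real.exp (-(bh + A)) < d * kh) :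
    ∀ᶠ N : ℕ in atTop, bh / N + SEth A N + SEkap h1 h2 bh A Ca N ≤ 1 - (1 - kh / N) ^ d := by
  refine SE_le 1 ?_ ?_ h
  · have h3 := ((SE_ncdiv bh).add (SE_th A)).add (SE_kap h1 h2 bh A Ca)
    exact h3.congr (fun N => by ring)
  · exact (SE_be kh d).congr (fun N => by ring)

private lemma SE_B1 {lam h2 bh et ph : ℝ} (het : et ≠ 0)
    (h : et * h2 / ph - bh * (et + 1) / et < -lam - h2) :
    ∀ᶠ N : ℕ in atTop, (et * (1 - bh / N) - bh / N) * (1 / et + (h2 / N) / ph) ≤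
      (1 - (1 - Real.exp (-(lam / N)))) * (1 - h2 / N) := by
  have key : ∀ᶠ N : ℕ in atTop,
      (et * (1 - bh / N) - bh / N) * (1 / et + (h2 / N) / ph) - 1 ≤
      (1 - (1 - Real.exp (-(lam / N)))) * (1 - h2 / N) - 1 := by
    refine SE_le 1 (U := et * h2 / ph - bh * (et + 1) / et) (V := -lam - h2) ?_ ?_ h
    · have h3 := (((SE_ncdiv h2).const_mul (et / ph)).sub
        ((SE_ncdiv bh).const_mul ((et + 1) / et))).sub
        (((SE_ncdiv bh).mul (SE_cdiv h2)).const_mul ((et + 1) / ph))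
      have e : et / ph * h2 - (et + 1) / et * bh - (et + 1) / ph * (bh * 0) =
          et * h2 / ph - bh * (et + 1) / et := by ring
      rw [e] at h3
      refine h3.congr (fun N => ?_)
      have e1 : (et * (1 - bh / N) - bh / N) * (1 / et + (h2 / N) / ph) - 1 =
          et / ph * (h2 / N) - (et + 1) / et * (bh / N) - (et + 1) / ph * (bh / N * (h2 / N)) := by
        have : et * (1 / et) = 1 := by field_simp
        linear_combination this
      rw [e1]
      ring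
    · have h3 := ((SE_expo lam).neg.sub (SE_ncdiv h2)).add ((SE_expo lam).mul (SE_cdiv h2))
      have e : -lam - h2 + lam * 0 = -lam - h2 := by ring
      rw [e] at h3
      exact h3.congr (fun N => by ring)
  filter_upwards [key] with N hN
  linarith

private lemma SE_ratio {lam kh : ℝ} (h : kh < lam) :
    Tendsto (fun N : ℕ => (kh / N) / ((1 - Real.exp (-(lam / N))) - kh / N)) atTop
      (𝓝 (kh / (lam - kh))) := by
  have h3 := (SE_ncdiv kh).div ((SE_expo lam).sub (SE_ncdiv kh)) (by linarith)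
  refine h3.congr' ?_
  filter_upwards [eventually_gt_atTop 0] with N hN
  have hN : (N : ℝ) ≠ 0 := by positivity
  simp only [Pi.div_apply]
  rw [← mul_sub, mul_div_mul_left _ _ hN]

private lemma SE_choose (d : ℕ) (hd : 2 ≤ d) (lam : ℝ) (hl : 1 < lam * ((d : ℝ) - 1)) :
    ∃ h1 h2 y kh : ℝ, 0 < lam ∧ 1 < h1 ∧ h1 < h2 ∧ 1 < y ∧ 0 < kh ∧ kh < lam ∧
      lam < y * (lam - kh) ∧ 6 * (kh / (lam - kh)) < Real.exp (-lam) ∧
      lam + h2 + (kh * y / lam) * h2 / (Real.exp (-lam) / 16) < d * lam / y ^ 2 := by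
  have hd' : (2 : ℝ) ≤ d := by exact_mod_cast hd
  have hlam : 0 < lam := by
    by_contra hcon
    push Not at hcon
    nlinarith [mul_nonpos_of_nonpos_of_nonneg hcon (by linarith : (0 : ℝ) ≤ (d : ℝ) - 1)]
  set L : ℝ := lam * ((d : ℝ) - 1) with hL
  set h2 : ℝ := (1 + L) / 2 with hh2
  have hh2L : h2 < L := by rw [hh2]; linarith
  have hy : ∃ y : ℝ, 1 < y ∧ lam + h2 < d * lam / y ^ 2 := by
    have hc : ContinuousAt (fun y : ℝ => d * lam / y ^ 2) 1 := by
      apply ContinuousAt.div (by fun_prop) (by fun_prop) (by norm_num)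
    have h0 : lam + h2 < (fun y : ℝ => d * lam / y ^ 2) 1 := by
      simp only [one_pow, div_one]
      have : (d : ℝ) * lam = lam + L := by rw [hL]; ring
      rw [this]; linarith
    have e1 : ∀ᶠ y : ℝ in 𝓝[>] 1, lam + h2 < d * lam / y ^ 2 :=
      (hc.eventually (lt_mem_nhds h0)).filter_mono nhdsWithin_le_nhds
    have e2 : ∀ᶠ y : ℝ in 𝓝[>] 1, 1 < y := self_mem_nhdsWithin
    obtain ⟨y, hy1, hy2⟩ := (e2.and e1).exists
    exact ⟨y, hy1, hy2⟩
  obtain ⟨y, hy1, hy2⟩ := hy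
  have hexp := Real.exp_pos (-lam)
  have e0 : ∀ᶠ kh : ℝ in 𝓝[>] 0, 0 < kh := self_mem_nhdsWithin
  have e1 : ∀ᶠ kh : ℝ in 𝓝[>] 0, kh < lam :=
    (gt_mem_nhds hlam).filter_mono nhdsWithin_le_nhds
  have e2 : ∀ᶠ kh : ℝ in 𝓝[>] 0, lam < y * (lam - kh) := by
    have hc : ContinuousAt (fun kh : ℝ => y * (lam - kh)) 0 := by fun_prop
    refine (hc.eventually (lt_mem_nhds ?_)).filter_mono nhdsWithin_le_nhds
    simp only [sub_zero]
    nlinarith
  have e3 : ∀ᶠ kh : ℝ in 𝓝[>] 0, 6 * (kh / (lam - kh)) < Real.exp (-lam) := by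
    have hc : ContinuousAt (fun kh : ℝ => 6 * (kh / (lam - kh))) 0 := by
      apply ContinuousAt.mul (by fun_prop)
      apply ContinuousAt.div (by fun_prop) (by fun_prop) (by linarith)
    refine (hc.eventually (gt_mem_nhds ?_)).filter_mono nhdsWithin_le_nhds
    simpa using hexp
  have e4 : ∀ᶠ kh : ℝ in 𝓝[>] 0,
      lam + h2 + (kh * y / lam) * h2 / (Real.exp (-lam) / 16) < d * lam / y ^ 2 := by
    have hc : ContinuousAt (fun kh : ℝ =>
        lam + h2 + (kh * y / lam) * h2 / (Real.exp (-lam) / 16)) 0 := by fun_prop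
    refine (hc.eventually (gt_mem_nhds ?_)).filter_mono nhdsWithin_le_nhds
    simpa using hy2
  obtain ⟨kh, k0, k1, k2, k3, k4⟩ := (e0.and (e1.and (e2.and (e3.and e4)))).exists
  exact ⟨(3 + L) / 4, h2, y, kh, hlam, by linarith, by rw [hh2]; linarith, hy1, k0, k1, k2, k3, k4⟩

set_option maxHeartbeats 1000000 in
theorem par_exists (d : ℕ) (hd : 2 ≤ d) (lam : ℝ) (hl : 1 < lam * ((d : ℝ) - 1)) :
    ∃ kh A : ℝ, 0 < kh ∧ 0 < A ∧ ∃ N0 : ℕ, ∀ N : ℕ, N0 ≤ N → 0 < N →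
      ∃ (P : Par) (C : Cst) (et ph : ℝ), Good P C ∧ GoodB P (kh / N) et ph ∧ P.n + 1 = N ∧
        P.q = 1 - Real.exp (-(1 / N)) ∧ P.a = 1 - Real.exp (-(lam / N)) ∧
        C.be = 1 - (1 - kh / N) ^ d ∧
        1 - Real.exp (-(A / N)) ≤ P.al ∧ 1 - Real.exp (-(A / N)) ≤ P.tau ∧
        1 - Real.exp (-(A / N)) ≤ 1 - P.q := by
  obtain ⟨h1, h2, y, kh, hlam, hh1, h12, hy1, k0, k1, k2, k3, k4⟩ := SE_choose d hd lam hl
  have hd0 : (0 : ℝ) < d := by exact_mod_cast (by omega : 0 < d)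
  have hy0 : 0 < y := by linarith
  set bh : ℝ := d * kh / y with hbh
  set et : ℝ := kh * y / lam with het
  set ph : ℝ := Real.exp (-lam) / 16 with hph
  have hexp := Real.exp_pos (-lam)
  have bh0 : 0 < bh := by positivity
  have et0 : 0 < et := by positivity
  have ph0 : 0 < ph := by positivity
  have hbk : bh < d * kh := by
    rw [hbh, div_lt_iff₀ hy0]
    nlinarith [mul_pos hd0 k0]
  obtain ⟨A, A0, A1, hS⟩ := SE_lim_exists lam h1 h2 bh kh (2 * h2) d hh1 h12 bh0 hbk rfl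
  have hB1 : et * h2 / ph - bh * (et + 1) / et < -lam - h2 := by
    have e : bh * (et + 1) / et = bh + d * lam / y ^ 2 := by
      rw [hbh, het]; field_simp
    rw [e]
    linarith
  have t0 : ∀ {c e : ℝ}, 0 < e → ∀ᶠ N : ℕ in atTop, c / (N : ℝ) < e := fun he =>
    (SE_cdiv _).eventually (gt_mem_nhds he)
  have hq : ∀ᶠ N : ℕ in atTop, SEq N < h1 / N := by
    filter_upwards [SE_q.eventually (gt_mem_nhds hh1), eventually_gt_atTop 0] with N hN hN0
    have : (0 : ℝ) < N := by positivity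
    rw [lt_div_iff₀ this]
    linarith
  have hka : ∀ᶠ N : ℕ in atTop, kh / N < 1 - Real.exp (-(lam / (N : ℝ))) := by
    filter_upwards [(SE_expo lam).eventually (lt_mem_nhds k1), eventually_gt_atTop 0] with N hN hN0
    have : (0 : ℝ) < N := by positivity
    rw [div_lt_iff₀ this]
    linarith
  have hpz : ∀ᶠ N : ℕ in atTop, 1 - (1 - kh / (N : ℝ)) ^ d ≤
      1 - SEq N * (1 - (1 - (1 - kh / (N : ℝ)) ^ d)) := by
    have hc := (SE_oneSub kh).pow d
    rw [one_pow] at hc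
    refine SE_le 0 (U := 0) (V := 1) ?_ ?_ one_pos
    · have := (tendsto_const_nhds (x := (1 : ℝ)) (f := atTop (α := ℕ))).sub hc
      rw [sub_self] at this
      exact this.congr (fun N => by ring)
    · have := (tendsto_const_nhds (x := (1 : ℝ)) (f := atTop (α := ℕ))).sub (SE_q0.mul hc)
      rw [zero_mul, sub_zero] at this
      exact this.congr (fun N => by ring)
  have hB2 : ∀ᶠ N : ℕ in atTop, et * (h2 / N) ≤ ph * (1 - h2 / N) := by
    refine SE_le 0 (U := 0) (V := ph) ?_ ?_ ph0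
    · have := (SE_cdiv h2).const_mul et
      rw [mul_zero] at this
      exact this.congr (fun N => by ring)
    · have := (SE_oneSub h2).const_mul ph
      rw [mul_one] at this
      exact this.congr (fun N => by ring)
  have hB3 : ∀ᶠ N : ℕ in atTop, (kh / N) / ((1 - Real.exp (-(lam / (N : ℝ)))) - kh / N) ≤ et := by
    refine ((SE_ratio k1).eventually (gt_mem_nhds ?_)).mono (fun N hN => hN.le)
    have : 0 < lam - kh := by linarith
    rw [het, div_lt_div_iff₀ this hlam]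
    nlinarith
  have hB4 : ∀ᶠ N : ℕ in atTop,
      6 * ((kh / N) / ((1 - Real.exp (-(lam / (N : ℝ)))) - kh / N)) ≤ Real.exp (-lam) :=
    (((SE_ratio k1).const_mul 6).eventually (gt_mem_nhds k3)).mono (fun N hN => hN.le)
  have hA : ∀ᶠ N : ℕ in atTop, 1 - Real.exp (-(A / (N : ℝ))) ≤ 1 - SEq N := by
    refine SE_le 0 (U := 0) (V := 1) ?_ ?_ one_pos
    · have := (tendsto_const_nhds (x := (1 : ℝ)) (f := atTop (α := ℕ))).sub
        ((Real.continuous_exp.tendsto _).comp (SE_cdiv A).neg)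
      simp only [neg_zero, Real.exp_zero, sub_self] at this
      exact this.congr (fun N => by simp)
    · have := (tendsto_const_nhds (x := (1 : ℝ)) (f := atTop (α := ℕ))).sub SE_q0
      rw [sub_zero] at this
      exact this.congr (fun N => by ring)
  have hall := (SE_g1 hS.g1).and ((SE_g2 hS.g2).and ((SE_g5 hS.g5).and ((SE_g6 hS.g6).and
    ((SE_g7 hS.g7).and ((SE_g8 hS.g8).and ((SE_g9 hS.g9).and ((SE_g10 hS.g10).and
    ((SE_g11 hS.g11).and ((SE_B1 et0.ne' hB1).and (hB2.and (hB3.and (hB4.and (hA.and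
    (hq.and (hka.and (hpz.and ((t0 (c := h2) one_pos).and ((t0 (c := bh) one_pos).and
    (t0 (c := kh) one_pos)))))))))))))))))))
  obtain ⟨N0, hN0⟩ := eventually_atTop.1 hall
  refine ⟨kh, A, k0, A0, N0, fun N hN hNpos => ?_⟩
  obtain ⟨g1, g2, g5, g6, g7, g8, g9, g10, g11, b1, b2, b3, b4, fA, fq, fka, fpz, fh2, fbh,
    fkh⟩ := hN0 N hN
  clear hall hN0
  obtain ⟨n, rfl⟩ : ∃ n, N = n + 1 := ⟨N - 1, by omega⟩
  have hNr : (0 : ℝ) < ((n + 1 : ℕ) : ℝ) := by positivity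
  have hN1 : (1 : ℝ) ≤ ((n + 1 : ℕ) : ℝ) := by exact_mod_cast hNpos
  have hcast : ((n + 1 : ℕ) : ℝ) = (n : ℝ) + 1 := by push_cast; ring
  have fA1 : A / ((n + 1 : ℕ) : ℝ) < 1 := by
    rw [div_lt_one hNr]; linarith
  have fA0 : 0 ≤ A / ((n + 1 : ℕ) : ℝ) := by positivity
  have hqpos : 0 < SEq (n + 1) := by
    have : Real.exp (-(1 / ((n + 1 : ℕ) : ℝ))) < 1 := by
      rw [Real.exp_lt_one_iff]
      have : 0 < 1 / ((n + 1 : ℕ) : ℝ) := by positivity
      linarith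
    simp only [SEq]; linarith
  have hom0 : 0 < SEom h2 A (n + 1) := by
    simp only [SEom]
    exact mul_pos (by linarith) (by linarith)
  have hh2' : 0 < h2 := by linarith
  have hK1 : 0 ≤ SEK1 h2 A (2 * h2) (n + 1) := by
    simp only [SEK1]; positivity
  have hK2 : 0 ≤ SEK2 h2 A (n + 1) := by
    simp only [SEK2]; positivity
  have hden : 0 < (1 - A / ((n + 1 : ℕ) : ℝ)) * (1 - bh / ((n + 1 : ℕ) : ℝ)) *
      (h1 / ((n + 1 : ℕ) : ℝ)) :=
    mul_pos (mul_pos (by linarith) (by linarith)) (by positivity)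
  have hKh : 0 ≤ SEKh h1 h2 bh A (2 * h2) (n + 1) := by
    simp only [SEKh]
    exact div_nonneg (mul_nonneg (add_nonneg hK1 hK2) hom0.le) hden.le
  have ha1 : Real.exp (-(lam / ((n + 1 : ℕ) : ℝ))) ≤ 1 := by
    rw [Real.exp_le_one_iff]
    have : 0 ≤ lam / ((n + 1 : ℕ) : ℝ) := by positivity
    linarith
  have hpown : Real.exp (-lam) ≤ (1 - (1 - Real.exp (-(lam / ((n + 1 : ℕ) : ℝ))))) ^ n := by
    rw [sub_sub_cancel, ← Real.exp_nat_mul, Real.exp_le_exp]
    rw [mul_neg, neg_le_neg_iff, ← mul_div_assoc, div_le_iff₀ hNr, hcast, mul_add, mul_one,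
      mul_comm (n : ℝ) lam]
    exact le_add_of_nonneg_right hlam.le
  refine ⟨⟨n, SEq (n + 1), 1 - Real.exp (-(lam / ((n + 1 : ℕ) : ℝ))), bh / ((n + 1 : ℕ) : ℝ),
    h1 / ((n + 1 : ℕ) : ℝ), h2 / ((n + 1 : ℕ) : ℝ), A / ((n + 1 : ℕ) : ℝ),
    A / ((n + 1 : ℕ) : ℝ)⟩, ⟨1 - (1 - kh / ((n + 1 : ℕ) : ℝ)) ^ d, 2 * h2,
    SEK1 h2 A (2 * h2) (n + 1), SEK2 h2 A (n + 1), SEKh h1 h2 bh A (2 * h2) (n + 1)⟩, et, ph,
    ?_, ?_, rfl, rfl, rfl, rfl, ?_, ?_, fA⟩
  · have htau : A / ((n + 1 : ℕ) : ℝ) * ((n : ℝ) + 1) = A := by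
      rw [← hcast]; field_simp
    have hth : (if 0 ≤ n then A / ((n + 1 : ℕ) : ℝ) /
        (1 - A / ((n + 1 : ℕ) : ℝ)) ^ (n + 1 - 0) else 0) = SEth A (n + 1) := by
      rw [if_pos (Nat.zero_le n)]; rfl
    refine
      { q0 := hqpos
        qc1 := fq
        c12 := by
          show h1 / ((n + 1 : ℕ) : ℝ) < h2 / ((n + 1 : ℕ) : ℝ)
          exact div_lt_div_of_pos_right h12 hNr
        c2lt := fh2
        al0 := fA0
        al1 := fA1
        tau0 := fA0
        tau1 := by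
          show A / ((n + 1 : ℕ) : ℝ) * ((n : ℝ) + 1) ≤ 1
          rw [htau]; exact A1.le
        b0 := by show 0 ≤ bh / ((n + 1 : ℕ) : ℝ); positivity
        b1 := fbh
        a0 := by show 0 ≤ 1 - Real.exp (-(lam / ((n + 1 : ℕ) : ℝ))); linarith
        a1 := by
          show 1 - Real.exp (-(lam / ((n + 1 : ℕ) : ℝ))) ≤ 1
          linarith [Real.exp_pos (-(lam / ((n + 1 : ℕ) : ℝ)))]
        Ca0 := by show 0 < 2 * h2; linarith
        K10 := hK1
        K20 := hK2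
        Kh0 := hKh
        be0 := by
          show 0 ≤ 1 - (1 - kh / ((n + 1 : ℕ) : ℝ)) ^ d
          have h0 : 0 ≤ kh / ((n + 1 : ℕ) : ℝ) := by positivity
          have := pow_le_one₀ (n := d) (by linarith : 0 ≤ 1 - kh / ((n + 1 : ℕ) : ℝ)) (by linarith)
          linarith
        be1 := by
          show 1 - (1 - kh / ((n + 1 : ℕ) : ℝ)) ^ d ≤ 1
          have := pow_nonneg (by linarith : 0 ≤ 1 - kh / ((n + 1 : ℕ) : ℝ)) d
          linarith
        pzmono := fpz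
        g1 := by
          show 1 - SEq (n + 1) - SEom h2 A (n + 1) ≤
            2 * h2 * SEq (n + 1) * (1 - A / ((n + 1 : ℕ) : ℝ) * ((n : ℝ) + 1))
          rw [htau]; exact g1
        g2 := by
          simp only [th]
          rw [hth]; exact g2
        g3 := ?_
        g4 := ?_
        g5 := by
          simp only [th]
          rw [hth]; exact g5
        g6 := by
          simp only [th]
          rw [hth]; exact g6
        g7 := by
          simp only [th]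
          rw [hth]; exact g7
        g8 := by
          simp only [th]
          rw [hth]; exact g8
        g9 := by
          simp only [th]
          rw [hth]; exact g9
        g10 := by
          simp only [th]
          rw [hth]; exact g10
        g11 := by
          simp only [th]
          rw [hth]; exact g11
        g12 := ?_ }
    · show 3 * SEq (n + 1) * (A / ((n + 1 : ℕ) : ℝ)) * (2 * h2) ≤
        SEK1 h2 A (2 * h2) (n + 1) * SEom h2 A (n + 1) ^ (n + 2)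
      have : SEom h2 A (n + 1) ^ (n + 1 + 1) ≠ 0 := (pow_pos hom0 _).ne'
      simp only [SEK1]
      rw [div_mul_cancel₀ _ this]
    · show 6 * (A / ((n + 1 : ℕ) : ℝ)) ≤
        SEK2 h2 A (n + 1) * SEom h2 A (n + 1) ^ (n + 2) * ((n : ℝ) + 2)
      have h3 : SEom h2 A (n + 1) ^ (n + 1 + 1) * (((n + 1 : ℕ) : ℝ) + 1) ≠ 0 :=
        (mul_pos (pow_pos hom0 _) (by positivity)).ne'
      have h4 : (n : ℝ) + 2 = ((n + 1 : ℕ) : ℝ) + 1 := by rw [hcast]; ring
      simp only [SEK2]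
      rw [h4, mul_assoc]
      rw [show SEom h2 A (n + 1) ^ (n + 2) = SEom h2 A (n + 1) ^ (n + 1 + 1) from rfl,
        div_mul_cancel₀ _ h3]
    · show (SEK1 h2 A (2 * h2) (n + 1) + SEK2 h2 A (n + 1)) * SEom h2 A (n + 1) ≤
        SEKh h1 h2 bh A (2 * h2) (n + 1) * (1 - A / ((n + 1 : ℕ) : ℝ)) *
          (1 - bh / ((n + 1 : ℕ) : ℝ)) * (h1 / ((n + 1 : ℕ) : ℝ))
      rw [mul_assoc (SEKh h1 h2 bh A (2 * h2) (n + 1)),
        mul_assoc (SEKh h1 h2 bh A (2 * h2) (n + 1))]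
      simp only [SEKh]
      rw [div_mul_cancel₀ _ hden.ne']
  · exact
      { ka0 := by positivity
        kaa := fka
        et0 := et0
        ph0 := ph0
        ph8 := by
          show 8 * ph ≤ (1 - (1 - Real.exp (-(lam / ((n + 1 : ℕ) : ℝ))))) ^ n
          refine le_trans ?_ hpown
          rw [hph]; linarith
        h1 := b1
        h2 := b2
        h3 := b3
        h4 := le_trans b4 hpown
        a1 := by
          show 1 - Real.exp (-(lam / ((n + 1 : ℕ) : ℝ))) < 1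
          linarith [Real.exp_pos (-(lam / ((n + 1 : ℕ) : ℝ)))] }
  · show 1 - Real.exp (-(A / ((n + 1 : ℕ) : ℝ))) ≤ A / ((n + 1 : ℕ) : ℝ)
    linarith [Real.add_one_le_exp (-(A / ((n + 1 : ℕ) : ℝ)))]
  · show 1 - Real.exp (-(A / ((n + 1 : ℕ) : ℝ))) ≤ A / ((n + 1 : ℕ) : ℝ)
    linarith [Real.add_one_le_exp (-(A / ((n + 1 : ℕ) : ℝ)))]

end H50CP
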