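import Pool.Agent.H50.CP.SD
import Pool.Agent.H50.CP.SE

/-! # SF: the single-site lemma with the final parameters -/

namespace H50CP

/-- **single-site lemma**: `N` slots per unit of time; for `lam (d-1) > 1` the infection chain with
up-marks = union of `d` independent Bernoulli(`kh/N`) sequences dominates a spin flip chain together
with an independent Bernoulli(`kh/N`) sequence of emitted arrows. -/
theorem ssl_par (d : ℕ) (hd : 2 ≤ d) (lam : ℝ) (hl : 1 < lam * ((d : ℝ) - 1)) :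
    ∃ kh A : ℝ, 0 < kh ∧ 0 < A ∧ ∃ N0 : ℕ, 0 < N0 ∧ ∀ N : ℕ, N0 ≤ N → kh / N ≤ 1 ∧
      ∀ (K : ℕ) (Φ : (Fin K → Bool) → (Fin K → Bool) → ℝ), Mono2 Φ →
        flE (1 - Real.exp (-(1 / N))) (1 - Real.exp (-(A / N))) (kh / N) K Φ false ≤
          chE (1 - Real.exp (-(1 / N))) (1 - (1 - kh / N) ^ d) (1 - Real.exp (-(lam / N))) K Φ true := by
  obtain ⟨kh, A, hk, hA, N0, h⟩ := par_exists d hd lam hl
  refine ⟨kh, A, hk, hA, max N0 1, by simp, fun N hN => ?_⟩
  have hN0 : N0 ≤ N := le_trans (le_max_left _ _) hN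
  have hN1 : 0 < N := lt_of_lt_of_le Nat.zero_lt_one (le_trans (le_max_right _ _) hN)
  obtain ⟨P, C, et, ph, hG, hB, hn, hq, ha, hbe, h1, h2, h3⟩ := h N hN0 hN1
  refine ⟨hB.kaa.le.trans hG.a1, fun K Φ hΦ => ?_⟩
  have hNr : (0:ℝ) < N := by exact_mod_cast hN1
  have hae : 0 ≤ 1 - Real.exp (-(A / N)) := by
    have : Real.exp (-(A / N)) ≤ 1 := by
      apply Real.exp_le_one_iff.2
      have : 0 ≤ A / N := by positivity
      linarith
    linarith
  have := ssl hG hB hae h3 h1 h2 K Φ hΦ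
  rwa [hq, ha, hbe] at this

end H50CP
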