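import Pool.Agent.H50.CP.F1
import Pool.Agent.H50.CP.SF

/-!
# F2: domination of the finite dimensional distributions (rational times)

Take `kh`, `A`, `N0` from `ssl_par` and `ssl_sto` (T3) for the hypothesis `hS` of `fdd_pre`, with
`ka = kh/N`.  Let `D > 0` be a common denominator of the `t i`.  Given `ε > 0` choose
1. `T : ℕ` with `T + t i ≥ 0` for all `i`, `2 C Σ_i exp(-(t_i+T)) < ε` and
   `∫ f (Reach (tree d) ω (-T) …) ≤ ∫ f (Upper …) + ε` (dominated convergence: for every `ω` the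
   vector `Reach … (-T) …` is eventually (in `T`) equal to the vector `Upper …`: `Reach.mono`,
   `upper_iff_nat`);
2. `n` with `2 C Σ_i (d lam (t_i+T))^{n+1}/(n+1)! < ε` (`FloorSemiring.tendsto_pow_div_factorial_atTop`);
3. `N = D m`, `m` large, `k i = (t_i+T) N` (natural numbers), `K = Σ_i k i` or the maximum; the
   errors `k_i q ae ≤ k_i A/N²`, `(n+1) d^{n+1} K 2 q a ≤ (n+1) d^{n+1} K 2 lam /N²` tend to 0 as
   `m → ∞` (use `1 - exp(-x) ≤ x`), and `(1-q)^{k_i} = exp(-(t_i+T))`,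
   `(d a k_i)^{n+1} ≤ (d lam (t_i+T))^{n+1}`.
-/

namespace H50CP

open MeasureTheory ProbabilityTheory Set
open scoped NNReal ENNReal Classical

private theorem f2_exp01 {x : ℝ} (hx : 0 ≤ x) :
    0 ≤ 1 - Real.exp (-x) ∧ 1 - Real.exp (-x) ≤ 1 := by
  have h1 : Real.exp (-x) ≤ 1 := by
    rw [Real.exp_le_one_iff]; linarith
  have h2 := Real.exp_pos (-x)
  constructor <;> linarith

private theorem f2_exple (x : ℝ) : 1 - Real.exp (-x) ≤ x := by
  have := Real.add_one_le_exp (-x)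
  linarith

/-- the hypothesis of `fdd_pre` -/
private def F2S (d : ℕ) (lam A : ℝ≥0) (ka : ℝ) (N K : ℕ) : Prop :=
  Sto (flL (1 - Real.exp (-(1 / N))) (1 - Real.exp (-(A / N))) ka K)
      (chL (1 - Real.exp (-(1 / N))) (1 - (1 - ka) ^ d) (1 - Real.exp (-(lam / N))) K)

private theorem f2_sto (d : ℕ) (hd : 2 ≤ d) (lam : ℝ≥0) (hl : 1 < (lam : ℝ) * ((d : ℝ) - 1)) :
    ∃ (kh : ℝ) (A : ℝ≥0), 0 < kh ∧ 0 < A ∧ ∃ N0 : ℕ, 0 < N0 ∧ ∀ N : ℕ, N0 ≤ N → kh / N ≤ 1 ∧
      ∀ K : ℕ, F2S d lam A (kh / N) N K := by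
  obtain ⟨kh, A, hk, hA, N0, hN0, h⟩ := ssl_par d hd lam hl
  refine ⟨kh, ⟨A, hA.le⟩, hk, by exact_mod_cast hA, N0, hN0, fun N hN => ?_⟩
  obtain ⟨h1, h2⟩ := h N hN
  have hNr : (0:ℝ) < N := by exact_mod_cast (lt_of_lt_of_le hN0 hN)
  have hk0 : 0 ≤ kh / N := by positivity
  refine ⟨h1, fun K => ?_⟩
  unfold F2S
  refine ssl_sto (f2_exp01 (by positivity)) ⟨?_, ?_⟩ (f2_exp01 (by positivity))
    (f2_exp01 ?_) ⟨hk0, h1⟩ K (h2 K)
  · have : (1 - kh / N) ^ d ≤ 1 := pow_le_one₀ (by linarith) (by linarith)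
    linarith
  · have : 0 ≤ (1 - kh / N) ^ d := pow_nonneg (by linarith) _
    linarith
  · positivity

private theorem f2_den {ι : Type} [Fintype ι] (t : ι → ℚ) (T : ℕ) (hT : ∀ i, -(T : ℝ) ≤ t i) :
    ∃ D : ℕ, 0 < D ∧ ∀ i, ∃ c : ℕ, (c : ℝ) = D * ((t i : ℝ) + T) := by
  refine ⟨∏ i, (t i).den, Finset.prod_pos fun i _ => (t i).den_pos, fun i => ?_⟩
  obtain ⟨e, he⟩ : (t i).den ∣ ∏ i, (t i).den := Finset.dvd_prod_of_mem _ (Finset.mem_univ i)
  have hd0 : ((t i).den : ℝ) ≠ 0 := by exact_mod_cast (t i).den_pos.ne'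
  have h1 : (t i : ℝ) * (t i).den = (t i).num := by
    rw [Rat.cast_def]; field_simp
  have h2 : (((∏ i, (t i).den : ℕ) : ℝ)) * ((t i : ℝ) + T)
      = (((t i).num + T * (t i).den) * e : ℤ) := by
    rw [he]
    push_cast
    have : ((t i).den : ℝ) * (e : ℝ) * ((t i : ℝ) + T)
        = ((t i : ℝ) * (t i).den + T * (t i).den) * e := by ring
    rw [this, h1]
  have h3 : 0 ≤ ((t i).num + T * (t i).den) * (e : ℤ) := by
    have h4 : (0 : ℝ) ≤ (((∏ i, (t i).den : ℕ) : ℝ)) * ((t i : ℝ) + T) :=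
      mul_nonneg (Nat.cast_nonneg _) (by linarith [hT i])
    rw [h2] at h4
    exact_mod_cast h4
  refine ⟨(((t i).num + T * (t i).den) * (e : ℤ)).toNat, ?_⟩
  rw [h2]
  have := Int.toNat_of_nonneg h3
  exact_mod_cast this

private theorem f2_A {d : ℕ} (hd : 2 ≤ d) (lam A : ℝ≥0) {kh : ℝ} (hkh : 0 < kh) {N0 : ℕ}
    (hN0 : 0 < N0)
    (hS : ∀ N : ℕ, N0 ≤ N → kh / N ≤ 1 ∧ ∀ K : ℕ, F2S d lam A (kh / N) N K)
    {ι : Type} [Fintype ι] (x : ι → TV d) (t : ι → ℚ) (f : (ι → Bool) → ℝ) (hf : Monotone f)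
    (C : ℝ) (hC0 : 0 ≤ C) (hC : ∀ v, |f v| ≤ C) (T n : ℕ) (hT : ∀ i, -(T : ℝ) ≤ t i) :
    ∫ ω, f (fun i => decide (FlipOn ω (x i) (t i))) ∂(flipLaw (TV d) A) ≤
      ∫ ω, f (fun i => decide (Reach (tree d) ω (-(T : ℝ)) (x i) (t i)))
        ∂(contactLaw (TV d) lam) +
      2 * C * ∑ i, (Real.exp (-((t i : ℝ) + T)) +
        (d * lam * ((t i : ℝ) + T)) ^ (n + 1) / (n + 1).factorial) := by
  obtain ⟨D, hD, hc⟩ := f2_den t T hT
  choose c hc using hc
  have hDr : (0 : ℝ) < D := by exact_mod_cast hD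
  set Cs : ℕ := ∑ i, c i with hCs
  set R : ℝ := ∫ ω, f (fun i => decide (Reach (tree d) ω (-(T : ℝ)) (x i) (t i)))
        ∂(contactLaw (TV d) lam) with hR
  -- the bound for finite `m`
  set g : ℕ → ℝ := fun m => R + 2 * C * ∑ i, ((c i : ℝ) * A / (D * D) * ((1 : ℝ) / m) +
    Real.exp (-((t i : ℝ) + T)) + (d * lam * ((t i : ℝ) + T)) ^ (n + 1) / (n + 1).factorial +
    (n + 1) * d ^ (n + 1) * (Cs * (2 * lam) / (D * D)) * ((1 : ℝ) / m)) with hg
  have hlim : Filter.Tendsto g Filter.atTop (nhds (R + 2 * C * ∑ i, (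
      (c i : ℝ) * A / (D * D) * 0 +
      Real.exp (-((t i : ℝ) + T)) + (d * lam * ((t i : ℝ) + T)) ^ (n + 1) / (n + 1).factorial +
      (n + 1) * d ^ (n + 1) * (Cs * (2 * lam) / (D * D)) * 0))) := by
    have h0 : Filter.Tendsto (fun m : ℕ => (1 : ℝ) / m) Filter.atTop (nhds 0) :=
      tendsto_one_div_atTop_nhds_zero_nat
    refine Filter.Tendsto.const_add _ (Filter.Tendsto.const_mul _
      (tendsto_finsetSum _ fun i _ => ?_))
    exact (((h0.const_mul _).add_const _).add_const _).add (h0.const_mul _)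
  have hlim' : R + 2 * C * ∑ i, ((c i : ℝ) * A / (D * D) * 0 +
      Real.exp (-((t i : ℝ) + T)) + (d * lam * ((t i : ℝ) + T)) ^ (n + 1) / (n + 1).factorial +
      (n + 1) * d ^ (n + 1) * (Cs * (2 * lam) / (D * D)) * 0) =
      R + 2 * C * ∑ i, (Real.exp (-((t i : ℝ) + T)) +
        (d * lam * ((t i : ℝ) + T)) ^ (n + 1) / (n + 1).factorial) := by
    congr 2
    refine Finset.sum_congr rfl fun i _ => ?_
    ring
  rw [← hlim']
  refine ge_of_tendsto hlim ?_
  filter_upwards [Filter.eventually_ge_atTop N0] with m hm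
  have hm0 : 0 < m := lt_of_lt_of_le hN0 hm
  have hmr : (0 : ℝ) < m := by exact_mod_cast hm0
  have hN : 0 < D * m := Nat.mul_pos hD hm0
  have hNN : N0 ≤ D * m := hm.trans (Nat.le_mul_of_pos_left m hD)
  obtain ⟨h1, h2⟩ := hS (D * m) hNN
  have hNr : (0 : ℝ) < ((D * m : ℕ) : ℝ) := by exact_mod_cast hN
  have key := fdd_pre (d := d) (by omega) lam A (ka := kh / ((D * m : ℕ) : ℝ))
    ⟨by positivity, h1⟩ (D * m) T n (m * Cs) hN (h2 (m * Cs)) x (fun i => m * c i)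
    (fun i => Nat.mul_le_mul_left m (by
      rw [hCs]; exact Finset.single_le_sum (fun j _ => Nat.zero_le (c j)) (Finset.mem_univ i)))
    f hf C hC
  have htm : ∀ i, tm (D * m) T (m * c i) = (t i : ℝ) := by
    intro i
    unfold tm
    push_cast
    rw [hc i]
    field_simp
    ring
  have htm0 : tm (D * m) T 0 = -(T : ℝ) := by
    unfold tm; simp
  simp only [htm, htm0] at key
  refine key.trans ?_
  rw [hg]
  simp only
  rw [← hR]
  have hsum : ∀ i, ((m * c i : ℕ) : ℝ) * ((1 - Real.exp (-(1 / ((D * m : ℕ) : ℝ)))) *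
        (1 - Real.exp (-((A : ℝ) / ((D * m : ℕ) : ℝ))))) +
        (1 - (1 - Real.exp (-(1 / ((D * m : ℕ) : ℝ))))) ^ (m * c i) +
        (d * (1 - Real.exp (-((lam : ℝ) / ((D * m : ℕ) : ℝ)))) * ((m * c i : ℕ) : ℝ)) ^ (n + 1) /
          (n + 1).factorial +
        (n + 1) * d ^ (n + 1) * ((m * Cs : ℕ) : ℝ) *
          (2 * (1 - Real.exp (-(1 / ((D * m : ℕ) : ℝ)))) *
          (1 - Real.exp (-((lam : ℝ) / ((D * m : ℕ) : ℝ))))) ≤
      (c i : ℝ) * A / (D * D) * ((1 : ℝ) / m) +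
        Real.exp (-((t i : ℝ) + T)) + (d * lam * ((t i : ℝ) + T)) ^ (n + 1) / (n + 1).factorial +
        (n + 1) * d ^ (n + 1) * (Cs * (2 * lam) / (D * D)) * ((1 : ℝ) / m) := by
    intro i
    have q0 := f2_exp01 (x := 1 / ((D * m : ℕ) : ℝ)) (by positivity)
    have q1 := f2_exple (1 / ((D * m : ℕ) : ℝ))
    have a0 := f2_exp01 (x := (lam : ℝ) / ((D * m : ℕ) : ℝ)) (by positivity)
    have a1 := f2_exple ((lam : ℝ) / ((D * m : ℕ) : ℝ))
    have b0 := f2_exp01 (x := (A : ℝ) / ((D * m : ℕ) : ℝ)) (by positivity)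
    have b1 := f2_exple ((A : ℝ) / ((D * m : ℕ) : ℝ))
    have e2 : (1 - (1 - Real.exp (-(1 / ((D * m : ℕ) : ℝ))))) ^ (m * c i)
        = Real.exp (-((t i : ℝ) + T)) := by
      have h3 : (1 - (1 - Real.exp (-(1 / ((D * m : ℕ) : ℝ)))))
          = Real.exp (-(1 / ((D * m : ℕ) : ℝ))) := by ring
      rw [h3, ← Real.exp_nat_mul]
      congr 1
      push_cast
      rw [hc i]
      field_simp
    set q : ℝ := 1 - Real.exp (-(1 / ((D * m : ℕ) : ℝ))) with hq
    set a : ℝ := 1 - Real.exp (-((lam : ℝ) / ((D * m : ℕ) : ℝ))) with ha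
    set b : ℝ := 1 - Real.exp (-((A : ℝ) / ((D * m : ℕ) : ℝ))) with hb
    have e1 : ((m * c i : ℕ) : ℝ) * (q * b) ≤ (c i : ℝ) * A / (D * D) * ((1 : ℝ) / m) := by
      have h3 : q * b ≤ (1 / ((D * m : ℕ) : ℝ)) * ((A : ℝ) / ((D * m : ℕ) : ℝ)) :=
        mul_le_mul q1 b1 b0.1 (by positivity)
      have h4 : ((m * c i : ℕ) : ℝ) * ((1 / ((D * m : ℕ) : ℝ)) * ((A : ℝ) / ((D * m : ℕ) : ℝ)))
          = (c i : ℝ) * A / (D * D) * ((1 : ℝ) / m) := by
        push_cast
        field_simp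
      rw [← h4]
      exact mul_le_mul_of_nonneg_left h3 (Nat.cast_nonneg _)
    have e3 : (d * a * ((m * c i : ℕ) : ℝ)) ^ (n + 1) / (n + 1).factorial ≤
        (d * lam * ((t i : ℝ) + T)) ^ (n + 1) / (n + 1).factorial := by
      have h5 : d * a * ((m * c i : ℕ) : ℝ) ≤ d * lam * ((t i : ℝ) + T) := by
        have h6 : (d : ℝ) * lam * ((t i : ℝ) + T)
            = d * ((lam : ℝ) / ((D * m : ℕ) : ℝ)) * ((m * c i : ℕ) : ℝ) := by
          push_cast
          rw [hc i]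
          field_simp
        rw [h6]
        exact mul_le_mul_of_nonneg_right (mul_le_mul_of_nonneg_left a1 (Nat.cast_nonneg _))
          (Nat.cast_nonneg _)
      have h7 : 0 ≤ d * a * ((m * c i : ℕ) : ℝ) :=
        mul_nonneg (mul_nonneg (Nat.cast_nonneg _) a0.1) (Nat.cast_nonneg _)
      exact div_le_div_of_nonneg_right (pow_le_pow_left₀ h7 h5 _) (Nat.cast_nonneg _)
    have e4 : (n + 1) * d ^ (n + 1) * ((m * Cs : ℕ) : ℝ) * (2 * q * a) ≤
        (n + 1) * d ^ (n + 1) * (Cs * (2 * lam) / (D * D)) * ((1 : ℝ) / m) := by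
      have h3 : 2 * q * a ≤ 2 * (1 / ((D * m : ℕ) : ℝ)) * ((lam : ℝ) / ((D * m : ℕ) : ℝ)) :=
        mul_le_mul (by linarith) a1 a0.1 (by positivity)
      have h4 : (n + 1) * (d : ℝ) ^ (n + 1) * ((m * Cs : ℕ) : ℝ) *
          (2 * (1 / ((D * m : ℕ) : ℝ)) * ((lam : ℝ) / ((D * m : ℕ) : ℝ)))
          = (n + 1) * d ^ (n + 1) * (Cs * (2 * lam) / (D * D)) * ((1 : ℝ) / m) := by
        push_cast
        field_simp
      rw [← h4]
      exact mul_le_mul_of_nonneg_left h3 (by positivity)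
    rw [e2]
    linarith
  have hC2 : 0 ≤ 2 * C := by linarith
  have hfin := Finset.sum_le_sum (s := Finset.univ) fun i _ => hsum i
  have := mul_le_mul_of_nonneg_left hfin hC2
  linarith

private theorem f2_meas {Ω : Type*} [MeasurableSpace Ω] {ι : Type} [Fintype ι]
    (f : (ι → Bool) → ℝ) (p : ι → Ω → Prop) (hp : ∀ i, MeasurableSet {ω | p i ω}) :
    Measurable (fun ω => f (fun i => decide (p i ω))) := by
  have h1 : Measurable (fun ω => (fun i => decide (p i ω) : ι → Bool)) := by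
    refine measurable_pi_lambda _ fun i => ?_
    refine measurable_to_bool ?_
    have : (fun ω => decide (p i ω)) ⁻¹' {true} = {ω | p i ω} := by
      ext ω; simp
    rw [this]
    exact hp i
  exact (measurable_of_finite f).comp h1

private theorem f2_lim (d : ℕ) (lam : ℝ≥0) {ι : Type} [Fintype ι] (x : ι → TV d) (t : ι → ℚ)
    (f : (ι → Bool) → ℝ) (C : ℝ) (hC : ∀ v, |f v| ≤ C) :
    Filter.Tendsto (fun T : ℕ => ∫ ω, f (fun i => decide (Reach (tree d) ω (-(T : ℝ)) (x i) (t i)))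
        ∂(contactLaw (TV d) lam)) Filter.atTop
      (nhds (∫ ω, f (fun i => decide (Upper (tree d) ω (x i) (t i))) ∂(contactLaw (TV d) lam))) := by
  have : IsProbabilityMeasure (contactLaw (TV d) lam) := by
    unfold contactLaw; infer_instance
  refine tendsto_integral_of_dominated_convergence (fun _ => C) ?_ (integrable_const C) ?_ ?_
  · intro T
    exact (f2_meas f (fun i ω => Reach (tree d) ω (-(T : ℝ)) (x i) (t i))
      (fun i => measurableSet_reach _ _ _ _)).aestronglyMeasurable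
  · intro T
    exact Filter.Eventually.of_forall fun ω => hC _
  · refine Filter.Eventually.of_forall fun ω => ?_
    have h1 : ∀ i, ∀ᶠ T : ℕ in Filter.atTop,
        (Reach (tree d) ω (-(T : ℝ)) (x i) (t i) ↔ Upper (tree d) ω (x i) (t i)) := by
      intro i
      obtain ⟨n0, hn0⟩ := exists_nat_ge (-(t i : ℝ))
      by_cases hU : Upper (tree d) ω (x i) (t i)
      · filter_upwards [Filter.eventually_ge_atTop n0] with T hT
        have : (n0 : ℝ) ≤ T := by exact_mod_cast hT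
        exact ⟨fun _ => hU, fun _ => hU _ (by linarith)⟩
      · have h2 : ∃ n : ℕ, -(n : ℝ) ≤ t i ∧ ¬ Reach (tree d) ω (-(n : ℝ)) (x i) (t i) := by
          by_contra hcon
          push Not at hcon
          exact hU (upper_iff_nat.2 hcon)
        obtain ⟨n, hn, hnr⟩ := h2
        filter_upwards [Filter.eventually_ge_atTop n] with T hT
        have hTn : -(T : ℝ) ≤ -(n : ℝ) := by
          have : (n : ℝ) ≤ T := by exact_mod_cast hT
          linarith
        exact ⟨fun h => absurd (Reach.mono hTn hn h) hnr, fun h => absurd h hU⟩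
    have h3 : ∀ᶠ T : ℕ in Filter.atTop, ∀ i,
        (Reach (tree d) ω (-(T : ℝ)) (x i) (t i) ↔ Upper (tree d) ω (x i) (t i)) :=
      Filter.eventually_all.2 h1
    refine Filter.Tendsto.congr' ?_ tendsto_const_nhds
    filter_upwards [h3] with T hT
    congr 1
    funext i
    simp only [hT i]

theorem fdd_dom (d : ℕ) (hd : 2 ≤ d) (lam : ℝ≥0) (hl : 1 < (lam : ℝ) * ((d : ℝ) - 1)) :
    ∃ A : ℝ≥0, 0 < A ∧ ∀ (ι : Type) [Fintype ι] (x : ι → TV d) (t : ι → ℚ)
      (f : (ι → Bool) → ℝ), Monotone f →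
      ∫ ω, f (fun i => decide (FlipOn ω (x i) (t i))) ∂(flipLaw (TV d) A) ≤
        ∫ ω, f (fun i => decide (Upper (tree d) ω (x i) (t i))) ∂(contactLaw (TV d) lam) := by
  obtain ⟨kh, A, hkh, hA, N0, hN0, hS⟩ := f2_sto d hd lam hl
  refine ⟨A, hA, fun ι _ x t f hf => ?_⟩
  obtain ⟨C, hC0, hC⟩ : ∃ C : ℝ, 0 ≤ C ∧ ∀ v, |f v| ≤ C :=
    ⟨∑ v, |f v|, Finset.sum_nonneg fun v _ => abs_nonneg _, fun v =>
      Finset.single_le_sum (f := fun v => |f v|) (fun v _ => abs_nonneg _) (Finset.mem_univ v)⟩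
  set L : ℝ := ∫ ω, f (fun i => decide (FlipOn ω (x i) (t i))) ∂(flipLaw (TV d) A) with hL
  obtain ⟨T0, hT0⟩ : ∃ T0 : ℕ, ∀ i, -(T0 : ℝ) ≤ t i := by
    choose n hn using fun i : ι => exists_nat_ge (-(t i : ℝ))
    refine ⟨∑ i, n i, fun i => ?_⟩
    have h1 : n i ≤ ∑ i, n i := Finset.single_le_sum (fun j _ => Nat.zero_le (n j))
      (Finset.mem_univ i)
    have h2 : (n i : ℝ) ≤ ((∑ i, n i : ℕ) : ℝ) := by exact_mod_cast h1
    linarith [hn i]
  -- limit `n → ∞`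
  have hB : ∀ T : ℕ, T0 ≤ T → L ≤
      ∫ ω, f (fun i => decide (Reach (tree d) ω (-(T : ℝ)) (x i) (t i)))
        ∂(contactLaw (TV d) lam) + 2 * C * ∑ i, Real.exp (-((t i : ℝ) + T)) := by
    intro T hT
    have hT' : ∀ i, -(T : ℝ) ≤ t i := fun i => by
      have : (T0 : ℝ) ≤ T := by exact_mod_cast hT
      linarith [hT0 i]
    have h1 := fun n => f2_A hd lam A hkh hN0 hS x t f hf C hC0 hC T n hT'
    have h2 : Filter.Tendsto (fun n : ℕ =>
        ∫ ω, f (fun i => decide (Reach (tree d) ω (-(T : ℝ)) (x i) (t i)))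
          ∂(contactLaw (TV d) lam) +
        2 * C * ∑ i, (Real.exp (-((t i : ℝ) + T)) +
          (d * lam * ((t i : ℝ) + T)) ^ (n + 1) / (n + 1).factorial)) Filter.atTop
        (nhds (∫ ω, f (fun i => decide (Reach (tree d) ω (-(T : ℝ)) (x i) (t i)))
          ∂(contactLaw (TV d) lam) +
        2 * C * ∑ i, (Real.exp (-((t i : ℝ) + T)) + 0))) := by
      refine Filter.Tendsto.const_add _ (Filter.Tendsto.const_mul _
        (tendsto_finsetSum _ fun i _ => Filter.Tendsto.const_add _ ?_))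
      exact (FloorSemiring.tendsto_pow_div_factorial_atTop
        ((d : ℝ) * lam * ((t i : ℝ) + T))).comp (Filter.tendsto_add_atTop_nat 1)
    have h3 := ge_of_tendsto' h2 h1
    simpa using h3
  -- limit `T → ∞`
  have h4 : Filter.Tendsto (fun T : ℕ =>
      ∫ ω, f (fun i => decide (Reach (tree d) ω (-(T : ℝ)) (x i) (t i)))
        ∂(contactLaw (TV d) lam) + 2 * C * ∑ i, Real.exp (-((t i : ℝ) + T))) Filter.atTop
      (nhds (∫ ω, f (fun i => decide (Upper (tree d) ω (x i) (t i))) ∂(contactLaw (TV d) lam)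
        + 2 * C * ∑ _i : ι, (0 : ℝ))) := by
    refine (f2_lim d lam x t f C hC).add (Filter.Tendsto.const_mul _
        (tendsto_finsetSum _ fun i _ => ?_))
    have h5 : Filter.Tendsto (fun T : ℕ => (t i : ℝ) + T) Filter.atTop Filter.atTop :=
      Filter.tendsto_atTop_add_const_left _ _ tendsto_natCast_atTop_atTop
    exact Real.tendsto_exp_neg_atTop_nhds_zero.comp h5
  have h6 := ge_of_tendsto h4 (by
    filter_upwards [Filter.eventually_ge_atTop T0] with T hT using hB T hT)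
  simpa using h6

end H50CP
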