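import Pool.Agent.H50.CP.L1

/-!
# L2: independence of the past and of the future

`indep_res`: `F ω` only depends on the coordinates `ω i n`, `n < 0`, `res ω` on those with `n ≥ 0`.
Uncurry (`infinitePi_map_curry_symm`): the coordinates `(i, n)` are independent under a product
measure over `ι × ℤ`; split the index set (e.g. `iIndepFun.indepFun_...`, or: it suffices to check the
equality on products `S × B` with `B` a box in the coordinates `n ≥ 0` (π-system), or use
`Measure.map` of the product measure of two copies `(ω, ω')` under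
`(ω, ω') ↦ (n < 0 ? ω i n : ω' i n)`, which is `pois r` by `eq_infinitePi` on boxes; then
`F (mix ω ω') = F ω`, `res (mix ω ω') = res ω'`, so the law of the pair is the product).
`upper_dep`, `flip_dep`: marks `≤ 0` come from the indices `n < 0`; `Reach G ω s x t` for `t ≤ 0` only
uses marks `≤ 0` (induction on the derivation).
-/

namespace H50CP

open MeasureTheory ProbabilityTheory Set
open scoped NNReal ENNReal

private theorem L2_comap_le {ι : Type} (c : ι × ℤ) :
    (inferInstance : MeasurableSpace (ℕ × (ℕ → ℝ))).comap (fun ω : ι → Clk => ω c.1 c.2) ≤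
      (inferInstance : MeasurableSpace (ι → Clk)) := by
  have h : Measurable (fun ω : ι → Clk => ω c.1 c.2) := by fun_prop
  exact h.comap_le

private theorem L2_iIndep {ι : Type} (r : ι → ℝ≥0) :
    iIndepFun (fun (c : ι × ℤ) (ω : ι → Clk) => ω c.1 c.2) (pois r) := by
  unfold pois clk
  exact iIndepFun_uncurry_infinitePi' (X := fun _ _ b => b)
    (fun i _ => (poissonMeasure (r i)).prod (Measure.infinitePi fun _ : ℕ => unif))
    (fun _ _ => measurable_id)

/-- the σ-algebra generated by the cells in `S` -/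
@[instance_reducible] private def L2_F {ι : Type} (S : Set (ι × ℤ)) : MeasurableSpace (ι → Clk) :=
  ⨆ c ∈ S, (inferInstance : MeasurableSpace (ℕ × (ℕ → ℝ))).comap (fun ω : ι → Clk => ω c.1 c.2)

private theorem L2_coord {ι : Type} {S : Set (ι × ℤ)} (i : ι) (n : ℤ) (h : (i, n) ∈ S) :
    Measurable[L2_F S] (fun ω : ι → Clk => ω i n) := by
  rw [measurable_iff_comap_le]
  exact le_iSup₂_of_le (i, n) h le_rfl

private theorem L2_meas_res {ι : Type} :
    Measurable[L2_F {c : ι × ℤ | 0 ≤ c.2}] (res (ι := ι)) := by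
  refine @measurable_pi_lambda _ _ _ (L2_F _) _ _ fun i => ?_
  refine @measurable_pi_lambda _ _ _ (L2_F _) _ _ fun n => ?_
  exact L2_coord i (n : ℤ) (by simp)

private noncomputable def L2_past {ι : Type} (ω : ι → Clk) : ι → Clk :=
  fun i n => if n < 0 then ω i n else (0, fun _ => 0)

private theorem L2_meas_past {ι : Type} :
    Measurable[L2_F {c : ι × ℤ | c.2 < 0}] (L2_past (ι := ι)) := by
  refine @measurable_pi_lambda _ _ _ (L2_F _) _ _ fun i => ?_
  refine @measurable_pi_lambda _ _ _ (L2_F _) _ _ fun n => ?_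
  by_cases h : n < 0
  · have e : (fun ω : ι → Clk => L2_past ω i n) = fun ω => ω i n := by
      funext ω; simp [L2_past, h]
    rw [e]
    exact L2_coord i n h
  · have e : (fun ω : ι → Clk => L2_past ω i n) = fun _ => (0, fun _ => 0) := by
      funext ω; simp [L2_past, h]
    rw [e]
    exact measurable_const

theorem indep_res {ι : Type} (r : ι → ℝ≥0) {β : Type} [MeasurableSpace β]
    (F : (ι → Clk) → β) (hF : Measurable F)
    (hdep : ∀ ω ω' : ι → Clk, (∀ i, ∀ n : ℤ, n < 0 → ω i n = ω' i n) → F ω = F ω') :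
    (pois r).map (fun ω => (F ω, res ω)) = ((pois r).map F).prod (ppois r) := by
  have hI := indep_iSup_of_disjoint (S := {c : ι × ℤ | c.2 < 0}) (T := {c : ι × ℤ | 0 ≤ c.2})
    (fun c => L2_comap_le c) (L2_iIndep r).iIndep (by
      rw [Set.disjoint_left]
      intro c h1 h2
      simp only [Set.mem_ofPred_eq] at h1 h2
      omega)
  have hIF : IndepFun F res (pois r) := by
    rw [IndepFun_iff_Indep]
    refine indep_of_indep_of_le_left (indep_of_indep_of_le_right hI ?_) ?_
    · exact (measurable_iff_comap_le.1 (L2_meas_res (ι := ι)))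
    · have e : F = F ∘ L2_past := by
        funext ω
        refine hdep _ _ fun i n hn => ?_
        simp [L2_past, hn]
      have hm : Measurable[L2_F {c : ι × ℤ | c.2 < 0}] F := by
        rw [e]
        exact hF.comp L2_meas_past
      exact measurable_iff_comap_le.1 hm
  rw [← res_law r]
  exact (indepFun_iff_map_prod_eq_prod_map_map hF.aemeasurable
    measurable_res.aemeasurable).1 hIF

private theorem L2_marks {c c' : Clk} (h : ∀ n : ℤ, n < 0 → c n = c' n) {t : ℝ} (ht : t ≤ 0) :
    t ∈ marks c ↔ t ∈ marks c' := by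
  have key : ∀ (c : Clk) (n : ℤ) (j : ℕ), 0 < (c n).2 j → t = n + (c n).2 j → n < 0 := by
    intro c n j h1 h2
    have : (n : ℝ) < 0 := by linarith
    exact_mod_cast this
  constructor
  · rintro ⟨n, j, h1, h2, h3, h4⟩
    have hn := key c n j h2 h4
    rw [h n hn] at h1 h2 h3 h4
    exact ⟨n, j, h1, h2, h3, h4⟩
  · rintro ⟨n, j, h1, h2, h3, h4⟩
    have hn := key c' n j h2 h4
    rw [← h n hn] at h1 h2 h3 h4
    exact ⟨n, j, h1, h2, h3, h4⟩

private theorem L2_reach {V : Type} (G : SimpleGraph V) {ω ω' : CΩ V}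
    (h : ∀ i, ∀ n : ℤ, n < 0 → ω i n = ω' i n) {s : ℝ} {x : V} {t : ℝ}
    (hr : Reach G ω s x t) : t ≤ 0 → Reach G ω' s x t := by
  induction hr with
  | start x t hst hh =>
    intro ht
    refine Reach.start x t hst fun v hv hvv => ?_
    exact hh v ((L2_marks (h _) (hvv.2.trans ht)).2 hv) hvv
  | arrow x y u t hyx hsu hut hu hy hh ih =>
    intro ht
    refine Reach.arrow x y u t hyx hsu hut ((L2_marks (h _) (hut.trans ht)).1 hu)
      (ih (hut.trans ht)) fun v hv hvv => ?_
    exact hh v ((L2_marks (h _) (hvv.2.trans ht)).2 hv) hvv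

theorem upper_dep {V : Type} (G : SimpleGraph V) (ω ω' : CΩ V)
    (h : ∀ i, ∀ n : ℤ, n < 0 → ω i n = ω' i n) (x : V) :
    Upper G ω x 0 ↔ Upper G ω' x 0 := by
  constructor
  · intro hu s hs
    exact L2_reach G h (hu s hs) le_rfl
  · intro hu s hs
    exact L2_reach G (fun i n hn => (h i n hn).symm) (hu s hs) le_rfl

theorem flip_dep {V : Type} (ω ω' : FΩ V)
    (h : ∀ i, ∀ n : ℤ, n < 0 → ω i n = ω' i n) (x : V) :
    FlipOn ω x 0 ↔ FlipOn ω' x 0 := by
  constructor
  · rintro ⟨u, hu, hu0, hh⟩
    exact ⟨u, (L2_marks (h _) hu0).1 hu, hu0, fun v hv hvv =>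
      hh v ((L2_marks (h _) hvv.2).2 hv) hvv⟩
  · rintro ⟨u, hu, hu0, hh⟩
    exact ⟨u, (L2_marks (h _) hu0).2 hu, hu0, fun v hv hvv =>
      hh v ((L2_marks (h _) hvv.2).1 hv) hvv⟩

end H50CP
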