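import Pool.Agent.H50.CP.L1
import Pool.Agent.H50.CP.D2

/-!
# L3: the law of the configuration at time 0 of the two-sided process is the upper invariant measure

Integer shift: `sh n ω i m = ω i (m - n)`; `(pois r).map (sh n) = pois r` (reindexing of a product
measure by a bijection of `ℤ`); `marks (sh n ω i) = marks (ω i) + n`, so
`Reach G (sh n ω) (s + n) x (t + n) ↔ Reach G ω s x t`.
`upper_inv`: by `inf_res_iff`, `res_law`, `reach_shift`: the probability in `IsUpperInv` is
`P(∀ x ∈ A, Reach G ω (-n) x 0)`, a decreasing sequence of events (`Reach.mono`) with intersection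
`{∀ x ∈ A, Upper G ω x 0}` (`upper_iff_nat`): `tendsto_measure_iInter_atTop`.
`IsUpperInv.unique`: the sets `{η | ∀ x ∈ A, η x = true}` form a π-system generating the σ-algebra
(`V` countable is not needed): `MeasureTheory.ext_of_generate_finite`.
-/

namespace H50CP

open MeasureTheory ProbabilityTheory Set
open scoped NNReal ENNReal Classical

/-! ### integer time shift -/

/-- time shift of one clock -/
def L3_shc (n : ℤ) (c : Clk) : Clk := fun m => c (m - n)

/-- time shift of a family of clocks -/
def L3_sh {ι : Type} (n : ℤ) (ω : ι → Clk) : ι → Clk := fun i => L3_shc n (ω i)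

theorem L3_measurable_shc (n : ℤ) : Measurable (L3_shc n) := by
  unfold L3_shc
  exact measurable_pi_lambda _ fun m => measurable_pi_apply _

theorem L3_measurable_sh {ι : Type} (n : ℤ) : Measurable (L3_sh (ι := ι) n) := by
  unfold L3_sh
  exact measurable_pi_lambda _ fun i => (L3_measurable_shc n).comp (measurable_pi_apply _)

theorem L3_shc_law (n : ℤ) (r : ℝ≥0) : (clk r).map (L3_shc n) = clk r := by
  have h : Function.Injective (fun m : ℤ => m - n) := fun a b h => by simpa using h
  unfold clk
  exact Measure.map_infinitePi_infinitePi_of_inj (Ω := fun _ : ℤ => ℕ × (ℕ → ℝ))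
    (P := fun _ : ℤ => (poissonMeasure r).prod (Measure.infinitePi fun _ : ℕ => unif)) h

theorem L3_sh_law {ι : Type} (n : ℤ) (r : ι → ℝ≥0) : (pois r).map (L3_sh n) = pois r := by
  unfold pois L3_sh
  rw [Measure.infinitePi_map_pi _ (fun _ => L3_measurable_shc n)]
  congr 1
  funext i
  exact L3_shc_law n (r i)

theorem L3_mem_marks (n : ℤ) (c : Clk) (t : ℝ) :
    t + n ∈ marks (L3_shc n c) ↔ t ∈ marks c := by
  constructor
  · rintro ⟨m, j, h1, h2, h3, h4⟩
    refine ⟨m - n, j, h1, h2, h3, ?_⟩
    unfold L3_shc at h4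
    push_cast
    linarith
  · rintro ⟨m, j, h1, h2, h3, h4⟩
    refine ⟨m + n, j, ?_, ?_, ?_, ?_⟩
    · simpa [L3_shc] using h1
    · simpa [L3_shc] using h2
    · simpa [L3_shc] using h3
    · simp only [L3_shc, add_sub_cancel_right]
      push_cast
      linarith

theorem L3_sh_neg {ι : Type} (n : ℤ) (ω : ι → Clk) : L3_sh (-n) (L3_sh n ω) = ω := by
  funext i m
  simp [L3_sh, L3_shc]

theorem L3_reach_sh' {V : Type} {G : SimpleGraph V} {ω : CΩ V} {s t : ℝ} {x : V} (n : ℤ)
    (h : Reach G ω s x t) : Reach G (L3_sh n ω) (s + n) x (t + n) := by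
  have key : ∀ (c : Clk) (u t : ℝ), (∀ v ∈ marks c, ¬ (u < v ∧ v ≤ t)) →
      ∀ v ∈ marks (L3_shc n c), ¬ (u + n < v ∧ v ≤ t + n) := by
    intro c u t h v hv hv'
    have h1 : (v - n) + n ∈ marks (L3_shc n c) := by rwa [sub_add_cancel]
    rw [L3_mem_marks] at h1
    exact h _ h1 ⟨by linarith, by linarith⟩
  induction h with
  | start x t hst h => exact Reach.start x (t + n) (by linarith) (key _ _ _ h)
  | arrow x y u t hyx hsu hut hu hy h ih =>
    exact Reach.arrow x y (u + n) (t + n) hyx (by linarith) (by linarith)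
      ((L3_mem_marks n _ u).2 hu) ih (key _ _ _ h)

theorem L3_reach_sh {V : Type} {G : SimpleGraph V} {ω : CΩ V} {s t : ℝ} {x : V} (n : ℤ) :
    Reach G (L3_sh n ω) (s + n) x (t + n) ↔ Reach G ω s x t := by
  refine ⟨fun h => ?_, L3_reach_sh' n⟩
  have h1 := L3_reach_sh' (-n) h
  rw [L3_sh_neg] at h1
  simpa using h1

theorem L3_meas_ball {Ω V : Type} [MeasurableSpace Ω] (A : Finset V) {p : V → Ω → Prop}
    (h : ∀ x, MeasurableSet {ω | p x ω}) : MeasurableSet {ω | ∀ x ∈ A, p x ω} := by
  have : {ω | ∀ x ∈ A, p x ω} = ⋂ x ∈ A, {ω | p x ω} := by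
    ext ω
    simp
  rw [this]
  exact A.measurableSet_biInter fun x _ => h x

theorem reach_shift {V : Type} (G : SimpleGraph V) (lam : ℝ≥0) [Countable V] (A : Finset V)
    (n : ℕ) :
    contactLaw V lam {ω | ∀ x ∈ A, Reach G ω 0 x n} =
      contactLaw V lam {ω | ∀ x ∈ A, Reach G ω (-(n : ℝ)) x 0} := by
  have hm : MeasurableSet {ω : CΩ V | ∀ x ∈ A, Reach G ω 0 x n} :=
    L3_meas_ball A fun x => measurableSet_reach G 0 n x
  have h1 : contactLaw V lam {ω | ∀ x ∈ A, Reach G ω 0 x n} =
      ((contactLaw V lam).map (L3_sh n)) {ω | ∀ x ∈ A, Reach G ω 0 x n} := by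
    unfold contactLaw
    rw [L3_sh_law]
  rw [h1, Measure.map_apply (L3_measurable_sh n) hm]
  congr 1
  ext ω
  simp only [mem_preimage, mem_ofPred_eq]
  refine forall_congr' fun x => imp_congr_right fun _ => ?_
  have := L3_reach_sh (G := G) (ω := ω) (s := -(n : ℝ)) (t := 0) (x := x) (n : ℤ)
  rw [← this]
  simp

/-! ### extension of the clocks on the half line -/

/-- extension of clocks on the half line by empty clocks -/
def L3_emb {ι : Type} (ω : ι → PClk) : ι → Clk := fun i m =>
  if 0 ≤ m then ω i m.toNat else (0, fun _ => 0)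

theorem L3_measurable_emb {ι : Type} : Measurable (L3_emb (ι := ι)) := by
  refine measurable_pi_lambda _ fun i => measurable_pi_lambda _ fun m => ?_
  unfold L3_emb
  by_cases h : 0 ≤ m
  · simp only [if_pos h]
    exact (measurable_pi_apply _).comp (measurable_pi_apply _)
  · simp only [if_neg h]
    exact measurable_const

theorem L3_res_emb {ι : Type} (ω : ι → PClk) : res (L3_emb ω) = ω := by
  funext i n
  simp [res, L3_emb]

theorem L3_meas_inf {V : Type} [Countable V] (G : SimpleGraph V) (t : ℝ) (x : V) :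
    MeasurableSet {ω : CS V | Inf G ω (fun _ => true) x t} := by
  have h : {ω : CS V | Inf G ω (fun _ => true) x t} =
      L3_emb ⁻¹' {ω : CΩ V | Reach G ω 0 x t} := by
    ext ω
    simp only [mem_preimage, mem_ofPred_eq]
    rw [← inf_res_iff, L3_res_emb]
  rw [h]
  exact L3_measurable_emb (measurableSet_reach G 0 t x)

theorem L3_measurable_upper {V : Type} [Countable V] (G : SimpleGraph V) :
    Measurable (fun (ω : CΩ V) (x : V) => decide (Upper G ω x 0)) := by
  refine measurable_pi_lambda _ fun x => measurable_to_bool ?_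
  have : (fun ω : CΩ V => decide (Upper G ω x 0)) ⁻¹' {true} = {ω : CΩ V | Upper G ω x 0} := by
    ext ω
    simp
  rw [this]
  exact measurableSet_upper G 0 x

theorem L3_meas_cyl {V : Type} (A : Finset V) :
    MeasurableSet {η : V → Bool | ∀ x ∈ A, η x = true} := by
  refine L3_meas_ball A fun x => ?_
  have h1 : Measurable fun η : V → Bool => η x := measurable_pi_apply x
  exact h1 (measurableSet_singleton true)

theorem upper_inv {V : Type} [Countable V] (G : SimpleGraph V) (lam : ℝ≥0) :
    IsUpperInv G lam ((contactLaw V lam).map (fun ω x => decide (Upper G ω x 0))) := by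
  have : IsProbabilityMeasure (contactLaw V lam) := by unfold contactLaw; infer_instance
  refine ⟨Measure.isProbabilityMeasure_map (L3_measurable_upper G).aemeasurable, fun A => ?_⟩
  rw [Measure.map_apply (L3_measurable_upper G) (L3_meas_cyl A)]
  have h1 : ∀ n : ℕ, CL V lam {ω | ∀ x ∈ A, Inf G ω (fun _ => true) x n} =
      contactLaw V lam {ω | ∀ x ∈ A, Reach G ω (-(n : ℝ)) x 0} := by
    intro n
    rw [← reach_shift]
    have h2 : CL V lam = (contactLaw V lam).map res := by
      unfold CL contactLaw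
      rw [res_law]
    rw [h2, Measure.map_apply measurable_res (L3_meas_ball A fun x => L3_meas_inf G n x)]
    congr 1
    ext ω
    simp only [mem_preimage, mem_ofPred_eq]
    exact forall_congr' fun x => imp_congr_right fun _ => inf_res_iff G ω x n
  simp only [h1]
  have h3 : (fun (ω : CΩ V) (x : V) => decide (Upper G ω x 0)) ⁻¹'
      {η : V → Bool | ∀ x ∈ A, η x = true} =
      ⋂ n : ℕ, {ω : CΩ V | ∀ x ∈ A, Reach G ω (-(n : ℝ)) x 0} := by
    ext ω
    simp only [mem_preimage, mem_ofPred_eq, decide_eq_true_eq, mem_iInter]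
    constructor
    · intro h n x hx
      exact upper_iff_nat.1 (h x hx) n (by simp)
    · intro h x hx
      exact upper_iff_nat.2 fun n _ => h n x hx
  rw [h3]
  refine tendsto_measure_iInter_atTop
    (fun n => (L3_meas_ball A fun x => measurableSet_reach G _ 0 x).nullMeasurableSet) ?_
    ⟨0, measure_ne_top _ _⟩
  intro m n hmn ω hω x hx
  refine Reach.mono (neg_le_neg (Nat.cast_le.2 hmn)) (by simp) (hω x hx)

theorem IsUpperInv.unique {V : Type} {G : SimpleGraph V} {lam : ℝ≥0}
    {ν ν' : Measure (V → Bool)} (h : IsUpperInv G lam ν) (h' : IsUpperInv G lam ν') :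
    ν = ν' := by
  have := h.1
  have := h'.1
  have hC : ∀ A : Finset V, ν {η | ∀ x ∈ A, η x = true} = ν' {η | ∀ x ∈ A, η x = true} :=
    fun A => tendsto_nhds_unique (h.2 A) (h'.2 A)
  set C : Set (Set (V → Bool)) := {S | ∃ A : Finset V, S = {η | ∀ x ∈ A, η x = true}} with hCd
  refine ext_of_generate_finite C ?_ ?_ ?_ (by simp)
  · refine le_antisymm ?_ ?_
    · refine iSup_le fun x => ?_
      refine Measurable.comap_le (m₁ := MeasurableSpace.generateFrom C) ?_
      refine @measurable_to_bool _ (MeasurableSpace.generateFrom C) _ ?_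
      refine MeasurableSpace.measurableSet_generateFrom ⟨{x}, ?_⟩
      ext η
      simp
    · refine MeasurableSpace.generateFrom_le ?_
      rintro S ⟨A, rfl⟩
      exact L3_meas_cyl A
  · rintro S ⟨A, rfl⟩ T ⟨B, rfl⟩ -
    refine ⟨A ∪ B, ?_⟩
    ext η
    simp only [mem_inter_iff, mem_ofPred_eq, Finset.mem_union]
    constructor
    · rintro ⟨h1, h2⟩ x (hx | hx)
      · exact h1 x hx
      · exact h2 x hx
    · exact fun h => ⟨fun x hx => h x (Or.inl hx), fun x hx => h x (Or.inr hx)⟩
  · rintro S ⟨A, rfl⟩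
    exact hC A

end H50CP
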