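import Pool.Agent.H50.CP.LDef
import Pool.Agent.H50.CP.D5

/-!
# L4: arrow paths, deterministic part and probabilities of the discrete events

`arr_det`: claim (induction on `n`): if `Arr G ω (n+1) x t`, `t ≤ tm N 0 (k+1)`, `k < K`, no
`CG (n+1) x`, then there are `y ~ x` and `j ≤ k` with `H (inr (y,x)) j = true` and `DA G H n j y`.
(The arrow `y → x` at time `u > 0` lies in a slot `j ≤ k`.  `n = 0`: clear.  `n = m+1`: the claim for
`(m, y, u)` gives `z ~ y`, `j' ≤ j`, `H (inr (z,y)) j' = true`, `DA m j' z`; `j' = j` is a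
collision; so `j' < j` and `DA (m+1) j y` by monotonicity in `k`.)

`prob_DA`: `{DA (n+1) (k+1) x} ⊆ {DA (n+1) k x} ∪ ⋃_{y ~ x} {H (inr (y,x)) k = true} ∩ {DA n k y}`,
independence of slot `k` and of the slots `< k` (see the lemmas of D5, E2), at most `D` neighbours.
`prob_CG`: `P(CG (n+1) x) ≤ D² K a² + D sup_y P(CG n y)`; the two slot variables are different
coordinates.
-/

namespace H50CP

open MeasureTheory ProbabilityTheory Set
open scoped NNReal ENNReal

private theorem L4_DA_mono {V : Type} (G : SimpleGraph V) (H : (V ⊕ (V × V)) → ℕ → Bool)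
    {n k k' : ℕ} {x : V} (h : DA G H n k x) (hk : k ≤ k') : DA G H n k' x := by
  induction k', hk using Nat.le_induction with
  | base => exact h
  | succ k' _ ih =>
    cases n with
    | zero => simp [DA]
    | succ n => exact Or.inl ih

private theorem L4_tm_mono (N : ℕ) {i j : ℕ} (h : i ≤ j) : tm N 0 i ≤ tm N 0 j := by
  unfold tm
  have : (i : ℝ) / N ≤ (j : ℝ) / N := by
    gcongr
  linarith

private theorem L4_tm_zero (N : ℕ) : tm N 0 0 = 0 := by
  simp [tm]

private theorem L4_slot (N : ℕ) (u : ℝ) (k : ℕ) (h0 : 0 < u)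
    (hk : u ≤ tm N 0 (k + 1)) : ∃ j, j ≤ k ∧ tm N 0 j < u ∧ u ≤ tm N 0 (j + 1) := by
  induction k with
  | zero => exact ⟨0, le_refl _, by rw [L4_tm_zero]; exact h0, hk⟩
  | succ k ih =>
    by_cases h : u ≤ tm N 0 (k + 1)
    · obtain ⟨j, hj, h1, h2⟩ := ih h
      exact ⟨j, by omega, h1, h2⟩
    · exact ⟨k + 1, le_refl _, not_le.mp h, hk⟩

private theorem L4_claim {V : Type} (G : SimpleGraph V) (ω : CΩ V) (N K : ℕ) (n : ℕ) :
    ∀ (x : V) (t : ℝ) (k : ℕ), ¬ CG G (hits N 0 ω) K (n + 1) x → k < K → t ≤ tm N 0 (k + 1) →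
      Arr G ω (n + 1) x t → ∃ (y : V) (j : ℕ), G.Adj y x ∧ j ≤ k ∧
        hits N 0 ω (Sum.inr (y, x)) j = true ∧ DA G (hits N 0 ω) n j y := by
  induction n with
  | zero =>
    rintro x t k - hk ht ⟨y, u, hyx, hu, hu0, hut, -⟩
    obtain ⟨j, hjk, hj1, hj2⟩ := L4_slot N u k hu0 (le_trans hut ht)
    refine ⟨y, j, hyx, hjk, ?_, by simp [DA]⟩
    unfold hits hit
    simp only [decide_eq_true_eq]
    exact ⟨u, hu, hj1, hj2⟩
  | succ m ih =>
    rintro x t k hc hk ht ⟨y, u, hyx, hu, hu0, hut, hA⟩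
    obtain ⟨j, hjk, hj1, hj2⟩ := L4_slot N u k hu0 (le_trans hut ht)
    have hH : hits N 0 ω (Sum.inr (y, x)) j = true := by
      unfold hits hit
      simp only [decide_eq_true_eq]
      exact ⟨u, hu, hj1, hj2⟩
    have hcy : ¬ CG G (hits N 0 ω) K (m + 1) y := fun h => hc (Or.inr ⟨y, hyx, h⟩)
    obtain ⟨z, j', hzy, hj', hHz, hD⟩ := ih y u j hcy (by omega) hj2 hA
    refine ⟨y, j, hyx, hjk, hH, ?_⟩
    rcases Nat.eq_or_lt_of_le hj' with h | h
    · exfalso
      rw [h] at hHz
      exact hc (Or.inl ⟨y, z, j, by omega, hyx, hzy, hH, hHz⟩)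
    · have h1 : DA G (hits N 0 ω) (m + 1) (j' + 1) y := Or.inr ⟨z, hzy, hHz, hD⟩
      exact L4_DA_mono G _ h1 h

theorem arr_det {V : Type} (G : SimpleGraph V) (ω : CΩ V) (N K n : ℕ) (hN : 0 < N) (x : V)
    (hc : ¬ CG G (hits N 0 ω) K n x) (k : ℕ) (hk : k ≤ K)
    (h : Arr G ω n x (tm N 0 k)) : DA G (hits N 0 ω) n k x := by
  have _ := hN
  cases n with
  | zero => simp [DA]
  | succ m =>
    cases k with
    | zero =>
      exfalso
      obtain ⟨y, u, -, -, h0, h1, -⟩ := h
      rw [L4_tm_zero] at h1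
      linarith
    | succ k =>
      obtain ⟨y, j, hyx, hj, hH, hD⟩ := L4_claim G ω N K m x _ k hc hk (le_refl _) h
      have h1 : DA G (hits N 0 ω) (m + 1) (j + 1) x := Or.inr ⟨y, hyx, hH, hD⟩
      exact L4_DA_mono G _ h1 (Nat.succ_le_succ hj)

private theorem L4_meas_DA {V : Type} [Countable V] (G : SimpleGraph V) (k : ℕ) :
    ∀ (n : ℕ) (x : V), MeasurableSet[D5_F (V ⊕ (V × V)) k]
      {H : (V ⊕ (V × V)) → ℕ → Bool | DA G H n k x} := by
  induction k with
  | zero =>
    intro n x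
    cases n with
    | zero =>
      have : {H : (V ⊕ (V × V)) → ℕ → Bool | DA G H 0 0 x} = univ := by
        ext H; simp [DA]
      rw [this]; exact @MeasurableSet.univ _ _
    | succ n =>
      have : {H : (V ⊕ (V × V)) → ℕ → Bool | DA G H (n + 1) 0 x} = ∅ := by
        ext H; simp [DA]
      rw [this]; exact @MeasurableSet.empty _ (_)
  | succ k ih =>
    intro n x
    cases n with
    | zero =>
      have : {H : (V ⊕ (V × V)) → ℕ → Bool | DA G H 0 (k + 1) x} = univ := by
        ext H; simp [DA]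
      rw [this]; exact @MeasurableSet.univ _ _
    | succ n =>
      have : {H : (V ⊕ (V × V)) → ℕ → Bool | DA G H (n + 1) (k + 1) x} =
          {H | DA G H (n + 1) k x} ∪ ⋃ y : V, ({_H | G.Adj y x} ∩
            ({H | H (Sum.inr (y, x)) k = true} ∩ {H | DA G H n k y})) := by
        ext H
        simp [DA]
      rw [this]
      have hm := fun n y => D5_F_mono (ι := V ⊕ (V × V)) (Nat.le_succ k) _ (ih n y)
      have hc := fun c => D5_F_coord (ι := V ⊕ (V × V)) c (Nat.lt_succ_self k)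
      refine @MeasurableSet.union _ (_) _ _ (hm _ x) ?_
      exact @MeasurableSet.iUnion _ _ (_) _ _ fun y => @MeasurableSet.inter _ (_) _ _
        (@MeasurableSet.const _ (_) _) (@MeasurableSet.inter _ (_) _ _ (hc _) (hm _ _))

theorem measurableSet_DA {V : Type} [Countable V] (G : SimpleGraph V) (n k : ℕ) (x : V) :
    MeasurableSet {H : (V ⊕ (V × V)) → ℕ → Bool | DA G H n k x} :=
  D5_F_le k _ (L4_meas_DA G k n x)

theorem measurableSet_CG {V : Type} [Countable V] (G : SimpleGraph V) (K n : ℕ) (x : V) :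
    MeasurableSet {H : (V ⊕ (V × V)) → ℕ → Bool | CG G H K n x} := by
  induction n generalizing x with
  | zero =>
    have : {H : (V ⊕ (V × V)) → ℕ → Bool | CG G H K 0 x} = ∅ := by
      ext H; simp [CG]
    rw [this]; exact MeasurableSet.empty
  | succ n ih =>
    have : {H : (V ⊕ (V × V)) → ℕ → Bool | CG G H K (n + 1) x} =
        (⋃ y : V, ⋃ z : V, ⋃ k : ℕ, ({_H | k < K ∧ G.Adj y x ∧ G.Adj z y} ∩
          ({H | H (Sum.inr (y, x)) k = true} ∩ {H | H (Sum.inr (z, y)) k = true}))) ∪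
          ⋃ y : V, ({_H | G.Adj y x} ∩ {H | CG G H K n y}) := by
      ext H
      simp only [CG, mem_ofPred_eq, mem_union, mem_iUnion, mem_inter_iff]
      constructor
      · rintro (⟨y, z, k, h1, h2, h3, h4, h5⟩ | ⟨y, h1, h2⟩)
        · exact Or.inl ⟨y, z, k, ⟨h1, h2, h3⟩, h4, h5⟩
        · exact Or.inr ⟨y, h1, h2⟩
      · rintro (⟨y, z, k, ⟨h1, h2, h3⟩, h4, h5⟩ | ⟨y, h1, h2⟩)
        · exact Or.inl ⟨y, z, k, h1, h2, h3, h4, h5⟩
        · exact Or.inr ⟨y, h1, h2⟩
    rw [this]
    refine MeasurableSet.union ?_ ?_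
    · refine MeasurableSet.iUnion fun y => MeasurableSet.iUnion fun z =>
        MeasurableSet.iUnion fun k => ?_
      exact (MeasurableSet.const _).inter ((D5_meas_coord _ _).inter (D5_meas_coord _ _))
    · exact MeasurableSet.iUnion fun y => (MeasurableSet.const _).inter (ih y)

private theorem L4_sum_le {V : Type} (G : SimpleGraph V) (D : ℕ)
    (hD : ∀ x, (G.neighborSet x).Finite ∧ (G.neighborSet x).ncard ≤ D) (x : V) {b : ℝ}
    (hb : 0 ≤ b) : ∑ _y ∈ (hD x).1.toFinset, ENNReal.ofReal b ≤ ENNReal.ofReal (D * b) := by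
  rw [Finset.sum_const, nsmul_eq_mul, ← ENNReal.ofReal_natCast,
    ← ENNReal.ofReal_mul (Nat.cast_nonneg _)]
  apply ENNReal.ofReal_le_ofReal
  have h : (hD x).1.toFinset.card ≤ D := by
    rw [← Set.ncard_eq_toFinset_card _ (hD x).1]
    exact (hD x).2
  exact mul_le_mul_of_nonneg_right (by exact_mod_cast h) hb

theorem prob_DA {V : Type} [Countable V] (G : SimpleGraph V) (D : ℕ)
    (hD : ∀ x, (G.neighborSet x).Finite ∧ (G.neighborSet x).ncard ≤ D)
    {q a : ℝ} (ha0 : 0 ≤ a) (ha1 : a ≤ 1) (n k : ℕ) (x : V) :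
    (berLaw (pc q a)) {H : (V ⊕ (V × V)) → ℕ → Bool | DA G H n k x} ≤
      ENNReal.ofReal ((D * a * k) ^ n / n.factorial) := by
  have hpos : ∀ k : ℕ, (0:ℝ) ≤ D * a * k := fun k => by positivity
  induction k generalizing n x with
  | zero =>
    cases n with
    | zero =>
      refine prob_le_one.trans ?_
      simp
    | succ n =>
      have : {H : (V ⊕ (V × V)) → ℕ → Bool | DA G H (n + 1) 0 x} = ∅ := by
        ext H
        simp [DA]
      rw [this, measure_empty]
      exact zero_le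
  | succ k ih =>
    cases n with
    | zero =>
      refine prob_le_one.trans ?_
      simp
    | succ n =>
      have hsub : {H : (V ⊕ (V × V)) → ℕ → Bool | DA G H (n + 1) (k + 1) x} ⊆
          {H | DA G H (n + 1) k x} ∪ ⋃ y ∈ (hD x).1.toFinset,
            ({H | H (Sum.inr (y, x)) k = true} ∩ {H | DA G H n k y}) := by
        rintro H (h | ⟨y, h1, h2, h3⟩)
        · exact Or.inl h
        · right
          simp only [mem_iUnion]
          refine ⟨y, ?_, h2, h3⟩
          rw [Set.Finite.mem_toFinset]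
          exact h1.symm
      refine (measure_mono hsub).trans ((measure_union_le _ _).trans ?_)
      have h1 := ih (n + 1) x
      have h3 : ∀ y : V, (berLaw (pc q a))
          ({H : (V ⊕ (V × V)) → ℕ → Bool | H (Sum.inr (y, x)) k = true} ∩
            {H | DA G H n k y}) ≤
          ENNReal.ofReal (a * ((D * a * k) ^ n / n.factorial)) := by
        intro y
        have h4 := D5_indep (pc q a) (Sum.inr (y, x)) k
          {H : (V ⊕ (V × V)) → ℕ → Bool | DA G H n k y} ha0 ha1 (L4_meas_DA G k n y)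
        rw [h4, ENNReal.ofReal_mul ha0]
        exact mul_le_mul' le_rfl (ih n y)
      have e3 : (0:ℝ) ≤ a * ((D * a * k) ^ n / n.factorial) := by
        have := hpos k; positivity
      have h5 : (berLaw (pc q a)) (⋃ y ∈ (hD x).1.toFinset,
          ({H : (V ⊕ (V × V)) → ℕ → Bool | H (Sum.inr (y, x)) k = true} ∩ {H | DA G H n k y})) ≤
          ENNReal.ofReal (D * (a * ((D * a * k) ^ n / n.factorial))) :=
        (measure_biUnion_finset_le _ _).trans ((Finset.sum_le_sum fun y _ => h3 y).trans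
          (L4_sum_le G D hD x e3))
      refine (add_le_add h1 h5).trans ?_
      have e1 : (0:ℝ) ≤ (D * a * k) ^ (n + 1) / (n + 1).factorial := by
        have := hpos k; positivity
      rw [← ENNReal.ofReal_add e1 (by positivity)]
      apply ENNReal.ofReal_le_ofReal
      have hfac : (0:ℝ) < ((n + 1).factorial : ℝ) := by positivity
      have hfac' : ((n + 1).factorial : ℝ) = ((n : ℝ) + 1) * (n.factorial : ℝ) := by
        rw [Nat.factorial_succ]; push_cast; ring
      have hfn : (0:ℝ) < (n.factorial : ℝ) := by positivity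
      have key := D5_pow (D * a * k) (D * a) (hpos k) (by positivity) n
      have h4 : (D * a * k) ^ (n + 1) / ((n + 1).factorial : ℝ) +
          D * (a * ((D * a * k) ^ n / (n.factorial : ℝ))) =
          ((D * a * k) ^ (n + 1) + ((n : ℝ) + 1) * (D * a) * (D * a * k) ^ n) /
            ((n + 1).factorial : ℝ) := by
        rw [hfac']
        field_simp
      rw [h4, div_le_div_iff_of_pos_right hfac]
      refine key.trans (le_of_eq ?_)
      push_cast
      ring

theorem prob_CG {V : Type} [Countable V] (G : SimpleGraph V) (D : ℕ)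
    (hD : ∀ x, (G.neighborSet x).Finite ∧ (G.neighborSet x).ncard ≤ D)
    {q a : ℝ} (ha0 : 0 ≤ a) (ha1 : a ≤ 1) (K n : ℕ) (x : V) :
    (berLaw (pc q a)) {H : (V ⊕ (V × V)) → ℕ → Bool | CG G H K n x} ≤
      ENNReal.ofReal (n * (D + 1) ^ (n + 2) * K * a ^ 2) := by
  induction n generalizing x with
  | zero =>
    have : {H : (V ⊕ (V × V)) → ℕ → Bool | CG G H K 0 x} = ∅ := by
      ext H
      simp [CG]
    rw [this, measure_empty]
    exact zero_le
  | succ n ih =>
    have hsub : {H : (V ⊕ (V × V)) → ℕ → Bool | CG G H K (n + 1) x} ⊆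
        (⋃ y ∈ (hD x).1.toFinset, ⋃ z ∈ (hD y).1.toFinset, ⋃ k ∈ Finset.range K,
          ({_H | G.Adj y x} ∩
          ({H | H (Sum.inr (y, x)) k = true} ∩ {H | H (Sum.inr (z, y)) k = true}))) ∪
          ⋃ y ∈ (hD x).1.toFinset, {H | CG G H K n y} := by
      rintro H (⟨y, z, k, h1, h2, h3, h4, h5⟩ | ⟨y, h1, h2⟩)
      · left
        simp only [mem_iUnion]
        refine ⟨y, ?_, z, ?_, k, Finset.mem_range.mpr h1, h2, h4, h5⟩
        · rw [Set.Finite.mem_toFinset]; exact h2.symm
        · rw [Set.Finite.mem_toFinset]; exact h3.symm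
      · right
        simp only [mem_iUnion]
        refine ⟨y, ?_, h2⟩
        rw [Set.Finite.mem_toFinset]; exact h1.symm
    refine (measure_mono hsub).trans ((measure_union_le _ _).trans ?_)
    have hE : ∀ (y z : V) (k : ℕ), (berLaw (pc q a))
        ({_H : (V ⊕ (V × V)) → ℕ → Bool | G.Adj y x} ∩
          ({H | H (Sum.inr (y, x)) k = true} ∩ {H | H (Sum.inr (z, y)) k = true})) ≤
        ENNReal.ofReal (a ^ 2) := by
      intro y z k
      by_cases hyx : G.Adj y x
      · refine (measure_mono inter_subset_right).trans ?_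
        have e1 := D5_pair (pc q a) (Sum.inr (y, x) : V ⊕ (V × V)) (Sum.inr (z, y)) k (by
          intro h
          simp only [Sum.inr.injEq, Prod.mk.injEq] at h
          exact hyx.ne h.2.symm) ha0 ha1 ha0 ha1
        have e3 : ∀ c, ENNReal.ofReal (pc q a (Sum.inr c : V ⊕ (V × V))) = ENNReal.ofReal a :=
          fun _ => rfl
        rw [e1, e3, e3, ← ENNReal.ofReal_mul ha0]
        exact ENNReal.ofReal_le_ofReal (le_of_eq (by ring))
      · have : ({_H : (V ⊕ (V × V)) → ℕ → Bool | G.Adj y x} ∩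
          ({H | H (Sum.inr (y, x)) k = true} ∩ {H | H (Sum.inr (z, y)) k = true})) = ∅ := by
          ext H
          simp [hyx]
        rw [this, measure_empty]
        exact zero_le
    have ha2 : (0:ℝ) ≤ a ^ 2 := by positivity
    have hA : (berLaw (pc q a)) (⋃ y ∈ (hD x).1.toFinset, ⋃ z ∈ (hD y).1.toFinset,
        ⋃ k ∈ Finset.range K, ({_H : (V ⊕ (V × V)) → ℕ → Bool | G.Adj y x} ∩
          ({H | H (Sum.inr (y, x)) k = true} ∩ {H | H (Sum.inr (z, y)) k = true}))) ≤
        ENNReal.ofReal (D * (D * (K * a ^ 2))) := by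
      refine (measure_biUnion_finset_le _ _).trans ?_
      refine (Finset.sum_le_sum fun y _ => ?_).trans
        (L4_sum_le G D hD x (b := D * (K * a ^ 2)) (by positivity))
      refine (measure_biUnion_finset_le _ _).trans ?_
      refine (Finset.sum_le_sum fun z _ => ?_).trans
        (L4_sum_le G D hD y (b := K * a ^ 2) (by positivity))
      refine (measure_biUnion_finset_le _ _).trans ?_
      refine (Finset.sum_le_sum fun k _ => hE y z k).trans (le_of_eq ?_)
      rw [Finset.sum_const, Finset.card_range, nsmul_eq_mul, ← ENNReal.ofReal_natCast,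
        ← ENNReal.ofReal_mul (Nat.cast_nonneg _)]
    have hB : (berLaw (pc q a)) (⋃ y ∈ (hD x).1.toFinset,
        {H : (V ⊕ (V × V)) → ℕ → Bool | CG G H K n y}) ≤
        ENNReal.ofReal (D * (n * (D + 1) ^ (n + 2) * K * a ^ 2)) := by
      refine (measure_biUnion_finset_le _ _).trans ?_
      exact (Finset.sum_le_sum fun y _ => ih y).trans (L4_sum_le G D hD x (by positivity))
    refine (add_le_add hA hB).trans ?_
    rw [← ENNReal.ofReal_add (by positivity) (by positivity)]
    apply ENNReal.ofReal_le_ofReal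
    have hD0 : (0:ℝ) ≤ D := Nat.cast_nonneg D
    have hKa : (0:ℝ) ≤ K * a ^ 2 := by positivity
    have h1 : (D:ℝ) * D ≤ (D + 1) ^ (n + 3) := by
      calc (D:ℝ) * D ≤ ((D:ℝ) + 1) ^ 2 := by nlinarith
        _ ≤ ((D:ℝ) + 1) ^ (n + 3) := pow_le_pow_right₀ (by linarith) (by omega)
    have h2 : (D:ℝ) * (D + 1) ^ (n + 2) ≤ (D + 1) ^ (n + 3) := by
      rw [pow_succ ((D:ℝ) + 1) (n + 2)]
      have : (0:ℝ) ≤ ((D:ℝ) + 1) ^ (n + 2) := by positivity
      nlinarith
    have h3 : (D:ℝ) * (D * (K * a ^ 2)) ≤ (D + 1) ^ (n + 3) * (K * a ^ 2) := by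
      calc (D:ℝ) * (D * (K * a ^ 2)) = (D * D) * (K * a ^ 2) := by ring
        _ ≤ _ := mul_le_mul_of_nonneg_right h1 hKa
    have h4 : (D:ℝ) * (n * (D + 1) ^ (n + 2) * K * a ^ 2) ≤
        n * ((D + 1) ^ (n + 3) * (K * a ^ 2)) := by
      calc (D:ℝ) * (n * (D + 1) ^ (n + 2) * K * a ^ 2)
          = n * ((D * (D + 1) ^ (n + 2)) * (K * a ^ 2)) := by ring
        _ ≤ _ := mul_le_mul_of_nonneg_left (mul_le_mul_of_nonneg_right h2 hKa)
          (Nat.cast_nonneg n)
    calc (D:ℝ) * (D * (K * a ^ 2)) + D * (n * (D + 1) ^ (n + 2) * K * a ^ 2)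
        ≤ (D + 1) ^ (n + 3) * (K * a ^ 2) + n * ((D + 1) ^ (n + 3) * (K * a ^ 2)) :=
          add_le_add h3 h4
      _ = ((n + 1 : ℕ) : ℝ) * (D + 1) ^ (n + 1 + 2) * K * a ^ 2 := by
        push_cast
        ring

end H50CP
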