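import Pool.Agent.H50.CP.D1
import Pool.Agent.H50.CP.L4

/-!
# L5: almost surely all backward arrow clusters are finite

For fixed `x`, `T`, `n` and every `N`: `{Arr G ω n x T} ⊆ {hits ∈ DA n (N T) x} ∪ {hits ∈ CG (N T) n x}`
(`arr_det`, `tm N 0 (N T) = T`), so by `hits_law`, `prob_DA`, `prob_CG` with `a = 1 - exp(-lam/N) ≤
lam/N`, `K = k = N T`: `P ≤ (D lam T)^n/n! + n (D+1)^(n+2) T lam²/N`.  Let `N → ∞`:
`P(Arr n x T) ≤ (D lam T)^n/n!`, then `n → ∞`: `P(∀ n, Arr n x T) = 0`.  Countable union over `x`, `T`.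
-/

namespace H50CP

open MeasureTheory ProbabilityTheory Set
open scoped NNReal ENNReal

private theorem L5_step {V : Type} [Countable V] (G : SimpleGraph V) (D : ℕ)
    (hD : ∀ x, (G.neighborSet x).Finite ∧ (G.neighborSet x).ncard ≤ D) (lam : ℝ≥0)
    (x : V) (T n N : ℕ) (hN : 0 < N) :
    contactLaw V lam {ω | Arr G ω n x (T : ℝ)} ≤
      ENNReal.ofReal ((D * lam * T) ^ n / n.factorial) +
        ENNReal.ofReal (n * (D + 1) ^ (n + 2) * T * lam ^ 2 * (1 / N)) := by
  have hN' : (0 : ℝ) < N := by exact_mod_cast hN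
  set q : ℝ := 1 - Real.exp (-(((1 : ℝ≥0) : ℝ) / N)) with hq
  set a : ℝ := 1 - Real.exp (-((lam : ℝ) / N)) with ha
  have ha0 : 0 ≤ a := by
    have : Real.exp (-((lam : ℝ) / N)) ≤ 1 := by
      rw [Real.exp_le_one_iff]
      have : 0 ≤ (lam : ℝ) / N := by positivity
      linarith
    rw [ha]; linarith
  have ha1 : a ≤ 1 := by
    have := Real.exp_pos (-((lam : ℝ) / N))
    rw [ha]; linarith
  have haN : a ≤ lam / N := by
    have := Real.add_one_le_exp (-((lam : ℝ) / N))
    rw [ha]; linarith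
  have haNN : a * N ≤ lam := by rwa [le_div_iff₀ hN'] at haN
  have hlaw : (contactLaw V lam).map (fun ω => hits N 0 ω) = berLaw (pc q a) := by
    unfold contactLaw
    rw [hits_law _ N 0 hN]
    congr 1
    funext i
    rcases i with i | i <;> rfl
  have htm : tm N 0 (N * T) = (T : ℝ) := by
    unfold tm
    push_cast
    field_simp
    ring
  have hsub : {ω : CΩ V | Arr G ω n x (T : ℝ)} ⊆
      (fun ω => hits N 0 ω) ⁻¹' ({H | DA G H n (N * T) x} ∪ {H | CG G H (N * T) n x}) := by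
    intro ω hω
    by_cases hc : CG G (hits N 0 ω) (N * T) n x
    · exact Or.inr hc
    · left
      exact arr_det G ω N (N * T) n hN x hc (N * T) le_rfl (by rw [htm]; exact hω)
  have hmeas : MeasurableSet ({H : (V ⊕ (V × V)) → ℕ → Bool | DA G H n (N * T) x} ∪
      {H | CG G H (N * T) n x}) :=
    (measurableSet_DA G n (N * T) x).union (measurableSet_CG G (N * T) n x)
  calc contactLaw V lam {ω | Arr G ω n x (T : ℝ)}
      ≤ contactLaw V lam ((fun ω => hits N 0 ω) ⁻¹'
          ({H | DA G H n (N * T) x} ∪ {H | CG G H (N * T) n x})) := measure_mono hsub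
    _ = (contactLaw V lam).map (fun ω => hits N 0 ω)
          ({H | DA G H n (N * T) x} ∪ {H | CG G H (N * T) n x}) := by
        rw [Measure.map_apply (measurable_hits N 0) hmeas]
    _ = berLaw (pc q a) ({H | DA G H n (N * T) x} ∪ {H | CG G H (N * T) n x}) := by rw [hlaw]
    _ ≤ berLaw (pc q a) {H | DA G H n (N * T) x} + berLaw (pc q a) {H | CG G H (N * T) n x} :=
        measure_union_le _ _
    _ ≤ ENNReal.ofReal ((D * a * ((N * T : ℕ) : ℝ)) ^ n / n.factorial) +
          ENNReal.ofReal (n * (D + 1) ^ (n + 2) * ((N * T : ℕ) : ℝ) * a ^ 2) :=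
        add_le_add (prob_DA G D hD ha0 ha1 n (N * T) x) (prob_CG G D hD ha0 ha1 (N * T) n x)
    _ ≤ _ := by
        refine add_le_add (ENNReal.ofReal_le_ofReal ?_) (ENNReal.ofReal_le_ofReal ?_)
        · refine div_le_div_of_nonneg_right (pow_le_pow_left₀ (by positivity) ?_ n) (by positivity)
          push_cast
          calc (D : ℝ) * a * (N * T) = D * (a * N) * T := by ring
            _ ≤ D * lam * T := by gcongr
        · push_cast
          have h1 : (N : ℝ) * a ^ 2 ≤ (lam : ℝ) ^ 2 * (1 / N) := by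
            have h2 : (a * N) ^ 2 ≤ (lam : ℝ) ^ 2 := pow_le_pow_left₀ (by positivity) haNN 2
            rw [mul_one_div, le_div_iff₀ hN']
            calc (N : ℝ) * a ^ 2 * N = (a * N) ^ 2 := by ring
              _ ≤ _ := h2
          calc (n : ℝ) * (D + 1) ^ (n + 2) * (N * T) * a ^ 2
              = n * (D + 1) ^ (n + 2) * T * (N * a ^ 2) := by ring
            _ ≤ n * (D + 1) ^ (n + 2) * T * ((lam : ℝ) ^ 2 * (1 / N)) := by gcongr
            _ = n * (D + 1) ^ (n + 2) * T * (lam : ℝ) ^ 2 * (1 / N) := by ring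

private theorem L5_bound {V : Type} [Countable V] (G : SimpleGraph V) (D : ℕ)
    (hD : ∀ x, (G.neighborSet x).Finite ∧ (G.neighborSet x).ncard ≤ D) (lam : ℝ≥0)
    (x : V) (T n : ℕ) :
    contactLaw V lam {ω | Arr G ω n x (T : ℝ)} ≤
      ENNReal.ofReal ((D * lam * T) ^ n / n.factorial) := by
  set B : ℝ := n * (D + 1) ^ (n + 2) * T * lam ^ 2 with hB
  have h1 : Filter.Tendsto (fun m : ℕ => ENNReal.ofReal ((D * lam * T) ^ n / n.factorial) +
      ENNReal.ofReal (B * (1 / ((m : ℝ) + 1)))) Filter.atTop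
      (nhds (ENNReal.ofReal ((D * lam * T) ^ n / n.factorial) + ENNReal.ofReal (B * 0))) := by
    refine Filter.Tendsto.add tendsto_const_nhds ?_
    refine ENNReal.tendsto_ofReal ?_
    exact tendsto_one_div_add_atTop_nhds_zero_nat.const_mul B
  rw [mul_zero, ENNReal.ofReal_zero, add_zero] at h1
  refine ge_of_tendsto' h1 fun m => ?_
  have := L5_step G D hD lam x T n (m + 1) (Nat.succ_pos m)
  rw [hB]
  push_cast at this
  exact this

theorem arr_finite {V : Type} [Countable V] (G : SimpleGraph V) (D : ℕ)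
    (hD : ∀ x, (G.neighborSet x).Finite ∧ (G.neighborSet x).ncard ≤ D) (lam : ℝ≥0) :
    ∀ᵐ ω ∂(contactLaw V lam), ∀ (x : V) (T : ℕ), ∃ n, ¬ Arr G ω n x T := by
  rw [ae_all_iff]
  intro x
  rw [ae_all_iff]
  intro T
  rw [ae_iff]
  have hset : {ω : CΩ V | ¬ ∃ n, ¬ Arr G ω n x (T : ℝ)} = {ω | ∀ n, Arr G ω n x (T : ℝ)} := by
    ext ω
    simp
  rw [hset]
  have h0 : Filter.Tendsto (fun n : ℕ => ENNReal.ofReal ((D * lam * T) ^ n / n.factorial))
      Filter.atTop (nhds (ENNReal.ofReal 0)) :=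
    ENNReal.tendsto_ofReal (FloorSemiring.tendsto_pow_div_factorial_atTop ((D : ℝ) * lam * T))
  rw [ENNReal.ofReal_zero] at h0
  refine le_antisymm (ge_of_tendsto' h0 fun n => ?_) zero_le
  refine le_trans (measure_mono ?_) (L5_bound G D hD lam x T n)
  intro ω hω
  exact hω n

end H50CP
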