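import Pool.Agent.H50.CP.Disc

/-! # LDef: arrow paths -/

namespace H50CP

open MeasureTheory ProbabilityTheory Set
open scoped NNReal ENNReal

/-- there is a path of `n` arrows, at times in `(0, t]`, ending at `(x, t)` -/
def Arr {V : Type} (G : SimpleGraph V) (ω : CΩ V) : ℕ → V → ℝ → Prop
  | 0, _, _ => True
  | n + 1, x, t => ∃ (y : V) (u : ℝ), G.Adj y x ∧ u ∈ marks (ω (Sum.inr (y, x))) ∧ 0 < u ∧
      u ≤ t ∧ Arr G ω n y u

/-- discrete version: `n` arrows in different slots `< k` -/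
def DA {V : Type} (G : SimpleGraph V) (H : (V ⊕ (V × V)) → ℕ → Bool) : ℕ → ℕ → V → Prop
  | 0, _, _ => True
  | _ + 1, 0, _ => False
  | n + 1, k + 1, x => DA G H (n + 1) k x ∨
      ∃ y, G.Adj y x ∧ H (Sum.inr (y, x)) k = true ∧ DA G H n k y

/-- two consecutive arrows in one slot `< K`, near `x` -/
def CG {V : Type} (G : SimpleGraph V) (H : (V ⊕ (V × V)) → ℕ → Bool) (K : ℕ) : ℕ → V → Prop
  | 0, _ => False
  | n + 1, x => (∃ (y z : V) (k : ℕ), k < K ∧ G.Adj y x ∧ G.Adj z y ∧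
      H (Sum.inr (y, x)) k = true ∧ H (Sum.inr (z, y)) k = true) ∨ ∃ y, G.Adj y x ∧ CG G H K n y

end H50CP
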