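import Pool.Agent.H50.CP.L1
import Pool.Agent.H50.CP.D2
import Pool.Agent.H50.CP.LDef

/-!
# L6: the two-sided upper process on `[0, ∞)` is the contact process started from its value at 0

For `s < 0`, `0 ≤ t`: `Reach G ω s x t` implies that there is `y` with `Reach G ω s y 0` and an
infection path from `(y,0)` to `(x,t)`; define `B ω x t` (paths starting from the single site `y`)
as `Inf G (res ω) (fun z => decide (z = y)) x t`.  (Induction on the derivation; an arrow at a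
time `u ≤ 0` or no arrow: `y = x`, no recovery in `(0,t]`, `Reach G ω s x 0`.)
The set of `y` with `B` is finite: a path with `m` arrows gives `Arr G ω m x t` and `y` in the ball of
radius `m`; by `harr` (with `T = ⌈t⌉`, `Arr` monotone in `t` and `Arr (n+1) → Arr n`) `m` is
bounded; balls are finite as `G` is locally finite.
`Upper G ω x t`: for every `n` there is such a `y_n` for `s = -n`; by the pigeonhole principle one `y`
works for infinitely many `n`, hence for all (`Reach.mono`): `Upper G ω y 0` (`upper_iff_nat`).  Then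
`Inf G (res ω) η x t` as `η y = true` (`Inf` is monotone in `η`).
-/

namespace H50CP

open MeasureTheory ProbabilityTheory Set
open scoped NNReal ENNReal

/-- path with `m` arrows from `(y, 0)` to `(x, t)` -/
def L6B {V : Type} (G : SimpleGraph V) (ω : CΩ V) (y : V) : ℕ → V → ℝ → Prop
  | 0, x, t => y = x ∧ 0 ≤ t ∧ ∀ v ∈ marks (ω (Sum.inl x)), ¬ (0 < v ∧ v ≤ t)
  | m + 1, x, t => ∃ (z : V) (u : ℝ), G.Adj z x ∧ u ∈ marks (ω (Sum.inr (z, x))) ∧ 0 < u ∧
      u ≤ t ∧ L6B G ω y m z u ∧ ∀ v ∈ marks (ω (Sum.inl x)), ¬ (u < v ∧ v ≤ t)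

/-- ball of radius `m` -/
def L6Ball {V : Type} (G : SimpleGraph V) : ℕ → V → Set V
  | 0, x => {x}
  | m + 1, x => ⋃ z ∈ G.neighborSet x, L6Ball G m z

theorem L6Ball_finite {V : Type} (G : SimpleGraph V) (hfin : ∀ x, (G.neighborSet x).Finite) :
    ∀ (m : ℕ) (x : V), (L6Ball G m x).Finite := by
  intro m
  induction m with
  | zero => intro x; exact Set.finite_singleton x
  | succ m ih => intro x; exact (hfin x).biUnion fun z _ => ih z

theorem L6B_ball {V : Type} {G : SimpleGraph V} {ω : CΩ V} {y : V} :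
    ∀ (m : ℕ) (x : V) (t : ℝ), L6B G ω y m x t → y ∈ L6Ball G m x := by
  intro m
  induction m with
  | zero => intro x t h; exact h.1
  | succ m ih =>
    rintro x t ⟨z, u, hz, -, -, -, hB, -⟩
    exact Set.mem_biUnion (show z ∈ G.neighborSet x from hz.symm) (ih z u hB)

theorem L6B_arr {V : Type} {G : SimpleGraph V} {ω : CΩ V} {y : V} :
    ∀ (m : ℕ) (x : V) (t : ℝ), L6B G ω y m x t → Arr G ω m x t := by
  intro m
  induction m with
  | zero => intro x t h; trivial
  | succ m ih =>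
    rintro x t ⟨z, u, hz, hu, hu0, hut, hB, -⟩
    exact ⟨z, u, hz, hu, hu0, hut, ih z u hB⟩

theorem L6arr_mono {V : Type} {G : SimpleGraph V} {ω : CΩ V} {m : ℕ} {x : V} {t t' : ℝ}
    (h : Arr G ω m x t) (ht : t ≤ t') : Arr G ω m x t' := by
  cases m with
  | zero => trivial
  | succ m =>
    obtain ⟨z, u, hz, hu, hu0, hut, hA⟩ := h
    exact ⟨z, u, hz, hu, hu0, hut.trans ht, hA⟩

theorem L6arr_pred {V : Type} {G : SimpleGraph V} {ω : CΩ V} :
    ∀ (m : ℕ) (x : V) (t : ℝ), Arr G ω (m + 1) x t → Arr G ω m x t := by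
  intro m
  induction m with
  | zero => intro x t _; trivial
  | succ m ih =>
    rintro x t ⟨z, u, hz, hu, hu0, hut, hA⟩
    exact ⟨z, u, hz, hu, hu0, hut, ih z u hA⟩

theorem L6arr_le {V : Type} {G : SimpleGraph V} {ω : CΩ V} {m n : ℕ} (hmn : n ≤ m) {x : V}
    {t : ℝ} (h : Arr G ω m x t) : Arr G ω n x t := by
  induction m, hmn using Nat.le_induction with
  | base => exact h
  | succ m _ ih => exact ih (L6arr_pred m x t h)

theorem L6reach {V : Type} {G : SimpleGraph V} {ω : CΩ V} {s : ℝ} (hs : s ≤ 0) {x : V} {t : ℝ}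
    (h : Reach G ω s x t) : 0 ≤ t → ∃ (y : V) (m : ℕ), Reach G ω s y 0 ∧ L6B G ω y m x t := by
  induction h with
  | start x t hst h =>
    intro ht
    exact ⟨x, 0, Reach.start x 0 hs fun v hv hv' => h v hv ⟨hv'.1, hv'.2.trans ht⟩, rfl, ht,
      fun v hv hv' => h v hv ⟨hs.trans_lt hv'.1, hv'.2⟩⟩
  | arrow x y u t hyx hsu hut hu hy h ih =>
    intro ht
    rcases le_or_gt u 0 with hu0 | hu0
    · exact ⟨x, 0, Reach.arrow x y u 0 hyx hsu hu0 hu hy
        fun v hv hv' => h v hv ⟨hv'.1, hv'.2.trans ht⟩, rfl, ht,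
        fun v hv hv' => h v hv ⟨hu0.trans_lt hv'.1, hv'.2⟩⟩
    · obtain ⟨z, m, hz, hB⟩ := ih hu0.le
      exact ⟨z, m + 1, hz, y, u, hyx, hu, hu0, hut, hB, h⟩

theorem L6B_inf {V : Type} {G : SimpleGraph V} {ω : CΩ V} {y : V} {η : V → Bool}
    (hy : η y = true) :
    ∀ (m : ℕ) (x : V) (t : ℝ), L6B G ω y m x t → Inf G (res ω) η x t := by
  intro m
  induction m with
  | zero =>
    rintro x t ⟨rfl, ht, h⟩
    refine Inf.start y t ht hy fun v hv hvt => ?_
    rw [mem_pmarks_res] at hv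
    exact h v hv.1 ⟨hv.2, hvt⟩
  | succ m ih =>
    rintro x t ⟨z, u, hz, hu, hu0, hut, hB, h⟩
    refine Inf.arrow x z u t hz hut ((mem_pmarks_res ω _ u).2 ⟨hu, hu0⟩) (ih z u hB)
      fun v hv hv' => ?_
    rw [mem_pmarks_res] at hv
    exact h v hv.1 hv'

theorem upper_inf {V : Type} (G : SimpleGraph V) (hfin : ∀ x, (G.neighborSet x).Finite)
    (ω : CΩ V) (harr : ∀ (x : V) (T : ℕ), ∃ n, ¬ Arr G ω n x T) (η : V → Bool)
    (hη : ∀ y, η y = true ↔ Upper G ω y 0) (x : V) (t : ℝ) (ht : 0 ≤ t)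
    (h : Upper G ω x t) : Inf G (res ω) η x t := by
  obtain ⟨n0, hn0⟩ := harr x ⌈t⌉₊
  have hbd : ∀ (y : V) (m : ℕ), L6B G ω y m x t → y ∈ ⋃ k ∈ Set.Iio n0, L6Ball G k x := by
    intro y m hB
    have hm : m < n0 := by
      by_contra hcon
      exact hn0 (L6arr_mono (L6arr_le (not_lt.1 hcon) (L6B_arr m x t hB)) (Nat.le_ceil t))
    exact Set.mem_biUnion (show m ∈ Set.Iio n0 from hm) (L6B_ball m x t hB)
  have hF : (⋃ k ∈ Set.Iio n0, L6Ball G k x).Finite :=
    (Set.finite_Iio n0).biUnion fun k _ => L6Ball_finite G hfin k x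
  have key : ∀ n : ℕ, ∃ (y : V) (m : ℕ), Reach G ω (-(n : ℝ)) y 0 ∧ L6B G ω y m x t := by
    intro n
    have hn : -(n : ℝ) ≤ 0 := neg_nonpos.2 (Nat.cast_nonneg n)
    exact L6reach hn (h _ (hn.trans ht)) ht
  choose f m hf hB using key
  have : Finite ↥(⋃ k ∈ Set.Iio n0, L6Ball G k x) := hF
  let g : ℕ → ↥(⋃ k ∈ Set.Iio n0, L6Ball G k x) := fun n => ⟨f n, hbd _ _ (hB n)⟩
  obtain ⟨y, hy⟩ := Finite.exists_infinite_fiber g
  have hinf : (g ⁻¹' {y}).Infinite := Set.infinite_coe_iff.1 hy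
  have hup : Upper G ω y.1 0 := by
    rw [upper_iff_nat]
    intro n hn
    obtain ⟨k, hk, hnk⟩ := hinf.exists_gt n
    have hk' : f k = y.1 := congrArg Subtype.val hk
    have h1 : (n : ℝ) ≤ k := by exact_mod_cast hnk.le
    exact Reach.mono (neg_le_neg h1) hn (hk' ▸ hf k)
  obtain ⟨k, hk, -⟩ := hinf.exists_gt 0
  have hk' : f k = y.1 := congrArg Subtype.val hk
  exact L6B_inf ((hη y.1).2 hup) (m k) x t (hk' ▸ hB k)

end H50CP
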