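import Pool.Agent.H50.CP.L1
import Pool.Agent.H50.CP.D1
import Pool.Agent.H50.CP.D2
import Pool.Agent.H50.CP.D4
import Pool.Agent.H50.CP.D5

/-!
# L7: spin flips: restriction to `[0, ∞)`, law at time 0

`on_flip`: deterministic; `marks ≤ 0` / `> 0`.
`flip_law`: `FlipOn ω x 0 = g (ω (inl x), ω (inr x))`, so the law is a product
(`eq_infinitePi` on boxes, or reindexing/currying `V ⊕ V ≃ Bool × V`), and it remains to see
`P(FlipOn ω x 0) = α/(α+1)`.  For `N, T`: `H = hits N T ω`, `K = N T`, `tm N T K = 0`: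
`FlipOn ω x 0` and `Xd H K x` differ only on the events of `prob_fcoll` and `prob_nodown`
(`flip_det` and its converse: if `Xd H K x = true` and there are no collisions, then the last up slot
gives `FlipOn`), and `P(Xd H k x = true) = a/(a+q) (1 - (1-q-a)^k)` (recursion
`x_{k+1} = (1-q) x_k + a (1 - x_k)`).  `q = 1 - exp(-1/N)`, `a = 1 - exp(-α/N)`, `N → ∞`, then
`T → ∞` (`(1-q)^{NT} = exp(-T)`).
-/

namespace H50CP

open MeasureTheory ProbabilityTheory Set
open scoped NNReal ENNReal Classical

theorem on_flip {V : Type} (ω : FΩ V) (ξ : V → Bool) (hξ : ∀ y, ξ y = true ↔ FlipOn ω y 0)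
    (x : V) (t : ℝ) (ht : 0 ≤ t) (h : On (res ω) ξ x t) : FlipOn ω x t := by
  rcases h with ⟨h1, h2⟩ | ⟨u, hu, hut, h2⟩
  · obtain ⟨u, hu, hu0, h3⟩ := (hξ x).1 h1
    refine ⟨u, hu, hu0.trans ht, fun v hv hv' => ?_⟩
    rcases le_or_gt v 0 with h4 | h4
    · exact h3 v hv ⟨hv'.1, h4⟩
    · exact h2 v ((mem_pmarks_res ω (Sum.inl x) v).2 ⟨hv, h4⟩) hv'.2
  · obtain ⟨hu1, hu0⟩ := (mem_pmarks_res ω (Sum.inr x) u).1 hu
    refine ⟨u, hu1, hut, fun v hv hv' => ?_⟩
    exact h2 v ((mem_pmarks_res ω (Sum.inl x) v).2 ⟨hv, hu0.trans hv'.1⟩) hv'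

/-! ### limit of `N (1 - exp(-c/N))` -/

private theorem l7_lim {c : ℝ} (hc : 0 ≤ c) :
    Filter.Tendsto (fun N : ℕ => (N : ℝ) * (1 - Real.exp (-(c / N)))) Filter.atTop (nhds c) := by
  have h1 : Filter.Tendsto (fun N : ℕ => c / (1 + c / (N : ℝ))) Filter.atTop
      (nhds (c / (1 + 0))) := by
    refine Filter.Tendsto.div tendsto_const_nhds
      (tendsto_const_nhds.add (tendsto_const_div_atTop_nhds_zero_nat c)) (by norm_num)
  rw [add_zero, div_one] at h1
  refine tendsto_of_tendsto_of_tendsto_of_le_of_le' h1 tendsto_const_nhds ?_ ?_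
  · filter_upwards [Filter.eventually_gt_atTop 0] with N hN
    have hNr : (0:ℝ) < N := by exact_mod_cast hN
    have hx : 0 ≤ c / N := by positivity
    have h2 : Real.exp (-(c / N)) ≤ 1 / (1 + c / N) := by
      rw [Real.exp_neg, ← one_div]
      exact one_div_le_one_div_of_le (by linarith) (by linarith [Real.add_one_le_exp (c / N)])
    have h3 : c / (1 + c / N) = N * (1 - 1 / (1 + c / N)) := by
      have : 1 + c / (N : ℝ) ≠ 0 := by positivity
      field_simp
      ring
    rw [h3]
    exact mul_le_mul_of_nonneg_left (by linarith) hNr.le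
  · filter_upwards [Filter.eventually_gt_atTop 0] with N hN
    have hNr : (0:ℝ) < N := by exact_mod_cast hN
    have h2 := Real.add_one_le_exp (-(c / N))
    have h3 : (N : ℝ) * (c / N) = c := by field_simp
    calc (N : ℝ) * (1 - Real.exp (-(c / N))) ≤ N * (c / N) :=
          mul_le_mul_of_nonneg_left (by linarith) hNr.le
      _ = c := h3

/-! ### the discrete spin flips -/

private theorem l7_measF {V : Type} (k : ℕ) (x : V) :
    MeasurableSet[D5_F (V ⊕ V) k] {H : (V ⊕ V) → ℕ → Bool | Xd H k x = true} := by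
  induction k with
  | zero =>
    have : {H : (V ⊕ V) → ℕ → Bool | Xd H 0 x = true} = ∅ := by
      ext H; simp [Xd]
    rw [this]; exact @MeasurableSet.empty _ (D5_F (V ⊕ V) 0)
  | succ k ih =>
    have : {H : (V ⊕ V) → ℕ → Bool | Xd H (k + 1) x = true} =
        ({H | Xd H k x = true} ∩ {H | H (Sum.inl x) k = true}ᶜ) ∪
          ({H | Xd H k x = true}ᶜ ∩ {H | H (Sum.inr x) k = true}) := by
      ext H
      by_cases h : Xd H k x = true
      · simp [Xd, h]
      · simp [Xd, h]
    rw [this]
    have hm := D5_F_mono (ι := V ⊕ V) (Nat.le_succ k) _ ih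
    refine @MeasurableSet.union _ (_) _ _ (@MeasurableSet.inter _ (_) _ _ hm
      (@MeasurableSet.compl _ _ (_) (D5_F_coord _ (Nat.lt_succ_self k))))
      (@MeasurableSet.inter _ (_) _ _ (@MeasurableSet.compl _ _ (_) hm)
        (D5_F_coord _ (Nat.lt_succ_self k)))

private theorem l7_rec {V : Type} {q a : ℝ} (hq0 : 0 ≤ q) (hq1 : q ≤ 1) (ha0 : 0 ≤ a) (ha1 : a ≤ 1)
    (k : ℕ) (x : V) :
    (berLaw (pf q a)).real {H : (V ⊕ V) → ℕ → Bool | Xd H (k + 1) x = true} =
      (1 - q) * (berLaw (pf q a)).real {H : (V ⊕ V) → ℕ → Bool | Xd H k x = true} +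
      a * (1 - (berLaw (pf q a)).real {H : (V ⊕ V) → ℕ → Bool | Xd H k x = true}) := by
  set μ := berLaw (pf q a : (V ⊕ V) → ℝ) with hμ
  set S : Set ((V ⊕ V) → ℕ → Bool) := {H | Xd H k x = true} with hS
  set A : Set ((V ⊕ V) → ℕ → Bool) := {H | H (Sum.inl x) k = true} with hA
  set B : Set ((V ⊕ V) → ℕ → Bool) := {H | H (Sum.inr x) k = true} with hB
  have mS : MeasurableSet[D5_F (V ⊕ V) k] S := l7_measF k x
  have mS' : MeasurableSet S := D5_F_le k _ mS
  have mA : MeasurableSet A := D5_meas_coord _ _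
  have mB : MeasurableSet B := D5_meas_coord _ _
  have e0 : {H : (V ⊕ V) → ℕ → Bool | Xd H (k + 1) x = true} = (S \ A) ∪ (B ∩ Sᶜ) := by
    ext H
    by_cases h : Xd H k x = true
    · simp [Xd, h, hS, hA, hB]
    · simp [Xd, h, hS, hA, hB]
  have e1 : μ.real (A ∩ S) = q * μ.real S := by
    have h := D5_indep (pf q a : (V ⊕ V) → ℝ) (Sum.inl x) k S hq0 hq1 mS
    have e3 : ENNReal.ofReal (pf q a (Sum.inl x : V ⊕ V)) = ENNReal.ofReal q := rfl
    rw [Measure.real, h, e3, ENNReal.toReal_mul, ENNReal.toReal_ofReal hq0]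
    rfl
  have e2 : μ.real (B ∩ Sᶜ) = a * μ.real Sᶜ := by
    have h := D5_indep (pf q a : (V ⊕ V) → ℝ) (Sum.inr x) k Sᶜ ha0 ha1
      (@MeasurableSet.compl _ _ (_) mS)
    have e3 : ENNReal.ofReal (pf q a (Sum.inr x : V ⊕ V)) = ENNReal.ofReal a := rfl
    rw [Measure.real, h, e3, ENNReal.toReal_mul, ENNReal.toReal_ofReal ha0]
    rfl
  have e4 : μ.real (S \ A) = μ.real S - μ.real (A ∩ S) := by
    have h := measureReal_inter_add_sdiff (μ := μ) (s := S) mA
    rw [Set.inter_comm] at h
    linarith
  have e5 : μ.real Sᶜ = 1 - μ.real S := probReal_compl_eq_one_sub mS'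
  rw [e0, measureReal_union _ (mB.inter mS'.compl), e4, e1, e2, e5]
  · ring
  · rw [Set.disjoint_left]
    rintro H ⟨h1, _⟩ ⟨_, h2⟩
    exact h2 h1

private theorem l7_dist {V : Type} {q a : ℝ} (hq0 : 0 < q) (ha0 : 0 ≤ a) (hqa : q + a ≤ 1)
    (k : ℕ) (x : V) :
    |(berLaw (pf q a)).real {H : (V ⊕ V) → ℕ → Bool | Xd H k x = true} - a / (a + q)| ≤
      (1 - q) ^ k := by
  have hs : 0 < a + q := by linarith
  induction k with
  | zero =>
    have : {H : (V ⊕ V) → ℕ → Bool | Xd H 0 x = true} = ∅ := by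
      ext H; simp [Xd]
    rw [this, measureReal_empty, zero_sub, abs_neg, pow_zero, abs_of_nonneg (by positivity),
      div_le_one hs]
    linarith
  | succ k ih =>
    rw [l7_rec hq0.le (by linarith) ha0 (by linarith) k x]
    set p := (berLaw (pf q a)).real {H : (V ⊕ V) → ℕ → Bool | Xd H k x = true} with hp
    have e1 : (1 - q) * p + a * (1 - p) - a / (a + q) = (1 - q - a) * (p - a / (a + q)) := by
      field_simp
      ring
    rw [e1, abs_mul, pow_succ, mul_comm ((1 - q) ^ k)]
    refine mul_le_mul ?_ ih (abs_nonneg _) (by linarith)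
    rw [abs_of_nonneg (by linarith)]
    linarith

private theorem l7_conv {V : Type} (ω : FΩ V) (N T : ℕ) (x : V) :
    ∀ k, (∀ j, j < k → ¬ (hits N T ω (Sum.inl x) j = true ∧ hits N T ω (Sum.inr x) j = true)) →
      Xd (hits N T ω) k x = true → FlipOn ω x (tm N T k) := by
  intro k
  induction k with
  | zero =>
    intro _ h
    simp [Xd] at h
  | succ k ih =>
    intro hc h
    have hno : hits N T ω (Sum.inl x) k = false →
        ∀ v ∈ marks (ω (Sum.inl x)), ¬ (tm N T k < v ∧ v ≤ tm N T (k + 1)) := by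
      intro h1 v hv hv'
      have : hits N T ω (Sum.inl x) k = true := by
        unfold hits hit
        simp only [decide_eq_true_eq]
        exact ⟨v, hv, hv'⟩
      rw [this] at h1
      exact Bool.noConfusion h1
    by_cases hX : Xd (hits N T ω) k x = true
    · rw [Xd, if_pos hX, Bool.not_eq_true'] at h
      obtain ⟨u, hu, huk, h2⟩ := ih (fun j hj => hc j (by omega)) hX
      have hmono : tm N T k ≤ tm N T (k + 1) := by
        unfold tm
        push_cast
        have : (k : ℝ) / N ≤ ((k : ℝ) + 1) / N := by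
          gcongr
          linarith
        linarith
      refine ⟨u, hu, huk.trans hmono, fun v hv hv' => ?_⟩
      rcases le_or_gt v (tm N T k) with h3 | h3
      · exact h2 v hv ⟨hv'.1, h3⟩
      · exact hno h v hv ⟨h3, hv'.2⟩
    · rw [Xd, if_neg hX] at h
      have h1 : hits N T ω (Sum.inl x) k = false := by
        rw [← Bool.not_eq_true]
        exact fun h2 => hc k (Nat.lt_succ_self k) ⟨h2, h⟩
      unfold hits hit at h
      simp only [decide_eq_true_eq] at h
      obtain ⟨u, hu, hu1, hu2⟩ := h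
      exact ⟨u, hu, hu2, fun v hv hv' => hno h1 v hv ⟨hu1.trans hv'.1, hv'.2⟩⟩

/-- comparison of the spin at time 0 with the discrete approximation -/
private theorem l7_cmp (V : Type) [Countable V] (α : ℝ≥0) (x : V) (N T : ℕ) (hN : 0 < N)
    (hN1 : 1 + (α : ℝ) ≤ N) :
    |(flipLaw V α).real {ω | FlipOn ω x 0} -
      (1 - Real.exp (-((α : ℝ) / N))) /
        ((1 - Real.exp (-((α : ℝ) / N))) + (1 - Real.exp (-(1 / (N : ℝ)))))| ≤
      α * T / N + 2 * Real.exp (-(T : ℝ)) := by
  have hNr : (0:ℝ) < N := by exact_mod_cast hN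
  set q : ℝ := 1 - Real.exp (-(1 / (N : ℝ))) with hq
  set a : ℝ := 1 - Real.exp (-((α : ℝ) / N)) with ha
  have hq0 : 0 < q := by
    have : Real.exp (-(1 / (N : ℝ))) < 1 := by
      rw [Real.exp_lt_one_iff]
      have : 0 < 1 / (N : ℝ) := by positivity
      linarith
    linarith
  have hq1 : q ≤ 1 / N := by
    have := Real.add_one_le_exp (-(1 / (N : ℝ)))
    linarith
  have ha0 : 0 ≤ a := by
    have : Real.exp (-((α : ℝ) / N)) ≤ 1 := by
      rw [Real.exp_le_one_iff]
      have : 0 ≤ (α : ℝ) / N := by positivity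
      linarith
    linarith
  have ha1 : a ≤ α / N := by
    have := Real.add_one_le_exp (-((α : ℝ) / N))
    linarith
  have hqa : q + a ≤ 1 := by
    have : 1 / (N : ℝ) + α / N ≤ 1 := by
      rw [← add_div, div_le_one hNr]
      exact hN1
    linarith
  have : IsProbabilityMeasure (flipLaw V α) := by
    unfold flipLaw; infer_instance
  set μ := flipLaw V α with hμ
  set K : ℕ := N * T with hK
  have htm : tm N T K = 0 := by
    unfold tm
    rw [hK]
    push_cast
    field_simp
    ring
  have hlaw : μ.map (fun ω => hits N T ω) = berLaw (pf q a) := by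
    have h := hits_law (Sum.elim (fun _ : V => (1 : ℝ≥0)) (fun _ : V => α)) N T hN
    rw [hμ]
    unfold flipLaw
    rw [h]
    congr 1
    funext i
    rcases i with i | i
    · simp [pf, hq]
    · simp [pf, ha]
  have hmh : Measurable (fun ω : FΩ V => hits N T ω) := measurable_hits N T
  -- the three events
  set E1 : Set (FΩ V) := {ω | FlipOn ω x 0} with hE1
  set E2 : Set (FΩ V) := {ω | Xd (hits N T ω) K x = true} with hE2
  set B : Set (FΩ V) := {ω | ∃ j, j < K ∧ hits N T ω (Sum.inl x) j = true ∧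
    hits N T ω (Sum.inr x) j = true} with hB
  set D : Set (FΩ V) := {ω | ∀ j, j < K → hits N T ω (Sum.inl x) j = false} with hD
  have s1 : E1 ⊆ E2 ∪ (B ∪ D) := by
    intro ω hω
    by_contra hcon
    rw [mem_union, mem_union, not_or, not_or] at hcon
    obtain ⟨h2, h3, h4⟩ := hcon
    apply h2
    refine flip_det ω N T K hN x (fun j hj h => h3 ⟨j, hj, h.1, h.2⟩) ?_ ?_
    · by_contra h5
      push Not at h5
      exact h4 fun j hj => by
        have := h5 j hj
        simpa using this
    · rw [htm]; exact hω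
  have s2 : E2 ⊆ E1 ∪ B := by
    intro ω hω
    by_contra hcon
    rw [mem_union, not_or] at hcon
    apply hcon.1
    have := l7_conv ω N T x K (fun j hj h => hcon.2 ⟨j, hj, h.1, h.2⟩) hω
    rwa [htm] at this
  have b1 : μ.real E1 ≤ μ.real E2 + (μ.real B + μ.real D) :=
    (measureReal_mono s1).trans ((measureReal_union_le _ _).trans
      (add_le_add le_rfl (measureReal_union_le _ _)))
  have b2 : μ.real E2 ≤ μ.real E1 + μ.real B :=
    (measureReal_mono s2).trans (measureReal_union_le _ _)
  have v2 : μ.real E2 = (berLaw (pf q a)).real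
      {H : (V ⊕ V) → ℕ → Bool | Xd H K x = true} := by
    rw [← hlaw, map_measureReal_apply hmh]
    · rfl
    · exact measurable_Xd K x (measurableSet_singleton true)
  have vB : μ.real B ≤ K * (q * a) := by
    have h1 : μ B ≤ ENNReal.ofReal (K * (q * a)) := by
      refine le_trans ?_ (prob_fcoll hq0.le (by linarith) ha0 (by linarith) K x)
      rw [← hlaw]
      exact Measure.le_map_apply hmh.aemeasurable _
    exact ENNReal.toReal_le_of_le_ofReal (by positivity) h1
  have vD : μ.real D ≤ (1 - q) ^ K := by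
    have h1 : μ D ≤ ENNReal.ofReal ((1 - q) ^ K) := by
      refine le_trans ?_ (prob_nodown (V := V) (a := a) hq0.le (by linarith) K x).le
      rw [← hlaw]
      exact Measure.le_map_apply hmh.aemeasurable _
    exact ENNReal.toReal_le_of_le_ofReal (pow_nonneg (by linarith) _) h1
  have e1 : (1 - q) ^ K = Real.exp (-(T : ℝ)) := by
    have h3 : 1 - q = Real.exp (-(1 / (N : ℝ))) := by rw [hq]; ring
    rw [h3, ← Real.exp_nat_mul, hK]
    congr 1
    push_cast
    field_simp
  have e2 : K * (q * a) ≤ α * T / N := by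
    have h3 : q * a ≤ (1 / N) * (α / N) := mul_le_mul hq1 ha1 ha0 (by positivity)
    calc (K : ℝ) * (q * a) ≤ K * ((1 / N) * (α / N)) :=
          mul_le_mul_of_nonneg_left h3 (Nat.cast_nonneg _)
      _ = α * T / N := by
          rw [hK]; push_cast; field_simp
  have hdist := l7_dist (V := V) hq0 ha0 hqa K x
  rw [← v2, e1] at hdist
  rw [e1] at vD
  rw [abs_le] at hdist ⊢
  constructor
  · linarith [hdist.1, hdist.2, b1, b2]
  · linarith [hdist.1, hdist.2, b1, b2]

private theorem l7_prob (V : Type) [Countable V] (α : ℝ≥0) (x : V) :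
    (flipLaw V α).real {ω | FlipOn ω x 0} = α / (α + 1) := by
  set P := (flipLaw V α).real {ω | FlipOn ω x 0} with hP
  have hlim : Filter.Tendsto (fun N : ℕ => (1 - Real.exp (-((α : ℝ) / N))) /
        ((1 - Real.exp (-((α : ℝ) / N))) + (1 - Real.exp (-(1 / (N : ℝ)))))) Filter.atTop
        (nhds ((α : ℝ) / (α + 1))) := by
    have h1 := l7_lim (c := (α : ℝ)) α.coe_nonneg
    have h2 := l7_lim (c := (1 : ℝ)) zero_le_one
    have h3 := h1.div (h1.add h2) (by positivity)
    refine h3.congr' ?_
    filter_upwards [Filter.eventually_gt_atTop 0] with N hN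
    have hNr : (N : ℝ) ≠ 0 := by
      have : (0:ℝ) < N := by exact_mod_cast hN
      exact this.ne'
    simp only [Pi.div_apply]
    rw [← mul_add, mul_div_mul_left _ _ hNr]
  have hT : ∀ T : ℕ, |P - (α : ℝ) / (α + 1)| ≤ 2 * Real.exp (-(T : ℝ)) := by
    intro T
    have h1 : Filter.Tendsto (fun N : ℕ => |P - (1 - Real.exp (-((α : ℝ) / N))) /
        ((1 - Real.exp (-((α : ℝ) / N))) + (1 - Real.exp (-(1 / (N : ℝ)))))|) Filter.atTop
        (nhds |P - (α : ℝ) / (α + 1)|) := (hlim.const_sub P).abs
    have h2 : Filter.Tendsto (fun N : ℕ => (α : ℝ) * T / N + 2 * Real.exp (-(T : ℝ)))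
        Filter.atTop (nhds (0 + 2 * Real.exp (-(T : ℝ)))) :=
      (tendsto_const_div_atTop_nhds_zero_nat _).add_const _
    rw [zero_add] at h2
    refine le_of_tendsto_of_tendsto h1 h2 ?_
    obtain ⟨N0, hN0⟩ := exists_nat_ge (1 + (α : ℝ))
    filter_upwards [Filter.eventually_gt_atTop 0, Filter.eventually_ge_atTop N0] with N hN hN'
    refine l7_cmp V α x N T hN ?_
    have : (N0 : ℝ) ≤ N := by exact_mod_cast hN'
    linarith
  have h0 : Filter.Tendsto (fun T : ℕ => 2 * Real.exp (-(T : ℝ))) Filter.atTop (nhds (2 * 0)) :=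
    (Real.tendsto_exp_neg_atTop_nhds_zero.comp tendsto_natCast_atTop_atTop).const_mul 2
  rw [mul_zero] at h0
  have h1 : |P - (α : ℝ) / (α + 1)| ≤ 0 := ge_of_tendsto' h0 hT
  have h2 := abs_nonpos_iff.1 h1
  linarith

/-! ### the product structure -/

private noncomputable def l7_g (p : Bool → Clk) : Bool :=
  decide (∃ u ∈ marks (p true), u ≤ 0 ∧ ∀ v ∈ marks (p false), ¬ (u < v ∧ v ≤ 0))

private def l7_j {V : Type} (p : V × Bool) : V ⊕ V := if p.2 then Sum.inr p.1 else Sum.inl p.1

private theorem l7_j_inj {V : Type} : Function.Injective (l7_j (V := V)) := by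
  rintro ⟨x, b⟩ ⟨y, c⟩ h
  cases b <;> cases c <;> simp_all [l7_j]

private theorem l7_g_meas : Measurable l7_g := by
  refine measurable_to_bool ?_
  have h1 : Measurable (fun p : Bool → Clk => (fun i : Unit ⊕ Unit =>
      Sum.elim (fun _ => p false) (fun _ => p true) i : FΩ Unit)) := by
    refine measurable_pi_lambda _ fun i => ?_
    rcases i with i | i
    · exact measurable_pi_apply false
    · exact measurable_pi_apply true
  have h2 := h1 (measurableSet_flip (V := Unit) 0 ())
  convert h2 using 1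
  ext p
  simp [l7_g, FlipOn]

private theorem l7_prod (V : Type) [Countable V] (α : ℝ≥0) :
    (flipLaw V α).map (fun ω x => decide (FlipOn ω x 0)) =
      Measure.infinitePi fun _ : V =>
        (Measure.infinitePi fun b : Bool => clk (if b then α else 1)).map l7_g := by
  have h1 := infinitePi_reindex (fun i : V ⊕ V => clk (Sum.elim (fun _ => (1 : ℝ≥0)) (fun _ => α) i))
    (l7_j (V := V)) l7_j_inj
  have h2 := Measure.infinitePi_map_curry (ι := V) (κ := Bool) (X := Clk)
    (fun (_ : V) (b : Bool) => clk (if b then α else 1))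
  have h3 := Measure.infinitePi_map_pi
    (μ := fun _ : V => Measure.infinitePi fun b : Bool => clk (if b then α else 1))
    (f := fun _ => l7_g) (fun _ => l7_g_meas)
  have h4 : (fun k : V × Bool => clk (Sum.elim (fun _ => (1 : ℝ≥0)) (fun _ => α) (l7_j k))) =
      fun p : V × Bool => clk (if p.2 then α else 1) := by
    funext p
    rcases p with ⟨x, b⟩
    cases b <;> simp [l7_j]
  rw [h4] at h1
  have m1 : Measurable (fun (ω : (V ⊕ V) → Clk) (k : V × Bool) => ω (l7_j k)) := by fun_prop
  have m2 : Measurable (fun (w : V → Bool → Clk) (x : V) => l7_g (w x)) :=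
    measurable_pi_lambda _ fun x => l7_g_meas.comp (measurable_pi_apply x)
  rw [← h3, ← h2, ← h1, Measure.map_map (MeasurableEquiv.measurable _) m1,
    Measure.map_map m2 ((MeasurableEquiv.measurable _).comp m1)]
  unfold flipLaw pois
  congr 1

theorem flip_law (V : Type) [Countable V] (α : ℝ≥0) :
    (flipLaw V α).map (fun ω x => decide (FlipOn ω x 0)) = muRho V α := by
  rw [l7_prod]
  unfold muRho
  congr 1
  funext _
  set ν := (Measure.infinitePi fun b : Bool => clk (if b then α else 1)).map l7_g with hν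
  have : IsProbabilityMeasure ν := Measure.isProbabilityMeasure_map l7_g_meas.aemeasurable
  -- identify `ν {true}`
  have h1 : ν {true} = flipLaw Unit α {ω | FlipOn ω () 0} := by
    have h := congrArg (fun m => m.map (fun f : Unit → Bool => f ())) (l7_prod Unit α)
    rw [Measure.infinitePi_map_eval, Measure.map_map (measurable_pi_apply _)] at h
    · rw [hν, ← h, Measure.map_apply]
      · congr 1
        ext ω
        simp
      · refine (measurable_pi_apply ()).comp (measurable_pi_lambda _ fun x => ?_)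
        refine measurable_to_bool ?_
        convert measurableSet_flip (V := Unit) 0 x using 1
        ext ω
        simp
      · exact measurableSet_singleton _
    · refine measurable_pi_lambda _ fun x => ?_
      refine measurable_to_bool ?_
      convert measurableSet_flip (V := Unit) 0 x using 1
      ext ω
      simp
  have : IsProbabilityMeasure (flipLaw Unit α) := by
    unfold flipLaw; infer_instance
  have h2 : ν.real {true} = α / (α + 1) := by
    rw [Measure.real, h1]
    exact l7_prob Unit α ()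
  have h3 : ν.real {false} = 1 / (α + 1) := by
    have h4 : ({true} : Set Bool)ᶜ = {false} := by
      ext b; cases b <;> simp
    rw [← h4, probReal_compl_eq_one_sub (measurableSet_singleton _), h2]
    field_simp
    ring
  have h5 : ν {true} = ((α / (α + 1) : ℝ≥0) : ℝ≥0∞) := by
    rw [← ENNReal.ofReal_toReal (measure_ne_top ν {true})]
    change ENNReal.ofReal (ν.real {true}) = _
    rw [h2, ENNReal.ofReal, ENNReal.coe_inj]
    rw [← NNReal.coe_inj, Real.coe_toNNReal _ (by positivity)]
    push_cast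
    rfl
  have h6 : ν {false} = ((1 / (α + 1) : ℝ≥0) : ℝ≥0∞) := by
    rw [← ENNReal.ofReal_toReal (measure_ne_top ν {false})]
    change ENNReal.ofReal (ν.real {false}) = _
    rw [h3, ENNReal.ofReal, ENNReal.coe_inj]
    rw [← NNReal.coe_inj, Real.coe_toNNReal _ (by positivity)]
    push_cast
    rfl
  refine Measure.ext_of_singleton fun b => ?_
  cases b
  · rw [h6]; simp
  · rw [h5]; simp

end H50CP
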