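import Pool.Agent.H50.CP.L3
import Pool.Agent.H50.CP.E4

/-!
# L8: `1 ≤ λ_c(ℤ)` for the literal definition of the critical value

`z_extinct_all`: translation of the graphical construction: `sh y ω (inl x) = ω (inl (x+y))`,
`sh y ω (inr (x,z)) = ω (inr (x+y, z+y))` preserves `contactLaw ℤ lam` (reindexing) and
`Upper zgraph (sh y ω) x t ↔ Upper zgraph ω (x+y) t`; `z_extinct`.
`one_le_lamC`: if `lam < 1` and `IsUpperInv zgraph lam ν` then `ν` is the law of
`(Upper … x 0)_x` (`upper_inv`, `IsUpperInv.unique`), so `ν {η | η x = true} = 0` for all `x`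
and `ν` is the point mass at 0.
-/

namespace H50CP

open MeasureTheory ProbabilityTheory Set
open scoped NNReal ENNReal Classical

/-- translation of the graphical construction -/
def L8_sh (y : ℤ) (ω : CΩ ℤ) : CΩ ℤ := fun i => ω (E3_f y i)

theorem L8_measurable_sh (y : ℤ) : Measurable (L8_sh y) :=
  measurable_pi_lambda _ fun _ => measurable_pi_apply _

theorem L8_sh_law (y : ℤ) (lam : ℝ≥0) :
    (contactLaw ℤ lam).map (L8_sh y) = contactLaw ℤ lam := by
  unfold contactLaw pois L8_sh
  rw [Measure.map_infinitePi_infinitePi_of_inj (E3_f_inj y)]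
  congr 1
  funext i
  rcases i with x | ⟨x, z⟩ <;> rfl

theorem L8_reach {ω : CΩ ℤ} {s t : ℝ} {x : ℤ} (y : ℤ)
    (h : Reach zgraph ω s x t) : Reach zgraph (L8_sh (-y) ω) s (x + y) t := by
  have hadj : ∀ a b : ℤ, zgraph.Adj a b → zgraph.Adj (a + y) (b + y) := by
    intro a b h
    rcases h with h | h
    · exact Or.inl (by rw [h]; ring)
    · exact Or.inr (by rw [h]; ring)
  have h1 : ∀ a : ℤ, L8_sh (-y) ω (Sum.inl (a + y)) = ω (Sum.inl a) := by
    intro a
    simp [L8_sh, E3_f]
  have h2 : ∀ a b : ℤ, L8_sh (-y) ω (Sum.inr (a + y, b + y)) = ω (Sum.inr (a, b)) := by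
    intro a b
    simp [L8_sh, E3_f]
  induction h with
  | start x t hst h => exact Reach.start (x + y) t hst (by rw [h1]; exact h)
  | arrow x z u t hzx hsu hut hu hy h ih =>
    exact Reach.arrow (x + y) (z + y) u t (hadj _ _ hzx) hsu hut (by rw [h2]; exact hu) ih
      (by rw [h1]; exact h)

theorem L8_upper {ω : CΩ ℤ} {t : ℝ} {x : ℤ} (y : ℤ)
    (h : Upper zgraph ω x t) : Upper zgraph (L8_sh (-y) ω) (x + y) t :=
  fun s hs => L8_reach y (h s hs)

theorem z_extinct_all (lam : ℝ≥0) (h : lam < 1) (x : ℤ) :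
    contactLaw ℤ lam {ω | Upper zgraph ω x 0} = 0 := by
  have h0 : contactLaw ℤ lam {ω | Upper zgraph ω 0 0} = 0 := z_extinct lam h
  rw [← L8_sh_law x lam, Measure.map_apply (L8_measurable_sh x)
    (measurableSet_upper zgraph 0 0)] at h0
  refine measure_mono_null ?_ h0
  intro ω hω
  have h1 := L8_upper (-x) hω
  simp only [neg_neg, add_neg_cancel] at h1
  exact h1

theorem one_le_lamC : 1 ≤ lamC := by
  refine le_sInf ?_
  rintro l ⟨lam, rfl, ν, hν, hne⟩
  by_contra hcon
  rw [not_le] at hcon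
  have hlam : lam < 1 := by exact_mod_cast hcon
  apply hne
  have h1 : ν = (contactLaw ℤ lam).map (fun ω x => decide (Upper zgraph ω x 0)) :=
    IsUpperInv.unique hν (upper_inv zgraph lam)
  have h2 : (fun (ω : CΩ ℤ) (x : ℤ) => decide (Upper zgraph ω x 0)) =ᵐ[contactLaw ℤ lam]
      fun _ _ => false := by
    have h3 : ∀ᵐ ω ∂(contactLaw ℤ lam), ∀ x : ℤ, ¬ Upper zgraph ω x 0 := by
      rw [ae_all_iff]
      intro x
      exact measure_eq_zero_iff_ae_notMem.1 (z_extinct_all lam hlam x)
    filter_upwards [h3] with ω hω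
    funext x
    simp [hω x]
  rw [h1, Measure.map_congr h2, Measure.map_const]
  have : IsProbabilityMeasure (contactLaw ℤ lam) := by unfold contactLaw; infer_instance
  simp

end H50CP
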