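import Pool.Agent.H50.CP.Stmt

/-!
# L9: the graph `tree d` is a tree in which every vertex has `d + 1` neighbours

Connected: induction on the word (`List.reverseRecOn`), every vertex is joined to `(b, [])`.
Acyclic: give `(b, w)` the depth `w.length` (`b = false`) or `w.length + 1` (`b = true`); every
vertex except `(false, [])` has exactly one neighbour of smaller depth (its parent), all other
neighbours have larger depth.  A cycle has a vertex of maximal depth; both its neighbours in the cycle
have smaller depth, so they are equal, a contradiction (rotate the cycle: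
`SimpleGraph.Walk.rotate`, `IsCycle.snd_ne_penultimate`), or use
`SimpleGraph.isAcyclic_iff_path_unique` / bridges.
Degree: the neighbours of `(b, [])` are `(b, [i])` and `(!b, [])`; those of `(b, w ++ [j])` are
`(b, w ++ [j] ++ [i])` and `(b, w)`.
-/

namespace H50CP

/-- depth of a vertex of `tree d`, seen from the root `(false, [])` -/
private def L9_dep {d : ℕ} (x : TV d) : ℕ := x.2.length + (if x.1 then 1 else 0)

/-- the parent of a vertex -/
private def L9_par {d : ℕ} (x : TV d) : TV d :=
  if x.2 = [] then (false, []) else (x.1, x.2.dropLast)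

private theorem L9_adj {d : ℕ} {x y : TV d} (h : (tree d).Adj x y) (hd : L9_dep y ≤ L9_dep x) :
    y = L9_par x := by
  obtain ⟨b, w⟩ := x
  obtain ⟨c, v⟩ := y
  rcases h with ⟨i, h⟩ | ⟨i, h⟩ | ⟨h1, h2, h3⟩
  · simp only [Prod.mk.injEq] at h
    obtain ⟨rfl, rfl⟩ := h
    simp [L9_dep] at hd
  · simp only [Prod.mk.injEq] at h
    obtain ⟨rfl, rfl⟩ := h
    simp [L9_par]
  · simp only at h1 h2 h3
    subst h2 h3
    cases b <;> cases c <;> simp [L9_dep, L9_par] at *

private theorem L9_root {d : ℕ} (b : Bool) (w : List (Fin d)) :
    (tree d).Reachable (b, w) (b, []) := by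
  induction w using List.reverseRecOn with
  | nil => exact SimpleGraph.Reachable.refl _
  | append_singleton w i ih =>
    refine SimpleGraph.Reachable.trans (SimpleGraph.Adj.reachable ?_) ih
    exact Or.inr (Or.inl ⟨i, rfl⟩)

private theorem L9_conn {d : ℕ} (x : TV d) : (tree d).Reachable x (false, []) := by
  obtain ⟨b, w⟩ := x
  refine (L9_root b w).trans ?_
  cases b with
  | false => exact SimpleGraph.Reachable.refl _
  | true =>
    refine SimpleGraph.Adj.reachable ?_
    exact Or.inr (Or.inr ⟨by simp, rfl, rfl⟩)

theorem tree_isTree (d : ℕ) : (tree d).IsTree := by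
  refine ⟨?_, ?_⟩
  · have : Nonempty (TV d) := ⟨(false, [])⟩
    exact ⟨fun x y => (L9_conn x).trans (L9_conn y).symm⟩
  · intro v c hc
    classical
    obtain ⟨u, hu, hmax⟩ : ∃ u ∈ c.support, ∀ z ∈ c.support, L9_dep z ≤ L9_dep u := by
      have hne : c.support.toFinset.Nonempty := ⟨v, by simp⟩
      obtain ⟨u, hu, hm⟩ := c.support.toFinset.exists_max_image L9_dep hne
      exact ⟨u, by simpa using hu, fun z hz => hm z (by simpa using hz)⟩
    have hc' : (c.rotate u hu).IsCycle := by simpa using hc
    have hnil : ¬ (c.rotate u hu).Nil := hc'.not_nil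
    apply hc'.snd_ne_penultimate
    have h1 : (tree d).Adj u (c.rotate u hu).snd := SimpleGraph.Walk.adj_snd hnil
    have h2 : (tree d).Adj u (c.rotate u hu).penultimate :=
      (SimpleGraph.Walk.adj_penultimate hnil).symm
    have hs : ∀ z ∈ (c.rotate u hu).support, L9_dep z ≤ L9_dep u := fun z hz =>
      hmax z ((SimpleGraph.Walk.mem_support_rotate_iff ..).1 hz)
    rw [L9_adj h1 (hs _ (SimpleGraph.Walk.getVert_mem_support _ _)),
      L9_adj h2 (hs _ (SimpleGraph.Walk.getVert_mem_support _ _))]

private theorem L9_nb {d : ℕ} (x : TV d) : (tree d).neighborSet x =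
    Set.range (fun o : Option (Fin d) => match o with
      | none => if x.2 = [] then ((!x.1, []) : TV d) else (x.1, x.2.dropLast)
      | some i => (x.1, x.2 ++ [i])) := by
  obtain ⟨b, w⟩ := x
  ext ⟨c, v⟩
  simp only [SimpleGraph.mem_neighborSet, Set.mem_range]
  constructor
  · rintro (⟨i, h⟩ | ⟨i, h⟩ | ⟨h1, h2, h3⟩)
    · exact ⟨some i, h.symm⟩
    · simp only [Prod.mk.injEq] at h
      obtain ⟨rfl, rfl⟩ := h
      exact ⟨none, by simp⟩
    · simp only at h1 h2 h3
      subst h2 h3
      exact ⟨none, by cases b <;> cases c <;> simp at *⟩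
  · rintro ⟨o, h⟩
    cases o with
    | some i => exact Or.inl ⟨i, h.symm⟩
    | none =>
      simp only at h
      by_cases hw : w = []
      · subst hw
        simp only [if_true, Prod.mk.injEq] at h
        obtain ⟨rfl, rfl⟩ := h
        exact Or.inr (Or.inr ⟨by simp, rfl, rfl⟩)
      · rw [if_neg hw] at h
        simp only [Prod.mk.injEq] at h
        obtain ⟨rfl, rfl⟩ := h
        exact Or.inr (Or.inl ⟨w.getLast hw, by simp [List.dropLast_append_getLast hw]⟩)

theorem tree_degree (d : ℕ) (x : TV d) :
    ((tree d).neighborSet x).Finite ∧ ((tree d).neighborSet x).ncard = d + 1 := by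
  rw [L9_nb]
  refine ⟨Set.finite_range _, ?_⟩
  rw [← Set.image_univ, Set.ncard_image_of_injective, Set.ncard_univ]
  · simp
  · obtain ⟨b, w⟩ := x
    intro o o' h
    have hl : ∀ (u : List (Fin d)) (i : Fin d), u.dropLast ≠ u ++ [i] := by
      intro u i h
      have := congrArg List.length h
      simp at this
    cases o with
    | none =>
      cases o' with
      | none => rfl
      | some j =>
        exfalso
        by_cases hw : w = []
        · simp [hw] at h
        · simp [hw] at h
          exact hl _ _ h
    | some i =>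
      cases o' with
      | none =>
        exfalso
        by_cases hw : w = []
        · simp [hw] at h
        · simp [hw] at h
          exact hl _ _ h.symm
      | some j => simpa using h

end H50CP
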