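import Pool.Agent.H50.CP.Main
import Pool.Agent.H50.CP.L2
import Pool.Agent.H50.CP.L3
import Pool.Agent.H50.CP.L5
import Pool.Agent.H50.CP.L6
import Pool.Agent.H50.CP.L7
import Pool.Agent.H50.CP.L8
import Pool.Agent.H50.CP.L9

/-! # Fin: the literal form of the result -/

namespace H50CP

open MeasureTheory ProbabilityTheory Set
open scoped NNReal ENNReal Classical

theorem measurable_upper0 {V : Type} [Countable V] (G : SimpleGraph V) :
    Measurable (fun (ω : CΩ V) (x : V) => decide (Upper G ω x 0)) :=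
  measurable_pi_lambda _ fun x => measurable_dec (measurableSet_upper G 0 x)

theorem measurable_flip0 {V : Type} [Countable V] :
    Measurable (fun (ω : FΩ V) (x : V) => decide (FlipOn ω x 0)) :=
  measurable_pi_lambda _ fun x => measurable_dec (measurableSet_flip 0 x)

theorem lit_result (d : ℕ) (hd : 2 ≤ d) (lam : ℝ≥0)
    (hl : lamC < lam ∨ 1 < (lam : ℝ) * ((d : ℝ) - 1)) :
    (∃ ν, IsUpperInv (tree d) lam ν) ∧
    ∀ ν, IsUpperInv (tree d) lam ν →
      ∃ al : ℝ≥0, 0 < al ∧
        ∃ (Ω : Type) (_ : MeasurableSpace Ω) (P : Measure Ω) (_ : IsProbabilityMeasure P)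
          (η₀ : Ω → TV d → Bool) (N₁ : Ω → CS (TV d))
          (ξ₀ : Ω → TV d → Bool) (N₂ : Ω → FS (TV d)),
          Measurable η₀ ∧ Measurable N₁ ∧ Measurable ξ₀ ∧ Measurable N₂ ∧
          P.map (fun ω => (η₀ ω, N₁ ω)) = ν.prod (CL (TV d) lam) ∧
          P.map (fun ω => (ξ₀ ω, N₂ ω)) = (muRho (TV d) al).prod (FL (TV d) al) ∧
          ∀ᵐ ω ∂P, ∀ (x : TV d) (t : ℝ), 0 ≤ t →
            On (N₂ ω) (ξ₀ ω) x t → Inf (tree d) (N₁ ω) (η₀ ω) x t := by
  have hl' : 1 < (lam : ℝ) * ((d : ℝ) - 1) := by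
    rcases hl with hl | hl
    · have h1 : (1 : ℝ≥0∞) < lam := lt_of_le_of_lt one_le_lamC hl
      have h2 : (1 : ℝ) < lam := by exact_mod_cast h1
      have h3 : (2 : ℝ) ≤ d := by exact_mod_cast hd
      nlinarith
    · exact hl
  refine ⟨⟨_, upper_inv (tree d) lam⟩, fun ν hν => ?_⟩
  have hνe := hν.unique (upper_inv (tree d) lam)
  obtain ⟨al, hal, π, hπ, h1, h2, h3⟩ := main_coupling d hd lam hl'
  have mU := measurable_upper0 (tree d)
  have mF := measurable_flip0 (V := TV d)
  have mres1 := measurable_res (ι := TV d ⊕ (TV d × TV d))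
  have mres2 := measurable_res (ι := TV d ⊕ TV d)
  refine ⟨al, hal, CΩ (TV d) × FΩ (TV d), inferInstance, π, hπ,
    fun ω x => decide (Upper (tree d) ω.1 x 0), fun ω => res ω.1,
    fun ω x => decide (FlipOn ω.2 x 0), fun ω => res ω.2,
    mU.comp measurable_fst, mres1.comp measurable_fst,
    mF.comp measurable_snd, mres2.comp measurable_snd, ?_, ?_, ?_⟩
  · have e := indep_res (Sum.elim (fun _ : TV d => (1 : ℝ≥0)) (fun _ : TV d × TV d => lam))
      (fun (ω : CΩ (TV d)) (x : TV d) => decide (Upper (tree d) ω x 0)) mU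
      (fun ω ω' h => by
        funext x
        exact decide_eq_decide.2 (upper_dep (tree d) ω ω' h x))
    have hc : (fun ω : CΩ (TV d) × FΩ (TV d) =>
        ((fun x => decide (Upper (tree d) ω.1 x 0)), res ω.1)) =
        (fun ω : CΩ (TV d) => ((fun x => decide (Upper (tree d) ω x 0)), res ω)) ∘ Prod.fst := rfl
    rw [hc, ← Measure.map_map (mU.prodMk mres1) measurable_fst, h1, hνe]
    exact e
  · have e := indep_res (Sum.elim (fun _ : TV d => (1 : ℝ≥0)) (fun _ : TV d => al))
      (fun (ω : FΩ (TV d)) (x : TV d) => decide (FlipOn ω x 0)) mF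
      (fun ω ω' h => by
        funext x
        exact decide_eq_decide.2 (flip_dep ω ω' h x))
    have hc : (fun ω : CΩ (TV d) × FΩ (TV d) =>
        ((fun x => decide (FlipOn ω.2 x 0)), res ω.2)) =
        (fun ω : FΩ (TV d) => ((fun x => decide (FlipOn ω x 0)), res ω)) ∘ Prod.snd := rfl
    rw [hc, ← Measure.map_map (mF.prodMk mres2) measurable_snd, h2, ← flip_law]
    exact e
  · have hfin : ∀ᵐ ω ∂π, ∀ (x : TV d) (T : ℕ), ∃ n, ¬ Arr (tree d) ω.1 n x T := by
      have hD : ∀ x, ((tree d).neighborSet x).Finite ∧ ((tree d).neighborSet x).ncard ≤ d + 1 :=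
        fun x => ⟨(tree_degree d x).1, (tree_degree d x).2.le⟩
      have := arr_finite (tree d) (d + 1) hD lam
      rw [← h1] at this
      exact ae_of_ae_map measurable_fst.aemeasurable this
    filter_upwards [h3, hfin] with ω hω hf x t ht hon
    have hF : FlipOn ω.2 x t := on_flip ω.2 _ (fun y => by simp) x t ht hon
    exact upper_inf (tree d) (fun x => (tree_degree d x).1) ω.1 hf _ (fun y => by simp) x t ht
      (hω x t hF)

end H50CP
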