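import Mathlib

/-!
# G1: Strassen's theorem on a finite ordered set

Let `S ⊆ (α → ℝ) × (α → ℝ)` be the finite set of the pairs `(Pi.single x 1, Pi.single y 1)`, `x ≤ y`.
If `(μ, ν) ∈ convexHull ℝ S` we get `w` (`Finset.centerMass`/`mem_convexHull` for finite sets:
`Finset.mem_convexHull'` or `convexHull_eq`).  Otherwise separate
(`geometric_hahn_banach_point_closed` or `geometric_hahn_banach_closed_point`; the convex hull of a
finite set is compact: `Set.Finite.isCompact_convexHull`): there are `g h : α → ℝ` and `c` with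
`g x + h y ≤ c` for `x ≤ y` and `c < Σ g μ + Σ h ν`.  Let `F y = sup_{x ≤ y} g x` (`Finset.sup'`), a
monotone function, `g ≤ F`, `F y + h y ≤ c`.  Then `Σ g μ + Σ h ν ≤ Σ F μ + Σ (c - F) ν =
c + Σ F μ - Σ F ν ≤ c`, a contradiction.
-/

namespace H50CP

theorem strassen_finite {α : Type} [Fintype α] [Preorder α] (μ ν : α → ℝ)
    (hμ : ∀ x, 0 ≤ μ x) (hν : ∀ x, 0 ≤ ν x) (hμ1 : ∑ x, μ x = 1) (hν1 : ∑ x, ν x = 1)
    (h : ∀ f : α → ℝ, Monotone f → ∑ x, f x * μ x ≤ ∑ x, f x * ν x) :
    ∃ w : α → α → ℝ, (∀ x y, 0 ≤ w x y) ∧ (∀ x y, w x y ≠ 0 → x ≤ y) ∧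
      (∀ x, ∑ y, w x y = μ x) ∧ (∀ y, ∑ x, w x y = ν y) := by
  classical
  set pt : α × α → (α → ℝ) × (α → ℝ) := fun p => (Pi.single p.1 1, Pi.single p.2 1) with hpt
  have hinj : Function.Injective pt := by
    rintro ⟨x, y⟩ ⟨x', y'⟩ hp
    simp only [hpt, Prod.mk.injEq] at hp
    have h1 : x = x' := by
      by_contra hne
      have := congrFun hp.1 x
      rw [Pi.single_eq_same, Pi.single_eq_of_ne hne] at this
      exact one_ne_zero this
    have h2 : y = y' := by
      by_contra hne
      have := congrFun hp.2 y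
      rw [Pi.single_eq_same, Pi.single_eq_of_ne hne] at this
      exact one_ne_zero this
    rw [h1, h2]
  set T : Finset (α × α) := Finset.univ.filter fun p => p.1 ≤ p.2 with hT
  set S : Finset ((α → ℝ) × (α → ℝ)) := T.image pt with hS
  have hmem : (μ, ν) ∈ convexHull ℝ (S : Set ((α → ℝ) × (α → ℝ))) := by
    by_contra hcon
    obtain ⟨f, u, hf1, hf2⟩ := geometric_hahn_banach_closed_point (convex_convexHull ℝ _)
      (S.finite_toSet.isClosed_convexHull (𝕜 := ℝ)) hcon
    set g : α → ℝ := fun x => f (Pi.single x 1, 0) with hg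
    set k : α → ℝ := fun y => f (0, Pi.single y 1) with hk
    have hgk : ∀ x y, x ≤ y → g x + k y < u := by
      intro x y hxy
      have h1 : pt (x, y) ∈ convexHull ℝ (S : Set ((α → ℝ) × (α → ℝ))) := by
        apply subset_convexHull
        rw [Finset.mem_coe, hS, Finset.mem_image]
        exact ⟨(x, y), by simp [hT, hxy], rfl⟩
      have h2 := hf1 _ h1
      have h3 : pt (x, y) = (Pi.single x 1, 0) + (0, Pi.single y 1) := by
        simp [hpt]
      rw [h3, map_add] at h2
      exact h2
    have hfx : f (μ, ν) = ∑ x, g x * μ x + ∑ y, k y * ν y := by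
      have e1 : (μ, ν) = ∑ x, μ x • ((Pi.single x (1:ℝ), 0) : (α → ℝ) × (α → ℝ)) +
          ∑ y, ν y • ((0, Pi.single y (1:ℝ)) : (α → ℝ) × (α → ℝ)) := by
        refine Prod.ext ?_ ?_
        · funext z
          simp [Prod.fst_sum, Finset.sum_apply, Pi.single_apply]
        · funext z
          simp [Prod.snd_sum, Finset.sum_apply, Pi.single_apply]
      rw [e1, map_add, map_sum, map_sum]
      congr 1
      · exact Finset.sum_congr rfl fun x _ => by rw [map_smul, smul_eq_mul, mul_comm]
      · exact Finset.sum_congr rfl fun x _ => by rw [map_smul, smul_eq_mul, mul_comm]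
    have hne : ∀ y : α, (Finset.univ.filter fun x => x ≤ y).Nonempty :=
      fun y => ⟨y, by simp⟩
    set F : α → ℝ := fun y => (Finset.univ.filter fun x => x ≤ y).sup' (hne y) g with hF
    have hFm : Monotone F := by
      intro y y' hy
      refine Finset.sup'_mono g ?_ (hne y)
      intro x hx
      rw [Finset.mem_filter] at hx ⊢
      exact ⟨hx.1, hx.2.trans hy⟩
    have hgF : ∀ x, g x ≤ F x := fun x => Finset.le_sup' g (by simp)
    have hFk : ∀ y, F y + k y ≤ u := by
      intro y
      obtain ⟨x, hx, hx'⟩ := Finset.exists_mem_eq_sup' (hne y) g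
      rw [Finset.mem_filter] at hx
      simp only [hF]
      rw [hx']
      exact (hgk x y hx.2).le
    have h1 : ∑ x, g x * μ x ≤ ∑ x, F x * μ x :=
      Finset.sum_le_sum fun x _ => mul_le_mul_of_nonneg_right (hgF x) (hμ x)
    have h2 : ∑ y, k y * ν y ≤ ∑ y, (u - F y) * ν y :=
      Finset.sum_le_sum fun y _ => mul_le_mul_of_nonneg_right (by linarith [hFk y]) (hν y)
    have h3 : ∑ y, (u - F y) * ν y = u - ∑ y, F y * ν y := by
      simp only [sub_mul, Finset.sum_sub_distrib, ← Finset.mul_sum, hν1, mul_one]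
    have h4 := h F hFm
    rw [hfx] at hf2
    linarith
  rw [Finset.mem_convexHull'] at hmem
  obtain ⟨W, hW0, -, hW⟩ := hmem
  rw [hS, Finset.sum_image (fun a _ b _ hab => hinj hab)] at hW
  have hfst : ∀ z, ∑ p ∈ T, W (pt p) * (Pi.single p.1 (1:ℝ) : α → ℝ) z = μ z := by
    intro z
    have := congrFun (congrArg Prod.fst hW) z
    simpa [Prod.fst_sum, Finset.sum_apply, hpt] using this
  have hsnd : ∀ z, ∑ p ∈ T, W (pt p) * (Pi.single p.2 (1:ℝ) : α → ℝ) z = ν z := by
    intro z
    have := congrFun (congrArg Prod.snd hW) z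
    simpa [Prod.snd_sum, Finset.sum_apply, hpt] using this
  refine ⟨fun x y => if x ≤ y then W (pt (x, y)) else 0, ?_, ?_, ?_, ?_⟩
  · intro x y
    simp only
    split_ifs with hxy
    · exact hW0 _ (by rw [hS, Finset.mem_image]; exact ⟨(x, y), by simp [hT, hxy], rfl⟩)
    · exact le_rfl
  · intro x y hne
    by_contra hxy
    exact hne (if_neg hxy)
  · intro z
    rw [← hfst z, hT, Finset.sum_filter, Fintype.sum_prod_type]
    symm
    rw [Finset.sum_eq_single z]
    · exact Finset.sum_congr rfl fun y _ => by simp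
    · intro x _ hx
      refine Finset.sum_eq_zero fun y _ => ?_
      rw [Pi.single_eq_of_ne (Ne.symm hx), mul_zero, ite_self]
    · intro hz
      exact absurd (Finset.mem_univ z) hz
  · intro z
    rw [← hsnd z, hT, Finset.sum_filter, Fintype.sum_prod_type_right]
    symm
    rw [Finset.sum_eq_single z]
    · exact Finset.sum_congr rfl fun y _ => by simp
    · intro x _ hx
      refine Finset.sum_eq_zero fun y _ => ?_
      rw [Pi.single_eq_of_ne (Ne.symm hx), mul_zero, ite_self]
    · intro hz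
      exact absurd (Finset.mem_univ z) hz

end H50CP
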