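import Pool.Agent.H50.CP.G1

/-!
# G2: Strassen's theorem on `S → Bool`, `S` countable

For a finite `A ⊆ S` let `w_A` be the coupling given by `strassen_finite` of the images of `μ`, `ν`
under the restriction to `A` and
`π_A = Σ_{u,v : A → Bool} w_A(u,v) · μ[· | restriction = u] ⊗ ν[· | restriction = v]`
(`ProbabilityTheory.cond`; only the `u`, `v` of positive mass matter), a probability measure on
`(S → Bool) × (S → Bool)` with marginals `μ`, `ν` and `π_A {y s ≤ x s for s ∈ A} = 1`.
`ProbabilityMeasure ((S → Bool) × (S → Bool))` is compact (Mathlib instance; `Bool` and `S → Bool` with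
the product topology are compact metrizable, `BorelSpace` instances); take a cluster point `π` of
`A ↦ π_A` along `Filter.atTop : Filter (Finset S)`.  Marginals are preserved
(`ProbabilityMeasure.continuous_map`, equality is a closed condition), and for every `s` the clopen set
`{y s ≤ x s}` has `π_A`-measure 1 for all `A ∋ s`, hence `π`-measure 1
(`ProbabilityMeasure` portmanteau for clopen sets, or the integral of a bounded continuous function).
-/

namespace H50CP

open MeasureTheory ProbabilityTheory Set

/-- the cylinder of the configurations with restriction `u` -/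
private def g2C {S : Type} (A : Finset S) (u : A → Bool) : Set (S → Bool) :=
  (fun (y : S → Bool) (i : A) => y i) ⁻¹' {u}

private theorem g2C_meas {S : Type} (A : Finset S) (u : A → Bool) : MeasurableSet (g2C A u) := by
  have : Measurable (fun (y : S → Bool) (i : A) => y i) :=
    measurable_pi_lambda _ fun i => measurable_pi_apply _
  exact this (measurableSet_singleton u)

open Classical in
private theorem g2C_sum {S : Type} (A : Finset S) (μ : Measure (S → Bool)) [IsProbabilityMeasure μ]
    (f : (A → Bool) → ℝ) : ∫ y, f (fun i => y i) ∂μ = ∑ u, f u * μ.real (g2C A u) := by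
  classical
  have hm : Measurable (fun (y : S → Bool) (i : A) => y i) :=
    measurable_pi_lambda _ fun i => measurable_pi_apply _
  have h1 : ∫ y, f (fun i => y i) ∂μ = ∫ u, f u ∂(μ.map (fun (y : S → Bool) (i : A) => y i)) := by
    rw [integral_map hm.aemeasurable]
    exact (measurable_of_finite f).aestronglyMeasurable
  have : IsProbabilityMeasure (μ.map (fun (y : S → Bool) (i : A) => y i)) :=
    Measure.isProbabilityMeasure_map hm.aemeasurable
  rw [h1, integral_fintype (Integrable.of_finite)]
  refine Finset.sum_congr rfl fun u _ => ?_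
  rw [smul_eq_mul, mul_comm]
  congr 1
  rw [measureReal_def, Measure.map_apply hm (measurableSet_singleton u)]
  rfl

open Classical in
private theorem g2_restrict {S : Type} (A : Finset S) (μ : Measure (S → Bool)) :
    ∑ u, μ.restrict (g2C A u) = μ := by
  ext E hE
  rw [Measure.finsetSum_apply]
  simp_rw [Measure.restrict_apply hE]
  rw [← measure_biUnion_finset]
  · congr 1
    ext y
    simp only [Finset.mem_univ, Set.iUnion_true, Set.mem_iUnion, Set.mem_inter_iff]
    exact ⟨fun ⟨u, hu⟩ => hu.1, fun hy => ⟨fun i => y i, hy, rfl⟩⟩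
  · intro u _ v _ huv
    refine Set.disjoint_left.2 fun y hy hy' => huv ?_
    have h1 : (fun i : A => y i) = u := hy.2
    have h2 : (fun i : A => y i) = v := hy'.2
    rw [← h1, ← h2]
  · intro u _
    exact hE.inter (g2C_meas A u)

private theorem g2_smul_cond {S : Type} (A : Finset S) (μ : Measure (S → Bool))
    [IsProbabilityMeasure μ] (u : A → Bool) :
    μ (g2C A u) • μ[|g2C A u] = μ.restrict (g2C A u) := by
  by_cases h0 : μ (g2C A u) = 0
  · rw [h0, zero_smul]
    exact (Measure.restrict_eq_zero.2 h0).symm
  · rw [ProbabilityTheory.cond, smul_smul, ENNReal.mul_inv_cancel h0 (measure_ne_top _ _), one_smul]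

/-- the coupling for a finite set of sites -/
private theorem g2_finite {S : Type} [Countable S] (μ ν : Measure (S → Bool))
    [IsProbabilityMeasure μ] [IsProbabilityMeasure ν]
    (h : ∀ (A : Finset S) (f : (A → Bool) → ℝ), Monotone f →
      ∫ y, f (fun i => y i) ∂μ ≤ ∫ x, f (fun i => x i) ∂ν) (A : Finset S) :
    ∃ π : Measure ((S → Bool) × (S → Bool)), IsProbabilityMeasure π ∧
      π.map Prod.fst = μ ∧ π.map Prod.snd = ν ∧ ∀ s ∈ A, π {p | p.1 s = true → p.2 s = true} = 1 := by
  classical
  have hsum1 : ∀ (μ : Measure (S → Bool)) [IsProbabilityMeasure μ], ∑ u, μ.real (g2C A u) = 1 := by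
    intro μ _
    have := g2C_sum A μ (fun _ => 1)
    simpa using this.symm
  obtain ⟨w, hw0, hwle, hwμ, hwν⟩ := strassen_finite (α := A → Bool) (fun u => μ.real (g2C A u))
    (fun u => ν.real (g2C A u)) (fun _ => measureReal_nonneg) (fun _ => measureReal_nonneg)
    (hsum1 μ) (hsum1 ν) (fun f hf => by
      rw [← g2C_sum A μ f, ← g2C_sum A ν f]
      exact h A f hf)
  have hμne : ∀ u v, w u v ≠ 0 → μ (g2C A u) ≠ 0 := by
    intro u v huv h0
    have h1 : μ.real (g2C A u) = 0 := by rw [measureReal_def, h0]; rfl
    have h2 := hwμ u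
    simp only [h1] at h2
    exact huv ((Finset.sum_eq_zero_iff_of_nonneg fun y _ => hw0 u y).1 h2 v (Finset.mem_univ v))
  have hνne : ∀ u v, w u v ≠ 0 → ν (g2C A v) ≠ 0 := by
    intro u v huv h0
    have h1 : ν.real (g2C A v) = 0 := by rw [measureReal_def, h0]; rfl
    have h2 := hwν v
    simp only [h1] at h2
    exact huv ((Finset.sum_eq_zero_iff_of_nonneg fun y _ => hw0 y v).1 h2 u (Finset.mem_univ u))
  set π : Measure ((S → Bool) × (S → Bool)) :=
    ∑ u, ∑ v, ENNReal.ofReal (w u v) • (μ[|g2C A u]).prod (ν[|g2C A v]) with hπ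
  have hfst : ∀ u v, ENNReal.ofReal (w u v) • ((μ[|g2C A u]).prod (ν[|g2C A v])).map Prod.fst
      = ENNReal.ofReal (w u v) • μ[|g2C A u] := by
    intro u v
    by_cases h0 : w u v = 0
    · rw [h0]; simp
    · have := cond_isProbabilityMeasure (hνne u v h0)
      rw [Measure.map_fst_prod, measure_univ, one_smul]
  have hsnd : ∀ u v, ENNReal.ofReal (w u v) • ((μ[|g2C A u]).prod (ν[|g2C A v])).map Prod.snd
      = ENNReal.ofReal (w u v) • ν[|g2C A v] := by
    intro u v
    by_cases h0 : w u v = 0
    · rw [h0]; simp
    · have := cond_isProbabilityMeasure (hμne u v h0)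
      rw [Measure.map_snd_prod, measure_univ, one_smul]
  have hm1 : π.map Prod.fst = μ := by
    rw [hπ, Measure.map_finset_sum' measurable_fst.aemeasurable]
    simp_rw [Measure.map_finset_sum' measurable_fst.aemeasurable, Measure.map_smul, hfst, ← Finset.sum_smul]
    conv_rhs => rw [← g2_restrict A μ]
    refine Finset.sum_congr rfl fun u _ => ?_
    rw [← ENNReal.ofReal_sum_of_nonneg fun v _ => hw0 u v, hwμ u, ← g2_smul_cond, measureReal_def,
      ENNReal.ofReal_toReal (measure_ne_top _ _)]
  have hm2 : π.map Prod.snd = ν := by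
    rw [hπ, Finset.sum_comm, Measure.map_finset_sum' measurable_snd.aemeasurable]
    simp_rw [Measure.map_finset_sum' measurable_snd.aemeasurable, Measure.map_smul, hsnd, ← Finset.sum_smul]
    conv_rhs => rw [← g2_restrict A ν]
    refine Finset.sum_congr rfl fun v _ => ?_
    rw [← ENNReal.ofReal_sum_of_nonneg fun u _ => hw0 u v, hwν v, ← g2_smul_cond, measureReal_def,
      ENNReal.ofReal_toReal (measure_ne_top _ _)]
  have hprob : IsProbabilityMeasure π := by
    constructor
    have h1 : π.map Prod.fst univ = 1 := by rw [hm1]; exact measure_univ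
    rwa [Measure.map_apply measurable_fst MeasurableSet.univ, preimage_univ] at h1
  refine ⟨π, hprob, hm1, hm2, fun s hs => ?_⟩
  have hmeas : MeasurableSet {p : (S → Bool) × (S → Bool) | p.1 s = true → p.2 s = true} := by
    have e : {p : (S → Bool) × (S → Bool) | p.1 s = true → p.2 s = true}
        = {p | p.1 s = true}ᶜ ∪ {p | p.2 s = true} := by
      ext p; simp only [Set.mem_ofPred_eq, Set.mem_union, Set.mem_compl_iff, imp_iff_not_or]
    rw [e]
    have m1 : Measurable fun p : (S → Bool) × (S → Bool) => p.1 s :=
      (measurable_pi_apply s).comp measurable_fst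
    have m2 : Measurable fun p : (S → Bool) × (S → Bool) => p.2 s :=
      (measurable_pi_apply s).comp measurable_snd
    exact MeasurableSet.union (MeasurableSet.compl (m1 (measurableSet_singleton true)))
      (m2 (measurableSet_singleton true))
  rw [← prob_compl_eq_zero_iff hmeas, hπ, Measure.finsetSum_apply]
  refine Finset.sum_eq_zero fun u _ => ?_
  rw [Measure.finsetSum_apply]
  refine Finset.sum_eq_zero fun v _ => ?_
  by_cases h0 : w u v = 0
  · rw [h0]; simp
  · have huv := hwle u v h0
    rw [Measure.smul_apply, smul_eq_mul, mul_eq_zero]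
    right
    have h1 : (μ[|g2C A u]).prod (ν[|g2C A v]) ((g2C A u)ᶜ ×ˢ univ) = 0 := by
      have := cond_isProbabilityMeasure (hνne u v h0)
      rw [Measure.prod_prod]
      have : μ[|g2C A u] (g2C A u)ᶜ = 0 := by
        rw [cond_apply (g2C_meas A u), inter_compl_self, measure_empty, mul_zero]
      rw [this, zero_mul]
    have h2 : (μ[|g2C A u]).prod (ν[|g2C A v]) (univ ×ˢ (g2C A v)ᶜ) = 0 := by
      have := cond_isProbabilityMeasure (hνne u v h0)
      rw [Measure.prod_prod]
      have : ν[|g2C A v] (g2C A v)ᶜ = 0 := by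
        rw [cond_apply (g2C_meas A v), inter_compl_self, measure_empty, mul_zero]
      rw [this, mul_zero]
    refine measure_mono_null (t := (g2C A u)ᶜ ×ˢ univ ∪ univ ×ˢ (g2C A v)ᶜ) ?_
      (measure_union_null h1 h2)
    intro p hp
    by_contra hcon
    simp only [Set.mem_union, Set.mem_prod, Set.mem_compl_iff, Set.mem_univ, and_true, true_and,
      not_or, not_not] at hcon
    apply hp
    intro h3
    have e1 : (fun i : A => p.1 i) = u := hcon.1
    have e2 : (fun i : A => p.2 i) = v := hcon.2
    have e3 : u ⟨s, hs⟩ = true := by rw [← e1]; exact h3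
    have e4 : v ⟨s, hs⟩ = true := by
      have := huv ⟨s, hs⟩
      rw [e3] at this
      exact Bool.eq_true_of_true_le this
    rw [← e2] at e4
    exact e4

theorem strassen_countable {S : Type} [Countable S] (μ ν : Measure (S → Bool))
    [IsProbabilityMeasure μ] [IsProbabilityMeasure ν]
    (h : ∀ (A : Finset S) (f : (A → Bool) → ℝ), Monotone f →
      ∫ y, f (fun i => y i) ∂μ ≤ ∫ x, f (fun i => x i) ∂ν) :
    ∃ π : Measure ((S → Bool) × (S → Bool)), IsProbabilityMeasure π ∧
      π.map Prod.fst = μ ∧ π.map Prod.snd = ν ∧ ∀ᵐ p ∂π, ∀ s, p.1 s = true → p.2 s = true := by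
  classical
  have hpm : TopologicalSpace.PseudoMetrizableSpace (S → Bool) := by
    have := TopologicalSpace.metrizableSpace_of_t3_secondCountable (S → Bool)
    infer_instance
  have hpm2 : TopologicalSpace.PseudoMetrizableSpace ((S → Bool) × (S → Bool)) := by
    infer_instance
  choose π hπ1 hπ2 hπ3 hπ4 using g2_finite μ ν h
  let Q : Finset S → ProbabilityMeasure ((S → Bool) × (S → Bool)) := fun A => ⟨π A, hπ1 A⟩
  let U : Ultrafilter (Finset S) := Ultrafilter.of Filter.atTop
  obtain ⟨q, -, hq⟩ := isCompact_univ.ultrafilter_le_nhds (U.map Q) (by simp)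
  have hlim : Filter.Tendsto Q U (nhds q) := hq
  refine ⟨(q : Measure ((S → Bool) × (S → Bool))), inferInstance, ?_, ?_, ?_⟩
  · have h1 := ProbabilityMeasure.tendsto_map_of_tendsto_of_continuous Q q hlim
      (continuous_fst (X := S → Bool) (Y := S → Bool))
    have h2 : (fun A => (Q A).map (continuous_fst (X := S → Bool) (Y := S → Bool)).measurable.aemeasurable)
        = fun _ => (⟨μ, inferInstance⟩ : ProbabilityMeasure (S → Bool)) := by
      funext A
      exact Subtype.ext (hπ2 A)
    rw [h2] at h1
    have h3 := tendsto_nhds_unique h1 tendsto_const_nhds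
    exact congrArg Subtype.val h3
  · have h1 := ProbabilityMeasure.tendsto_map_of_tendsto_of_continuous Q q hlim
      (continuous_snd (X := S → Bool) (Y := S → Bool))
    have h2 : (fun A => (Q A).map (continuous_snd (X := S → Bool) (Y := S → Bool)).measurable.aemeasurable)
        = fun _ => (⟨ν, inferInstance⟩ : ProbabilityMeasure (S → Bool)) := by
      funext A
      exact Subtype.ext (hπ3 A)
    rw [h2] at h1
    have h3 := tendsto_nhds_unique h1 tendsto_const_nhds
    exact congrArg Subtype.val h3
  · rw [ae_all_iff]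
    intro s
    have hcl : IsClopen {p : (S → Bool) × (S → Bool) | p.1 s = true → p.2 s = true} := by
      have e : {p : (S → Bool) × (S → Bool) | p.1 s = true → p.2 s = true}
          = {p | p.1 s = true}ᶜ ∪ {p | p.2 s = true} := by
        ext p; simp only [Set.mem_ofPred_eq, Set.mem_union, Set.mem_compl_iff, imp_iff_not_or]
      rw [e]
      refine IsClopen.union (IsClopen.compl ?_) ?_
      · exact (isClopen_discrete {true}).preimage ((continuous_apply s).comp continuous_fst)
      · exact (isClopen_discrete {true}).preimage ((continuous_apply s).comp continuous_snd)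
    have h1 := ProbabilityMeasure.tendsto_measure_of_isClopen_of_tendsto hlim hcl
    have h2 : ∀ᶠ A in (U : Filter (Finset S)),
        Q A {p : (S → Bool) × (S → Bool) | p.1 s = true → p.2 s = true} = 1 := by
      have h3 : ∀ᶠ A in (Filter.atTop : Filter (Finset S)), s ∈ A := by
        filter_upwards [Filter.eventually_ge_atTop ({s} : Finset S)] with A hA
        exact hA (Finset.mem_singleton_self s)
      have h4 : ∀ᶠ A in (U : Filter (Finset S)), s ∈ A := Ultrafilter.of_le _ h3
      filter_upwards [h4] with A hA
      have := hπ4 A s hA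
      show ((π A) _).toNNReal = 1
      rw [this]; rfl
    have h5 := tendsto_nhds_unique (h1.congr' h2) tendsto_const_nhds
    have h6 : (q : Measure ((S → Bool) × (S → Bool)))
        {p : (S → Bool) × (S → Bool) | p.1 s = true → p.2 s = true} = 1 := by
      rw [← ProbabilityMeasure.ennreal_coeFn_eq_coeFn_toMeasure, h5]; rfl
    have h7 := (prob_compl_eq_zero_iff (μ := (q : Measure ((S → Bool) × (S → Bool))))
      hcl.isOpen.measurableSet).2 h6
    exact mem_ae_iff.2 h7

end H50CP
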