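import Pool.Agent.H50.CP.G2

/-!
# G3: gluing

Let `π₀` be the coupling of the laws `P2.map Y`, `P1.map X` given by `strassen_countable`.  Let `κ₁ x`
be a regular conditional law of `ω₁` given `X ω₁ = x`: `κ₁ = condDistrib id X P1` (or the
`condKernel` of the law of `(X ω₁, ω₁)`), similarly `κ₂ y` for `Y`.  Define
`π = π₀.bind (fun p => (κ₁ p.2).prod (κ₂ p.1))` (as a kernel: `(κ₁.comap Prod.snd _) ×ₖ (κ₂.comap
Prod.fst _) ∘ₘ π₀`).  Its marginals are `∫ κ₁ x d(P1.map X)(x) = P1` and `P2`;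
and for `π`-almost all `(ω₁, ω₂)` together with the mixing variable, `X ω₁ = x`, `Y ω₂ = y`, `y ≤ x`.
(Consider the joint law of `(p, ω₁, ω₂)` under `π₀ ⊗ₘ (κ₁ ×ₖ κ₂)`.)
-/

namespace H50CP

open MeasureTheory ProbabilityTheory Set

private lemma G3_map {S Ω : Type} [Countable S] [MeasurableSpace Ω] [StandardBorelSpace Ω]
    [Nonempty Ω] (P : Measure Ω) [IsProbabilityMeasure P] (X : Ω → S → Bool)
    (hX : Measurable X) :
    ∃ K : Kernel (S → Bool) Ω, IsMarkovKernel K ∧ (P.map X).bind K = P ∧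
      ∀ᵐ x ∂(P.map X), ∀ᵐ ω ∂(K x), X ω = x := by
  have hm : Measurable (fun ω => (X ω, ω)) := hX.prodMk measurable_id
  have : IsProbabilityMeasure (P.map (fun ω => (X ω, ω))) :=
    Measure.isProbabilityMeasure_map hm.aemeasurable
  have hfst : (P.map (fun ω => (X ω, ω))).fst = P.map X := Measure.fst_map_prodMk measurable_id
  have hsnd : (P.map (fun ω => (X ω, ω))).snd = P := by
    rw [Measure.snd_map_prodMk hX]
    exact Measure.map_id
  have hdis : (P.map X) ⊗ₘ (P.map (fun ω => (X ω, ω))).condKernel = P.map (fun ω => (X ω, ω)) := by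
    have h := (P.map (fun ω => (X ω, ω))).disintegrate (P.map (fun ω => (X ω, ω))).condKernel
    rw [hfst] at h
    exact h
  have hpX : IsProbabilityMeasure (P.map X) := Measure.isProbabilityMeasure_map hX.aemeasurable
  refine ⟨(P.map (fun ω => (X ω, ω))).condKernel, inferInstance, ?_, ?_⟩
  · have h1 : ((P.map X) ⊗ₘ (P.map (fun ω => (X ω, ω))).condKernel).snd = P := by
      rw [hdis, hsnd]
    rw [Measure.snd_compProd] at h1
    exact h1
  · have h2 : ∀ᵐ z ∂((P.map X) ⊗ₘ (P.map (fun ω => (X ω, ω))).condKernel), X z.2 = z.1 := by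
      rw [hdis, ae_map_iff hm.aemeasurable]
      · exact Filter.Eventually.of_forall fun ω => rfl
      · exact measurableSet_eq_fun (hX.comp measurable_snd) measurable_fst
    exact Measure.ae_ae_of_ae_compProd h2

theorem exists_coupling {S Ω₁ Ω₂ : Type} [Countable S] [MeasurableSpace Ω₁]
    [StandardBorelSpace Ω₁] [Nonempty Ω₁] [MeasurableSpace Ω₂] [StandardBorelSpace Ω₂]
    [Nonempty Ω₂] (P₁ : Measure Ω₁) (P₂ : Measure Ω₂) [IsProbabilityMeasure P₁]
    [IsProbabilityMeasure P₂] (X : Ω₁ → S → Bool) (Y : Ω₂ → S → Bool) (hX : Measurable X)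
    (hY : Measurable Y)
    (h : ∀ (A : Finset S) (f : (A → Bool) → ℝ), Monotone f →
      ∫ ω, f (fun i => Y ω i) ∂P₂ ≤ ∫ ω, f (fun i => X ω i) ∂P₁) :
    ∃ π : Measure (Ω₁ × Ω₂), IsProbabilityMeasure π ∧ π.map Prod.fst = P₁ ∧
      π.map Prod.snd = P₂ ∧ ∀ᵐ ω ∂π, ∀ s, Y ω.2 s = true → X ω.1 s = true := by
  have hpX : IsProbabilityMeasure (P₁.map X) := Measure.isProbabilityMeasure_map hX.aemeasurable
  have hpY : IsProbabilityMeasure (P₂.map Y) := Measure.isProbabilityMeasure_map hY.aemeasurable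
  obtain ⟨π₀, hπ₀, h1, h2, h3⟩ := strassen_countable (P₂.map Y) (P₁.map X) (by
    intro A f hf
    have hmeas : Measurable (fun x : S → Bool => f (fun i : A => x i)) := by
      have : Measurable f := measurable_of_finite f
      exact this.comp (measurable_pi_lambda _ fun i => measurable_pi_apply (i : S))
    rw [integral_map hY.aemeasurable hmeas.aestronglyMeasurable,
      integral_map hX.aemeasurable hmeas.aestronglyMeasurable]
    exact h A f hf)
  obtain ⟨K₁, hK₁, hb₁, ha₁⟩ := G3_map P₁ X hX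
  obtain ⟨K₂, hK₂, hb₂, ha₂⟩ := G3_map P₂ Y hY
  let κ : Kernel ((S → Bool) × (S → Bool)) (Ω₁ × Ω₂) :=
    (K₁.comap Prod.snd measurable_snd) ×ₖ (K₂.comap Prod.fst measurable_fst)
  have hκ : ∀ p, κ p = (K₁ p.2).prod (K₂ p.1) := by
    intro p
    show ((K₁.comap Prod.snd measurable_snd) ×ₖ (K₂.comap Prod.fst measurable_fst)) p = _
    rw [Kernel.prod_apply, Kernel.comap_apply, Kernel.comap_apply]
  have hκf : ∀ p, (κ p).map Prod.fst = K₁ p.2 := by
    intro p
    rw [hκ p]
    exact Measure.fst_prod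
  have hκs : ∀ p, (κ p).map Prod.snd = K₂ p.1 := by
    intro p
    rw [hκ p]
    exact Measure.snd_prod
  refine ⟨π₀.bind κ, ?_, ?_, ?_, ?_⟩
  · infer_instance
  · ext s hs
    rw [Measure.map_apply measurable_fst hs, Measure.bind_apply (measurable_fst hs)
      κ.measurable.aemeasurable]
    have h4 : ∀ p, κ p (Prod.fst ⁻¹' s) = K₁ p.2 s := by
      intro p
      rw [← hκf p, Measure.map_apply measurable_fst hs]
    simp_rw [h4]
    conv_rhs => rw [← hb₁]
    rw [Measure.bind_apply hs K₁.measurable.aemeasurable, ← h2,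
      lintegral_map (K₁.measurable_coe hs) measurable_snd]
  · ext s hs
    rw [Measure.map_apply measurable_snd hs, Measure.bind_apply (measurable_snd hs)
      κ.measurable.aemeasurable]
    have h4 : ∀ p, κ p (Prod.snd ⁻¹' s) = K₂ p.1 s := by
      intro p
      rw [← hκs p, Measure.map_apply measurable_snd hs]
    simp_rw [h4]
    conv_rhs => rw [← hb₂]
    rw [Measure.bind_apply hs K₂.measurable.aemeasurable, ← h1,
      lintegral_map (K₂.measurable_coe hs) measurable_fst]
  · have hbad : MeasurableSet {ω : Ω₁ × Ω₂ | ∀ s, Y ω.2 s = true → X ω.1 s = true} := by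
      have : {ω : Ω₁ × Ω₂ | ∀ s, Y ω.2 s = true → X ω.1 s = true} =
          ⋂ s, ({ω : Ω₁ × Ω₂ | Y ω.2 s = true}ᶜ ∪ {ω : Ω₁ × Ω₂ | X ω.1 s = true}) := by
        ext ω
        simp only [mem_ofPred_eq, mem_iInter, mem_union, mem_compl_iff]
        exact forall_congr' fun s => imp_iff_not_or
      rw [this]
      refine MeasurableSet.iInter fun s => ?_
      refine MeasurableSet.union (MeasurableSet.compl ?_) ?_
      · exact ((measurable_pi_apply s).comp (hY.comp measurable_snd))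
          (measurableSet_singleton true)
      · exact ((measurable_pi_apply s).comp (hX.comp measurable_fst))
          (measurableSet_singleton true)
    rw [ae_iff]
    have hcompl : MeasurableSet {ω : Ω₁ × Ω₂ | ¬ ∀ s, Y ω.2 s = true → X ω.1 s = true} :=
      hbad.compl
    rw [Measure.bind_apply hcompl κ.measurable.aemeasurable, lintegral_eq_zero_iff
      (κ.measurable_coe hcompl)]
    have ha₁' : ∀ᵐ p ∂π₀, ∀ᵐ ω ∂(K₁ p.2), X ω = p.2 := by
      rw [← h2] at ha₁
      exact ae_of_ae_map measurable_snd.aemeasurable ha₁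
    have ha₂' : ∀ᵐ p ∂π₀, ∀ᵐ ω ∂(K₂ p.1), Y ω = p.1 := by
      rw [← h1] at ha₂
      exact ae_of_ae_map measurable_fst.aemeasurable ha₂
    filter_upwards [h3, ha₁', ha₂'] with p hp hp1 hp2
    show κ p {ω : Ω₁ × Ω₂ | ¬ ∀ s, Y ω.2 s = true → X ω.1 s = true} = 0
    rw [← ae_iff, hκ p]
    have e1 : ∀ᵐ ω ∂((K₁ p.2).prod (K₂ p.1)), X ω.1 = p.2 :=
      Measure.quasiMeasurePreserving_fst.ae hp1
    have e2 : ∀ᵐ ω ∂((K₁ p.2).prod (K₂ p.1)), Y ω.2 = p.1 :=
      Measure.quasiMeasurePreserving_snd.ae hp2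
    filter_upwards [e1, e2] with ω g1 g2 s hs
    rw [g1]
    rw [g2] at hs
    exact hp s hs

end H50CP
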