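import Pool.Agent.H50.CP.Lit
import Pool.Agent.H50.CP.D1

/-!
# L1: restriction of the clocks on `ℝ` to `(0, ∞)`

`pmarks_res`: a point `n + u`, `0 < u ≤ 1`, is positive iff `n ≥ 0`.
`res_law`: `infinitePi_map_pi` and `Measure.map_infinitePi_infinitePi_of_inj` (or `infinitePi_reindex`
of D1) with `Nat.cast`.
`inf_res_iff`: induction on the derivations in both directions (times of arrows are `> 0`).
-/

namespace H50CP

open MeasureTheory ProbabilityTheory Set
open scoped NNReal ENNReal

/-- restriction of the clocks to the positive half line -/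
def res {ι : Type} (ω : ι → Clk) : ι → PClk := fun i n => ω i (n : ℤ)

theorem mem_pmarks_res {ι : Type} (ω : ι → Clk) (i : ι) (t : ℝ) :
    t ∈ pmarks (res ω i) ↔ t ∈ marks (ω i) ∧ 0 < t := by
  constructor
  · rintro ⟨n, j, h1, h2, h3, rfl⟩
    refine ⟨⟨(n : ℤ), j, h1, h2, h3, ?_⟩, ?_⟩
    · simp [res]
    · have : (0 : ℝ) ≤ n := Nat.cast_nonneg n
      linarith
  · rintro ⟨⟨n, j, h1, h2, h3, rfl⟩, hpos⟩
    have hn : 0 ≤ n := by
      have h4 : (-1 : ℝ) < n := by linarith
      have h5 : (-1 : ℤ) < n := by exact_mod_cast h4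
      omega
    obtain ⟨m, rfl⟩ := Int.eq_ofNat_of_zero_le hn
    exact ⟨m, j, h1, h2, h3, by simp [res]⟩

theorem measurable_res {ι : Type} : Measurable (res (ι := ι)) := by
  unfold res
  fun_prop

private theorem l1_clk (r : ℝ≥0) : (clk r).map (fun (c : Clk) (n : ℕ) => c (n : ℤ)) = pclk r := by
  unfold clk pclk
  exact infinitePi_reindex (fun _ : ℤ => (poissonMeasure r).prod (Measure.infinitePi fun _ : ℕ => unif))
    (fun n : ℕ => (n : ℤ)) Nat.cast_injective

theorem res_law {ι : Type} (r : ι → ℝ≥0) : (pois r).map res = ppois r := by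
  unfold pois ppois
  have h := Measure.infinitePi_map_pi (fun i => clk (r i)) (f := fun _ (c : Clk) (n : ℕ) => c (n : ℤ))
    (fun _ => by fun_prop)
  simp only [l1_clk] at h
  exact h

theorem inf_res_iff {V : Type} (G : SimpleGraph V) (ω : CΩ V) (x : V) (t : ℝ) :
    Inf G (res ω) (fun _ => true) x t ↔ Reach G ω 0 x t := by
  constructor
  · intro h
    induction h with
    | start x t ht hx h =>
      refine Reach.start x t ht fun v hv hvt => ?_
      exact h v ((mem_pmarks_res ω _ v).2 ⟨hv, hvt.1⟩) hvt.2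
    | arrow x y u t hyx hut hu hy h ih =>
      obtain ⟨hu1, hu0⟩ := (mem_pmarks_res ω _ u).1 hu
      refine Reach.arrow x y u t hyx hu0 hut hu1 ih fun v hv hvt => ?_
      exact h v ((mem_pmarks_res ω _ v).2 ⟨hv, hu0.trans hvt.1⟩) hvt
  · intro h
    induction h with
    | start x t ht h =>
      refine Inf.start x t ht rfl fun v hv hvt => ?_
      obtain ⟨hv1, hv0⟩ := (mem_pmarks_res ω _ v).1 hv
      exact h v hv1 ⟨hv0, hvt⟩
    | arrow x y u t hyx hsu hut hu hy h ih =>
      refine Inf.arrow x y u t hyx hut ((mem_pmarks_res ω _ u).2 ⟨hu, hsu⟩) ih fun v hv hvt => ?_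
      exact h v ((mem_pmarks_res ω _ v).1 hv).1 hvt

end H50CP
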