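import Pool.Agent.H50.CP.Stmt

/-!
# L10: every `(d+1)`-regular tree is isomorphic to `tree d`

Choose adjacent `o, o'`.  For adjacent `v, p` choose an equivalence `nbr v p : Fin d ≃ {y // G.Adj v y ∧
y ≠ p}` (cardinality `d`).  `φ (b, w) : V × V` = (vertex, its parent) `= w.foldl step (start b)`,
`start false = (o, o')`, `start true = (o', o)`, `step (v, p) i = (nbr v p i, v)`; so
`φ (b, w ++ [i]) = step (φ (b, w)) i`.
* hom: `G.Adj` between vertex and parent.
* surjective: the range is nonempty and closed under adjacency (the neighbours of `v` are `p` and the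
  `nbr v p i`), `G` is connected.
* injective: distances to `o` (`IsTree.dist_eq_dist_add_one_of_adj`,
  `IsAcyclic.eq_penultimate_of_adj_end`: every vertex `≠ o` has a unique neighbour closer to `o`):
  the parent of `(b, w) ≠ (false, [])` is the closer neighbour.  So from equal vertices we get equal
  parents, by induction on the distance the parents come from the same element of `TV d`, and the last
  index is the same by injectivity of `nbr`.  (Or: `IsAcyclic.isPath_iff_isChain`, non-backtracking
  walks are paths.)
* adjacency in `G` implies adjacency in `tree d` by injectivity.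
-/

namespace H50CP

private theorem l10_unique {V : Type} {G : SimpleGraph V} (hG : G.IsTree) {o v y p : V} (hy : G.Adj v y)
    (hp : G.Adj v p) (h1 : G.dist o v = G.dist o y + 1) (h2 : G.dist o v = G.dist o p + 1) : y = p := by
  obtain ⟨q1, hq1, hl1⟩ := hG.connected.exists_path_of_dist o y
  obtain ⟨q2, hq2, hl2⟩ := hG.connected.exists_path_of_dist o p
  have p1 : (q1.concat hy.symm).IsPath := by
    apply SimpleGraph.Walk.isPath_of_length_eq_dist
    rw [SimpleGraph.Walk.length_concat, hl1, h1]
  have p2 : (q2.concat hp.symm).IsPath := by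
    apply SimpleGraph.Walk.isPath_of_length_eq_dist
    rw [SimpleGraph.Walk.length_concat, hl2, h2]
  have h := (hG.isAcyclic.subsingleton_path o v).elim ⟨_, p1⟩ ⟨_, p2⟩
  have h' := congrArg (fun p : G.Path o v => p.1.penultimate) h
  simpa using h'

private theorem l10_nbr {d : ℕ} {V : Type} (G : SimpleGraph V)
    (hdeg : ∀ x, (G.neighborSet x).ncard = d + 1) (v p : V) (h : G.Adj v p) :
    ∃ f : Fin d → V, Function.Injective f ∧ (∀ i, G.Adj v (f i) ∧ f i ≠ p) ∧
      ∀ y, G.Adj v y → y ≠ p → ∃ i, f i = y := by
  have hfin : (G.neighborSet v).Finite := Set.finite_of_ncard_ne_zero (by rw [hdeg]; omega)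
  set S : Set V := G.neighborSet v \ {p} with hS
  have hc : S.ncard = d := by
    have hp : p ∈ G.neighborSet v := h
    rw [hS, Set.ncard_sdiff_singleton_of_mem hp, hdeg]
    rfl
  have hSf : S.Finite := hfin.subset Set.sdiff_subset
  have : Finite S := hSf
  have hcard : Nat.card S = d := by rw [Nat.card_coe_set_eq, hc]
  let e := (Finite.equivFinOfCardEq hcard).symm
  refine ⟨fun i => (e i : V), ?_, ?_, ?_⟩
  · intro i j hij
    exact e.injective (Subtype.ext hij)
  · intro i
    exact ⟨(e i).2.1, (e i).2.2⟩
  · intro y hy hyp
    refine ⟨e.symm ⟨y, hy, hyp⟩, ?_⟩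
    simp

theorem tree_iso (d : ℕ) {V : Type} (G : SimpleGraph V) (hG : G.IsTree)
    (hdeg : ∀ x, (G.neighborSet x).ncard = d + 1) : Nonempty (tree d ≃g G) := by
  classical
  obtain ⟨o⟩ := hG.connected.nonempty
  have hne : (G.neighborSet o).Nonempty := by
    apply Set.nonempty_of_ncard_ne_zero
    rw [hdeg]; omega
  obtain ⟨o', ho'⟩ := hne
  have hoo : G.Adj o o' := ho'
  choose! nb hinj hadj hsurj using l10_nbr G hdeg
  let step : V × V → Fin d → V × V := fun s i => (nb s.1 s.2 i, s.1)
  let st : Bool → V × V := fun b => if b then (o', o) else (o, o')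
  let φ : TV d → V × V := fun x => x.2.foldl step (st x.1)
  have φ_nil : ∀ b, φ (b, []) = st b := fun b => rfl
  have φ_snoc : ∀ b w i, φ (b, w ++ [i]) = (nb (φ (b, w)).1 (φ (b, w)).2 i, (φ (b, w)).1) := by
    intro b w i
    simp only [φ, List.foldl_append, List.foldl_cons, List.foldl_nil, step]
  have st_adj : ∀ b, G.Adj (st b).1 (st b).2 := by
    intro b
    cases b
    · exact hoo
    · exact hoo.symm
  have φ_adj : ∀ x, G.Adj (φ x).1 (φ x).2 := by
    rintro ⟨b, w⟩
    induction w using List.reverseRecOn with
    | nil => exact st_adj b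
    | append_singleton w i ih =>
      rw [φ_snoc]
      exact (hadj _ _ ih i).1.symm
  have dist1 : ∀ x y, G.Adj x y → G.dist x y = 1 := fun x y h => SimpleGraph.dist_eq_one_iff_adj.2 h
  -- the parent is closer to `o`
  have closer : ∀ b w, (b, w) ≠ (false, ([] : List (Fin d))) →
      G.dist o (φ (b, w)).1 = G.dist o (φ (b, w)).2 + 1 := by
    intro b w
    induction w using List.reverseRecOn with
    | nil =>
      intro h
      cases b
      · exact absurd rfl h
      · simp [φ_nil, st, dist1 _ _ hoo]
    | append_singleton w i ih =>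
      intro _
      rw [φ_snoc]
      have hA := hadj _ _ (φ_adj (b, w)) i
      by_cases hx : (b, w) = (false, ([] : List (Fin d)))
      · simp only [Prod.mk.injEq] at hx
        obtain ⟨rfl, rfl⟩ := hx
        simp only [φ_nil, st] at hA ⊢
        simp only [Bool.false_eq_true, if_false] at hA ⊢
        rw [dist1 _ _ hA.1, SimpleGraph.dist_self]
      · have h1 := ih hx
        rcases hG.dist_eq_dist_add_one_of_adj o hA.1 with h | h
        · exact absurd (l10_unique hG hA.1 (φ_adj (b, w)) h h1) hA.2
        · exact h
  -- the vertex map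
  let ψ : TV d → V := fun x => (φ x).1
  have ψ_snoc : ∀ b w i, ψ (b, w ++ [i]) = nb (φ (b, w)).1 (φ (b, w)).2 i := by
    intro b w i
    simp only [ψ, φ_snoc]
  have par_snoc : ∀ b w i, (φ (b, w ++ [i])).2 = ψ (b, w) := by
    intro b w i
    rw [φ_snoc]
  have ψf : ψ (false, []) = o := rfl
  have ψt : ψ (true, []) = o' := rfl
  have distne : ∀ x, x ≠ (false, ([] : List (Fin d))) → ψ x ≠ o := by
    rintro ⟨b, w⟩ hx h
    have h1 := closer b w hx
    change G.dist o (ψ (b, w)) = _ at h1
    rw [h, SimpleGraph.dist_self] at h1
    omega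
  have key : ∀ n : ℕ, ∀ x x' : TV d, x.2.length ≤ n → x'.2.length ≤ n + 1 → ψ x = ψ x' → x = x' := by
    intro n
    induction n with
    | zero =>
      rintro ⟨b, w⟩ ⟨b', w'⟩ hn hn' h
      simp only [Nat.le_zero, List.length_eq_zero_iff] at hn
      subst hn
      cases b
      · by_contra hne
        exact distne (b', w') (fun h => hne h.symm) (h.symm.trans ψf)
      · have hx' : (b', w') ≠ (false, ([] : List (Fin d))) := by
          rintro he
          rw [he, ψf, ψt] at h
          exact hoo.ne h.symm
        have c1 := closer true [] (by simp)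
        have c2 := closer b' w' hx'
        have a2 := φ_adj (b', w')
        change G.dist o (ψ (b', w')) = _ at c2
        change G.Adj (ψ (b', w')) _ at a2
        rw [← h] at c2 a2
        have hpar := l10_unique hG (φ_adj (true, [])) a2 c1 c2
        rcases List.eq_nil_or_concat' w' with rfl | ⟨u, i, rfl⟩
        · cases b'
          · exact absurd rfl hx'
          · rfl
        · exfalso
          rw [par_snoc] at hpar
          have hu : (b', u) = (false, ([] : List (Fin d))) := by
            by_contra hc
            exact distne _ hc hpar.symm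
          simp only [Prod.mk.injEq] at hu
          obtain ⟨rfl, rfl⟩ := hu
          rw [ψ_snoc] at h
          have hA := (hadj _ _ (φ_adj (false, ([] : List (Fin d)))) i).2
          rw [← h] at hA
          exact hA rfl
    | succ n ih =>
      rintro ⟨b, w⟩ ⟨b', w'⟩ hn hn' h
      by_cases hx : (b, w) = (false, ([] : List (Fin d)))
      · by_contra hne
        rw [hx, ψf] at h
        exact distne (b', w') (fun h => hne (hx.trans h.symm)) h.symm
      by_cases hx' : (b', w') = (false, ([] : List (Fin d)))
      · exfalso
        rw [hx', ψf] at h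
        exact distne (b, w) hx h
      have c1 := closer b w hx
      have c2 := closer b' w' hx'
      have a1 := φ_adj (b, w)
      have a2 := φ_adj (b', w')
      change G.dist o (ψ (b, w)) = _ at c1
      change G.Adj (ψ (b, w)) _ at a1
      change G.dist o (ψ (b', w')) = _ at c2
      change G.Adj (ψ (b', w')) _ at a2
      rw [← h] at c2 a2
      have hpar := l10_unique hG a1 a2 c1 c2
      rcases List.eq_nil_or_concat' w with rfl | ⟨u, i, rfl⟩
      · have hb : b = true := by
          cases b
          · exact absurd rfl hx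
          · rfl
        subst hb
        rcases List.eq_nil_or_concat' w' with rfl | ⟨u', i', rfl⟩
        · cases b'
          · exact absurd rfl hx'
          · rfl
        · exfalso
          rw [par_snoc] at hpar
          have hu : (b', u') = (false, ([] : List (Fin d))) := by
            by_contra hc
            exact distne _ hc hpar.symm
          simp only [Prod.mk.injEq] at hu
          obtain ⟨rfl, rfl⟩ := hu
          rw [ψ_snoc] at h
          have hA := (hadj _ _ (φ_adj (false, ([] : List (Fin d)))) i').2
          rw [← h] at hA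
          exact hA rfl
      · rcases List.eq_nil_or_concat' w' with rfl | ⟨u', i', rfl⟩
        · have hb : b' = true := by
            cases b'
            · exact absurd rfl hx'
            · rfl
          subst hb
          exfalso
          rw [par_snoc] at hpar
          have hu : (b, u) = (false, ([] : List (Fin d))) := by
            by_contra hc
            exact distne _ hc hpar
          simp only [Prod.mk.injEq] at hu
          obtain ⟨rfl, rfl⟩ := hu
          rw [ψ_snoc] at h
          have hA := (hadj _ _ (φ_adj (false, ([] : List (Fin d)))) i).2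
          rw [h] at hA
          exact hA rfl
        · rw [par_snoc, par_snoc] at hpar
          simp only [List.length_append, List.length_singleton] at hn hn'
          have he := ih (b, u) (b', u') (by simp; omega) (by simp; omega) hpar
          simp only [Prod.mk.injEq] at he
          obtain ⟨rfl, rfl⟩ := he
          rw [ψ_snoc, ψ_snoc] at h
          rw [hinj _ _ (φ_adj (b, u)) h]
  have ψ_inj : Function.Injective ψ := by
    intro x x' h
    exact key (max x.2.length x'.2.length) x x' (le_max_left _ _) ((le_max_right _ _).trans (Nat.le_succ _)) h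
  -- neighbours
  have nbrs : ∀ x y, G.Adj (ψ x) y → ∃ z, ψ z = y ∧ (tree d).Adj x z := by
    rintro ⟨b, w⟩ y hy
    by_cases hyp : y = (φ (b, w)).2
    · subst hyp
      rcases List.eq_nil_or_concat' w with rfl | ⟨u, i, rfl⟩
      · cases b
        · exact ⟨(true, []), rfl, Or.inr (Or.inr ⟨by simp, rfl, rfl⟩)⟩
        · exact ⟨(false, []), rfl, Or.inr (Or.inr ⟨by simp, rfl, rfl⟩)⟩
      · exact ⟨(b, u), (par_snoc b u i).symm, Or.inr (Or.inl ⟨i, rfl⟩)⟩
    · obtain ⟨i, hi⟩ := hsurj _ _ (φ_adj (b, w)) y hy hyp
      exact ⟨(b, w ++ [i]), by rw [ψ_snoc, hi], Or.inl ⟨i, rfl⟩⟩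
  have ψ_surj : Function.Surjective ψ := by
    intro y
    obtain ⟨q⟩ := hG.connected.preconnected o y
    have : ∀ (a c : V) (q : G.Walk a c), (∃ x, ψ x = a) → ∃ x, ψ x = c := by
      intro a c q
      induction q with
      | nil => exact id
      | cons h q ih =>
        rintro ⟨x, rfl⟩
        obtain ⟨z, hz, _⟩ := nbrs x _ h
        exact ih ⟨z, hz⟩
    exact this o y q ⟨(false, []), rfl⟩
  refine ⟨⟨Equiv.ofBijective ψ ⟨ψ_inj, ψ_surj⟩, ?_⟩⟩
  intro x y
  simp only [Equiv.ofBijective_apply]
  constructor
  · intro h
    obtain ⟨z, hz, hxz⟩ := nbrs x _ h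
    rw [← ψ_inj hz]
    exact hxz
  · have hsn : ∀ b w i, G.Adj (ψ (b, w)) (ψ (b, w ++ [i])) := by
      intro b w i
      rw [ψ_snoc]
      exact (hadj _ _ (φ_adj (b, w)) i).1
    rintro (⟨i, rfl⟩ | ⟨i, rfl⟩ | ⟨h1, h2, h3⟩)
    · exact hsn x.1 x.2 i
    · exact (hsn y.1 y.2 i).symm
    · obtain ⟨b, w⟩ := x
      obtain ⟨b', w'⟩ := y
      simp only at h1 h2 h3
      subst h2 h3
      cases b <;> cases b'
      · exact absurd rfl h1
      · exact hoo
      · exact hoo.symm
      · exact absurd rfl h1

end H50CP
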