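import Pool.Agent.H50.CP.Lit

/-!
# L11: invariance under graph isomorphisms

`e : G ≃g G'`; index maps `V ⊕ V × V ≃ W ⊕ W × W`, `V ⊕ V ≃ W ⊕ W`, `V ≃ W`.  `r ω = ω ∘ (index map of
e.symm) : CS W` for `ω : CS V`.  `(CL V lam).map r = CL W lam`, similarly for `FL`, `muRho`
(reindexing of product measures: `Measure.map_infinitePi_infinitePi_of_inj`,
`infinitePi_map_piCongrLeft` or `eq_infinitePi`).
`Inf G ω η x t ↔ Inf G' (r ω) (η ∘ e.symm) (e x) t` (induction on the derivation), same for `On`.
`IsUpperInv G lam ν ↔ IsUpperInv G' lam (ν.map (· ∘ e.symm))`; measurability of the sets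
`{ω | ∀ x ∈ A, Inf G ω (fun _ => true) x n}` is not needed if `Measure.map_apply` is replaced by
`MeasurableEquiv.map_apply` (`r` is a measurable equivalence).
`Dom.iso`: given `ν'` for `G'`, apply the hypothesis to `ν = ν'.map (· ∘ e)`; compose the four random
variables with the reindexings.
-/

namespace H50CP

open MeasureTheory ProbabilityTheory Set
open scoped NNReal ENNReal

/-- the conclusion: existence of the upper invariant measure and domination of a non-trivial
independent spin-flip process on the whole vertex set -/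
def Dom {V : Type} (G : SimpleGraph V) (lam : ℝ≥0) : Prop :=
  (∃ ν, IsUpperInv G lam ν) ∧
    ∀ ν, IsUpperInv G lam ν →
      ∃ al : ℝ≥0, 0 < al ∧
        ∃ (Ω : Type) (_ : MeasurableSpace Ω) (P : Measure Ω) (_ : IsProbabilityMeasure P)
          (η₀ : Ω → V → Bool) (N₁ : Ω → CS V)
          (ξ₀ : Ω → V → Bool) (N₂ : Ω → FS V),
          Measurable η₀ ∧ Measurable N₁ ∧ Measurable ξ₀ ∧ Measurable N₂ ∧
          P.map (fun ω => (η₀ ω, N₁ ω)) = ν.prod (CL V lam) ∧
          P.map (fun ω => (ξ₀ ω, N₂ ω)) = (muRho V al).prod (FL V al) ∧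
          ∀ᵐ ω ∂P, ∀ (x : V) (t : ℝ), 0 ≤ t →
            On (N₂ ω) (ξ₀ ω) x t → Inf G (N₁ ω) (η₀ ω) x t

/-! ### reindexing -/

/-- restriction of a product measure along an injective reindexing -/
private theorem L11_reindex {ι κ : Type} {X : Type} [MeasurableSpace X] (μ : ι → Measure X)
    [∀ i, IsProbabilityMeasure (μ i)] (j : κ → ι) (hj : Function.Injective j) :
    (Measure.infinitePi μ).map (fun ω k => ω (j k)) = Measure.infinitePi fun k => μ (j k) := by
  classical
  refine Measure.eq_infinitePi _ fun s t ht => ?_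
  rw [Measure.map_apply (by fun_prop) (.pi s.countable_toSet fun _ _ => ht _)]
  have h1 : (fun (ω : ι → X) (k : κ) => ω (j k)) ⁻¹' ((s : Set κ).pi t)
      = ((s.image j : Finset ι) : Set ι).pi (Function.extend j t fun _ => Set.univ) := by
    ext ω
    simp only [Set.mem_preimage, Set.mem_pi, Finset.mem_coe, Finset.mem_image]
    constructor
    · rintro h i ⟨k, hk, rfl⟩
      rw [hj.extend_apply]
      exact h k hk
    · intro h k hk
      have := h (j k) ⟨k, hk, rfl⟩
      rwa [hj.extend_apply] at this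
  rw [h1, Measure.infinitePi_pi]
  · rw [Finset.prod_image (fun a _ b _ h => hj h)]
    refine Finset.prod_congr rfl fun k _ => ?_
    rw [hj.extend_apply]
  · intro i hi
    rw [Finset.mem_image] at hi
    obtain ⟨k, _, rfl⟩ := hi
    rw [hj.extend_apply]
    exact ht k

/-- reindexing of the marks of the contact process -/
def L11C {V W : Type} (f : W → V) : CS V → CS W := fun ω i => ω (Sum.map f (Prod.map f f) i)

/-- reindexing of the marks of the spin flips -/
def L11F {V W : Type} (f : W → V) : FS V → FS W := fun ω i => ω (Sum.map f f i)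

/-- reindexing of configurations -/
def L11S {V W : Type} (f : W → V) : (V → Bool) → (W → Bool) := fun η x => η (f x)

theorem L11C_meas {V W : Type} (f : W → V) : Measurable (L11C f) :=
  measurable_pi_lambda _ fun _ => measurable_pi_apply _

theorem L11F_meas {V W : Type} (f : W → V) : Measurable (L11F f) :=
  measurable_pi_lambda _ fun _ => measurable_pi_apply _

theorem L11S_meas {V W : Type} (f : W → V) : Measurable (L11S f) :=
  measurable_pi_lambda _ fun _ => measurable_pi_apply _

theorem L11C_law {V W : Type} (f : W → V) (hf : Function.Injective f) (lam : ℝ≥0) :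
    (CL V lam).map (L11C f) = CL W lam := by
  unfold CL ppois
  have h := L11_reindex (fun i : V ⊕ (V × V) => pclk (Sum.elim (fun _ => 1) (fun _ => lam) i))
    (Sum.map f (Prod.map f f)) (Sum.map_injective.2 ⟨hf, hf.prodMap hf⟩)
  refine h.trans ?_
  congr 1
  funext i
  cases i <;> rfl

theorem L11F_law {V W : Type} (f : W → V) (hf : Function.Injective f) (al : ℝ≥0) :
    (FL V al).map (L11F f) = FL W al := by
  unfold FL ppois
  have h := L11_reindex (fun i : V ⊕ V => pclk (Sum.elim (fun _ => 1) (fun _ => al) i))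
    (Sum.map f f) (Sum.map_injective.2 ⟨hf, hf⟩)
  refine h.trans ?_
  congr 1
  funext i
  cases i <;> rfl

private theorem L11_prob (al : ℝ≥0) : IsProbabilityMeasure
    (((al / (al + 1) : ℝ≥0) : ℝ≥0∞) • Measure.dirac true
      + ((1 / (al + 1) : ℝ≥0) : ℝ≥0∞) • Measure.dirac false : Measure Bool) := by
  constructor
  simp only [Measure.add_apply, Measure.smul_apply, measure_univ, smul_eq_mul, mul_one]
  rw [← ENNReal.coe_add, ← add_div, div_self (by positivity), ENNReal.coe_one]

theorem L11S_law {V W : Type} (f : W → V) (hf : Function.Injective f) (al : ℝ≥0) :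
    (muRho V al).map (L11S f) = muRho W al := by
  have := L11_prob al
  unfold muRho
  exact L11_reindex (fun _ : V => ((al / (al + 1) : ℝ≥0) : ℝ≥0∞) • Measure.dirac true
      + ((1 / (al + 1) : ℝ≥0) : ℝ≥0∞) • Measure.dirac false) f hf

private theorem L11_muRho_prob (V : Type) (al : ℝ≥0) : IsProbabilityMeasure (muRho V al) := by
  have := L11_prob al
  unfold muRho
  infer_instance

/-- reindexing as a measurable equivalence -/
def L11E {V W : Type} (e : V ≃ W) : CS V ≃ᵐ CS W where
  toFun := L11C e.symm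
  invFun := L11C e
  left_inv ω := by
    funext i
    rcases i with x | ⟨x, y⟩ <;> simp [L11C]
  right_inv ω := by
    funext i
    rcases i with x | ⟨x, y⟩ <;> simp [L11C]
  measurable_toFun := L11C_meas _
  measurable_invFun := L11C_meas _

theorem L11_inf {V W : Type} {G : SimpleGraph V} {G' : SimpleGraph W} (e : G ≃g G') {ω : CS V}
    {η : V → Bool} {x : V} {t : ℝ} (h : Inf G ω η x t) :
    Inf G' (L11C e.symm ω) (L11S e.symm η) (e x) t := by
  have hinl : ∀ x : V, L11C e.symm ω (Sum.inl (e x)) = ω (Sum.inl x) := fun x => by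
    simp [L11C]
  have hinr : ∀ x y : V, L11C e.symm ω (Sum.inr (e x, e y)) = ω (Sum.inr (x, y)) := fun x y => by
    simp [L11C]
  induction h with
  | start x t ht hx h =>
    refine Inf.start (e x) t ht ?_ ?_
    · simpa [L11S] using hx
    · rw [hinl]; exact h
  | arrow x y u t hyx hut hu hy h ih =>
    refine Inf.arrow (e x) (e y) u t (e.map_adj_iff.2 hyx) hut ?_ ih ?_
    · rw [hinr]; exact hu
    · rw [hinl]; exact h

theorem L11_inf_iff {V W : Type} {G : SimpleGraph V} {G' : SimpleGraph W} (e : G ≃g G')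
    {ω : CS V} {η : V → Bool} {x : V} {t : ℝ} :
    Inf G' (L11C e.symm ω) (L11S e.symm η) (e x) t ↔ Inf G ω η x t := by
  refine ⟨fun h => ?_, L11_inf e⟩
  have h1 := L11_inf e.symm h
  have e1 : L11C e.symm.symm (L11C e.symm ω) = ω := by
    funext i
    rcases i with x | ⟨x, y⟩ <;> simp [L11C]
  have e2 : L11S e.symm.symm (L11S e.symm η) = η := by
    funext i
    simp [L11S]
  have e3 : e.symm (e x) = x := by simp
  rw [e1, e2, e3] at h1
  exact h1

theorem L11_upper {V W : Type} {G : SimpleGraph V} {G' : SimpleGraph W} (e : G ≃g G')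
    {lam : ℝ≥0} {ν : Measure (V → Bool)} (h : IsUpperInv G lam ν) :
    IsUpperInv G' lam (ν.map (L11S e.symm)) := by
  have hν := h.1
  refine ⟨Measure.isProbabilityMeasure_map (L11S_meas _).aemeasurable, fun A => ?_⟩
  have h1 := h.2 (A.map e.symm.toEquiv.toEmbedding)
  have h2 : (ν.map (L11S e.symm)) {η | ∀ x ∈ A, η x = true} =
      ν {η | ∀ x ∈ A.map e.symm.toEquiv.toEmbedding, η x = true} := by
    have hm : MeasurableSet {η : W → Bool | ∀ x ∈ A, η x = true} := by
      have : {η : W → Bool | ∀ x ∈ A, η x = true} = ⋂ x ∈ A, (fun η : W → Bool => η x) ⁻¹' {true} := by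
        ext η; simp
      rw [this]
      exact Finset.measurableSet_biInter _ fun x _ =>
        measurable_pi_apply x (MeasurableSet.singleton _)
    rw [Measure.map_apply (L11S_meas _) hm]
    congr 1
    ext η
    simp only [Set.mem_preimage, Set.mem_ofPred_eq, Finset.mem_map, forall_exists_index, and_imp,
      forall_apply_eq_imp_iff₂]
    rfl
  have h3 : ∀ n : ℕ, CL W lam {ω | ∀ x ∈ A, Inf G' ω (fun _ => true) x n} =
      CL V lam {ω | ∀ x ∈ A.map e.symm.toEquiv.toEmbedding, Inf G ω (fun _ => true) x n} := by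
    intro n
    rw [← L11C_law (e.symm : W → V) e.symm.injective lam]
    have h4 : (L11C (e.symm : W → V) : CS V → CS W) = L11E e.toEquiv := rfl
    rw [h4, MeasurableEquiv.map_apply]
    congr 1
    ext ω
    simp only [Set.mem_preimage, Set.mem_ofPred_eq, Finset.mem_map, forall_exists_index, and_imp,
      forall_apply_eq_imp_iff₂]
    refine forall₂_congr fun x _ => ?_
    have h5 := L11_inf_iff e (ω := ω) (η := fun _ => true) (x := e.symm x) (t := n)
    rw [RelIso.apply_symm_apply] at h5
    exact h5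
  rw [h2]
  exact h1.congr fun n => (h3 n).symm

theorem Dom.iso {V W : Type} {G : SimpleGraph V} {G' : SimpleGraph W} (e : G ≃g G')
    {lam : ℝ≥0} (h : Dom G lam) : Dom G' lam := by
  obtain ⟨⟨ν₀, hν₀⟩, h2⟩ := h
  refine ⟨⟨_, L11_upper e hν₀⟩, fun ν' hν' => ?_⟩
  have hν := L11_upper e.symm hν'
  set ν := ν'.map (L11S e.symm.symm) with hνdef
  have hνp := hν.1
  have hνp' := hν'.1
  have hback : ν.map (L11S e.symm) = ν' := by
    rw [hνdef, Measure.map_map (L11S_meas _) (L11S_meas _)]
    have : L11S e.symm ∘ L11S e.symm.symm = (id : (W → Bool) → (W → Bool)) := by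
      funext η x
      simp [L11S]
    rw [this, Measure.map_id]
  obtain ⟨al, hal, Ω, mΩ, P, hP, η₀, N₁, ξ₀, N₂, m1, m2, m3, m4, hl1, hl2, hae⟩ := h2 ν hν
  refine ⟨al, hal, Ω, mΩ, P, hP, fun ω => L11S e.symm (η₀ ω), fun ω => L11C e.symm (N₁ ω),
    fun ω => L11S e.symm (ξ₀ ω), fun ω => L11F e.symm (N₂ ω), (L11S_meas _).comp m1,
    (L11C_meas _).comp m2, (L11S_meas _).comp m3, (L11F_meas _).comp m4, ?_, ?_, ?_⟩
  · have h3 : (fun ω => (L11S e.symm (η₀ ω), L11C e.symm (N₁ ω))) =
        Prod.map (L11S e.symm) (L11C e.symm) ∘ fun ω => (η₀ ω, N₁ ω) := rfl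
    rw [h3, ← Measure.map_map ((L11S_meas _).prodMap (L11C_meas _)) (m1.prodMk m2), hl1,
      ← Measure.map_prod_map _ _ (L11S_meas _) (L11C_meas _), hback,
      L11C_law (e.symm : W → V) e.symm.injective lam]
  · have := L11_muRho_prob V al
    have h3 : (fun ω => (L11S e.symm (ξ₀ ω), L11F e.symm (N₂ ω))) =
        Prod.map (L11S e.symm) (L11F e.symm) ∘ fun ω => (ξ₀ ω, N₂ ω) := rfl
    rw [h3, ← Measure.map_map ((L11S_meas _).prodMap (L11F_meas _)) (m3.prodMk m4), hl2,
      ← Measure.map_prod_map _ _ (L11S_meas _) (L11F_meas _),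
      L11S_law (e.symm : W → V) e.symm.injective al, L11F_law (e.symm : W → V) e.symm.injective al]
  · filter_upwards [hae] with ω hω x t ht hon
    have h3 := L11_inf e (hω (e.symm x) t ht hon)
    rwa [RelIso.apply_symm_apply] at h3

end H50CP
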