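import Pool.Agent.H50.CP.Stmt

/-!
# Lit: definitions for the literal form of the statement

Everything on the time interval `[0, ∞)`: Poisson clocks on `(0, ∞)`, contact process and spin flips
started from a given configuration, the upper invariant measure, the critical value.
-/

namespace H50CP

open MeasureTheory ProbabilityTheory Set
open scoped NNReal ENNReal

/-- Sample space of one Poisson clock on `(0, ∞)`: for every natural number `n` a number of points
and a sequence of positions for the points in the unit interval `(n, n+1]`. -/
abbrev PClk : Type := ℕ → ℕ × (ℕ → ℝ)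

/-- The set of points of the clock `c`: the points `n + u_j`, `j < (number of points)`. -/
def pmarks (c : PClk) : Set ℝ :=
  {t | ∃ n j : ℕ, j < (c n).1 ∧ 0 < (c n).2 j ∧ (c n).2 j ≤ 1 ∧ t = n + (c n).2 j}

/-- Law of a Poisson clock of rate `r` on `(0, ∞)`: independently for every natural number `n`, the
interval `(n, n+1]` contains a Poisson(`r`) number of independent uniformly distributed points. -/
noncomputable def pclk (r : ℝ≥0) : Measure PClk :=
  Measure.infinitePi fun _ : ℕ =>
    (poissonMeasure r).prod (Measure.infinitePi fun _ : ℕ => unif)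

instance (r : ℝ≥0) : IsProbabilityMeasure (pclk r) := by unfold pclk; infer_instance

/-- Law of a family of independent Poisson clocks with rates `r i`. -/
noncomputable def ppois {ι : Type} (r : ι → ℝ≥0) : Measure (ι → PClk) :=
  Measure.infinitePi fun i => pclk (r i)

instance {ι : Type} (r : ι → ℝ≥0) : IsProbabilityMeasure (ppois r) := by
  unfold ppois; infer_instance

/-! ### The contact process -/

/-- Sample space of the graphical construction: recovery marks at every site (`Sum.inl x`), infection
arrows for every ordered pair of sites (`Sum.inr (x, y)`: arrows from `x` to `y`). -/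
abbrev CS (V : Type) : Type := (V ⊕ (V × V)) → PClk

/-- Law of the graphical construction: recovery marks at rate 1, arrows at rate `lam`. -/
noncomputable def CL (V : Type) (lam : ℝ≥0) : Measure (CS V) :=
  ppois (Sum.elim (fun _ => 1) (fun _ => lam))

instance (V : Type) (lam : ℝ≥0) : IsProbabilityMeasure (CL V lam) := by
  unfold CL; infer_instance

/-- `Inf G ω η x t`: the site `x` is infected (`= 1`) at time `t ≥ 0` in the contact process on the
graph `G` started at time 0 from the configuration `η`: either `x` is infected at time 0 and there is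
no recovery mark at `x` in `(0,t]`, or there is an arrow at a time `u ∈ (0,t]` from a neighbour `y`
infected at time `u` to `x`, and no recovery mark at `x` in `(u,t]`. -/
inductive Inf {V : Type} (G : SimpleGraph V) (ω : CS V) (η : V → Bool) : V → ℝ → Prop
  | start (x : V) (t : ℝ) (ht : 0 ≤ t) (hx : η x = true)
      (h : ∀ v ∈ pmarks (ω (Sum.inl x)), ¬ (v ≤ t)) : Inf G ω η x t
  | arrow (x y : V) (u t : ℝ) (hyx : G.Adj y x) (hut : u ≤ t)
      (hu : u ∈ pmarks (ω (Sum.inr (y, x)))) (hy : Inf G ω η y u)
      (h : ∀ v ∈ pmarks (ω (Sum.inl x)), ¬ (u < v ∧ v ≤ t)) : Inf G ω η x t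

/-- `ν` is the upper invariant measure of the contact process on `G` with infection rate `lam`: the
limit, as time `n → ∞`, of the law of the contact process started from the all-ones configuration
(convergence of the probabilities that all sites of a finite set are infected, which is equivalent to
convergence of all finite dimensional distributions). -/
def IsUpperInv {V : Type} (G : SimpleGraph V) (lam : ℝ≥0) (ν : Measure (V → Bool)) : Prop :=
  IsProbabilityMeasure ν ∧ ∀ A : Finset V,
    Filter.Tendsto (fun n : ℕ => CL V lam {ω | ∀ x ∈ A, Inf G ω (fun _ => true) x n})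
      Filter.atTop (nhds (ν {η | ∀ x ∈ A, η x = true}))

/-- The critical value `λ_c(ℤ)`: the infimum of the infection rates for which the upper invariant
measure of the contact process on `ℤ` is not the point mass at the all-zero configuration. -/
noncomputable def lamC : ℝ≥0∞ :=
  sInf {l : ℝ≥0∞ | ∃ lam : ℝ≥0, l = lam ∧ ∃ ν : Measure (ℤ → Bool), IsUpperInv zgraph lam ν ∧
    ν ≠ Measure.dirac (fun _ => false)}

/-! ### The independent spin-flip process -/

/-- Sample space for the spin flips: down marks (`Sum.inl x`) and up marks (`Sum.inr x`). -/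
abbrev FS (V : Type) : Type := (V ⊕ V) → PClk

/-- Law of the marks: down marks at rate 1, up marks at rate `α`. -/
noncomputable def FL (V : Type) (α : ℝ≥0) : Measure (FS V) :=
  ppois (Sum.elim (fun _ => 1) (fun _ => α))

instance (V : Type) (α : ℝ≥0) : IsProbabilityMeasure (FL V α) := by
  unfold FL; infer_instance

/-- `On ω ξ x t`: the spin of `x` at time `t ≥ 0` is 1 in the spin-flip process started at time 0
from the configuration `ξ`: either `ξ x = 1` and there is no down mark of `x` in `(0,t]`, or there
is an up mark of `x` at a time `u ∈ (0,t]` and no down mark in `(u,t]`. -/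
def On {V : Type} (ω : FS V) (ξ : V → Bool) (x : V) (t : ℝ) : Prop :=
  (ξ x = true ∧ ∀ v ∈ pmarks (ω (Sum.inl x)), ¬ (v ≤ t)) ∨
    ∃ u ∈ pmarks (ω (Sum.inr x)), u ≤ t ∧ ∀ v ∈ pmarks (ω (Sum.inl x)), ¬ (u < v ∧ v ≤ t)

/-- The Bernoulli product measure `μ_ρ` on `{0,1}^V` with density `ρ = α/(α+1)`. -/
noncomputable def muRho (V : Type) (α : ℝ≥0) : Measure (V → Bool) :=
  Measure.infinitePi fun _ : V =>
    ((α / (α + 1) : ℝ≥0) : ℝ≥0∞) • Measure.dirac true
      + ((1 / (α + 1) : ℝ≥0) : ℝ≥0∞) • Measure.dirac false

end H50CP
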