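import Pool.Agent.H50.CP.F2
import Pool.Agent.H50.CP.G3
import Pool.Agent.H50.CP.D3
import Pool.Agent.H50.CP.E4

/-! # Main: the coupling on the whole tree -/

namespace H50CP

open MeasureTheory ProbabilityTheory Set
open scoped NNReal ENNReal Classical

/-- extension from rational to real times -/
theorem real_times {d : ℕ} (ω₁ : CΩ (TV d)) (ω₂ : FΩ (TV d))
    (h : ∀ (x : TV d) (t : ℚ), FlipOn ω₂ x t → Upper (tree d) ω₁ x t) (x : TV d) (t : ℝ)
    (ht : FlipOn ω₂ x t) : Upper (tree d) ω₁ x t := by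
  obtain ⟨δ₁, h1, h1'⟩ := upper_right (tree d) x (tree_nbhd_finite d x) ω₁ t
  obtain ⟨δ₂, h2, h2'⟩ := flip_right ω₂ x t
  obtain ⟨s, hs1, hs2⟩ := exists_rat_btwn (show t < t + min δ₁ δ₂ by
    have := lt_min h1 h2; linarith)
  have hsa : (s : ℝ) < t + δ₁ := lt_of_lt_of_le hs2 (by have := min_le_left δ₁ δ₂; linarith)
  have hsb : (s : ℝ) < t + δ₂ := lt_of_lt_of_le hs2 (by have := min_le_right δ₁ δ₂; linarith)
  exact (h1' s hs1 hsa).1 (h x s ((h2' s hs1 hsb).2 ht))

theorem measurable_dec {α : Type} [MeasurableSpace α] {p : α → Prop}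
    (h : MeasurableSet {x | p x}) : Measurable (fun x => decide (p x)) := by
  refine measurable_to_bool ?_
  convert h using 1
  ext x; simp

instance (d : ℕ) : StandardBorelSpace (CΩ (TV d)) := by
  have : StandardBorelSpace Clk := by unfold Clk; infer_instance
  exact StandardBorelSpace.pi_countable

instance (d : ℕ) : StandardBorelSpace (FΩ (TV d)) := by
  have : StandardBorelSpace Clk := by unfold Clk; infer_instance
  exact StandardBorelSpace.pi_countable

/-- domination of a spin-flip process by the upper stationary contact process on the whole tree,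
`lam (d-1) > 1` -/
theorem main_coupling (d : ℕ) (hd : 2 ≤ d) (lam : ℝ≥0) (hl : 1 < (lam : ℝ) * ((d : ℝ) - 1)) :
    ∃ al : ℝ≥0, 0 < al ∧ ∃ π : Measure (CΩ (TV d) × FΩ (TV d)), IsProbabilityMeasure π ∧
      π.map Prod.fst = contactLaw (TV d) lam ∧ π.map Prod.snd = flipLaw (TV d) al ∧
      ∀ᵐ ω ∂π, ∀ (x : TV d) (t : ℝ), FlipOn ω.2 x t → Upper (tree d) ω.1 x t := by
  obtain ⟨A, hA, h⟩ := fdd_dom d hd lam hl
  refine ⟨A, hA, ?_⟩
  let X : CΩ (TV d) → (TV d × ℚ) → Bool := fun ω s => decide (Upper (tree d) ω s.1 s.2)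
  let Y : FΩ (TV d) → (TV d × ℚ) → Bool := fun ω s => decide (FlipOn ω s.1 s.2)
  have hX : Measurable X := measurable_pi_lambda _ fun s =>
    measurable_dec (measurableSet_upper (tree d) s.2 s.1)
  have hY : Measurable Y := measurable_pi_lambda _ fun s =>
    measurable_dec (measurableSet_flip (s.2 : ℝ) s.1)
  have : IsProbabilityMeasure (contactLaw (TV d) lam) := by unfold contactLaw; infer_instance
  have : IsProbabilityMeasure (flipLaw (TV d) A) := by unfold flipLaw; infer_instance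
  obtain ⟨π, hπ, h1, h2, h3⟩ := exists_coupling (contactLaw (TV d) lam) (flipLaw (TV d) A) X Y
    hX hY (fun B f hf => h B (fun i => i.1.1) (fun i => i.1.2) f hf)
  refine ⟨π, hπ, h1, h2, ?_⟩
  filter_upwards [h3] with ω hω x t ht
  refine real_times ω.1 ω.2 (fun x t ht => ?_) x t ht
  have := hω (x, t) (by simpa [Y] using ht)
  simpa [X] using this

/-- **Q1**: for all `d ≥ 2` and `lam > λ_c(ℤ)`. -/
theorem main_result (d : ℕ) (hd : 2 ≤ d) (lam : ℝ≥0) (hl : lambdaC < lam) :
    ∃ al : ℝ≥0, 0 < al ∧ ∃ π : Measure (CΩ (TV d) × FΩ (TV d)), IsProbabilityMeasure π ∧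
      π.map Prod.fst = contactLaw (TV d) lam ∧ π.map Prod.snd = flipLaw (TV d) al ∧
      ∀ᵐ ω ∂π, ∀ (x : TV d) (t : ℝ), FlipOn ω.2 x t → Upper (tree d) ω.1 x t := by
  apply main_coupling d hd lam
  have h1 : (1 : ℝ≥0∞) < lam := lt_of_le_of_lt one_le_lambdaC hl
  have h2 : (1 : ℝ) < lam := by exact_mod_cast h1
  have h3 : (2 : ℝ) ≤ d := by exact_mod_cast hd
  nlinarith

end H50CP
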