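import Pool.Agent.H50.CP.SCone

/-!
# SA1: conservation of mass, positivity, the initial functional, cone sums

Everything is elementary.  `dW L g = (g+1)/binom(L+3,3)` and
`Σ_{m+g+s=l} (g+1) = binom(l+3,3)`, `Σ_{g+s=l} (g+2) = (l+1)(l+4)/2`, so
`winS l 1 + winU l 1 + winD l 1 = [binom(l+3,3) + 1 + (l+1)(l+4)/2] / binom(l+4,3) = 1`.
-/

namespace H50CP

open Finset

theorem dW_nonneg (L g : ℕ) : 0 ≤ dW L g := by
  unfold dW; positivity

private theorem SA1_choose (n : ℕ) :
    ((n + 3).choose 3 : ℝ) = ((n : ℝ) + 1) * (n + 2) * (n + 3) / 6 := by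
  induction n with
  | zero => norm_num
  | succ n ih =>
    have h : (n + 1 + 3).choose 3 = (n + 3).choose 2 + (n + 3).choose 3 := by
      rw [show n + 1 + 3 = (n + 3) + 1 from rfl, Nat.choose_succ_succ']
    rw [h, Nat.cast_add, ih, Nat.cast_choose_two]
    push_cast
    ring

private theorem SA1_sum1 (c : ℝ) (l : ℕ) :
    ∑ t ∈ antidiagonal l, ((t.1 : ℝ) + c) = ((l : ℝ) + 1) * (l + 2 * c) / 2 := by
  rw [Finset.Nat.sum_antidiagonal_eq_sum_range_succ (fun i _ => ((i : ℝ) + c)) l]
  induction l with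
  | zero => norm_num
  | succ l ih =>
    rw [Finset.sum_range_succ, ih]
    push_cast
    ring

private theorem SA1_sum2 (l : ℕ) :
    ∑ p ∈ antidiagonal l, ∑ t ∈ antidiagonal p.2, ((t.1 : ℝ) + 1) =
      ((l : ℝ) + 1) * (l + 2) * (l + 3) / 6 := by
  have h1 : ∑ p ∈ antidiagonal l, ∑ t ∈ antidiagonal p.2, ((t.1 : ℝ) + 1) =
      ∑ p ∈ antidiagonal l, ((p.1 : ℝ) + 1) * (p.1 + 2) / 2 := by
    rw [← Finset.Nat.sum_antidiagonal_swap]
    refine Finset.sum_congr rfl fun p _ => ?_
    simp only [Prod.snd_swap]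
    rw [SA1_sum1]
    ring
  rw [h1, Finset.Nat.sum_antidiagonal_eq_sum_range_succ
    (fun i _ => ((i : ℝ) + 1) * (i + 2) / 2) l]
  induction l with
  | zero => norm_num
  | succ l ih =>
    rw [Finset.sum_range_succ, ih (by
      rw [← Finset.Nat.sum_antidiagonal_swap]
      refine Finset.sum_congr rfl fun p _ => ?_
      simp only [Prod.snd_swap]
      rw [SA1_sum1]
      ring)]
    push_cast
    ring

theorem win_total (l : ℕ) : winS l (fun _ => 1) + winU l (fun _ => 1) + winD l (fun _ => 1) = 1 := by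
  have hS : winS l (fun _ => 1) =
      (((l : ℝ) + 1) * (l + 2) * (l + 3) / 6) / ((l + 1 + 3).choose 3 : ℝ) := by
    unfold winS dW
    rw [← SA1_sum2, Finset.sum_div]
    refine Finset.sum_congr rfl fun p _ => ?_
    rw [Finset.sum_div]
    refine Finset.sum_congr rfl fun t _ => ?_
    rw [mul_one]
  have hD : winD l (fun _ => 1) =
      (((l : ℝ) + 1) * (l + 4) / 2) / ((l + 1 + 3).choose 3 : ℝ) := by
    unfold winD dW
    have h4 : ((l : ℝ) + 1) * (l + 4) / 2 = ((l : ℝ) + 1) * (l + 2 * 2) / 2 := by ring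
    rw [h4, ← SA1_sum1 2 l, Finset.sum_div]
    refine Finset.sum_congr rfl fun p _ => ?_
    rw [mul_one]
    push_cast
    ring
  have hU : winU l (fun _ => 1) = 1 / ((l + 1 + 3).choose 3 : ℝ) := by
    unfold winU dW
    push_cast
    ring
  rw [hS, hD, hU]
  have hc := SA1_choose (l + 1)
  have hpos : (0 : ℝ) < ((l + 1 + 3).choose 3 : ℝ) := by
    exact_mod_cast Nat.choose_pos (by omega)
  rw [← add_div, ← add_div, div_eq_one_iff_eq hpos.ne', hc]
  push_cast
  ring

/-- the operator preserves the constant function 1 (all states) -/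
theorem op_one (P : Par) (s : St) : op P (fun _ => 1) s = 1 := by
  unfold op
  rcases s with _ | _ | _ | _ | r | r | ⟨m, g, s⟩ | ⟨g, s⟩ | s
  · simp only [Ps, Pu, Pd]
    have h : ∑ l ∈ range (P.n + 1), winS l (fun _ => 1) + ∑ l ∈ range (P.n + 1), winU l (fun _ => 1)
        + ∑ l ∈ range (P.n + 1), winD l (fun _ => 1) = (P.n : ℝ) + 1 := by
      rw [← Finset.sum_add_distrib, ← Finset.sum_add_distrib,
        Finset.sum_congr rfl fun l _ => win_total l]
      simp
    linear_combination P.q * P.tau * h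
  · simp only [Ps, Pu, Pd]
    linear_combination P.al * win_total P.n
  · simp only [Ps, Pu, Pd]; ring
  · simp only [Ps, Pu, Pd]; ring
  · cases r <;> simp only [Ps, Pu, Pd] <;> ring
  · cases r <;> simp only [Ps, Pu, Pd] <;> ring
  · cases m <;> cases g <;> simp only [Ps, Pu, Pd] <;> ring
  · cases g <;> simp only [Ps, Pu, Pd] <;> ring
  · cases s <;> simp only [Ps, Pu, Pd] <;> ring

private theorem SA1_winS_nonneg {n l : ℕ} (hl : l ≤ n) (φ : St → ℝ)
    (h : ∀ s, Alw n s → s.z = true → 0 ≤ φ s) : 0 ≤ winS l φ := by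
  unfold winS
  refine Finset.sum_nonneg fun p hp => Finset.sum_nonneg fun t ht =>
    mul_nonneg (dW_nonneg _ _) (h _ ?_ rfl)
  rw [HasAntidiagonal.mem_antidiagonal] at hp ht
  change p.1 + t.1 + t.2 ≤ n
  omega

private theorem SA1_winU_nonneg {n l : ℕ} (hl : l ≤ n) (φ : St → ℝ)
    (h : ∀ s, Alw n s → s.z = true → 0 ≤ φ s) : 0 ≤ winU l φ := by
  unfold winU
  exact mul_nonneg (dW_nonneg _ _) (h _ hl rfl)

private theorem SA1_winD_nonneg {n l : ℕ} (hl : l ≤ n) (φ : St → ℝ)
    (h : ∀ s, Alw n s → s.z = false → 0 ≤ φ s) : 0 ≤ winD l φ := by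
  unfold winD
  refine Finset.sum_nonneg fun p hp => mul_nonneg (dW_nonneg _ _) (h _ ?_ rfl)
  rw [HasAntidiagonal.mem_antidiagonal] at hp
  change p.1 + p.2 ≤ n
  omega

private theorem SA1_nx_nonneg {n s : ℕ} (hs : s ≤ n) (φ : St → ℝ)
    (h : ∀ s, Alw n s → s.z = true → 0 ≤ φ s) : 0 ≤ φ (nx s) := by
  cases s with
  | zero => exact h _ trivial rfl
  | succ s => exact h (.S s) (Nat.le_of_succ_le hs) rfl

theorem Ps_nonneg {P : Par} {C : Cst} (hG : Good P C) (φ : St → ℝ)
    (h : ∀ s, Alw P.n s → s.z = true → 0 ≤ φ s) :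
    ∀ s, Alw P.n s → 0 ≤ Ps P φ s := by
  intro s hs
  have hq0 := hG.q0
  have h1 := hG.qc1
  have h2 := hG.c12
  have h3 := hG.c2lt
  have hq : 0 ≤ 1 - P.q := by linarith
  have hc1 : 0 ≤ 1 - P.c1 := by linarith
  have hc2 : 0 ≤ 1 - P.c2 := by linarith
  have hal : 0 ≤ 1 - P.al := by linarith [hG.al1]
  have hal0 := hG.al0
  have ht : 0 ≤ 1 - P.tau * (P.n + 1) := by linarith [hG.tau1]
  have hI : 0 ≤ φ .I := h .I trivial rfl
  have hM : 0 ≤ φ .M := h .M trivial rfl
  have hF : 0 ≤ φ .F := h .F trivial rfl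
  rcases s with _ | _ | _ | _ | r | r | ⟨m, g, s⟩ | ⟨g, s⟩ | s
  · simp only [Ps]
    have hw : 0 ≤ ∑ l ∈ range (P.n + 1), winS l φ :=
      Finset.sum_nonneg fun l hl =>
        SA1_winS_nonneg (Nat.lt_succ_iff.mp (Finset.mem_range.mp hl)) φ h
    have hτ := hG.tau0
    positivity
  · simp only [Ps]
    have hw := SA1_winS_nonneg le_rfl φ h
    positivity
  · simp only [Ps]
    have hw : 0 ≤ φ (.cF P.n) := h (.cF P.n) (le_refl P.n) rfl
    positivity
  · simp only [Ps]; exact le_rfl
  · cases r with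
    | zero => simp only [Ps]; positivity
    | succ r =>
      simp only [Ps]
      have hw : 0 ≤ φ (.cF r) := h (.cF r) (Nat.le_of_succ_le hs) rfl
      positivity
  · simp only [Ps]; exact le_rfl
  · cases m with
    | zero => simp only [Ps]; exact le_rfl
    | succ m =>
      simp only [Ps]
      refine h (.V m g s) ?_ rfl
      change m + 1 + g + s ≤ P.n at hs
      change m + g + s ≤ P.n
      omega
  · simp only [Ps]; exact le_rfl
  · cases s with
    | zero => simp only [Ps]; exact hI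
    | succ s => simp only [Ps]; exact h (.S s) (Nat.le_of_succ_le hs) rfl

theorem Pu_nonneg {P : Par} {C : Cst} (hG : Good P C) (φ : St → ℝ)
    (h : ∀ s, Alw P.n s → s.z = true → 0 ≤ φ s) :
    ∀ s, Alw P.n s → 0 ≤ Pu P φ s := by
  intro s hs
  have hq0 := hG.q0
  have h1 := hG.qc1
  have h2 := hG.c12
  have h3 := hG.c2lt
  have hc1 : 0 ≤ P.c1 := by linarith
  have hc2 : 0 ≤ P.c2 := by linarith
  have hb := hG.b0
  have hal : 0 ≤ 1 - P.al := by linarith [hG.al1]
  have hal0 := hG.al0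
  have hI : 0 ≤ φ .I := h .I trivial rfl
  have hM : 0 ≤ φ .M := h .M trivial rfl
  have hF : 0 ≤ φ .F := h .F trivial rfl
  have hcF : 0 ≤ φ (.cF P.n) := h (.cF P.n) (le_refl P.n) rfl
  rcases s with _ | _ | _ | _ | r | r | ⟨m, g, s⟩ | ⟨g, s⟩ | s
  · simp only [Pu]
    have hw : 0 ≤ ∑ l ∈ range (P.n + 1), winU l φ :=
      Finset.sum_nonneg fun l hl =>
        SA1_winU_nonneg (Nat.lt_succ_iff.mp (Finset.mem_range.mp hl)) φ h
    have hτ := hG.tau0
    positivity
  · simp only [Pu]
    have hw := SA1_winU_nonneg le_rfl φ h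
    positivity
  · simp only [Pu]
    positivity
  · simp only [Pu]; positivity
  · cases r with
    | zero => simp only [Pu]; positivity
    | succ r =>
      simp only [Pu]
      have hw : 0 ≤ φ (.cF r) := h (.cF r) (Nat.le_of_succ_le hs) rfl
      positivity
  · cases r with
    | zero => simp only [Pu]; positivity
    | succ r =>
      simp only [Pu]
      have hw : 0 ≤ φ (.cF r) := h (.cF r) (Nat.le_of_succ_le hs) rfl
      positivity
  · cases m with
    | zero =>
      cases g with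
      | zero =>
        simp only [Pu]
        refine SA1_nx_nonneg ?_ φ h
        change 0 + 0 + s ≤ P.n at hs
        omega
      | succ g => simp only [Pu]; exact le_rfl
    | succ m => simp only [Pu]; exact le_rfl
  · cases g with
    | zero =>
      simp only [Pu]
      refine SA1_nx_nonneg ?_ φ h
      change 0 + s ≤ P.n at hs
      omega
    | succ g => simp only [Pu]; exact le_rfl
  · simp only [Pu]; exact le_rfl

theorem Pd_nonneg {P : Par} {C : Cst} (hG : Good P C) (φ : St → ℝ)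
    (h : ∀ s, Alw P.n s → s.z = false → 0 ≤ φ s) :
    ∀ s, Alw P.n s → 0 ≤ Pd P φ s := by
  intro s hs
  have hq0 := hG.q0
  have h1 := hG.qc1
  have h2 := hG.c12
  have h3 := hG.c2lt
  have hc1 : 0 ≤ P.c1 := by linarith
  have hc2 : 0 ≤ P.c2 := by linarith
  have hb : 0 ≤ 1 - P.b := by linarith [hG.b1]
  have hal : 0 ≤ 1 - P.al := by linarith [hG.al1]
  have hal0 := hG.al0
  have hO : 0 ≤ φ .O := h .O trivial rfl
  have hcO : 0 ≤ φ (.cO P.n) := h (.cO P.n) (le_refl P.n) rfl
  rcases s with _ | _ | _ | _ | r | r | ⟨m, g, s⟩ | ⟨g, s⟩ | s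
  · simp only [Pd]
    have hw : 0 ≤ ∑ l ∈ range (P.n + 1), winD l φ :=
      Finset.sum_nonneg fun l hl =>
        SA1_winD_nonneg (Nat.lt_succ_iff.mp (Finset.mem_range.mp hl)) φ h
    have hτ := hG.tau0
    positivity
  · simp only [Pd]
    have hw := SA1_winD_nonneg le_rfl φ h
    positivity
  · simp only [Pd]
    positivity
  · simp only [Pd]; positivity
  · cases r with
    | zero => simp only [Pd]; exact le_rfl
    | succ r =>
      simp only [Pd]
      have hw : 0 ≤ φ (.cO r) := h (.cO r) (Nat.le_of_succ_le hs) rfl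
      positivity
  · cases r with
    | zero => simp only [Pd]; exact le_rfl
    | succ r =>
      simp only [Pd]
      have hw : 0 ≤ φ (.cO r) := h (.cO r) (Nat.le_of_succ_le hs) rfl
      positivity
  · cases m with
    | zero =>
      cases g with
      | zero => simp only [Pd]; exact le_rfl
      | succ g =>
        simp only [Pd]
        refine h (.W g s) ?_ rfl
        change 0 + (g + 1) + s ≤ P.n at hs
        change g + s ≤ P.n
        omega
    | succ m => simp only [Pd]; exact le_rfl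
  · cases g with
    | zero => simp only [Pd]; exact le_rfl
    | succ g =>
      simp only [Pd]
      refine h (.W g s) ?_ rfl
      change g + 1 + s ≤ P.n at hs
      change g + s ≤ P.n
      omega
  · simp only [Pd]; exact le_rfl

theorem ConeA.add {P : Par} {C : Cst} {L L' : (St → ℝ) →ₗ[ℝ] ℝ} (h : ConeA P C L)
    (h' : ConeA P C L') : ConeA P C (L + L') where
  pos φ hφ := by
    rw [LinearMap.add_apply]
    exact add_nonneg (h.pos φ hφ) (h'.pos φ hφ)
  j1 r hr := by
    simp only [LinearMap.add_apply]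
    linarith [h.j1 r hr, h'.j1 r hr]
  j2 := by
    simp only [LinearMap.add_apply]
    linarith [h.j2, h'.j2]
  j3 m g := by
    simp only [LinearMap.add_apply]
    linarith [h.j3 m g, h'.j3 m g]
  j4 φ h0 h1 := by
    simp only [LinearMap.add_apply]
    linarith [h.j4 φ h0 h1, h'.j4 φ h0 h1]
  j5 := by
    simp only [LinearMap.add_apply]
    linarith [h.j5, h'.j5]

/-- the initial functional `φ ↦ φ F + Σ_{r ≤ n} θ_r φ (cF r)` -/
noncomputable def L0 (P : Par) : (St → ℝ) →ₗ[ℝ] ℝ where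
  toFun φ := φ .F + ∑ r ∈ range (P.n + 1), th P r * φ (.cF r)
  map_add' φ ψ := by
    simp only [Pi.add_apply, mul_add, Finset.sum_add_distrib]; ring
  map_smul' c φ := by
    simp only [Pi.smul_apply, smul_eq_mul, RingHom.id_apply, mul_add, Finset.mul_sum]
    congr 1
    exact Finset.sum_congr rfl fun r _ => by ring

private theorem SA1_L0_apply (P : Par) (φ : St → ℝ) :
    L0 P φ = φ .F + ∑ r ∈ range (P.n + 1), th P r * φ (.cF r) := rfl

private theorem SA1_L0_zero (P : Par) (φ : St → ℝ) (h : φ .F = 0) (h' : ∀ r, φ (.cF r) = 0) :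
    L0 P φ = 0 := by
  rw [SA1_L0_apply, h, Finset.sum_eq_zero fun r _ => by rw [h' r, mul_zero], add_zero]

private theorem SA1_L0_F (P : Par) : L0 P (dl .F) = 1 := by
  rw [SA1_L0_apply, Finset.sum_eq_zero fun r _ => by simp [dl]]
  simp [dl]

private theorem SA1_Ps_zero (P : Par) (φ : St → ℝ) (hI : φ .I = 0) (h : φ .F = 0)
    (h' : ∀ r, φ (.cF r) = 0) : L0 P (Ps P φ) = 0 := by
  apply SA1_L0_zero
  · simp only [Ps, h, h']; ring
  · intro r
    cases r with
    | zero => simp only [Ps, hI]; ring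
    | succ r => simp only [Ps, h']; ring

theorem coneA_L0 {P : Par} {C : Cst} (hG : Good P C) : ConeA P C (L0 P) where
  pos φ hφ := by
    rw [SA1_L0_apply]
    refine add_nonneg (hφ .F trivial rfl) (Finset.sum_nonneg fun r hr => mul_nonneg ?_
      (hφ (.cF r) (Nat.lt_succ_iff.mp (Finset.mem_range.mp hr)) rfl))
    unfold th
    split_ifs
    · exact div_nonneg hG.al0 (pow_nonneg (by linarith [hG.al1]) _)
    · exact le_rfl
  j1 r hr := by
    rw [SA1_L0_F, SA1_L0_apply, Finset.sum_eq_single_of_mem r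
      (Finset.mem_range.mpr (Nat.lt_succ_iff.mpr hr))]
    · simp [dl]
    · intro b _ hb
      simp [dl, hb]
  j2 := by
    rw [SA1_L0_F, SA1_L0_zero P (dl .I) (by simp [dl]) (by simp [dl]),
      SA1_L0_zero P (wS P) rfl (fun _ => rfl),
      SA1_L0_zero P (dl .M) (by simp [dl]) (by simp [dl])]
    linarith [hG.Ca0]
  j3 m g := by
    rw [SA1_L0_F, SA1_L0_zero P (dV m g) rfl (fun _ => rfl),
      SA1_L0_zero P (dl .M) (by simp [dl]) (by simp [dl])]
    have h1 : 0 ≤ om P := by
      unfold om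
      exact mul_nonneg (by linarith [hG.al1]) (by linarith [hG.c2lt])
    have h2 : 0 ≤ Bd P C (m + 1) g := by
      unfold Bd
      have := hG.K10
      have := hG.K20
      positivity
    positivity
  j4 φ _ h1 := by
    rw [SA1_L0_zero P φ (h1 _ rfl) (fun r => h1 _ rfl),
      SA1_Ps_zero P φ (h1 _ rfl) (h1 _ rfl) (fun r => h1 _ rfl)]
    linarith
  j5 := by
    rw [SA1_L0_F, SA1_Ps_zero P (psi P) rfl rfl (fun _ => rfl),
      SA1_L0_zero P (psi P) rfl (fun _ => rfl), SA1_L0_zero P (wS P) rfl (fun _ => rfl)]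
    linarith [hG.qc1]

end H50CP
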