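import Pool.Agent.H50.CP.SCone

/-!
# SA2: invariance of the ratios `cF r / F` and `cO r / O`

All five statements are pointwise identities for the operators applied to indicators.  E.g.
`Ps P (dl (cF r))` is `al (1-c1)` at `F` if `r = n`, `1 - c1` at `cF (r+1)`, else 0, and
`Ps P (dl F)` is `(1-al)(1-c1)` at `F`, else 0; and `th P (r+1) = (1-al) * th P r` for `r < n`,
`th P n = al / (1-al)`.  Use `ConeA.congr` / `ConeA.mono` (resp. `ConeD`) to rewrite
`L (Ps P (dl (cF r)))`.
-/

namespace H50CP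

open Finset

theorem th_nonneg {P : Par} {C : Cst} (hG : Good P C) (r : ℕ) : 0 ≤ th P r := by
  have h0 := hG.al0
  have h1 := hG.al1
  unfold th
  split_ifs
  · exact div_nonneg h0 (pow_nonneg (by linarith) _)
  · exact le_rfl

theorem th_succ {P : Par} {C : Cst} (hG : Good P C) {r : ℕ} (h : r < P.n) :
    th P (r + 1) = (1 - P.al) * th P r := by
  have h1 := hG.al1
  have hne : (1 - P.al) ≠ 0 := by linarith
  unfold th
  rw [if_pos (by omega), if_pos (by omega)]
  have e : P.n + 1 - r = (P.n + 1 - (r + 1)) + 1 := by omega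
  rw [e, pow_succ]
  field_simp

theorem th_top {P : Par} : th P P.n = P.al / (1 - P.al) := by
  unfold th
  rw [if_pos le_rfl]
  have e : P.n + 1 - P.n = 1 := by omega
  rw [e, pow_one]

/-- value of `L` on `Ps (dl F)` -/
theorem L_Ps_F {P : Par} {C : Cst} {L : (St → ℝ) →ₗ[ℝ] ℝ} (hL : ConeA P C L) :
    L (Ps P (dl .F)) = (1 - P.al) * (1 - P.c1) * L (dl .F) := by
  rw [← smul_eq_mul, ← map_smul]
  refine hL.congr fun s h1 h2 => ?_
  rcases s with _ | _ | _ | _ | r | r | ⟨m, g, s⟩ | ⟨g, s⟩ | s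
  · simp [Ps, winS, dl]
  · simp [Ps, winS, dl]
  · simp [Ps, dl]
  · simp [St.z] at h2
  · cases r <;> simp [Ps, dl]
  · simp [St.z] at h2
  · cases m <;> simp [Ps, dl]
  · simp [St.z] at h2
  · cases s <;> simp [Ps, dl]

theorem L_Pu_F {P : Par} {C : Cst} {L : (St → ℝ) →ₗ[ℝ] ℝ} (hL : ConeA P C L) :
    L (Pu P (dl .F)) = (1 - P.al) * P.b * (P.c1 * L (dl .F) + P.c2 * L (dl .M)) := by
  have : L (Pu P (dl .F)) = L (((1 - P.al) * P.b * P.c1) • dl .F
      + ((1 - P.al) * P.b * P.c2) • dl .M) := by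
    refine hL.congr fun s h1 h2 => ?_
    rcases s with _ | _ | _ | _ | r | r | ⟨m, g, s⟩ | ⟨g, s⟩ | s
    · simp [Pu, winU, dl]
    · simp [Pu, winU, dl]; ring
    · simp [Pu, dl]; ring
    · simp [St.z] at h2
    · cases r <;> simp [Pu, dl]
    · simp [St.z] at h2
    · cases m <;> cases g <;> cases s <;> simp [Pu, dl, nx]
    · simp [St.z] at h2
    · cases s <;> simp [Pu, dl]
  rw [this, map_add, map_smul, map_smul, smul_eq_mul, smul_eq_mul]
  ring

theorem L_Pd_O {P : Par} {C : Cst} {L : (St → ℝ) →ₗ[ℝ] ℝ} (hL : ConeA P C L) :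
    L (Pd P (dl .O)) = (1 - P.al) * (1 - P.b) * (P.c1 * L (dl .F) + P.c2 * L (dl .M)) := by
  have : L (Pd P (dl .O)) = L (((1 - P.al) * (1 - P.b) * P.c1) • dl .F
      + ((1 - P.al) * (1 - P.b) * P.c2) • dl .M) := by
    refine hL.congr fun s h1 h2 => ?_
    rcases s with _ | _ | _ | _ | r | r | ⟨m, g, s⟩ | ⟨g, s⟩ | s
    · simp [Pd, winD, dl]
    · simp [Pd, winD, dl]; ring
    · simp [Pd, dl]; ring
    · simp [St.z] at h2
    · cases r <;> simp [Pd, dl]
    · simp [St.z] at h2
    · cases m <;> cases g <;> cases s <;> simp [Pd, dl]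
    · simp [St.z] at h2
    · cases s <;> simp [Pd, dl]
  rw [this, map_add, map_smul, map_smul, smul_eq_mul, smul_eq_mul]
  ring

theorem LD_Pu_F {P : Par} {C : Cst} {L : (St → ℝ) →ₗ[ℝ] ℝ} (hL : ConeD P C L) :
    L (Pu P (dl .F)) = (1 - P.al) * P.b * L (dl .O) := by
  rw [← smul_eq_mul, ← map_smul]
  refine hL.congr fun s h1 h2 => ?_
  rcases s with _ | _ | _ | _ | r | r | ⟨m, g, s⟩ | ⟨g, s⟩ | s
  · simp [St.z] at h2
  · simp [St.z] at h2
  · simp [St.z] at h2
  · simp [Pu, dl]
  · simp [St.z] at h2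
  · cases r <;> simp [Pu, dl]
  · simp [St.z] at h2
  · cases g <;> cases s <;> simp [Pu, dl, nx]
  · simp [St.z] at h2

theorem LD_Pd_O {P : Par} {C : Cst} {L : (St → ℝ) →ₗ[ℝ] ℝ} (hL : ConeD P C L) :
    L (Pd P (dl .O)) = (1 - P.al) * (1 - P.b) * L (dl .O) := by
  rw [← smul_eq_mul, ← map_smul]
  refine hL.congr fun s h1 h2 => ?_
  rcases s with _ | _ | _ | _ | r | r | ⟨m, g, s⟩ | ⟨g, s⟩ | s
  · simp [St.z] at h2
  · simp [St.z] at h2
  · simp [St.z] at h2
  · simp [Pd, dl]
  · simp [St.z] at h2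
  · cases r <;> simp [Pd, dl]
  · simp [St.z] at h2
  · cases g <;> cases s <;> simp [Pd, dl]
  · simp [St.z] at h2

private theorem dl_nonneg (t s : St) : 0 ≤ dl t s := by
  unfold dl; split_ifs <;> norm_num

theorem L_F_nonneg {P : Par} {C : Cst} {L : (St → ℝ) →ₗ[ℝ] ℝ} (hL : ConeA P C L)
    (t : St) : 0 ≤ L (dl t) :=
  hL.pos _ fun s _ _ => dl_nonneg t s

theorem LD_F_nonneg {P : Par} {C : Cst} {L : (St → ℝ) →ₗ[ℝ] ℝ} (hL : ConeD P C L)
    (t : St) : 0 ≤ L (dl t) :=
  hL.pos _ fun s _ _ => dl_nonneg t s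

theorem j1_s {P : Par} {C : Cst} {L : (St → ℝ) →ₗ[ℝ] ℝ} (hG : Good P C) (hL : ConeA P C L) :
    ∀ r, r ≤ P.n → L (Ps P (dl (.cF r))) ≤ th P r * L (Ps P (dl .F)) := by
  intro r hr
  have hal := hG.al1
  have hc1 : 0 ≤ 1 - P.c1 := by have := hG.c12; have := hG.c2lt; linarith
  rw [L_Ps_F hL]
  rcases Nat.lt_or_ge r P.n with h | h
  · have e : L (Ps P (dl (.cF r))) = (1 - P.c1) * L (dl (.cF (r + 1))) := by
      rw [← smul_eq_mul, ← map_smul]
      refine hL.congr fun s h1 h2 => ?_
      rcases s with _ | _ | _ | _ | r' | r' | ⟨m, g, s⟩ | ⟨g, s⟩ | s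
      · simp [Ps, winS, dl]
      · simp [Ps, winS, dl]
      · simp [Ps, dl]; intro h3; omega
      · simp [St.z] at h2
      · cases r' <;> simp [Ps, dl]
      · simp [St.z] at h2
      · cases m <;> simp [Ps, dl]
      · simp [St.z] at h2
      · cases s <;> simp [Ps, dl]
    rw [e]
    have h3 := mul_le_mul_of_nonneg_left (hL.j1 (r + 1) (by omega)) hc1
    rw [th_succ hG h] at h3
    calc _ ≤ _ := h3
      _ = _ := by ring
  · have hrn : r = P.n := le_antisymm hr h
    subst hrn
    have e : L (Ps P (dl (.cF P.n))) = (P.al * (1 - P.c1)) * L (dl .F) := by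
      rw [← smul_eq_mul, ← map_smul]
      refine hL.congr fun s h1 h2 => ?_
      rcases s with _ | _ | _ | _ | r' | r' | ⟨m, g, s⟩ | ⟨g, s⟩ | s
      · simp [Ps, winS, dl]
      · simp [Ps, winS, dl]
      · simp [Ps, dl]
      · simp [St.z] at h2
      · cases r' with
        | zero => simp [Ps, dl]
        | succ r' =>
          have h3 : r' ≠ P.n := by simp [Alw] at h1; omega
          simp [Ps, dl, h3]
      · simp [St.z] at h2
      · cases m <;> simp [Ps, dl]
      · simp [St.z] at h2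
      · cases s <;> simp [Ps, dl]
    rw [e, th_top]
    have : (1 - P.al) ≠ 0 := by linarith
    apply le_of_eq
    field_simp

theorem j1_u {P : Par} {C : Cst} {L : (St → ℝ) →ₗ[ℝ] ℝ} (hG : Good P C) (hL : ConeA P C L) :
    ∀ r, r ≤ P.n → L (Pu P (dl (.cF r))) ≤ th P r * L (Pu P (dl .F)) := by
  intro r hr
  have hal := hG.al1
  have hb := hG.b0
  have hc1 : 0 ≤ P.c1 := by have := hG.q0; have := hG.qc1; linarith
  have hc2 : 0 ≤ P.c2 := by have := hG.c12; linarith
  have hM := L_F_nonneg hL .M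
  have hth := th_nonneg hG r
  rw [L_Pu_F hL]
  have hx : 0 ≤ th P r * ((1 - P.al) * P.b * (P.c2 * L (dl .M))) := by
    have : 0 ≤ 1 - P.al := by linarith
    positivity
  rcases Nat.lt_or_ge r P.n with h | h
  · have e : L (Pu P (dl (.cF r))) = (P.c1 * P.b) * L (dl (.cF (r + 1))) := by
      rw [← smul_eq_mul, ← map_smul]
      refine hL.congr fun s h1 h2 => ?_
      rcases s with _ | _ | _ | _ | r' | r' | ⟨m, g, s⟩ | ⟨g, s⟩ | s
      · simp [Pu, winU, dl]
      · simp [Pu, winU, dl]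
      · simp [Pu, dl]; intro h3; omega
      · simp [St.z] at h2
      · cases r' <;> simp [Pu, dl]
      · simp [St.z] at h2
      · cases m <;> cases g <;> cases s <;> simp [Pu, dl, nx]
      · simp [St.z] at h2
      · cases s <;> simp [Pu, dl]
    rw [e]
    have h3 := mul_le_mul_of_nonneg_left (hL.j1 (r + 1) (by omega)) (mul_nonneg hc1 hb)
    rw [th_succ hG h] at h3
    nlinarith [h3, hx]
  · have hrn : r = P.n := le_antisymm hr h
    subst hrn
    have e : L (Pu P (dl (.cF P.n))) = (P.al * P.c1 * P.b) * L (dl .F) := by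
      rw [← smul_eq_mul, ← map_smul]
      refine hL.congr fun s h1 h2 => ?_
      rcases s with _ | _ | _ | _ | r' | r' | ⟨m, g, s⟩ | ⟨g, s⟩ | s
      · simp [Pu, winU, dl]
      · simp [Pu, winU, dl]
      · simp [Pu, dl]
      · simp [St.z] at h2
      · cases r' with
        | zero => simp [Pu, dl]
        | succ r' =>
          have h3 : r' ≠ P.n := by simp [Alw] at h1; omega
          simp [Pu, dl, h3]
      · simp [St.z] at h2
      · cases m <;> cases g <;> cases s <;> simp [Pu, dl, nx]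
      · simp [St.z] at h2
      · cases s <;> simp [Pu, dl]
    rw [e]
    have : (1 - P.al) ≠ 0 := by linarith
    have h4 : th P P.n * (1 - P.al) = P.al := by
      rw [th_top]; field_simp
    have h5 : (P.al * P.c1 * P.b) * L (dl .F)
        = th P P.n * ((1 - P.al) * P.b * (P.c1 * L (dl .F))) := by
      linear_combination (-(P.c1 * P.b * L (dl .F))) * h4
    rw [h5]
    nlinarith [hx]

theorem z1_d {P : Par} {C : Cst} {L : (St → ℝ) →ₗ[ℝ] ℝ} (hG : Good P C) (hL : ConeA P C L) :
    ∀ r, r ≤ P.n → L (Pd P (dl (.cO r))) ≤ th P r * L (Pd P (dl .O)) := by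
  intro r hr
  have hal := hG.al1
  have hb : 0 ≤ 1 - P.b := by have := hG.b1; linarith
  have hc1 : 0 ≤ P.c1 := by have := hG.q0; have := hG.qc1; linarith
  have hc2 : 0 ≤ P.c2 := by have := hG.c12; linarith
  have hM := L_F_nonneg hL .M
  have hth := th_nonneg hG r
  rw [L_Pd_O hL]
  have hx : 0 ≤ th P r * ((1 - P.al) * (1 - P.b) * (P.c2 * L (dl .M))) := by
    have : 0 ≤ 1 - P.al := by linarith
    positivity
  rcases Nat.lt_or_ge r P.n with h | h
  · have e : L (Pd P (dl (.cO r))) = (P.c1 * (1 - P.b)) * L (dl (.cF (r + 1))) := by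
      rw [← smul_eq_mul, ← map_smul]
      refine hL.congr fun s h1 h2 => ?_
      rcases s with _ | _ | _ | _ | r' | r' | ⟨m, g, s⟩ | ⟨g, s⟩ | s
      · simp [Pd, winD, dl]
      · simp [Pd, winD, dl]
      · simp [Pd, dl]; intro h3; omega
      · simp [St.z] at h2
      · cases r' <;> simp [Pd, dl]
      · simp [St.z] at h2
      · cases m <;> cases g <;> cases s <;> simp [Pd, dl]
      · simp [St.z] at h2
      · cases s <;> simp [Pd, dl]
    rw [e]
    have h3 := mul_le_mul_of_nonneg_left (hL.j1 (r + 1) (by omega)) (mul_nonneg hc1 hb)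
    rw [th_succ hG h] at h3
    nlinarith [h3, hx]
  · have hrn : r = P.n := le_antisymm hr h
    subst hrn
    have e : L (Pd P (dl (.cO P.n))) = (P.al * P.c1 * (1 - P.b)) * L (dl .F) := by
      rw [← smul_eq_mul, ← map_smul]
      refine hL.congr fun s h1 h2 => ?_
      rcases s with _ | _ | _ | _ | r' | r' | ⟨m, g, s⟩ | ⟨g, s⟩ | s
      · simp [Pd, winD, dl]
      · simp [Pd, winD, dl]
      · simp [Pd, dl]
      · simp [St.z] at h2
      · cases r' with
        | zero => simp [Pd, dl]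
        | succ r' =>
          have h3 : r' ≠ P.n := by simp [Alw] at h1; omega
          simp [Pd, dl, h3]
      · simp [St.z] at h2
      · cases m <;> cases g <;> cases s <;> simp [Pd, dl]
      · simp [St.z] at h2
      · cases s <;> simp [Pd, dl]
    rw [e]
    have : (1 - P.al) ≠ 0 := by linarith
    have h4 : th P P.n * (1 - P.al) = P.al := by
      rw [th_top]; field_simp
    have h5 : (P.al * P.c1 * (1 - P.b)) * L (dl .F)
        = th P P.n * ((1 - P.al) * (1 - P.b) * (P.c1 * L (dl .F))) := by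
      linear_combination (-(P.c1 * (1 - P.b) * L (dl .F))) * h4
    rw [h5]
    nlinarith [hx]

theorem j1_ud {P : Par} {C : Cst} {L : (St → ℝ) →ₗ[ℝ] ℝ} (hG : Good P C) (hL : ConeD P C L) :
    ∀ r, r ≤ P.n → L (Pu P (dl (.cF r))) ≤ th P r * L (Pu P (dl .F)) := by
  intro r hr
  have hal := hG.al1
  have hb := hG.b0
  rw [LD_Pu_F hL]
  rcases Nat.lt_or_ge r P.n with h | h
  · have e : L (Pu P (dl (.cF r))) = P.b * L (dl (.cO (r + 1))) := by
      rw [← smul_eq_mul, ← map_smul]
      refine hL.congr fun s h1 h2 => ?_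
      rcases s with _ | _ | _ | _ | r' | r' | ⟨m, g, s⟩ | ⟨g, s⟩ | s
      · simp [St.z] at h2
      · simp [St.z] at h2
      · simp [St.z] at h2
      · simp [Pu, dl]; intro h3; omega
      · simp [St.z] at h2
      · cases r' <;> simp [Pu, dl]
      · simp [St.z] at h2
      · cases g <;> cases s <;> simp [Pu, dl, nx]
      · simp [St.z] at h2
    rw [e]
    have h3 := mul_le_mul_of_nonneg_left (hL.z1 (r + 1) (by omega)) hb
    rw [th_succ hG h] at h3
    calc _ ≤ _ := h3
      _ = _ := by ring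
  · have hrn : r = P.n := le_antisymm hr h
    subst hrn
    have e : L (Pu P (dl (.cF P.n))) = (P.al * P.b) * L (dl .O) := by
      rw [← smul_eq_mul, ← map_smul]
      refine hL.congr fun s h1 h2 => ?_
      rcases s with _ | _ | _ | _ | r' | r' | ⟨m, g, s⟩ | ⟨g, s⟩ | s
      · simp [St.z] at h2
      · simp [St.z] at h2
      · simp [St.z] at h2
      · simp [Pu, dl]
      · simp [St.z] at h2
      · cases r' with
        | zero => simp [Pu, dl]
        | succ r' =>
          have h3 : r' ≠ P.n := by simp [Alw] at h1; omega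
          simp [Pu, dl, h3]
      · simp [St.z] at h2
      · cases g <;> cases s <;> simp [Pu, dl, nx]
      · simp [St.z] at h2
    rw [e, th_top]
    have : (1 - P.al) ≠ 0 := by linarith
    apply le_of_eq
    field_simp

theorem z1_dd {P : Par} {C : Cst} {L : (St → ℝ) →ₗ[ℝ] ℝ} (hG : Good P C) (hL : ConeD P C L) :
    ∀ r, r ≤ P.n → L (Pd P (dl (.cO r))) ≤ th P r * L (Pd P (dl .O)) := by
  intro r hr
  have hal := hG.al1
  have hb : 0 ≤ 1 - P.b := by have := hG.b1; linarith
  rw [LD_Pd_O hL]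
  rcases Nat.lt_or_ge r P.n with h | h
  · have e : L (Pd P (dl (.cO r))) = (1 - P.b) * L (dl (.cO (r + 1))) := by
      rw [← smul_eq_mul, ← map_smul]
      refine hL.congr fun s h1 h2 => ?_
      rcases s with _ | _ | _ | _ | r' | r' | ⟨m, g, s⟩ | ⟨g, s⟩ | s
      · simp [St.z] at h2
      · simp [St.z] at h2
      · simp [St.z] at h2
      · simp [Pd, dl]; intro h3; omega
      · simp [St.z] at h2
      · cases r' <;> simp [Pd, dl]
      · simp [St.z] at h2
      · cases g <;> cases s <;> simp [Pd, dl]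
      · simp [St.z] at h2
    rw [e]
    have h3 := mul_le_mul_of_nonneg_left (hL.z1 (r + 1) (by omega)) hb
    rw [th_succ hG h] at h3
    calc _ ≤ _ := h3
      _ = _ := by ring
  · have hrn : r = P.n := le_antisymm hr h
    subst hrn
    have e : L (Pd P (dl (.cO P.n))) = (P.al * (1 - P.b)) * L (dl .O) := by
      rw [← smul_eq_mul, ← map_smul]
      refine hL.congr fun s h1 h2 => ?_
      rcases s with _ | _ | _ | _ | r' | r' | ⟨m, g, s⟩ | ⟨g, s⟩ | s
      · simp [St.z] at h2
      · simp [St.z] at h2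
      · simp [St.z] at h2
      · simp [Pd, dl]
      · simp [St.z] at h2
      · cases r' with
        | zero => simp [Pd, dl]
        | succ r' =>
          have h3 : r' ≠ P.n := by simp [Alw] at h1; omega
          simp [Pd, dl, h3]
      · simp [St.z] at h2
      · cases g <;> cases s <;> simp [Pd, dl]
      · simp [St.z] at h2
    rw [e, th_top]
    have : (1 - P.al) ≠ 0 := by linarith
    apply le_of_eq
    field_simp

end H50CP
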