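import Pool.Agent.H50.CP.SCone

/-!
# SA3: the window weights

Write `Y = L (dl F) + L (dl M)`, `w = om P = (1-al)(1-c2)`, `Bd m g = K1 (g+1)/(m+g+1) +
K2 (n+2-m)/(n+2)` (truncated subtraction).

*Creation bound* (`cr`): for `m ≤ n+1`,
`q tau * Σ_{l ≤ n, m+g ≤ l+1} dW (l+1) g + al * [m+g ≤ n+1] dW (n+1) g` is the mass put in one slot on
schedules `(m,g,*)` from `I` (first sum) and from `M` (second term):
* `Σ_{L ≥ m+g, L ≥ 1} dW L g ≤ 3 (g+1) / ((m+g+1)(m+g+2))` (telescoping: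
  `1/binom(L+3,3) = 6/((L+1)(L+2)(L+3)) = 3 [1/((L+1)(L+2)) - 1/((L+2)(L+3))]`);
* `dW (n+1) g ≤ 6/((n+3)(n+4))` for `g ≤ n+1`.
With `L (dl I) ≤ Ca * Y` (from `hL.j2` and `L (wS) ≥ 0`), `L (dl M) ≤ Y`, `g3`, `g4`:
`L(cr m g) ≤ (Bd m g - Bd (m+1) g) * w^(m+1) * Y` for `m ≤ n+1`, since
`Bd m g - Bd (m+1) g = K1 (g+1)/((m+g+1)(m+g+2)) + K2/(n+2)` and `w^(n+2) ≤ w^(m+1)`.

* `kd_le`: `kd g = [V 0 g *] + cr 0 g`, so `L (kd g) ≤ Bd 1 g * w * Y + (Bd 0 g - Bd 1 g) * w * Y`.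
* `j3_s`: `Ps (dV m g) = [V (m+1) g *] + cr (m+1) g` (window of length `l+1`, schedule `(m+1,g,s)`
  has `m+g+s = l`), `L(...) ≤ Bd (m+2) g w^(m+2) Y + (Bd (m+1) g - Bd (m+2) g) w^(m+2) Y
  = Bd (m+1) g w^(m+1) * (w Y)` for `m ≤ n` and `w * Y ≤ L(Ps(dl F)) + L(Ps (dl M))` because
  `Ps (dl F) = (1-al)(1-c1)` at `F`, `Ps (dl M) = (1-al)(1-c2)` at `M` and `≥ 0` at `I`.
  For `m > n` the creation part is empty.
-/

namespace H50CP

open Finset

/-- creation test function for schedules `(m,g,*)` -/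
noncomputable def cr (P : Par) (m g : ℕ) : St → ℝ
  | .I => P.q * P.tau * ∑ l ∈ range (P.n + 1), (if m + g ≤ l + 1 then dW (l + 1) g else 0)
  | .M => P.al * (if m + g ≤ P.n + 1 then dW (P.n + 1) g else 0)
  | _ => 0

/-- `1/binom(N+4,3)` in telescoping form -/
theorem SA3_dW_eq' (N g : ℕ) :
    dW (N + 1) g = 6 * ((g : ℝ) + 1) / (((N : ℝ) + 2) * ((N : ℝ) + 3) * ((N : ℝ) + 4)) := by
  have h : (((N + 4).choose 3 : ℕ) : ℝ) * 6 = ((N : ℝ) + 4) * ((N : ℝ) + 3) * ((N : ℝ) + 2) := by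
    have h1 := Nat.descFactorial_eq_factorial_mul_choose (N + 4) 3
    have h2 : (N + 4).descFactorial 3 = (N + 4) * (N + 3) * (N + 2) := by
      simp [Nat.descFactorial_succ]
      ring
    rw [h2] at h1
    have h3 : ((N + 4) * (N + 3) * (N + 2) : ℕ) = (N + 4).choose 3 * 6 := by
      rw [h1]; simp [Nat.factorial]; ring
    exact_mod_cast h3.symm
  have h0 : (((N + 4).choose 3 : ℕ) : ℝ) ≠ 0 := by
    intro h4
    rw [h4, zero_mul] at h
    have : (0:ℝ) < ((N : ℝ) + 4) * ((N : ℝ) + 3) * ((N : ℝ) + 2) := by positivity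
    linarith
  unfold dW
  rw [show N + 1 + 3 = N + 4 from rfl, div_eq_div_iff h0 (by positivity)]
  have : ((N : ℝ) + 2) * ((N : ℝ) + 3) * ((N : ℝ) + 4) = (((N + 4).choose 3 : ℕ) : ℝ) * 6 := by
    rw [h]; ring
  rw [this]; ring

theorem SA3_dW_eq (N g : ℕ) :
    dW (N + 1) g = 3 * ((g : ℝ) + 1) * (1 / (((N : ℝ) + 2) * ((N : ℝ) + 3))
      - 1 / (((N : ℝ) + 3) * ((N : ℝ) + 4))) := by
  rw [SA3_dW_eq']
  have h2 : (N : ℝ) + 2 ≠ 0 := by positivity
  have h3 : (N : ℝ) + 3 ≠ 0 := by positivity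
  have h4 : (N : ℝ) + 4 ≠ 0 := by positivity
  field_simp
  ring

theorem SA3_Bd_nonneg {P : Par} {C : Cst} (hG : Good P C) (m g : ℕ) : 0 ≤ Bd P C m g := by
  unfold Bd
  have := hG.K10
  have := hG.K20
  positivity

/-- evaluation of `winS` on the indicators `dV` -/
theorem SA3_winS (l m g : ℕ) :
    winS l (dV m g) = if m + g ≤ l then dW (l + 1) g else 0 := by
  unfold winS
  simp only [dV]
  split_ifs with h
  · rw [Finset.sum_eq_single (m, l - m)]
    · rw [Finset.sum_eq_single (g, l - m - g)]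
      · simp
      · rintro ⟨a, b⟩ hab hne
        rw [Finset.HasAntidiagonal.mem_antidiagonal] at hab
        simp only at hab
        have : a ≠ g := by
          rintro rfl
          apply hne
          ext
          · rfl
          · simp only; omega
        simp [this]
      · intro hn
        exact absurd (Finset.HasAntidiagonal.mem_antidiagonal.2 (by simp only; omega)) hn
    · rintro ⟨a, b⟩ hab hne
      rw [Finset.HasAntidiagonal.mem_antidiagonal] at hab
      simp only at hab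
      have : a ≠ m := by
        rintro rfl
        apply hne
        ext
        · rfl
        · simp only; omega
      apply Finset.sum_eq_zero
      intro t _
      simp [this]
    · intro hn
      exact absurd (Finset.HasAntidiagonal.mem_antidiagonal.2 (by simp only; omega)) hn
  · apply Finset.sum_eq_zero
    rintro ⟨a, b⟩ hab
    rw [Finset.HasAntidiagonal.mem_antidiagonal] at hab
    apply Finset.sum_eq_zero
    rintro ⟨c, d⟩ hcd
    rw [Finset.HasAntidiagonal.mem_antidiagonal] at hcd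
    simp only at hab hcd ⊢
    rw [if_neg (by omega), mul_zero]

theorem SA3_basic {P : Par} {C : Cst} {L : (St → ℝ) →ₗ[ℝ] ℝ} (hG : Good P C)
    (hL : ConeA P C L) :
    0 ≤ L (dl .I) ∧ 0 ≤ L (dl .M) ∧ 0 ≤ L (dl .F) ∧
      L (dl .I) ≤ C.Ca * (L (dl .F) + L (dl .M)) := by
  have hd : ∀ t, 0 ≤ L (dl t) := by
    intro t
    apply hL.pos
    intro s _ _
    unfold dl
    split_ifs <;> norm_num
  refine ⟨hd _, hd _, hd _, ?_⟩
  have h1 := hL.j2
  have h2 : 0 ≤ L (wS P) := by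
    apply hL.pos
    intro s _ _
    have hom : 0 < om P := by
      unfold om
      exact mul_pos (by linarith [hG.al1]) (by linarith [hG.c2lt])
    rcases s with _ | _ | _ | _ | r | r | ⟨m', g', s⟩ | ⟨g', s⟩ | s <;> simp only [wS] <;>
      first | exact le_rfl | positivity
  linarith

theorem SA3_Pu_dV (P : Par) (m g : ℕ) (s : St) : Pu P (dV m g) s = (0 : St → ℝ) s := by
  rcases s with _ | _ | _ | _ | r | r | ⟨m', g', s⟩ | ⟨g', s⟩ | s
  · simp [Pu, winU, dV]
  · simp [Pu, winU, dV]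
  · simp [Pu, dV]
  · simp [Pu, dV]
  · cases r <;> simp [Pu, dV]
  · cases r <;> simp [Pu, dV]
  · cases m' <;> cases g' <;> simp [Pu, dV]
    cases s <;> simp [nx]
  · cases g' <;> simp [Pu, dV]
    cases s <;> simp [nx]
  · simp [Pu]

theorem SA3_Pu_F {P : Par} {C : Cst} (hG : Good P C) (s : St) : 0 ≤ Pu P (dl .F) s := by
  have h1 : 0 ≤ 1 - P.al := by linarith [hG.al1]
  have h2 : 0 ≤ P.c1 := by linarith [hG.q0, hG.qc1]
  have h3 : 0 ≤ P.c2 := by linarith [hG.q0, hG.qc1, hG.c12]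
  have h4 := hG.b0
  rcases s with _ | _ | _ | _ | r | r | ⟨m', g', s⟩ | ⟨g', s⟩ | s
  · simp [Pu, winU, dl]
  · simp only [Pu, winU, dl]
    simpa using mul_nonneg (mul_nonneg h1 h3) h4
  · simp only [Pu, dl]
    simpa using mul_nonneg (mul_nonneg h1 h2) h4
  · simp only [Pu, dl]
    simpa using mul_nonneg h1 h4
  · cases r <;> simp [Pu, dl]
  · cases r <;> simp [Pu, dl]
  · cases m' <;> cases g' <;> simp [Pu, dl]
    cases s <;> simp [nx]
  · cases g' <;> simp [Pu, dl]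
    cases s <;> simp [nx]
  · simp [Pu]

theorem SA3_Pu_M {P : Par} {C : Cst} (_ : Good P C) (s : St) : 0 ≤ Pu P (dl .M) s := by
  rcases s with _ | _ | _ | _ | r | r | ⟨m', g', s⟩ | ⟨g', s⟩ | s
  · simp [Pu, winU, dl]
  · simp [Pu, winU, dl]
  · simp [Pu, dl]
  · simp [Pu, dl]
  · cases r <;> simp [Pu, dl]
  · cases r <;> simp [Pu, dl]
  · cases m' <;> cases g' <;> simp [Pu, dl]
    cases s <;> simp [nx]
  · cases g' <;> simp [Pu, dl]
    cases s <;> simp [nx]
  · simp [Pu]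

theorem om_pos {P : Par} {C : Cst} (hG : Good P C) : 0 < om P := by
  unfold om
  exact mul_pos (by linarith [hG.al1]) (by linarith [hG.c2lt])

theorem om_le_one {P : Par} {C : Cst} (hG : Good P C) : om P ≤ 1 := by
  unfold om
  have h1 : 1 - P.al ≤ 1 := by linarith [hG.al0]
  have h2 : 0 ≤ 1 - P.al := by linarith [hG.al1]
  have h3 : 1 - P.c2 ≤ 1 := by linarith [hG.q0, hG.qc1, hG.c12]
  have h4 : 0 ≤ 1 - P.c2 := by linarith [hG.c2lt]
  nlinarith

/-- `Σ_{L=max(k,1)}^{n+1} 1/binom(L+3,3) ≤ 3/((k+1)(k+2))` -/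
theorem sum_dW_le (n k g : ℕ) :
    ∑ l ∈ range (n + 1), (if k ≤ l + 1 then dW (l + 1) g else 0)
      ≤ 3 * ((g : ℝ) + 1) / (((k : ℝ) + 1) * ((k : ℝ) + 2)) := by
  have key : ∀ N : ℕ, ∑ l ∈ range N, (if k ≤ l + 1 then dW (l + 1) g else 0)
      ≤ if k ≤ N then 3 * ((g : ℝ) + 1) * (1 / (((k : ℝ) + 1) * ((k : ℝ) + 2))
          - 1 / (((N : ℝ) + 2) * ((N : ℝ) + 3))) else 0 := by
    intro N
    induction N with
    | zero =>
      simp only [range_zero, sum_empty]
      split_ifs with h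
      · have hk : k = 0 := by omega
        subst hk
        have : (0:ℝ) ≤ g := by positivity
        norm_num
        positivity
      · exact le_rfl
    | succ N ih =>
      rw [sum_range_succ, SA3_dW_eq]
      rcases Nat.lt_or_ge N k with h | h
      · rw [if_neg (by omega)] at ih
        rcases Nat.lt_or_ge (N + 1) k with h2 | h2
        · rw [if_neg (by omega), if_neg (by omega)]
          linarith
        · have hk : k = N + 1 := by omega
          subst hk
          rw [if_pos le_rfl, if_pos le_rfl]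
          refine (add_le_add_left ih _).trans (le_of_eq ?_)
          push_cast
          ring
      · rw [if_pos h] at ih
        rw [if_pos (by omega), if_pos (by omega)]
        refine (add_le_add_left ih _).trans (le_of_eq ?_)
        push_cast
        ring
  refine (key (n + 1)).trans ?_
  split_ifs with h
  · rw [mul_sub]
    have h1 : (0:ℝ) ≤ 3 * ((g : ℝ) + 1) * (1 / (((((n + 1 : ℕ)) : ℝ) + 2) * ((((n + 1 : ℕ)) : ℝ) + 3))) := by
      positivity
    rw [mul_one_div]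
    linarith
  · positivity

theorem dW_top_le (n g : ℕ) (h : g ≤ n + 1) : dW (n + 1) g ≤ 6 / (((n : ℝ) + 3) * ((n : ℝ) + 4)) := by
  rw [SA3_dW_eq']
  rw [div_le_div_iff₀ (by positivity) (by positivity)]
  have hg : (g : ℝ) ≤ (n : ℝ) + 1 := by exact_mod_cast h
  have h3 : (0:ℝ) ≤ ((n : ℝ) + 3) * ((n : ℝ) + 4) := by positivity
  nlinarith [mul_le_mul_of_nonneg_right hg h3]

theorem Bd_diff (P : Par) (C : Cst) {m : ℕ} (g : ℕ) (h : m ≤ P.n + 1) :
    Bd P C m g - Bd P C (m + 1) g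
      = C.K1 * ((g : ℝ) + 1) / (((m : ℝ) + g + 1) * ((m : ℝ) + g + 2)) + C.K2 / ((P.n : ℝ) + 2) := by
  unfold Bd
  have h1 : ((P.n + 2 - m : ℕ) : ℝ) = (P.n : ℝ) + 2 - m := by
    rw [Nat.cast_sub (by omega)]; push_cast; ring
  have h2 : ((P.n + 2 - (m + 1) : ℕ) : ℝ) = (P.n : ℝ) + 2 - (m + 1) := by
    rw [Nat.cast_sub (by omega)]; push_cast; ring
  rw [h1, h2]
  push_cast
  have h3 : (m : ℝ) + g + 1 ≠ 0 := by positivity
  have h4 : (m : ℝ) + g + 2 ≠ 0 := by positivity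
  have h5 : (P.n : ℝ) + 2 ≠ 0 := by positivity
  have h6 : (m : ℝ) + 1 + g + 1 ≠ 0 := by positivity
  field_simp
  ring

theorem L_cr_le {P : Par} {C : Cst} {L : (St → ℝ) →ₗ[ℝ] ℝ} (hG : Good P C) (hL : ConeA P C L)
    (m g : ℕ) (hm : m ≤ P.n + 1) :
    L (cr P m g) ≤ (Bd P C m g - Bd P C (m + 1) g) * om P ^ (m + 1) *
      (L (dl .F) + L (dl .M)) := by
  obtain ⟨hI0, hM0, hF0, hIY⟩ := SA3_basic hG hL
  have hom := om_pos hG
  have hom1 := om_le_one hG
  set A : ℝ := P.q * P.tau * ∑ l ∈ range (P.n + 1), (if m + g ≤ l + 1 then dW (l + 1) g else 0)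
    with hA
  set B : ℝ := P.al * (if m + g ≤ P.n + 1 then dW (P.n + 1) g else 0) with hB
  have hcr : cr P m g = A • dl .I + B • dl .M := by
    funext s
    rcases s with _ | _ | _ | _ | r | r | ⟨m', g', s⟩ | ⟨g', s⟩ | s <;>
      simp only [cr, dl, Pi.add_apply, Pi.smul_apply, smul_eq_mul] <;> simp
    · exact hA.symm
    · rw [hB]; split_ifs <;> simp
  rw [hcr, map_add, map_smul, map_smul, smul_eq_mul, smul_eq_mul]
  have hY : 0 ≤ L (dl .F) + L (dl .M) := by linarith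
  have hpow : om P ^ (P.n + 2) ≤ om P ^ (m + 1) :=
    pow_le_pow_of_le_one hom.le hom1 (by omega)
  have hq : 0 ≤ P.q * P.tau := mul_nonneg hG.q0.le hG.tau0
  have hmg : (0:ℝ) < ((m : ℝ) + g + 1) * ((m : ℝ) + g + 2) := by positivity
  -- the part from `I`
  have hA1 : A * L (dl .I) ≤
      C.K1 * ((g : ℝ) + 1) / (((m : ℝ) + g + 1) * ((m : ℝ) + g + 2)) * om P ^ (m + 1) *
        (L (dl .F) + L (dl .M)) := by
    have hs := sum_dW_le P.n (m + g) g
    push_cast at hs
    have h1 : A ≤ P.q * P.tau * (3 * ((g : ℝ) + 1) / (((m : ℝ) + g + 1) * ((m : ℝ) + g + 2))) :=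
      mul_le_mul_of_nonneg_left hs hq
    have h2 : 0 ≤ P.q * P.tau * (3 * ((g : ℝ) + 1) / (((m : ℝ) + g + 1) * ((m : ℝ) + g + 2))) :=
      mul_nonneg hq (by positivity)
    have h3 : A * L (dl .I) ≤
        P.q * P.tau * (3 * ((g : ℝ) + 1) / (((m : ℝ) + g + 1) * ((m : ℝ) + g + 2))) *
          (C.Ca * (L (dl .F) + L (dl .M))) :=
      (mul_le_mul_of_nonneg_right h1 hI0).trans (mul_le_mul_of_nonneg_left hIY h2)
    refine h3.trans ?_
    have h4 : 3 * P.q * P.tau * C.Ca ≤ C.K1 * om P ^ (m + 1) :=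
      hG.g3.trans (mul_le_mul_of_nonneg_left hpow hG.K10)
    have h5 : (0:ℝ) ≤ ((g : ℝ) + 1) / (((m : ℝ) + g + 1) * ((m : ℝ) + g + 2)) := by positivity
    calc P.q * P.tau * (3 * ((g : ℝ) + 1) / (((m : ℝ) + g + 1) * ((m : ℝ) + g + 2))) *
          (C.Ca * (L (dl .F) + L (dl .M)))
        = 3 * P.q * P.tau * C.Ca * (((g : ℝ) + 1) / (((m : ℝ) + g + 1) * ((m : ℝ) + g + 2))) *
            (L (dl .F) + L (dl .M)) := by ring
      _ ≤ C.K1 * om P ^ (m + 1) * (((g : ℝ) + 1) / (((m : ℝ) + g + 1) * ((m : ℝ) + g + 2))) *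
            (L (dl .F) + L (dl .M)) :=
          mul_le_mul_of_nonneg_right (mul_le_mul_of_nonneg_right h4 h5) hY
      _ = _ := by ring
  -- the part from `M`
  have hB1 : B * L (dl .M) ≤ C.K2 / ((P.n : ℝ) + 2) * om P ^ (m + 1) *
        (L (dl .F) + L (dl .M)) := by
    have h1 : B ≤ C.K2 / ((P.n : ℝ) + 2) * om P ^ (m + 1) := by
      have h0 : 0 ≤ C.K2 / ((P.n : ℝ) + 2) * om P ^ (m + 1) := by
        have := hG.K20
        positivity
      rw [hB]
      split_ifs with hc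
      · have hd := dW_top_le P.n g (by omega)
        have h2 : P.al * dW (P.n + 1) g ≤ P.al * (6 / (((P.n : ℝ) + 3) * ((P.n : ℝ) + 4))) :=
          mul_le_mul_of_nonneg_left hd hG.al0
        refine h2.trans ?_
        have h3 : 6 * P.al ≤ C.K2 * om P ^ (m + 1) * ((P.n : ℝ) + 2) :=
          hG.g4.trans (mul_le_mul_of_nonneg_right
            (mul_le_mul_of_nonneg_left hpow hG.K20) (by positivity))
        have h4 : (0:ℝ) ≤ C.K2 * om P ^ (m + 1) := mul_nonneg hG.K20 (pow_nonneg hom.le _)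
        rw [← mul_div_assoc, div_mul_eq_mul_div, div_le_div_iff₀ (by positivity) (by positivity)]
        have h5 : (P.al * 6) * ((P.n : ℝ) + 2) ≤
            (C.K2 * om P ^ (m + 1) * ((P.n : ℝ) + 2)) * ((P.n : ℝ) + 2) :=
          mul_le_mul_of_nonneg_right (by linarith) (by positivity)
        refine h5.trans ?_
        rw [mul_assoc]
        refine mul_le_mul_of_nonneg_left ?_ h4
        have : (0:ℝ) ≤ P.n := by positivity
        nlinarith
      · simpa using h0
    have h0 : 0 ≤ C.K2 / ((P.n : ℝ) + 2) * om P ^ (m + 1) := by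
      have := hG.K20
      positivity
    refine (mul_le_mul_of_nonneg_right h1 hM0).trans (mul_le_mul_of_nonneg_left ?_ h0)
    linarith
  rw [Bd_diff P C g hm]
  have := add_le_add hA1 hB1
  refine this.trans (le_of_eq ?_)
  ring

theorem kd_le {P : Par} {C : Cst} {L : (St → ℝ) →ₗ[ℝ] ℝ} (hG : Good P C) (hL : ConeA P C L)
    (g : ℕ) : L (kd P g) ≤ Bd P C 0 g * om P * (L (dl .F) + L (dl .M)) := by
  have h : kd P g = dV 0 g + cr P 0 g := by
    funext s
    rcases s with _ | _ | _ | _ | r | r | ⟨m', g', s⟩ | ⟨g', s⟩ | s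
    · simp [kd, dV, cr]
    · simp [kd, dV, cr]
    · simp [kd, dV, cr]
    · simp [kd, dV, cr]
    · simp [kd, dV, cr]
    · simp [kd, dV, cr]
    · cases m' <;> simp [kd, dV, cr]
    · simp [kd, dV, cr]
    · simp [kd, dV, cr]
  rw [h, map_add]
  have h1 := hL.j3 0 g
  have h2 := L_cr_le hG hL 0 g (by omega)
  simp only [zero_add, pow_one] at h1 h2
  nlinarith

/-- `w * Y ≤ Y'` -/
theorem Y_next {P : Par} {C : Cst} {L : (St → ℝ) →ₗ[ℝ] ℝ} (hG : Good P C) (hL : ConeA P C L) :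
    om P * (L (dl .F) + L (dl .M)) ≤ L (Ps P (dl .F)) + L (Ps P (dl .M)) := by
  have hF : om P * L (dl .F) ≤ L (Ps P (dl .F)) := by
    have h : L (om P • dl .F) ≤ L (Ps P (dl .F)) := by
      apply hL.mono
      intro s _ _
      rcases s with _ | _ | _ | _ | r | r | ⟨m', g', s⟩ | ⟨g', s⟩ | s
      · simp [Ps, dl, winS]
      · simp [Ps, dl, winS]
      · simp only [Ps, dl, om, Pi.smul_apply, smul_eq_mul]
        have h1 : 0 ≤ 1 - P.al := by linarith [hG.al1]
        have h2 : 1 - P.c2 ≤ 1 - P.c1 := by linarith [hG.c12]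
        simpa using mul_le_mul_of_nonneg_left h2 h1
      · simp [Ps, dl]
      · cases r <;> simp [Ps, dl]
      · simp [Ps, dl]
      · cases m' <;> simp [Ps, dl]
      · simp [Ps, dl]
      · cases s <;> simp [Ps, dl]
    simpa using h
  have hM : om P * L (dl .M) ≤ L (Ps P (dl .M)) := by
    have h : L (om P • dl .M) ≤ L (Ps P (dl .M)) := by
      apply hL.mono
      intro s _ _
      rcases s with _ | _ | _ | _ | r | r | ⟨m', g', s⟩ | ⟨g', s⟩ | s
      · simp only [Ps, dl, winS, Pi.smul_apply, smul_eq_mul]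
        have := hG.q0
        have h1 : 0 ≤ 1 - P.tau * (P.n + 1) := by linarith [hG.tau1]
        simpa using mul_nonneg this.le h1
      · simp [Ps, dl, winS, om]
      · simp [Ps, dl]
      · simp [Ps, dl]
      · cases r <;> simp [Ps, dl]
      · simp [Ps, dl]
      · cases m' <;> simp [Ps, dl]
      · simp [Ps, dl]
      · cases s <;> simp [Ps, dl]
    simpa using h
  rw [mul_add]
  exact add_le_add hF hM

theorem Ps_dV (P : Par) (m g : ℕ) (s : St) (hs : Alw P.n s) :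
    Ps P (dV m g) s = dV (m + 1) g s + cr P (m + 1) g s := by
  rcases s with _ | _ | _ | _ | r | r | ⟨m', g', s⟩ | ⟨g', s⟩ | s
  · simp only [Ps, cr, dV, SA3_winS]
    simp only [mul_zero, zero_add, zero_add]
    congr 1
    refine Finset.sum_congr rfl fun l _ => ?_
    by_cases h : m + g ≤ l
    · rw [if_pos h, if_pos (by omega)]
    · rw [if_neg h, if_neg (by omega)]
  · simp only [Ps, cr, dV, SA3_winS]
    simp only [mul_zero, zero_add]
    congr 1
    by_cases h : m + g ≤ P.n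
    · rw [if_pos h, if_pos (by omega)]
    · rw [if_neg h, if_neg (by omega)]
  · simp [Ps, cr, dV]
  · simp [Ps, cr, dV]
  · cases r <;> simp [Ps, cr, dV]
  · simp [Ps, cr, dV]
  · cases m' <;> simp [Ps, cr, dV]
  · simp [Ps, cr, dV]
  · cases s <;> simp [Ps, cr, dV]

theorem j3_s {P : Par} {C : Cst} {L : (St → ℝ) →ₗ[ℝ] ℝ} (hG : Good P C) (hL : ConeA P C L) :
    ∀ m g, L (Ps P (dV m g)) ≤
      Bd P C (m + 1) g * om P ^ (m + 1) * (L (Ps P (dl .F)) + L (Ps P (dl .M))) := by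
  intro m g
  obtain ⟨hI0, hM0, hF0, hIY⟩ := SA3_basic hG hL
  have hom := om_pos hG
  have hY := Y_next hG hL
  have hY0 : 0 ≤ om P * (L (dl .F) + L (dl .M)) := mul_nonneg hom.le (by linarith)
  have hB0 : 0 ≤ Bd P C (m + 1) g := SA3_Bd_nonneg hG _ _
  rcases Nat.lt_or_ge P.n m with hm | hm
  · have h0 : L (Ps P (dV m g)) = L 0 := by
      apply hL.congr
      intro s hs _
      rw [Ps_dV P m g s hs]
      rcases s with _ | _ | _ | _ | r | r | ⟨m', g', s⟩ | ⟨g', s⟩ | s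
      · simp only [dV, cr, Pi.zero_apply, zero_add]
        rw [Finset.sum_eq_zero, mul_zero]
        intro l hl
        rw [if_neg]
        have := Finset.mem_range.1 hl
        omega
      · simp only [dV, cr, Pi.zero_apply, zero_add]
        rw [if_neg (by omega), mul_zero]
      · simp [dV, cr]
      · simp [dV, cr]
      · simp [dV, cr]
      · simp [dV, cr]
      · simp only [Alw] at hs
        simp only [dV, cr, Pi.zero_apply, add_zero]
        rw [if_neg (by omega)]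
      · simp [dV, cr]
      · simp [dV, cr]
    rw [h0, map_zero]
    exact mul_nonneg (mul_nonneg hB0 (pow_nonneg hom.le _)) (hY0.trans hY)
  · have h0 : L (Ps P (dV m g)) = L (dV (m + 1) g + cr P (m + 1) g) := by
      apply hL.congr
      intro s hs _
      rw [Ps_dV P m g s hs]; rfl
    rw [h0, map_add]
    have h1 := hL.j3 (m + 1) g
    have h2 := L_cr_le hG hL (m + 1) g (by omega)
    calc L (dV (m + 1) g) + L (cr P (m + 1) g)
        ≤ Bd P C (m + 1 + 1) g * om P ^ (m + 1 + 1) * (L (dl .F) + L (dl .M)) +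
          (Bd P C (m + 1) g - Bd P C (m + 1 + 1) g) * om P ^ (m + 1 + 1) *
            (L (dl .F) + L (dl .M)) := add_le_add h1 h2
      _ = Bd P C (m + 1) g * om P ^ (m + 1) * (om P * (L (dl .F) + L (dl .M))) := by ring
      _ ≤ _ := mul_le_mul_of_nonneg_left hY (mul_nonneg hB0 (pow_nonneg hom.le _))

theorem Bd_nonneg {P : Par} {C : Cst} (hG : Good P C) (m g : ℕ) : 0 ≤ Bd P C m g := by
  exact SA3_Bd_nonneg hG m g

theorem Bd_zero_le {P : Par} {C : Cst} (hG : Good P C) (g : ℕ) : Bd P C 0 g ≤ C.K1 + C.K2 := by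
  unfold Bd
  have h1 : ((0 : ℕ) : ℝ) + g + 1 ≠ 0 := by positivity
  have h2 : (P.n : ℝ) + 2 ≠ 0 := by positivity
  have h3 : (((P.n + 2 - 0 : ℕ)) : ℝ) = (P.n : ℝ) + 2 := by push_cast; simp
  rw [h3]
  apply le_of_eq
  push_cast
  rw [zero_add, mul_div_assoc, mul_div_assoc, div_self h2, div_self (by positivity)]
  ring

/-- `Pu` produces no state `V` -/
theorem j3_u {P : Par} {C : Cst} {L : (St → ℝ) →ₗ[ℝ] ℝ} (hG : Good P C) (hL : ConeA P C L) :
    ∀ m g, L (Pu P (dV m g)) ≤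
      Bd P C (m + 1) g * om P ^ (m + 1) * (L (Pu P (dl .F)) + L (Pu P (dl .M))) := by
  intro m g
  have h0 : L (Pu P (dV m g)) = L 0 := by
    apply hL.congr
    intro s _ _
    exact SA3_Pu_dV P m g s
  rw [h0, map_zero]
  have h1 : 0 ≤ L (Pu P (dl .F)) := hL.pos _ fun s _ _ => SA3_Pu_F hG s
  have h2 : 0 ≤ L (Pu P (dl .M)) := hL.pos _ fun s _ _ => SA3_Pu_M hG s
  exact mul_nonneg (mul_nonneg (SA3_Bd_nonneg hG _ _) (pow_nonneg (om_pos hG).le _))
    (add_nonneg h1 h2)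

theorem j3_ud {P : Par} {C : Cst} {L : (St → ℝ) →ₗ[ℝ] ℝ} (hG : Good P C) (hL : ConeD P C L) :
    ∀ m g, L (Pu P (dV m g)) ≤
      Bd P C (m + 1) g * om P ^ (m + 1) * (L (Pu P (dl .F)) + L (Pu P (dl .M))) := by
  intro m g
  have h0 : L (Pu P (dV m g)) = L 0 := by
    apply hL.congr
    intro s _ _
    exact SA3_Pu_dV P m g s
  rw [h0, map_zero]
  have h1 : 0 ≤ L (Pu P (dl .F)) := hL.pos _ fun s _ _ => SA3_Pu_F hG s
  have h2 : 0 ≤ L (Pu P (dl .M)) := hL.pos _ fun s _ _ => SA3_Pu_M hG s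
  exact mul_nonneg (mul_nonneg (SA3_Bd_nonneg hG _ _) (pow_nonneg (om_pos hG).le _))
    (add_nonneg h1 h2)

end H50CP
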