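import Pool.Agent.H50.CP.SA2
import Pool.Agent.H50.CP.SA3

/-!
# SA4: the inequality `I + wS ≤ Ca (F + M)` and the quantities after a reinfection

* `Ps (dl I + wS)` equals `1-q` at `I`, `1-c1` at `cF 0`, `om * wS` at the states `S` and 0 elsewhere
  (alive states), hence `L(Ps(dl I + wS)) = (1-q) I + (1-c1) cF0 + om * wS`.
  `L(Ps(dl F + dl M)) = (1-al)(1-c1) F + om M + q (1 - tau (n+1)) I`.
  From `hL.j2` multiplied by `om`, `g1` multiplied by `I ≥ 0`, `g2` and `j1` (`cF0 ≤ th 0 * F`).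
* after a recovery + reinfection: `Pu (dl I + wS) ≤ c1 * dl (cF 0) + kd 0 / om^(n+1)` pointwise on
  allowed alive states (`nx s` has weight `1/om^s ≤ 1/om^(n+1)`), so by `kd_le`, `j1`:
  `L(..) ≤ (c1 th0 + (K1+K2) om / om^(n+1)) Y`, while `L(Pu(dl F)) ≥ (1-al) b c1 Y`; use `g6`.
* from healthy states: `Pu (dl I + wS) ≤ dl (cO 0) + dWg 0 / om^(n+1)`, and `z1`, `z2`, `g8`.
-/

namespace H50CP

open Finset

private theorem sa4_dW_nonneg (L g : ℕ) : 0 ≤ dW L g := by
  unfold dW; positivity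

private theorem sa4_winS_dlI (l : ℕ) : winS l (dl .I) = 0 := by
  unfold winS
  refine Finset.sum_eq_zero fun p _ => Finset.sum_eq_zero fun t _ => ?_
  simp [dl]

private theorem sa4_winS_wS (P : Par) (l : ℕ) : winS l (wS P) = 0 := by
  unfold winS
  refine Finset.sum_eq_zero fun p _ => Finset.sum_eq_zero fun t _ => ?_
  simp [wS]

private theorem sa4_winS_dlM (l : ℕ) : winS l (dl .M) = 0 := by
  unfold winS
  refine Finset.sum_eq_zero fun p _ => Finset.sum_eq_zero fun t _ => ?_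
  simp [dl]

private theorem sa4_pow {P : Par} {C : Cst} (hG : Good P C) {s : ℕ} (h : s ≤ P.n + 1) :
    1 / om P ^ s ≤ 1 / om P ^ (P.n + 1) := by
  have h0 := om_pos hG
  have h1 := om_le_one hG
  refine one_div_le_one_div_of_le (by positivity) ?_
  exact pow_le_pow_of_le_one h0.le h1 h

private theorem sa4_nx {P : Par} {C : Cst} (hG : Good P C) {s : ℕ} (h : s ≤ P.n) :
    dl .I (nx s) + wS P (nx s) ≤ 1 / om P ^ (P.n + 1) := by
  cases s with
  | zero =>
    have := sa4_pow hG (s := 0) (by omega)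
    simp only [nx, dl, wS, if_true, add_zero]
    simpa using this
  | succ s =>
    have := sa4_pow hG (s := s + 1) (by omega)
    simp only [nx, dl, wS]
    simpa using this

theorem j2_s {P : Par} {C : Cst} {L : (St → ℝ) →ₗ[ℝ] ℝ} (hG : Good P C) (hL : ConeA P C L) :
    L (Ps P (dl .I)) + L (Ps P (wS P)) ≤ C.Ca * (L (Ps P (dl .F)) + L (Ps P (dl .M))) := by
  have hom := om_pos hG
  have e1 : L (Ps P (dl .I)) + L (Ps P (wS P)) =
      (1 - P.q) * L (dl .I) + (1 - P.c1) * L (dl (.cF 0)) + om P * L (wS P) := by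
    rw [← map_add, ← smul_eq_mul, ← smul_eq_mul, ← smul_eq_mul, ← map_smul, ← map_smul,
      ← map_smul, ← map_add, ← map_add]
    refine hL.congr fun s _ hz => ?_
    simp only [Pi.add_apply, Pi.smul_apply, smul_eq_mul]
    rcases s with _ | _ | _ | _ | r | r | ⟨m, g, s⟩ | ⟨g, s⟩ | s
    · simp [Ps, sa4_winS_dlI, sa4_winS_wS, dl, wS]
    · simp [Ps, sa4_winS_dlI, sa4_winS_wS, dl, wS]
    · simp [Ps, dl, wS]
    · simp [St.z] at hz
    · cases r <;> simp [Ps, dl, wS]
    · simp [St.z] at hz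
    · cases m <;> simp [Ps, dl, wS]
    · simp [St.z] at hz
    · cases s with
      | zero => simp [Ps, dl, wS]; field_simp
      | succ s =>
        simp only [Ps, dl, wS]
        simp
        rw [pow_succ (om P) (s + 1)]
        field_simp
  have e2 := L_Ps_F (P := P) hL
  have e3 : L (Ps P (dl .M)) = P.q * (1 - P.tau * (P.n + 1)) * L (dl .I) + om P * L (dl .M) := by
    rw [← smul_eq_mul (P.q * (1 - P.tau * (P.n + 1))), ← smul_eq_mul (om P), ← map_smul,
      ← map_smul, ← map_add]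
    refine hL.congr fun s _ hz => ?_
    simp only [Pi.add_apply, Pi.smul_apply, smul_eq_mul]
    rcases s with _ | _ | _ | _ | r | r | ⟨m, g, s⟩ | ⟨g, s⟩ | s
    · simp [Ps, sa4_winS_dlM, dl]
    · simp [Ps, sa4_winS_dlM, dl, om]
    · simp [Ps, dl]
    · simp [St.z] at hz
    · cases r <;> simp [Ps, dl]
    · simp [St.z] at hz
    · cases m <;> simp [Ps, dl]
    · simp [St.z] at hz
    · cases s <;> simp [Ps, dl]
  have hI := L_F_nonneg hL .I
  have hF := L_F_nonneg hL .F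
  have hM := L_F_nonneg hL .M
  have j1 := hL.j1 0 (Nat.zero_le _)
  have j2 := hL.j2
  have hc1 : 0 < 1 - P.c1 := by linarith [hG.c12, hG.c2lt]
  have a1 := mul_le_mul_of_nonneg_left j2 hom.le
  have a2 := mul_le_mul_of_nonneg_right hG.g1 hI
  have a3 := mul_le_mul_of_nonneg_left j1 hc1.le
  have a4 := mul_le_mul_of_nonneg_right hG.g2 hF
  have homd : om P = (1 - P.al) * (1 - P.c2) := rfl
  rw [e1, e2, e3]
  have e4 : C.Ca * ((1 - P.al) * (1 - P.c1) * L (dl .F) +
      (P.q * (1 - P.tau * (P.n + 1)) * L (dl .I) + om P * L (dl .M))) =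
      om P * (C.Ca * (L (dl .F) + L (dl .M))) +
      C.Ca * P.q * (1 - P.tau * (P.n + 1)) * L (dl .I) +
      C.Ca * (1 - P.al) * (P.c2 - P.c1) * L (dl .F) := by
    rw [homd]; ring
  rw [e4]
  have e5 : (1 - P.c1) * (th P 0 * L (dl .F)) = th P 0 * (1 - P.c1) * L (dl .F) := by ring
  nlinarith [a1, a2, a3, a4, e5]

/-- mass of `I` and weighted mass of `S` after recovery and reinfection -/
theorem up_mass {P : Par} {C : Cst} {L : (St → ℝ) →ₗ[ℝ] ℝ} (hG : Good P C) (hL : ConeA P C L) :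
    L (Pu P (dl .I)) + L (Pu P (wS P)) ≤
      (P.c1 * th P 0 + (C.K1 + C.K2) * om P / om P ^ (P.n + 1)) * (L (dl .F) + L (dl .M)) := by
  have hom := om_pos hG
  have hc1 : 0 ≤ P.c1 := by linarith [hG.q0, hG.qc1]
  have e1 : L (Pu P (dl .I)) + L (Pu P (wS P)) ≤
      P.c1 * L (dl (.cF 0)) + (1 / om P ^ (P.n + 1)) * L (kd P 0) := by
    rw [← map_add, ← smul_eq_mul P.c1, ← smul_eq_mul (1 / om P ^ (P.n + 1)), ← map_smul,
      ← map_smul, ← map_add]
    refine hL.mono fun s hs hz => ?_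
    simp only [Pi.add_apply, Pi.smul_apply, smul_eq_mul]
    have hp : 0 ≤ 1 / om P ^ (P.n + 1) := by positivity
    rcases s with _ | _ | _ | _ | r | r | ⟨m, g, s⟩ | ⟨g, s⟩ | s
    · -- I
      have h1 : Pu P (dl .I) .I + Pu P (wS P) .I =
          P.q * P.tau * ∑ l ∈ range (P.n + 1), dW (l + 1) 0 * (1 / om P ^ (l + 1)) := by
        simp [Pu, winU, dl, wS]
      have h2 : P.c1 * dl (.cF 0) .I + (1 / om P ^ (P.n + 1)) * kd P 0 .I =
          P.q * P.tau * ∑ l ∈ range (P.n + 1), dW (l + 1) 0 * (1 / om P ^ (P.n + 1)) := by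
        simp only [kd, dl]
        rw [← Finset.sum_mul]
        simp
        ring
      rw [h1, h2]
      refine mul_le_mul_of_nonneg_left ?_ (mul_nonneg hG.q0.le hG.tau0)
      refine Finset.sum_le_sum fun l hl => ?_
      exact mul_le_mul_of_nonneg_left (sa4_pow hG (by have := Finset.mem_range.1 hl; omega))
        (sa4_dW_nonneg _ _)
    · have h1 : Pu P (dl .I) .M + Pu P (wS P) .M =
          P.al * (dW (P.n + 1) 0 * (1 / om P ^ (P.n + 1))) := by
        simp [Pu, winU, dl, wS]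
      have h2 : P.c1 * dl (.cF 0) .M + (1 / om P ^ (P.n + 1)) * kd P 0 .M =
          P.al * (dW (P.n + 1) 0 * (1 / om P ^ (P.n + 1))) := by
        simp [kd, dl]
        ring
      rw [h1, h2]
    · simp [Pu, dl, wS, kd]
    · simp [St.z] at hz
    · cases r <;> simp [Pu, dl, wS, kd]
    · simp [St.z] at hz
    · rcases m with _ | m
      · rcases g with _ | g
        · have hs' : s ≤ P.n := by simpa [Alw] using hs
          have := sa4_nx hG hs'
          have h1 : Pu P (dl .I) (.V 0 0 s) + Pu P (wS P) (.V 0 0 s) =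
              dl .I (nx s) + wS P (nx s) := by simp [Pu]
          have h2 : P.c1 * dl (.cF 0) (.V 0 0 s) + (1 / om P ^ (P.n + 1)) * kd P 0 (.V 0 0 s) =
              1 / om P ^ (P.n + 1) := by simp [kd, dl]
          rw [h1, h2]; exact this
        · simp [Pu, dl, kd]
      · simp [Pu, dl, kd]
    · simp [St.z] at hz
    · simp [Pu, dl, kd]
  have hF := L_F_nonneg hL .F
  have hM := L_F_nonneg hL .M
  have j1 := hL.j1 0 (Nat.zero_le _)
  have k1 := kd_le hG hL 0
  have k2 := Bd_zero_le (P := P) hG 0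
  have t0 := th_nonneg hG 0
  have hp : 0 ≤ 1 / om P ^ (P.n + 1) := by positivity
  have b1 : P.c1 * L (dl (.cF 0)) ≤ P.c1 * th P 0 * (L (dl .F) + L (dl .M)) := by
    have c1 := mul_le_mul_of_nonneg_left j1 hc1
    have c2 : 0 ≤ P.c1 * th P 0 * L (dl .M) := mul_nonneg (mul_nonneg hc1 t0) hM
    nlinarith [c1, c2]
  have b2 : (1 / om P ^ (P.n + 1)) * L (kd P 0) ≤
      (C.K1 + C.K2) * om P / om P ^ (P.n + 1) * (L (dl .F) + L (dl .M)) := by
    have c1 : L (kd P 0) ≤ (C.K1 + C.K2) * om P * (L (dl .F) + L (dl .M)) := by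
      refine k1.trans ?_
      refine mul_le_mul_of_nonneg_right ?_ (add_nonneg hF hM)
      exact mul_le_mul_of_nonneg_right k2 hom.le
    have c2 := mul_le_mul_of_nonneg_left c1 hp
    have c3 : (1 / om P ^ (P.n + 1)) * ((C.K1 + C.K2) * om P * (L (dl .F) + L (dl .M))) =
        (C.K1 + C.K2) * om P / om P ^ (P.n + 1) * (L (dl .F) + L (dl .M)) := by ring
    rw [c3] at c2
    exact c2
  rw [add_mul]
  linarith

theorem up_F {P : Par} {C : Cst} {L : (St → ℝ) →ₗ[ℝ] ℝ} (hG : Good P C) (hL : ConeA P C L) :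
    (1 - P.al) * P.b * P.c1 * (L (dl .F) + L (dl .M)) ≤ L (Pu P (dl .F)) := by
  rw [L_Pu_F hL]
  have hM := L_F_nonneg hL .M
  have h1 : 0 ≤ (1 - P.al) * P.b := mul_nonneg (by linarith [hG.al1]) hG.b0
  have h2 : 0 ≤ (P.c2 - P.c1) * L (dl .M) := mul_nonneg (by linarith [hG.c12]) hM
  have h3 := mul_nonneg h1 h2
  nlinarith [h3]

/-- mass of `I` and weighted mass of `S` after an infection of a healthy site -/
theorem up_massD {P : Par} {C : Cst} {L : (St → ℝ) →ₗ[ℝ] ℝ} (hG : Good P C) (hL : ConeD P C L) :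
    L (Pu P (dl .I)) + L (Pu P (wS P)) ≤
      (th P 0 + kap P C 0 / om P ^ (P.n + 1)) * L (dl .O) := by
  have hom := om_pos hG
  have e1 : L (Pu P (dl .I)) + L (Pu P (wS P)) ≤
      L (dl (.cO 0)) + (1 / om P ^ (P.n + 1)) * L (dWg 0) := by
    rw [← map_add, ← smul_eq_mul (1 / om P ^ (P.n + 1)), ← map_smul, ← map_add]
    refine hL.mono fun s hs hz => ?_
    simp only [Pi.add_apply, Pi.smul_apply, smul_eq_mul]
    rcases s with _ | _ | _ | _ | r | r | ⟨m, g, s⟩ | ⟨g, s⟩ | s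
    · simp [St.z] at hz
    · simp [St.z] at hz
    · simp [St.z] at hz
    · simp [Pu, dl, wS, dWg]
    · simp [St.z] at hz
    · cases r <;> simp [Pu, dl, wS, dWg]
    · simp [St.z] at hz
    · rcases g with _ | g
      · have hs' : s ≤ P.n := by simpa [Alw] using hs
        have := sa4_nx hG hs'
        have h1 : Pu P (dl .I) (.W 0 s) + Pu P (wS P) (.W 0 s) =
            dl .I (nx s) + wS P (nx s) := by simp [Pu]
        have h2 : dl (.cO 0) (.W 0 s) + (1 / om P ^ (P.n + 1)) * dWg 0 (.W 0 s) =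
            1 / om P ^ (P.n + 1) := by simp [dWg, dl]
        rw [h1, h2]; exact this
      · simp [Pu, dl, dWg]
    · simp [St.z] at hz
  have hO := LD_F_nonneg hL .O
  have z1 := hL.z1 0 (Nat.zero_le _)
  have z2 := hL.z2 0 (Nat.zero_le _)
  have hp : 0 ≤ 1 / om P ^ (P.n + 1) := by positivity
  have b2 := mul_le_mul_of_nonneg_left z2 hp
  have c3 : (1 / om P ^ (P.n + 1)) * (kap P C 0 * L (dl .O)) =
      kap P C 0 / om P ^ (P.n + 1) * L (dl .O) := by ring
  rw [c3] at b2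
  rw [add_mul]
  linarith

private theorem sa4_M {P : Par} (s : St) : 0 ≤ Pu P (dl .M) s := by
  have h0 : Pu P (dl .M) s = 0 := by
    rcases s with _ | _ | _ | _ | r | r | ⟨m, g, s⟩ | ⟨g, s⟩ | s
    · simp [Pu, winU, dl]
    · simp [Pu, winU, dl]
    · simp [Pu, dl]
    · simp [Pu, dl]
    · cases r <;> simp [Pu, dl]
    · cases r <;> simp [Pu, dl]
    · rcases m with _ | m
      · rcases g with _ | g
        · cases s <;> simp [Pu, dl, nx]
        · simp [Pu]
      · simp [Pu]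
    · rcases g with _ | g
      · cases s <;> simp [Pu, dl, nx]
      · simp [Pu]
    · simp [Pu]
  exact h0.ge

theorem j2_u {P : Par} {C : Cst} {L : (St → ℝ) →ₗ[ℝ] ℝ} (hG : Good P C) (hL : ConeA P C L) :
    L (Pu P (dl .I)) + L (Pu P (wS P)) ≤ C.Ca * (L (Pu P (dl .F)) + L (Pu P (dl .M))) := by
  have h1 := up_mass hG hL
  have h2 := up_F hG hL
  have hF := L_F_nonneg hL .F
  have hM := L_F_nonneg hL .M
  have h3 := mul_le_mul_of_nonneg_right hG.g6 (add_nonneg hF hM)
  have h4 := mul_le_mul_of_nonneg_left h2 hG.Ca0.le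
  have h5 : 0 ≤ L (Pu P (dl .M)) := hL.pos _ fun s _ _ => sa4_M s
  have h6 := mul_nonneg hG.Ca0.le h5
  have h7 : C.Ca * ((1 - P.al) * P.b * P.c1 * (L (dl .F) + L (dl .M))) =
      C.Ca * (1 - P.al) * P.b * P.c1 * (L (dl .F) + L (dl .M)) := by ring
  rw [mul_add]
  linarith

theorem j2_ud {P : Par} {C : Cst} {L : (St → ℝ) →ₗ[ℝ] ℝ} (hG : Good P C) (hL : ConeD P C L) :
    L (Pu P (dl .I)) + L (Pu P (wS P)) ≤ C.Ca * (L (Pu P (dl .F)) + L (Pu P (dl .M))) := by
  have h1 := up_massD hG hL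
  have h2 := LD_Pu_F (P := P) hL
  have hO := LD_F_nonneg hL .O
  have h3 := mul_le_mul_of_nonneg_right hG.g8 hO
  have h5 : 0 ≤ L (Pu P (dl .M)) := hL.pos _ fun s _ _ => sa4_M s
  have h6 := mul_nonneg hG.Ca0.le h5
  have h7 : C.Ca * ((1 - P.al) * P.b * L (dl .O)) =
      C.Ca * (1 - P.al) * P.b * L (dl .O) := by ring
  rw [mul_add, h2]
  linarith

end H50CP
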