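import Pool.Agent.H50.CP.SA1
import Pool.Agent.H50.CP.SA4

/-!
# SA5: invariance of `j4` and `j5`

For `φ` supported on `M`, `V` put `X(φ) := L(Ps φ) - (1-q) L φ` (so `hL.j4` says `X ≥ 0` on
nonnegative such `φ`).  `Ps φ` is supported on `M`, `V`, `I`; write
`Ps φ = φ' + (Ps φ)(I) * dl I` with `φ' = (Ps φ)` restricted to `isX`.  Then
`L(Ps(Ps φ)) - (1-q) L(Ps φ) = X(φ') + (Ps φ)(I) * (L(Ps(dl I)) - (1-q) L(dl I))` and
`L(Ps(dl I)) - (1-q) L (dl I) = (1-c1) L(dl (cF 0)) + L(dl (S 0)) ≥ 0`.   This is `j4_s`.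

`j5_s`: for `φ = psi`: `φ' ≤ (om + al / om^(n+1)) * psi` pointwise on allowed states (at `M`:
`om + al * winS n psi` and `winS n psi ≤ 1/om^(n+1)` since `m ≤ n` and the weights sum to `≤ 1`;
at `V (m+1)`: `1/om^(m+1) = om * psi`; at `V 0`: 0), `(Ps psi)(I) ≤ q / om^(n+1)`, and
`Ps (wS)` = `om * wS - dl (S 0)` on alive states.  So with `T := X(psi) + q/om^(n+1) * L(wS)`,
`T' ≤ (om + al/om^(n+1)) T + q/om^(n+1) (1-c1) th0 * F ≤ (c1-q) (1-al)(1-c1) F` by `hL.j5`, `g5`.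

`j4_u`, `j5_u` (and the versions from healthy states): `Pu φ = 0` for `φ` supported on `isX`;
`L(Pu(Ps psi)) = (Ps psi)(I) * L(Pu(dl I))`, use `up_mass`, `up_F`, `g7` (resp. `up_massD`, `g9`).
-/

namespace H50CP

open Finset

/-- restriction to the states `M`, `V` -/
noncomputable def SA5_res (φ : St → ℝ) : St → ℝ := fun s => if isX s = true then φ s else 0

theorem SA5_winS_zero (l : ℕ) (φ : St → ℝ) (h : ∀ m g s, φ (.V m g s) = 0) : winS l φ = 0 := by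
  unfold winS
  refine Finset.sum_eq_zero fun p _ => Finset.sum_eq_zero fun t _ => ?_
  rw [h]; ring

theorem SA5_winS_nonneg (l : ℕ) (φ : St → ℝ) (h : ∀ s, 0 ≤ φ s) : 0 ≤ winS l φ := by
  unfold winS
  refine Finset.sum_nonneg fun p _ => Finset.sum_nonneg fun t _ => ?_
  exact mul_nonneg (dW_nonneg _ _) (h _)

theorem SA5_winS_one (l : ℕ) : winS l (fun _ => 1) ≤ 1 := by
  have h := win_total l
  have h1 : 0 ≤ winU l (fun _ => 1) := by
    unfold winU
    exact mul_nonneg (dW_nonneg _ _) zero_le_one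
  have h2 : 0 ≤ winD l (fun _ => 1) := by
    unfold winD
    exact Finset.sum_nonneg fun p _ => mul_nonneg (dW_nonneg _ _) zero_le_one
  linarith

theorem SA5_winS_psi {P : Par} {C : Cst} (hG : Good P C) {l : ℕ} (hl : l ≤ P.n) :
    winS l (psi P) ≤ 1 / om P ^ (P.n + 1) := by
  have h0 := om_pos hG
  have h1 := om_le_one hG
  have hpos : 0 ≤ 1 / om P ^ (P.n + 1) := by positivity
  have h2 : winS l (psi P) ≤ 1 / om P ^ (P.n + 1) * winS l (fun _ => 1) := by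
    unfold winS
    rw [Finset.mul_sum]
    refine Finset.sum_le_sum fun p hp => ?_
    rw [Finset.mul_sum]
    refine Finset.sum_le_sum fun t _ => ?_
    have hp' := mem_antidiagonal.mp hp
    have h3 : psi P (.V p.1 t.1 t.2) ≤ 1 / om P ^ (P.n + 1) := by
      change 1 / om P ^ (p.1 + 1) ≤ 1 / om P ^ (P.n + 1)
      apply one_div_le_one_div_of_le (by positivity)
      exact pow_le_pow_of_le_one h0.le h1 (by omega)
    have h4 := dW_nonneg (l + 1) t.1
    nlinarith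
  have h3 := SA5_winS_one l
  nlinarith

theorem SA5_PsI (P : Par) : Ps P (dl .I) =
    (1 - P.q) • dl .I + (1 - P.c1) • dl (.cF 0) + dl (.S 0) := by
  have hw : ∀ l, winS l (dl .I) = 0 := fun l => SA5_winS_zero l _ (fun m g s => by simp [dl])
  funext s
  simp only [Pi.add_apply, Pi.smul_apply, smul_eq_mul]
  rcases s with _ | _ | _ | _ | r | r | ⟨m, g, s⟩ | ⟨g, s⟩ | s
  · simp [Ps, hw, dl]
  · simp [Ps, hw, dl]
  · simp [Ps, dl]
  · simp [Ps, dl]
  · cases r <;> simp [Ps, dl]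
  · simp [Ps, dl]
  · cases m <;> simp [Ps, dl]
  · simp [Ps, dl]
  · cases s <;> simp [Ps, dl]

theorem SA5_dec (P : Par) (φ : St → ℝ) (hX : ∀ s, isX s = false → φ s = 0) :
    Ps P φ = SA5_res (Ps P φ) + (Ps P φ .I) • dl .I := by
  have hI : φ .I = 0 := hX _ rfl
  have hF : φ .F = 0 := hX _ rfl
  have hcF : ∀ r, φ (.cF r) = 0 := fun r => hX _ rfl
  have hS : ∀ r, φ (.S r) = 0 := fun r => hX _ rfl
  funext s
  simp only [Pi.add_apply, Pi.smul_apply, smul_eq_mul]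
  rcases s with _ | _ | _ | _ | r | r | ⟨m, g, s⟩ | ⟨g, s⟩ | s
  · simp [SA5_res, isX, dl]
  · simp [SA5_res, isX, dl]
  · simp [SA5_res, isX, dl, Ps, hF, hcF]
  · simp [SA5_res, isX, dl, Ps]
  · cases r <;> simp [SA5_res, isX, dl, Ps, hI, hcF]
  · simp [SA5_res, isX, dl, Ps]
  · simp [SA5_res, isX, dl]
  · simp [SA5_res, isX, dl, Ps]
  · cases s <;> simp [SA5_res, isX, dl, Ps, hI, hS]

theorem SA5_res_zero (φ : St → ℝ) (s : St) (h : isX s = false) : SA5_res φ s = 0 := by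
  simp [SA5_res, h]

theorem SA5_Ps_nonneg {P : Par} {C : Cst} (hG : Good P C) (φ : St → ℝ) (h0 : ∀ s, 0 ≤ φ s)
    (s : St) : 0 ≤ SA5_res (Ps P φ) s := by
  have ho := om_pos hG
  have hal := hG.al0
  rcases s with _ | _ | _ | _ | r | r | ⟨m, g, s⟩ | ⟨g, s⟩ | s
  · simp [SA5_res, isX]
  · simp only [SA5_res, isX, if_true, Ps]
    have h1 : 0 ≤ om P * φ .M := mul_nonneg ho.le (h0 _)
    have h2 : 0 ≤ P.al * winS P.n φ := mul_nonneg hal (SA5_winS_nonneg _ _ h0)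
    unfold om at h1
    linarith
  · simp [SA5_res, isX]
  · simp [SA5_res, isX]
  · simp [SA5_res, isX]
  · simp [SA5_res, isX]
  · cases m
    · simp [SA5_res, isX, Ps]
    · simp only [SA5_res, isX, if_true, Ps]
      exact h0 _
  · simp [SA5_res, isX]
  · simp [SA5_res, isX]

theorem SA5_I_nonneg {P : Par} {C : Cst} (hG : Good P C) (φ : St → ℝ) (h0 : ∀ s, 0 ≤ φ s)
    (hX : ∀ s, isX s = false → φ s = 0) : 0 ≤ Ps P φ .I := by
  have hI : φ .I = 0 := hX _ rfl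
  simp only [Ps, hI, mul_zero, zero_add]
  have h1 : 0 ≤ P.q * (1 - P.tau * (P.n + 1)) * φ .M :=
    mul_nonneg (mul_nonneg hG.q0.le (by linarith [hG.tau1])) (h0 _)
  have h2 : 0 ≤ P.q * P.tau * ∑ l ∈ range (P.n + 1), winS l φ :=
    mul_nonneg (mul_nonneg hG.q0.le hG.tau0) (Finset.sum_nonneg fun l _ => SA5_winS_nonneg _ _ h0)
  linarith

/-- `X (φ)` for `φ` at `I` -/
theorem SA5_XI {P : Par} {L : (St → ℝ) →ₗ[ℝ] ℝ} :
    L (Ps P (dl .I)) - (1 - P.q) * L (dl .I) = (1 - P.c1) * L (dl (.cF 0)) + L (dl (.S 0)) := by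
  rw [SA5_PsI, map_add, map_add, map_smul, map_smul, smul_eq_mul, smul_eq_mul]
  ring

theorem SA5_split {P : Par} {L : (St → ℝ) →ₗ[ℝ] ℝ} (φ : St → ℝ)
    (hX : ∀ s, isX s = false → φ s = 0) :
    L (Ps P (Ps P φ)) - (1 - P.q) * L (Ps P φ) =
      (L (Ps P (SA5_res (Ps P φ))) - (1 - P.q) * L (SA5_res (Ps P φ))) +
      Ps P φ .I * ((1 - P.c1) * L (dl (.cF 0)) + L (dl (.S 0))) := by
  rw [← SA5_XI]
  have h1 := SA5_dec P φ hX
  set A := Ps P φ .I with hA
  have h2 : L (Ps P φ) = L (SA5_res (Ps P φ)) + A * L (dl .I) := by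
    conv_lhs => rw [h1]
    rw [map_add, map_smul, smul_eq_mul]
  have h3 : L (Ps P (Ps P φ)) = L (Ps P (SA5_res (Ps P φ))) + A * L (Ps P (dl .I)) := by
    conv_lhs => rw [h1]
    rw [← PsL_apply, map_add, map_smul, map_add, map_smul, smul_eq_mul, PsL_apply, PsL_apply]
  rw [h2, h3]
  ring

theorem j4_s {P : Par} {C : Cst} {L : (St → ℝ) →ₗ[ℝ] ℝ} (hG : Good P C) (hL : ConeA P C L)
    (φ : St → ℝ) (h0 : ∀ s, 0 ≤ φ s) (hX : ∀ s, isX s = false → φ s = 0) :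
    (1 - P.q) * L (Ps P φ) ≤ L (Ps P (Ps P φ)) := by
  have h1 := SA5_split (P := P) (L := L) φ hX
  have h2 := hL.j4 (SA5_res (Ps P φ)) (SA5_Ps_nonneg hG φ h0) (SA5_res_zero _)
  have h3 := SA5_I_nonneg hG φ h0 hX
  have h4 := L_F_nonneg hL (.cF 0)
  have h5 := L_F_nonneg hL (.S 0)
  have hc1 : 0 ≤ 1 - P.c1 := by linarith [hG.c12, hG.c2lt]
  have h6 : 0 ≤ Ps P φ .I * ((1 - P.c1) * L (dl (.cF 0)) + L (dl (.S 0))) :=
    mul_nonneg h3 (add_nonneg (mul_nonneg hc1 h4) h5)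
  linarith

theorem SA5_psi_nonneg {P : Par} {C : Cst} (hG : Good P C) (s : St) : 0 ≤ psi P s := by
  have ho := om_pos hG
  rcases s with _ | _ | _ | _ | r | r | ⟨m, g, s⟩ | ⟨g, s⟩ | s <;> simp only [psi] <;> positivity

theorem SA5_psi_X (P : Par) (s : St) (h : isX s = false) : psi P s = 0 := by
  rcases s with _ | _ | _ | _ | r | r | ⟨m, g, s⟩ | ⟨g, s⟩ | s <;> simp [isX] at h <;> rfl

theorem SA5_A_le {P : Par} {C : Cst} (hG : Good P C) :
    Ps P (psi P) .I ≤ P.q / om P ^ (P.n + 1) := by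
  have ho := om_pos hG
  have ho1 := om_le_one hG
  have hS : ∑ l ∈ range (P.n + 1), winS l (psi P) ≤ (P.n + 1) * (1 / om P ^ (P.n + 1)) := by
    calc ∑ l ∈ range (P.n + 1), winS l (psi P) ≤ ∑ l ∈ range (P.n + 1), (1 / om P ^ (P.n + 1)) :=
          Finset.sum_le_sum fun l hl => SA5_winS_psi hG (by have := mem_range.mp hl; omega)
      _ = _ := by rw [Finset.sum_const, Finset.card_range, nsmul_eq_mul]; push_cast; ring
  simp only [Ps, psi, mul_zero, zero_add, mul_one]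
  have h1 : 1 ≤ 1 / om P ^ (P.n + 1) := by
    rw [le_div_iff₀ (by positivity), one_mul]
    exact pow_le_one₀ ho.le ho1
  set W := 1 / om P ^ (P.n + 1) with hW
  have h2 : P.q * P.tau * ∑ l ∈ range (P.n + 1), winS l (psi P) ≤ P.q * P.tau * ((P.n + 1) * W) :=
    mul_le_mul_of_nonneg_left hS (mul_nonneg hG.q0.le hG.tau0)
  have h3 : P.q / om P ^ (P.n + 1) = P.q * W := by rw [hW]; ring
  have h4 : P.q * (1 - P.tau * (P.n + 1)) * 1 ≤ P.q * (1 - P.tau * (P.n + 1)) * W :=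
    mul_le_mul_of_nonneg_left h1 (mul_nonneg hG.q0.le (by linarith [hG.tau1]))
  rw [h3]
  have h5 : P.q * (1 - P.tau * (P.n + 1)) * W + P.q * P.tau * ((P.n + 1) * W) = P.q * W := by ring
  have h6 : ∀ x : ℝ, P.q * (1 - P.tau * (P.n + 1)) + x = P.q * (1 - P.tau * (P.n + 1)) * 1 + x := by
    intro x; ring
  linarith [h6 0]

theorem SA5_wS (P : Par) {C : Cst} (hG : Good P C) : Ps P (wS P) = om P • wS P - dl (.S 0) := by
  have ho := om_pos hG
  have hw : ∀ l, winS l (wS P) = 0 := fun l => SA5_winS_zero l _ (fun m g s => by simp [wS])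
  funext s
  simp only [Pi.sub_apply, Pi.smul_apply, smul_eq_mul]
  rcases s with _ | _ | _ | _ | r | r | ⟨m, g, s⟩ | ⟨g, s⟩ | s
  · simp [Ps, hw, dl, wS]
  · simp [Ps, hw, dl, wS]
  · simp [Ps, dl, wS]
  · simp [Ps, dl, wS]
  · cases r <;> simp [Ps, dl, wS]
  · simp [Ps, dl, wS]
  · cases m <;> simp [Ps, dl, wS]
  · simp [Ps, dl, wS]
  · cases s with
    | zero => simp [Ps, dl, wS, ho.ne']
    | succ s =>
      have h1 : dl (.S 0) (.S (s + 1)) = 0 := by simp [dl]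
      rw [h1]
      simp only [Ps, wS]
      rw [pow_succ (om P) (s + 1)]
      field_simp
      ring

theorem SA5_wS_nonneg {P : Par} {C : Cst} (hG : Good P C) (s : St) : 0 ≤ wS P s := by
  have ho := om_pos hG
  rcases s with _ | _ | _ | _ | r | r | ⟨m, g, s⟩ | ⟨g, s⟩ | s <;> simp only [wS] <;> positivity

theorem j5_s {P : Par} {C : Cst} {L : (St → ℝ) →ₗ[ℝ] ℝ} (hG : Good P C) (hL : ConeA P C L) :
    L (Ps P (Ps P (psi P))) - (1 - P.q) * L (Ps P (psi P))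
      + P.q / om P ^ (P.n + 1) * L (Ps P (wS P)) ≤ (P.c1 - P.q) * L (Ps P (dl .F)) := by
  have ho := om_pos hG
  have ho1 := om_le_one hG
  set W := 1 / om P ^ (P.n + 1) with hW
  have hWpos : 0 < W := by positivity
  have hqW : P.q / om P ^ (P.n + 1) = P.q * W := by rw [hW]; ring
  have h1 := SA5_split (P := P) (L := L) (psi P) (SA5_psi_X P)
  set A := Ps P (psi P) .I with hA
  set R := SA5_res (Ps P (psi P)) with hR
  -- `X R ≤ c X psi`
  have hdiff := hL.j4 ((om P + P.al * W) • psi P - R) (by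
    intro s
    simp only [Pi.sub_apply, Pi.smul_apply, smul_eq_mul]
    have hal := hG.al0
    rcases s with _ | _ | _ | _ | r | r | ⟨m, g, s⟩ | ⟨g, s⟩ | s
    · simp [hR, SA5_res, isX, psi]
    · simp only [hR, SA5_res, isX, if_true, psi, Ps]
      have hw := SA5_winS_psi hG (le_refl P.n)
      have : P.al * winS P.n (psi P) ≤ P.al * W := mul_le_mul_of_nonneg_left hw hal
      unfold om at *
      linarith
    · simp [hR, SA5_res, isX, psi]
    · simp [hR, SA5_res, isX, psi]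
    · simp [hR, SA5_res, isX, psi]
    · simp [hR, SA5_res, isX, psi]
    · cases m with
      | zero =>
        simp only [hR, SA5_res, isX, if_true, psi, Ps]
        have : 0 ≤ (om P + P.al * W) * (1 / om P ^ (0 + 1)) := by positivity
        linarith
      | succ m =>
        simp only [hR, SA5_res, isX, if_true, psi, Ps]
        have e1 : om P * (1 / om P ^ (m + 1 + 1)) = 1 / om P ^ (m + 1) := by
          rw [pow_succ (om P) (m + 1)]
          field_simp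
        have e2 : 0 ≤ P.al * W * (1 / om P ^ (m + 1 + 1)) := by positivity
        have e3 : (om P + P.al * W) * (1 / om P ^ (m + 1 + 1)) =
          om P * (1 / om P ^ (m + 1 + 1)) + P.al * W * (1 / om P ^ (m + 1 + 1)) := by ring
        rw [e3, e1]
        linarith
    · simp [hR, SA5_res, isX, psi]
    · simp [hR, SA5_res, isX, psi]) (by
    intro s hs
    simp only [Pi.sub_apply, Pi.smul_apply, smul_eq_mul, SA5_psi_X P s hs, hR, SA5_res_zero _ s hs]
    ring)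
  have hd1 : L ((om P + P.al * W) • psi P - R) = (om P + P.al * W) * L (psi P) - L R := by
    rw [map_sub, map_smul, smul_eq_mul]
  have hd2 : L (Ps P ((om P + P.al * W) • psi P - R)) =
      (om P + P.al * W) * L (Ps P (psi P)) - L (Ps P R) := by
    rw [← PsL_apply, map_sub, map_smul, map_sub, map_smul, smul_eq_mul, PsL_apply, PsL_apply]
  rw [hd1, hd2] at hdiff
  have hA1 : A ≤ P.q * W := by rw [← hqW]; exact SA5_A_le hG
  have h4 := L_F_nonneg hL (.cF 0)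
  have h5 := L_F_nonneg hL (.S 0)
  have h6 := L_F_nonneg hL .F
  have hc1 : 0 ≤ 1 - P.c1 := by linarith [hG.c12, hG.c2lt]
  have h7 : A * ((1 - P.c1) * L (dl (.cF 0)) + L (dl (.S 0))) ≤
      P.q * W * ((1 - P.c1) * L (dl (.cF 0)) + L (dl (.S 0))) :=
    mul_le_mul_of_nonneg_right hA1 (add_nonneg (mul_nonneg hc1 h4) h5)
  have h8 : L (Ps P (wS P)) = om P * L (wS P) - L (dl (.S 0)) := by
    rw [SA5_wS P hG, map_sub, map_smul, smul_eq_mul]
  have h9 : 0 ≤ L (wS P) := hL.pos _ fun s _ _ => SA5_wS_nonneg hG s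
  have h10 := hL.j5
  rw [hqW] at h10
  have h11 := hL.j1 0 (Nat.zero_le _)
  have h12 := hG.g5
  rw [hqW] at h12
  have e13 : P.al / om P ^ (P.n + 1) = P.al * W := by rw [hW]; ring
  rw [e13] at h12
  have h14 := L_Ps_F hL
  rw [h14, h8, hqW]
  have hal := hG.al0
  have hq := hG.q0
  have hc : 0 ≤ om P + P.al * W := by positivity
  -- combine
  have k1 : (om P + P.al * W) * (L (Ps P (psi P)) - (1 - P.q) * L (psi P) + P.q * W * L (wS P)) ≤
      (om P + P.al * W) * ((P.c1 - P.q) * L (dl .F)) := mul_le_mul_of_nonneg_left h10 hc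
  have k2 : 0 ≤ P.al * W * (P.q * W * L (wS P)) := by positivity
  have k3 : P.q * W * ((1 - P.c1) * L (dl (.cF 0))) ≤ P.q * W * ((1 - P.c1) * (th P 0 * L (dl .F))) :=
    mul_le_mul_of_nonneg_left (mul_le_mul_of_nonneg_left h11 hc1) (by positivity)
  have k4 : P.q * W * th P 0 * (1 - P.c1) * L (dl .F) ≤
      (P.c1 - P.q) * ((1 - P.al) * (1 - P.c1) - om P - P.al * W) * L (dl .F) :=
    mul_le_mul_of_nonneg_right h12 h6
  nlinarith [k1, k2, k3, k4, h7, hdiff, h1]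

theorem SA5_Pu_zero (P : Par) (φ : St → ℝ) (hX : ∀ s, isX s = false → φ s = 0) : Pu P φ = 0 := by
  have hI : φ .I = 0 := hX _ rfl
  have hF : φ .F = 0 := hX _ rfl
  have hcF : ∀ r, φ (.cF r) = 0 := fun r => hX _ rfl
  have hS : ∀ r, φ (.S r) = 0 := fun r => hX _ rfl
  have hU : ∀ l, winU l φ = 0 := fun l => by simp [winU, hS]
  have hn : ∀ s, φ (nx s) = 0 := fun s => by cases s <;> simp [nx, hI, hS]
  funext s
  rcases s with _ | _ | _ | _ | r | r | ⟨m, g, s⟩ | ⟨g, s⟩ | s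
  · simp [Pu, hU]
  · simp [Pu, hU, hF]
  · simp [Pu, hF, hcF]
  · simp [Pu, hF, hcF]
  · cases r <;> simp [Pu, hI, hcF]
  · cases r <;> simp [Pu, hI, hcF]
  · cases m <;> cases g <;> simp [Pu, hn]
  · cases g <;> simp [Pu, hn]
  · simp [Pu]

theorem SA5_Pu_split {P : Par} {L : (St → ℝ) →ₗ[ℝ] ℝ} (φ : St → ℝ)
    (hX : ∀ s, isX s = false → φ s = 0) :
    L (Pu P φ) = 0 ∧ L (Pu P (Ps P φ)) = Ps P φ .I * L (Pu P (dl .I)) := by
  refine ⟨by rw [SA5_Pu_zero P φ hX, map_zero], ?_⟩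
  conv_lhs => rw [SA5_dec P φ hX]
  rw [← PuL_apply, map_add, map_smul, map_add, map_smul, smul_eq_mul, PuL_apply, PuL_apply,
    SA5_Pu_zero P _ (SA5_res_zero _), map_zero, zero_add]

theorem SA5_dl_nonneg (t s : St) : 0 ≤ dl t s := by
  unfold dl
  split_ifs <;> norm_num

theorem j4_u {P : Par} {C : Cst} {L : (St → ℝ) →ₗ[ℝ] ℝ} (hG : Good P C) (hL : ConeA P C L)
    (φ : St → ℝ) (h0 : ∀ s, 0 ≤ φ s) (hX : ∀ s, isX s = false → φ s = 0) :
    (1 - P.q) * L (Pu P φ) ≤ L (Pu P (Ps P φ)) := by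
  obtain ⟨h1, h2⟩ := SA5_Pu_split (P := P) (L := L) φ hX
  rw [h1, h2, mul_zero]
  refine mul_nonneg (SA5_I_nonneg hG φ h0 hX) (hL.pos _ fun s hs _ => ?_)
  exact Pu_nonneg hG _ (fun s _ _ => SA5_dl_nonneg _ s) s hs

theorem j5_u {P : Par} {C : Cst} {L : (St → ℝ) →ₗ[ℝ] ℝ} (hG : Good P C) (hL : ConeA P C L) :
    L (Pu P (Ps P (psi P))) - (1 - P.q) * L (Pu P (psi P))
      + P.q / om P ^ (P.n + 1) * L (Pu P (wS P)) ≤ (P.c1 - P.q) * L (Pu P (dl .F)) := by
  obtain ⟨h1, h2⟩ := SA5_Pu_split (P := P) (L := L) (psi P) (SA5_psi_X P)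
  have ho := om_pos hG
  have hq := hG.q0
  rw [h1, h2]
  have h3 : 0 ≤ L (Pu P (dl .I)) := hL.pos _ fun s hs _ =>
    Pu_nonneg hG _ (fun s _ _ => SA5_dl_nonneg _ s) s hs
  have h4 := SA5_A_le hG
  have h5 := mul_le_mul_of_nonneg_right h4 h3
  have hqW : 0 ≤ P.q / om P ^ (P.n + 1) := by positivity
  have h6 := mul_le_mul_of_nonneg_left (up_mass hG hL) hqW
  have hY : 0 ≤ L (dl .F) + L (dl .M) := add_nonneg (L_F_nonneg hL _) (L_F_nonneg hL _)
  have h7 := mul_le_mul_of_nonneg_right hG.g7 hY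
  have hcq : 0 ≤ P.c1 - P.q := by linarith [hG.qc1]
  have h8 := mul_le_mul_of_nonneg_left (up_F hG hL) hcq
  linarith

theorem j4_ud {P : Par} {C : Cst} {L : (St → ℝ) →ₗ[ℝ] ℝ} (hG : Good P C) (hL : ConeD P C L)
    (φ : St → ℝ) (h0 : ∀ s, 0 ≤ φ s) (hX : ∀ s, isX s = false → φ s = 0) :
    (1 - P.q) * L (Pu P φ) ≤ L (Pu P (Ps P φ)) := by
  obtain ⟨h1, h2⟩ := SA5_Pu_split (P := P) (L := L) φ hX
  rw [h1, h2, mul_zero]
  refine mul_nonneg (SA5_I_nonneg hG φ h0 hX) (hL.pos _ fun s hs _ => ?_)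
  exact Pu_nonneg hG _ (fun s _ _ => SA5_dl_nonneg _ s) s hs

theorem j5_ud {P : Par} {C : Cst} {L : (St → ℝ) →ₗ[ℝ] ℝ} (hG : Good P C) (hL : ConeD P C L) :
    L (Pu P (Ps P (psi P))) - (1 - P.q) * L (Pu P (psi P))
      + P.q / om P ^ (P.n + 1) * L (Pu P (wS P)) ≤ (P.c1 - P.q) * L (Pu P (dl .F)) := by
  obtain ⟨h1, h2⟩ := SA5_Pu_split (P := P) (L := L) (psi P) (SA5_psi_X P)
  have ho := om_pos hG
  have hq := hG.q0
  rw [h1, h2]
  have h3 : 0 ≤ L (Pu P (dl .I)) := hL.pos _ fun s hs _ =>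
    Pu_nonneg hG _ (fun s _ _ => SA5_dl_nonneg _ s) s hs
  have h4 := SA5_A_le hG
  have h5 := mul_le_mul_of_nonneg_right h4 h3
  have hqW : 0 ≤ P.q / om P ^ (P.n + 1) := by positivity
  have h6 := mul_le_mul_of_nonneg_left (up_massD hG hL) hqW
  have hY : 0 ≤ L (dl .O) := LD_F_nonneg hL _
  have h7 := mul_le_mul_of_nonneg_right hG.g9 hY
  rw [LD_Pu_F hL]
  linarith

end H50CP
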