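import Pool.Agent.H50.CP.SA1
import Pool.Agent.H50.CP.SA4

/-!
# SA6: healthy mass bounds, recovery probability `≥ q`, infection probability `≤ be`

* `z2_d`: `Pd (dWg g) = kd (g+1)` pointwise on allowed alive states, so `kd_le`, `Bd_zero_le`,
  `L_Pd_O` and `g12` with `kap g ≥ Kh` (as `0 < (1-b)(1-al) ≤ 1`).
* `z2_dd`: `Pd (dWg g) = dWg (g+1)` on healthy states (0 on allowed states if `g = n`),
  `LD_Pd_O`, and `kap (g+1) = kap g * ((1-b)(1-al))` for `g < n`... (for `g = n`: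
  `L (dWg (n+1)) = 0` by `hL.pos`).
* `kill`: pointwise on allowed alive states
  `1 - Ps 1 = q dl I + c1 1_{F,cF} + 1_X - Ps 1_X` (`1_X` = indicator of `isX`), hence
  `L 1 - L(Ps 1) - q L 1 = (c1-q) L 1_{F,cF} - [L(Ps 1_X) - (1-q) L 1_X] - q L 1_S`;
  by `hL.j4` for `psi - 1_X ≥ 0`: `L(Ps 1_X) - (1-q) L 1_X ≤ L(Ps psi) - (1-q) L psi`; and
  `L 1_S ≤ L (wS) / om^(n+1)`; conclude with `hL.j5`.
* `upA`: `Pu 1 = kd 0 + b ((1-al) c2 dl M + c1 1_{F,cF}) + c1 (1-b) dl (cF 0)` and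
  `Pu 1 + Pd 1 ≥ (1-al) c2 dl M + c1 1_{F,cF} + kd 0` pointwise; `kd_le`, `j1`, `g10`.
* `upD`: `Pu 1 ≤ b * 1 + dl (cO 0) + dWg 0` on healthy states; `z1`, `z2`, `g11`, `L (dl O) ≤ L 1`.
-/

namespace H50CP

open Finset

theorem SA6_winD_dWg (l g : ℕ) :
    winD l (dWg g) = if g + 1 ≤ l + 1 then dW (l + 1) (g + 1) else 0 := by
  unfold winD
  by_cases h : g + 1 ≤ l + 1
  · rw [if_pos h]
    rw [Finset.sum_eq_single (g, l - g)]
    · simp [dWg]
    · rintro ⟨p, r⟩ hp hne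
      have hp' : p + r = l := by simpa using hp
      have : p ≠ g := by
        rintro rfl
        apply hne
        have : r = l - p := by omega
        rw [this]
      simp [dWg, this]
    · intro hn
      exfalso
      apply hn
      rw [Finset.HasAntidiagonal.mem_antidiagonal]
      omega
  · rw [if_neg h]
    apply Finset.sum_eq_zero
    rintro ⟨p, r⟩ hp
    have hp' : p + r = l := by simpa using hp
    have : p ≠ g := by
      rintro rfl
      omega
    simp [dWg, this]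

theorem SA6_Pd_dWg (P : Par) (g : ℕ) (s : St) (hz : s.z = true) :
    Pd P (dWg g) s = kd P (g + 1) s := by
  rcases s with _ | _ | _ | _ | r | r | ⟨m, g', s⟩ | ⟨g', s⟩ | s
  · simp only [Pd, kd, SA6_winD_dWg]
  · simp only [Pd, kd, SA6_winD_dWg, dWg]
    ring
  · simp [Pd, kd, dWg]
  · simp [St.z] at hz
  · cases r <;> simp [Pd, kd, dWg]
  · simp [St.z] at hz
  · cases m <;> cases g' <;> simp [Pd, kd, dWg]
  · simp [St.z] at hz
  · simp [Pd, kd]

theorem SA6_base {P : Par} {C : Cst} (hG : Good P C) :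
    0 < (1 - P.b) * (1 - P.al) ∧ (1 - P.b) * (1 - P.al) ≤ 1 := by
  have h1 := hG.b0
  have h2 := hG.b1
  have h3 := hG.al0
  have h4 := hG.al1
  constructor
  · exact mul_pos (by linarith) (by linarith)
  · nlinarith

theorem SA6_kap_ge {P : Par} {C : Cst} (hG : Good P C) (g : ℕ) : C.Kh ≤ kap P C g := by
  unfold kap
  obtain ⟨h1, h2⟩ := SA6_base hG
  rw [le_div_iff₀ (pow_pos h1 _)]
  have h3 := pow_le_one₀ (n := P.n + 1 - g) h1.le h2
  nlinarith [hG.Kh0]

theorem SA6_kap_nonneg {P : Par} {C : Cst} (hG : Good P C) (g : ℕ) : 0 ≤ kap P C g :=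
  hG.Kh0.trans (SA6_kap_ge hG g)

theorem z2_d {P : Par} {C : Cst} {L : (St → ℝ) →ₗ[ℝ] ℝ} (hG : Good P C) (hL : ConeA P C L) :
    ∀ g, g ≤ P.n → L (Pd P (dWg g)) ≤ kap P C g * L (Pd P (dl .O)) := by
  intro g _
  have hc1 : 0 < P.c1 := hG.q0.trans hG.qc1
  have hF := L_F_nonneg hL .F
  have hM := L_F_nonneg hL .M
  have h1 : L (Pd P (dWg g)) = L (kd P (g + 1)) :=
    hL.congr fun s _ hz => SA6_Pd_dWg P g s hz
  have h2 := kd_le hG hL (g + 1)
  have h3 := Bd_zero_le hG (g + 1)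
  have hom := om_pos hG
  have hb : 0 < (1 - P.al) * (1 - P.b) :=
    mul_pos (by linarith [hG.al1]) (by linarith [hG.b1])
  have h4 := L_Pd_O hL
  have hk := SA6_kap_ge hG g
  have h5 : Bd P C 0 (g + 1) * om P * (L (dl .F) + L (dl .M))
      ≤ (C.K1 + C.K2) * om P * (L (dl .F) + L (dl .M)) :=
    mul_le_mul_of_nonneg_right (mul_le_mul_of_nonneg_right h3 hom.le) (by linarith)
  have h6 : (C.K1 + C.K2) * om P * (L (dl .F) + L (dl .M))
      ≤ C.Kh * (1 - P.al) * (1 - P.b) * P.c1 * (L (dl .F) + L (dl .M)) :=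
    mul_le_mul_of_nonneg_right hG.g12 (by linarith)
  have h7 : C.Kh * (1 - P.al) * (1 - P.b) * P.c1 * (L (dl .F) + L (dl .M))
      = C.Kh * ((1 - P.al) * (1 - P.b) * (P.c1 * (L (dl .F) + L (dl .M)))) := by ring
  have h8 : (1 - P.al) * (1 - P.b) * (P.c1 * (L (dl .F) + L (dl .M)))
      ≤ L (Pd P (dl .O)) := by
    rw [h4]
    apply mul_le_mul_of_nonneg_left _ hb.le
    nlinarith [hG.c12]
  have h9 : 0 ≤ (1 - P.al) * (1 - P.b) * (P.c1 * (L (dl .F) + L (dl .M))) :=
    mul_nonneg hb.le (mul_nonneg hc1.le (by linarith))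
  calc L (Pd P (dWg g)) = L (kd P (g + 1)) := h1
    _ ≤ C.Kh * ((1 - P.al) * (1 - P.b) * (P.c1 * (L (dl .F) + L (dl .M)))) := by
        rw [← h7]; linarith
    _ ≤ kap P C g * L (Pd P (dl .O)) :=
        mul_le_mul hk h8 h9 (SA6_kap_nonneg hG g)

theorem z2_dd {P : Par} {C : Cst} {L : (St → ℝ) →ₗ[ℝ] ℝ} (hG : Good P C) (hL : ConeD P C L) :
    ∀ g, g ≤ P.n → L (Pd P (dWg g)) ≤ kap P C g * L (Pd P (dl .O)) := by
  intro g hg
  have h1 : L (Pd P (dWg g)) = L (dWg (g + 1)) := by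
    refine hL.congr fun s _ hz => ?_
    rcases s with _ | _ | _ | _ | r | r | ⟨m, g', s⟩ | ⟨g', s⟩ | s
    · simp [St.z] at hz
    · simp [St.z] at hz
    · simp [St.z] at hz
    · simp [Pd, dWg]
    · simp [St.z] at hz
    · cases r <;> simp [Pd, dWg]
    · simp [St.z] at hz
    · cases g' <;> simp [Pd, dWg]
    · simp [St.z] at hz
  have h2 := LD_Pd_O hL
  have hO := LD_F_nonneg hL .O
  obtain ⟨hb, _⟩ := SA6_base hG
  rw [h1, h2]
  rcases Nat.lt_or_ge g P.n with hlt | hge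
  · have h3 := hL.z2 (g + 1) (by omega)
    have h4 : kap P C g * ((1 - P.al) * (1 - P.b) * L (dl .O)) = kap P C (g + 1) * L (dl .O) := by
      unfold kap
      have e1 : P.n + 1 - g = (P.n + 1 - (g + 1)) + 1 := by omega
      rw [e1, pow_succ]
      have hne : ((1 - P.b) * (1 - P.al)) ^ (P.n + 1 - (g + 1)) ≠ 0 := (pow_pos hb _).ne'
      have hne2 : (1 - P.b) * (1 - P.al) ≠ 0 := hb.ne'
      have hb1 : (1 - P.b) ≠ 0 := left_ne_zero_of_mul hne2
      have hb2 : (1 - P.al) ≠ 0 := right_ne_zero_of_mul hne2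
      field_simp
    rw [h4]
    exact h3
  · have h5 : L (dWg (g + 1)) = L 0 := by
      refine hL.congr fun s hs hz => ?_
      rcases s with _ | _ | _ | _ | r | r | ⟨m, g', s⟩ | ⟨g', s⟩ | s
      all_goals try rfl
      · have h6 : g' + s ≤ P.n := hs
        have h7 : g' ≠ g + 1 := by omega
        simp [dWg, h7]
    rw [h5, map_zero]
    apply mul_nonneg (SA6_kap_nonneg hG g)
    apply mul_nonneg _ hO
    rw [mul_comm]
    exact hb.le

/-- indicator of `isX` -/
noncomputable def SA6_oX : St → ℝ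
  | .M => 1
  | .V _ _ _ => 1
  | _ => 0

/-- indicator of the filler states -/
noncomputable def SA6_oF : St → ℝ
  | .F => 1
  | .cF _ => 1
  | _ => 0

/-- indicator of the states `S` -/
noncomputable def SA6_oS : St → ℝ
  | .S _ => 1
  | _ => 0

theorem SA6_winS_oX (l : ℕ) : winS l SA6_oX = winS l (fun _ => 1) := by
  unfold winS
  rfl

theorem SA6_one_sub (P : Par) (s : St) (hz : s.z = true) :
    1 - Ps P (fun _ => 1) s
      = P.q * dl .I s + P.c1 * SA6_oF s + SA6_oX s - Ps P SA6_oX s := by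
  rcases s with _ | _ | _ | _ | r | r | ⟨m, g', s⟩ | ⟨g', s⟩ | s
  · simp only [Ps, SA6_winS_oX, dl, SA6_oF, SA6_oX, if_true]
    ring
  · simp only [Ps, SA6_winS_oX, SA6_oF, SA6_oX]
    simp [dl]
  · simp [Ps, dl, SA6_oF, SA6_oX]
    ring
  · simp [St.z] at hz
  · cases r <;> simp [Ps, dl, SA6_oF, SA6_oX]
  · simp [St.z] at hz
  · cases m <;> simp [Ps, dl, SA6_oF, SA6_oX]
  · simp [St.z] at hz
  · cases s <;> simp [Ps, dl, SA6_oF, SA6_oX]

theorem kill {P : Par} {C : Cst} {L : (St → ℝ) →ₗ[ℝ] ℝ} (hG : Good P C) (hL : ConeA P C L) :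
    P.q * L (fun _ => 1) ≤ L (fun _ => 1) - L (Ps P (fun _ => 1)) := by
  have hom := om_pos hG
  have hom1 := om_le_one hG
  -- the identity
  have h1 : L (fun _ => 1) - L (Ps P (fun _ => 1))
      = P.q * L (dl .I) + P.c1 * L SA6_oF + L SA6_oX - L (Ps P SA6_oX) := by
    have e : L ((fun _ => 1) - Ps P (fun _ => 1))
        = L (P.q • dl .I + P.c1 • SA6_oF + SA6_oX - Ps P SA6_oX) := by
      refine hL.congr fun s _ hz => ?_
      simpa [Pi.sub_apply, Pi.add_apply, Pi.smul_apply, smul_eq_mul] using SA6_one_sub P s hz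
    rw [map_sub] at e
    rw [e, map_sub, map_add, map_add, map_smul, map_smul, smul_eq_mul, smul_eq_mul]
  have h2 : L (fun _ => 1) = L (dl .I) + L SA6_oF + L SA6_oX + L SA6_oS := by
    have e : L (fun _ => 1) = L (dl .I + SA6_oF + SA6_oX + SA6_oS) := by
      refine hL.congr fun s _ hz => ?_
      rcases s with _ | _ | _ | _ | r | r | ⟨m, g', s⟩ | ⟨g', s⟩ | s
      all_goals first
        | (simp [St.z] at hz; done)
        | (simp [dl, SA6_oF, SA6_oX, SA6_oS]; done)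
    rw [e, map_add, map_add, map_add]
  have h3 : L (Ps P SA6_oX) - (1 - P.q) * L SA6_oX
      ≤ L (Ps P (psi P)) - (1 - P.q) * L (psi P) := by
    have h4 := hL.j4 (psi P - SA6_oX) (fun s => ?_) (fun s hs => ?_)
    · have h5 : Ps P (psi P - SA6_oX) = Ps P (psi P) - Ps P SA6_oX := by
        rw [← PsL_apply, ← PsL_apply, ← PsL_apply, map_sub]
      rw [h5, map_sub, map_sub] at h4
      linarith
    · rw [Pi.sub_apply, sub_nonneg]
      rcases s with _ | _ | _ | _ | r | r | ⟨m, g', s⟩ | ⟨g', s⟩ | s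
      all_goals first
        | (simp [psi, SA6_oX]; done)
        | skip
      simp only [psi, SA6_oX]
      rw [le_div_iff₀ (pow_pos hom _), one_mul]
      exact pow_le_one₀ hom.le hom1
    · rcases s with _ | _ | _ | _ | r | r | ⟨m, g', s⟩ | ⟨g', s⟩ | s
      all_goals first
        | (simp [isX] at hs; done)
        | (simp [psi, SA6_oX]; done)
  have h5 := hL.j5
  have hpow : 0 < om P ^ (P.n + 1) := pow_pos hom _
  have hpow1 : om P ^ (P.n + 1) ≤ 1 := pow_le_one₀ hom.le hom1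
  have h6 : L SA6_oS ≤ 1 / om P ^ (P.n + 1) * L (wS P) := by
    have h7 : L SA6_oS ≤ L ((1 / om P ^ (P.n + 1)) • wS P) := by
      refine hL.mono fun s _ hz => ?_
      rw [Pi.smul_apply, smul_eq_mul]
      rcases s with _ | _ | _ | _ | r | r | ⟨m, g', s⟩ | ⟨g', s⟩ | s
      all_goals first
        | (simp [SA6_oS, wS]; done)
        | skip
      simp only [SA6_oS, wS]
      have e1 : 1 ≤ 1 / om P ^ (P.n + 1) := by
        rw [le_div_iff₀ hpow, one_mul]; exact hpow1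
      have e2 : 1 ≤ 1 / om P ^ (s + 1) := by
        rw [le_div_iff₀ (pow_pos hom _), one_mul]; exact pow_le_one₀ hom.le hom1
      nlinarith
    rwa [map_smul, smul_eq_mul] at h7
  have h8 : L (dl .F) ≤ L SA6_oF := by
    refine hL.mono fun s _ hz => ?_
    rcases s with _ | _ | _ | _ | r | r | ⟨m, g', s⟩ | ⟨g', s⟩ | s
    all_goals simp [SA6_oF, dl]
  have hq := hG.q0
  have hqc := hG.qc1
  have h9 : (P.c1 - P.q) * L (dl .F) ≤ (P.c1 - P.q) * L SA6_oF :=
    mul_le_mul_of_nonneg_left h8 (by linarith)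
  have h10 : P.q * L SA6_oS ≤ P.q / om P ^ (P.n + 1) * L (wS P) := by
    have := mul_le_mul_of_nonneg_left h6 hq.le
    calc P.q * L SA6_oS ≤ P.q * (1 / om P ^ (P.n + 1) * L (wS P)) := this
      _ = P.q / om P ^ (P.n + 1) * L (wS P) := by ring
  rw [h1, h2]
  linarith

theorem SA6_winU_one (l : ℕ) : winU l (fun _ => 1) = dW (l + 1) 0 := by
  unfold winU
  rw [mul_one]

theorem SA6_winD_one_nonneg (l : ℕ) : 0 ≤ winD l (fun _ => 1) := by
  unfold winD
  refine Finset.sum_nonneg fun p _ => ?_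
  rw [mul_one]
  exact dW_nonneg _ _

theorem SA6_Pu_one (P : Par) (s : St) (hz : s.z = true) :
    Pu P (fun _ => 1) s = kd P 0 s + P.b * ((1 - P.al) * P.c2 * dl .M s + P.c1 * SA6_oF s)
      + P.c1 * (1 - P.b) * dl (.cF 0) s := by
  rcases s with _ | _ | _ | _ | r | r | ⟨m, g', s⟩ | ⟨g', s⟩ | s
  · simp only [Pu, kd, SA6_winU_one]
    simp [dl, SA6_oF]
  · simp only [Pu, kd, SA6_winU_one]
    simp [dl, SA6_oF]
    ring
  · simp [Pu, kd, dl, SA6_oF]
    ring
  · simp [St.z] at hz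
  · cases r
    · simp [Pu, kd, dl, SA6_oF]
      ring
    · simp [Pu, kd, dl, SA6_oF]
      ring
  · simp [St.z] at hz
  · cases m <;> cases g' <;> simp [Pu, kd, dl, SA6_oF]
  · simp [St.z] at hz
  · simp [Pu, kd, dl, SA6_oF]

theorem SA6_sum_ge {P : Par} {C : Cst} (hG : Good P C) (s : St) (hz : s.z = true) :
    (1 - P.al) * P.c2 * dl .M s + P.c1 * SA6_oF s
      ≤ Pu P (fun _ => 1) s + Pd P (fun _ => 1) s := by
  have hq := hG.q0
  have ht := hG.tau0
  have hal := hG.al0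
  rcases s with _ | _ | _ | _ | r | r | ⟨m, g', s⟩ | ⟨g', s⟩ | s
  · simp only [Pu, Pd]
    have h1 : 0 ≤ ∑ l ∈ range (P.n + 1), winU l (fun _ => 1) := by
      refine Finset.sum_nonneg fun l _ => ?_
      rw [SA6_winU_one]
      exact dW_nonneg _ _
    have h2 : 0 ≤ ∑ l ∈ range (P.n + 1), winD l (fun _ => 1) :=
      Finset.sum_nonneg fun l _ => SA6_winD_one_nonneg l
    have h3 : 0 ≤ P.q * P.tau := mul_nonneg hq.le ht
    have h4 := mul_nonneg h3 h1
    have h5 := mul_nonneg h3 h2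
    simp only [dl, SA6_oF]
    simp
    linarith
  · simp only [Pu, Pd]
    have h1 : 0 ≤ winU P.n (fun _ => 1) := by
      rw [SA6_winU_one]
      exact dW_nonneg _ _
    have h2 := SA6_winD_one_nonneg P.n
    have h4 := mul_nonneg hal h1
    have h5 := mul_nonneg hal h2
    simp only [dl, SA6_oF]
    simp
    linarith
  · simp [Pu, Pd, dl, SA6_oF]
    linarith
  · simp [St.z] at hz
  · cases r
    · simp [Pu, Pd, dl, SA6_oF]
    · simp [Pu, Pd, dl, SA6_oF]
      linarith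
  · simp [St.z] at hz
  · cases m <;> cases g' <;> simp [Pu, Pd, dl, SA6_oF]
  · simp [St.z] at hz
  · simp [Pu, Pd, dl, SA6_oF]

theorem upA {P : Par} {C : Cst} {L : (St → ℝ) →ₗ[ℝ] ℝ} (hG : Good P C) (hL : ConeA P C L) :
    L (Pu P (fun _ => 1)) ≤ C.be * (L (Pu P (fun _ => 1)) + L (Pd P (fun _ => 1))) := by
  have hc1 : 0 < P.c1 := hG.q0.trans hG.qc1
  have hF := L_F_nonneg hL .F
  have hM := L_F_nonneg hL .M
  have hom := om_pos hG
  have hal := hG.al0
  have hal1 := hG.al1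
  have hb0 := hG.b0
  have hb1 := hG.b1
  have h1 : L (Pu P (fun _ => 1))
      = L (kd P 0) + P.b * ((1 - P.al) * P.c2 * L (dl .M) + P.c1 * L SA6_oF)
        + P.c1 * (1 - P.b) * L (dl (.cF 0)) := by
    have e : L (Pu P (fun _ => 1))
        = L (kd P 0 + P.b • (((1 - P.al) * P.c2) • dl .M + P.c1 • SA6_oF)
          + (P.c1 * (1 - P.b)) • dl (.cF 0)) := by
      refine hL.congr fun s _ hz => ?_
      rw [SA6_Pu_one P s hz]
      simp only [Pi.add_apply, Pi.smul_apply, smul_eq_mul]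
    rw [e]
    simp only [map_add, map_smul, smul_eq_mul]
  have h2 : (1 - P.al) * P.c2 * L (dl .M) + P.c1 * L SA6_oF
      ≤ L (Pu P (fun _ => 1)) + L (Pd P (fun _ => 1)) := by
    have e : L (((1 - P.al) * P.c2) • dl .M + P.c1 • SA6_oF)
        ≤ L (Pu P (fun _ => 1) + Pd P (fun _ => 1)) := by
      refine hL.mono fun s _ hz => ?_
      have := SA6_sum_ge hG s hz
      simpa [Pi.add_apply, Pi.smul_apply, smul_eq_mul] using this
    simpa only [map_add, map_smul, smul_eq_mul] using e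
  have h3 := kd_le hG hL 0
  have h4 := Bd_zero_le hG 0
  have h5 : L (kd P 0) ≤ (C.K1 + C.K2) * om P * (L (dl .F) + L (dl .M)) :=
    h3.trans (mul_le_mul_of_nonneg_right (mul_le_mul_of_nonneg_right h4 hom.le) (by linarith))
  have h6 := hL.j1 0 (Nat.zero_le _)
  have hth := th_nonneg hG 0
  have h7 : P.c1 * (1 - P.b) * L (dl (.cF 0)) ≤ P.c1 * th P 0 * (L (dl .F) + L (dl .M)) := by
    have e1 : P.c1 * (1 - P.b) * L (dl (.cF 0)) ≤ P.c1 * L (dl (.cF 0)) := by
      have h0 := L_F_nonneg hL (.cF 0)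
      have : 0 ≤ P.c1 * P.b * L (dl (.cF 0)) := mul_nonneg (mul_nonneg hc1.le hb0) h0
      nlinarith
    have e2 : P.c1 * L (dl (.cF 0)) ≤ P.c1 * (th P 0 * L (dl .F)) :=
      mul_le_mul_of_nonneg_left h6 hc1.le
    have e3 : 0 ≤ P.c1 * th P 0 * L (dl .M) := mul_nonneg (mul_nonneg hc1.le hth) hM
    nlinarith
  have h8 : (P.c1 * th P 0 + (C.K1 + C.K2) * om P) * (L (dl .F) + L (dl .M))
      ≤ (C.be - P.b) * (1 - P.al) * P.c1 * (L (dl .F) + L (dl .M)) :=
    mul_le_mul_of_nonneg_right hG.g10 (by linarith)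
  have h9 : L (dl .F) ≤ L SA6_oF := by
    refine hL.mono fun s _ hz => ?_
    rcases s with _ | _ | _ | _ | r | r | ⟨m, g', s⟩ | ⟨g', s⟩ | s
    all_goals simp [SA6_oF, dl]
  have hbe : 0 ≤ C.be - P.b := by
    have e1 := hG.g11
    have e2 := SA6_kap_nonneg hG 0
    linarith
  set A := (1 - P.al) * P.c2 * L (dl .M) + P.c1 * L SA6_oF with hA
  have h10 : (1 - P.al) * P.c1 * (L (dl .F) + L (dl .M)) ≤ A := by
    rw [hA]
    have e1 : (1 - P.al) * P.c1 * L (dl .F) ≤ P.c1 * L SA6_oF := by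
      have : 0 ≤ P.al * P.c1 * L (dl .F) := mul_nonneg (mul_nonneg hal hc1.le) hF
      have e2 : P.c1 * L (dl .F) ≤ P.c1 * L SA6_oF := mul_le_mul_of_nonneg_left h9 hc1.le
      nlinarith
    have e3 : (1 - P.al) * P.c1 * L (dl .M) ≤ (1 - P.al) * P.c2 * L (dl .M) :=
      mul_le_mul_of_nonneg_right
        (mul_le_mul_of_nonneg_left hG.c12.le (by linarith)) hM
    linarith
  have h11 : (C.be - P.b) * ((1 - P.al) * P.c1 * (L (dl .F) + L (dl .M)))
      ≤ (C.be - P.b) * A := mul_le_mul_of_nonneg_left h10 hbe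
  have h12 : C.be * A ≤ C.be * (L (Pu P (fun _ => 1)) + L (Pd P (fun _ => 1))) :=
    mul_le_mul_of_nonneg_left h2 hG.be0
  refine le_trans ?_ h12
  rw [h1]
  nlinarith

theorem upD {P : Par} {C : Cst} {L : (St → ℝ) →ₗ[ℝ] ℝ} (hG : Good P C) (hL : ConeD P C L) :
    L (Pu P (fun _ => 1)) ≤ C.be * L (fun _ => 1) := by
  have hb0 := hG.b0
  have hb1 := hG.b1
  have h1 : L (Pu P (fun _ => 1)) ≤ P.b * L (fun _ => 1) + L (dl (.cO 0)) + L (dWg 0) := by
    have e : L (Pu P (fun _ => 1)) ≤ L (P.b • (fun _ => 1) + dl (.cO 0) + dWg 0) := by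
      refine hL.mono fun s _ hz => ?_
      simp only [Pi.add_apply, Pi.smul_apply, smul_eq_mul]
      rcases s with _ | _ | _ | _ | r | r | ⟨m, g', s⟩ | ⟨g', s⟩ | s
      · simp [St.z] at hz
      · simp [St.z] at hz
      · simp [St.z] at hz
      · simp [Pu, dl, dWg]
        linarith
      · simp [St.z] at hz
      · cases r
        · simp [Pu, dl, dWg]
          exact hb0
        · simp [Pu, dl, dWg]
      · simp [St.z] at hz
      · cases g'
        · simp [Pu, dl, dWg]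
          exact hb0
        · simp [Pu, dl, dWg]
          exact hb0
      · simp [St.z] at hz
    simpa only [map_add, map_smul, smul_eq_mul] using e
  have h2 := hL.z1 0 (Nat.zero_le _)
  have h3 := hL.z2 0 (Nat.zero_le _)
  have hO := LD_F_nonneg hL .O
  have hO1 : L (dl .O) ≤ L (fun _ => 1) := by
    refine hL.mono fun s _ _ => ?_
    unfold dl
    split_ifs <;> norm_num
  have hth := th_nonneg hG 0
  have hk := SA6_kap_nonneg hG 0
  have h4 : th P 0 * L (dl .O) ≤ th P 0 * L (fun _ => 1) := mul_le_mul_of_nonneg_left hO1 hth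
  have h5 : kap P C 0 * L (dl .O) ≤ kap P C 0 * L (fun _ => 1) :=
    mul_le_mul_of_nonneg_left hO1 hk
  have h6 : (P.b + th P 0 + kap P C 0) * L (fun _ => 1) ≤ C.be * L (fun _ => 1) :=
    mul_le_mul_of_nonneg_right hG.g11 (hO.trans hO1)
  linarith

end H50CP
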