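import Pool.Agent.H50.CP.SA1
import Pool.Agent.H50.CP.SA2
import Pool.Agent.H50.CP.SA3
import Pool.Agent.H50.CP.SA4
import Pool.Agent.H50.CP.SA5
import Pool.Agent.H50.CP.SA6

/-! # SA7: the upper comparison -/

namespace H50CP

open Finset

theorem coneA_s {P : Par} {C : Cst} {L : (St → ℝ) →ₗ[ℝ] ℝ} (hG : Good P C)
    (hL : ConeA P C L) : ConeA P C (L ∘ₗ PsL P) where
  pos φ h := hL.pos _ fun s hs _ => Ps_nonneg hG φ h s hs
  j1 := j1_s hG hL
  j2 := j2_s hG hL
  j3 := j3_s hG hL
  j4 := j4_s hG hL
  j5 := j5_s hG hL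

theorem coneA_u {P : Par} {C : Cst} {L : (St → ℝ) →ₗ[ℝ] ℝ} (hG : Good P C)
    (hL : ConeA P C L) : ConeA P C (L ∘ₗ PuL P) where
  pos φ h := hL.pos _ fun s hs _ => Pu_nonneg hG φ h s hs
  j1 := j1_u hG hL
  j2 := j2_u hG hL
  j3 := j3_u hG hL
  j4 := j4_u hG hL
  j5 := j5_u hG hL

theorem coneA_ud {P : Par} {C : Cst} {L : (St → ℝ) →ₗ[ℝ] ℝ} (hG : Good P C)
    (hL : ConeD P C L) : ConeA P C (L ∘ₗ PuL P) where
  pos φ h := hL.pos _ fun s hs _ => Pu_nonneg hG φ h s hs
  j1 := j1_ud hG hL
  j2 := j2_ud hG hL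
  j3 := j3_ud hG hL
  j4 := j4_ud hG hL
  j5 := j5_ud hG hL

theorem coneD_d {P : Par} {C : Cst} {L : (St → ℝ) →ₗ[ℝ] ℝ} (hG : Good P C)
    (hL : ConeA P C L) : ConeD P C (L ∘ₗ PdL P) where
  pos φ h := hL.pos _ fun s hs _ => Pd_nonneg hG φ h s hs
  z1 := z1_d hG hL
  z2 := z2_d hG hL

theorem coneD_dd {P : Par} {C : Cst} {L : (St → ℝ) →ₗ[ℝ] ℝ} (hG : Good P C)
    (hL : ConeD P C L) : ConeD P C (L ∘ₗ PdL P) where
  pos φ h := hL.pos _ fun s hs _ => Pd_nonneg hG φ h s hs
  z1 := z1_dd hG hL
  z2 := z2_dd hG hL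

/-- `Ps` only sees healthy states as 0 -/
theorem Ps_dead (P : Par) (φ : St → ℝ) (s : St) (h : s.z = false) : Ps P φ s = 0 := by
  rcases s with _ | _ | _ | _ | r | r | ⟨m, g, s⟩ | ⟨g, s⟩ | s <;> simp_all [St.z, Ps]

theorem Mono2.cons {K : ℕ} {Φ : (Fin (K + 1) → Bool) → (Fin (K + 1) → Bool) → ℝ}
    (h : Mono2 Φ) (z e : Bool) : Mono2 (fun x y => Φ (Fin.cons z x) (Fin.cons e y)) := by
  intro x x' y y' hx hy
  apply h
  · intro i; refine Fin.cases ?_ (fun j => ?_) i
    · simp
    · simpa using hx j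
  · intro i; refine Fin.cases ?_ (fun j => ?_) i
    · simp
    · simpa using hy j

theorem cons_le_cons {K : ℕ} {z z' : Bool} {x x' : Fin K → Bool} (hz : z ≤ z') (hx : x ≤ x') :
    (Fin.cons z x : Fin (K + 1) → Bool) ≤ Fin.cons z' x' := by
  intro i; refine Fin.cases ?_ (fun j => ?_) i
  · simpa using hz
  · simpa using hx j

theorem bw_avg_le {p : ℝ} {X Y : Bool → ℝ} (h0 : 0 ≤ p) (h1 : p ≤ 1) (h : ∀ b, X b ≤ Y b) :
    ∑ b : Bool, bw p b * X b ≤ ∑ b : Bool, bw p b * Y b := by
  apply Finset.sum_le_sum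
  intro b _
  apply mul_le_mul_of_nonneg_left (h b)
  cases b <;> simp [bw] <;> linarith

/-- monotonicity of the chain `chE` in the starting state and the functional -/
theorem chE_mono {q be a : ℝ} (hq0 : 0 ≤ q) (hb0 : 0 ≤ be) (hb1 : be ≤ 1)
    (ha0 : 0 ≤ a) (ha1 : a ≤ 1) (hpz : be ≤ 1 - q * (1 - be)) :
    ∀ (K : ℕ) (Φ Φ' : (Fin K → Bool) → (Fin K → Bool) → ℝ), Mono2 Φ → Mono2 Φ' →
      (∀ x y, Φ x y ≤ Φ' x y) → ∀ z z' : Bool, z ≤ z' → chE q be a K Φ z ≤ chE q be a K Φ' z' := by
  intro K
  induction K with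
  | zero => intro Φ Φ' _ _ h z z' _; simp only [chE]; exact h _ _
  | succ K ih =>
    intro Φ Φ' hm hm' h z z' hz
    have hpz0 : ∀ z : Bool, 0 ≤ pz q be z := by
      intro z; cases z <;> simp [pz]
      · exact hb0
      · linarith
    have hpz1 : ∀ z : Bool, pz q be z ≤ 1 := by
      intro z; cases z <;> simp [pz]
      · exact hb1
      · exact mul_nonneg hq0 (by linarith)
    -- inner expectation is monotone
    have key : ∀ (e e' : Bool), e ≤ e' →
        (∑ w : Bool, bw (pz q be z) w *
          chE q be a K (fun x y => Φ (Fin.cons w x) (Fin.cons e y)) w) ≤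
        (∑ w : Bool, bw (pz q be z') w *
          chE q be a K (fun x y => Φ' (Fin.cons w x) (Fin.cons e' y)) w) := by
      intro e e' he
      have h1 : ∀ w : Bool, chE q be a K (fun x y => Φ (Fin.cons w x) (Fin.cons e y)) w ≤
          chE q be a K (fun x y => Φ' (Fin.cons w x) (Fin.cons e' y)) w := by
        intro w
        apply ih _ _ (hm.cons _ _) (hm'.cons _ _) _ _ _ le_rfl
        intro x y
        exact (h _ _).trans (hm' _ _ _ _ le_rfl (cons_le_cons he le_rfl))
      have h2 : chE q be a K (fun x y => Φ' (Fin.cons false x) (Fin.cons e' y)) false ≤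
          chE q be a K (fun x y => Φ' (Fin.cons true x) (Fin.cons e' y)) true := by
        apply ih _ _ (hm'.cons _ _) (hm'.cons _ _) _ _ _ (Bool.false_le _)
        intro x y
        exact hm' _ _ _ _ (cons_le_cons (Bool.false_le _) le_rfl) le_rfl
      refine (bw_avg_le (hpz0 z) (hpz1 z) h1).trans ?_
      simp only [Fintype.sum_bool, bw]
      have hp : pz q be z ≤ pz q be z' := by
        cases z <;> cases z'
        · exact le_rfl
        · simpa [pz] using hpz
        · exact absurd hz (by decide)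
        · exact le_rfl
      simp only [if_true, Bool.false_eq_true, if_false]
      nlinarith
    have fin : ∀ A B : Bool → ℝ, A true ≤ B true → A false ≤ B false → A false ≤ B true →
        ∑ e : Bool, em a z e * A e ≤ ∑ e : Bool, em a z' e * B e := by
      intro A B k11 k00 k01
      rw [Fintype.sum_bool, Fintype.sum_bool]
      cases z <;> cases z'
      · simp only [em, Bool.false_eq_true, if_false, if_true]
        linarith
      · simp only [em, Bool.false_eq_true, if_false, if_true]
        have t1 := mul_le_mul_of_nonneg_left k01 ha0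
        have t2 := mul_le_mul_of_nonneg_left k00 (sub_nonneg.2 ha1)
        linarith
      · exact absurd hz (by decide)
      · simp only [em, Bool.false_eq_true, if_false, if_true]
        have t1 := mul_le_mul_of_nonneg_left k11 ha0
        have t2 := mul_le_mul_of_nonneg_left k00 (sub_nonneg.2 ha1)
        linarith
    simp only [chE]
    exact fin _ _ (key true true le_rfl) (key false false le_rfl)
      (key false true (Bool.false_le _))

/-- **upper comparison**: the infection values of the hidden chain are dominated by the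
single-site infection chain -/
theorem upper_cmp {P : Par} {C : Cst} (hG : Good P C) :
    ∀ (K : ℕ) (Φ : (Fin K → Bool) → (Fin K → Bool) → ℝ), Mono2 Φ →
      (∀ L : (St → ℝ) →ₗ[ℝ] ℝ, ConeA P C L →
        L (runE P K Φ) ≤ L (fun _ => 1) * chE P.q C.be P.a K Φ true) ∧
      (∀ L : (St → ℝ) →ₗ[ℝ] ℝ, ConeD P C L →
        L (runE P K Φ) ≤ L (fun _ => 1) * chE P.q C.be P.a K Φ false) := by
  have hq1 : P.q ≤ 1 := by linarith [hG.qc1, hG.c12, hG.c2lt]
  intro K
  induction K with
  | zero =>
    intro Φ hΦ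
    have e : ∀ L : (St → ℝ) →ₗ[ℝ] ℝ, L (runE P 0 Φ) = L (fun _ => 1) * Φ Fin.elim0 Fin.elim0 := by
      intro L
      have : runE P 0 Φ = (Φ Fin.elim0 Fin.elim0) • (fun _ => (1 : ℝ)) := by
        funext s; simp [runE]
      rw [this, map_smul, smul_eq_mul, mul_comm]
    refine ⟨fun L _ => ?_, fun L _ => ?_⟩ <;> rw [e] <;> simp [chE]
  | succ K ih =>
    intro Φ hΦ
    -- common one step estimate
    have step : ∀ (z : Bool) (LS LD L : (St → ℝ) →ₗ[ℝ] ℝ), ConeA P C LS → ConeD P C LD →
        (∀ φ, L (op P φ) = LS φ + LD φ) → LS (fun _ => 1) ≤ pz P.q C.be z * L (fun _ => 1) →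
        LS (fun _ => 1) + LD (fun _ => 1) = L (fun _ => 1) →
        (∀ f : St → ℝ, L f = L (fun s => f s)) →
        (∀ e : Bool, L (op P (fun s' => runE P K (fun x y => Φ (Fin.cons s'.z x) (Fin.cons e y)) s'))
          ≤ L (fun _ => 1) * ∑ z' : Bool, bw (pz P.q C.be z) z' *
            chE P.q C.be P.a K (fun x y => Φ (Fin.cons z' x) (Fin.cons e y)) z') := by
      intro z LS LD L hS hD hop hm htot _ e
      rw [hop]
      have h1 : LS (fun s' => runE P K (fun x y => Φ (Fin.cons s'.z x) (Fin.cons e y)) s')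
          ≤ LS (fun _ => 1) * chE P.q C.be P.a K (fun x y => Φ (Fin.cons true x) (Fin.cons e y)) true := by
        rw [hS.congr (ψ := runE P K (fun x y => Φ (Fin.cons true x) (Fin.cons e y)))
          (fun s _ hz => by rw [hz])]
        exact (ih _ (hΦ.cons _ _)).1 LS hS
      have h0 : LD (fun s' => runE P K (fun x y => Φ (Fin.cons s'.z x) (Fin.cons e y)) s')
          ≤ LD (fun _ => 1) * chE P.q C.be P.a K (fun x y => Φ (Fin.cons false x) (Fin.cons e y)) false := by
        rw [hD.congr (ψ := runE P K (fun x y => Φ (Fin.cons false x) (Fin.cons e y)))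
          (fun s _ hz => by rw [hz])]
        exact (ih _ (hΦ.cons _ _)).2 LD hD
      have h2 : chE P.q C.be P.a K (fun x y => Φ (Fin.cons false x) (Fin.cons e y)) false ≤
          chE P.q C.be P.a K (fun x y => Φ (Fin.cons true x) (Fin.cons e y)) true := by
        apply chE_mono hG.q0.le hG.be0 hG.be1 hG.a0 hG.a1 hG.pzmono K _ _ (hΦ.cons _ _)
          (hΦ.cons _ _) _ _ _ (Bool.false_le _)
        intro x y
        exact hΦ _ _ _ _ (cons_le_cons (Bool.false_le _) le_rfl) le_rfl
      simp only [Fintype.sum_bool, bw, if_true, Bool.false_eq_true, if_false]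
      set X1 := chE P.q C.be P.a K (fun x y => Φ (Fin.cons true x) (Fin.cons e y)) true
      set X0 := chE P.q C.be P.a K (fun x y => Φ (Fin.cons false x) (Fin.cons e y)) false
      have hD' : LD (fun _ => 1) = L (fun _ => 1) - LS (fun _ => 1) := by linarith
      rw [hD'] at h0
      have hp := mul_nonneg (sub_nonneg.2 hm) (sub_nonneg.2 h2)
      have e2 : (L fun _ => 1) * (pz P.q C.be z * X1 + (1 - pz P.q C.be z) * X0)
          = (pz P.q C.be z * L (fun _ => 1) - LS (fun _ => 1)) * (X1 - X0)
            + (LS (fun _ => 1) * X1 + (L (fun _ => 1) - LS (fun _ => 1)) * X0) := by ring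
      rw [e2]
      linarith
    constructor
    · intro L hL
      have hop : ∀ φ, L (op P φ) = (L ∘ₗ PsL P + L ∘ₗ PuL P) φ + (L ∘ₗ PdL P) φ := by
        intro φ
        have : op P φ = Ps P φ + Pu P φ + Pd P φ := by funext s; simp [op]
        rw [this, map_add, map_add]; rfl
      have htot : (L ∘ₗ PsL P + L ∘ₗ PuL P) (fun _ => 1) + (L ∘ₗ PdL P) (fun _ => 1)
          = L (fun _ => 1) := by
        rw [← hop]; congr 1; funext s; exact op_one P s
      have hm : (L ∘ₗ PsL P + L ∘ₗ PuL P) (fun _ => 1) ≤ pz P.q C.be true * L (fun _ => 1) := by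
        have k1 := kill hG hL
        have k2 := upA hG hL
        have k3 : L (Ps P (fun _ => 1)) + L (Pu P (fun _ => 1)) + L (Pd P (fun _ => 1))
            = L (fun _ => 1) := by simpa [LinearMap.add_apply] using htot
        simp only [LinearMap.add_apply, LinearMap.comp_apply, PsL_apply, PuL_apply, pz, if_true]
        nlinarith [hG.be1]
      have hs := step true _ _ L ((coneA_s hG hL).add (coneA_u hG hL)) (coneD_d hG hL) hop hm htot
        (fun _ => rfl)
      have e1 : L (runE P (K + 1) Φ) = ∑ e : Bool, em P.a true e *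
          L (op P (fun s' => runE P K (fun x y => Φ (Fin.cons s'.z x) (Fin.cons e y)) s')) := by
        rw [hL.congr (ψ := ∑ e : Bool, em P.a true e •
          op P (fun s' => runE P K (fun x y => Φ (Fin.cons s'.z x) (Fin.cons e y)) s'))]
        · rw [map_sum]; simp
        · intro s _ hz
          simp only [runE, hz, Finset.sum_apply, Pi.smul_apply, smul_eq_mul]
      rw [e1]
      simp only [chE]
      rw [Finset.mul_sum]
      apply Finset.sum_le_sum
      intro e _
      have hem : 0 ≤ em P.a true e := by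
        cases e <;> simp [em]
        · linarith [hG.a1]
        · exact hG.a0
      calc _ ≤ em P.a true e * (L (fun _ => 1) * ∑ z' : Bool, bw (pz P.q C.be true) z' *
            chE P.q C.be P.a K (fun x y => Φ (Fin.cons z' x) (Fin.cons e y)) z') :=
            mul_le_mul_of_nonneg_left (hs e) hem
        _ = _ := by ring
    · intro L hL
      have hPs : ∀ φ, L (Ps P φ) = 0 := by
        intro φ
        rw [hL.congr (ψ := 0) (fun s _ hz => by rw [Ps_dead P φ s hz]; rfl), map_zero]
      have hop : ∀ φ, L (op P φ) = (L ∘ₗ PuL P) φ + (L ∘ₗ PdL P) φ := by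
        intro φ
        have : op P φ = Ps P φ + Pu P φ + Pd P φ := by funext s; simp [op]
        rw [this, map_add, map_add, hPs, zero_add]; rfl
      have htot : (L ∘ₗ PuL P) (fun _ => 1) + (L ∘ₗ PdL P) (fun _ => 1)
          = L (fun _ => 1) := by
        rw [← hop]; congr 1; funext s; exact op_one P s
      have hm : (L ∘ₗ PuL P) (fun _ => 1) ≤ pz P.q C.be false * L (fun _ => 1) := by
        simpa [pz] using upD hG hL
      have hs := step false _ _ L (coneA_ud hG hL) (coneD_dd hG hL) hop hm htot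
        (fun _ => rfl)
      have e1 : L (runE P (K + 1) Φ) = ∑ e : Bool, em P.a false e *
          L (op P (fun s' => runE P K (fun x y => Φ (Fin.cons s'.z x) (Fin.cons e y)) s')) := by
        rw [hL.congr (ψ := ∑ e : Bool, em P.a false e •
          op P (fun s' => runE P K (fun x y => Φ (Fin.cons s'.z x) (Fin.cons e y)) s'))]
        · rw [map_sum]; simp
        · intro s _ hz
          simp only [runE, hz, Finset.sum_apply, Pi.smul_apply, smul_eq_mul]
      rw [e1]
      simp only [chE]
      rw [Finset.mul_sum]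
      apply Finset.sum_le_sum
      intro e _
      have hem : 0 ≤ em P.a false e := by cases e <;> simp [em]
      calc _ ≤ em P.a false e * (L (fun _ => 1) * ∑ z' : Bool, bw (pz P.q C.be false) z' *
            chE P.q C.be P.a K (fun x y => Φ (Fin.cons z' x) (Fin.cons e y)) z') :=
            mul_le_mul_of_nonneg_left (hs e) hem
        _ = _ := by ring

end H50CP
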