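import Pool.Agent.H50.CP.SBDefs

/-!
# SB1: algebra of the window part

All statements are finite sums over antidiagonals.
* `LDv_one`: `Σ_{m+g+s=r} (g+1) = binom(r+3,3)`, `Σ_{g ≤ r} (g+1) = (r+1)(r+2)/2`.
* `LDv_step`: one step of the deterministic schedule (see the definition of `Ps`, `Pu`, `Pd` at
  `V`, `W`, `S`): `V (m+1) g s → V m g s`, `V 0 (g+1) s → W g s`, `V 0 0 s → nx s`,
  `W (g+1) s → W g s`, `W 0 s → nx s`, `S (s+1) → S s`; split the antidiagonal sums with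
  `Finset.Nat.antidiagonal_succ`.
* `win_eq`: `dW (l+1) g = (g+1)/binom(l+4,3)`.
Useful: `(Nat.choose (k+2) 3 : ℝ) = k (k+1) (k+2) / 6`, `Finset.Nat.antidiagonal_succ`,
`Finset.Nat.sum_antidiagonal_succ`.
-/

namespace H50CP

open Finset

private theorem SB1_choose3 (k : ℕ) :
    (((k + 3).choose 3 : ℕ) : ℝ) = ((k : ℝ) + 1) * (k + 2) * (k + 3) / 6 := by
  induction k with
  | zero => norm_num
  | succ k ih =>
    have h2 : (((k + 3).choose 2 : ℕ) : ℝ) = ((k : ℝ) + 3) * (k + 2) / 2 := by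
      rw [Nat.cast_choose_two]; push_cast; ring
    have : (k + 1 + 3).choose 3 = (k + 3).choose 2 + (k + 3).choose 3 := by
      rw [show k + 1 + 3 = (k + 3) + 1 by ring, Nat.choose_succ_succ]
    rw [this]
    push_cast
    rw [h2, ih]
    ring

private theorem SB1_sumW (r : ℕ) (A B : ℝ) :
    ∑ p ∈ antidiagonal r, (A * ((p.1 : ℝ) + 1) + B) =
      A * (((r : ℝ) + 1) * (r + 2) / 2) + B * ((r : ℝ) + 1) := by
  induction r generalizing A B with
  | zero => simp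
  | succ r ih =>
    rw [Finset.Nat.sum_antidiagonal_succ]
    have h : ∀ p : ℕ × ℕ, A * (((p.1 + 1 : ℕ) : ℝ) + 1) + B = A * ((p.1 : ℝ) + 1) + (A + B) := by
      intro p; push_cast; ring
    simp only [h]
    rw [ih]
    push_cast
    ring

private theorem SB1_sumV (r : ℕ) :
    ∑ p ∈ antidiagonal r, ∑ t ∈ antidiagonal p.2, ((t.1 : ℝ) + 1) =
      ((r + 3).choose 3 : ℝ) := by
  induction r with
  | zero => simp
  | succ r ih =>
    rw [Finset.Nat.sum_antidiagonal_succ]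
    simp only [ih]
    have h := SB1_sumW (r + 1) 1 0
    simp only [one_mul, add_zero, zero_mul] at h
    rw [h, SB1_choose3, SB1_choose3]
    push_cast
    ring

theorem LDv_one (u Y0 Y1 sg : ℝ) (r : ℕ) :
    LDv u Y0 Y1 sg r (fun _ => 1) = D1 u sg r + D0 Y0 Y1 r := by
  unfold LDv D1 D0
  simp only [mul_one]
  rw [SB1_sumW, SB1_sumV]
  ring

/-- linearity in the parameters, together with the emission: -/
theorem LDv_em (a u Y0 Y1 sg : ℝ) (r : ℕ) (G : Bool → St → ℝ) :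
    LDv u Y0 Y1 sg r (fun s => ∑ e : Bool, em a s.z e * G e s) =
      ∑ e : Bool, LDv (em a true e * u) (em a false e * Y0) (em a false e * Y1)
        (em a true e * sg) r (G e) := by
  unfold LDv
  simp only [Fintype.sum_bool, St.z]
  have h1 : ∀ (x y : ℝ) (f g : St → ℝ),
      ∑ p ∈ antidiagonal r, ∑ t ∈ antidiagonal p.2,
        ((t.1 : ℝ) + 1) * (x * f (.V p.1 t.1 t.2) + y * g (.V p.1 t.1 t.2)) =
      x * ∑ p ∈ antidiagonal r, ∑ t ∈ antidiagonal p.2, ((t.1 : ℝ) + 1) * f (.V p.1 t.1 t.2) +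
      y * ∑ p ∈ antidiagonal r, ∑ t ∈ antidiagonal p.2, ((t.1 : ℝ) + 1) * g (.V p.1 t.1 t.2) := by
    intro x y f g
    rw [Finset.mul_sum, Finset.mul_sum, ← Finset.sum_add_distrib]
    refine Finset.sum_congr rfl fun p _ => ?_
    rw [Finset.mul_sum, Finset.mul_sum, ← Finset.sum_add_distrib]
    refine Finset.sum_congr rfl fun t _ => ?_
    ring
  have h2 : ∀ (x y : ℝ) (f g : St → ℝ),
      ∑ p ∈ antidiagonal r, (Y0 * ((p.1 : ℝ) + 1) + Y1) * (x * f (.W p.1 p.2) + y * g (.W p.1 p.2)) =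
      ∑ p ∈ antidiagonal r, (x * Y0 * ((p.1 : ℝ) + 1) + x * Y1) * f (.W p.1 p.2) +
      ∑ p ∈ antidiagonal r, (y * Y0 * ((p.1 : ℝ) + 1) + y * Y1) * g (.W p.1 p.2) := by
    intro x y f g
    rw [← Finset.sum_add_distrib]
    refine Finset.sum_congr rfl fun p _ => ?_
    ring
  rw [h1, h2]
  ring

private theorem SB1_op_V_succ (P : Par) (φ : St → ℝ) (m g s : ℕ) :
    op P φ (.V (m + 1) g s) = φ (.V m g s) := by
  simp [op, Ps, Pu, Pd]

private theorem SB1_op_V_zero_succ (P : Par) (φ : St → ℝ) (g s : ℕ) :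
    op P φ (.V 0 (g + 1) s) = φ (.W g s) := by
  simp [op, Ps, Pu, Pd]

private theorem SB1_op_V_zero_zero (P : Par) (φ : St → ℝ) (s : ℕ) :
    op P φ (.V 0 0 s) = φ (nx s) := by
  simp [op, Ps, Pu, Pd]

private theorem SB1_op_W_succ (P : Par) (φ : St → ℝ) (g s : ℕ) :
    op P φ (.W (g + 1) s) = φ (.W g s) := by
  simp [op, Ps, Pu, Pd]

private theorem SB1_op_W_zero (P : Par) (φ : St → ℝ) (s : ℕ) :
    op P φ (.W 0 s) = φ (nx s) := by
  simp [op, Ps, Pu, Pd]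

private theorem SB1_op_S_succ (P : Par) (φ : St → ℝ) (s : ℕ) :
    op P φ (.S (s + 1)) = φ (.S s) := by
  simp [op, Ps, Pu, Pd]

private theorem SB1_op_S_zero (P : Par) (φ : St → ℝ) :
    op P φ (.S 0) = φ .I := by
  simp [op, Ps, Pu, Pd]

theorem LDv_step (P : Par) (u Y0 Y1 sg : ℝ) (r : ℕ) (φ : St → ℝ) :
    LDv u Y0 Y1 sg (r + 1) (op P φ) = LDv u (Y0 + u) (Y0 + Y1 + u) (sg + Y0 + Y1 + u) r φ := by
  unfold LDv
  rw [Finset.Nat.sum_antidiagonal_succ, Finset.Nat.sum_antidiagonal_succ,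
    Finset.Nat.sum_antidiagonal_succ]
  simp only [SB1_op_V_succ, SB1_op_V_zero_succ, SB1_op_V_zero_zero, SB1_op_W_succ,
    SB1_op_W_zero, SB1_op_S_succ, nx]
  have h2 : ∑ p ∈ antidiagonal r, ((Y0 + u) * ((p.1 : ℝ) + 1) + (Y0 + Y1 + u)) * φ (.W p.1 p.2) =
      u * ∑ p ∈ antidiagonal r, (((p.1 + 1 : ℕ) : ℝ) + 1) * φ (.W p.1 p.2) +
      ∑ p ∈ antidiagonal r, (Y0 * (((p.1 + 1 : ℕ) : ℝ) + 1) + Y1) * φ (.W p.1 p.2) := by
    rw [Finset.mul_sum, ← Finset.sum_add_distrib]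
    refine Finset.sum_congr rfl fun p _ => ?_
    push_cast
    ring
  rw [h2]
  push_cast
  ring

theorem LDv_step0 (P : Par) (u Y0 Y1 sg : ℝ) (φ : St → ℝ) :
    LDv u Y0 Y1 sg 0 (op P φ) = (u + Y0 + Y1 + sg) * φ .I := by
  unfold LDv
  simp only [Finset.Nat.antidiagonal_zero, Finset.sum_singleton, SB1_op_V_zero_zero, SB1_op_W_zero,
    SB1_op_S_zero, nx]
  push_cast
  ring

/-- masses are preserved by the step -/
theorem D_step (u Y0 Y1 sg : ℝ) (r : ℕ) :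
    D1 u sg (r + 1) + D0 Y0 Y1 (r + 1) =
      D1 u (sg + Y0 + Y1 + u) r + D0 (Y0 + u) (Y0 + Y1 + u) r := by
  unfold D1 D0
  rw [SB1_choose3, SB1_choose3]
  push_cast
  ring

theorem D_step0 (u Y0 Y1 sg : ℝ) : D1 u sg 0 + D0 Y0 Y1 0 = u + Y0 + Y1 + sg := by
  unfold D1 D0
  norm_num
  ring

/-- the three pieces of a window of length `l+1` -/
theorem win_eq (l : ℕ) (φ : St → ℝ) :
    winS l φ + winU l φ + winD l φ =
      LDv (1 / ((l + 4).choose 3 : ℝ)) (1 / ((l + 4).choose 3 : ℝ)) (1 / ((l + 4).choose 3 : ℝ))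
        (1 / ((l + 4).choose 3 : ℝ)) l φ := by
  have hd : ∀ g : ℕ, dW (l + 1) g = 1 / ((l + 4).choose 3 : ℝ) * ((g : ℝ) + 1) := by
    intro g
    unfold dW
    rw [show l + 1 + 3 = l + 4 by ring]
    ring
  unfold winS winU winD LDv
  simp only [hd]
  rw [Finset.mul_sum]
  have h1 : ∀ p : ℕ × ℕ, ∑ t ∈ antidiagonal p.2, 1 / ((l + 4).choose 3 : ℝ) * ((t.1 : ℝ) + 1) *
      φ (.V p.1 t.1 t.2) = 1 / ((l + 4).choose 3 : ℝ) *
      ∑ t ∈ antidiagonal p.2, ((t.1 : ℝ) + 1) * φ (.V p.1 t.1 t.2) := by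
    intro p
    rw [Finset.mul_sum]
    refine Finset.sum_congr rfl fun t _ => ?_
    ring
  simp only [h1]
  have h2 : ∑ p ∈ antidiagonal l, 1 / ((l + 4).choose 3 : ℝ) * (((p.1 + 1 : ℕ) : ℝ) + 1) *
      φ (.W p.1 p.2) = ∑ p ∈ antidiagonal l, (1 / ((l + 4).choose 3 : ℝ) * ((p.1 : ℝ) + 1) +
        1 / ((l + 4).choose 3 : ℝ)) * φ (.W p.1 p.2) := by
    refine Finset.sum_congr rfl fun p _ => ?_
    push_cast
    ring
  rw [h2]
  push_cast
  ring

theorem LDv_smul (c u Y0 Y1 sg : ℝ) (r : ℕ) (φ : St → ℝ) :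
    c * LDv u Y0 Y1 sg r φ = LDv (c * u) (c * Y0) (c * Y1) (c * sg) r φ := by
  unfold LDv
  have h2 : ∑ p ∈ antidiagonal r, (c * Y0 * ((p.1 : ℝ) + 1) + c * Y1) * φ (.W p.1 p.2) =
      c * ∑ p ∈ antidiagonal r, (Y0 * ((p.1 : ℝ) + 1) + Y1) * φ (.W p.1 p.2) := by
    rw [Finset.mul_sum]
    refine Finset.sum_congr rfl fun p _ => ?_
    ring
  rw [h2]
  ring

theorem D_start (c : ℝ) (l : ℕ) :
    D1 (c / ((l + 4).choose 3 : ℝ)) (c / ((l + 4).choose 3 : ℝ)) l +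
      D0 (c / ((l + 4).choose 3 : ℝ)) (c / ((l + 4).choose 3 : ℝ)) l = c := by
  unfold D1 D0
  have h4 : (((l + 4).choose 3 : ℕ) : ℝ) = ((l : ℝ) + 2) * (l + 3) * (l + 4) / 6 := by
    have := SB1_choose3 (l + 1)
    rw [show l + 1 + 3 = l + 4 by ring] at this
    rw [this]
    push_cast
    ring
  rw [h4, SB1_choose3]
  have h : ((l : ℝ) + 2) * (l + 3) * (l + 4) ≠ 0 := by positivity
  have h1 : ((l : ℝ) + 2) ≠ 0 := by positivity
  have h3 : ((l : ℝ) + 3) ≠ 0 := by positivity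
  have h5 : ((l : ℝ) + 4) ≠ 0 := by positivity
  field_simp
  ring

end H50CP
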