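import Pool.Agent.H50.CP.SBDefs

/-!
# SB1n: numerical part for the window part

* `Dc_start`: `x = 1`.
* `Dc_step`: `binom(x+3,3) - binom(x+2,3) = (x+1)(x+2)/2 = 1 + x + x(x+1)/2`.
* `D_ratio`: `D1 ≥ rh^(x-1) ub [binom(r+3,3) + binom(x+2,3)]`, `D0 ≤ ub x (r+1)(r+x+3)/2`, and
  with `p = r+1`, `p(p+1)(p+2) + x(x+1)(x+2) ≥ x p (x+p+2)`; `rh^(x-1) ≥ rh^n`.
* `D_mass`: if `x + r = n+1`, with `p = r+1`, `S = p + x = n+2`:
  `p(p+1)(p+2) + x(x+1)(x+2) ≥ S(S+1)(S+2)/4` (power means), i.e.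
  `binom(r+3,3) + binom(x+2,3) ≥ binom(n+4,3)/4`.
Useful: `(Nat.choose (k+2) 3 : ℝ) = k (k+1) (k+2) / 6` (prove by induction with
`Nat.choose_succ_succ`, or from `Nat.descFactorial`/`Nat.add_choose`).
-/

namespace H50CP

open Finset

private theorem SB1n_choose (k : ℕ) :
    ((k + 2).choose 3 : ℝ) = k * (k + 1) * (k + 2) / 6 := by
  induction k with
  | zero => simp
  | succ k ih =>
    have h2 : ((k + 2).choose 2 : ℝ) = (k + 2) * (k + 1) / 2 := by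
      have := Nat.choose_two_right (k + 2)
      have h3 : 2 * (k + 2).choose 2 = (k + 2) * (k + 1) := by
        rw [this]
        have h4 : (k + 2) * (k + 2 - 1) = (k + 2) * (k + 1) := rfl
        rw [h4]
        refine Nat.mul_div_cancel' ?_
        rw [mul_comm]
        exact (Nat.even_mul_succ_self (k + 1)).two_dvd
      have h5 : (2 : ℝ) * ((k + 2).choose 2 : ℝ) = (k + 2) * (k + 1) := by
        exact_mod_cast h3
      linarith
    have h1 : (k + 1 + 2).choose 3 = (k + 2).choose 2 + (k + 2).choose 3 :=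
      Nat.choose_succ_succ (k + 2) 2
    rw [h1]
    push_cast
    rw [ih, h2]
    ring

theorem Dc_nonneg {P : Par} {x : ℕ} {ub u Y0 Y1 sg : ℝ} (h : Dc P x ub u Y0 Y1 sg)
    (ha1 : P.a ≤ 1) : 0 ≤ u ∧ 0 ≤ Y0 ∧ 0 ≤ Y1 ∧ 0 ≤ sg := by
  have hr : 0 ≤ (1 - P.a) ^ (x - 1) := pow_nonneg (by linarith) _
  have hub := h.ub0
  refine ⟨le_trans ?_ h.u_ge, le_trans ?_ h.Y0_ge, le_trans ?_ h.Y1_ge, le_trans ?_ h.sg_ge⟩
  · positivity
  · positivity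
  · positivity
  · positivity

theorem Dc_start (P : Par) {w : ℝ} (hw : 0 ≤ w) : Dc P 1 w w w w w where
  x1 := le_refl _
  ub0 := hw
  u_le := le_refl _
  u_ge := by simp
  Y0_le := by simp
  Y0_ge := by simp
  Y1_le := by norm_num
  Y1_ge := by norm_num
  sg_ge := by simp

/-- no arrow in the slot -/
theorem Dc_step {P : Par} {x : ℕ} {ub u Y0 Y1 sg : ℝ} (h : Dc P x ub u Y0 Y1 sg)
    (ha0 : 0 ≤ P.a) (ha1 : P.a ≤ 1) :
    Dc P (x + 1) ub ((1 - P.a) * u) (Y0 + (1 - P.a) * u) (Y0 + Y1 + (1 - P.a) * u)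
      ((1 - P.a) * sg + Y0 + Y1 + (1 - P.a) * u) := by
  obtain ⟨hu, hY0, hY1, hsg⟩ := Dc_nonneg h ha1
  have hub := h.ub0
  have hr0 : 0 ≤ 1 - P.a := by linarith
  have hr1 : 1 - P.a ≤ 1 := by linarith
  have hpow : (1 - P.a) ^ x = (1 - P.a) * (1 - P.a) ^ (x - 1) := by
    rw [← pow_succ']
    congr 1
    have := h.x1
    omega
  have hrx : 0 ≤ (1 - P.a) ^ (x - 1) := pow_nonneg hr0 _
  have hple : (1 - P.a) ^ x ≤ (1 - P.a) ^ (x - 1) := by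
    rw [hpow]
    nlinarith
  have hu1 : (1 - P.a) * u ≤ ub := by
    have := h.u_le
    nlinarith
  have hu2 : (1 - P.a) ^ x * ub ≤ (1 - P.a) * u := by
    rw [hpow, mul_assoc]
    exact mul_le_mul_of_nonneg_left h.u_ge hr0
  have hx0 : (0 : ℝ) ≤ x := Nat.cast_nonneg x
  have hY0' : (1 - P.a) ^ x * (x * ub) ≤ Y0 :=
    le_trans (mul_le_mul_of_nonneg_right hple (by positivity)) h.Y0_ge
  have hY1' : (1 - P.a) ^ x * (x * (x + 1) / 2 * ub) ≤ Y1 :=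
    le_trans (mul_le_mul_of_nonneg_right hple (by positivity)) h.Y1_ge
  have hsg' : (1 - P.a) ^ x * (((x + 2).choose 3 : ℝ) * ub) ≤ (1 - P.a) * sg := by
    rw [hpow, mul_assoc]
    exact mul_le_mul_of_nonneg_left h.sg_ge hr0
  refine ⟨by omega, hub, hu1, ?_, ?_, ?_, ?_, ?_, ?_⟩
  · simpa using hu2
  · have := h.Y0_le
    push_cast
    linarith
  · have : (1 - P.a) ^ (x + 1 - 1) * (((x + 1 : ℕ) : ℝ) * ub) =
        (1 - P.a) ^ x * (x * ub) + (1 - P.a) ^ x * ub := by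
      rw [Nat.add_sub_cancel]
      push_cast
      ring
    rw [this]
    linarith
  · have h1 := h.Y0_le
    have h2 := h.Y1_le
    push_cast
    have : ((x : ℝ) + 1) * (x + 1 + 1) / 2 * ub = x * ub + x * (x + 1) / 2 * ub + ub := by ring
    rw [this]
    linarith
  · have : (1 - P.a) ^ (x + 1 - 1) * (((x + 1 : ℕ) : ℝ) * (((x + 1 : ℕ) : ℝ) + 1) / 2 * ub) =
        (1 - P.a) ^ x * (x * ub) + (1 - P.a) ^ x * (x * (x + 1) / 2 * ub)
          + (1 - P.a) ^ x * ub := by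
      rw [Nat.add_sub_cancel]
      push_cast
      ring
    rw [this]
    linarith
  · have : (1 - P.a) ^ (x + 1 - 1) * (((x + 1 + 2).choose 3 : ℝ) * ub) =
        (1 - P.a) ^ x * (((x + 2).choose 3 : ℝ) * ub) + (1 - P.a) ^ x * (x * ub)
          + (1 - P.a) ^ x * (x * (x + 1) / 2 * ub) + (1 - P.a) ^ x * ub := by
      rw [Nat.add_sub_cancel, SB1n_choose (x + 1), SB1n_choose x]
      push_cast
      ring
    rw [this]
    linarith

/-- an arrow in the slot -/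
theorem Dc_mark {P : Par} {x : ℕ} {ub u Y0 Y1 sg : ℝ} (h : Dc P x ub u Y0 Y1 sg)
    (ha0 : 0 ≤ P.a) (ha1 : P.a ≤ 1) :
    Dc P 1 (P.a * u) (P.a * u) (0 + P.a * u) (0 + 0 + P.a * u) (P.a * sg + 0 + 0 + P.a * u) := by
  obtain ⟨hu, hY0, hY1, hsg⟩ := Dc_nonneg h ha1
  have h0 : 0 ≤ P.a * u := mul_nonneg ha0 hu
  have h1 : 0 ≤ P.a * sg := mul_nonneg ha0 hsg
  refine ⟨le_refl _, h0, le_refl _, ?_, ?_, ?_, ?_, ?_, ?_⟩
  · simp
  · simp
  · simp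
  · norm_num
  · norm_num
  · simp [h1]

theorem D_ratio {P : Par} {x r : ℕ} {ub u Y0 Y1 sg : ℝ} (h : Dc P x ub u Y0 Y1 sg)
    (hxr : x + r ≤ P.n + 1) (ha0 : 0 ≤ P.a) (ha1 : P.a ≤ 1) :
    (1 - P.a) ^ P.n / 3 * D0 Y0 Y1 r ≤ D1 u sg r := by
  obtain ⟨hu, hY0, hY1, hsg⟩ := Dc_nonneg h ha1
  have hub := h.ub0
  have hr0 : 0 ≤ 1 - P.a := by linarith
  have hr1 : 1 - P.a ≤ 1 := by linarith
  have hx0 : (0 : ℝ) ≤ x := Nat.cast_nonneg x
  have hr : (0 : ℝ) ≤ r := Nat.cast_nonneg r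
  have hple : (1 - P.a) ^ P.n ≤ (1 - P.a) ^ (x - 1) :=
    pow_le_pow_of_le_one hr0 hr1 (by omega)
  have hn0 : 0 ≤ (1 - P.a) ^ P.n := pow_nonneg hr0 _
  have hD0 : D0 Y0 Y1 r ≤ ub * (x * (r + 1) * (r + x + 3) / 2) := by
    unfold D0
    have h1 : Y0 * (((r : ℝ) + 1) * (r + 2) / 2) ≤ (x * ub) * (((r : ℝ) + 1) * (r + 2) / 2) :=
      mul_le_mul_of_nonneg_right h.Y0_le (by positivity)
    have h2 : Y1 * ((r : ℝ) + 1) ≤ (x * (x + 1) / 2 * ub) * ((r : ℝ) + 1) :=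
      mul_le_mul_of_nonneg_right h.Y1_le (by positivity)
    have h3 : ub * (x * ((r : ℝ) + 1) * (r + x + 3) / 2) =
        (x * ub) * (((r : ℝ) + 1) * (r + 2) / 2) + (x * (x + 1) / 2 * ub) * ((r : ℝ) + 1) := by
      ring
    linarith
  have hD1 : (1 - P.a) ^ P.n * (ub * (((r + 3).choose 3 : ℝ) + ((x + 2).choose 3 : ℝ))) ≤
      D1 u sg r := by
    unfold D1
    have h1 : (1 - P.a) ^ P.n * ub ≤ u :=
      le_trans (mul_le_mul_of_nonneg_right hple hub) h.u_ge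
    have h2 : (1 - P.a) ^ P.n * (((x + 2).choose 3 : ℝ) * ub) ≤ sg :=
      le_trans (mul_le_mul_of_nonneg_right hple (by positivity)) h.sg_ge
    have h3 : (1 - P.a) ^ P.n * ub * ((r + 3).choose 3 : ℝ) ≤ u * ((r + 3).choose 3 : ℝ) :=
      mul_le_mul_of_nonneg_right h1 (by positivity)
    have h4 : (1 - P.a) ^ P.n * (ub * (((r + 3).choose 3 : ℝ) + ((x + 2).choose 3 : ℝ))) =
        (1 - P.a) ^ P.n * ub * ((r + 3).choose 3 : ℝ)
          + (1 - P.a) ^ P.n * (((x + 2).choose 3 : ℝ) * ub) := by ring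
    linarith
  have hpoly : x * ((r : ℝ) + 1) * (r + x + 3) / 2 / 3 ≤
      ((r + 3).choose 3 : ℝ) + ((x + 2).choose 3 : ℝ) := by
    have e : r + 3 = (r + 1) + 2 := rfl
    rw [e, SB1n_choose (r + 1), SB1n_choose x]
    push_cast
    have h1 : 0 ≤ ((r : ℝ) + 1 + x) * ((r : ℝ) + 1 - x) ^ 2 :=
      mul_nonneg (by positivity) (sq_nonneg _)
    nlinarith [sq_nonneg ((r : ℝ) + 1 - x), sq_nonneg ((r : ℝ) + 1), sq_nonneg (x : ℝ)]
  refine le_trans ?_ hD1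
  calc (1 - P.a) ^ P.n / 3 * D0 Y0 Y1 r
      ≤ (1 - P.a) ^ P.n / 3 * (ub * (x * (r + 1) * (r + x + 3) / 2)) :=
        mul_le_mul_of_nonneg_left hD0 (by positivity)
    _ = (1 - P.a) ^ P.n * (ub * (x * (r + 1) * (r + x + 3) / 2 / 3)) := by ring
    _ ≤ _ := mul_le_mul_of_nonneg_left (mul_le_mul_of_nonneg_left hpoly hub) hn0

theorem D_mass {P : Par} {x r : ℕ} {ub u Y0 Y1 sg : ℝ} (h : Dc P x ub u Y0 Y1 sg)
    (hxr : x + r = P.n + 1) (ha0 : 0 ≤ P.a) (ha1 : P.a ≤ 1) :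
    (1 - P.a) ^ P.n / 4 * (ub * ((P.n + 4).choose 3 : ℝ)) ≤ D1 u sg r := by
  obtain ⟨hu, hY0, hY1, hsg⟩ := Dc_nonneg h ha1
  have hub := h.ub0
  have hr0 : 0 ≤ 1 - P.a := by linarith
  have hr1 : 1 - P.a ≤ 1 := by linarith
  have hx0 : (0 : ℝ) ≤ x := Nat.cast_nonneg x
  have hr : (0 : ℝ) ≤ r := Nat.cast_nonneg r
  have hple : (1 - P.a) ^ P.n ≤ (1 - P.a) ^ (x - 1) :=
    pow_le_pow_of_le_one hr0 hr1 (by omega)
  have hn0 : 0 ≤ (1 - P.a) ^ P.n := pow_nonneg hr0 _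
  have hD1 : (1 - P.a) ^ P.n * (ub * (((r + 3).choose 3 : ℝ) + ((x + 2).choose 3 : ℝ))) ≤
      D1 u sg r := by
    unfold D1
    have h1 : (1 - P.a) ^ P.n * ub ≤ u :=
      le_trans (mul_le_mul_of_nonneg_right hple hub) h.u_ge
    have h2 : (1 - P.a) ^ P.n * (((x + 2).choose 3 : ℝ) * ub) ≤ sg :=
      le_trans (mul_le_mul_of_nonneg_right hple (by positivity)) h.sg_ge
    have h3 : (1 - P.a) ^ P.n * ub * ((r + 3).choose 3 : ℝ) ≤ u * ((r + 3).choose 3 : ℝ) :=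
      mul_le_mul_of_nonneg_right h1 (by positivity)
    have h4 : (1 - P.a) ^ P.n * (ub * (((r + 3).choose 3 : ℝ) + ((x + 2).choose 3 : ℝ))) =
        (1 - P.a) ^ P.n * ub * ((r + 3).choose 3 : ℝ)
          + (1 - P.a) ^ P.n * (((x + 2).choose 3 : ℝ) * ub) := by ring
    linarith
  have hn : (P.n : ℝ) = x + r - 1 := by
    have : (x : ℝ) + r = P.n + 1 := by exact_mod_cast hxr
    linarith
  have hpoly : ((P.n + 4).choose 3 : ℝ) / 4 ≤
      ((r + 3).choose 3 : ℝ) + ((x + 2).choose 3 : ℝ) := by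
    have e : r + 3 = (r + 1) + 2 := rfl
    have e2 : P.n + 4 = (P.n + 2) + 2 := rfl
    rw [e, e2, SB1n_choose (r + 1), SB1n_choose x, SB1n_choose (P.n + 2)]
    push_cast
    rw [hn]
    have h1 : 0 ≤ ((r : ℝ) + 1 + x) * ((r : ℝ) + 1 - x) ^ 2 :=
      mul_nonneg (by positivity) (sq_nonneg _)
    nlinarith [sq_nonneg ((r : ℝ) + 1 - x), sq_nonneg ((r : ℝ) + 1), sq_nonneg (x : ℝ)]
  refine le_trans ?_ hD1
  calc (1 - P.a) ^ P.n / 4 * (ub * ((P.n + 4).choose 3 : ℝ))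
      = (1 - P.a) ^ P.n * (ub * (((P.n + 4).choose 3 : ℝ) / 4)) := by ring
    _ ≤ _ := mul_le_mul_of_nonneg_left (mul_le_mul_of_nonneg_left hpoly hub) hn0

end H50CP
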