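import Pool.Agent.H50.CP.SB1
import Pool.Agent.H50.CP.SB1n

/-!
# SB2: the lower comparison

Claims, by induction on `K` simultaneously (for monotone `Φ`):
(one) `clE K Φ one ≤ runX K Φ I`;
(gen) for `uM uF uO ≥ 0` with `et uO ≤ uF + ph uM`:
  `(uM+uF+uO) clE K Φ gen ≤ uM runX K Φ M + uF runX K Φ F + uO runX K Φ O`;
(cd)  for `r`, `x`, `Dc P x ub u Y0 Y1 sg`, `x + r ≤ n+1`, `Fc, Oc ≥ 0` and
  [`x + r = n+1` and `et Oc ≤ Fc + ph (ub binom(n+4,3))`] or [`et Oc ≤ Fc`]:
  `(D1 u sg r + D0 Y0 Y1 r + Fc + Oc) clE K Φ (cd r) ≤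
      LDv u Y0 Y1 sg r (runX K Φ) + Fc runX K Φ (cF r) + Oc runX K Φ (cO r)`.

Proof of the induction step.  Unfold `runX (K+1)`; for `e : Bool` let
`G e s' = runX K (Φ (cons s'.ze ·) (cons e ·)) s'` and
`H e c' = clE K (Φ (cons c'.ze ·) (cons e ·)) c'`.  `H true c' ≥ H false c'` (`clE_mono`), hence also
after `clop`.
Emission: multiply the infected weights by `em true e` (`a` or `1-a`), the healthy ones by
`em false e` (0 or 1); let `m_e` be the total mass after emission `e`, `m` the total mass.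
Transition: for each `e` the emitted vector is pushed forward by `op P`; its restriction to each
class is again of the same form with the right mass (class transition probability times `m_e`), so by
the induction hypotheses the sum is `≥ Σ_e m_e * clop P (H e) c`.
Finally `m_1 ≥ ka m` (below), `m_0 = m - m_1`, so
`Σ_e m_e clop (H e) c ≥ m Σ_e bw ka e clop (H e) c`.

(one): from `I`: `(1-q) I`, `q(1-tau(n+1)) M` (claim gen with `(u,0,0)`), and for each `l ≤ n`
 `q tau` times the window of length `l+1` (`win_eq`, `Dc_start`, `D_start`; claim cd with `x = 1`,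
 `r = l`, `Fc = Oc = 0`, second alternative).  `m_1 = a ≥ ka`.
(gen): with `vM, vF, vO` the emitted weights, `O* = vO + c1 vF + c2 vM`: with weight `1-al`:
 `M' = (1-c2) vM`, `F' = (1-c1) vF + b O*`, `O' = (1-b) O*`;
 with weight `al`: window `vM` (length `n+1`; `x = 1`, `r = n`, `ub = vM/binom(n+4,3)`),
 `Fc = (1-c1) vF + b (vO + c1 vF)`, `Oc = (1-b)(vO + c1 vF)`.
 For `e = false`: `vM = (1-a) uM`, `vF = (1-a) uF`, `vO = uO`; with `X = uF + ph uM ≥ et uO` and
 `uF + uM ≤ X/ph`: `F' + ph M' - et O' ≥ (1-a)(1-c2) X - (et(1-b)-b)^+ (X/et + c2 X/ph) ≥ 0` (`h1`), and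
 the same computation gives the first alternative for the window part.
 For `e = true`: `vO = 0`: `et O' ≤ F' + ph M'` from `h2`, and `et Oc ≤ Fc` (second alternative).
 `m_1 = a (uM+uF) ≥ ka (uM+uF+uO)` because `uM + uF ≥ uF + ph uM ≥ et uO ≥ ka/(a-ka) uO` (`h3`).
(cd): `r+1 → r`: `LDv_em`, `LDv_step`, `Dc_step` (`e = false`, `x → x+1`), `Dc_mark` (`e = true`,
 `x → 1`); chain part: `Fc' = (1-c1) vF + b (vO + c1 vF)`, `Oc' = (1-b)(vO + c1 vF)`.  For `e = false`
 both alternatives are preserved (same inequality `h1`, `ph ≤ 1`), for `e = true` the second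
 alternative holds.  `cd 0 → one`: everything goes to `I` (`LDv_step0`, `D_step0`).
 `m_1 = a (D1 + Fc) ≥ ka (D1 + D0 + Fc + Oc)`: put `η = ka/(a-ka)`, to show
 `η (D0 + Oc) ≤ D1 + Fc`.  `η D0 ≤ D1/2` by `D_ratio` and `h4`.  Second alternative:
 `η Oc ≤ et Oc ≤ Fc`.  First alternative: `D1/2 ≥ (1-a)^n/8 * w ≥ ph w` with `w = ub binom(n+4,3)`
 (`D_mass`, `ph8`), so `η Oc ≤ et Oc ≤ Fc + ph w ≤ Fc + D1/2`.
-/

namespace H50CP

open Finset

/-- parameters needed here (part of `Good`) -/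
structure Bas (P : Par) : Prop where
  q0 : 0 ≤ P.q
  q1 : P.q ≤ 1
  c10 : 0 ≤ P.c1
  c12 : P.c1 ≤ P.c2
  c21 : P.c2 < 1
  al0 : 0 ≤ P.al
  al1 : P.al ≤ 1
  tau0 : 0 ≤ P.tau
  tau1 : P.tau * (P.n + 1) ≤ 1
  b0 : 0 ≤ P.b
  b1 : P.b ≤ 1
  a0 : 0 ≤ P.a
  a1 : P.a ≤ 1

private theorem sb2_clop_mono {P : Par} (hP : Bas P) {Ψ Ψ' : Cl → ℝ} (h : ∀ c, Ψ c ≤ Ψ' c) (c : Cl) :
    clop P Ψ c ≤ clop P Ψ' c := by
  have h1 : 0 ≤ 1 - P.q := by linarith [hP.q1]
  have h2 : 0 ≤ P.q * (1 - P.tau * (P.n + 1)) := mul_nonneg hP.q0 (by linarith [hP.tau1])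
  have h3 : 0 ≤ P.q * P.tau := mul_nonneg hP.q0 hP.tau0
  have h4 : 0 ≤ 1 - P.al := by linarith [hP.al1]
  have h5 := hP.al0
  rcases c with _ | _ | r
  · simp only [clop]
    have hs : ∑ l ∈ range (P.n + 1), Ψ (.cd l) ≤ ∑ l ∈ range (P.n + 1), Ψ' (.cd l) :=
      Finset.sum_le_sum fun l _ => h _
    have e1 := mul_le_mul_of_nonneg_left (h .one) h1
    have e2 := mul_le_mul_of_nonneg_left (h .gen) h2
    have e3 := mul_le_mul_of_nonneg_left hs h3
    linarith
  · simp only [clop]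
    have e1 := mul_le_mul_of_nonneg_left (h .gen) h4
    have e2 := mul_le_mul_of_nonneg_left (h (.cd P.n)) h5
    linarith
  · cases r with
    | zero => exact h _
    | succ r => exact h _

theorem clE_mono {P : Par} (hP : Bas P) {ka : ℝ} (hk0 : 0 ≤ ka) (hk1 : ka ≤ 1) :
    ∀ (K : ℕ) (Φ Φ' : (Fin K → Bool) → (Fin K → Bool) → ℝ),
      (∀ x y, Φ x y ≤ Φ' x y) → ∀ c, clE P ka K Φ c ≤ clE P ka K Φ' c := by
  intro K
  induction K with
  | zero =>
    intro Φ Φ' h c
    exact h _ _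
  | succ K ih =>
    intro Φ Φ' h c
    simp only [clE]
    refine Finset.sum_le_sum fun e _ => ?_
    have hb : 0 ≤ bw ka e := by
      unfold bw
      split_ifs
      · exact hk0
      · linarith
    refine mul_le_mul_of_nonneg_left ?_ hb
    exact sb2_clop_mono hP (fun c' => ih _ _ (fun x y => h _ _) c') c

/-- the three claims for one pair of test functions -/
private structure Sb2Cl (P : Par) (et ph : ℝ) (H : Cl → ℝ) (G : St → ℝ) : Prop where
  one : H .one ≤ G .I
  gen : ∀ uM uF uO : ℝ, 0 ≤ uM → 0 ≤ uF → 0 ≤ uO → et * uO ≤ uF + ph * uM →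
        (uM + uF + uO) * H .gen ≤ uM * G .M + uF * G .F + uO * G .O
  cd : ∀ (r x : ℕ) (ub u Y0 Y1 sg Fc Oc : ℝ), Dc P x ub u Y0 Y1 sg → x + r ≤ P.n + 1 →
        0 ≤ Fc → 0 ≤ Oc →
        ((x + r = P.n + 1 ∧ et * Oc ≤ Fc + ph * (ub * ((P.n + 4).choose 3 : ℝ))) ∨
          et * Oc ≤ Fc) →
        (D1 u sg r + D0 Y0 Y1 r + Fc + Oc) * H (.cd r) ≤
          LDv u Y0 Y1 sg r G + Fc * G (.cF r) + Oc * G (.cO r)

private theorem sb2_mix {m0 m1 ka h0 h1 : ℝ} (hm : ka * (m0 + m1) ≤ m1) (hh : h0 ≤ h1) :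
    (m0 + m1) * (ka * h1 + (1 - ka) * h0) ≤ m0 * h0 + m1 * h1 := by
  nlinarith [mul_nonneg (sub_nonneg.2 hm) (sub_nonneg.2 hh)]

/-- a window of length `l + 1` with total mass `c` -/
private theorem sb2_win {P : Par} {et ph : ℝ} {H : Cl → ℝ} {G : St → ℝ} (h : Sb2Cl P et ph H G)
    {l : ℕ} (hl : l ≤ P.n) {c : ℝ} (hc : 0 ≤ c) {Fc Oc : ℝ} (hF : 0 ≤ Fc) (hO : 0 ≤ Oc)
    (hc' : (l = P.n ∧ et * Oc ≤ Fc + ph * c) ∨ et * Oc ≤ Fc) :
    (c + Fc + Oc) * H (.cd l) ≤ c * (winS l G + winU l G + winD l G) + Fc * G (.cF l) + Oc * G (.cO l) := by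
  have hb : (0 : ℝ) < ((l + 4).choose 3 : ℝ) := by
    exact_mod_cast Nat.choose_pos (by omega)
  have hw : 0 ≤ c / ((l + 4).choose 3 : ℝ) := by positivity
  have h1 := h.cd l 1 _ _ _ _ _ Fc Oc (Dc_start P hw) (by omega) hF hO (by
    rcases hc' with ⟨h2, h3⟩ | h3
    · left
      refine ⟨by omega, ?_⟩
      subst h2
      rw [div_mul_cancel₀ _ hb.ne']
      exact h3
    · right; exact h3)
  rw [D_start] at h1
  rw [win_eq, LDv_smul]
  have e : c * (1 / ((l + 4).choose 3 : ℝ)) = c / ((l + 4).choose 3 : ℝ) := by ring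
  rw [e]
  exact h1

private theorem sb2_op_one {P : Par} (hP : Bas P) {et ph : ℝ} (hph : 0 ≤ ph) {H : Cl → ℝ} {G : St → ℝ}
    (h : Sb2Cl P et ph H G) : clop P H .one ≤ op P G .I := by
  have h1 : 0 ≤ 1 - P.q := by linarith [hP.q1]
  have h2 : 0 ≤ P.q * (1 - P.tau * (P.n + 1)) := mul_nonneg hP.q0 (by linarith [hP.tau1])
  have h3 : 0 ≤ P.q * P.tau := mul_nonneg hP.q0 hP.tau0
  have hM : H .gen ≤ G .M := by
    have := h.gen 1 0 0 zero_le_one le_rfl le_rfl (by simpa using hph)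
    linarith
  have hw : ∀ l ∈ range (P.n + 1), H (.cd l) ≤ winS l G + winU l G + winD l G := by
    intro l hl
    rw [mem_range] at hl
    have := sb2_win h (l := l) (by omega) (c := 1) zero_le_one (Fc := 0) (Oc := 0) le_rfl le_rfl
      (by right; simp)
    linarith
  have hs := Finset.sum_le_sum hw
  rw [Finset.sum_add_distrib, Finset.sum_add_distrib] at hs
  have e1 := mul_le_mul_of_nonneg_left h.one h1
  have e2 := mul_le_mul_of_nonneg_left hM h2
  have e3 := mul_le_mul_of_nonneg_left hs h3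
  simp only [clop, op, Ps, Pu, Pd]
  linarith

private theorem sb2_op_gen {P : Par} (hP : Bas P) {et ph : ℝ} (hph : 0 ≤ ph) {H : Cl → ℝ} {G : St → ℝ}
    (h : Sb2Cl P et ph H G) {vM vF vO : ℝ} (hM : 0 ≤ vM) (hF : 0 ≤ vF) (hO : 0 ≤ vO)
    (hc : (et * (1 - P.b) - P.b) * (vO + P.c1 * vF + P.c2 * vM) ≤
      (1 - P.c1) * vF + ph * ((1 - P.c2) * vM)) :
    (vM + vF + vO) * clop P H .gen ≤ vM * op P G .M + vF * op P G .F + vO * op P G .O := by
  have hc20 : 0 ≤ P.c2 := hP.c10.trans hP.c12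
  have hc2 : 0 ≤ 1 - P.c2 := by linarith [hP.c21]
  have hc1 : 0 ≤ 1 - P.c1 := by linarith [hP.c21, hP.c12]
  have hb1 : 0 ≤ 1 - P.b := by linarith [hP.b1]
  have hal : 0 ≤ 1 - P.al := by linarith [hP.al1]
  have hc10 := hP.c10
  have hb0 := hP.b0
  have hal0 := hP.al0
  have hO2 : 0 ≤ vO + P.c1 * vF := by positivity
  have hO3 : 0 ≤ vO + P.c1 * vF + P.c2 * vM := by positivity
  have hc' : (et * (1 - P.b) - P.b) * (vO + P.c1 * vF) ≤ (1 - P.c1) * vF + ph * vM := by
    have h5 : 0 ≤ P.c2 * vM := by positivity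
    have h6 : 0 ≤ ph * (P.c2 * vM) := by positivity
    have h7 : 0 ≤ (1 - P.c1) * vF := by positivity
    have h8 : 0 ≤ ph * vM := by positivity
    by_cases hD : 0 ≤ et * (1 - P.b) - P.b
    · have := mul_nonneg hD h5
      nlinarith
    · push Not at hD
      have := mul_nonneg (neg_nonneg.2 hD.le) hO2
      linarith
  have k1 := h.gen ((1 - P.c2) * vM) ((1 - P.c1) * vF + P.b * (vO + P.c1 * vF + P.c2 * vM))
    ((1 - P.b) * (vO + P.c1 * vF + P.c2 * vM)) (by positivity) (by positivity) (by positivity)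
    (by linarith)
  have k2 := sb2_win h (l := P.n) le_rfl hM (Fc := (1 - P.c1) * vF + P.b * (vO + P.c1 * vF))
    (Oc := (1 - P.b) * (vO + P.c1 * vF)) (by positivity) (by positivity)
    (by left; exact ⟨rfl, by linarith⟩)
  have e1 := mul_le_mul_of_nonneg_left k1 hal
  have e2 := mul_le_mul_of_nonneg_left k2 hal0
  simp only [clop, op, Ps, Pu, Pd]
  linarith

private theorem sb2_op_cd0 {P : Par} {et ph : ℝ} {H : Cl → ℝ} {G : St → ℝ}
    (h : Sb2Cl P et ph H G) {u Y0 Y1 sg F O : ℝ} (hu : 0 ≤ u) (hY0 : 0 ≤ Y0) (hY1 : 0 ≤ Y1) (hsg : 0 ≤ sg)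
    (hF : 0 ≤ F) (hO : 0 ≤ O) :
    (D1 u sg 0 + D0 Y0 Y1 0 + F + O) * clop P H (.cd 0) ≤
      LDv u Y0 Y1 sg 0 (op P G) + F * op P G (.cF 0) + O * op P G (.cO 0) := by
  rw [LDv_step0, D_step0]
  have hm : 0 ≤ u + Y0 + Y1 + sg + F + O := by positivity
  have := mul_le_mul_of_nonneg_left h.one hm
  simp only [clop, op, Ps, Pu, Pd]
  linarith

private theorem sb2_op_cd {P : Par} (hP : Bas P) {et ph : ℝ} {H : Cl → ℝ} {G : St → ℝ}
    (h : Sb2Cl P et ph H G) {r x : ℕ} {ub u Y0 Y1 sg F O : ℝ}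
    (hD : Dc P x ub u (Y0 + u) (Y0 + Y1 + u) (sg + Y0 + Y1 + u)) (hxr : x + r ≤ P.n + 1)
    (hF : 0 ≤ F) (hO : 0 ≤ O)
    (hc : (x + r = P.n + 1 ∧ (et * (1 - P.b) - P.b) * (O + P.c1 * F) ≤
        (1 - P.c1) * F + ph * (ub * ((P.n + 4).choose 3 : ℝ))) ∨
      (et * (1 - P.b) - P.b) * (O + P.c1 * F) ≤ (1 - P.c1) * F) :
    (D1 u sg (r + 1) + D0 Y0 Y1 (r + 1) + F + O) * clop P H (.cd (r + 1)) ≤
      LDv u Y0 Y1 sg (r + 1) (op P G) + F * op P G (.cF (r + 1)) + O * op P G (.cO (r + 1)) := by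
  have hc1 : 0 ≤ 1 - P.c1 := by linarith [hP.c21, hP.c12]
  have hb1 : 0 ≤ 1 - P.b := by linarith [hP.b1]
  have hc10 := hP.c10
  have hb0 := hP.b0
  have k := h.cd r x ub u _ _ _ ((1 - P.c1) * F + P.b * (O + P.c1 * F)) ((1 - P.b) * (O + P.c1 * F)) hD hxr
    (by positivity) (by positivity) (by
      rcases hc with ⟨h1, h2⟩ | h2
      · left; exact ⟨h1, by linarith⟩
      · right; linarith)
  rw [LDv_step, D_step]
  simp only [clop, op, Ps, Pu, Pd]
  linarith


private theorem sb2_ph {P : Par} (hP : Bas P) {ka et ph : ℝ} (hB : GoodB P ka et ph) : ph ≤ 1 / 8 := by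
  have h1 : (1 - P.a) ^ P.n ≤ 1 := pow_le_one₀ (by linarith [hP.a1]) (by linarith [hP.a0])
  linarith [hB.ph8]

/-- the common estimate for a slot without arrow -/
private theorem sb2_num {P : Par} {ka et ph : ℝ} (hB : GoodB P ka et ph) {X y : ℝ}
    (hX : 0 ≤ X) (hy : y ≤ X / et + P.c2 * (X / ph)) :
    (et * (1 - P.b) - P.b) * y ≤ (1 - P.a) * (1 - P.c2) * X ∨ et * (1 - P.b) - P.b < 0 := by
  by_cases hD : 0 ≤ et * (1 - P.b) - P.b
  · left
    have het := hB.et0
    have hph := hB.ph0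
    calc (et * (1 - P.b) - P.b) * y ≤ (et * (1 - P.b) - P.b) * (X / et + P.c2 * (X / ph)) :=
          mul_le_mul_of_nonneg_left hy hD
      _ = ((et * (1 - P.b) - P.b) * (1 / et + P.c2 / ph)) * X := by ring
      _ ≤ (1 - P.a) * (1 - P.c2) * X := mul_le_mul_of_nonneg_right hB.h1 hX
  · right; exact not_le.1 hD

private theorem sb2_gen_false {P : Par} (hP : Bas P) {ka et ph : ℝ} (hB : GoodB P ka et ph) {uM uF uO : ℝ}
    (hM : 0 ≤ uM) (hF : 0 ≤ uF) (hO : 0 ≤ uO) (h : et * uO ≤ uF + ph * uM) :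
    (et * (1 - P.b) - P.b) * (uO + P.c1 * ((1 - P.a) * uF) + P.c2 * ((1 - P.a) * uM)) ≤
      (1 - P.c1) * ((1 - P.a) * uF) + ph * ((1 - P.c2) * ((1 - P.a) * uM)) := by
  have het := hB.et0
  have hph := hB.ph0
  have hph1 := sb2_ph hP hB
  have hc10 := hP.c10
  have hc20 : 0 ≤ P.c2 := hP.c10.trans hP.c12
  have hc2 : 0 ≤ 1 - P.c2 := by linarith [hP.c21]
  have hc1 : 0 ≤ 1 - P.c1 := by linarith [hP.c21, hP.c12]
  have ha : 0 ≤ 1 - P.a := by linarith [hP.a1]
  have ha' : 1 - P.a ≤ 1 := by linarith [hP.a0]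
  set X := uF + ph * uM with hXdef
  have hX : 0 ≤ X := by positivity
  have hO1 : uO ≤ X / et := by rw [le_div_iff₀ het]; linarith
  have hFM : uF + uM ≤ X / ph := by
    rw [le_div_iff₀ hph, hXdef]
    nlinarith
  have hy : uO + P.c1 * ((1 - P.a) * uF) + P.c2 * ((1 - P.a) * uM) ≤ X / et + P.c2 * (X / ph) := by
    have e1 : P.c1 * ((1 - P.a) * uF) ≤ P.c2 * uF := by
      have : (1 - P.a) * uF ≤ uF := by nlinarith
      calc P.c1 * ((1 - P.a) * uF) ≤ P.c1 * uF := mul_le_mul_of_nonneg_left this hc10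
        _ ≤ P.c2 * uF := mul_le_mul_of_nonneg_right hP.c12 hF
    have e2 : P.c2 * ((1 - P.a) * uM) ≤ P.c2 * uM := by
      have : (1 - P.a) * uM ≤ uM := by nlinarith
      exact mul_le_mul_of_nonneg_left this hc20
    have e3 := mul_le_mul_of_nonneg_left hFM hc20
    linarith
  have hR : (1 - P.a) * (1 - P.c2) * X ≤
      (1 - P.c1) * ((1 - P.a) * uF) + ph * ((1 - P.c2) * ((1 - P.a) * uM)) := by
    have : (1 - P.c2) * ((1 - P.a) * uF) ≤ (1 - P.c1) * ((1 - P.a) * uF) :=
      mul_le_mul_of_nonneg_right (by linarith [hP.c12]) (by positivity)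
    rw [hXdef]
    linarith
  rcases sb2_num hB hX hy with h1 | h1
  · exact h1.trans hR
  · have h2 : 0 ≤ uO + P.c1 * ((1 - P.a) * uF) + P.c2 * ((1 - P.a) * uM) := by positivity
    have h3 : 0 ≤ (1 - P.a) * (1 - P.c2) * X := by positivity
    have h4 := mul_nonneg (neg_nonneg.2 h1.le) h2
    linarith

private theorem sb2_gen_true {P : Par} (hP : Bas P) {ka et ph : ℝ} (hB : GoodB P ka et ph) {vM vF : ℝ}
    (hM : 0 ≤ vM) (hF : 0 ≤ vF) :
    (et * (1 - P.b) - P.b) * (0 + P.c1 * vF + P.c2 * vM) ≤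
      (1 - P.c1) * vF + ph * ((1 - P.c2) * vM) := by
  have het := hB.et0
  have hph := hB.ph0
  have hph1 := sb2_ph hP hB
  have hc10 := hP.c10
  have hc20 : 0 ≤ P.c2 := hP.c10.trans hP.c12
  have hc2 : 0 ≤ 1 - P.c2 := by linarith [hP.c21]
  have hc1 : 0 ≤ 1 - P.c1 := by linarith [hP.c21, hP.c12]
  have hD : et * (1 - P.b) - P.b ≤ et := by nlinarith [hP.b0]
  have h2 := hB.h2
  have h3 : ph * (1 - P.c2) ≤ 1 - P.c1 := by nlinarith [hP.c12]
  have k1 : (et * (1 - P.b) - P.b) * (P.c1 * vF) ≤ (1 - P.c1) * vF := by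
    calc (et * (1 - P.b) - P.b) * (P.c1 * vF) ≤ et * (P.c1 * vF) :=
          mul_le_mul_of_nonneg_right hD (by positivity)
      _ = et * P.c1 * vF := by ring
      _ ≤ et * P.c2 * vF := by
          have := hP.c12
          gcongr
      _ ≤ (1 - P.c1) * vF := mul_le_mul_of_nonneg_right (h2.trans h3) hF
  have k2 : (et * (1 - P.b) - P.b) * (P.c2 * vM) ≤ ph * ((1 - P.c2) * vM) := by
    calc (et * (1 - P.b) - P.b) * (P.c2 * vM) ≤ et * (P.c2 * vM) :=
          mul_le_mul_of_nonneg_right hD (by positivity)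
      _ = et * P.c2 * vM := by ring
      _ ≤ ph * (1 - P.c2) * vM := mul_le_mul_of_nonneg_right h2 hM
      _ = ph * ((1 - P.c2) * vM) := by ring
  linarith

private theorem sb2_cd_false {P : Par} (hP : Bas P) {ka et ph : ℝ} (hB : GoodB P ka et ph) {Fc Oc w : ℝ}
    (hF : 0 ≤ Fc) (hO : 0 ≤ Oc) (hw : 0 ≤ w) (h : et * Oc ≤ Fc + ph * w) :
    (et * (1 - P.b) - P.b) * (Oc + P.c1 * ((1 - P.a) * Fc)) ≤ (1 - P.c1) * ((1 - P.a) * Fc) + ph * w := by
  have het := hB.et0
  have hph := hB.ph0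
  have hph1 := sb2_ph hP hB
  have hc10 := hP.c10
  have hc20 : 0 ≤ P.c2 := hP.c10.trans hP.c12
  have hc2 : 0 ≤ 1 - P.c2 := by linarith [hP.c21]
  have hc1 : 0 ≤ 1 - P.c1 := by linarith [hP.c21, hP.c12]
  have ha : 0 ≤ 1 - P.a := by linarith [hP.a1]
  have ha' : 1 - P.a ≤ 1 := by linarith [hP.a0]
  set X := Fc + ph * w with hXdef
  have hX : 0 ≤ X := by positivity
  have hO1 : Oc ≤ X / et := by rw [le_div_iff₀ het]; linarith
  have hFX : Fc ≤ X / ph := by
    rw [le_div_iff₀ hph, hXdef]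
    nlinarith [mul_nonneg hph.le hw]
  have hy : Oc + P.c1 * ((1 - P.a) * Fc) ≤ X / et + P.c2 * (X / ph) := by
    have e1 : P.c1 * ((1 - P.a) * Fc) ≤ P.c2 * Fc := by
      have : (1 - P.a) * Fc ≤ Fc := by nlinarith
      calc P.c1 * ((1 - P.a) * Fc) ≤ P.c1 * Fc := mul_le_mul_of_nonneg_left this hc10
        _ ≤ P.c2 * Fc := mul_le_mul_of_nonneg_right hP.c12 hF
    have e3 := mul_le_mul_of_nonneg_left hFX hc20
    linarith
  have hR : (1 - P.a) * (1 - P.c2) * X ≤ (1 - P.c1) * ((1 - P.a) * Fc) + ph * w := by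
    have e1 : (1 - P.c2) * ((1 - P.a) * Fc) ≤ (1 - P.c1) * ((1 - P.a) * Fc) :=
      mul_le_mul_of_nonneg_right (by linarith [hP.c12]) (by positivity)
    have e2 : (1 - P.a) * (1 - P.c2) ≤ 1 := by nlinarith
    have e3 := mul_le_mul_of_nonneg_right e2 (mul_nonneg hph.le hw)
    rw [hXdef]
    linarith
  rcases sb2_num hB hX hy with h1 | h1
  · exact h1.trans hR
  · have h2 : 0 ≤ Oc + P.c1 * ((1 - P.a) * Fc) := by positivity
    have h3 : 0 ≤ (1 - P.a) * (1 - P.c2) * X := by positivity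
    have h4 := mul_nonneg (neg_nonneg.2 h1.le) h2
    linarith

/-- the condition on the masses -/
private theorem sb2_mass {a ka m z : ℝ} (hkaa : ka < a) (h : ka / (a - ka) * z ≤ m) :
    ka * ((1 - a) * m + z + a * m) ≤ a * m := by
  have h1 : 0 < a - ka := by linarith
  rw [div_mul_eq_mul_div, div_le_iff₀ h1] at h
  nlinarith

private theorem sb2_step {P : Par} (hP : Bas P) {ka et ph : ℝ} (hB : GoodB P ka et ph)
    {H : Bool → Cl → ℝ} {G : Bool → St → ℝ} (hcl : ∀ e, Sb2Cl P et ph (H e) (G e))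
    (hH : ∀ c, H false c ≤ H true c) :
    Sb2Cl P et ph (fun c => ∑ e : Bool, bw ka e * clop P (H e) c)
      (fun s => ∑ e : Bool, em P.a s.z e * op P (G e) s) := by
  have hka := hB.ka0
  have hkaa := hB.kaa
  have ha0 := hP.a0
  have ha1 : 0 ≤ 1 - P.a := by linarith [hP.a1]
  have hph0 := hB.ph0
  have hph1 := sb2_ph hP hB
  have het := hB.et0
  have heta : 0 < ka / (P.a - ka) := div_pos hka (by linarith)
  have hmono : ∀ c, clop P (H false) c ≤ clop P (H true) c := fun c => sb2_clop_mono hP hH c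
  refine ⟨?_, ?_, ?_⟩
  · have k1 := sb2_op_one hP hph0.le (hcl true)
    have k0 := sb2_op_one hP hph0.le (hcl false)
    have e1 := mul_le_mul_of_nonneg_left k1 ha0
    have e0 := mul_le_mul_of_nonneg_left k0 ha1
    have hm := mul_nonneg (sub_nonneg.2 hkaa.le) (sub_nonneg.2 (hmono .one))
    simp only [Fintype.sum_bool, bw, em, St.z, if_true, Bool.false_eq_true, if_false]
    linarith
  · intro uM uF uO hM hF hO h
    have k1 := sb2_op_gen hP hph0.le (hcl true) (vM := P.a * uM) (vF := P.a * uF) (vO := 0)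
      (by positivity) (by positivity) le_rfl (sb2_gen_true hP hB (by positivity) (by positivity))
    have k0 := sb2_op_gen hP hph0.le (hcl false) (vM := (1 - P.a) * uM) (vF := (1 - P.a) * uF) (vO := uO)
      (by positivity) (by positivity) hO (sb2_gen_false hP hB hM hF hO h)
    have hz : ka / (P.a - ka) * uO ≤ uM + uF := by
      have e1 : ka / (P.a - ka) * uO ≤ et * uO := mul_le_mul_of_nonneg_right hB.h3 hO
      have e2 : ph * uM ≤ uM := by nlinarith
      linarith
    have hm := sb2_mass (a := P.a) hkaa hz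
    have hmix := sb2_mix (m0 := (1 - P.a) * (uM + uF) + uO) (m1 := P.a * (uM + uF)) (ka := ka)
      (by linarith) (hmono .gen)
    simp only [Fintype.sum_bool, bw, em, St.z, if_true, Bool.false_eq_true, if_false]
    linarith
  · intro r x ub u Y0 Y1 sg Fc Oc hD hxr hF hO hc
    obtain ⟨hu, hY0, hY1, hsg⟩ := Dc_nonneg hD hP.a1
    have hD1 : 0 ≤ D1 u sg r := by unfold D1; positivity
    have hD0 : 0 ≤ D0 Y0 Y1 r := by unfold D0; positivity
    have hub := hD.ub0
    have hw : 0 ≤ ub * ((P.n + 4).choose 3 : ℝ) := by positivity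
    have hbin : (0 : ℝ) ≤ ((P.n + 4).choose 3 : ℝ) := by positivity
    -- masses
    have hz : ka / (P.a - ka) * (D0 Y0 Y1 r + Oc) ≤ D1 u sg r + Fc := by
      have e1 := D_ratio hD hxr hP.a0 hP.a1
      have e2 : ka / (P.a - ka) * D0 Y0 Y1 r ≤ (1 - P.a) ^ P.n / 6 * D0 Y0 Y1 r :=
        mul_le_mul_of_nonneg_right (by linarith [hB.h4]) hD0
      have e3 : ka / (P.a - ka) * Oc ≤ et * Oc := mul_le_mul_of_nonneg_right hB.h3 hO
      rcases hc with ⟨h1, h2⟩ | h2
      · have e4 := D_mass hD h1 hP.a0 hP.a1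
        have e5 := mul_le_mul_of_nonneg_right hB.ph8 hw
        linarith
      · linarith
    have hm := sb2_mass (a := P.a) hkaa hz
    have hmix := sb2_mix (m0 := (1 - P.a) * (D1 u sg r + Fc) + (D0 Y0 Y1 r + Oc))
      (m1 := P.a * (D1 u sg r + Fc)) (ka := ka) (by linarith) (hmono (.cd r))
    -- the two values of the arrow
    have k1 : (P.a * (D1 u sg r + Fc)) * clop P (H true) (.cd r) ≤
        LDv (P.a * u) (0 * Y0) (0 * Y1) (P.a * sg) r (op P (G true)) + (P.a * Fc) * op P (G true) (.cF r) := by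
      have hsc : D1 (P.a * u) (P.a * sg) r + D0 (0 * Y0) (0 * Y1) r = P.a * D1 u sg r := by
        unfold D1 D0; ring
      cases r with
      | zero =>
        have := sb2_op_cd0 (hcl true) (u := P.a * u) (Y0 := 0 * Y0) (Y1 := 0 * Y1) (sg := P.a * sg)
          (F := P.a * Fc) (O := 0) (by positivity) (by simp) (by simp) (by positivity) (by positivity) le_rfl
        rw [hsc] at this
        linarith
      | succ r =>
        have hD' := Dc_mark hD hP.a0 hP.a1
        have hx1 := hD.x1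
        have := sb2_op_cd hP (hcl true) (r := r) (x := 1) (ub := P.a * u) (u := P.a * u) (Y0 := 0 * Y0)
          (Y1 := 0 * Y1) (sg := P.a * sg) (F := P.a * Fc) (O := 0) (by simpa using hD') (by omega)
          (by positivity) le_rfl (by
            right
            have := sb2_gen_true hP hB (vM := 0) (vF := P.a * Fc) le_rfl (by positivity)
            simpa using this)
        rw [hsc] at this
        linarith
    have k0 : ((1 - P.a) * (D1 u sg r + Fc) + (D0 Y0 Y1 r + Oc)) * clop P (H false) (.cd r) ≤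
        LDv ((1 - P.a) * u) (1 * Y0) (1 * Y1) ((1 - P.a) * sg) r (op P (G false)) +
          ((1 - P.a) * Fc) * op P (G false) (.cF r) + Oc * op P (G false) (.cO r) := by
      have hsc : D1 ((1 - P.a) * u) ((1 - P.a) * sg) r + D0 (1 * Y0) (1 * Y1) r
          = (1 - P.a) * D1 u sg r + D0 Y0 Y1 r := by
        unfold D1 D0; ring
      cases r with
      | zero =>
        have := sb2_op_cd0 (hcl false) (u := (1 - P.a) * u) (Y0 := 1 * Y0) (Y1 := 1 * Y1)
          (sg := (1 - P.a) * sg) (F := (1 - P.a) * Fc) (O := Oc) (by positivity) (by simpa using hY0)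
          (by simpa using hY1) (by positivity) (by positivity) hO
        rw [hsc] at this
        linarith
      | succ r =>
        have hD' := Dc_step hD hP.a0 hP.a1
        have := sb2_op_cd hP (hcl false) (r := r) (x := x + 1) (ub := ub) (u := (1 - P.a) * u)
          (Y0 := 1 * Y0) (Y1 := 1 * Y1) (sg := (1 - P.a) * sg) (F := (1 - P.a) * Fc) (O := Oc)
          (by simpa using hD') (by omega) (by positivity) hO (by
            rcases hc with ⟨h1, h2⟩ | h2
            · left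
              refine ⟨by omega, ?_⟩
              exact sb2_cd_false hP hB hF hO hw h2
            · right
              have := sb2_cd_false hP hB hF hO (w := 0) le_rfl (by simpa using h2)
              simpa using this)
        rw [hsc] at this
        linarith
    have hem := LDv_em P.a u Y0 Y1 sg r (fun e => op P (G e))
    have hgoal : (D1 u sg r + D0 Y0 Y1 r + Fc + Oc) * (∑ e : Bool, bw ka e * clop P (H e) (.cd r)) ≤
        LDv u Y0 Y1 sg r (fun s => ∑ e : Bool, em P.a s.z e * op P (G e) s) +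
          Fc * (∑ e : Bool, em P.a true e * op P (G e) (.cF r)) +
          Oc * (∑ e : Bool, em P.a false e * op P (G e) (.cO r)) := by
      rw [hem]
      simp only [Fintype.sum_bool, bw, em, if_true, Bool.false_eq_true, if_false]
      linarith
    exact hgoal

theorem lower_cmp {P : Par} (hP : Bas P) {ka et ph : ℝ} (hB : GoodB P ka et ph) :
    ∀ (K : ℕ) (Φ : (Fin K → Bool) → (Fin K → Bool) → ℝ), Mono2 Φ →
      (clE P ka K Φ .one ≤ runX P K Φ .I) ∧
      (∀ uM uF uO : ℝ, 0 ≤ uM → 0 ≤ uF → 0 ≤ uO → et * uO ≤ uF + ph * uM →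
        (uM + uF + uO) * clE P ka K Φ .gen ≤
          uM * runX P K Φ .M + uF * runX P K Φ .F + uO * runX P K Φ .O) ∧
      (∀ (r x : ℕ) (ub u Y0 Y1 sg Fc Oc : ℝ), Dc P x ub u Y0 Y1 sg → x + r ≤ P.n + 1 →
        0 ≤ Fc → 0 ≤ Oc →
        ((x + r = P.n + 1 ∧ et * Oc ≤ Fc + ph * (ub * ((P.n + 4).choose 3 : ℝ))) ∨
          et * Oc ≤ Fc) →
        (D1 u sg r + D0 Y0 Y1 r + Fc + Oc) * clE P ka K Φ (.cd r) ≤
          LDv u Y0 Y1 sg r (runX P K Φ) + Fc * runX P K Φ (.cF r) + Oc * runX P K Φ (.cO r)) := by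
  have main : ∀ (K : ℕ) (Φ : (Fin K → Bool) → (Fin K → Bool) → ℝ), Mono2 Φ →
      Sb2Cl P et ph (clE P ka K Φ) (runX P K Φ) := by
    intro K
    induction K with
    | zero =>
      intro Φ _
      refine ⟨le_rfl, ?_, ?_⟩
      · intro uM uF uO _ _ _ _
        simp only [clE, runX]
        linarith
      · intro r x ub u Y0 Y1 sg Fc Oc _ _ _ _ _
        have h1 : LDv u Y0 Y1 sg r (runX P 0 Φ) = (Φ Fin.elim0 Fin.elim0) * LDv u Y0 Y1 sg r (fun _ => 1) := by
          simp only [LDv, runX]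
          rw [mul_add, mul_add, Finset.mul_sum, Finset.mul_sum, Finset.mul_sum, Finset.mul_sum]
          congr 1
          · congr 1
            · refine Finset.sum_congr rfl fun p _ => ?_
              rw [Finset.mul_sum, Finset.mul_sum, Finset.mul_sum]
              refine Finset.sum_congr rfl fun t _ => ?_
              ring
            · refine Finset.sum_congr rfl fun p _ => ?_
              ring
          · ring
        rw [h1, LDv_one]
        simp only [clE, runX]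
        linarith
    | succ K ih =>
      intro Φ hΦ
      have hmono2 : ∀ b e : Bool, Mono2 (fun (x y : Fin K → Bool) =>
          Φ (Fin.cons b x) (Fin.cons e y)) := by
        intro b e x x' y y' hx hy
        apply hΦ
        · intro i
          refine Fin.cases ?_ (fun j => ?_) i
          · simp
          · simpa using hx j
        · intro i
          refine Fin.cases ?_ (fun j => ?_) i
          · simp
          · simpa using hy j
      have hcl : ∀ e : Bool, Sb2Cl P et ph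
          (fun c' => clE P ka K (fun x y => Φ (Fin.cons c'.ze x) (Fin.cons e y)) c')
          (fun s' => runX P K (fun x y => Φ (Fin.cons s'.ze x) (Fin.cons e y)) s') := by
        intro e
        have h1 := ih _ (hmono2 true e)
        have h0 := ih _ (hmono2 false e)
        exact ⟨h1.one, h0.gen, h0.cd⟩
      have hH : ∀ c' : Cl, clE P ka K (fun x y => Φ (Fin.cons c'.ze x) (Fin.cons false y)) c' ≤
          clE P ka K (fun x y => Φ (Fin.cons c'.ze x) (Fin.cons true y)) c' := by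
        intro c'
        refine clE_mono hP hB.ka0.le (hB.kaa.le.trans hP.a1) K _ _ (fun x y => ?_) c'
        apply hΦ
        · exact le_rfl
        · intro i
          refine Fin.cases ?_ (fun j => ?_) i
          · simp
          · simp
      exact sb2_step hP hB hcl hH
  intro K Φ hΦ
  have h := main K Φ hΦ
  exact ⟨h.one, h.gen, h.cd⟩

end H50CP
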