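import Pool.Agent.H50.CP.SCone
import Pool.Agent.H50.CP.SA1

/-! # class chain and parametrised forward vectors for the lower comparison -/

namespace H50CP

open Finset

/-- classes: spin 1; gap of unknown length; `r` further times with spin 0 after the current one -/
inductive Cl : Type
  | one : Cl
  | gen : Cl
  | cd (r : ℕ) : Cl

def Cl.ze : Cl → Bool
  | .one => true
  | _ => false

/-- transition operator of the class chain -/
noncomputable def clop (P : Par) (Ψ : Cl → ℝ) : Cl → ℝ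
  | .one => (1 - P.q) * Ψ .one + P.q * (1 - P.tau * (P.n + 1)) * Ψ .gen
        + P.q * P.tau * ∑ l ∈ range (P.n + 1), Ψ (.cd l)
  | .gen => (1 - P.al) * Ψ .gen + P.al * Ψ (.cd P.n)
  | .cd 0 => Ψ .one
  | .cd (r + 1) => Ψ (.cd r)

/-- expectation of `Φ (ζ_1..ζ_K) (p_1..p_K)` for the class chain and independent
Bernoulli(`ka`) variables `p` -/
noncomputable def clE (P : Par) (ka : ℝ) :
    (K : ℕ) → ((Fin K → Bool) → (Fin K → Bool) → ℝ) → Cl → ℝ
  | 0, Φ, _ => Φ Fin.elim0 Fin.elim0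
  | K + 1, Φ, c => ∑ e : Bool, bw ka e *
      clop P (fun c' => clE P ka K (fun x y => Φ (Fin.cons c'.ze x) (Fin.cons e y)) c') c

/-- window part of a forward vector with `r` further times of spin 0:
`u (g+1)` on `V m g s` (`m+g+s=r`), `Y0 (g+1) + Y1` on `W g s` (`g+s=r`), `sg` on `S r` -/
noncomputable def LDv (u Y0 Y1 sg : ℝ) (r : ℕ) (φ : St → ℝ) : ℝ :=
  u * ∑ p ∈ antidiagonal r, ∑ t ∈ antidiagonal p.2, ((t.1 : ℝ) + 1) * φ (.V p.1 t.1 t.2)
    + ∑ p ∈ antidiagonal r, (Y0 * ((p.1 : ℝ) + 1) + Y1) * φ (.W p.1 p.2) + sg * φ (.S r)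

/-- conditions on the window part: `x` = number of slots since the site was last known to be
infected, `ub` = value of `u` at that time, `rh = 1 - a` -/
structure Dc (P : Par) (x : ℕ) (ub u Y0 Y1 sg : ℝ) : Prop where
  x1 : 1 ≤ x
  ub0 : 0 ≤ ub
  u_le : u ≤ ub
  u_ge : (1 - P.a) ^ (x - 1) * ub ≤ u
  Y0_le : Y0 ≤ x * ub
  Y0_ge : (1 - P.a) ^ (x - 1) * (x * ub) ≤ Y0
  Y1_le : Y1 ≤ x * (x + 1) / 2 * ub
  Y1_ge : (1 - P.a) ^ (x - 1) * (x * (x + 1) / 2 * ub) ≤ Y1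
  sg_ge : (1 - P.a) ^ (x - 1) * (((x + 2).choose 3 : ℝ) * ub) ≤ sg

/-- infected and healthy mass of the window part -/
noncomputable def D1 (u sg : ℝ) (r : ℕ) : ℝ := u * ((r + 3).choose 3 : ℝ) + sg
noncomputable def D0 (Y0 Y1 : ℝ) (r : ℕ) : ℝ :=
  Y0 * (((r : ℝ) + 1) * (r + 2) / 2) + Y1 * ((r : ℝ) + 1)

end H50CP
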