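import Pool.Agent.H50.CP.SBDefs
import Pool.Agent.H50.CP.SA7

/-!
# SC: the class chain dominates the spin flip chain

Cone: `G, C_r ≥ 0` (`r ≤ n`) with `ae * T_j ≤ C_j` for all `j ≤ n`, `T_j = G + Σ_{j ≤ r ≤ n} C_r`.
One step without spin up: `G' = (1-al) G`, `C'_r = C_{r+1}` (`r < n`), `C'_n = al G`; then
`T'_j = T_{j+1}` (`T_{n+1} = G`), so the condition is preserved (`ae ≤ al` for `j = n`).
The mass going to `one` is `C_0 ≥ ae T_0`.  From `one`: `G = q(1-tau(n+1))`, `C_r = q tau`:
`T_j ≤ q`, so `ae ≤ tau` suffices.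
Induction on `K`, for monotone `Φ`; `flE K Φ_false false ≤ flE K Φ_true true` uses `ae ≤ 1 - q`
(monotonicity `flE_mono`, proved like `chE_mono` in SA7).
-/

namespace H50CP

open Finset

theorem flE_mono {q ae ka : ℝ} (hq0 : 0 ≤ q) (hq1 : q ≤ 1) (ha0 : 0 ≤ ae) (ha : ae ≤ 1 - q)
    (hk0 : 0 ≤ ka) (hk1 : ka ≤ 1) :
    ∀ (K : ℕ) (Φ Φ' : (Fin K → Bool) → (Fin K → Bool) → ℝ), Mono2 Φ → Mono2 Φ' →
      (∀ x y, Φ x y ≤ Φ' x y) → ∀ z z' : Bool, z ≤ z' →
        flE q ae ka K Φ z ≤ flE q ae ka K Φ' z' := by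
  intro K
  induction K with
  | zero => intro Φ Φ' _ _ h z z' _; simp only [flE]; exact h _ _
  | succ K ih =>
    intro Φ Φ' hm hm' h z z' hz
    have hp0 : ∀ z : Bool, 0 ≤ px q ae z := by
      intro z; cases z <;> simp [px]
      · exact ha0
      · exact hq1
    have hp1 : ∀ z : Bool, px q ae z ≤ 1 := by
      intro z; cases z <;> simp [px]
      · linarith
      · exact hq0
    have key : ∀ e : Bool,
        (∑ w : Bool, bw (px q ae z) w *
          flE q ae ka K (fun x y => Φ (Fin.cons w x) (Fin.cons e y)) w) ≤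
        (∑ w : Bool, bw (px q ae z') w *
          flE q ae ka K (fun x y => Φ' (Fin.cons w x) (Fin.cons e y)) w) := by
      intro e
      have h1 : ∀ w : Bool, flE q ae ka K (fun x y => Φ (Fin.cons w x) (Fin.cons e y)) w ≤
          flE q ae ka K (fun x y => Φ' (Fin.cons w x) (Fin.cons e y)) w := by
        intro w
        apply ih _ _ (hm.cons _ _) (hm'.cons _ _) _ _ _ le_rfl
        intro x y
        exact h _ _
      have h2 : flE q ae ka K (fun x y => Φ' (Fin.cons false x) (Fin.cons e y)) false ≤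
          flE q ae ka K (fun x y => Φ' (Fin.cons true x) (Fin.cons e y)) true := by
        apply ih _ _ (hm'.cons _ _) (hm'.cons _ _) _ _ _ (Bool.false_le _)
        intro x y
        exact hm' _ _ _ _ (cons_le_cons (Bool.false_le _) le_rfl) le_rfl
      refine (bw_avg_le (hp0 z) (hp1 z) h1).trans ?_
      simp only [Fintype.sum_bool, bw]
      have hp : px q ae z ≤ px q ae z' := by
        cases z <;> cases z'
        · exact le_rfl
        · simpa [px] using ha
        · exact absurd hz (by decide)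
        · exact le_rfl
      simp only [if_true, Bool.false_eq_true, if_false]
      nlinarith
    simp only [flE]
    exact bw_avg_le hk0 hk1 key

/-- the cone is preserved by one step without spin up -/
theorem SC_step {n : ℕ} {ae al G : ℝ} {Cr : ℕ → ℝ} (h1 : ae ≤ al)
    (hG : 0 ≤ G)
    (hc : ∀ j, j ≤ n → ae * (G + ∑ r ∈ Ico j (n + 1), Cr r) ≤ Cr j) :
    ∀ j, j ≤ n → ae * ((1 - al) * G + ∑ r ∈ Ico j (n + 1), (if r < n then Cr (r + 1) else al * G))
      ≤ (if j < n then Cr (j + 1) else al * G) := by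
  intro j hj
  have e : (1 - al) * G + ∑ r ∈ Ico j (n + 1), (if r < n then Cr (r + 1) else al * G)
      = G + ∑ r ∈ Ico (j + 1) (n + 1), Cr r := by
    rw [Finset.sum_Ico_succ_top hj, ← Finset.sum_Ico_add' Cr j n 1]
    have : ∑ r ∈ Ico j n, (if r < n then Cr (r + 1) else al * G) = ∑ r ∈ Ico j n, Cr (r + 1) := by
      apply Finset.sum_congr rfl
      intro r hr
      rw [Finset.mem_Ico] at hr
      rw [if_pos hr.2]
    rw [this, if_neg (lt_irrefl n)]
    ring
  rw [e]
  rcases lt_or_eq_of_le hj with hlt | heq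
  · rw [if_pos hlt]
    exact hc (j + 1) hlt
  · subst heq
    rw [if_neg (lt_irrefl j), Finset.Ico_self, Finset.sum_empty, add_zero]
    exact mul_le_mul_of_nonneg_right h1 hG

/-- the mass after one step without spin up -/
theorem SC_mass {n : ℕ} {al G : ℝ} {Cr : ℕ → ℝ} (E : ℕ → ℝ) :
    ∑ r ∈ range (n + 1), (if r < n then Cr (r + 1) else al * G) * E r
      = ∑ r ∈ range n, Cr (r + 1) * E r + al * G * E n := by
  rw [Finset.sum_range_succ, if_neg (lt_irrefl n)]
  congr 1
  apply Finset.sum_congr rfl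
  intro r hr
  rw [Finset.mem_range] at hr
  rw [if_pos hr]

theorem cl_flip {P : Par} {ae ka : ℝ} (hq0 : 0 ≤ P.q) (hq1 : P.q ≤ 1) (hal : P.al ≤ 1)
    (htau0 : 0 ≤ P.tau) (htau1 : P.tau * (P.n + 1) ≤ 1)
    (ha0 : 0 ≤ ae) (ha : ae ≤ 1 - P.q) (h1 : ae ≤ P.al) (h2 : ae ≤ P.tau)
    (hk0 : 0 ≤ ka) (hk1 : ka ≤ 1) :
    ∀ (K : ℕ) (Φ : (Fin K → Bool) → (Fin K → Bool) → ℝ), Mono2 Φ →
      (flE P.q ae ka K Φ true ≤ clE P ka K Φ .one) ∧
      (∀ (G : ℝ) (Cr : ℕ → ℝ), 0 ≤ G → (∀ r, 0 ≤ Cr r) →
        (∀ j, j ≤ P.n → ae * (G + ∑ r ∈ Ico j (P.n + 1), Cr r) ≤ Cr j) →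
        (G + ∑ r ∈ range (P.n + 1), Cr r) * flE P.q ae ka K Φ false ≤
          G * clE P ka K Φ .gen + ∑ r ∈ range (P.n + 1), Cr r * clE P ka K Φ (.cd r)) := by
  intro K
  induction K with
  | zero =>
    intro Φ _
    refine ⟨by simp [flE, clE], ?_⟩
    intro G Cr _ _ _
    simp only [flE, clE]
    rw [add_mul, Finset.sum_mul]
  | succ K ih =>
    intro Φ hΦ
    have hX : ∀ e : Bool, flE P.q ae ka K (fun x y => Φ (Fin.cons false x) (Fin.cons e y)) false ≤
        flE P.q ae ka K (fun x y => Φ (Fin.cons true x) (Fin.cons e y)) true := by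
      intro e
      apply flE_mono hq0 hq1 ha0 ha hk0 hk1 K _ _ (hΦ.cons _ _) (hΦ.cons _ _) _ _ _
        (Bool.false_le _)
      intro x y
      exact hΦ _ _ _ _ (cons_le_cons (Bool.false_le _) le_rfl) le_rfl
    constructor
    · simp only [flE, clE]
      apply bw_avg_le hk0 hk1
      intro e
      have i1 := (ih _ (hΦ.cons true e)).1
      have i2 := (ih _ (hΦ.cons false e)).2 (P.q * (1 - P.tau * (P.n + 1)))
        (fun _ => P.q * P.tau) (mul_nonneg hq0 (by linarith)) (fun _ => mul_nonneg hq0 htau0)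
        (by
          intro j hj
          rw [Finset.sum_const, Nat.card_Ico, nsmul_eq_mul]
          have hb : ((P.n + 1 - j : ℕ) : ℝ) ≤ (P.n : ℝ) + 1 := by
            have : P.n + 1 - j ≤ P.n + 1 := Nat.sub_le _ _
            exact_mod_cast this
          have hqt := mul_nonneg hq0 htau0
          have t1 := mul_le_mul_of_nonneg_right hb hqt
          have t2 : P.q * (1 - P.tau * (P.n + 1)) + ((P.n + 1 - j : ℕ) : ℝ) * (P.q * P.tau)
              ≤ P.q := by nlinarith
          calc ae * (P.q * (1 - P.tau * (P.n + 1)) + ((P.n + 1 - j : ℕ) : ℝ) * (P.q * P.tau))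
              ≤ ae * P.q := mul_le_mul_of_nonneg_left t2 ha0
            _ ≤ P.tau * P.q := mul_le_mul_of_nonneg_right h2 hq0
            _ = P.q * P.tau := mul_comm _ _)
      have m0 : ∀ E : ℕ → ℝ, ∑ r ∈ range (P.n + 1), P.q * P.tau * E r
          = P.q * P.tau * ∑ r ∈ range (P.n + 1), E r := fun E => (Finset.mul_sum _ _ _).symm
      rw [m0, Finset.sum_const, Finset.card_range, nsmul_eq_mul] at i2
      have e0 : P.q * (1 - P.tau * (P.n + 1)) + ((P.n + 1 : ℕ) : ℝ) * (P.q * P.tau) = P.q := by
        push_cast; ring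
      rw [e0] at i2
      have t3 := mul_le_mul_of_nonneg_left i1 (sub_nonneg.2 hq1)
      rw [Fintype.sum_bool]
      simp only [clop, bw, px, if_true, Bool.false_eq_true, if_false, Cl.ze]
      linarith
    · intro G Cr hG hCr hc
      have hgoal : ∀ e : Bool, (G + ∑ r ∈ range (P.n + 1), Cr r) *
          (∑ x' : Bool, bw (px P.q ae false) x' *
            flE P.q ae ka K (fun u y => Φ (Fin.cons x' u) (Fin.cons e y)) x') ≤
          G * clop P (fun c' => clE P ka K (fun x y => Φ (Fin.cons c'.ze x) (Fin.cons e y)) c') .gen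
          + ∑ r ∈ range (P.n + 1), Cr r *
            clop P (fun c' => clE P ka K (fun x y => Φ (Fin.cons c'.ze x) (Fin.cons e y)) c')
              (.cd r) := by
        intro e
        have i1 := (ih _ (hΦ.cons true e)).1
        have hal0 : 0 ≤ P.al := ha0.trans h1
        have i2 := (ih _ (hΦ.cons false e)).2 ((1 - P.al) * G)
          (fun r => if r < P.n then Cr (r + 1) else P.al * G)
          (mul_nonneg (by linarith) hG)
          (by
            intro r
            by_cases hr : r < P.n
            · simpa [hr] using hCr (r + 1)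
            · simpa [hr] using mul_nonneg hal0 hG)
          (SC_step h1 hG hc)
        rw [SC_mass] at i2
        have m1 : ∑ r ∈ range (P.n + 1), (if r < P.n then Cr (r + 1) else P.al * G)
            = ∑ r ∈ range P.n, Cr (r + 1) + P.al * G := by
          have := SC_mass (n := P.n) (al := P.al) (G := G) (Cr := Cr) (fun _ => 1)
          simpa using this
        rw [m1] at i2
        have hc0 := hc 0 (Nat.zero_le _)
        rw [← Finset.range_eq_Ico] at hc0
        rw [Finset.sum_range_succ' Cr P.n] at hc0 ⊢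
        rw [Finset.sum_range_succ' (fun r => Cr r *
            clop P (fun c' => clE P ka K (fun x y => Φ (Fin.cons c'.ze x) (Fin.cons e y)) c')
              (.cd r)) P.n]
        rw [Fintype.sum_bool]
        simp only [clop, bw, px, if_true, Bool.false_eq_true, if_false, Cl.ze]
        set X1 := flE P.q ae ka K (fun u y => Φ (Fin.cons true u) (Fin.cons e y)) true
        set X0 := flE P.q ae ka K (fun u y => Φ (Fin.cons false u) (Fin.cons e y)) false
        have hX' : X0 ≤ X1 := hX e
        set S := ∑ r ∈ range P.n, Cr (r + 1)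
        have t3 := mul_le_mul_of_nonneg_left i1 (hCr 0)
        have t4 := mul_nonneg (sub_nonneg.2 hc0) (sub_nonneg.2 hX')
        nlinarith
      simp only [flE, clE]
      have e1 : (G + ∑ r ∈ range (P.n + 1), Cr r) * (∑ e : Bool, bw ka e *
          (∑ x' : Bool, bw (px P.q ae false) x' *
            flE P.q ae ka K (fun u y => Φ (Fin.cons x' u) (Fin.cons e y)) x')) =
          ∑ e : Bool, bw ka e * ((G + ∑ r ∈ range (P.n + 1), Cr r) *
          (∑ x' : Bool, bw (px P.q ae false) x' *
            flE P.q ae ka K (fun u y => Φ (Fin.cons x' u) (Fin.cons e y)) x')) := by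
        rw [Finset.mul_sum]
        apply Finset.sum_congr rfl
        intro e _
        ring
      have e2 : G * (∑ e : Bool, bw ka e *
          clop P (fun c' => clE P ka K (fun x y => Φ (Fin.cons c'.ze x) (Fin.cons e y)) c') .gen)
          + ∑ r ∈ range (P.n + 1), Cr r * (∑ e : Bool, bw ka e *
            clop P (fun c' => clE P ka K (fun x y => Φ (Fin.cons c'.ze x) (Fin.cons e y)) c')
              (.cd r)) =
          ∑ e : Bool, bw ka e * (G *
          clop P (fun c' => clE P ka K (fun x y => Φ (Fin.cons c'.ze x) (Fin.cons e y)) c') .gen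
          + ∑ r ∈ range (P.n + 1), Cr r *
            clop P (fun c' => clE P ka K (fun x y => Φ (Fin.cons c'.ze x) (Fin.cons e y)) c')
              (.cd r)) := by
        simp only [Fintype.sum_bool]
        have : ∀ r, Cr r * (bw ka true *
            clop P (fun c' => clE P ka K (fun x y => Φ (Fin.cons c'.ze x) (Fin.cons true y)) c')
              (.cd r) + bw ka false *
            clop P (fun c' => clE P ka K (fun x y => Φ (Fin.cons c'.ze x) (Fin.cons false y)) c')
              (.cd r)) = bw ka true * (Cr r *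
            clop P (fun c' => clE P ka K (fun x y => Φ (Fin.cons c'.ze x) (Fin.cons true y)) c')
              (.cd r)) + bw ka false * (Cr r *
            clop P (fun c' => clE P ka K (fun x y => Φ (Fin.cons c'.ze x) (Fin.cons false y)) c')
              (.cd r)) := by intro r; ring
        simp only [this, Finset.sum_add_distrib, ← Finset.mul_sum]
        ring
      rw [e1, e2]
      exact bw_avg_le hk0 hk1 hgoal

end H50CP
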