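import Pool.Agent.H50.CP.SDefs

/-! # cones of forward vectors (as linear functionals on test functions) -/

namespace H50CP

open Finset

/-- allowed states -/
def Alw (n : ℕ) : St → Prop
  | .I => True
  | .M => True
  | .F => True
  | .O => True
  | .cF r => r ≤ n
  | .cO r => r ≤ n
  | .V m g s => m + g + s ≤ n
  | .W g s => g + s ≤ n
  | .S s => s ≤ n

/-- indicator of a state -/
noncomputable def dl (t : St) : St → ℝ := fun s => if s = t then 1 else 0

/-- indicator of `V m g *` -/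
def dV (m g : ℕ) : St → ℝ
  | .V m' g' _ => if m' = m ∧ g' = g then 1 else 0
  | _ => 0

/-- indicator of `W g *` -/
def dWg (g : ℕ) : St → ℝ
  | .W g' _ => if g' = g then 1 else 0
  | _ => 0

/-- weighted indicator of the states `S` -/
noncomputable def wS (P : Par) : St → ℝ
  | .S s => 1 / om P ^ (s + 1)
  | _ => 0

/-- the potential on the states `M`, `V` -/
noncomputable def psi (P : Par) : St → ℝ
  | .M => 1
  | .V m _ _ => 1 / om P ^ (m + 1)
  | _ => 0

/-- the states `M`, `V` -/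
def isX : St → Bool
  | .M => true
  | .V _ _ _ => true
  | _ => false

/-- test function: mass healed in this slot with exactly `g` healthy window times to come -/
noncomputable def kd (P : Par) (g : ℕ) : St → ℝ
  | .I => P.q * P.tau * ∑ l ∈ range (P.n + 1), (if g ≤ l + 1 then dW (l + 1) g else 0)
  | .M => P.al * (if g ≤ P.n + 1 then dW (P.n + 1) g else 0)
  | .V 0 g' _ => if g' = g then 1 else 0
  | _ => 0

/-- cone of forward vectors on infected states -/
structure ConeA (P : Par) (C : Cst) (L : (St → ℝ) →ₗ[ℝ] ℝ) : Prop where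
  pos : ∀ φ : St → ℝ, (∀ s, Alw P.n s → s.z = true → 0 ≤ φ s) → 0 ≤ L φ
  j1 : ∀ r, r ≤ P.n → L (dl (.cF r)) ≤ th P r * L (dl .F)
  j2 : L (dl .I) + L (wS P) ≤ C.Ca * (L (dl .F) + L (dl .M))
  j3 : ∀ m g, L (dV m g) ≤ Bd P C (m + 1) g * om P ^ (m + 1) * (L (dl .F) + L (dl .M))
  j4 : ∀ φ : St → ℝ, (∀ s, 0 ≤ φ s) → (∀ s, isX s = false → φ s = 0) →
    (1 - P.q) * L φ ≤ L (Ps P φ)
  j5 : L (Ps P (psi P)) - (1 - P.q) * L (psi P) + P.q / om P ^ (P.n + 1) * L (wS P) ≤
    (P.c1 - P.q) * L (dl .F)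

/-- cone of forward vectors on healthy states -/
structure ConeD (P : Par) (C : Cst) (L : (St → ℝ) →ₗ[ℝ] ℝ) : Prop where
  pos : ∀ φ : St → ℝ, (∀ s, Alw P.n s → s.z = false → 0 ≤ φ s) → 0 ≤ L φ
  z1 : ∀ r, r ≤ P.n → L (dl (.cO r)) ≤ th P r * L (dl .O)
  z2 : ∀ g, g ≤ P.n → L (dWg g) ≤ kap P C g * L (dl .O)

theorem winS_add (l : ℕ) (φ ψ : St → ℝ) : winS l (φ + ψ) = winS l φ + winS l ψ := by
  unfold winS
  rw [← Finset.sum_add_distrib]
  refine Finset.sum_congr rfl fun p _ => ?_
  rw [← Finset.sum_add_distrib]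
  refine Finset.sum_congr rfl fun t _ => ?_
  simp only [Pi.add_apply]; ring

theorem winS_smul (l : ℕ) (c : ℝ) (φ : St → ℝ) : winS l (c • φ) = c * winS l φ := by
  unfold winS
  rw [Finset.mul_sum]
  refine Finset.sum_congr rfl fun p _ => ?_
  rw [Finset.mul_sum]
  refine Finset.sum_congr rfl fun t _ => ?_
  simp only [Pi.smul_apply, smul_eq_mul]; ring

theorem winU_add (l : ℕ) (φ ψ : St → ℝ) : winU l (φ + ψ) = winU l φ + winU l ψ := by
  unfold winU; simp only [Pi.add_apply]; ring

theorem winU_smul (l : ℕ) (c : ℝ) (φ : St → ℝ) : winU l (c • φ) = c * winU l φ := by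
  unfold winU; simp only [Pi.smul_apply, smul_eq_mul]; ring

theorem winD_add (l : ℕ) (φ ψ : St → ℝ) : winD l (φ + ψ) = winD l φ + winD l ψ := by
  unfold winD
  rw [← Finset.sum_add_distrib]
  refine Finset.sum_congr rfl fun p _ => ?_
  simp only [Pi.add_apply]; ring

theorem winD_smul (l : ℕ) (c : ℝ) (φ : St → ℝ) : winD l (c • φ) = c * winD l φ := by
  unfold winD
  rw [Finset.mul_sum]
  refine Finset.sum_congr rfl fun p _ => ?_
  simp only [Pi.smul_apply, smul_eq_mul]; ring

/-- `Ps` as a linear map -/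
noncomputable def PsL (P : Par) : (St → ℝ) →ₗ[ℝ] (St → ℝ) where
  toFun := Ps P
  map_add' φ ψ := by
    funext s
    simp only [Pi.add_apply]
    rcases s with _ | _ | _ | _ | r | r | ⟨m, g, s⟩ | ⟨g, s⟩ | s
    · simp only [Ps, winS_add, Finset.sum_add_distrib, Pi.add_apply]; ring
    · simp only [Ps, winS_add, Pi.add_apply]; ring
    · simp only [Ps, Pi.add_apply]; ring
    · simp only [Ps]; ring
    · cases r <;> simp only [Ps, Pi.add_apply] <;> ring
    · simp only [Ps]; ring
    · cases m <;> simp only [Ps, Pi.add_apply] <;> ring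
    · simp only [Ps]; ring
    · cases s <;> simp only [Ps, Pi.add_apply]
  map_smul' c φ := by
    funext s
    simp only [Pi.smul_apply, smul_eq_mul, RingHom.id_apply]
    rcases s with _ | _ | _ | _ | r | r | ⟨m, g, s⟩ | ⟨g, s⟩ | s
    · simp only [Ps, winS_smul, ← Finset.mul_sum, Pi.smul_apply, smul_eq_mul]; ring
    · simp only [Ps, winS_smul, Pi.smul_apply, smul_eq_mul]; ring
    · simp only [Ps, Pi.smul_apply, smul_eq_mul]; ring
    · simp only [Ps]; ring
    · cases r <;> simp only [Ps, Pi.smul_apply, smul_eq_mul] <;> ring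
    · simp only [Ps]; ring
    · cases m <;> simp only [Ps, Pi.smul_apply, smul_eq_mul] <;> ring
    · simp only [Ps]; ring
    · cases s <;> simp only [Ps, Pi.smul_apply, smul_eq_mul]

/-- `Pu` as a linear map -/
noncomputable def PuL (P : Par) : (St → ℝ) →ₗ[ℝ] (St → ℝ) where
  toFun := Pu P
  map_add' φ ψ := by
    funext s
    simp only [Pi.add_apply]
    rcases s with _ | _ | _ | _ | r | r | ⟨m, g, s⟩ | ⟨g, s⟩ | s
    · simp only [Pu, winU_add, Finset.sum_add_distrib]; ring
    · simp only [Pu, winU_add, Pi.add_apply]; ring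
    · simp only [Pu, Pi.add_apply]; ring
    · simp only [Pu, Pi.add_apply]; ring
    · cases r <;> simp only [Pu, Pi.add_apply] <;> ring
    · cases r <;> simp only [Pu, Pi.add_apply] <;> ring
    · cases m <;> cases g <;> simp only [Pu, Pi.add_apply] <;> ring
    · cases g <;> simp only [Pu, Pi.add_apply] <;> ring
    · simp only [Pu]; ring
  map_smul' c φ := by
    funext s
    simp only [Pi.smul_apply, smul_eq_mul, RingHom.id_apply]
    rcases s with _ | _ | _ | _ | r | r | ⟨m, g, s⟩ | ⟨g, s⟩ | s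
    · simp only [Pu, winU_smul, ← Finset.mul_sum]; ring
    · simp only [Pu, winU_smul, Pi.smul_apply, smul_eq_mul]; ring
    · simp only [Pu, Pi.smul_apply, smul_eq_mul]; ring
    · simp only [Pu, Pi.smul_apply, smul_eq_mul]; ring
    · cases r <;> simp only [Pu, Pi.smul_apply, smul_eq_mul] <;> ring
    · cases r <;> simp only [Pu, Pi.smul_apply, smul_eq_mul] <;> ring
    · cases m <;> cases g <;> simp only [Pu, Pi.smul_apply, smul_eq_mul] <;> ring
    · cases g <;> simp only [Pu, Pi.smul_apply, smul_eq_mul] <;> ring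
    · simp only [Pu]; ring

/-- `Pd` as a linear map -/
noncomputable def PdL (P : Par) : (St → ℝ) →ₗ[ℝ] (St → ℝ) where
  toFun := Pd P
  map_add' φ ψ := by
    funext s
    simp only [Pi.add_apply]
    rcases s with _ | _ | _ | _ | r | r | ⟨m, g, s⟩ | ⟨g, s⟩ | s
    · simp only [Pd, winD_add, Finset.sum_add_distrib]; ring
    · simp only [Pd, winD_add, Pi.add_apply]; ring
    · simp only [Pd, Pi.add_apply]; ring
    · simp only [Pd, Pi.add_apply]; ring
    · cases r <;> simp only [Pd, Pi.add_apply] <;> ring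
    · cases r <;> simp only [Pd, Pi.add_apply] <;> ring
    · cases m <;> cases g <;> simp only [Pd, Pi.add_apply] <;> ring
    · cases g <;> simp only [Pd, Pi.add_apply] <;> ring
    · simp only [Pd]; ring
  map_smul' c φ := by
    funext s
    simp only [Pi.smul_apply, smul_eq_mul, RingHom.id_apply]
    rcases s with _ | _ | _ | _ | r | r | ⟨m, g, s⟩ | ⟨g, s⟩ | s
    · simp only [Pd, winD_smul, ← Finset.mul_sum]; ring
    · simp only [Pd, winD_smul, Pi.smul_apply, smul_eq_mul]; ring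
    · simp only [Pd, Pi.smul_apply, smul_eq_mul]; ring
    · simp only [Pd, Pi.smul_apply, smul_eq_mul]; ring
    · cases r <;> simp only [Pd, Pi.smul_apply, smul_eq_mul] <;> ring
    · cases r <;> simp only [Pd, Pi.smul_apply, smul_eq_mul] <;> ring
    · cases m <;> cases g <;> simp only [Pd, Pi.smul_apply, smul_eq_mul] <;> ring
    · cases g <;> simp only [Pd, Pi.smul_apply, smul_eq_mul] <;> ring
    · simp only [Pd]; ring

@[simp] theorem PsL_apply (P : Par) (φ : St → ℝ) : PsL P φ = Ps P φ := rfl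
@[simp] theorem PuL_apply (P : Par) (φ : St → ℝ) : PuL P φ = Pu P φ := rfl
@[simp] theorem PdL_apply (P : Par) (φ : St → ℝ) : PdL P φ = Pd P φ := rfl

theorem ConeA.mono {P : Par} {C : Cst} {L : (St → ℝ) →ₗ[ℝ] ℝ} (h : ConeA P C L)
    {φ ψ : St → ℝ} (hle : ∀ s, Alw P.n s → s.z = true → φ s ≤ ψ s) : L φ ≤ L ψ := by
  have := h.pos (ψ - φ) (fun s h1 h2 => by simpa using hle s h1 h2)
  rw [map_sub] at this; linarith

theorem ConeA.congr {P : Par} {C : Cst} {L : (St → ℝ) →ₗ[ℝ] ℝ} (h : ConeA P C L)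
    {φ ψ : St → ℝ} (hle : ∀ s, Alw P.n s → s.z = true → φ s = ψ s) : L φ = L ψ :=
  le_antisymm (h.mono fun s a b => (hle s a b).le) (h.mono fun s a b => (hle s a b).ge)

theorem ConeD.mono {P : Par} {C : Cst} {L : (St → ℝ) →ₗ[ℝ] ℝ} (h : ConeD P C L)
    {φ ψ : St → ℝ} (hle : ∀ s, Alw P.n s → s.z = false → φ s ≤ ψ s) : L φ ≤ L ψ := by
  have := h.pos (ψ - φ) (fun s h1 h2 => by simpa using hle s h1 h2)
  rw [map_sub] at this; linarith

theorem ConeD.congr {P : Par} {C : Cst} {L : (St → ℝ) →ₗ[ℝ] ℝ} (h : ConeD P C L)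
    {φ ψ : St → ℝ} (hle : ∀ s, Alw P.n s → s.z = false → φ s = ψ s) : L φ = L ψ :=
  le_antisymm (h.mono fun s a b => (hle s a b).le) (h.mono fun s a b => (hle s a b).ge)

end H50CP
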