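import Pool.Agent.H50.CP.SB2
import Pool.Agent.H50.CP.SC

/-! # SD: the single-site lemma (recursion form) -/

namespace H50CP

open Finset

theorem Good.bas {P : Par} {C : Cst} (h : Good P C) : Bas P where
  q0 := h.q0.le
  q1 := by linarith [h.qc1, h.c12, h.c2lt]
  c10 := by linarith [h.q0, h.qc1]
  c12 := h.c12.le
  c21 := h.c2lt
  al0 := h.al0
  al1 := h.al1.le
  tau0 := h.tau0
  tau1 := h.tau1
  b0 := h.b0
  b1 := h.b1.le
  a0 := h.a0
  a1 := h.a1

/-- `1 + Σ_{j ≤ r ≤ n} θ_r = (1-al)^{-(n+1-j)}`, in the form `al * T_j = θ_j` -/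
theorem th_tail {P : Par} (hal : P.al < 1) : ∀ j, j ≤ P.n →
    P.al * (1 + ∑ r ∈ Ico j (P.n + 1), th P r) = th P j := by
  intro j hj
  have h1 : (0:ℝ) < 1 - P.al := by linarith
  obtain ⟨k, hk⟩ : ∃ k, k = P.n - j := ⟨_, rfl⟩
  induction k generalizing j with
  | zero =>
    have : j = P.n := by omega
    subst this
    simp only [Nat.Ico_succ_singleton, sum_singleton, th, le_refl, if_true]
    rw [show P.n + 1 - P.n = 1 by omega, pow_one]
    field_simp
    ring
  | succ k ih =>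
    have hlt : j < P.n := by omega
    have := ih (j + 1) (by omega) (by omega)
    rw [Finset.sum_eq_sum_Ico_succ_bot (by omega : j < P.n + 1)]
    have e1 : th P j = P.al / (1 - P.al) ^ (P.n + 1 - j) := by simp [th, hj]
    have e2 : th P (j + 1) = P.al / (1 - P.al) ^ (P.n - j) := by
      have : j + 1 ≤ P.n := hlt
      simp only [th, this, if_true]
      congr 2
      omega
    have e3 : P.n + 1 - j = (P.n - j) + 1 := by omega
    have e4 : th P (j + 1) = (1 - P.al) * th P j := by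
      rw [e1, e2, e3, pow_succ]; field_simp
    have : P.al * (1 + (th P j + ∑ k ∈ Ico (j + 1) (P.n + 1), th P k)) =
        th P (j + 1) + P.al * th P j := by rw [← this]; ring
    rw [this, e4]; ring

theorem op_mono {P : Par} {C : Cst} (hG : Good P C) {φ ψ : St → ℝ}
    (h : ∀ s, Alw P.n s → φ s ≤ ψ s) (s : St) (hs : Alw P.n s) : op P φ s ≤ op P ψ s := by
  have h1 := Ps_nonneg hG (ψ - φ) (fun s h1 _ => by simpa using h s h1) s hs
  have h2 := Pu_nonneg hG (ψ - φ) (fun s h1 _ => by simpa using h s h1) s hs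
  have h3 := Pd_nonneg hG (ψ - φ) (fun s h1 _ => by simpa using h s h1) s hs
  have e1 : Ps P (ψ - φ) = Ps P ψ - Ps P φ := (PsL P).map_sub ψ φ
  have e2 : Pu P (ψ - φ) = Pu P ψ - Pu P φ := (PuL P).map_sub ψ φ
  have e3 : Pd P (ψ - φ) = Pd P ψ - Pd P φ := (PdL P).map_sub ψ φ
  rw [e1] at h1; rw [e2] at h2; rw [e3] at h3
  simp only [Pi.sub_apply] at h1 h2 h3
  unfold op; linarith

theorem ze_le_z (s : St) : s.ze ≤ s.z := by
  cases s <;> simp [St.ze, St.z]

/-- pointwise comparison: the dominated spin is at most the infection value -/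
theorem runX_le_runE' {P : Par} {C : Cst} (hG : Good P C) :
    ∀ (K : ℕ) (Φ Φ' : (Fin K → Bool) → (Fin K → Bool) → ℝ), Mono2 Φ → Mono2 Φ' →
      (∀ x y, Φ x y ≤ Φ' x y) →
      ∀ s, Alw P.n s → runX P K Φ s ≤ runE P K Φ' s := by
  intro K
  induction K with
  | zero => intro Φ Φ' _ _ h s _; exact h _ _
  | succ K ih =>
    intro Φ Φ' hm hm' h s hs
    simp only [runX, runE]
    refine Finset.sum_le_sum fun e _ => ?_
    have he : 0 ≤ em P.a s.z e := by
      have := hG.a0; have := hG.a1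
      cases hz : s.z <;> cases e <;> simp [em] <;> linarith
    refine mul_le_mul_of_nonneg_left ?_ he
    refine op_mono hG (fun s' hs' => ?_) s hs
    refine ih _ _ (hm.cons _ _) (hm'.cons _ _) (fun x y => ?_) s' hs'
    exact (h _ _).trans (hm' _ _ _ _ (cons_le_cons (ze_le_z s') le_rfl) le_rfl)

/-- pointwise comparison: the dominated spin is at most the infection value -/
theorem runX_le_runE {P : Par} {C : Cst} (hG : Good P C) :
    ∀ (K : ℕ) (Φ : (Fin K → Bool) → (Fin K → Bool) → ℝ), Mono2 Φ →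
      ∀ s, Alw P.n s → runX P K Φ s ≤ runE P K Φ s :=
  fun K Φ hΦ s hs => runX_le_runE' hG K Φ Φ hΦ hΦ (fun _ _ => le_rfl) s hs

/-- **single-site lemma**, recursion form -/
theorem ssl {P : Par} {C : Cst} (hG : Good P C) {ka et ph ae : ℝ} (hB : GoodB P ka et ph)
    (ha0 : 0 ≤ ae) (ha : ae ≤ 1 - P.q) (h1 : ae ≤ P.al) (h2 : ae ≤ P.tau)
    (K : ℕ) (Φ : (Fin K → Bool) → (Fin K → Bool) → ℝ) (hΦ : Mono2 Φ) :
    flE P.q ae ka K Φ false ≤ chE P.q C.be P.a K Φ true := by
  have hP := hG.bas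
  have hk1 : ka ≤ 1 := hB.kaa.le.trans hG.a1
  have hLc : ConeA P C (L0 P) := coneA_L0 hG
  have hth : ∀ r, 0 ≤ th P r := th_nonneg hG
  -- total mass
  have hm : (L0 P) (fun _ => 1) = 1 + ∑ r ∈ range (P.n + 1), th P r := by
    simp [L0]
  have hmpos : 0 < (L0 P) (fun _ => 1) := by
    rw [hm]; have := Finset.sum_nonneg (fun r (_ : r ∈ range (P.n + 1)) => hth r); linarith
  have s1 : (L0 P) (runE P K Φ) ≤ (L0 P) (fun _ => 1) * chE P.q C.be P.a K Φ true :=
    (upper_cmp hG K Φ hΦ).1 _ hLc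
  have s2 : (L0 P) (runX P K Φ) ≤ (L0 P) (runE P K Φ) :=
    hLc.mono fun s hs _ => runX_le_runE hG K Φ hΦ s hs
  have hl := lower_cmp hP hB K Φ hΦ
  have s3 : clE P ka K Φ .gen + ∑ r ∈ range (P.n + 1), th P r * clE P ka K Φ (.cd r) ≤
      (L0 P) (runX P K Φ) := by
    have hgen := hl.2.1 0 1 0 le_rfl zero_le_one le_rfl (by simp)
    simp only [zero_add, add_zero, one_mul, zero_mul] at hgen
    have hcd : ∀ r ∈ range (P.n + 1), th P r * clE P ka K Φ (.cd r) ≤
        th P r * runX P K Φ (.cF r) := by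
      intro r hr
      have hr' : r ≤ P.n := by have := Finset.mem_range.1 hr; omega
      have hd : Dc P 1 0 0 0 0 0 := by
        constructor <;> simp
      have := hl.2.2 r 1 0 0 0 0 0 (th P r) 0 hd (by omega) (hth r) le_rfl
        (Or.inr (by simpa using hth r))
      simpa [D1, D0, LDv] using this
    have e : (L0 P) (runX P K Φ) = runX P K Φ .F +
        ∑ r ∈ range (P.n + 1), th P r * runX P K Φ (.cF r) := rfl
    rw [e]
    exact add_le_add hgen (Finset.sum_le_sum hcd)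
  have hc := (cl_flip hP.q0 hP.q1 hP.al1 hP.tau0 hP.tau1 ha0 ha h1 h2 hB.ka0.le hk1 K Φ hΦ).2
    1 (th P) zero_le_one hth (by
      intro j hj
      rw [← th_tail hG.al1 j hj]
      have : 0 ≤ 1 + ∑ r ∈ Ico j (P.n + 1), th P r := by
        have := Finset.sum_nonneg (fun r (_ : r ∈ Ico j (P.n + 1)) => hth r); linarith
      exact mul_le_mul_of_nonneg_right h1 this)
  rw [one_mul, ← hm] at hc
  have : (L0 P) (fun _ => 1) * flE P.q ae ka K Φ false ≤
      (L0 P) (fun _ => 1) * chE P.q C.be P.a K Φ true :=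
    hc.trans (s3.trans (s2.trans s1))
  exact le_of_mul_le_mul_left this hmpos

end H50CP
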