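import Mathlib

/-!
# MP_cfa2f1_pr : the hidden chain of the single-site lemma (discrete time)

`Par` collects the parameters (all per time slot; the window length is `n + 1` slots).
`St` is the hidden state space.  A state `s` has an infection value `s.z` and a value `s.ze` of
the dominated spin; `s.ze ≤ s.z`.

* `I`        : dominated spin is 1 (and infected);
* `M`        : spin just went down, still infected (margin), length of the spin gap unknown;
* `F`, `O`   : generic infected (filler) / generic healthy, spin 0;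
* `cF r`, `cO r` : the same, but it is known that the spin goes up after exactly `r` further
                   times with spin 0;
* `V m g s`  : spin 0, infected, window schedule known: after the current time `m` more infected
               times, then `g` healthy times, then `s` infected times, then the spin goes up;
* `W g s`    : spin 0, healthy, after the current time `g` more healthy, then `s` infected times;
* `S s`      : spin 0, infected, after the current time `s` more infected times.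
-/

namespace H50CP

open Finset

/-- hidden states -/
inductive St : Type
  | I : St
  | M : St
  | F : St
  | O : St
  | cF (r : ℕ) : St
  | cO (r : ℕ) : St
  | V (m g s : ℕ) : St
  | W (g s : ℕ) : St
  | S (s : ℕ) : St
deriving DecidableEq

/-- infected? -/
def St.z : St → Bool
  | .I => true
  | .M => true
  | .F => true
  | .O => false
  | .cF _ => true
  | .cO _ => false
  | .V _ _ _ => true
  | .W _ _ => false
  | .S _ => true

/-- value of the dominated spin -/
def St.ze : St → Bool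
  | .I => true
  | _ => false

/-- parameters: window length `n + 1`, recovery `q`, arrow `a`, filler up `b`, filler down `c1`,
margin down `c2`, weight `tau` of each short window length `1, …, n+1`, ring `al`. -/
structure Par where
  n : ℕ
  q : ℝ
  a : ℝ
  b : ℝ
  c1 : ℝ
  c2 : ℝ
  tau : ℝ
  al : ℝ

/-- weight of a schedule with `g` healthy times in a window of length `L`:
`(g+1) / binom(L+3,3)`. -/
noncomputable def dW (L g : ℕ) : ℝ := ((g : ℝ) + 1) / ((L + 3).choose 3 : ℝ)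

/-- window of length `l+1`, part in which the first time is infected, not yet healed -/
noncomputable def winS (l : ℕ) (Ψ : St → ℝ) : ℝ :=
  ∑ p ∈ antidiagonal l, ∑ t ∈ antidiagonal p.2, dW (l + 1) t.1 * Ψ (.V p.1 t.1 t.2)

/-- window of length `l+1`, schedule `(0,0,l+1)`: healed and reinfected in the same slot -/
noncomputable def winU (l : ℕ) (Ψ : St → ℝ) : ℝ := dW (l + 1) 0 * Ψ (.S l)

/-- window of length `l+1`, schedules `(0,g+1,s)` -/
noncomputable def winD (l : ℕ) (Ψ : St → ℝ) : ℝ :=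
  ∑ p ∈ antidiagonal l, dW (l + 1) (p.1 + 1) * Ψ (.W p.1 p.2)

/-- state entered when the remaining schedule is `(0,0,s)` -/
def nx : ℕ → St
  | 0 => .I
  | s + 1 => .S s

/-- one slot, test function form, part without recovery (alive → alive) -/
noncomputable def Ps (P : Par) (Ψ : St → ℝ) : St → ℝ
  | .I => (1 - P.q) * Ψ .I + P.q * (1 - P.tau * (P.n + 1)) * Ψ .M
        + P.q * P.tau * ∑ l ∈ range (P.n + 1), winS l Ψ
  | .M => (1 - P.al) * (1 - P.c2) * Ψ .M + P.al * winS P.n Ψ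
  | .F => (1 - P.al) * (1 - P.c1) * Ψ .F + P.al * (1 - P.c1) * Ψ (.cF P.n)
  | .O => 0
  | .cF 0 => (1 - P.c1) * Ψ .I
  | .cF (r + 1) => (1 - P.c1) * Ψ (.cF r)
  | .cO _ => 0
  | .V 0 _ _ => 0
  | .V (m + 1) g s => Ψ (.V m g s)
  | .W _ _ => 0
  | .S 0 => Ψ .I
  | .S (s + 1) => Ψ (.S s)

/-- one slot, part in which the site is infected at the end after a recovery in the slot or
after having been healthy (→ alive) -/
noncomputable def Pu (P : Par) (Ψ : St → ℝ) : St → ℝ
  | .I => P.q * P.tau * ∑ l ∈ range (P.n + 1), winU l Ψ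
  | .M => (1 - P.al) * P.c2 * P.b * Ψ .F + P.al * winU P.n Ψ
  | .F => (1 - P.al) * P.c1 * P.b * Ψ .F + P.al * P.c1 * P.b * Ψ (.cF P.n)
  | .O => (1 - P.al) * P.b * Ψ .F + P.al * P.b * Ψ (.cF P.n)
  | .cF 0 => P.c1 * Ψ .I
  | .cF (r + 1) => P.c1 * P.b * Ψ (.cF r)
  | .cO 0 => Ψ .I
  | .cO (r + 1) => P.b * Ψ (.cF r)
  | .V 0 0 s => Ψ (nx s)
  | .V 0 (_ + 1) _ => 0
  | .V (_ + 1) _ _ => 0
  | .W 0 s => Ψ (nx s)
  | .W (_ + 1) _ => 0
  | .S _ => 0

/-- one slot, part in which the site is healthy at the end -/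
noncomputable def Pd (P : Par) (Ψ : St → ℝ) : St → ℝ
  | .I => P.q * P.tau * ∑ l ∈ range (P.n + 1), winD l Ψ
  | .M => (1 - P.al) * P.c2 * (1 - P.b) * Ψ .O + P.al * winD P.n Ψ
  | .F => (1 - P.al) * P.c1 * (1 - P.b) * Ψ .O + P.al * P.c1 * (1 - P.b) * Ψ (.cO P.n)
  | .O => (1 - P.al) * (1 - P.b) * Ψ .O + P.al * (1 - P.b) * Ψ (.cO P.n)
  | .cF 0 => 0
  | .cF (r + 1) => P.c1 * (1 - P.b) * Ψ (.cO r)
  | .cO 0 => 0
  | .cO (r + 1) => (1 - P.b) * Ψ (.cO r)
  | .V 0 0 _ => 0
  | .V 0 (g + 1) s => Ψ (.W g s)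
  | .V (_ + 1) _ _ => 0
  | .W 0 _ => 0
  | .W (g + 1) s => Ψ (.W g s)
  | .S _ => 0

/-- the transition operator of the hidden chain -/
noncomputable def op (P : Par) (Ψ : St → ℝ) (s : St) : ℝ := Ps P Ψ s + Pu P Ψ s + Pd P Ψ s

/-- emission probabilities: an arrow (`e = true`) is emitted with probability `a` if the site is
infected at the beginning of the slot -/
def em (a : ℝ) (z e : Bool) : ℝ :=
  if z then (if e then a else 1 - a) else (if e then 0 else 1)

/-- Bernoulli weights -/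
def bw (p : ℝ) (e : Bool) : ℝ := if e then p else 1 - p

/-- expectation of `Φ (z_1..z_K) (e_1..e_K)` for the hidden chain -/
noncomputable def runE (P : Par) : (K : ℕ) → ((Fin K → Bool) → (Fin K → Bool) → ℝ) → St → ℝ
  | 0, Φ, _ => Φ Fin.elim0 Fin.elim0
  | K + 1, Φ, s => ∑ e : Bool, em P.a s.z e *
      op P (fun s' => runE P K (fun x y => Φ (Fin.cons s'.z x) (Fin.cons e y)) s') s

/-- expectation of `Φ (ζ_1..ζ_K) (e_1..e_K)` for the hidden chain -/
noncomputable def runX (P : Par) : (K : ℕ) → ((Fin K → Bool) → (Fin K → Bool) → ℝ) → St → ℝ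
  | 0, Φ, _ => Φ Fin.elim0 Fin.elim0
  | K + 1, Φ, s => ∑ e : Bool, em P.a s.z e *
      op P (fun s' => runX P K (fun x y => Φ (Fin.cons s'.ze x) (Fin.cons e y)) s') s

/-- up probability of the single site infection chain -/
def pz (q be : ℝ) (z : Bool) : ℝ := if z then 1 - q * (1 - be) else be

/-- expectation of `Φ (z_1..z_K) (e_1..e_K)` for the single-site infection chain with up
probability `be`, recovery probability `q`, arrows `a` (recovery before infection in a slot,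
arrows sent according to the state at the beginning of the slot) -/
noncomputable def chE (q be a : ℝ) :
    (K : ℕ) → ((Fin K → Bool) → (Fin K → Bool) → ℝ) → Bool → ℝ
  | 0, Φ, _ => Φ Fin.elim0 Fin.elim0
  | K + 1, Φ, z => ∑ e : Bool, em a z e *
      (∑ z' : Bool, bw (pz q be z) z' *
        chE q be a K (fun x y => Φ (Fin.cons z' x) (Fin.cons e y)) z')

/-- up probability of the dominated spin chain -/
def px (q ae : ℝ) (x : Bool) : ℝ := if x then 1 - q else ae

/-- expectation of `Φ (x_1..x_K) (p_1..p_K)` for the spin flip chain (up `ae`, down `q`) and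
independent Bernoulli(`ka`) variables -/
noncomputable def flE (q ae ka : ℝ) :
    (K : ℕ) → ((Fin K → Bool) → (Fin K → Bool) → ℝ) → Bool → ℝ
  | 0, Φ, _ => Φ Fin.elim0 Fin.elim0
  | K + 1, Φ, x => ∑ e : Bool, bw ka e *
      (∑ x' : Bool, bw (px q ae x) x' *
        flE q ae ka K (fun u y => Φ (Fin.cons x' u) (Fin.cons e y)) x')

/-- monotone in both arguments -/
def Mono2 {K : ℕ} (Φ : (Fin K → Bool) → (Fin K → Bool) → ℝ) : Prop :=
  ∀ x x' y y', x ≤ x' → y ≤ y' → Φ x y ≤ Φ x' y'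

/-! ### constants of the invariants -/

/-- `ω = (1-al)(1-c2)` -/
noncomputable def om (P : Par) : ℝ := (1 - P.al) * (1 - P.c2)

/-- `θ_r` -/
noncomputable def th (P : Par) (r : ℕ) : ℝ :=
  if r ≤ P.n then P.al / (1 - P.al) ^ (P.n + 1 - r) else 0

/-- extra constants of the invariants -/
structure Cst where
  be : ℝ
  Ca : ℝ
  K1 : ℝ
  K2 : ℝ
  Kh : ℝ

/-- bound for the window weights -/
noncomputable def Bd (P : Par) (C : Cst) (m g : ℕ) : ℝ :=
  C.K1 * ((g : ℝ) + 1) / ((m : ℝ) + g + 1) + C.K2 * ((P.n + 2 - m : ℕ) : ℝ) / ((P.n : ℝ) + 2)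

/-- `κ_g` -/
noncomputable def kap (P : Par) (C : Cst) (g : ℕ) : ℝ :=
  C.Kh / ((1 - P.b) * (1 - P.al)) ^ (P.n + 1 - g)

/-- the conditions on the parameters used for the upper comparison -/
structure Good (P : Par) (C : Cst) : Prop where
  q0 : 0 < P.q
  qc1 : P.q < P.c1
  c12 : P.c1 < P.c2
  c2lt : P.c2 < 1
  al0 : 0 ≤ P.al
  al1 : P.al < 1
  tau0 : 0 ≤ P.tau
  tau1 : P.tau * (P.n + 1) ≤ 1
  b0 : 0 ≤ P.b
  b1 : P.b < 1
  a0 : 0 ≤ P.a
  a1 : P.a ≤ 1
  Ca0 : 0 < C.Ca
  K10 : 0 ≤ C.K1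
  K20 : 0 ≤ C.K2
  Kh0 : 0 ≤ C.Kh
  be0 : 0 ≤ C.be
  be1 : C.be ≤ 1
  pzmono : C.be ≤ 1 - P.q * (1 - C.be)
  g1 : 1 - P.q - om P ≤ C.Ca * P.q * (1 - P.tau * (P.n + 1))
  g2 : th P 0 * (1 - P.c1) ≤ C.Ca * (1 - P.al) * (P.c2 - P.c1)
  g3 : 3 * P.q * P.tau * C.Ca ≤ C.K1 * om P ^ (P.n + 2)
  g4 : 6 * P.al ≤ C.K2 * om P ^ (P.n + 2) * ((P.n : ℝ) + 2)
  g5 : P.q / om P ^ (P.n + 1) * th P 0 * (1 - P.c1) ≤
      (P.c1 - P.q) * ((1 - P.al) * (1 - P.c1) - om P - P.al / om P ^ (P.n + 1))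
  g6 : P.c1 * th P 0 + (C.K1 + C.K2) * om P / om P ^ (P.n + 1) ≤
      C.Ca * (1 - P.al) * P.b * P.c1
  g7 : P.q / om P ^ (P.n + 1) * (P.c1 * th P 0 + (C.K1 + C.K2) * om P / om P ^ (P.n + 1)) ≤
      (P.c1 - P.q) * (1 - P.al) * P.b * P.c1
  g8 : th P 0 + kap P C 0 / om P ^ (P.n + 1) ≤ C.Ca * (1 - P.al) * P.b
  g9 : P.q / om P ^ (P.n + 1) * (th P 0 + kap P C 0 / om P ^ (P.n + 1)) ≤
      (P.c1 - P.q) * (1 - P.al) * P.b
  g10 : P.c1 * th P 0 + (C.K1 + C.K2) * om P ≤ (C.be - P.b) * (1 - P.al) * P.c1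
  g11 : P.b + th P 0 + kap P C 0 ≤ C.be
  g12 : (C.K1 + C.K2) * om P ≤ C.Kh * (1 - P.al) * (1 - P.b) * P.c1

/-- the conditions used for the lower comparison (`et` = η', `ph` = φ₀) -/
structure GoodB (P : Par) (ka et ph : ℝ) : Prop where
  ka0 : 0 < ka
  kaa : ka < P.a
  et0 : 0 < et
  ph0 : 0 < ph
  ph8 : 8 * ph ≤ (1 - P.a) ^ P.n
  h1 : (et * (1 - P.b) - P.b) * (1 / et + P.c2 / ph) ≤ (1 - P.a) * (1 - P.c2)
  h2 : et * P.c2 ≤ ph * (1 - P.c2)
  h3 : ka / (P.a - ka) ≤ et
  h4 : 6 * (ka / (P.a - ka)) ≤ (1 - P.a) ^ P.n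
  a1 : P.a < 1

end H50CP
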