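import Mathlib

/-!
# MP_cfa2f1_pr : definitions used in the statement

Poisson clocks, the graphical construction of the contact process on a graph, the upper stationary
contact process, the independent spin-flip process, the homogeneous tree `T_d`, the critical value
`λ_c(ℤ)`.
-/

namespace H50CP

open MeasureTheory ProbabilityTheory Set
open scoped NNReal ENNReal

/-! ### Poisson clocks on `ℝ` -/

/-- Sample space of one Poisson clock: for every integer `n` a number of points and a sequence of
positions for the points in the unit interval `(n, n+1]`. -/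
abbrev Clk : Type := ℤ → ℕ × (ℕ → ℝ)

/-- The set of marks (points) of the clock `c`: the points `n + u_j`, `j < (number of points)`. -/
def marks (c : Clk) : Set ℝ :=
  {t | ∃ (n : ℤ) (j : ℕ), j < (c n).1 ∧ 0 < (c n).2 j ∧ (c n).2 j ≤ 1 ∧ t = n + (c n).2 j}

/-- uniform distribution on `(0,1]` -/
noncomputable def unif : Measure ℝ := volume.restrict (Ioc (0 : ℝ) 1)

instance : IsProbabilityMeasure unif :=
  ⟨by simp [unif]⟩

/-- Law of a Poisson clock of rate `r`: independently for every integer `n`, the interval `(n, n+1]`
contains a Poisson(`r`) number of independent uniformly distributed points.  Thus `marks` is a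
Poisson point process of rate `r` on `ℝ`. -/
noncomputable def clk (r : ℝ≥0) : Measure Clk :=
  Measure.infinitePi fun _ : ℤ =>
    (poissonMeasure r).prod (Measure.infinitePi fun _ : ℕ => unif)

instance (r : ℝ≥0) : IsProbabilityMeasure (clk r) := by unfold clk; infer_instance

/-- Law of a family of independent Poisson clocks with rates `r i`. -/
noncomputable def pois {ι : Type} (r : ι → ℝ≥0) : Measure (ι → Clk) :=
  Measure.infinitePi fun i => clk (r i)

instance {ι : Type} (r : ι → ℝ≥0) : IsProbabilityMeasure (pois r) := by
  unfold pois; infer_instance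

/-! ### The contact process, graphical construction -/

/-- Sample space of the graphical construction: recovery marks at every site (`Sum.inl x`), infection
arrows for every ordered pair of sites (`Sum.inr (x, y)`: arrows from `x` to `y`). -/
abbrev CΩ (V : Type) : Type := (V ⊕ (V × V)) → Clk

/-- Law of the graphical construction: recovery marks at rate 1, arrows at rate `lam`. -/
noncomputable def contactLaw (V : Type) (lam : ℝ≥0) : Measure (CΩ V) :=
  pois (Sum.elim (fun _ => 1) (fun _ => lam))

/-- `Reach G ω s x t`: the site `x` is infected at time `t` in the contact process on the graph `G`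
started at time `s` with all sites infected.  Either there is no recovery mark at `x` in `(s,t]`, or
there is an arrow at a time `u ∈ (s,t]` from a neighbour `y` infected at time `u` to `x`, and no
recovery mark at `x` in `(u,t]`. -/
inductive Reach {V : Type} (G : SimpleGraph V) (ω : CΩ V) (s : ℝ) : V → ℝ → Prop
  | start (x : V) (t : ℝ) (hst : s ≤ t)
      (h : ∀ v ∈ marks (ω (Sum.inl x)), ¬ (s < v ∧ v ≤ t)) : Reach G ω s x t
  | arrow (x y : V) (u t : ℝ) (hyx : G.Adj y x) (hsu : s < u) (hut : u ≤ t)
      (hu : u ∈ marks (ω (Sum.inr (y, x)))) (hy : Reach G ω s y u)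
      (h : ∀ v ∈ marks (ω (Sum.inl x)), ¬ (u < v ∧ v ≤ t)) : Reach G ω s x t

/-- The upper stationary contact process: the site `x` is infected at time `t` (`t ∈ ℝ`) if it is
infected for the process started with all sites infected at time `s`, for every `s ≤ t`.  (It is the
decreasing limit, as `s → -∞`, of the contact process started at time `s` from the all-ones
configuration, hence the stationary process whose law at every time is the upper invariant
measure.) -/
def Upper {V : Type} (G : SimpleGraph V) (ω : CΩ V) (x : V) (t : ℝ) : Prop :=
  ∀ s : ℝ, s ≤ t → Reach G ω s x t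

/-! ### The independent spin-flip process -/

/-- Sample space for the spin flips: down marks (`Sum.inl x`) and up marks (`Sum.inr x`). -/
abbrev FΩ (V : Type) : Type := (V ⊕ V) → Clk

/-- Law of the marks: down marks at rate 1, up marks at rate `α`. -/
noncomputable def flipLaw (V : Type) (α : ℝ≥0) : Measure (FΩ V) :=
  pois (Sum.elim (fun _ => 1) (fun _ => α))

/-- The stationary independent spin-flip process: the spin of `x` at time `t` is 1 if the last mark
of `x` before time `t` is an up mark. -/
def FlipOn {V : Type} (ω : FΩ V) (x : V) (t : ℝ) : Prop :=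
  ∃ u ∈ marks (ω (Sum.inr x)), u ≤ t ∧ ∀ v ∈ marks (ω (Sum.inl x)), ¬ (u < v ∧ v ≤ t)

/-! ### Graphs -/

/-- Vertex set of the homogeneous tree: two rooted `d`-ary trees (`Bool` chooses the tree), the
vertices of a `d`-ary tree being the words over `Fin d`. -/
abbrev TV (d : ℕ) : Type := Bool × List (Fin d)

/-- The homogeneous tree `T_d` (every vertex has degree `d+1`): the children of the word `w` are the
words `w ++ [i]`, `i : Fin d`, and the two roots are joined by an edge. -/
def tree (d : ℕ) : SimpleGraph (TV d) where
  Adj x y := (∃ i, y = (x.1, x.2 ++ [i])) ∨ (∃ i, x = (y.1, y.2 ++ [i])) ∨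
    (x.1 ≠ y.1 ∧ x.2 = [] ∧ y.2 = [])
  symm := ⟨by
    rintro x y (h | h | ⟨h1, h2, h3⟩)
    · exact Or.inr (Or.inl h)
    · exact Or.inl h
    · exact Or.inr (Or.inr ⟨Ne.symm h1, h3, h2⟩)⟩
  loopless := ⟨by
    rintro x (⟨i, h⟩ | ⟨i, h⟩ | ⟨h1, _, _⟩)
    · have := congrArg (fun p => p.2.length) h; simp at this
    · have := congrArg (fun p => p.2.length) h; simp at this
    · exact h1 rfl⟩

/-- The graph `ℤ`. -/
def zgraph : SimpleGraph ℤ where
  Adj x y := y = x + 1 ∨ x = y + 1
  symm := ⟨by rintro x y (h | h); exacts [Or.inr h, Or.inl h]⟩
  loopless := ⟨by rintro x (h | h) <;> omega⟩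

/-- The critical value `λ_c(ℤ)`: the infimum of the infection rates for which the upper invariant
measure of the contact process on `ℤ` is not concentrated on the all-zero configuration. -/
noncomputable def lambdaC : ℝ≥0∞ :=
  sInf {l : ℝ≥0∞ | ∃ lam : ℝ≥0, l = lam ∧
    contactLaw ℤ lam {ω | Upper zgraph ω 0 0} ≠ 0}

end H50CP
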