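import Pool.Agent.H50.CP.TDefs

/-!
# T1: stochastic domination

`Sto.prod`: `∫∫ f(x,y) dμ(x) dμ'(y)`; replace `μ` by `ν` for fixed `y` (the section is monotone,
measurable, bounded), then `μ'` by `ν'` (`integral_prod`, `integral_prod_symm`; the partial
integrals are monotone, measurable (`Measurable`/`StronglyMeasurable.integral_prod_right'`) and
bounded).
`Sto.pi`: transport to `ι = Fin n` (`Fintype.induction_empty_option` or
`measurePreserving_piCongrLeft`), then induction on `n` with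
`measurePreserving_piFinSuccAbove` and `Sto.prod`.
-/

namespace H50CP

open MeasureTheory ProbabilityTheory Set

variable {α β : Type} [MeasurableSpace α] [Preorder α] [MeasurableSpace β] [Preorder β]

theorem Sto.refl (μ : Measure α) : Sto μ μ := fun _ _ _ _ => le_rfl

theorem Sto.trans {μ ν ρ : Measure α} (h : Sto μ ν) (h' : Sto ν ρ) : Sto μ ρ :=
  fun f h1 h2 h3 => (h f h1 h2 h3).trans (h' f h1 h2 h3)

theorem Sto.map {μ ν : Measure α} (h : Sto μ ν) {g : α → β} (hg : Measurable g)
    (hm : Monotone g) : Sto (μ.map g) (ν.map g) := by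
  intro f h1 h2 h3
  rw [integral_map hg.aemeasurable h2.aestronglyMeasurable,
    integral_map hg.aemeasurable h2.aestronglyMeasurable]
  obtain ⟨C, hC⟩ := h3
  exact h (fun x => f (g x)) (h1.comp hm) (h2.comp hg) ⟨C, fun x => hC _⟩

/-- a bounded measurable function is integrable -/
theorem T1_integrable {γ : Type} [MeasurableSpace γ] {μ : Measure γ} [IsFiniteMeasure μ]
    {f : γ → ℝ} (hf : Measurable f) (hb : ∃ C : ℝ, ∀ x, |f x| ≤ C) : Integrable f μ := by
  obtain ⟨C, hC⟩ := hb
  exact Integrable.of_bound hf.aestronglyMeasurable C (Filter.Eventually.of_forall fun x => by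
    rw [Real.norm_eq_abs]; exact hC x)

theorem Sto.map_le {μ : Measure α} [IsFiniteMeasure μ] {g g' : α → β} (hg : Measurable g)
    (hg' : Measurable g') (hm : ∀ x, g x ≤ g' x) : Sto (μ.map g) (μ.map g') := by
  intro f h1 h2 h3
  rw [integral_map hg.aemeasurable h2.aestronglyMeasurable,
    integral_map hg'.aemeasurable h2.aestronglyMeasurable]
  obtain ⟨C, hC⟩ := h3
  exact integral_mono (T1_integrable (h2.comp hg) ⟨C, fun x => hC _⟩)
    (T1_integrable (h2.comp hg') ⟨C, fun x => hC _⟩) (fun x => h1 (hm x))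

theorem Sto.prod {μ ν : Measure α} {μ' ν' : Measure β} [IsProbabilityMeasure μ]
    [IsProbabilityMeasure ν] [IsProbabilityMeasure μ'] [IsProbabilityMeasure ν']
    (h : Sto μ ν) (h' : Sto μ' ν') : Sto (μ.prod μ') (ν.prod ν') := by
  intro f h1 h2 h3
  have h3' := h3
  obtain ⟨C, hC⟩ := h3
  have sec : ∀ y : β, Measurable fun x : α => f (x, y) := fun y => h2.comp measurable_prodMk_right
  have bd : ∀ (ρ : Measure α) [IsProbabilityMeasure ρ] (y : β), |∫ x, f (x, y) ∂ρ| ≤ C := by
    intro ρ _ y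
    have := norm_integral_le_of_norm_le_const (μ := ρ) (f := fun x => f (x, y)) (C := C)
      (Filter.Eventually.of_forall fun x => by rw [Real.norm_eq_abs]; exact hC _)
    simpa using this
  have meas : ∀ (ρ : Measure α) [IsProbabilityMeasure ρ],
      Measurable fun y : β => ∫ x, f (x, y) ∂ρ := by
    intro ρ _
    exact (StronglyMeasurable.integral_prod_left' (μ := ρ) h2.stronglyMeasurable).measurable
  rw [integral_prod_symm _ (T1_integrable h2 h3'), integral_prod_symm _ (T1_integrable h2 h3')]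
  have s1 : ∫ y, ∫ x, f (x, y) ∂μ ∂μ' ≤ ∫ y, ∫ x, f (x, y) ∂ν ∂μ' := by
    refine integral_mono (T1_integrable (meas μ) ⟨C, bd μ⟩) (T1_integrable (meas ν) ⟨C, bd ν⟩) ?_
    intro y
    exact h _ (fun x x' hx => h1 (Prod.mk_le_mk.2 ⟨hx, le_rfl⟩)) (sec y) ⟨C, fun x => hC _⟩
  have s2 : ∫ y, ∫ x, f (x, y) ∂ν ∂μ' ≤ ∫ y, ∫ x, f (x, y) ∂ν ∂ν' := by
    refine h' _ ?_ (meas ν) ⟨C, bd ν⟩
    intro y y' hy
    exact integral_mono (T1_integrable (sec y) ⟨C, fun x => hC _⟩)
      (T1_integrable (sec y') ⟨C, fun x => hC _⟩) fun x => h1 (Prod.mk_le_mk.2 ⟨le_rfl, hy⟩)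
  exact s1.trans s2

theorem T1_pi_fin (n : ℕ) : ∀ {μ ν : Fin n → Measure α} [∀ i, IsProbabilityMeasure (μ i)]
    [∀ i, IsProbabilityMeasure (ν i)] (_ : ∀ i, Sto (μ i) (ν i)),
    Sto (Measure.pi μ) (Measure.pi ν) := by
  induction n with
  | zero =>
    intro μ ν _ _ _
    rw [Measure.pi_of_empty μ, Measure.pi_of_empty ν]
    exact Sto.refl _
  | succ n ih =>
    intro μ ν _ _ h
    have e1 := (measurePreserving_piFinSuccAbove μ 0).symm
    have e2 := (measurePreserving_piFinSuccAbove ν 0).symm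
    rw [← e1.map_eq, ← e2.map_eq]
    refine Sto.map (Sto.prod (h 0) (ih fun i => h _)) e1.measurable ?_
    intro p q hpq i
    have hp := hpq.1
    have hq := hpq.2
    refine Fin.cases ?_ (fun j => ?_) i
    · simpa [MeasurableEquiv.piFinSuccAbove] using hp
    · simpa [MeasurableEquiv.piFinSuccAbove] using hq j

theorem Sto.pi {ι : Type} [Fintype ι] {μ ν : ι → Measure α} [∀ i, IsProbabilityMeasure (μ i)]
    [∀ i, IsProbabilityMeasure (ν i)] (h : ∀ i, Sto (μ i) (ν i)) :
    Sto (Measure.pi μ) (Measure.pi ν) := by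
  classical
  let e : Fin (Fintype.card ι) ≃ ι := (Fintype.equivFin ι).symm
  have e1 := measurePreserving_piCongrLeft μ e
  have e2 := measurePreserving_piCongrLeft ν e
  rw [← e1.map_eq, ← e2.map_eq]
  refine Sto.map (T1_pi_fin _ fun i => h _) e1.measurable ?_
  intro p q hpq i
  obtain ⟨j, rfl⟩ := e.surjective i
  rw [MeasurableEquiv.coe_piCongrLeft, Equiv.piCongrLeft_apply_apply,
    Equiv.piCongrLeft_apply_apply]
  exact hpq j

end H50CP
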