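import Pool.Agent.H50.CP.TDefs

/-!
# T2: splitting of the environment at the root, law of the union

`tenv_glue`: `Measure.eq_infinitePi` (uniqueness on boxes): the preimage of a box
`Set.pi s t` (`s : Finset (List (Fin d))`) under `p ↦ glue p.1 p.2` is a product of the set `t []`
(or `univ`) with a box of the subtrees; `Measure.prod_prod`, `Measure.pi_pi`,
`Measure.infinitePi_pi`; the product over `s` splits into the product over the words of `s` starting
with `i`, `i : Fin d`.  (Alternatively: `List (Fin d) ≃ Option (Fin d × List (Fin d))`,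
`infinitePi_map_piCongrLeft`, `infinitePi_map_curry_symm`, `infinitePi_eq_pi`.)

`union_law`: exchange the two products (`infinitePi_eq_pi`, `infinitePi_map_curry_symm`,
`infinitePi_map_piCongrLeft` with `Equiv.prodComm`, `infinitePi_map_curry`), then
`infinitePi_map_pi` with the map `(Fin d → Bool) → Bool`; the law of the union of `d` Bernoulli
variables: the union is `false` with probability `(1-ka)^d`.
-/

namespace H50CP

open MeasureTheory ProbabilityTheory Set
open scoped Classical

theorem measurable_glue {d : ℕ} :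
    Measurable (fun p : ((ℕ → Bool) × (ℕ → Bool)) × (Fin d → TE d) => glue p.1 p.2) := by
  refine measurable_pi_lambda _ fun w => ?_
  cases w with
  | nil => exact measurable_fst
  | cons i w =>
    have h : (fun p : ((ℕ → Bool) × (ℕ → Bool)) × (Fin d → TE d) => glue p.1 p.2 (i :: w))
        = (fun e : TE d => e w) ∘ (fun g : Fin d → TE d => g i) ∘ Prod.snd := rfl
    rw [h]
    exact (measurable_pi_apply w).comp ((measurable_pi_apply i).comp measurable_snd)

/-- words `w` with `i :: w ∈ s` -/
private def t2_sub {d : ℕ} (s : Finset (List (Fin d))) (i : Fin d) : Finset (List (Fin d)) :=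
  (s.filter fun w => w.head? = some i).image List.tail

private theorem t2_mem_sub {d : ℕ} (s : Finset (List (Fin d))) (i : Fin d) (w : List (Fin d)) :
    w ∈ t2_sub s i ↔ i :: w ∈ s := by
  unfold t2_sub
  simp only [Finset.mem_image, Finset.mem_filter]
  constructor
  · rintro ⟨v, ⟨hv, hi⟩, rfl⟩
    cases v with
    | nil => simp at hi
    | cons j v =>
      simp only [List.head?_cons, Option.some.injEq] at hi
      subst hi
      exact hv
  · intro h
    exact ⟨i :: w, ⟨h, rfl⟩, rfl⟩

private theorem t2_prod {d : ℕ} (s : Finset (List (Fin d))) (f : List (Fin d) → ENNReal) :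
    ∏ w ∈ s, f w = (if [] ∈ s then f [] else 1) * ∏ i : Fin d, ∏ w ∈ t2_sub s i, f (i :: w) := by
  rw [← Finset.prod_fiberwise s (fun w : List (Fin d) => w.head?) f, Fintype.prod_option]
  congr 1
  · by_cases h : ([] : List (Fin d)) ∈ s
    · rw [if_pos h]
      have : (s.filter fun w => w.head? = none) = {[]} := by
        ext w
        simp only [Finset.mem_filter, Finset.mem_singleton, List.head?_eq_none_iff]
        exact ⟨fun h => h.2, fun h' => ⟨by rw [h']; exact h, h'⟩⟩
      rw [this, Finset.prod_singleton]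
    · rw [if_neg h]
      have : (s.filter fun w => w.head? = none) = ∅ := by
        ext w
        simp only [Finset.mem_filter, Finset.notMem_empty, iff_false, List.head?_eq_none_iff]
        rintro ⟨h1, rfl⟩
        exact h h1
      rw [this, Finset.prod_empty]
  · refine Finset.prod_congr rfl fun i _ => ?_
    symm
    refine Finset.prod_bij (fun w _ => i :: w) ?_ ?_ ?_ ?_
    · intro w hw
      rw [t2_mem_sub] at hw
      simp [hw]
    · intro w _ w' _ h
      simpa using h
    · intro v hv
      rw [Finset.mem_filter] at hv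
      cases v with
      | nil => simp at hv
      | cons j v =>
        simp only [List.head?_cons, Option.some.injEq] at hv
        obtain ⟨h1, rfl⟩ := hv
        exact ⟨v, (t2_mem_sub s j v).mpr h1, rfl⟩
    · intro w _
      rfl

theorem tenv_glue (d : ℕ) (p p' : ℝ) :
    (((bseq p).prod (bseq p')).prod (Measure.pi fun _ : Fin d => tenv d p p')).map
      (fun x => glue x.1 x.2) = tenv d p p' := by
  unfold tenv
  refine Measure.eq_infinitePi _ fun s t ht => ?_
  rw [Measure.map_apply measurable_glue (.pi s.countable_toSet fun _ _ => ht _)]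
  have h1 : (fun x : ((ℕ → Bool) × (ℕ → Bool)) × (Fin d → TE d) => glue x.1 x.2) ⁻¹' ((s : Set _).pi t)
      = (if [] ∈ s then t [] else Set.univ) ×ˢ
        (Set.univ.pi fun i : Fin d => ((t2_sub s i : Finset _) : Set (List (Fin d))).pi fun w => t (i :: w)) := by
    ext x
    simp only [Set.mem_preimage, Set.mem_pi, Finset.mem_coe, Set.mem_prod, Set.mem_univ, true_implies]
    constructor
    · intro h
      refine ⟨?_, fun i w hw => h (i :: w) ((t2_mem_sub s i w).mp hw)⟩
      by_cases hs : ([] : List (Fin d)) ∈ s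
      · rw [if_pos hs]
        exact h [] hs
      · rw [if_neg hs]
        exact Set.mem_univ _
    · rintro ⟨h0, h⟩ w hw
      cases w with
      | nil =>
        rw [if_pos hw] at h0
        exact h0
      | cons i w => exact h i w ((t2_mem_sub s i w).mpr hw)
  rw [h1, Measure.prod_prod, Measure.pi_pi]
  have h2 : ∀ i : Fin d, (Measure.infinitePi fun _ : List (Fin d) => (bseq p).prod (bseq p'))
      (((t2_sub s i : Finset _) : Set (List (Fin d))).pi fun w => t (i :: w))
        = ∏ w ∈ t2_sub s i, ((bseq p).prod (bseq p')) (t (i :: w)) := fun i =>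
    Measure.infinitePi_pi _ fun w _ => ht _
  rw [Finset.prod_congr rfl fun i _ => h2 i, t2_prod s]
  congr 1
  by_cases hs : ([] : List (Fin d)) ∈ s
  · rw [if_pos hs, if_pos hs]
  · rw [if_neg hs, if_neg hs, measure_univ]

private theorem t2_box (S : Finset ℕ) : MeasurableSet {f : ℕ → Bool | ∀ k ∈ S, f k = false} := by
  have : {f : ℕ → Bool | ∀ k ∈ S, f k = false} = ⋂ k ∈ S, (fun f : ℕ → Bool => f k) ⁻¹' {false} := by
    ext f; simp
  rw [this]
  exact Finset.measurableSet_biInter _ fun k _ => measurable_pi_apply k (MeasurableSet.singleton _)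

private theorem t2_ext {μ ν : Measure (ℕ → Bool)} [IsProbabilityMeasure μ] [IsProbabilityMeasure ν]
    (h : ∀ S : Finset ℕ, μ {f | ∀ k ∈ S, f k = false} = ν {f | ∀ k ∈ S, f k = false}) : μ = ν := by
  set C : Set (Set (ℕ → Bool)) := Set.range fun S : Finset ℕ => {f : ℕ → Bool | ∀ k ∈ S, f k = false}
    with hC
  have hgen : (MeasurableSpace.pi : MeasurableSpace (ℕ → Bool)) = MeasurableSpace.generateFrom C := by
    apply le_antisymm
    · refine iSup_le fun k => ?_
      rw [← measurable_iff_comap_le]
      have h1 : @Measurable _ _ (MeasurableSpace.generateFrom C) _ (fun f : ℕ → Bool => !(f k)) := by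
        refine @measurable_to_bool _ (MeasurableSpace.generateFrom C) _ ?_
        have : (fun f : ℕ → Bool => !(f k)) ⁻¹' {true} = {f : ℕ → Bool | ∀ k' ∈ ({k} : Finset ℕ), f k' = false} := by
          ext f; simp
        rw [this]
        exact MeasurableSpace.measurableSet_generateFrom ⟨{k}, rfl⟩
      have h2 : (fun f : ℕ → Bool => f k) = (fun b : Bool => !b) ∘ (fun f : ℕ → Bool => !(f k)) := by
        funext f; simp
      rw [h2]
      exact (measurable_of_finite _).comp h1
    · refine MeasurableSpace.generateFrom_le ?_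
      rintro _ ⟨S, rfl⟩
      exact t2_box S
  have hpi : IsPiSystem C := by
    rintro _ ⟨S, rfl⟩ _ ⟨S', rfl⟩ _
    refine ⟨S ∪ S', ?_⟩
    ext f
    simp only [Finset.mem_union, Set.mem_ofPred_eq, Set.mem_inter_iff]
    exact ⟨fun h => ⟨fun k hk => h k (Or.inl hk), fun k hk => h k (Or.inr hk)⟩,
      fun h k hk => hk.elim (h.1 k) (h.2 k)⟩
  refine ext_of_generate_finite C hgen hpi ?_ (by rw [measure_univ, measure_univ])
  rintro _ ⟨S, rfl⟩
  exact h S

private theorem t2_ber {p : ℝ} (h0 : 0 ≤ p) (h1 : p ≤ 1) : ber p {false} = ENNReal.ofReal (1 - p) := by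
  have h2 : max 0 (min 1 p) = p := by
    rw [min_eq_right h1, max_eq_right h0]
  simp only [ber, h2, Measure.add_apply, Measure.smul_apply, smul_eq_mul]
  rw [Measure.dirac_apply' _ (MeasurableSet.singleton _), Measure.dirac_apply' _ (MeasurableSet.singleton _)]
  simp

private theorem t2_bseq {p : ℝ} (h0 : 0 ≤ p) (h1 : p ≤ 1) (S : Finset ℕ) :
    bseq p {f | ∀ k ∈ S, f k = false} = ENNReal.ofReal (1 - p) ^ S.card := by
  have h2 : {f : ℕ → Bool | ∀ k ∈ S, f k = false} = (S : Set ℕ).pi fun _ => ({false} : Set Bool) := by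
    ext f; simp
  rw [h2, bseq, Measure.infinitePi_pi _ (fun _ _ => MeasurableSet.singleton _), Finset.prod_const,
    t2_ber h0 h1]

theorem union_law (d : ℕ) {ka : ℝ} (h0 : 0 ≤ ka) (h1 : ka ≤ 1) :
    (Measure.pi fun _ : Fin d => bseq ka).map
      (fun (p : Fin d → ℕ → Bool) (k : ℕ) => decide (∃ i, p i k = true)) =
        bseq (1 - (1 - ka) ^ d) := by
  have hmeas : Measurable (fun (p : Fin d → ℕ → Bool) (k : ℕ) => decide (∃ i, p i k = true)) := by
    refine measurable_pi_lambda _ fun k => measurable_to_bool ?_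
    have : (fun p : Fin d → ℕ → Bool => decide (∃ i, p i k = true)) ⁻¹' {true}
        = ⋃ i : Fin d, (fun p : Fin d → ℕ → Bool => p i k) ⁻¹' {true} := by
      ext p; simp
    rw [this]
    refine MeasurableSet.iUnion fun i => ?_
    have m1 : Measurable fun p : Fin d → ℕ → Bool => p i k :=
      (measurable_pi_apply k).comp (measurable_pi_apply i)
    exact m1 (MeasurableSet.singleton _)
  have : IsProbabilityMeasure ((Measure.pi fun _ : Fin d => bseq ka).map
      (fun (p : Fin d → ℕ → Bool) (k : ℕ) => decide (∃ i, p i k = true))) :=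
    Measure.isProbabilityMeasure_map hmeas.aemeasurable
  have hk0 : 0 ≤ 1 - ka := by linarith
  have hk1 : (1 - ka) ^ d ≤ 1 := pow_le_one₀ hk0 (by linarith)
  have hk2 : 0 ≤ (1 - ka) ^ d := by positivity
  refine t2_ext fun S => ?_
  rw [Measure.map_apply hmeas (t2_box S), t2_bseq (by linarith) (by linarith)]
  have h2 : (fun (p : Fin d → ℕ → Bool) (k : ℕ) => decide (∃ i, p i k = true)) ⁻¹'
      {f : ℕ → Bool | ∀ k ∈ S, f k = false}
        = Set.univ.pi fun _ : Fin d => {f : ℕ → Bool | ∀ k ∈ S, f k = false} := by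
    ext p
    simp only [Set.mem_preimage, Set.mem_ofPred_eq, Set.mem_pi, Set.mem_univ, true_implies,
      decide_eq_false_iff_not, not_exists, Bool.not_eq_true]
    exact ⟨fun h i k hk => h k hk i, fun h k hk i => h i k hk⟩
  rw [h2, Measure.pi_pi, Finset.prod_const, Finset.card_univ, Fintype.card_fin, t2_bseq h0 h1,
    sub_sub_cancel, ENNReal.ofReal_pow hk0, ← pow_mul, ← pow_mul, mul_comm]

end H50CP
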