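import Pool.Agent.H50.CP.T1

/-!
# T3: measure form of the single-site lemma

1. `bseq p` is the law of `(b, r) ↦ Nat.cases b r` (`b ~ ber p`, `r ~ bseq p`): `eq_infinitePi`
   (or `infinitePi_map_piCongrLeft`), and `∫ b, F b ∂(ber p) = Σ_b bw p b * F b` for `0 ≤ p ≤ 1`.
2. Induction on `K` for general initial values (generalise `Zp`, `Xp` to an arbitrary initial
   value `z`), for `Φ : (Fin K → Bool) → (Fin K → Bool) → ℝ`:
   `∫ Φ (k ↦ Z_{k+1}) (k ↦ s_k && Z_k) = chE q be a K Φ z`,
   `∫ Φ (k ↦ X_{k+1}) (k ↦ p_k) = flE q ae ka K Φ z`.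
   (given `z`: `e_0 = s_0 && z` has law `em a z`, `z' = (z && !r_0) || u_0` has law `bw (pz q be z)`,
   they are independent; `x'` has law `bw (px q ae x)`.)
3. For monotone measurable `f` on `(ℕ → Bool) × (ℕ → Bool)`: `f (cutL K X) (cutE K p) =
   Φ_false (X_{k+1})_k (p_k)_k` where `Φ_z x y = f (extension of x by z at time 0, 0 after K) …`,
   `Φ_false ≤ Φ_true`.
-/

namespace H50CP

open MeasureTheory ProbabilityTheory Set

/-- prepend a value -/
private def T3cons (b : Bool) (r : ℕ → Bool) : ℕ → Bool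
  | 0 => b
  | k + 1 => r k

private theorem T3_measurable_cons :
    Measurable (fun p : Bool × (ℕ → Bool) => T3cons p.1 p.2) := by
  rw [measurable_pi_iff]; intro k; cases k with
  | zero => exact measurable_fst
  | succ k => exact (measurable_pi_apply k).comp measurable_snd

private theorem T3_measurable_cons' (b : Bool) :
    Measurable (fun r : ℕ → Bool => T3cons b r) :=
  T3_measurable_cons.comp (measurable_const.prodMk measurable_id)

private theorem T3_bseq_cons (p : ℝ) :
    ((ber p).prod (bseq p)).map (fun x => T3cons x.1 x.2) = bseq p := by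
  have hinj : InjOn (fun k : ℕ => k + 1) (univ : Set ℕ) := fun a _ b _ h => by simpa using h
  refine Measure.eq_infinitePi _ fun s t ht => ?_
  rw [Measure.map_apply T3_measurable_cons (.pi s.countable_toSet fun i _ => ht i)]
  have h1 : (fun x : Bool × (ℕ → Bool) => T3cons x.1 x.2) ⁻¹' (Set.pi (s : Set ℕ) t) =
      {b : Bool | 0 ∈ s → b ∈ t 0} ×ˢ
        (Set.pi ((s.preimage (fun k : ℕ => k + 1) (hinj.mono (subset_univ _)) : Finset ℕ) : Set ℕ)
          (fun k => t (k + 1))) := by
    ext ⟨b, r⟩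
    simp only [mem_preimage, Set.mem_pi, mem_prod, mem_ofPred_eq, Finset.mem_coe,
      Finset.mem_preimage]
    constructor
    · intro h
      exact ⟨fun h0 => h 0 h0, fun k hk => h (k + 1) hk⟩
    · rintro ⟨h0, h1⟩ i hi
      cases i with
      | zero => exact h0 hi
      | succ k => exact h1 k hi
  rw [h1, Measure.prod_prod]
  unfold bseq
  rw [Measure.infinitePi_pi _ (fun i _ => ht (i + 1))]
  have h2 : ∏ i ∈ s, (ber p) (t i) = ∏ i ∈ s, ((if i = 0 then (ber p) (t i) else 1) *
      (if i = 0 then 1 else (ber p) (t i))) := by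
    refine Finset.prod_congr rfl fun i _ => ?_
    split_ifs <;> simp
  rw [h2, Finset.prod_mul_distrib, Finset.prod_ite_eq']
  congr 1
  · by_cases h0 : 0 ∈ s
    · simp [h0]
    · have : {b : Bool | 0 ∈ s → b ∈ t 0} = univ := by
        ext b; simp [h0]
      rw [this, measure_univ, if_neg h0]
  · have := Finset.prod_preimage (fun k : ℕ => k + 1) s (hinj.mono (subset_univ _))
      (fun i => if i = 0 then (1 : ENNReal) else (ber p) (t i)) (by
        intro x _ hx
        cases x with
        | zero => simp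
        | succ k => exact absurd ⟨k, rfl⟩ hx)
    rw [← this]
    simp

private theorem T3_int_ber {p : ℝ} (hp : 0 ≤ p ∧ p ≤ 1) (F : Bool → ℝ) :
    ∫ b, F b ∂(ber p) = bw p true * F true + bw p false * F false := by
  have h : max 0 (min 1 p) = p := by
    rw [min_eq_right hp.2, max_eq_right hp.1]
  unfold ber
  rw [h, integral_add_measure ((integrable_dirac (by simp)).smul_measure ENNReal.ofReal_ne_top)
    ((integrable_dirac (by simp)).smul_measure ENNReal.ofReal_ne_top),
    integral_smul_measure, integral_smul_measure, integral_dirac, integral_dirac,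
    ENNReal.toReal_ofReal hp.1, ENNReal.toReal_ofReal (by linarith [hp.2])]
  simp [bw]

private theorem T3_integrable {α : Type} [MeasurableSpace α] {μ : Measure α}
    [IsProbabilityMeasure μ] {f : α → ℝ} (hf : Measurable f) {C : ℝ} (hC : ∀ x, |f x| ≤ C) :
    Integrable f μ :=
  Integrable.of_bound hf.aestronglyMeasurable C (Filter.Eventually.of_forall hC)

private theorem T3_int_bseq {p : ℝ} (hp : 0 ≤ p ∧ p ≤ 1) {f : (ℕ → Bool) → ℝ}
    (hf : Measurable f) {C : ℝ} (hC : ∀ x, |f x| ≤ C) :
    ∫ r, f r ∂(bseq p) = bw p true * ∫ r, f (T3cons true r) ∂(bseq p) +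
      bw p false * ∫ r, f (T3cons false r) ∂(bseq p) := by
  conv_lhs => rw [← T3_bseq_cons p]
  rw [integral_map T3_measurable_cons.aemeasurable hf.aestronglyMeasurable,
    integral_prod (fun x : Bool × (ℕ → Bool) => f (T3cons x.1 x.2))
      (T3_integrable (hf.comp T3_measurable_cons) fun x => hC _),
    T3_int_ber hp]

/-- bounded measurable functions of a triple of sequences -/
private theorem T3_int_triple {q be a : ℝ} (hq : 0 ≤ q ∧ q ≤ 1) (hbe : 0 ≤ be ∧ be ≤ 1)
    (ha : 0 ≤ a ∧ a ≤ 1) {f : (ℕ → Bool) × (ℕ → Bool) × (ℕ → Bool) → ℝ}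
    (hf : Measurable f) {C : ℝ} (hC : ∀ x, |f x| ≤ C) :
    ∫ x, f x ∂((bseq q).prod ((bseq be).prod (bseq a))) =
      ∑ b : Bool, ∑ c : Bool, ∑ e : Bool, bw q b * (bw be c * (bw a e *
        ∫ x, f (T3cons b x.1, T3cons c x.2.1, T3cons e x.2.2)
          ∂((bseq q).prod ((bseq be).prod (bseq a))))) := by
  have hm1 : ∀ g : (ℕ → Bool) × (ℕ → Bool) × (ℕ → Bool) → ℝ, Measurable g →
      Measurable fun r => ∫ y, g (r, y) ∂((bseq be).prod (bseq a)) := fun g hg =>
    (hg.stronglyMeasurable.integral_prod_right (f := fun r y => g (r, y))).measurable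
  have hm2 : ∀ g : (ℕ → Bool) × (ℕ → Bool) → ℝ, Measurable g →
      Measurable fun u => ∫ s, g (u, s) ∂(bseq a) := fun g hg =>
    (hg.stronglyMeasurable.integral_prod_right (f := fun r y => g (r, y))).measurable
  have hb1 : ∀ {β : Type} [MeasurableSpace β] (ν : Measure β) [IsProbabilityMeasure ν]
      (g : β → ℝ), (∀ y, |g y| ≤ C) → |∫ y, g y ∂ν| ≤ C := by
    intro β _ ν _ g hg
    have := norm_integral_le_of_norm_le_const (μ := ν) (f := g) (C := C)
      (Filter.Eventually.of_forall hg)
    simpa using this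
  have hfub : ∀ g : (ℕ → Bool) × (ℕ → Bool) × (ℕ → Bool) → ℝ, Measurable g →
      (∀ x, |g x| ≤ C) → ∫ x, g x ∂((bseq q).prod ((bseq be).prod (bseq a))) =
        ∫ r, (∫ u, (∫ s, g (r, u, s) ∂(bseq a)) ∂(bseq be)) ∂(bseq q) := by
    intro g hg hgC
    rw [integral_prod _ (T3_integrable hg hgC)]
    congr 1
    funext r
    rw [integral_prod (fun y : (ℕ → Bool) × (ℕ → Bool) => g (r, y))
      (T3_integrable (hg.comp (measurable_const.prodMk measurable_id)) fun x => hgC _)]
  have hm3 : ∀ g : (ℕ → Bool) × (ℕ → Bool) × (ℕ → Bool) → ℝ, Measurable g →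
      (∀ x, |g x| ≤ C) → Measurable fun r => ∫ u, (∫ s, g (r, u, s) ∂(bseq a)) ∂(bseq be) := by
    intro g hg hgC
    have h1 : (fun r => ∫ u, (∫ s, g (r, u, s) ∂(bseq a)) ∂(bseq be)) =
        fun r => ∫ y, g (r, y) ∂((bseq be).prod (bseq a)) := by
      funext r
      rw [integral_prod (fun y : (ℕ → Bool) × (ℕ → Bool) => g (r, y))
        (T3_integrable (hg.comp (measurable_const.prodMk measurable_id)) fun x => hgC _)]
    rw [h1]
    exact hm1 g hg
  have hstep : ∀ r : ℕ → Bool, (∫ u, (∫ s, f (r, u, s) ∂(bseq a)) ∂(bseq be)) =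
      ∑ c : Bool, ∑ e : Bool, bw be c * (bw a e *
        ∫ u, (∫ s, f (r, T3cons c u, T3cons e s) ∂(bseq a)) ∂(bseq be)) := by
    intro r
    have hfr : Measurable fun y : (ℕ → Bool) × (ℕ → Bool) => f (r, y.1, y.2) :=
      hf.comp (measurable_const.prodMk measurable_id)
    have hin : ∀ u : ℕ → Bool, ∫ s, f (r, u, s) ∂(bseq a) =
        bw a true * ∫ s, f (r, u, T3cons true s) ∂(bseq a) +
          bw a false * ∫ s, f (r, u, T3cons false s) ∂(bseq a) := fun u =>
      T3_int_bseq ha (f := fun s => f (r, u, s)) (hfr.comp (measurable_const.prodMk measurable_id))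
        (C := C) fun s => hC _
    have hmc : ∀ e : Bool, Measurable fun u => ∫ s, f (r, u, T3cons e s) ∂(bseq a) := fun e =>
      hm2 (fun y => f (r, y.1, T3cons e y.2)) (hf.comp (measurable_const.prodMk
        (measurable_fst.prodMk ((T3_measurable_cons' e).comp measurable_snd))))
    have hbc : ∀ (e : Bool) (u : ℕ → Bool), |∫ s, f (r, u, T3cons e s) ∂(bseq a)| ≤ C :=
      fun e u => hb1 _ _ fun s => hC _
    have h1 : ∀ e : Bool, ∫ u, (∫ s, f (r, u, T3cons e s) ∂(bseq a)) ∂(bseq be) =
        bw be true * ∫ u, (∫ s, f (r, T3cons true u, T3cons e s) ∂(bseq a)) ∂(bseq be) +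
          bw be false * ∫ u, (∫ s, f (r, T3cons false u, T3cons e s) ∂(bseq a)) ∂(bseq be) :=
      fun e => T3_int_bseq hbe (hmc e) (hbc e)
    simp_rw [hin]
    rw [integral_add ((T3_integrable (hmc true) (hbc true)).const_mul _)
      ((T3_integrable (hmc false) (hbc false)).const_mul _), integral_const_mul,
      integral_const_mul, h1 true, h1 false]
    simp only [Fintype.sum_bool]
    ring
  have hFC : ∀ g : (ℕ → Bool) × (ℕ → Bool) × (ℕ → Bool) → ℝ, (∀ x, |g x| ≤ C) →
      ∀ r, |∫ u, (∫ s, g (r, u, s) ∂(bseq a)) ∂(bseq be)| ≤ C := fun g hg r =>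
    hb1 _ _ fun u => hb1 _ _ fun s => hg _
  have hmf : ∀ b c e : Bool, Measurable fun x : (ℕ → Bool) × (ℕ → Bool) × (ℕ → Bool) =>
      f (T3cons b x.1, T3cons c x.2.1, T3cons e x.2.2) := fun b c e =>
    hf.comp (((T3_measurable_cons' b).comp measurable_fst).prodMk
      (((T3_measurable_cons' c).comp (measurable_fst.comp measurable_snd)).prodMk
        ((T3_measurable_cons' e).comp (measurable_snd.comp measurable_snd))))
  have hmf' : ∀ b c e : Bool, Measurable fun r => ∫ u, (∫ s, f (T3cons b r, T3cons c u,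
      T3cons e s) ∂(bseq a)) ∂(bseq be) := fun b c e => hm3 _ (hmf b c e) fun x => hC _
  have hbf' : ∀ (b c e : Bool) (r : ℕ → Bool), |∫ u, (∫ s, f (T3cons b r, T3cons c u,
      T3cons e s) ∂(bseq a)) ∂(bseq be)| ≤ C := fun b c e r =>
    hb1 _ _ fun u => hb1 _ _ fun s => hC _
  have hb : ∀ b : Bool, ∫ r, (∫ u, (∫ s, f (T3cons b r, u, s) ∂(bseq a)) ∂(bseq be)) ∂(bseq q) =
      ∑ c : Bool, ∑ e : Bool, bw be c * (bw a e *
        ∫ x, f (T3cons b x.1, T3cons c x.2.1, T3cons e x.2.2)
          ∂((bseq q).prod ((bseq be).prod (bseq a)))) := by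
    intro b
    have hi : ∀ c e : Bool, Integrable (fun r => bw be c * (bw a e * ∫ u, (∫ s, f (T3cons b r,
        T3cons c u, T3cons e s) ∂(bseq a)) ∂(bseq be))) (bseq q) := fun c e =>
      ((T3_integrable (hmf' b c e) (hbf' b c e)).const_mul _).const_mul _
    simp_rw [hstep]
    rw [integral_finsetSum _ fun c _ => integrable_finsetSum _ fun e _ => hi c e]
    refine Finset.sum_congr rfl fun c _ => ?_
    rw [integral_finsetSum _ fun e _ => hi c e]
    refine Finset.sum_congr rfl fun e _ => ?_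
    rw [integral_const_mul, integral_const_mul, hfub _ (hmf b c e) fun x => hC _]
  rw [hfub f hf hC, T3_int_bseq hq (hm3 f hf hC) (hFC f hC), hb true, hb false]
  simp only [Fintype.sum_bool]
  ring

/-- infection chain with initial value `z` -/
private def T3Z (z : Bool) (r u : ℕ → Bool) : ℕ → Bool
  | 0 => z
  | k + 1 => (T3Z z r u k && !r k) || u k

/-- spin flip chain with initial value `x` -/
private def T3X (x : Bool) (r u : ℕ → Bool) : ℕ → Bool
  | 0 => x
  | k + 1 => if T3X x r u k then !r k else u k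

private theorem T3Z_true (r u : ℕ → Bool) (k : ℕ) : T3Z true r u k = Zp r u k := by
  induction k with
  | zero => rfl
  | succ k ih => simp only [T3Z, Zp, ih]

private theorem T3X_false (r u : ℕ → Bool) (k : ℕ) : T3X false r u k = Xp r u k := by
  induction k with
  | zero => rfl
  | succ k ih => simp only [T3X, Xp, ih]

private theorem T3Z_cons (z b c : Bool) (r u : ℕ → Bool) (k : ℕ) :
    T3Z z (T3cons b r) (T3cons c u) (k + 1) = T3Z ((z && !b) || c) r u k := by
  induction k with
  | zero => rfl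
  | succ k ih => rw [T3Z, ih, T3Z]; rfl

private theorem T3X_cons (x b c : Bool) (r u : ℕ → Bool) (k : ℕ) :
    T3X x (T3cons b r) (T3cons c u) (k + 1) = T3X (if x then !b else c) r u k := by
  induction k with
  | zero => rfl
  | succ k ih => rw [T3X, ih, T3X]; rfl

private theorem T3Z_meas (z : Bool) (k : ℕ) :
    Measurable (fun p : (ℕ → Bool) × (ℕ → Bool) => T3Z z p.1 p.2 k) := by
  induction k with
  | zero => exact measurable_const
  | succ k ih =>
    have h1 : Measurable fun p : (ℕ → Bool) × (ℕ → Bool) => p.1 k :=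
      (measurable_pi_apply k).comp measurable_fst
    have h2 : Measurable fun p : (ℕ → Bool) × (ℕ → Bool) => p.2 k :=
      (measurable_pi_apply k).comp measurable_snd
    exact (measurable_of_countable fun t : Bool × Bool × Bool => (t.1 && !t.2.1) || t.2.2).comp
      (ih.prodMk (h1.prodMk h2))

private theorem T3X_meas (z : Bool) (k : ℕ) :
    Measurable (fun p : (ℕ → Bool) × (ℕ → Bool) => T3X z p.1 p.2 k) := by
  induction k with
  | zero => exact measurable_const
  | succ k ih =>
    have h1 : Measurable fun p : (ℕ → Bool) × (ℕ → Bool) => p.1 k :=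
      (measurable_pi_apply k).comp measurable_fst
    have h2 : Measurable fun p : (ℕ → Bool) × (ℕ → Bool) => p.2 k :=
      (measurable_pi_apply k).comp measurable_snd
    exact (measurable_of_countable fun t : Bool × Bool × Bool =>
      (if t.1 then !t.2.1 else t.2.2)).comp (ih.prodMk (h1.prodMk h2))

theorem measurable_Zp (k : ℕ) : Measurable (fun p : (ℕ → Bool) × (ℕ → Bool) => Zp p.1 p.2 k) := by
  simp_rw [← T3Z_true]
  exact T3Z_meas true k

theorem measurable_Xp (k : ℕ) : Measurable (fun p : (ℕ → Bool) × (ℕ → Bool) => Xp p.1 p.2 k) := by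
  simp_rw [← T3X_false]
  exact T3X_meas false k

private theorem T3_bdd {K : ℕ} (Φ : (Fin K → Bool) → (Fin K → Bool) → ℝ) :
    ∃ C, ∀ x y, |Φ x y| ≤ C := by
  obtain ⟨C, hC⟩ := (Set.finite_range fun p : (Fin K → Bool) × (Fin K → Bool) =>
    |Φ p.1 p.2|).bddAbove
  exact ⟨C, fun x y => hC ⟨(x, y), rfl⟩⟩

private theorem T3_meas_Φ {K : ℕ} (Φ : (Fin K → Bool) → (Fin K → Bool) → ℝ) {α : Type}
    [MeasurableSpace α] {g h : α → Fin K → Bool} (hg : ∀ k, Measurable fun a => g a k)
    (hh : ∀ k, Measurable fun a => h a k) : Measurable fun a => Φ (g a) (h a) :=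
  (measurable_of_countable fun p : (Fin K → Bool) × (Fin K → Bool) => Φ p.1 p.2).comp
    ((measurable_pi_iff.2 hg).prodMk (measurable_pi_iff.2 hh))

private theorem T3_measZ {K : ℕ} (Φ : (Fin K → Bool) → (Fin K → Bool) → ℝ) (z : Bool) :
    Measurable fun x : (ℕ → Bool) × (ℕ → Bool) × (ℕ → Bool) =>
      Φ (fun k => T3Z z x.1 x.2.1 (k + 1)) (fun k => x.2.2 k && T3Z z x.1 x.2.1 k) := by
  have h0 : ∀ k : ℕ, Measurable fun x : (ℕ → Bool) × (ℕ → Bool) × (ℕ → Bool) =>
      T3Z z x.1 x.2.1 k := fun k =>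
    (T3Z_meas z k).comp (measurable_fst.prodMk (measurable_fst.comp measurable_snd))
  refine T3_meas_Φ Φ (fun k => h0 (k + 1)) fun k => ?_
  have h1 : Measurable fun x : (ℕ → Bool) × (ℕ → Bool) × (ℕ → Bool) => x.2.2 k :=
    (measurable_pi_apply (k : ℕ)).comp (measurable_snd.comp measurable_snd)
  exact (measurable_of_countable fun t : Bool × Bool => t.1 && t.2).comp (h1.prodMk (h0 k))

private theorem T3_measX {K : ℕ} (Φ : (Fin K → Bool) → (Fin K → Bool) → ℝ) (z : Bool) :
    Measurable fun x : (ℕ → Bool) × (ℕ → Bool) × (ℕ → Bool) =>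
      Φ (fun k => T3X z x.1 x.2.1 (k + 1)) (fun k => x.2.2 k) := by
  have h0 : ∀ k : ℕ, Measurable fun x : (ℕ → Bool) × (ℕ → Bool) × (ℕ → Bool) =>
      T3X z x.1 x.2.1 k := fun k =>
    (T3X_meas z k).comp (measurable_fst.prodMk (measurable_fst.comp measurable_snd))
  exact T3_meas_Φ Φ (fun k => h0 (k + 1)) fun k =>
    (measurable_pi_apply (k : ℕ)).comp (measurable_snd.comp measurable_snd)

private theorem T3_chE {q be a : ℝ} (hq : 0 ≤ q ∧ q ≤ 1) (hbe : 0 ≤ be ∧ be ≤ 1)
    (ha : 0 ≤ a ∧ a ≤ 1) (K : ℕ) : ∀ (Φ : (Fin K → Bool) → (Fin K → Bool) → ℝ) (z : Bool),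
    ∫ x, Φ (fun k => T3Z z x.1 x.2.1 (k + 1)) (fun k => x.2.2 k && T3Z z x.1 x.2.1 k)
      ∂((bseq q).prod ((bseq be).prod (bseq a))) = chE q be a K Φ z := by
  induction K with
  | zero =>
    intro Φ z
    have : ∀ x : (ℕ → Bool) × (ℕ → Bool) × (ℕ → Bool),
        Φ (fun k => T3Z z x.1 x.2.1 (k + 1)) (fun k => x.2.2 k && T3Z z x.1 x.2.1 k) =
          Φ Fin.elim0 Fin.elim0 := by
      intro x
      congr 1 <;> exact Subsingleton.elim _ _
    simp_rw [this]
    simp [chE]
  | succ K ih =>
    intro Φ z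
    obtain ⟨C, hC⟩ := T3_bdd Φ
    rw [T3_int_triple hq hbe ha (T3_measZ Φ z) (C := C) fun x => hC _ _]
    have hcons : ∀ b c e : Bool,
        ∫ x : (ℕ → Bool) × (ℕ → Bool) × (ℕ → Bool),
          Φ (fun k : Fin (K + 1) => T3Z z (T3cons b x.1) (T3cons c x.2.1) (k + 1))
            (fun k : Fin (K + 1) => T3cons e x.2.2 k && T3Z z (T3cons b x.1) (T3cons c x.2.1) k)
          ∂((bseq q).prod ((bseq be).prod (bseq a))) =
        chE q be a K (fun x y => Φ (Fin.cons ((z && !b) || c) x) (Fin.cons (e && z) y))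
          ((z && !b) || c) := by
      intro b c e
      rw [← ih]
      congr 1
      funext x
      congr 1
      · funext k
        refine Fin.cases ?_ (fun j => ?_) k
        · simp [T3Z, T3cons]
        · simp [T3Z_cons]
      · funext k
        refine Fin.cases ?_ (fun j => ?_) k
        · simp [T3Z, T3cons]
        · simp [T3Z_cons, T3cons]
    simp only [hcons]
    cases z
    · simp only [chE, Fintype.sum_bool, em, pz, bw, Bool.false_and, Bool.false_or, Bool.and_false,
        if_true, Bool.false_eq_true, if_false]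
      ring
    · simp only [chE, Fintype.sum_bool, em, pz, bw, Bool.true_and, Bool.not_true, Bool.not_false,
        Bool.true_or, Bool.false_or, Bool.and_true, if_true, Bool.false_eq_true, if_false]
      ring

private theorem T3_flE {q ae ka : ℝ} (hq : 0 ≤ q ∧ q ≤ 1) (hae : 0 ≤ ae ∧ ae ≤ 1)
    (hka : 0 ≤ ka ∧ ka ≤ 1) (K : ℕ) : ∀ (Φ : (Fin K → Bool) → (Fin K → Bool) → ℝ) (z : Bool),
    ∫ x, Φ (fun k => T3X z x.1 x.2.1 (k + 1)) (fun k => x.2.2 k)
      ∂((bseq q).prod ((bseq ae).prod (bseq ka))) = flE q ae ka K Φ z := by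
  induction K with
  | zero =>
    intro Φ z
    have : ∀ x : (ℕ → Bool) × (ℕ → Bool) × (ℕ → Bool),
        Φ (fun k => T3X z x.1 x.2.1 (k + 1)) (fun k => x.2.2 k) =
          Φ Fin.elim0 Fin.elim0 := by
      intro x
      congr 1 <;> exact Subsingleton.elim _ _
    simp_rw [this]
    simp [flE]
  | succ K ih =>
    intro Φ z
    obtain ⟨C, hC⟩ := T3_bdd Φ
    rw [T3_int_triple hq hae hka (T3_measX Φ z) (C := C) fun x => hC _ _]
    have hcons : ∀ b c e : Bool,
        ∫ x : (ℕ → Bool) × (ℕ → Bool) × (ℕ → Bool),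
          Φ (fun k : Fin (K + 1) => T3X z (T3cons b x.1) (T3cons c x.2.1) (k + 1))
            (fun k : Fin (K + 1) => T3cons e x.2.2 k)
          ∂((bseq q).prod ((bseq ae).prod (bseq ka))) =
        flE q ae ka K (fun x y => Φ (Fin.cons (if z then !b else c) x) (Fin.cons e y))
          (if z then !b else c) := by
      intro b c e
      rw [← ih]
      congr 1
      funext x
      congr 1
      · funext k
        refine Fin.cases ?_ (fun j => ?_) k
        · simp [T3X, T3cons]
        · simp [T3X_cons]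
      · funext k
        refine Fin.cases ?_ (fun j => ?_) k
        · simp [T3cons]
        · simp [T3cons]
    simp only [hcons]
    cases z
    · simp only [flE, Fintype.sum_bool, px, bw, if_true, Bool.false_eq_true, if_false]
      ring
    · simp only [flE, Fintype.sum_bool, px, bw, Bool.not_true, Bool.not_false, if_true,
        Bool.false_eq_true, if_false]
      ring

/-- extension of a path by `z` at time `0` and by `0` after time `K` -/
private def T3extL (K : ℕ) (z : Bool) (x : Fin K → Bool) : ℕ → Bool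
  | 0 => z
  | k + 1 => if h : k < K then x ⟨k, h⟩ else false

private def T3extE (K : ℕ) (y : Fin K → Bool) : ℕ → Bool :=
  fun k => if h : k < K then y ⟨k, h⟩ else false

private theorem T3extL_mono (K : ℕ) {z z' : Bool} (hz : z ≤ z') {x x' : Fin K → Bool}
    (h : x ≤ x') : T3extL K z x ≤ T3extL K z' x' := by
  intro k
  cases k with
  | zero => exact hz
  | succ k =>
    simp only [T3extL]
    split_ifs with hk
    · exact h ⟨k, hk⟩
    · exact le_rfl

private theorem T3extE_mono (K : ℕ) {x x' : Fin K → Bool}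
    (h : x ≤ x') : T3extE K x ≤ T3extE K x' := by
  intro k
  simp only [T3extE]
  split_ifs with hk
  · exact h ⟨k, hk⟩
  · exact le_rfl

private theorem T3_cutL (K : ℕ) (x : ℕ → Bool) :
    cutL K x = T3extL K (x 0) (fun k : Fin K => x (k + 1)) := by
  funext k
  cases k with
  | zero => simp [cutL, T3extL]
  | succ k =>
    simp only [cutL, T3extL]
    split_ifs with hk
    · have : decide (k + 1 ≤ K) = true := by simpa using hk
      rw [this, Bool.and_true]
    · have : decide (k + 1 ≤ K) = false := by simpa using hk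
      rw [this, Bool.and_false]

private theorem T3_cutE (K : ℕ) (x : ℕ → Bool) :
    cutE K x = T3extE K (fun k : Fin K => x k) := by
  funext k
  simp only [cutE, T3extE]
  split_ifs with hk
  · have : decide (k < K) = true := by simpa using hk
    rw [this, Bool.and_true]
  · have : decide (k < K) = false := by simpa using hk
    rw [this, Bool.and_false]

private theorem T3_meas_cutL (K : ℕ) : Measurable (cutL K) := by
  refine measurable_pi_iff.2 fun k => ?_
  exact (measurable_of_countable fun b : Bool => b && decide (k ≤ K)).comp (measurable_pi_apply k)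

private theorem T3_meas_cutE (K : ℕ) : Measurable (cutE K) := by
  refine measurable_pi_iff.2 fun k => ?_
  exact (measurable_of_countable fun b : Bool => b && decide (k < K)).comp (measurable_pi_apply k)

theorem ssl_sto {q be a ae ka : ℝ} (hq : 0 ≤ q ∧ q ≤ 1) (hbe : 0 ≤ be ∧ be ≤ 1)
    (ha : 0 ≤ a ∧ a ≤ 1) (hae : 0 ≤ ae ∧ ae ≤ 1) (hka : 0 ≤ ka ∧ ka ≤ 1) (K : ℕ)
    (h : ∀ Φ : (Fin K → Bool) → (Fin K → Bool) → ℝ, Mono2 Φ →
      flE q ae ka K Φ false ≤ chE q be a K Φ true) :
    Sto (flL q ae ka K) (chL q be a K) := by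
  intro f hmono hmeas hbd
  obtain ⟨C, hC⟩ := hbd
  have hm1 : Measurable fun p : (ℕ → Bool) × (ℕ → Bool) × (ℕ → Bool) =>
      (cutL K (Xp p.1 p.2.1), cutE K p.2.2) :=
    ((T3_meas_cutL K).comp (measurable_pi_iff.2 fun k => (measurable_Xp k).comp
      (measurable_fst.prodMk (measurable_fst.comp measurable_snd)))).prodMk
      ((T3_meas_cutE K).comp (measurable_snd.comp measurable_snd))
  have hm2 : Measurable fun p : (ℕ → Bool) × (ℕ → Bool) × (ℕ → Bool) =>
      (cutL K (Zp p.1 p.2.1), cutE K (fun k => p.2.2 k && Zp p.1 p.2.1 k)) := by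
    have hz : ∀ k, Measurable fun p : (ℕ → Bool) × (ℕ → Bool) × (ℕ → Bool) => Zp p.1 p.2.1 k :=
      fun k => (measurable_Zp k).comp
        (measurable_fst.prodMk (measurable_fst.comp measurable_snd))
    refine ((T3_meas_cutL K).comp (measurable_pi_iff.2 hz)).prodMk
      ((T3_meas_cutE K).comp (measurable_pi_iff.2 fun k => ?_))
    have h1 : Measurable fun x : (ℕ → Bool) × (ℕ → Bool) × (ℕ → Bool) => x.2.2 k :=
      (measurable_pi_apply k).comp (measurable_snd.comp measurable_snd)
    exact (measurable_of_countable fun t : Bool × Bool => t.1 && t.2).comp (h1.prodMk (hz k))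
  unfold flL chL
  rw [integral_map hm1.aemeasurable hmeas.aestronglyMeasurable,
    integral_map hm2.aemeasurable hmeas.aestronglyMeasurable]
  have e1 : ∫ p, f (cutL K (Xp p.1 p.2.1), cutE K p.2.2)
      ∂((bseq q).prod ((bseq ae).prod (bseq ka))) =
        flE q ae ka K (fun x y => f (T3extL K false x, T3extE K y)) false := by
    rw [← T3_flE hq hae hka]
    congr 1
    funext p
    rw [T3_cutL, T3_cutE]
    simp only [T3X_false]
    rfl
  have e2 : ∫ p, f (cutL K (Zp p.1 p.2.1), cutE K (fun k => p.2.2 k && Zp p.1 p.2.1 k))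
      ∂((bseq q).prod ((bseq be).prod (bseq a))) =
        chE q be a K (fun x y => f (T3extL K true x, T3extE K y)) true := by
    rw [← T3_chE hq hbe ha]
    congr 1
    funext p
    rw [T3_cutL, T3_cutE]
    simp only [T3Z_true]
    rfl
  rw [e1, e2]
  refine (h _ fun x x' y y' hx hy => hmono ⟨T3extL_mono K le_rfl hx, T3extE_mono K hy⟩).trans ?_
  rw [← T3_chE hq hbe ha, ← T3_chE hq hbe ha]
  refine integral_mono (T3_integrable
    (T3_measZ (fun x y => f (T3extL K false x, T3extE K y)) true) (C := C) fun x => hC _)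
    (T3_integrable (T3_measZ (fun x y => f (T3extL K true x, T3extE K y)) true) (C := C)
      fun x => hC _) fun x => ?_
  refine hmono (Prod.mk_le_mk.2 ⟨T3extL_mono K (Bool.false_le true) le_rfl, le_rfl⟩)

end H50CP
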