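import Pool.Agent.H50.CP.T2
import Pool.Agent.H50.CP.T3

/-!
# T4: induction over the depth of the tree

`tree_sto`: induction on `n`.
* `n = 0`: `FX K (e,p) ≤ (cutL K true, cutE K p)`, and `Sto (law of cutE K p) (law of cutE K s)`
  (`p ~ bseq ka`, `s ~ bseq a`) follows from `hS` by projecting on the second coordinate and
  `cutE K (s && Z) ≤ cutE K s`; finally `FZ 0 K e = (cutL K true, cutE K (e []).2)`.
* `n → n+1`.  Let `G : ((ℕ→Bool)×(ℕ→Bool)) × (Fin d → (List (Fin d) → ℕ → Bool) × (ℕ → Bool)) → …`,
  `G (ρ, φ) = (root ↦ cutL K (Zp ρ.1 (U φ)), i :: w ↦ (φ i).1 w ; cutE K (ρ.2 && Zp ρ.1 (U φ)))`,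
  `U φ k = [∃ i, (φ i).2 k]`.  `G` is measurable and monotone in `φ`, and
  `FZ (n+1) K (glue ρ g) = G (ρ, i ↦ FZ n K (g i))` (the value of `Zp r u` at times `≤ K` only
  depends on `u` at times `< K`).  By `tenv_glue`, `Sto.pi`, `Sto.prod` (with `Sto.refl`), `Sto.map`:
  the law of `FZ (n+1) K` dominates the law of `G (ρ, i ↦ FX K (e_i, p_i))`.
  Here `(e_i, p_i)_i` can be replaced by the independent pair `((e_i)_i, (p_i)_i)`
  (`measurePreserving_arrowProdEquivProdArrow` or `Measure.pi` uniqueness), and `U` by a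
  `bseq (1-(1-ka)^d)` sequence (`union_law`), so that the law is the image of
  `(chL q be a K) × (law of (e_i)_i)` under
  `((z, y), (e_i)) ↦ (root ↦ z, i :: w ↦ cutL K (X of e_i w); y)`.
  `hS` and `Sto.prod`, `Sto.map`: it dominates the image of `(flL q ae ka K) × (law of (e_i)_i)`, which
  is the law of `FX K` (`tenv_glue`).
-/

namespace H50CP

open MeasureTheory ProbabilityTheory Set
open scoped Classical

private theorem t4_sf {A : Type*} {_ : MeasurableSpace A} (μ : Measure A) [IsProbabilityMeasure μ] :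
    SFinite μ := by
  have h1 : IsFiniteMeasure μ := IsZeroOrProbabilityMeasure.toIsFiniteMeasure μ
  have h2 : SigmaFinite μ := IsFiniteMeasure.toSigmaFinite μ
  exact @instSFiniteOfSigmaFinite _ _ _ h2

private theorem t4_and {A : Type*} [MeasurableSpace A] {f g : A → Bool} (hf : Measurable f) (hg : Measurable g) :
    Measurable (fun x => f x && g x) :=
  (measurable_of_countable (fun p : Bool × Bool => p.1 && p.2)).comp (hf.prodMk hg)

private theorem t4_ex {A : Type*} [MeasurableSpace A] {d : ℕ} {P : Fin d → A → Prop}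
    {inst : ∀ x, Decidable (∃ i, P i x)}
    (h : ∀ i, MeasurableSet {x | P i x}) : Measurable (fun x => @decide (∃ i, P i x) (inst x)) := by
  refine measurable_to_bool ?_
  have : (fun x => @decide (∃ i, P i x) (inst x)) ⁻¹' {true} = ⋃ i, {x | P i x} := by
    ext x; simp
  rw [this]
  exact MeasurableSet.iUnion h

private theorem t4_true {A : Type*} [MeasurableSpace A] {f : A → Bool} (hf : Measurable f) :
    MeasurableSet {x | f x = true} := hf (measurableSet_singleton true)

theorem measurable_zt {d : ℕ} (n : ℕ) (w : List (Fin d)) (k : ℕ) :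
    Measurable (fun e : TE d => zt n e w k) := by
  induction n generalizing w k with
  | zero => exact measurable_const
  | succ n ih =>
    cases w with
    | nil =>
      have hsub : ∀ i : Fin d, Measurable (fun e : TE d => fun v => e (i :: v)) := fun i =>
        measurable_pi_lambda _ fun v => measurable_pi_apply _
      have h2 : Measurable (fun e : TE d => fun j : ℕ => decide (∃ i : Fin d, (e [i]).2 j = true ∧
          zt n (fun v => e (i :: v)) [] j = true)) := by
        refine measurable_pi_lambda _ fun j => t4_ex fun i => ?_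
        have h3 : Measurable (fun e : TE d => (e [i]).2 j) :=
          (measurable_pi_apply j).comp (measurable_snd.comp (measurable_pi_apply [i]))
        have h4 : Measurable (fun e : TE d => zt n (fun v => e (i :: v)) [] j) := (ih [] j).comp (hsub i)
        exact (t4_true h3).inter (t4_true h4)
      have h1 : Measurable (fun e : TE d => (e []).1) := measurable_fst.comp (measurable_pi_apply [])
      exact (measurable_Zp k).comp (h1.prodMk h2)
    | cons i w =>
      have hsub : Measurable (fun e : TE d => fun v => e (i :: v)) :=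
        measurable_pi_lambda _ fun v => measurable_pi_apply _
      exact (ih w k).comp hsub

private theorem t4_cutL {A : Type*} [MeasurableSpace A] {K : ℕ} {f : A → ℕ → Bool}
    (hf : ∀ k, Measurable (fun x => f x k)) : Measurable (fun x => cutL K (f x)) :=
  measurable_pi_lambda _ fun k => t4_and (hf k) measurable_const

private theorem t4_cutE {A : Type*} [MeasurableSpace A] {K : ℕ} {f : A → ℕ → Bool}
    (hf : ∀ k, Measurable (fun x => f x k)) : Measurable (fun x => cutE K (f x)) :=
  measurable_pi_lambda _ fun k => t4_and (hf k) measurable_const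

theorem measurable_FZ {d : ℕ} (n K : ℕ) : Measurable (FZ (d := d) n K) := by
  refine Measurable.prodMk ?_ ?_
  · exact measurable_pi_lambda _ fun w => t4_cutL fun k => measurable_zt n w k
  · refine t4_cutE fun k => t4_and ?_ (measurable_zt n [] k)
    exact (measurable_pi_apply k).comp (measurable_snd.comp (measurable_pi_apply []))

theorem measurable_FX {d : ℕ} (K : ℕ) : Measurable (FX (d := d) K) := by
  refine Measurable.prodMk ?_ ?_
  · refine measurable_pi_lambda _ fun w => t4_cutL fun k => ?_
    have h : Measurable (fun e : TE d × (ℕ → Bool) => e.1 w) := (measurable_pi_apply w).comp measurable_fst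
    exact (measurable_Xp k).comp h
  · exact t4_cutE fun k => (measurable_pi_apply k).comp measurable_snd

/-- integration over an independent variable which is not ordered -/
private theorem t4_fix {A B C : Type} [MeasurableSpace A] [MeasurableSpace B] [Preorder B]
    [MeasurableSpace C] [Preorder C] (κ : Measure A) [IsProbabilityMeasure κ] {μ ν : Measure B}
    [IsProbabilityMeasure μ] [IsProbabilityMeasure ν] (h : Sto μ ν) {F : A × B → C}
    (hF : Measurable F) (hm : ∀ a, Monotone (fun b => F (a, b))) :
    Sto ((κ.prod μ).map F) ((κ.prod ν).map F) := by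
  intro f hf1 hf2 hf3
  obtain ⟨c, hc⟩ := hf3
  rw [integral_map hF.aemeasurable hf2.aestronglyMeasurable,
    integral_map hF.aemeasurable hf2.aestronglyMeasurable]
  have hi : ∀ (ρ : Measure B) [IsProbabilityMeasure ρ], Integrable (fun x => f (F x)) (κ.prod ρ) := by
    intro ρ _
    refine Integrable.of_bound (hf2.comp hF).aestronglyMeasurable c (Filter.Eventually.of_forall fun x => ?_)
    rw [Real.norm_eq_abs]; exact hc _
  rw [integral_prod _ (hi μ), integral_prod _ (hi ν)]
  refine integral_mono (hi μ).integral_prod_left (hi ν).integral_prod_left fun a => ?_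
  exact h (fun b => f (F (a, b))) (hf1.comp (hm a)) (hf2.comp (hF.comp measurable_prodMk_left))
    ⟨c, fun b => hc _⟩

private theorem t4_Zp_congr {r u u' : ℕ → Bool} {k : ℕ} (h : ∀ j < k, u j = u' j) :
    Zp r u k = Zp r u' k := by
  induction k with
  | zero => rfl
  | succ k ih =>
    simp only [Zp]
    rw [ih (fun j hj => h j (by omega)), h k (by omega)]

private theorem t4_Zp_mono {r u u' : ℕ → Bool} (h : u ≤ u') (k : ℕ) : Zp r u k ≤ Zp r u' k := by
  induction k with
  | zero => exact le_rfl
  | succ k ih =>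
    have h1 := h k
    simp only [Zp]
    rw [Bool.le_iff_imp] at *
    simp only [Bool.or_eq_true, Bool.and_eq_true]
    rintro (⟨h2, h3⟩ | h2)
    · exact Or.inl ⟨ih h2, h3⟩
    · exact Or.inr (h1 h2)

private theorem t4_cutL_congr {K : ℕ} {x y : ℕ → Bool} (h : ∀ k ≤ K, x k = y k) : cutL K x = cutL K y := by
  funext k
  unfold cutL
  by_cases hk : k ≤ K
  · rw [h k hk]
  · simp [hk]

private theorem t4_cutE_congr {K : ℕ} {x y : ℕ → Bool} (h : ∀ k < K, x k = y k) : cutE K x = cutE K y := by
  funext k
  unfold cutE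
  by_cases hk : k < K
  · rw [h k hk]
  · simp [hk]

private theorem t4_cutL_mono {K : ℕ} {x y : ℕ → Bool} (h : x ≤ y) : cutL K x ≤ cutL K y := by
  intro k
  have := h k
  unfold cutL
  rw [Bool.le_iff_imp] at *
  simp only [Bool.and_eq_true]
  exact fun h2 => ⟨this h2.1, h2.2⟩

private theorem t4_cutE_mono {K : ℕ} {x y : ℕ → Bool} (h : x ≤ y) : cutE K x ≤ cutE K y := by
  intro k
  have := h k
  unfold cutE
  rw [Bool.le_iff_imp] at *
  simp only [Bool.and_eq_true]
  exact fun h2 => ⟨this h2.1, h2.2⟩


/-- union of the sequences -/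
private noncomputable def t4_U {d : ℕ} (φ : Fin d → ℕ → Bool) (k : ℕ) : Bool :=
  decide (∃ i, φ i k = true)

private theorem t4_U_meas {d : ℕ} : Measurable (t4_U (d := d)) := by
  refine measurable_pi_lambda _ fun k => t4_ex fun i => ?_
  exact t4_true ((measurable_pi_apply k).comp (measurable_pi_apply i))

private theorem t4_U_mono {d : ℕ} {φ ψ : Fin d → ℕ → Bool} (h : φ ≤ ψ) : t4_U φ ≤ t4_U ψ := by
  intro k
  unfold t4_U
  rw [Bool.le_iff_imp]
  simp only [decide_eq_true_eq]
  rintro ⟨i, hi⟩
  have := h i k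
  rw [Bool.le_iff_imp] at this
  exact ⟨i, this hi⟩

/-- the field at the root and the emitted arrows in terms of the subtrees -/
private noncomputable def t4_G {d : ℕ} (K : ℕ)
    (x : ((ℕ → Bool) × (ℕ → Bool)) × (Fin d → (List (Fin d) → ℕ → Bool) × (ℕ → Bool))) :
    (List (Fin d) → ℕ → Bool) × (ℕ → Bool) :=
  (fun w => match w with
    | [] => cutL K (Zp x.1.1 (t4_U fun i => (x.2 i).2))
    | i :: w => (x.2 i).1 w,
   cutE K (fun k => x.1.2 k && Zp x.1.1 (t4_U fun i => (x.2 i).2) k))

private theorem t4_Zp_meas {A : Type*} [MeasurableSpace A] {r u : A → ℕ → Bool} (hr : Measurable r)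
    (hu : Measurable u) (k : ℕ) : Measurable (fun x => Zp (r x) (u x) k) :=
  (measurable_Zp k).comp (hr.prodMk hu)

private theorem t4_Xp_meas {A : Type*} [MeasurableSpace A] {r u : A → ℕ → Bool} (hr : Measurable r)
    (hu : Measurable u) (k : ℕ) : Measurable (fun x => Xp (r x) (u x) k) :=
  (measurable_Xp k).comp (hr.prodMk hu)

private theorem t4_G_meas {d : ℕ} (K : ℕ) : Measurable (t4_G (d := d) K) := by
  have hU : Measurable (fun x : ((ℕ → Bool) × (ℕ → Bool)) ×
      (Fin d → (List (Fin d) → ℕ → Bool) × (ℕ → Bool)) => t4_U fun i => (x.2 i).2) := by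
    refine t4_U_meas.comp (measurable_pi_lambda _ fun i => ?_)
    exact measurable_snd.comp ((measurable_pi_apply i).comp measurable_snd)
  have hZ := fun k => t4_Zp_meas (r := fun x : ((ℕ → Bool) × (ℕ → Bool)) ×
      (Fin d → (List (Fin d) → ℕ → Bool) × (ℕ → Bool)) => x.1.1) (measurable_fst.comp measurable_fst) hU k
  refine Measurable.prodMk ?_ ?_
  · refine measurable_pi_lambda _ fun w => ?_
    cases w with
    | nil => exact t4_cutL hZ
    | cons i w =>
      exact (measurable_pi_apply w).comp (measurable_fst.comp ((measurable_pi_apply i).comp measurable_snd))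
  · refine t4_cutE fun k => t4_and ?_ (hZ k)
    exact (measurable_pi_apply k).comp (measurable_snd.comp measurable_fst)

private theorem t4_G_mono {d : ℕ} (K : ℕ) (ρ : (ℕ → Bool) × (ℕ → Bool)) :
    Monotone (fun φ : Fin d → (List (Fin d) → ℕ → Bool) × (ℕ → Bool) => t4_G K (ρ, φ)) := by
  intro φ ψ h
  have hU : t4_U (fun i => (φ i).2) ≤ t4_U (fun i => (ψ i).2) := t4_U_mono fun i => (h i).2
  refine ⟨?_, ?_⟩
  · intro w
    cases w with
    | nil => exact t4_cutL_mono fun k => t4_Zp_mono hU k
    | cons i w => exact (h i).1 w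
  · refine t4_cutE_mono fun k => ?_
    have := t4_Zp_mono (r := ρ.1) hU k
    rw [Bool.le_iff_imp] at *
    simp only [Bool.and_eq_true]
    exact fun h2 => ⟨h2.1, this h2.2⟩

private theorem t4_FZ_glue {d : ℕ} (n K : ℕ) (ρ : (ℕ → Bool) × (ℕ → Bool)) (g : Fin d → TE d) :
    FZ (n + 1) K (glue ρ g) = t4_G K (ρ, fun i => FZ n K (g i)) := by
  have key : ∀ k ≤ K, zt (n + 1) (glue ρ g) [] k = Zp ρ.1 (t4_U fun i => (FZ n K (g i)).2) k := by
    intro k hk
    have h1 : zt (n + 1) (glue ρ g) [] k = Zp ρ.1 (fun j => decide (∃ i : Fin d, (g i []).2 j = true ∧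
        zt n (g i) [] j = true)) k := rfl
    rw [h1]
    refine t4_Zp_congr fun j hj => ?_
    rw [Bool.eq_iff_iff]
    simp only [t4_U, FZ, cutE, decide_eq_true_eq, Bool.and_eq_true]
    constructor
    · rintro ⟨i, h2, h3⟩
      exact ⟨i, ⟨h2, h3⟩, by omega⟩
    · rintro ⟨i, ⟨h2, h3⟩, _⟩
      exact ⟨i, h2, h3⟩
  refine Prod.ext ?_ ?_
  · funext w
    cases w with
    | nil => exact t4_cutL_congr key
    | cons i w => rfl
  · refine t4_cutE_congr fun k hk => ?_
    rw [key k hk.le]
    rfl

/-- the fields in terms of the subtrees of the spin flips and of the root -/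
private noncomputable def t4_J {d : ℕ} (K : ℕ) (x : (Fin d → TE d) × ((ℕ → Bool) × (ℕ → Bool))) :
    (List (Fin d) → ℕ → Bool) × (ℕ → Bool) :=
  (fun w => match w with
    | [] => x.2.1
    | i :: w => cutL K (Xp (x.1 i w).1 (x.1 i w).2), x.2.2)

private theorem t4_J_meas {d : ℕ} (K : ℕ) : Measurable (t4_J (d := d) K) := by
  refine Measurable.prodMk ?_ (measurable_snd.comp measurable_snd)
  refine measurable_pi_lambda _ fun w => ?_
  cases w with
  | nil => exact measurable_fst.comp measurable_snd
  | cons i w =>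
    have h : Measurable (fun x : (Fin d → TE d) × ((ℕ → Bool) × (ℕ → Bool)) => x.1 i w) :=
      (measurable_pi_apply w).comp ((measurable_pi_apply i).comp measurable_fst)
    exact t4_cutL fun k => (measurable_Xp k).comp h

private theorem t4_J_mono {d : ℕ} (K : ℕ) (es : Fin d → TE d) :
    Monotone (fun z : (ℕ → Bool) × (ℕ → Bool) => t4_J K (es, z)) := by
  intro z z' h
  refine ⟨?_, h.2⟩
  intro w
  cases w with
  | nil => exact h.1
  | cons i w => exact le_rfl

private theorem t4_FX_glue {d : ℕ} (K : ℕ) (ρ : (ℕ → Bool) × (ℕ → Bool)) (es : Fin d → TE d) (p : ℕ → Bool) :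
    FX K (glue ρ es, p) = t4_J K (es, (cutL K (Xp ρ.1 ρ.2), cutE K p)) := by
  refine Prod.ext ?_ rfl
  funext w
  cases w with
  | nil => rfl
  | cons i w => rfl

private theorem t4_G_FX {d : ℕ} (K : ℕ) (ρ : (ℕ → Bool) × (ℕ → Bool)) (x : Fin d → TE d × (ℕ → Bool)) :
    t4_G K (ρ, fun i => FX K (x i)) = t4_J K (fun i => (x i).1,
      (cutL K (Zp ρ.1 (t4_U fun i => (x i).2)),
        cutE K (fun k => ρ.2 k && Zp ρ.1 (t4_U fun i => (x i).2) k))) := by
  have key : ∀ k ≤ K, Zp ρ.1 (t4_U fun i => (FX K (x i)).2) k = Zp ρ.1 (t4_U fun i => (x i).2) k := by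
    intro k hk
    refine t4_Zp_congr fun j hj => ?_
    rw [Bool.eq_iff_iff]
    simp only [t4_U, FX, cutE, decide_eq_true_eq, Bool.and_eq_true]
    constructor
    · rintro ⟨i, h2, _⟩
      exact ⟨i, h2⟩
    · rintro ⟨i, h2⟩
      exact ⟨i, h2, by omega⟩
  refine Prod.ext ?_ ?_
  · funext w
    cases w with
    | nil => exact t4_cutL_congr key
    | cons i w => rfl
  · refine t4_cutE_congr fun k hk => ?_
    change (ρ.2 k && Zp ρ.1 (t4_U fun i => (FX K (x i)).2) k) = _
    rw [key k hk.le]

private theorem t4_glue (d : ℕ) (p p' : ℝ) :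
    MeasurePreserving (fun x : ((ℕ → Bool) × (ℕ → Bool)) × (Fin d → TE d) => glue x.1 x.2)
      (((bseq p).prod (bseq p')).prod (Measure.pi fun _ : Fin d => tenv d p p')) (tenv d p p') :=
  ⟨measurable_glue, tenv_glue d p p'⟩

private theorem t4_stepA {d : ℕ} (q a : ℝ) (n K : ℕ) :
    (tenv d q a).map (FZ (n + 1) K) =
      (((bseq q).prod (bseq a)).prod (Measure.pi fun _ : Fin d => (tenv d q a).map (FZ n K))).map (t4_G K) := by
  have : IsProbabilityMeasure ((tenv d q a).map (FZ n K)) :=
    Measure.isProbabilityMeasure_map (measurable_FZ n K).aemeasurable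
  have hm : Measurable (fun (g : Fin d → TE d) i => FZ n K (g i)) :=
    measurable_pi_lambda _ fun i => (measurable_FZ n K).comp (measurable_pi_apply i)
  calc (tenv d q a).map (FZ (n + 1) K)
      = (Measure.map (fun x : ((ℕ → Bool) × (ℕ → Bool)) × (Fin d → TE d) => glue x.1 x.2)
        (((bseq q).prod (bseq a)).prod (Measure.pi fun _ : Fin d => tenv d q a))).map (FZ (n + 1) K) := by
        rw [(t4_glue d q a).map_eq]
    _ = (((bseq q).prod (bseq a)).prod (Measure.pi fun _ : Fin d => tenv d q a)).map
        (t4_G K ∘ Prod.map id (fun (g : Fin d → TE d) i => FZ n K (g i))) := by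
        rw [Measure.map_map (measurable_FZ _ _) measurable_glue]
        congr 1
        funext x
        exact t4_FZ_glue n K x.1 x.2
    _ = ((((bseq q).prod (bseq a)).prod (Measure.pi fun _ : Fin d => tenv d q a)).map
        (Prod.map id (fun (g : Fin d → TE d) i => FZ n K (g i)))).map (t4_G K) := by
        rw [Measure.map_map (t4_G_meas K) (measurable_id.prodMap hm)]
    _ = _ := by
        rw [← Measure.map_prod_map _ _ measurable_id hm, Measure.map_id,
          Measure.pi_map_pi (fun i => (measurable_FZ n K).aemeasurable)]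

/-- rearrangement used for the infection chain -/
private theorem t4_re1 {A B C D : Type*} [MeasurableSpace A] [MeasurableSpace B] [MeasurableSpace C]
    [MeasurableSpace D] (μa : Measure A) (μb : Measure B) (μc : Measure C) (μd : Measure D)
    [IsProbabilityMeasure μa] [IsProbabilityMeasure μb] [IsProbabilityMeasure μc] [IsProbabilityMeasure μd] :
    MeasurePreserving (fun x : (A × B) × (C × D) => (x.2.1, (x.1.1, (x.2.2, x.1.2))))
      ((μa.prod μb).prod (μc.prod μd)) (μc.prod (μa.prod (μd.prod μb))) := by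
  have h1 : MeasurePreserving Prod.swap ((μa.prod μb).prod (μc.prod μd)) ((μc.prod μd).prod (μa.prod μb)) :=
    Measure.measurePreserving_swap
  have h2 := measurePreserving_prodAssoc μc μd (μa.prod μb)
  have h3 : MeasurePreserving (fun x : D × (A × B) => (x.2.1, (x.1, x.2.2))) (μd.prod (μa.prod μb))
      (μa.prod (μd.prod μb)) := by
    have k1 := (measurePreserving_prodAssoc μd μa μb).symm
    have k2 : MeasurePreserving (Prod.map Prod.swap id) ((μd.prod μa).prod μb) ((μa.prod μd).prod μb) :=
      (Measure.measurePreserving_swap (μ := μd) (ν := μa)).prod (MeasurePreserving.id μb)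
    have k3 := measurePreserving_prodAssoc μa μd μb
    exact k3.comp (k2.comp k1)
  have h4 := (MeasurePreserving.id μc).prod h3
  exact h4.comp (h2.comp h1)

/-- rearrangement used for the spin flips -/
private theorem t4_re2 {A B C D : Type*} [MeasurableSpace A] [MeasurableSpace B] [MeasurableSpace C]
    [MeasurableSpace D] (μa : Measure A) (μb : Measure B) (μc : Measure C) (μd : Measure D)
    [IsProbabilityMeasure μa] [IsProbabilityMeasure μb] [IsProbabilityMeasure μc] [IsProbabilityMeasure μd] :
    MeasurePreserving (fun x : C × (A × (B × D)) => (((x.2.1, x.2.2.1), x.1), x.2.2.2))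
      (μc.prod (μa.prod (μb.prod μd))) (((μa.prod μb).prod μc).prod μd) := by
  have h1 : MeasurePreserving (Prod.map id MeasurableEquiv.prodAssoc.symm) (μc.prod (μa.prod (μb.prod μd)))
      (μc.prod ((μa.prod μb).prod μd)) :=
    (MeasurePreserving.id μc).prod (measurePreserving_prodAssoc μa μb μd).symm
  have h2 := (measurePreserving_prodAssoc μc (μa.prod μb) μd).symm
  have h3 : MeasurePreserving (Prod.map Prod.swap id) ((μc.prod (μa.prod μb)).prod μd)
      (((μa.prod μb).prod μc).prod μd) :=
    (Measure.measurePreserving_swap (μ := μc) (ν := μa.prod μb)).prod (MeasurePreserving.id μd)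
  exact h3.comp (h2.comp h1)

private theorem t4_stepC {d : ℕ} {q a ae ka : ℝ} (hka : 0 ≤ ka ∧ ka ≤ 1) (K : ℕ) :
    (((bseq q).prod (bseq a)).prod
      (Measure.pi fun _ : Fin d => ((tenv d q ae).prod (bseq ka)).map (FX K))).map (t4_G K) =
    ((Measure.pi fun _ : Fin d => tenv d q ae).prod (chL q (1 - (1 - ka) ^ d) a K)).map (t4_J K) := by
  have : IsProbabilityMeasure (((tenv d q ae).prod (bseq ka)).map (FX (d := d) K)) :=
    Measure.isProbabilityMeasure_map (measurable_FX K).aemeasurable
  have hm : Measurable (fun (x : Fin d → TE d × (ℕ → Bool)) i => FX K (x i)) :=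
    measurable_pi_lambda _ fun i => (measurable_FX K).comp (measurable_pi_apply i)
  -- the measure preserving maps
  have ha : MeasurePreserving (Prod.map id (MeasurableEquiv.arrowProdEquivProdArrow (TE d) (ℕ → Bool) (Fin d)))
      (((bseq q).prod (bseq a)).prod (Measure.pi fun _ : Fin d => (tenv d q ae).prod (bseq ka)))
      (((bseq q).prod (bseq a)).prod ((Measure.pi fun _ : Fin d => tenv d q ae).prod
        (Measure.pi fun _ : Fin d => bseq ka))) :=
    (MeasurePreserving.id _).prod (measurePreserving_arrowProdEquivProdArrow (TE d) (ℕ → Bool) (Fin d)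
      (fun _ => tenv d q ae) (fun _ => bseq ka))
  have hU : MeasurePreserving (t4_U (d := d)) (Measure.pi fun _ : Fin d => bseq ka)
      (bseq (1 - (1 - ka) ^ d)) := by
    refine ⟨t4_U_meas, ?_⟩
    have h := union_law d hka.1 hka.2
    exact h
  have hb : MeasurePreserving (Prod.map id (Prod.map id (t4_U (d := d))))
      (((bseq q).prod (bseq a)).prod ((Measure.pi fun _ : Fin d => tenv d q ae).prod
        (Measure.pi fun _ : Fin d => bseq ka)))
      (((bseq q).prod (bseq a)).prod ((Measure.pi fun _ : Fin d => tenv d q ae).prod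
        (bseq (1 - (1 - ka) ^ d)))) :=
    (MeasurePreserving.id _).prod ((MeasurePreserving.id _).prod hU)
  have hc := t4_re1 (bseq q) (bseq a) (Measure.pi fun _ : Fin d => tenv d q ae) (bseq (1 - (1 - ka) ^ d))
  have hch : Measurable (fun p : (ℕ → Bool) × ((ℕ → Bool) × (ℕ → Bool)) =>
      (cutL K (Zp p.1 p.2.1), cutE K (fun k => p.2.2 k && Zp p.1 p.2.1 k))) := by
    have hZ := fun k => t4_Zp_meas (r := fun p : (ℕ → Bool) × ((ℕ → Bool) × (ℕ → Bool)) => p.1)
      (u := fun p => p.2.1) measurable_fst (measurable_fst.comp measurable_snd) k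
    refine Measurable.prodMk (t4_cutL hZ) (t4_cutE fun k => t4_and ?_ (hZ k))
    exact (measurable_pi_apply k).comp (measurable_snd.comp measurable_snd)
  have hd : MeasurePreserving (fun p : (ℕ → Bool) × ((ℕ → Bool) × (ℕ → Bool)) =>
      (cutL K (Zp p.1 p.2.1), cutE K (fun k => p.2.2 k && Zp p.1 p.2.1 k)))
      ((bseq q).prod ((bseq (1 - (1 - ka) ^ d)).prod (bseq a))) (chL q (1 - (1 - ka) ^ d) a K) :=
    ⟨hch, rfl⟩
  have hp1 : IsProbabilityMeasure ((bseq (1 - (1 - ka) ^ d)).prod (bseq a)) := inferInstance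
  have hp2 : IsProbabilityMeasure ((bseq q).prod ((bseq (1 - (1 - ka) ^ d)).prod (bseq a))) := inferInstance
  have hp3 : SFinite ((bseq q).prod ((bseq (1 - (1 - ka) ^ d)).prod (bseq a))) := t4_sf _
  have hd' := (MeasurePreserving.id (Measure.pi fun _ : Fin d => tenv d q ae)).prod hd
  have hall : MeasurePreserving
      ((Prod.map id (fun p : (ℕ → Bool) × ((ℕ → Bool) × (ℕ → Bool)) =>
          (cutL K (Zp p.1 p.2.1), cutE K (fun k => p.2.2 k && Zp p.1 p.2.1 k)))) ∘
        (fun x : ((ℕ → Bool) × (ℕ → Bool)) × ((Fin d → TE d) × (ℕ → Bool)) => (x.2.1, (x.1.1, (x.2.2, x.1.2)))) ∘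
          Prod.map id (Prod.map id t4_U) ∘
            Prod.map id (MeasurableEquiv.arrowProdEquivProdArrow (TE d) (ℕ → Bool) (Fin d)))
      (((bseq q).prod (bseq a)).prod (Measure.pi fun _ : Fin d => (tenv d q ae).prod (bseq ka)))
      ((Measure.pi fun _ : Fin d => tenv d q ae).prod (chL q (1 - (1 - ka) ^ d) a K)) :=
    hd'.comp (hc.comp (hb.comp ha))
  calc (((bseq q).prod (bseq a)).prod
        (Measure.pi fun _ : Fin d => ((tenv d q ae).prod (bseq ka)).map (FX K))).map (t4_G K)
      = ((((bseq q).prod (bseq a)).prod (Measure.pi fun _ : Fin d => (tenv d q ae).prod (bseq ka))).map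
        (Prod.map id (fun (x : Fin d → TE d × (ℕ → Bool)) i => FX K (x i)))).map (t4_G K) := by
        rw [← Measure.map_prod_map _ _ measurable_id hm, Measure.map_id,
          Measure.pi_map_pi (fun i => (measurable_FX K).aemeasurable)]
    _ = (((bseq q).prod (bseq a)).prod (Measure.pi fun _ : Fin d => (tenv d q ae).prod (bseq ka))).map
        (t4_G K ∘ Prod.map id (fun (x : Fin d → TE d × (ℕ → Bool)) i => FX K (x i))) :=
        Measure.map_map (t4_G_meas K) (measurable_id.prodMap hm)
    _ = _ := by
        have hfun : t4_G K ∘ Prod.map id (fun (x : Fin d → TE d × (ℕ → Bool)) i => FX K (x i)) =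
            t4_J K ∘ ((Prod.map id (fun p : (ℕ → Bool) × ((ℕ → Bool) × (ℕ → Bool)) =>
              (cutL K (Zp p.1 p.2.1), cutE K (fun k => p.2.2 k && Zp p.1 p.2.1 k)))) ∘
            (fun x : ((ℕ → Bool) × (ℕ → Bool)) × ((Fin d → TE d) × (ℕ → Bool)) =>
              (x.2.1, (x.1.1, (x.2.2, x.1.2)))) ∘
              Prod.map id (Prod.map id t4_U) ∘
                Prod.map id (MeasurableEquiv.arrowProdEquivProdArrow (TE d) (ℕ → Bool) (Fin d))) := by
          funext x
          exact t4_G_FX K x.1 x.2
        rw [hfun, ← Measure.map_map (t4_J_meas K) hall.measurable, hall.map_eq]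

private theorem t4_stepG {d : ℕ} {q ae ka : ℝ} (K : ℕ) :
    ((tenv d q ae).prod (bseq ka)).map (FX K) =
    ((Measure.pi fun _ : Fin d => tenv d q ae).prod (flL q ae ka K)).map (t4_J K) := by
  have hp1 : IsProbabilityMeasure ((bseq ae).prod (bseq ka)) := inferInstance
  have hp2 : IsProbabilityMeasure ((bseq q).prod ((bseq ae).prod (bseq ka))) := inferInstance
  have hp3 : SFinite ((bseq q).prod ((bseq ae).prod (bseq ka))) := t4_sf _
  have hfl : Measurable (fun p : (ℕ → Bool) × ((ℕ → Bool) × (ℕ → Bool)) =>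
      (cutL K (Xp p.1 p.2.1), cutE K p.2.2)) := by
    have hZ := fun k => t4_Xp_meas (r := fun p : (ℕ → Bool) × ((ℕ → Bool) × (ℕ → Bool)) => p.1)
      (u := fun p => p.2.1) measurable_fst (measurable_fst.comp measurable_snd) k
    exact Measurable.prodMk (t4_cutL hZ) (t4_cutE fun k =>
      (measurable_pi_apply k).comp (measurable_snd.comp measurable_snd))
  have hd : MeasurePreserving (fun p : (ℕ → Bool) × ((ℕ → Bool) × (ℕ → Bool)) =>
      (cutL K (Xp p.1 p.2.1), cutE K p.2.2))
      ((bseq q).prod ((bseq ae).prod (bseq ka))) (flL q ae ka K) := ⟨hfl, rfl⟩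
  have hd' := (MeasurePreserving.id (Measure.pi fun _ : Fin d => tenv d q ae)).prod hd
  have hr := t4_re2 (bseq q) (bseq ae) (Measure.pi fun _ : Fin d => tenv d q ae) (bseq ka)
  have hg := (t4_glue d q ae).prod (MeasurePreserving.id (bseq ka))
  have hall := hg.comp hr
  rw [← hall.map_eq, ← hd'.map_eq, Measure.map_map (measurable_FX K) hall.measurable,
    Measure.map_map (t4_J_meas K) hd'.measurable]
  congr 1
  funext x
  exact t4_FX_glue K (x.2.1, x.2.2.1) x.1 x.2.2.2

private theorem t4_base {q a ae ka : ℝ} (K : ℕ) {be : ℝ}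
    (hS : Sto (flL q ae ka K) (chL q be a K)) :
    Sto ((bseq ka).map (cutE K)) ((bseq a).map (cutE K)) := by
  have hcE : Measurable (cutE K) := measurable_pi_lambda _ fun k => t4_and (measurable_pi_apply k) measurable_const
  have hp1 : IsProbabilityMeasure ((bseq ae).prod (bseq ka)) := inferInstance
  have hp2 : IsProbabilityMeasure ((bseq be).prod (bseq a)) := inferInstance
  have hfl : Measurable (fun p : (ℕ → Bool) × ((ℕ → Bool) × (ℕ → Bool)) =>
      (cutL K (Xp p.1 p.2.1), cutE K p.2.2)) := by
    have hZ := fun k => t4_Xp_meas (r := fun p : (ℕ → Bool) × ((ℕ → Bool) × (ℕ → Bool)) => p.1)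
      (u := fun p => p.2.1) measurable_fst (measurable_fst.comp measurable_snd) k
    exact Measurable.prodMk (t4_cutL hZ) (t4_cutE fun k =>
      (measurable_pi_apply k).comp (measurable_snd.comp measurable_snd))
  have hch2 : Measurable (fun p : (ℕ → Bool) × ((ℕ → Bool) × (ℕ → Bool)) =>
      cutE K (fun k => p.2.2 k && Zp p.1 p.2.1 k)) := by
    have hZ := fun k => t4_Zp_meas (r := fun p : (ℕ → Bool) × ((ℕ → Bool) × (ℕ → Bool)) => p.1)
      (u := fun p => p.2.1) measurable_fst (measurable_fst.comp measurable_snd) k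
    refine t4_cutE fun k => t4_and ?_ (hZ k)
    exact (measurable_pi_apply k).comp (measurable_snd.comp measurable_snd)
  have hch : Measurable (fun p : (ℕ → Bool) × ((ℕ → Bool) × (ℕ → Bool)) =>
      (cutL K (Zp p.1 p.2.1), cutE K (fun k => p.2.2 k && Zp p.1 p.2.1 k))) := by
    have hZ := fun k => t4_Zp_meas (r := fun p : (ℕ → Bool) × ((ℕ → Bool) × (ℕ → Bool)) => p.1)
      (u := fun p => p.2.1) measurable_fst (measurable_fst.comp measurable_snd) k
    exact Measurable.prodMk (t4_cutL hZ) hch2
  have hsnd : ∀ (x y : ℝ), Measure.map (fun p : (ℕ → Bool) × ((ℕ → Bool) × (ℕ → Bool)) => cutE K p.2.2)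
      ((bseq q).prod ((bseq x).prod (bseq y))) = (bseq y).map (cutE K) := by
    intro x y
    have hp : IsProbabilityMeasure ((bseq x).prod (bseq y)) := inferInstance
    have e : (fun p : (ℕ → Bool) × ((ℕ → Bool) × (ℕ → Bool)) => cutE K p.2.2) =
        cutE K ∘ (Prod.snd ∘ Prod.snd) := rfl
    rw [e, ← Measure.map_map hcE (measurable_snd.comp measurable_snd),
      ← Measure.map_map measurable_snd measurable_snd, Measure.map_snd_prod, Measure.map_smul,
      Measure.map_snd_prod]
    simp
  have h1 := hS.map (g := Prod.snd) measurable_snd monotone_snd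
  have e1 : (flL q ae ka K).map Prod.snd = (bseq ka).map (cutE K) := by
    unfold flL
    rw [Measure.map_map measurable_snd hfl]
    exact hsnd ae ka
  have e2 : (chL q be a K).map Prod.snd = ((bseq q).prod ((bseq be).prod (bseq a))).map
      (fun p => cutE K (fun k => p.2.2 k && Zp p.1 p.2.1 k)) := by
    unfold chL
    rw [Measure.map_map measurable_snd hch]
    rfl
  rw [e1, e2] at h1
  refine h1.trans ?_
  rw [← hsnd be a]
  refine Sto.map_le hch2 (hcE.comp (measurable_snd.comp measurable_snd)) fun p => ?_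
  refine t4_cutE_mono fun k => ?_
  rw [Bool.le_iff_imp]
  simp only [Bool.and_eq_true]
  exact fun h => h.1

theorem tree_sto {d : ℕ} {q a ae ka : ℝ} (hka : 0 ≤ ka ∧ ka ≤ 1) (K : ℕ)
    (hS : Sto (flL q ae ka K) (chL q (1 - (1 - ka) ^ d) a K)) (n : ℕ) :
    Sto (((tenv d q ae).prod (bseq ka)).map (FX K)) ((tenv d q a).map (FZ n K)) := by
  have hcE : Measurable (cutE K) := measurable_pi_lambda _ fun k => t4_and (measurable_pi_apply k) measurable_const
  induction n with
  | zero =>
    have hpair : Measurable (fun p : ℕ → Bool => ((fun _ : List (Fin d) => cutL K (fun _ => true)), p)) :=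
      measurable_const.prodMk measurable_id
    have hmono : Monotone (fun p : ℕ → Bool => ((fun _ : List (Fin d) => cutL K (fun _ => true)), p)) :=
      fun p p' h => ⟨le_rfl, h⟩
    have hb := (t4_base K hS).map hpair hmono
    have e1 : ((bseq a).map (cutE K)).map
        (fun p : ℕ → Bool => ((fun _ : List (Fin d) => cutL K (fun _ => true)), p)) =
        (tenv d q a).map (FZ 0 K) := by
      have h1 : bseq a = (tenv d q a).map (fun e => (e []).2) := by
        have h2 : (fun e : TE d => (e []).2) = Prod.snd ∘ (fun e : TE d => e []) := rfl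
        rw [h2, ← Measure.map_map measurable_snd (measurable_pi_apply _)]
        unfold tenv
        rw [Measure.infinitePi_map_eval, Measure.map_snd_prod]
        simp
      have hm : Measurable (fun e : TE d => (e []).2) := measurable_snd.comp (measurable_pi_apply _)
      rw [h1, Measure.map_map hcE hm, Measure.map_map hpair (hcE.comp hm)]
      congr 1
      funext e
      refine Prod.ext rfl ?_
      refine t4_cutE_congr fun k _ => ?_
      simp [zt]
    have e2 : ((bseq ka).map (cutE K)).map
        (fun p : ℕ → Bool => ((fun _ : List (Fin d) => cutL K (fun _ => true)), p)) =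
        ((tenv d q ae).prod (bseq ka)).map (fun x => ((fun _ => cutL K (fun _ => true)), cutE K x.2)) := by
      have h1 : bseq ka = ((tenv d q ae).prod (bseq ka)).map Prod.snd := by
        rw [Measure.map_snd_prod]; simp
      conv_lhs => rw [h1]
      rw [Measure.map_map hcE measurable_snd, Measure.map_map hpair (hcE.comp measurable_snd)]
      rfl
    rw [← e1]
    refine Sto.trans ?_ hb
    rw [e2]
    refine Sto.map_le (measurable_FX K) (measurable_const.prodMk (hcE.comp measurable_snd)) fun x => ?_
    refine ⟨?_, le_rfl⟩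
    intro w
    change cutL K (Xp (x.1 w).1 (x.1 w).2) ≤ cutL K (fun _ => true)
    refine t4_cutL_mono fun k => ?_
    exact Bool.le_true _
  | succ n ih =>
    have hp1 : IsProbabilityMeasure (((tenv d q ae).prod (bseq ka)).map (FX (d := d) K)) :=
      Measure.isProbabilityMeasure_map (measurable_FX K).aemeasurable
    have hp2 : IsProbabilityMeasure ((tenv d q a).map (FZ n K)) :=
      Measure.isProbabilityMeasure_map (measurable_FZ n K).aemeasurable
    have hfl : IsProbabilityMeasure (flL q ae ka K) := by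
      have hZ := fun k => t4_Xp_meas (r := fun p : (ℕ → Bool) × ((ℕ → Bool) × (ℕ → Bool)) => p.1)
        (u := fun p => p.2.1) measurable_fst (measurable_fst.comp measurable_snd) k
      exact Measure.isProbabilityMeasure_map (Measurable.prodMk (t4_cutL hZ) (t4_cutE fun k =>
        (measurable_pi_apply k).comp (measurable_snd.comp measurable_snd))).aemeasurable
    have hch : IsProbabilityMeasure (chL q (1 - (1 - ka) ^ d) a K) := by
      have hZ := fun k => t4_Zp_meas (r := fun p : (ℕ → Bool) × ((ℕ → Bool) × (ℕ → Bool)) => p.1)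
        (u := fun p => p.2.1) measurable_fst (measurable_fst.comp measurable_snd) k
      refine Measure.isProbabilityMeasure_map (Measurable.prodMk (t4_cutL hZ) (t4_cutE fun k =>
        t4_and ?_ (hZ k))).aemeasurable
      exact (measurable_pi_apply k).comp (measurable_snd.comp measurable_snd)
    have hB := t4_fix ((bseq q).prod (bseq a)) (Sto.pi fun _ : Fin d => ih) (t4_G_meas K) (t4_G_mono K)
    have hF := t4_fix (Measure.pi fun _ : Fin d => tenv d q ae) hS (t4_J_meas K) (t4_J_mono K)
    rw [t4_stepA, t4_stepG]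
    rw [t4_stepC hka] at hB
    exact hF.trans hB

end H50CP
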