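import Pool.Agent.H50.CP.Disc
import Pool.Agent.H50.CP.SDefs

/-! # TDefs: stochastic domination, single-site paths, environments on the rooted tree -/

namespace H50CP

open MeasureTheory ProbabilityTheory Set
open scoped NNReal ENNReal Classical

/-- stochastic domination `μ ≤ ν` -/
def Sto {α : Type} [MeasurableSpace α] [Preorder α] (μ ν : Measure α) : Prop :=
  ∀ f : α → ℝ, Monotone f → Measurable f → (∃ C : ℝ, ∀ x, |f x| ≤ C) →
    ∫ x, f x ∂μ ≤ ∫ x, f x ∂ν

/-- infection chain of a single site: recoveries `r`, infections from outside `u` -/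
def Zp (r u : ℕ → Bool) : ℕ → Bool
  | 0 => true
  | k + 1 => (Zp r u k && !r k) || u k

/-- spin flip chain of a single site -/
def Xp (r u : ℕ → Bool) : ℕ → Bool
  | 0 => false
  | k + 1 => if Xp r u k then !r k else u k

/-- keep the times `≤ K` -/
def cutL (K : ℕ) (x : ℕ → Bool) : ℕ → Bool := fun k => x k && decide (k ≤ K)

/-- keep the times `< K` -/
def cutE (K : ℕ) (x : ℕ → Bool) : ℕ → Bool := fun k => x k && decide (k < K)

/-- law of the infection chain together with the emitted arrows -/
noncomputable def chL (q be a : ℝ) (K : ℕ) : Measure ((ℕ → Bool) × (ℕ → Bool)) :=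
  ((bseq q).prod ((bseq be).prod (bseq a))).map
    (fun p => (cutL K (Zp p.1 p.2.1), cutE K (fun k => p.2.2 k && Zp p.1 p.2.1 k)))

/-- law of the spin flip chain together with independent arrows -/
noncomputable def flL (q ae ka : ℝ) (K : ℕ) : Measure ((ℕ → Bool) × (ℕ → Bool)) :=
  ((bseq q).prod ((bseq ae).prod (bseq ka))).map
    (fun p => (cutL K (Xp p.1 p.2.1), cutE K p.2.2))

/-- environment on the rooted `d`-ary tree: two Boolean sequences at every word -/
abbrev TE (d : ℕ) : Type := List (Fin d) → (ℕ → Bool) × (ℕ → Bool)

/-- law of an environment: independent at the words, with parameters `p`, `p'` -/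
noncomputable def tenv (d : ℕ) (p p' : ℝ) : Measure (TE d) :=
  Measure.infinitePi fun _ : List (Fin d) => (bseq p).prod (bseq p')

instance (d : ℕ) (p p' : ℝ) : IsProbabilityMeasure (tenv d p p') := by
  unfold tenv; infer_instance

/-- environment with root `r` and subtrees `g i` -/
def glue {d : ℕ} (r : (ℕ → Bool) × (ℕ → Bool)) (g : Fin d → TE d) : TE d
  | [] => r
  | i :: w => g i w

/-- the infection field on the rooted tree when the words of length `≥ n` are always infected;
the environment is (recoveries, arrows to the parent) -/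
noncomputable def zt {d : ℕ} : (n : ℕ) → TE d → List (Fin d) → ℕ → Bool
  | 0, _, _, _ => true
  | n + 1, e, [], k =>
      Zp (e []).1 (fun j => decide (∃ i : Fin d, (e [i]).2 j = true ∧
        zt n (fun v => e (i :: v)) [] j = true)) k
  | n + 1, e, i :: w, k => zt n (fun v => e (i :: v)) w k

/-- fields of the infection process up to time `K`, and arrows emitted by the root -/
noncomputable def FZ {d : ℕ} (n K : ℕ) (e : TE d) : (List (Fin d) → ℕ → Bool) × (ℕ → Bool) :=
  (fun w => cutL K (zt n e w), cutE K (fun k => (e []).2 k && zt n e [] k))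

/-- fields of the spin flips up to time `K` (environment: down, up), and independent arrows -/
noncomputable def FX {d : ℕ} (K : ℕ) (e : TE d × (ℕ → Bool)) :
    (List (Fin d) → ℕ → Bool) × (ℕ → Bool) :=
  (fun w => cutL K (Xp (e.1 w).1 (e.1 w).2), cutE K e.2)

/-- parent of a vertex (the other root, for a root) -/
def par {d : ℕ} (x : TV d) : TV d := if x.2 = [] then (!x.1, []) else (x.1, x.2.dropLast)

/-- the two environments of the contact process on the tree -/
def envC {d : ℕ} (H : (TV d ⊕ (TV d × TV d)) → ℕ → Bool) (b : Bool) : TE d :=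
  fun w => (H (Sum.inl (b, w)), H (Sum.inr ((b, w), par (b, w))))

/-- the two environments of the spin flips on the tree -/
def envF {d : ℕ} (H : (TV d ⊕ TV d) → ℕ → Bool) (b : Bool) : TE d :=
  fun w => (H (Sum.inl (b, w)), H (Sum.inr (b, w)))

end H50CP
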